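import Mathlib

/-!
# Cuntz comparison of diagonal families

`Cle x y`: the diagonal matrix `diag x` is Cuntz below `diag y`.  Also `rsq η y = (y + η)^{-1/2}`.
-/

open scoped ComplexOrder

namespace Pool.Agent.Lib.EJS

variable {A : Type*} [CStarAlgebra A]

/-- Cuntz comparison of the diagonal matrices `diag x` and `diag y` -/
def Cle {ι κ : Type*} [Fintype ι] [Fintype κ] [DecidableEq ι] (x : ι → A) (y : κ → A) : Prop :=
  ∀ ε : ℝ, 0 < ε → ∃ R : κ → ι → A, ∀ i i',
    ‖(∑ k, star (R k i) * y k * R k i') - (if i = i' then x i else 0)‖ < ε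

section rsq

/-- `(y + η)^{-1/2}` -/
noncomputable def rsq (η : ℝ) (y : A) : A := cfc (fun t : ℝ => (√(t + η))⁻¹) y

theorem star_rsq (η : ℝ) (y : A) : star (rsq η y) = rsq η y :=
  (cfc_predicate (fun t : ℝ => (√(t + η))⁻¹) y : IsSelfAdjoint _)

theorem commute_rsq (η : ℝ) (y : A) : Commute (rsq η y) y := by
  by_cases hy : IsSelfAdjoint y
  · have h := cfc_commute_cfc (fun t : ℝ => (√(t + η))⁻¹) (id : ℝ → ℝ) y
    rwa [cfc_id ℝ y hy] at h
  · rw [rsq, cfc_apply_of_not_predicate y hy]
    exact Commute.zero_left y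

variable [PartialOrder A] [StarOrderedRing A]

theorem continuousOn_rsq {η : ℝ} (hη : 0 < η) {y : A} (hy : 0 ≤ y) :
    ContinuousOn (fun t : ℝ => (√(t + η))⁻¹) (spectrum ℝ y) := by
  refine ContinuousOn.inv₀ (by fun_prop) fun t ht => ?_
  have h1 : 0 ≤ t := spectrum_nonneg_of_nonneg hy ht
  exact (Real.sqrt_pos.2 (by linarith)).ne'

theorem rsq_mul_rsq {η : ℝ} (hη : 0 < η) {y : A} (hy : 0 ≤ y) :
    rsq η y * (y + algebraMap ℝ A η) * rsq η y = 1 := by
  have hsa : IsSelfAdjoint y := IsSelfAdjoint.of_nonneg hy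
  have hc := continuousOn_rsq hη hy
  have h1 : y + algebraMap ℝ A η = cfc (fun t : ℝ => t + η) y := by
    rw [cfc_add_const η (fun t : ℝ => t) y, cfc_id' ℝ y]
  rw [h1, rsq, ← cfc_mul (fun t : ℝ => (√(t + η))⁻¹) (fun t : ℝ => t + η) y hc (by fun_prop),
    ← cfc_mul (fun t : ℝ => (√(t + η))⁻¹ * (t + η)) (fun t : ℝ => (√(t + η))⁻¹) y
      (hc.mul (by fun_prop)) hc, ← cfc_const_one ℝ y]
  refine cfc_congr fun t ht => ?_
  have h2 : 0 ≤ t := spectrum_nonneg_of_nonneg hy ht
  have h3 : 0 < √(t + η) := Real.sqrt_pos.2 (by linarith)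
  have h4 : √(t + η) * √(t + η) = t + η := Real.mul_self_sqrt (by linarith)
  show (√(t + η))⁻¹ * (t + η) * (√(t + η))⁻¹ = 1
  generalize √(t + η) = a at h3 h4
  rw [← h4]
  field_simp

/-- `(y + η)^{-1/2} x (y + η)^{-1/2} ≤ 1` for `x ≤ y + η` -/
theorem rsq_conj_le {η : ℝ} (hη : 0 < η) {x y : A} (hy : 0 ≤ y)
    (hx : x ≤ y + algebraMap ℝ A η) : rsq η y * x * rsq η y ≤ 1 := by
  rw [← rsq_mul_rsq hη hy]
  have h1 := star_left_conjugate_le_conjugate hx (rsq η y)
  rwa [star_rsq] at h1

/-- `z^* (y + η)^{-1} y z` is close to `z^* z` -/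
theorem norm_rsq_sub_le {η : ℝ} (hη : 0 < η) {y z : A} (hy : 0 ≤ y)
    (hz : z * star z ≤ y + algebraMap ℝ A η) :
    ‖star (rsq η y * z) * y * (rsq η y * z) - star z * z‖ ≤ η := by
  have h1 : star (rsq η y * z) * y * (rsq η y * z) - star z * z =
      -(η • (star (rsq η y * z) * (rsq η y * z))) := by
    have h2 : star z * z = star (rsq η y * z) * (y + algebraMap ℝ A η) * (rsq η y * z) := by
      rw [star_mul, star_rsq]
      have h3 := rsq_mul_rsq hη hy
      have h4 : star z * rsq η y * (y + algebraMap ℝ A η) * (rsq η y * z) =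
          star z * (rsq η y * (y + algebraMap ℝ A η) * rsq η y) * z := by noncomm_ring
      rw [h4, h3, mul_one]
    rw [h2, mul_add, add_mul, Algebra.algebraMap_eq_smul_one, mul_smul_comm, mul_one,
      smul_mul_assoc]
    abel
  rw [h1, norm_neg, norm_smul, Real.norm_eq_abs, abs_of_pos hη]
  have h5 : ‖star (rsq η y * z) * (rsq η y * z)‖ ≤ 1 := by
    rw [CStarRing.norm_star_mul_self, ← CStarRing.norm_self_mul_star]
    rw [star_mul, star_rsq]
    have h6 : rsq η y * z * (star z * rsq η y) = rsq η y * (z * star z) * rsq η y := by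
      noncomm_ring
    rw [h6]
    have h7 := rsq_conj_le hη hy hz
    have h8 : 0 ≤ rsq η y * (z * star z) * rsq η y := by
      have := star_left_conjugate_nonneg (mul_star_self_nonneg z) (rsq η y)
      rwa [star_rsq] at this
    exact (CStarAlgebra.norm_le_one_iff_of_nonneg _ h8).2 h7
  calc η * ‖star (rsq η y * z) * (rsq η y * z)‖ ≤ η * 1 :=
        mul_le_mul_of_nonneg_left h5 hη.le
    _ = η := mul_one η

end rsq

namespace Cle

variable {ι κ μ : Type*} [Fintype ι] [Fintype κ] [Fintype μ] [DecidableEq ι]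

theorem refl (x : ι → A) : Cle x x := by
  intro ε hε
  refine ⟨fun k i => if k = i then 1 else 0, fun i i' => ?_⟩
  have h1 : ∑ k, star (if k = i then (1 : A) else 0) * x k * (if k = i' then 1 else 0) =
      if i = i' then x i else 0 := by
    rw [Finset.sum_eq_single i]
    · by_cases h : i = i' <;> simp [h]
    · intro k _ hk
      simp [hk]
    · intro h
      exact absurd (Finset.mem_univ _) h
  rw [h1, sub_self, norm_zero]
  exact hε

/-- a subfamily -/
theorem of_injective [DecidableEq κ] {j : ι → κ} (hj : Function.Injective j) (y : κ → A) :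
    Cle (fun i => y (j i)) y := by
  intro ε hε
  refine ⟨fun k i => if k = j i then 1 else 0, fun i i' => ?_⟩
  have h1 : ∑ k, star (if k = j i then (1 : A) else 0) * y k * (if k = j i' then 1 else 0) =
      if i = i' then y (j i) else 0 := by
    rw [Finset.sum_eq_single (j i)]
    · by_cases h : i = i'
      · simp [h]
      · have h2 : j i ≠ j i' := fun h' => h (hj h')
        simp [h, h2]
    · intro k _ hk
      simp [hk]
    · intro h
      exact absurd (Finset.mem_univ _) h
  rw [h1, sub_self, norm_zero]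
  exact hε

theorem comp_equiv [DecidableEq κ] (e : ι ≃ κ) (y : κ → A) : Cle (fun i => y (e i)) y :=
  of_injective e.injective y

theorem equiv_comp [DecidableEq κ] (e : ι ≃ κ) (y : κ → A) : Cle y (fun i => y (e i)) := by
  have h := of_injective (A := A) e.symm.injective (fun i => y (e i))
  simpa using h

theorem trans [DecidableEq κ] {x : ι → A} {y : κ → A} {z : μ → A} (h1 : Cle x y) (h2 : Cle y z) : Cle x z := by
  intro ε hε
  obtain ⟨R, hR⟩ := h1 (ε / 2) (by positivity)
  set C : ℝ := ∑ k, ∑ k', ∑ i, ∑ i', ‖R k i‖ * ‖R k' i'‖ with hC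
  have hC0 : 0 ≤ C := by positivity
  obtain ⟨S, hS⟩ := h2 (ε / (2 * (C + 1))) (by positivity)
  refine ⟨fun l i => ∑ k, S l k * R k i, fun i i' => ?_⟩
  have e1 : ∑ l, star (∑ k, S l k * R k i) * z l * (∑ k', S l k' * R k' i') =
      ∑ k, ∑ k', star (R k i) * (∑ l, star (S l k) * z l * S l k') * R k' i' := by
    have e2 : ∀ l, star (∑ k, S l k * R k i) * z l * (∑ k', S l k' * R k' i') =
        ∑ k, ∑ k', star (R k i) * (star (S l k) * z l * S l k') * R k' i' := by
      intro l
      rw [star_sum, Finset.sum_mul, Finset.sum_mul]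
      refine Finset.sum_congr rfl fun k _ => ?_
      rw [Finset.mul_sum]
      refine Finset.sum_congr rfl fun k' _ => ?_
      rw [star_mul]
      noncomm_ring
    rw [Finset.sum_congr rfl fun l _ => e2 l, Finset.sum_comm]
    refine Finset.sum_congr rfl fun k _ => ?_
    rw [Finset.sum_comm]
    refine Finset.sum_congr rfl fun k' _ => ?_
    rw [Finset.mul_sum, Finset.sum_mul]
  have e3 : ∑ k, star (R k i) * y k * R k i' =
      ∑ k, ∑ k', star (R k i) * (if k = k' then y k else 0) * R k' i' := by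
    refine Finset.sum_congr rfl fun k _ => ?_
    rw [Finset.sum_eq_single k]
    · rw [if_pos rfl]
    · intro k' _ hk'
      rw [if_neg (Ne.symm hk'), mul_zero, zero_mul]
    · intro h
      exact absurd (Finset.mem_univ _) h
  have e4 : ‖(∑ l, star (∑ k, S l k * R k i) * z l * (∑ k', S l k' * R k' i')) -
      ∑ k, star (R k i) * y k * R k i'‖ ≤ C * (ε / (2 * (C + 1))) := by
    rw [e1, e3, ← Finset.sum_sub_distrib]
    refine (norm_sum_le _ _).trans ?_
    have e5 : ∀ k ∈ Finset.univ, ‖∑ k', star (R k i) * (∑ l, star (S l k) * z l * S l k') * R k' i' -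
        ∑ k', star (R k i) * (if k = k' then y k else 0) * R k' i'‖ ≤
        ∑ k', ‖R k i‖ * ‖R k' i'‖ * (ε / (2 * (C + 1))) := by
      intro k _
      rw [← Finset.sum_sub_distrib]
      refine (norm_sum_le _ _).trans (Finset.sum_le_sum fun k' _ => ?_)
      rw [← sub_mul, ← mul_sub]
      calc ‖star (R k i) * ((∑ l, star (S l k) * z l * S l k') - (if k = k' then y k else 0)) *
            R k' i'‖
          ≤ ‖star (R k i)‖ * ‖(∑ l, star (S l k) * z l * S l k') -
            (if k = k' then y k else 0)‖ * ‖R k' i'‖ := by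
            refine (norm_mul_le _ _).trans ?_
            exact mul_le_mul_of_nonneg_right (norm_mul_le _ _) (norm_nonneg _)
        _ ≤ ‖R k i‖ * (ε / (2 * (C + 1))) * ‖R k' i'‖ := by
            rw [norm_star]
            refine mul_le_mul_of_nonneg_right ?_ (norm_nonneg _)
            exact mul_le_mul_of_nonneg_left (hS k k').le (norm_nonneg _)
        _ = ‖R k i‖ * ‖R k' i'‖ * (ε / (2 * (C + 1))) := by ring
    refine (Finset.sum_le_sum e5).trans ?_
    rw [hC, Finset.sum_mul]
    refine Finset.sum_le_sum fun k _ => ?_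
    rw [Finset.sum_mul]
    refine Finset.sum_le_sum fun k' _ => ?_
    refine mul_le_mul_of_nonneg_right ?_ (by positivity)
    have e6 : ‖R k i‖ * ‖R k' i'‖ ≤ ∑ i', ‖R k i‖ * ‖R k' i'‖ :=
      Finset.single_le_sum (f := fun i' => ‖R k i‖ * ‖R k' i'‖) (fun _ _ => by positivity)
        (Finset.mem_univ i')
    refine e6.trans ?_
    exact Finset.single_le_sum (f := fun i => ∑ i', ‖R k i‖ * ‖R k' i'‖) (fun _ _ => by positivity)
        (Finset.mem_univ i)
  have e7 : C * (ε / (2 * (C + 1))) ≤ ε / 2 := by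
    have : C * (ε / (2 * (C + 1))) = ε / 2 * (C / (C + 1)) := by field_simp
    rw [this]
    refine mul_le_of_le_one_right (by positivity) ?_
    rw [div_le_one (by positivity)]
    linarith
  calc ‖(∑ l, star (∑ k, S l k * R k i) * z l * (∑ k', S l k' * R k' i')) -
        (if i = i' then x i else 0)‖
      ≤ ‖(∑ l, star (∑ k, S l k * R k i) * z l * (∑ k', S l k' * R k' i')) -
        ∑ k, star (R k i) * y k * R k i'‖ +
        ‖(∑ k, star (R k i) * y k * R k i') - (if i = i' then x i else 0)‖ := norm_sub_le_norm_sub_add_norm_sub _ _ _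
    _ < ε / 2 + ε / 2 := add_lt_add_of_le_of_lt (e4.trans e7) (hR i i')
    _ = ε := by ring

/-- approximation on the left -/
theorem of_approx {x : ι → A} {y : κ → A}
    (h : ∀ ε : ℝ, 0 < ε → ∃ x' : ι → A, (∀ i, ‖x i - x' i‖ < ε) ∧ Cle x' y) : Cle x y := by
  intro ε hε
  obtain ⟨x', h1, h2⟩ := h (ε / 2) (by positivity)
  obtain ⟨R, hR⟩ := h2 (ε / 2) (by positivity)
  refine ⟨R, fun i i' => ?_⟩
  have h3 : ‖(if i = i' then x' i else 0) - (if i = i' then x i else 0)‖ < ε / 2 := by
    split_ifs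
    · rw [norm_sub_rev]
      exact h1 i
    · rw [sub_self, norm_zero]
      positivity
  calc ‖(∑ k, star (R k i) * y k * R k i') - (if i = i' then x i else 0)‖
      ≤ ‖(∑ k, star (R k i) * y k * R k i') - (if i = i' then x' i else 0)‖ +
        ‖(if i = i' then x' i else 0) - (if i = i' then x i else 0)‖ :=
          norm_sub_le_norm_sub_add_norm_sub _ _ _
    _ < ε / 2 + ε / 2 := add_lt_add (hR i i') h3
    _ = ε := by ring

/-- a family of single comparisons gives a comparison of diagonal families -/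
theorem of_single {x y : ι → A}
    (h : ∀ i, ∀ ε : ℝ, 0 < ε → ∃ r : A, ‖star r * y i * r - x i‖ < ε) : Cle x y := by
  intro ε hε
  choose r hr using fun i => h i ε hε
  refine ⟨fun k i => if k = i then r i else 0, fun i i' => ?_⟩
  have h1 : ∑ k, star (if k = i then r i else 0) * y k * (if k = i' then r i' else 0) =
      if i = i' then star (r i) * y i * r i else 0 := by
    rw [Finset.sum_eq_single i]
    · by_cases h : i = i'
      · subst h; simp
      · simp [h]
    · intro k _ hk
      simp [hk]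
    · intro h
      exact absurd (Finset.mem_univ _) h
  rw [h1]
  split_ifs
  · exact hr i
  · rw [sub_self, norm_zero]
    exact hε

theorem of_le [PartialOrder A] [StarOrderedRing A] {x y : ι → A} (h0 : ∀ i, 0 ≤ x i)
    (h : ∀ i, x i ≤ y i) : Cle x y := by
  refine of_single fun i ε hε => ?_
  have hy : 0 ≤ y i := (h0 i).trans (h i)
  have hη : 0 < ε / 2 := by positivity
  obtain ⟨z, hz⟩ := CStarAlgebra.nonneg_iff_eq_star_mul_self.1 (h0 i)
  have h1 : 0 ≤ algebraMap ℝ A (ε / 2) := algebraMap_nonneg A hη.le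
  -- use the positive square root of `x i`
  set s := CFC.sqrt (x i) with hs
  have hs1 : s * s = x i := CFC.sqrt_mul_sqrt_self (x i) (h0 i)
  have hs2 : star s = s := (IsSelfAdjoint.of_nonneg (CFC.sqrt_nonneg (x i)))
  have h2 : s * star s ≤ y i + algebraMap ℝ A (ε / 2) := by
    rw [hs2, hs1]
    exact (h i).trans (le_add_of_nonneg_right h1)
  have h3 := norm_rsq_sub_le hη hy h2
  rw [hs2, hs1] at h3
  exact ⟨rsq (ε / 2) (y i) * s, lt_of_le_of_lt h3 (by linarith)⟩

/-- several copies -/
theorem copies {σ : Type*} [Fintype σ] [DecidableEq σ] {x : ι → A} {y : κ → A} (h : Cle x y) :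
    Cle (fun p : σ × ι => x p.2) (fun p : σ × κ => y p.2) := by
  intro ε hε
  obtain ⟨R, hR⟩ := h ε hε
  refine ⟨fun k i => if k.1 = i.1 then R k.2 i.2 else 0, fun i i' => ?_⟩
  have h1 : ∑ k : σ × κ, star (if k.1 = i.1 then R k.2 i.2 else 0) * y k.2 *
      (if k.1 = i'.1 then R k.2 i'.2 else 0) =
      if i.1 = i'.1 then ∑ k, star (R k i.2) * y k * R k i'.2 else 0 := by
    rw [Fintype.sum_prod_type, Finset.sum_eq_single i.1]
    · by_cases h : i.1 = i'.1 <;> simp [h]
    · intro s _ hs
      simp [hs]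
    · intro h
      exact absurd (Finset.mem_univ _) h
  rw [h1]
  by_cases h2 : i.1 = i'.1
  · rw [if_pos h2]
    have h3 : (if i = i' then x i.2 else 0) = if i.2 = i'.2 then x i.2 else 0 := by
      by_cases h4 : i.2 = i'.2
      · rw [if_pos h4, if_pos (Prod.ext h2 h4)]
      · rw [if_neg h4, if_neg fun h5 => h4 (congrArg Prod.snd h5)]
    rw [h3]
    exact hR i.2 i'.2
  · rw [if_neg h2, if_neg fun h5 => h2 (congrArg Prod.fst h5), sub_self, norm_zero]
    exact hε

end Cle

end Pool.Agent.Lib.EJS
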