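import Pool.Agent.Lib.EJS.Cent
import Pool.Agent.Lib.EJS.Cuntz

/-!
# Almost unperforation

PROOF.  Let `R`, indexed by `(k, r), (i, l)`, `r < m`, `l ≤ m`, be a matrix for the hypothesis with error
`ε'`.  Take a central pair `e, s` of size `m` (i.e. `SeqRW` with `n = m - 1`) in `Seq A`.  Put
`V_r := e r 0`, `f := e 0 0 * e 0 0`, so `V_r* V_r' = δ f` (`e 0 r * e r' 0 = δ h e 0 0 = δ e 0 0 * e 0 0`).
For `η > 0` put `w(t) := (t + η)^{-3/2}` (continuous on the spectrum of `h`, which is in `[0,1]`),
`y_l := e 0 l * w(h)` for `l < m` and `y_m := s`.  Then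
`y_l* f y_l = w(h)² h³ e l l` for `l < m` (`e l 0 * e 0 0 = h e l 0`, twice, and `e l 0 * e 0 l = h e l l`), and
`y_m* f y_m = s* e 0 0 e 0 0 s = s* s = 1 - h`; `‖w(h)² h³ e_ll - e_ll‖ ≤ sup |t³/(t+η)³ - 1| t ≤ 3 η` since
`0 ≤ e_ll ≤ h` commute (`e l l` is positive: `e_ll³ = h e_ll² = e_ll h e_ll`; or use only
`‖g(h) e_ll‖² = ‖g(h)² h e_ll‖ ≤ ‖g(h)² h‖` with `e_ll² = h e_ll`, `‖e_ll‖ ≤ 1`).  So
`∑_{l ≤ m} y_l* f y_l` is close to `1`.
`T k i := ∑_{r < m} ∑_{l ≤ m} V_r * const (R (k,r) (i,l)) * y_l`.  As `V, y` commute with constants: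
`∑_k T_ki* y_k T_ki' = ∑_{l,l'} y_l* (∑_{k,r} R* y_k R)_{(i,l),(i',l')} f y_l' ≈ ∑_{l,l'} δ_{ll'} δ_{ii'} y_l* x_i f y_l' ≈ δ x_i`
in `Seq A`, with an error controlled by `ε'` (the norms of `y_l`, `f` do not depend on `R`) and `η`.  Lift
`T k i` to bounded sequences and take a large coordinate.
-/

open scoped ComplexOrder
open Filter Topology Pool.Agent.Lib.EqGamma

namespace Pool.Agent.Lib.EJS

/-- almost unperforation for diagonal families -/
def AlmostUnperf (A : Type*) [CStarAlgebra A] : Prop :=
  ∀ (p q m : ℕ), 0 < m → ∀ (x : Fin p → A) (y : Fin q → A),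
    Cle (fun r : Fin p × Fin (m + 1) => x r.1) (fun r : Fin q × Fin m => y r.1) → Cle x y

namespace AUAux

theorem cle_of_const {A : Type*} [CStarAlgebra A] {ι κ : Type*} [Fintype ι] [Fintype κ]
    [DecidableEq ι] {x : ι → A} {y : κ → A}
    (h : Cle (fun i => (Seq.const (x i) : Seq A)) (fun k => Seq.const (y k))) : Cle x y := by
  intro ε hε
  obtain ⟨R, hR⟩ := h ε hε
  choose T hT using fun k i => Seq.of_surjective (R k i)
  have h1 : ∀ i i', ∀ᶠ n in atTop, ‖(∑ k, star (BF.ev n (T k i)) * y k * BF.ev n (T k i')) -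
      (if i = i' then x i else 0)‖ < ε := by
    intro i i'
    have h2 := hR i i'
    have h3 : (∑ k, star (R k i) * Seq.const (y k) * R k i') -
        (if i = i' then (Seq.const (x i) : Seq A) else 0) =
        Seq.of ((∑ k, star (T k i) * BF.cst (y k) * T k i') -
          (if i = i' then BF.cst (x i) else 0)) := by
      rw [map_sub, map_sum]
      refine congrArg₂ (· - ·) ?_ ?_
      · refine Finset.sum_congr rfl fun k _ => ?_
        rw [map_mul, map_mul, map_star, hT, hT, Seq.const_apply]
      · split_ifs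
        · rfl
        · rw [map_zero]
    rw [h3] at h2
    filter_upwards [Seq.eventually_lt h2] with n hn
    have h4 : BF.ev n ((∑ k, star (T k i) * BF.cst (y k) * T k i') -
          (if i = i' then BF.cst (x i) else 0)) =
        (∑ k, star (BF.ev n (T k i)) * y k * BF.ev n (T k i')) - (if i = i' then x i else 0) := by
      rw [map_sub, map_sum]
      refine congrArg₂ (· - ·) ?_ ?_
      · refine Finset.sum_congr rfl fun k _ => ?_
        rw [map_mul, map_mul, map_star, BF.ev_cst]
      · split_ifs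
        · rfl
        · rw [map_zero]
    rwa [h4] at hn
  obtain ⟨n, hn⟩ :=
    (Filter.eventually_all.2 fun i => Filter.eventually_all.2 fun i' => h1 i i').exists
  exact ⟨fun k i => BF.ev n (T k i), fun i i' => hn i i'⟩

/-- the approximate conjugation of `f = e 0 0 ^ 2` onto the unit -/
theorem exists_VY {E : Type*} [CStarAlgebra E] {n : ℕ} {e : Fin (n + 1) → Fin (n + 1) → E} {s : E}
    (h : IsRW n e s) (η : ℝ) (hη : 0 < η) :
    ∃ (V : Fin (n + 1) → E) (f : E) (Y : Fin (n + 2) → E),
      (∀ r r', star (V r) * V r' = if r = r' then f else 0) ∧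
      ‖(∑ l, star (Y l) * f * Y l) - 1‖ ≤ 7 * η ∧
      ∀ b, (∀ i j, Commute b (e i j)) → Commute b s →
        (∀ r, Commute b (V r)) ∧ Commute b f ∧ ∀ l, Commute b (Y l) := by
  let _ := CStarAlgebra.spectralOrder E
  have := CStarAlgebra.spectralOrderedRing E
  set H : E := ∑ m, e m m with hH
  have hH0 : 0 ≤ H := by
    obtain ⟨c, hc⟩ := h.pos
    rw [hH, hc]
    exact star_mul_self_nonneg c
  have hHsa : IsSelfAdjoint H := IsSelfAdjoint.of_nonneg hH0
  have hHe : ∀ i j, Commute (e i j) H := by
    intro i j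
    have h1 : e i j * H = H * e i j := by
      rw [hH, Finset.mul_sum, Finset.sum_eq_single j]
      · rw [h.mul_e, if_pos rfl]
      · intro m _ hm
        rw [h.mul_e, if_neg (Ne.symm hm)]
      · intro h'
        exact absurd (Finset.mem_univ _) h'
    exact h1
  set q : E := rsq η H with hq
  have hqs : star q = q := star_rsq η H
  have hqH : Commute q H := commute_rsq η H
  have hqe : ∀ i j, Commute (e i j) q := fun i j =>
    (hHsa.commute_cfc ((hHe i j).symm) _).symm
  have hq1 : q * (H + algebraMap ℝ E η) * q = 1 := rsq_mul_rsq hη hH0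
  -- `u = 1 - q H q`
  set u : E := 1 - q * H * q with hu
  have hu1 : u = η • (q * q) := by
    rw [hu, ← hq1, mul_add, add_mul, Algebra.algebraMap_eq_smul_one, mul_smul_comm, mul_one,
      smul_mul_assoc]
    abel
  have hqHq0 : 0 ≤ q * H * q := by
    have := star_left_conjugate_nonneg hH0 q
    rwa [hqs] at this
  have hqHq1 : q * H * q ≤ 1 :=
    rsq_conj_le hη hH0 (le_add_of_nonneg_right (algebraMap_nonneg E hη.le))
  have hqHqn : ‖q * H * q‖ ≤ 1 := (CStarAlgebra.norm_le_one_iff_of_nonneg _ hqHq0).2 hqHq1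
  have hun : ‖u‖ ≤ 1 := by
    refine (CStarAlgebra.norm_le_one_iff_of_nonneg _ (sub_nonneg.2 hqHq1)).2 ?_
    exact sub_le_self _ hqHq0
  have huH : ‖u * H‖ ≤ η := by
    have h1 : u * H = η • (q * H * q) := by
      have h2 : q * q * H = q * H * q := by rw [mul_assoc, mul_assoc, hqH.eq]
      rw [hu1, smul_mul_assoc, h2]
    rw [h1, norm_smul, Real.norm_eq_abs, abs_of_pos hη]
    exact mul_le_of_le_one_right hη.le hqHqn
  set w : E := q * q * q with hw
  have hws : star w = w := by rw [hw, star_mul, star_mul, hqs, mul_assoc]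
  have hwH : Commute w H := (hqH.mul_left hqH).mul_left hqH
  have hwe : ∀ i j, Commute (e i j) w := fun i j =>
    ((hqe i j).mul_right (hqe i j)).mul_right (hqe i j)
  refine ⟨fun r => e r 0, e 0 0 * e 0 0, Fin.snoc (fun l => e 0 l * w) s, ?_, ?_, ?_⟩
  · intro r r'
    rw [h.star_e, h.mul_e]
    split_ifs with h1
    · rw [h.mul_e, if_pos rfl]
    · rfl
  · rw [Fin.sum_univ_castSucc]
    simp only [Fin.snoc_castSucc, Fin.snoc_last]
    have h1 : ∀ l : Fin (n + 1), star (e 0 l * w) * (e 0 0 * e 0 0) * (e 0 l * w) =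
        w * (H * H * H) * e l l * w := by
      intro l
      rw [star_mul, hws, h.star_e]
      have h2 : e l 0 * e 0 0 = H * e l 0 := by rw [h.mul_e, if_pos rfl]
      have h3 : e 0 0 * e 0 l = H * e 0 l := by rw [h.mul_e, if_pos rfl]
      have h4 : e l 0 * e 0 l = H * e l l := by rw [h.mul_e, if_pos rfl]
      calc w * e l 0 * (e 0 0 * e 0 0) * (e 0 l * w)
          = w * (e l 0 * e 0 0) * (e 0 0 * e 0 l) * w := by noncomm_ring
        _ = w * H * (e l 0 * H) * e 0 l * w := by rw [h2, h3]; noncomm_ring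
        _ = w * H * (H * e l 0) * e 0 l * w := by rw [(hHe l 0).eq]
        _ = w * H * H * (e l 0 * e 0 l) * w := by noncomm_ring
        _ = w * (H * H * H) * e l l * w := by rw [h4]; noncomm_ring
    rw [Finset.sum_congr rfl fun l _ => h1 l, ← Finset.sum_mul, ← Finset.mul_sum, ← hH]
    have h5 : star s * (e 0 0 * e 0 0) * s = 1 - H := by
      have h6 : star s * e 0 0 = star s := by
        have := congrArg star h.e_s
        rwa [star_mul, h.star_e] at this
      calc star s * (e 0 0 * e 0 0) * s = (star s * e 0 0) * (e 0 0 * s) := by noncomm_ring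
        _ = star s * s := by rw [h6, h.e_s]
        _ = 1 - H := h.star_s
    rw [h5]
    have h7 : w * (H * H * H) * H * w = (1 - u) * (1 - u) * (1 - u) * H := by
      have h8 : 1 - u = q * q * H := by
        rw [hu, sub_sub_cancel, mul_assoc, ← hqH.eq, ← mul_assoc]
      rw [h8, hw]
      have e1 : H * q = q * H := hqH.eq.symm
      have e2 : ∀ z : E, H * (q * z) = q * (H * z) := fun z => by
        rw [← mul_assoc, e1, mul_assoc]
      simp only [mul_assoc, e1, e2]
    rw [h7]
    have h9 : (1 - u) * (1 - u) * (1 - u) * H + (1 - H) - 1 =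
        -((3 - 3 * u + u * u) * (u * H)) := by noncomm_ring
    rw [h9, norm_neg]
    have h10 : ‖(3 : E) - 3 * u + u * u‖ ≤ 7 := by
      have a1 : ‖(3 : E)‖ ≤ 3 := by
        have : (3 : E) = (3 : ℝ) • (1 : E) := by
          rw [← Algebra.algebraMap_eq_smul_one, map_ofNat]
        rw [this, norm_smul]
        have : ‖(1 : E)‖ ≤ 1 :=
          (CStarAlgebra.norm_le_one_iff_of_nonneg _
            (by simp)).2 le_rfl
        rw [Real.norm_eq_abs, abs_of_pos (by norm_num : (0:ℝ) < 3)]
        linarith
      have a2 : ‖(3 : E) * u‖ ≤ 3 := by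
        refine (norm_mul_le _ _).trans ?_
        nlinarith [norm_nonneg u, norm_nonneg (3 : E)]
      have a3 : ‖u * u‖ ≤ 1 := by
        refine (norm_mul_le _ _).trans ?_
        nlinarith [norm_nonneg u]
      have a4 := norm_add_le ((3 : E) - 3 * u) (u * u)
      have a5 := norm_sub_le (3 : E) (3 * u)
      linarith
    refine (norm_mul_le _ _).trans ?_
    exact mul_le_mul h10 huH (norm_nonneg _) (by norm_num)
  · intro b hb hbs
    have hbH : Commute b H := by
      rw [hH]
      exact Commute.sum_right _ _ _ fun i _ => hb i i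
    have hbq : Commute b q := (hHsa.commute_cfc hbH.symm _).symm
    have hbw : Commute b w := (hbq.mul_right hbq).mul_right hbq
    refine ⟨fun r => hb r 0, (hb 0 0).mul_right (hb 0 0), fun l => ?_⟩
    refine Fin.lastCases ?_ (fun l => ?_) l
    · rw [Fin.snoc_last]
      exact hbs
    · rw [Fin.snoc_castSucc]
      exact (hb 0 l).mul_right hbw

end AUAux

theorem almostUnperf_of_seqRW {A : Type*} [CStarAlgebra A] (h : SeqRW A) : AlmostUnperf A := by
  classical
  intro p q m hm x y hxy
  obtain ⟨n, rfl⟩ : ∃ n, m = n + 1 := ⟨m - 1, by omega⟩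
  obtain ⟨e, s, hRW, hec, hsc⟩ := h n
  refine AUAux.cle_of_const ?_
  intro ε hε
  set X : ℝ := ∑ i, ‖x i‖ with hX
  have hX0 : 0 ≤ X := Finset.sum_nonneg fun _ _ => norm_nonneg _
  obtain ⟨V, f, Y, hV, hY, hcom⟩ := AUAux.exists_VY hRW (ε / (16 * (X + 1))) (by positivity)
  have hc : ∀ a : A, (∀ r, Commute (Seq.const a) (V r)) ∧ Commute (Seq.const a) f ∧
      ∀ l, Commute (Seq.const a) (Y l) := fun a => hcom _ (fun i j => hec i j a) (hsc a)
  have hVs : ∀ (a : A) r, Commute (Seq.const a) (star (V r)) := by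
    intro a r
    have h1 := ((hc (star a)).1 r).star_star
    rwa [← map_star, star_star] at h1
  have hYs : ∀ (a : A) l, Commute (Seq.const a) (star (Y l)) := by
    intro a l
    have h1 := ((hc (star a)).2.2 l).star_star
    rwa [← map_star, star_star] at h1
  set B : ℝ := ∑ l, ∑ l', ‖Y l‖ * ‖f‖ * ‖Y l'‖ with hB
  have hB0 : 0 ≤ B := Finset.sum_nonneg fun _ _ => Finset.sum_nonneg fun _ _ => by positivity
  obtain ⟨R, hR⟩ := hxy (ε / (2 * (B + 1))) (by positivity)
  refine ⟨fun k i => ∑ r, V r * ∑ l, Seq.const (R (k, r) (i, l)) * Y l, fun i i' => ?_⟩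
  -- the algebra
  have h1 : ∀ k, star (∑ r, V r * ∑ l, Seq.const (R (k, r) (i, l)) * Y l) * Seq.const (y k) *
      (∑ r, V r * ∑ l, Seq.const (R (k, r) (i', l)) * Y l) =
      ∑ l, ∑ l', star (Y l) *
        Seq.const (∑ r, star (R (k, r) (i, l)) * y k * R (k, r) (i', l')) * f * Y l' := by
    intro k
    set U : Fin (n + 1) → Fin p → Seq A := fun r i => ∑ l, Seq.const (R (k, r) (i, l)) * Y l with hU
    have a1 : star (∑ r, V r * U r i) * Seq.const (y k) * (∑ r, V r * U r i') =
        ∑ r, star (U r i) * Seq.const (y k) * f * U r i' := by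
      rw [star_sum, Finset.sum_mul, Finset.sum_mul]
      refine Finset.sum_congr rfl fun r _ => ?_
      rw [Finset.mul_sum, Finset.sum_eq_single r]
      · rw [star_mul]
        calc star (U r i) * star (V r) * Seq.const (y k) * (V r * U r i')
            = star (U r i) * (star (V r) * Seq.const (y k)) * V r * U r i' := by noncomm_ring
          _ = star (U r i) * Seq.const (y k) * (star (V r) * V r) * U r i' := by
              rw [← (hVs (y k) r).eq]; noncomm_ring
          _ = star (U r i) * Seq.const (y k) * f * U r i' := by rw [hV, if_pos rfl]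
      · intro r' _ hr'
        rw [star_mul]
        calc star (U r i) * star (V r) * Seq.const (y k) * (V r' * U r' i')
            = star (U r i) * (star (V r) * Seq.const (y k)) * V r' * U r' i' := by noncomm_ring
          _ = star (U r i) * Seq.const (y k) * (star (V r) * V r') * U r' i' := by
              rw [← (hVs (y k) r).eq]; noncomm_ring
          _ = 0 := by rw [hV, if_neg (Ne.symm hr')]; simp
      · intro h'
        exact absurd (Finset.mem_univ _) h'
    have a2 : ∀ r, star (U r i) * Seq.const (y k) * f * U r i' =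
        ∑ l, ∑ l', star (Y l) * Seq.const (star (R (k, r) (i, l)) * y k * R (k, r) (i', l')) * f *
          Y l' := by
      intro r
      rw [hU]
      simp only
      rw [star_sum, Finset.sum_mul, Finset.sum_mul, Finset.sum_mul]
      refine Finset.sum_congr rfl fun l _ => ?_
      rw [Finset.mul_sum]
      refine Finset.sum_congr rfl fun l' _ => ?_
      rw [star_mul, map_mul, map_mul, map_star]
      have a3 := (hc (R (k, r) (i', l'))).2.1.eq
      calc star (Y l) * star (Seq.const (R (k, r) (i, l))) * Seq.const (y k) * f *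
            (Seq.const (R (k, r) (i', l')) * Y l')
          = star (Y l) * star (Seq.const (R (k, r) (i, l))) * Seq.const (y k) *
            (f * Seq.const (R (k, r) (i', l'))) * Y l' := by noncomm_ring
        _ = _ := by rw [← a3]; noncomm_ring
    have a4 : star (∑ r, V r * U r i) * Seq.const (y k) * (∑ r, V r * U r i') =
        ∑ l, ∑ l', star (Y l) *
          Seq.const (∑ r, star (R (k, r) (i, l)) * y k * R (k, r) (i', l')) * f * Y l' := by
      rw [a1, Finset.sum_congr rfl fun r _ => a2 r, Finset.sum_comm]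
      refine Finset.sum_congr rfl fun l _ => ?_
      rw [Finset.sum_comm]
      refine Finset.sum_congr rfl fun l' _ => ?_
      rw [map_sum, Finset.mul_sum, Finset.sum_mul, Finset.sum_mul]
    exact a4
  have h2 : (∑ k, star (∑ r, V r * ∑ l, Seq.const (R (k, r) (i, l)) * Y l) * Seq.const (y k) *
      (∑ r, V r * ∑ l, Seq.const (R (k, r) (i', l)) * Y l)) =
      ∑ l, ∑ l', star (Y l) *
        Seq.const (∑ k : Fin q × Fin (n + 1), star (R k (i, l)) * y k.1 * R k (i', l')) * f *
          Y l' := by
    rw [Finset.sum_congr rfl fun k _ => h1 k, Finset.sum_comm]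
    refine Finset.sum_congr rfl fun l _ => ?_
    rw [Finset.sum_comm]
    refine Finset.sum_congr rfl fun l' _ => ?_
    rw [Fintype.sum_prod_type, map_sum, Finset.mul_sum, Finset.sum_mul, Finset.sum_mul]
  have h3 : (∑ l, ∑ l', star (Y l) *
        Seq.const (if (i, l) = (i', l') then x i else 0) * f * Y l') =
      if i = i' then Seq.const (x i) * ∑ l, star (Y l) * f * Y l else 0 := by
    by_cases hi : i = i'
    · subst hi
      rw [if_pos rfl, Finset.mul_sum]
      refine Finset.sum_congr rfl fun l _ => ?_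
      rw [Finset.sum_eq_single l]
      · rw [if_pos rfl]
        have := (hYs (x i) l).eq
        rw [← this]
        noncomm_ring
      · intro l' _ hl'
        rw [if_neg fun h' => hl' (congrArg Prod.snd h').symm, map_zero]
        simp
      · intro h'
        exact absurd (Finset.mem_univ _) h'
    · rw [if_neg hi]
      refine Finset.sum_eq_zero fun l _ => Finset.sum_eq_zero fun l' _ => ?_
      rw [if_neg fun h' => hi (congrArg Prod.fst h'), map_zero]
      simp
  have h4 : ‖(∑ l, ∑ l', star (Y l) *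
        Seq.const (∑ k : Fin q × Fin (n + 1), star (R k (i, l)) * y k.1 * R k (i', l')) * f *
          Y l') - ∑ l, ∑ l', star (Y l) *
        Seq.const (if (i, l) = (i', l') then x i else 0) * f * Y l'‖ ≤
      B * (ε / (2 * (B + 1))) := by
    rw [← Finset.sum_sub_distrib, hB, Finset.sum_mul]
    refine (norm_sum_le _ _).trans (Finset.sum_le_sum fun l _ => ?_)
    rw [← Finset.sum_sub_distrib, Finset.sum_mul]
    refine (norm_sum_le _ _).trans (Finset.sum_le_sum fun l' _ => ?_)
    rw [← sub_mul, ← sub_mul, ← mul_sub, ← map_sub]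
    have b1 := (hR (i, l) (i', l')).le
    have b2 : ‖(Seq.const ((∑ k : Fin q × Fin (n + 1), star (R k (i, l)) * y k.1 * R k (i', l')) -
        (if (i, l) = (i', l') then x i else 0)) : Seq A)‖ ≤ ε / (2 * (B + 1)) := by
      rw [Seq.norm_const]
      exact b1
    refine (norm_mul_le _ _).trans ?_
    rw [mul_right_comm]
    refine mul_le_mul_of_nonneg_right ?_ (norm_nonneg _)
    refine (norm_mul_le _ _).trans ?_
    rw [mul_right_comm]
    refine mul_le_mul_of_nonneg_right ?_ (norm_nonneg _)
    refine (norm_mul_le _ _).trans ?_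
    rw [norm_star]
    exact mul_le_mul_of_nonneg_left b2 (norm_nonneg _)
  have h5 : B * (ε / (2 * (B + 1))) < ε / 2 := by
    rw [mul_div_assoc', div_lt_div_iff₀ (by positivity) (by positivity)]
    nlinarith
  have h6 : ‖(if i = i' then Seq.const (x i) * ∑ l, star (Y l) * f * Y l else 0) -
      (if i = i' then (Seq.const (x i) : Seq A) else 0)‖ ≤ ε / 2 := by
    split_ifs with hi
    · have c1 : Seq.const (x i) * (∑ l, star (Y l) * f * Y l) - (Seq.const (x i) : Seq A) =
          Seq.const (x i) * ((∑ l, star (Y l) * f * Y l) - 1) := by rw [mul_sub, mul_one]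
      rw [c1]
      refine (norm_mul_le _ _).trans ?_
      rw [Seq.norm_const]
      have c2 : ‖x i‖ ≤ X :=
        Finset.single_le_sum (f := fun i => ‖x i‖) (fun _ _ => norm_nonneg _) (Finset.mem_univ i)
      calc ‖x i‖ * ‖(∑ l, star (Y l) * f * Y l) - 1‖ ≤ X * (7 * (ε / (16 * (X + 1)))) :=
            mul_le_mul c2 hY (norm_nonneg _) hX0
        _ ≤ ε / 2 := by
            rw [mul_div_assoc', mul_div_assoc', div_le_div_iff₀ (by positivity) (by positivity)]
            nlinarith
    · rw [sub_self, norm_zero]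
      positivity
  rw [h2]
  rw [h3] at h4
  calc _ ≤ _ := norm_sub_le_norm_sub_add_norm_sub _
        (if i = i' then Seq.const (x i) * ∑ l, star (Y l) * f * Y l else 0) _
    _ ≤ B * (ε / (2 * (B + 1))) + ε / 2 := add_le_add h4 h6
    _ < ε / 2 + ε / 2 := by linarith
    _ = ε := by ring

end Pool.Agent.Lib.EJS
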