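import Mathlib

/-!
# Definitions used in the final statement

Completely positive maps, nuclearity, C-star tensor products, prime dimension drop algebras, the
Jiang-Su algebra, amenable groups, cocycle conjugacy and equivariant Jiang-Su stability.
-/

open scoped ComplexOrder Kronecker
open Filter Topology

namespace Pool.Agent.Lib.EJSStmt

universe u v

/-- unital star homomorphisms between unital C-star algebras -/
abbrev Hom (A B : Type*) [CStarAlgebra A] [CStarAlgebra B] : Type _ := A →⋆ₐ[ℂ] B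

/-- actions of a discrete group on a unital C-star algebra by star automorphisms -/
abbrev Action (G A : Type*) [Group G] [CStarAlgebra A] : Type _ := G →* (A ≃⋆ₐ[ℂ] A)

/-- Completely positive maps: `∑ i, ∑ j, b_i^* φ(a_i^* a_j) b_j` is positive for all finite
families `a_i` in `A` and `b_i` in `B`. -/
def CP {A B : Type*} [CStarAlgebra A] [CStarAlgebra B] (φ : A →ₗ[ℂ] B) : Prop :=
  ∀ (n : ℕ) (a : Fin n → A) (b : Fin n → B),
    ∃ c : B, ∑ i, ∑ j, star (b i) * φ (star (a i) * a j) * b j = star c * c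

/-- Nuclear: the completely positive approximation property.  On every finite set the identity is
approximated in norm by compositions `A → M_d(ℂ) → A` of completely positive contractions
(`CStarMatrix` is the matrix algebra with its C-star norm). -/
def IsNuclear (A : Type*) [CStarAlgebra A] : Prop :=
  ∀ (F : Finset A) (ε : ℝ), 0 < ε → ∃ (d : ℕ) (φ : A →ₗ[ℂ] CStarMatrix (Fin d) (Fin d) ℂ)
    (ψ : CStarMatrix (Fin d) (Fin d) ℂ →ₗ[ℂ] A),
    CP φ ∧ CP ψ ∧ (∀ a, ‖φ a‖ ≤ ‖a‖) ∧ (∀ m, ‖ψ m‖ ≤ ‖m‖) ∧ ∀ a ∈ F, ‖ψ (φ a) - a‖ < ε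

/-- `C` with the unital homomorphisms `i`, `j` is a C-star tensor product of `A` and `B`: the images
commute, the algebraic tensor product of `A` and `B` embeds into `C`, and its image is dense. -/
structure IsTensor {A B C : Type*} [CStarAlgebra A] [CStarAlgebra B] [CStarAlgebra C]
    (i : Hom A C) (j : Hom B C) : Prop where
  comm : ∀ a b, i a * j b = j b * i a
  inj : ∀ (n : ℕ) (a : Fin n → A) (b : Fin n → B), LinearIndependent ℂ a →
    ∑ k, i (a k) * j (b k) = 0 → ∀ k, b k = 0
  dense : Dense (Submodule.span ℂ {x : C | ∃ a b, x = i a * j b} : Set C)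

/-- the homomorphisms `i`, `j` are approximately unitarily equivalent -/
def ApproxEquiv {A C : Type*} [CStarAlgebra A] [CStarAlgebra C] (i j : Hom A C) : Prop :=
  ∀ (F : Finset A) (ε : ℝ), 0 < ε → ∃ w ∈ unitary C, ∀ a ∈ F, ‖w * i a * star w - j a‖ < ε

/-- functions from `[0,1]` to `M_p(ℂ) ⊗ M_q(ℂ)` -/
abbrev Fun (p q : ℕ) : Type := unitInterval → Matrix (Fin p × Fin q) (Fin p × Fin q) ℂ

/-- The dimension drop algebra `Z_{p,q}` of all continuous `f : [0,1] → M_p(ℂ) ⊗ M_q(ℂ)` with
`f 0 ∈ M_p(ℂ) ⊗ 1` and `f 1 ∈ 1 ⊗ M_q(ℂ)`. -/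
def DimDrop (p q : ℕ) : Set (Fun p q) :=
  {f | Continuous f ∧ (∃ x : Matrix (Fin p) (Fin p) ℂ, f 0 = x ⊗ₖ 1) ∧
    ∃ y : Matrix (Fin q) (Fin q) ℂ, f 1 = 1 ⊗ₖ y}

/-- `κ` is, on `Z_{p,q}`, an injective unital star homomorphism to `Z` (the values of `κ` outside
`Z_{p,q}` are irrelevant). -/
structure IsDropHom {p q : ℕ} {Z : Type*} [CStarAlgebra Z] (κ : Fun p q → Z) : Prop where
  one : κ (fun _ => 1) = 1
  add : ∀ f ∈ DimDrop p q, ∀ g ∈ DimDrop p q, κ (fun t => f t + g t) = κ f + κ g
  smul : ∀ (c : ℂ), ∀ f ∈ DimDrop p q, κ (fun t => c • f t) = c • κ f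
  mul : ∀ f ∈ DimDrop p q, ∀ g ∈ DimDrop p q, κ (fun t => f t * g t) = κ f * κ g
  star : ∀ f ∈ DimDrop p q, κ (fun t => (f t).conjTranspose) = star (κ f)
  inj : ∀ f ∈ DimDrop p q, κ f = 0 → f = fun _ => 0

/-- `S` is a unital copy in `Z` of the dimension drop algebra `Z_{p,q}` -/
def IsDropCopy (p q : ℕ) {Z : Type*} [CStarAlgebra Z] (S : Set Z) : Prop :=
  ∃ κ : Fun p q → Z, IsDropHom κ ∧ S = κ '' DimDrop p q

/-- The properties of the Jiang-Su algebra which are used: `Z` is separable, unital, simple,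
strongly self-absorbing (in the form of Toms and Winter: the two embeddings of `Z` into `Z ⊗ Z` are
approximately unitarily equivalent, and there are approximately central unital endomorphisms of
`Z`), and the closure of an increasing union of unital copies of prime dimension drop algebras
`Z_{p,q}` with `p, q → ∞`.  They determine `Z` up to isomorphism. -/
structure IsJiangSu (Z : Type u) [CStarAlgebra Z] : Prop where
  separable : TopologicalSpace.SeparableSpace Z
  simple : IsSimpleRing Z
  half_flip : ∀ (C : Type u) [CStarAlgebra C] (i j : Hom Z C), IsTensor i j → ApproxEquiv i j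
  central : ∀ (F : Finset Z) (ε : ℝ), 0 < ε →
    ∃ ρ : Hom Z Z, ∀ x ∈ F, ∀ y ∈ F, ‖ρ x * y - y * ρ x‖ < ε
  limit : ∃ (p q : ℕ → ℕ) (S : ℕ → Set Z), (∀ n, Nat.Coprime (p n) (q n)) ∧
    Tendsto p atTop atTop ∧ Tendsto q atTop atTop ∧ (∀ n, IsDropCopy (p n) (q n) (S n)) ∧
    (∀ n, S n ⊆ S (n + 1)) ∧ Dense (⋃ n, S n)

/-- `A` is `Z`-stable: `A ≅ A ⊗ Z` -/
def ZStable (Z A : Type u) [CStarAlgebra Z] [CStarAlgebra A] : Prop :=
  ∃ (C : Type u) (_ : CStarAlgebra C) (i : Hom A C) (j : Hom Z C) (e : Hom A C),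
    IsTensor i j ∧ Function.Bijective e

/-- Folner's condition, one of the equivalent definitions of amenability of a discrete group: for
every finite `H ⊆ G` and `ε > 0` there is a nonempty finite `K ⊆ G` with `|hK Δ K| ≤ ε |K|` for all
`h ∈ H`. -/
def AmenableGroup (G : Type*) [Group G] : Prop :=
  open Classical in
  ∀ (H : Finset G) (ε : ℝ), 0 < ε → ∃ K : Finset G, K.Nonempty ∧
    ∀ h ∈ H, ((symmDiff (K.image fun g => h * g) K).card : ℝ) ≤ ε * K.card

/-- cocycle conjugacy of two actions on unital C-star algebras -/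
def CocycleConj {G : Type*} [Group G] {A B : Type*} [CStarAlgebra A] [CStarAlgebra B]
    (α : Action G A) (β : Action G B) : Prop :=
  ∃ (σ : Hom A B) (w : G → B), Function.Bijective σ ∧ (∀ g, w g ∈ unitary B) ∧
    (∀ g h, w (g * h) = w g * β g (w h)) ∧ ∀ g a, σ (α g a) = w g * β g (σ a) * star (w g)

/-- `C` with `i : A → C` and `j : Z → C` is a tensor product of `A` and `Z`, and `β` is the action
`α ⊗ id` on it. -/
structure IsTensorAction {G : Type*} [Group G] {A Z C : Type*} [CStarAlgebra A]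
    [CStarAlgebra Z] [CStarAlgebra C] (α : Action G A) (i : Hom A C) (j : Hom Z C)
    (β : Action G C) : Prop where
  tensor : IsTensor i j
  left : ∀ g a, β g (i a) = i (α g a)
  right : ∀ g z, β g (j z) = j z

/-- `α` is equivariantly `Z`-stable: `α` is cocycle conjugate to `α ⊗ id` on `A ⊗ Z`.  (The action
`α ⊗ id` exists on some C-star tensor product of `A` and `Z`, and `α` is cocycle conjugate to it on
every C-star tensor product of `A` and `Z` on which it exists.) -/
def EquivZStable {G : Type*} [Group G] (Z : Type u) {A : Type u} [CStarAlgebra Z]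
    [CStarAlgebra A] (α : Action G A) : Prop :=
  (∃ (C : Type u) (_ : CStarAlgebra C) (i : Hom A C) (j : Hom Z C) (β : Action G C),
    IsTensorAction α i j β) ∧
  ∀ (C : Type u) [CStarAlgebra C] (i : Hom A C) (j : Hom Z C) (β : Action G C),
    IsTensorAction α i j β → CocycleConj α β

end Pool.Agent.Lib.EJSStmt
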