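import Pool.Agent.Lib.EJS.Defs
import Pool.Agent.Lib.EJS.Stmt
import Pool.Agent.Lib.EqGamma.Defs

/-!
# The short definitions of `Stmt.lean` agree with those used in the proof
-/

open scoped ComplexOrder Kronecker
open Filter Topology

namespace Pool.Agent.Lib.EJS

universe u v

theorem isTensor_iff {A B C : Type*} [CStarAlgebra A] [CStarAlgebra B] [CStarAlgebra C]
    (i : A →⋆ₐ[ℂ] C) (j : B →⋆ₐ[ℂ] C) : EJSStmt.IsTensor i j ↔ IsTensor i j :=
  ⟨fun h => ⟨h.comm, h.inj, h.dense⟩, fun h => ⟨h.comm, h.inj, h.dense⟩⟩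

theorem isNuclear_iff {A : Type*} [CStarAlgebra A] : EJSStmt.IsNuclear A ↔ IsNuclear A := Iff.rfl

theorem amenableGroup_iff {G : Type*} [Group G] :
    EJSStmt.AmenableGroup G ↔ EqGamma.AmenableGroup G := Iff.rfl

theorem zStable_iff {Z A : Type u} [CStarAlgebra Z] [CStarAlgebra A] :
    EJSStmt.ZStable Z A ↔ ZStable Z A := by
  constructor
  · rintro ⟨C, _, i, j, e, h, he⟩
    exact ⟨C, _, i, j, (isTensor_iff i j).1 h, ⟨StarAlgEquiv.ofBijective e he⟩⟩
  · rintro ⟨C, _, i, j, h, ⟨e⟩⟩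
    exact ⟨C, _, i, j, (e : A →⋆ₐ[ℂ] C), (isTensor_iff i j).2 h, e.bijective⟩

theorem cocycleConj_iff {G : Type*} [Group G] {A B : Type*} [CStarAlgebra A] [CStarAlgebra B]
    (α : G →* (A ≃⋆ₐ[ℂ] A)) (β : G →* (B ≃⋆ₐ[ℂ] B)) :
    EJSStmt.CocycleConj α β ↔ CocycleConj α β := by
  constructor
  · rintro ⟨σ, w, h, h1, h2, h3⟩
    exact ⟨StarAlgEquiv.ofBijective σ h, w, h1, h2, h3⟩
  · rintro ⟨σ, w, h1, h2, h3⟩
    exact ⟨(σ : A →⋆ₐ[ℂ] B), w, σ.bijective, h1, h2, h3⟩

theorem isTensorAction_iff {G : Type*} [Group G] {A Z C : Type*} [CStarAlgebra A]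
    [CStarAlgebra Z] [CStarAlgebra C] (α : G →* (A ≃⋆ₐ[ℂ] A)) (i : A →⋆ₐ[ℂ] C) (j : Z →⋆ₐ[ℂ] C)
    (β : G →* (C ≃⋆ₐ[ℂ] C)) : EJSStmt.IsTensorAction α i j β ↔ IsTensorAction α i j β :=
  ⟨fun h => ⟨(isTensor_iff i j).1 h.tensor, h.left, h.right⟩,
    fun h => ⟨(isTensor_iff i j).2 h.tensor, h.left, h.right⟩⟩

theorem equivZStable_iff {G : Type*} [Group G] (Z : Type u) {A : Type u} [CStarAlgebra Z]
    [CStarAlgebra A] (α : G →* (A ≃⋆ₐ[ℂ] A)) :
    EJSStmt.EquivZStable Z α ↔ EquivZStable Z α := by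
  constructor
  · rintro ⟨⟨C, _, i, j, β, h⟩, h'⟩
    exact ⟨⟨C, _, i, j, β, (isTensorAction_iff α i j β).1 h⟩, fun C _ i j β h =>
      (cocycleConj_iff α β).1 (h' C i j β ((isTensorAction_iff α i j β).2 h))⟩
  · rintro ⟨⟨C, _, i, j, β, h⟩, h'⟩
    exact ⟨⟨C, _, i, j, β, (isTensorAction_iff α i j β).2 h⟩, fun C _ i j β h =>
      (cocycleConj_iff α β).2 (h' C i j β ((isTensorAction_iff α i j β).1 h))⟩

variable {p q : ℕ}

/-- the underlying function -/
noncomputable def MFun.plain (f : MFun p q) : EJSStmt.Fun p q :=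
  fun t => CStarMatrix.ofMatrix.symm (MFun.ev t f)

theorem MFun.plain_apply (f : MFun p q) (t : unitInterval) (a b : Fin p × Fin q) :
    f.plain t a b = MFun.ev t f a b := rfl

theorem MFun.plain_one : (1 : MFun p q).plain = fun _ => 1 := rfl

theorem MFun.plain_zero : (0 : MFun p q).plain = fun _ => 0 := rfl

theorem MFun.plain_add (f g : MFun p q) : (f + g).plain = fun t => f.plain t + g.plain t := rfl

theorem MFun.plain_mul (f g : MFun p q) : (f * g).plain = fun t => f.plain t * g.plain t := rfl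

theorem MFun.plain_smul (c : ℂ) (f : MFun p q) : (c • f).plain = fun t => c • f.plain t := rfl

theorem MFun.plain_star (f : MFun p q) :
    (star f).plain = fun t => (f.plain t).conjTranspose := rfl

theorem MFun.plain_injective : Function.Injective (MFun.plain : MFun p q → EJSStmt.Fun p q) := by
  intro f g h
  refine ContinuousMap.ext fun t => ?_
  exact CStarMatrix.ofMatrix.symm.injective (congrFun h t)

theorem MFun.continuous_plain (f : MFun p q) : Continuous f.plain := by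
  have h : Continuous (show C(unitInterval, CStarMatrix (Fin p × Fin q) (Fin p × Fin q) ℂ) from f) :=
    ContinuousMap.continuous _
  exact h

theorem exists_plain {g : EJSStmt.Fun p q} (hg : Continuous g) : ∃ f : MFun p q, f.plain = g :=
  ⟨(⟨fun t => CStarMatrix.ofMatrix (g t), hg⟩ :
    C(unitInterval, CStarMatrix (Fin p × Fin q) (Fin p × Fin q) ℂ)), rfl⟩

theorem mem_dimDrop_iff (f : MFun p q) : f ∈ DimDrop p q ↔ f.plain ∈ EJSStmt.DimDrop p q := by
  constructor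
  · rintro ⟨⟨x, hx⟩, ⟨y, hy⟩⟩
    refine ⟨f.continuous_plain, ⟨Matrix.of x, ?_⟩, ⟨Matrix.of y, ?_⟩⟩
    · ext a b
      rw [MFun.plain_apply, hx, Matrix.kroneckerMap_apply, Matrix.one_apply]
      split_ifs <;> simp
    · ext a b
      rw [MFun.plain_apply, hy, Matrix.kroneckerMap_apply, Matrix.one_apply]
      split_ifs <;> simp
  · rintro ⟨-, ⟨x, hx⟩, ⟨y, hy⟩⟩
    refine ⟨⟨x, fun a b => ?_⟩, ⟨y, fun a b => ?_⟩⟩
    · rw [← MFun.plain_apply, hx, Matrix.kroneckerMap_apply, Matrix.one_apply]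
      split_ifs <;> simp
    · rw [← MFun.plain_apply, hy, Matrix.kroneckerMap_apply, Matrix.one_apply]
      split_ifs <;> simp

/-- the homomorphism of the dimension drop algebra given by a map on functions -/
noncomputable def dropHom {Z : Type*} [CStarAlgebra Z] (κ : EJSStmt.Fun p q → Z)
    (hκ : EJSStmt.IsDropHom κ) : DimDrop p q →⋆ₐ[ℂ] Z where
  toFun f := κ f.1.plain
  map_one' := hκ.one
  map_mul' f g := hκ.mul _ ((mem_dimDrop_iff f.1).1 f.2) _ ((mem_dimDrop_iff g.1).1 g.2)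
  map_zero' := by
    have h := hκ.smul 0 (MFun.plain 1) ((mem_dimDrop_iff 1).1 (one_mem _))
    rw [zero_smul] at h
    rw [← h]
    congr 1
    funext t
    exact (zero_smul ℂ _).symm
  map_add' f g := hκ.add _ ((mem_dimDrop_iff f.1).1 f.2) _ ((mem_dimDrop_iff g.1).1 g.2)
  commutes' r := by
    have h := hκ.smul r (MFun.plain 1) ((mem_dimDrop_iff 1).1 (one_mem _))
    have h1 : κ (MFun.plain (1 : MFun p q)) = 1 := hκ.one
    rw [h1, ← Algebra.algebraMap_eq_smul_one] at h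
    rw [← h]
    congr 1
    have h2 : ((algebraMap ℂ (DimDrop p q) r : DimDrop p q) : MFun p q) = r • (1 : MFun p q) := by
      rw [Algebra.algebraMap_eq_smul_one]
      rfl
    rw [h2, MFun.plain_smul]
  map_star' f := hκ.star _ ((mem_dimDrop_iff f.1).1 f.2)

theorem dropHom_apply {Z : Type*} [CStarAlgebra Z] (κ : EJSStmt.Fun p q → Z)
    (hκ : EJSStmt.IsDropHom κ) (f : DimDrop p q) : dropHom κ hκ f = κ f.1.plain := rfl

theorem dropHom_injective {Z : Type*} [CStarAlgebra Z] (κ : EJSStmt.Fun p q → Z)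
    (hκ : EJSStmt.IsDropHom κ) : Function.Injective (dropHom κ hκ) := by
  rw [injective_iff_map_eq_zero]
  intro f hf
  have h := hκ.inj _ ((mem_dimDrop_iff f.1).1 f.2) hf
  exact Subtype.ext (MFun.plain_injective h)

theorem range_dropHom {Z : Type*} [CStarAlgebra Z] (κ : EJSStmt.Fun p q → Z)
    (hκ : EJSStmt.IsDropHom κ) : Set.range (dropHom κ hκ) = κ '' EJSStmt.DimDrop p q := by
  ext z
  constructor
  · rintro ⟨f, rfl⟩
    exact ⟨_, (mem_dimDrop_iff f.1).1 f.2, rfl⟩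
  · rintro ⟨g, hg, rfl⟩
    obtain ⟨f, rfl⟩ := exists_plain hg.1
    exact ⟨⟨f, (mem_dimDrop_iff f).2 hg⟩, rfl⟩

theorem isDropCopy_of {Z : Type*} [CStarAlgebra Z] (φ : DimDrop p q →⋆ₐ[ℂ] Z)
    (hφ : Function.Injective φ) : EJSStmt.IsDropCopy p q (Set.range φ) := by
  classical
  have key : ∀ g : EJSStmt.Fun p q, g ∈ EJSStmt.DimDrop p q →
      ∃ f : DimDrop p q, f.1.plain = g := fun g hg => by
    obtain ⟨f, rfl⟩ := exists_plain hg.1
    exact ⟨⟨f, (mem_dimDrop_iff f).2 hg⟩, rfl⟩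
  let κ : EJSStmt.Fun p q → Z := fun g =>
    if h : g ∈ EJSStmt.DimDrop p q then φ (key g h).choose else 0
  have hκ : ∀ f : DimDrop p q, κ f.1.plain = φ f := by
    intro f
    have h1 : f.1.plain ∈ EJSStmt.DimDrop p q := (mem_dimDrop_iff f.1).1 f.2
    have h2 : (key _ h1).choose = f :=
      Subtype.ext (MFun.plain_injective (key _ h1).choose_spec)
    show (if h : f.1.plain ∈ EJSStmt.DimDrop p q then φ (key _ h).choose else 0) = φ f
    rw [dif_pos h1, h2]
  refine ⟨κ, ⟨?_, ?_, ?_, ?_, ?_, ?_⟩, ?_⟩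
  · rw [← map_one φ, ← hκ 1]
    rfl
  · intro f hf g hg
    obtain ⟨f, rfl⟩ := key f hf
    obtain ⟨g, rfl⟩ := key g hg
    rw [hκ, hκ, ← map_add, ← hκ]
    rfl
  · intro c f hf
    obtain ⟨f, rfl⟩ := key f hf
    rw [hκ, ← map_smul, ← hκ]
    rfl
  · intro f hf g hg
    obtain ⟨f, rfl⟩ := key f hf
    obtain ⟨g, rfl⟩ := key g hg
    rw [hκ, hκ, ← map_mul, ← hκ]
    rfl
  · intro f hf
    obtain ⟨f, rfl⟩ := key f hf
    rw [hκ, ← map_star, ← hκ]
    rfl
  · intro f hf h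
    obtain ⟨f, rfl⟩ := key f hf
    rw [hκ] at h
    rw [(injective_iff_map_eq_zero φ).1 hφ f h]
    rfl
  · ext z
    constructor
    · rintro ⟨f, rfl⟩
      exact ⟨_, (mem_dimDrop_iff f.1).1 f.2, hκ f⟩
    · rintro ⟨g, hg, rfl⟩
      obtain ⟨f, rfl⟩ := key g hg
      exact ⟨f, (hκ f).symm⟩

theorem isJiangSu_iff {Z : Type u} [CStarAlgebra Z] : EJSStmt.IsJiangSu Z ↔ IsJiangSu Z := by
  constructor
  · intro h
    refine ⟨h.separable, h.simple, fun C _ i j hij => h.half_flip C i j ((isTensor_iff i j).2 hij),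
      h.central, ?_⟩
    obtain ⟨p, q, S, h1, h2, h3, h4, h5, h6⟩ := h.limit
    choose κ hκ hS using h4
    refine ⟨p, q, fun n => dropHom (κ n) (hκ n), h1, h2, h3,
      fun n => dropHom_injective _ _, fun n => ?_, ?_⟩
    · rw [range_dropHom, range_dropHom, ← hS, ← hS]
      exact h5 n
    · have h7 : ∀ n, Set.range (dropHom (κ n) (hκ n)) = S n := fun n => by
        rw [range_dropHom, ← hS]
      simp only [h7]
      exact h6
  · intro h
    refine ⟨h.separable, h.simple, fun C _ i j hij => h.half_flip C i j ((isTensor_iff i j).1 hij),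
      h.central, ?_⟩
    obtain ⟨p, q, κ, h1, h2, h3, h4, h5, h6⟩ := h.limit
    exact ⟨p, q, fun n => Set.range (κ n), h1, h2, h3, fun n => isDropCopy_of _ (h4 n), h5, h6⟩

end Pool.Agent.Lib.EJS
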