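import Pool.Agent.Lib.EJS.ZFacts

/-!
# Approximately central homomorphisms of the Jiang-Su algebra

PROOFS.
`centralHoms_of_zStable`: let `i : A → C`, `j : Z → C`, `IsTensor i j`, `φ : A ≃ C`.  For `a ∈ F` approximate
`φ a` by a finite sum `∑ i(a_k) j(z_k)` (`IsTensor.dense`).  Take `ρ : Z → Z` of
`IsJiangSu.central` for the finite set `S ∪ {z_k}` and a small tolerance, `θ := φ⁻¹ ∘ j ∘ ρ`:
`[j(ρ z), ∑ i(a_k) j(z_k)] = ∑ i(a_k) j([ρ z, z_k])` (the ranges commute).
`exists_central_seq`: dense sequences `z_l` in `Z`, `a_l` in `A`, an enumeration `x_l = [(x_{l,n})_n]` of `S`;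
`θ_n` := a homomorphism of `CentralHoms` for the finite sets `{a_l, x_{l,n} : l ≤ n}`, `{z_l : l ≤ n}`,
`ε = 1/(n+1)`, and `θ z := [(θ_n z)_n]` (norms are at most `‖z‖`).  The commutation relations hold for
`z = z_l`, `a = a_m`, `x = x_m` and pass to limits.
`seqRW`, `centralRW`: images of the exact pair in `Z` (`IsJiangSu.hasRW`, `IsRW.map`).
`isTensor_separable`: finite rational combinations of products of elements of dense sequences are
dense (or: the span of a separable set is separable).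
-/

open scoped ComplexOrder
open Filter Topology Pool.Agent.Lib.EqGamma

namespace Pool.Agent.Lib.EJS

universe u v

/-- approximately central unital homomorphisms from `Z` to `A` -/
def CentralHoms (Z : Type*) (A : Type*) [CStarAlgebra Z] [CStarAlgebra A] : Prop :=
  ∀ (F : Finset A) (S : Finset Z) (ε : ℝ), 0 < ε →
    ∃ θ : Z →⋆ₐ[ℂ] A, ∀ z ∈ S, ∀ a ∈ F, ‖θ z * a - a * θ z‖ < ε

/-- exact Rordam-Winter pairs, approximately commuting with finite sets -/
def CentralRW (A : Type*) [CStarAlgebra A] : Prop :=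
  ∀ (n : ℕ) (F : Finset A) (ε : ℝ), 0 < ε → ∃ (e : Fin (n + 1) → Fin (n + 1) → A) (s : A),
    IsRW n e s ∧ (∀ i j, ∀ a ∈ F, ‖a * e i j - e i j * a‖ ≤ ε) ∧ ∀ a ∈ F, ‖a * s - s * a‖ ≤ ε

/-- central Rordam-Winter pairs in the sequence algebra -/
def SeqRW (A : Type*) [CStarAlgebra A] : Prop :=
  ∀ n : ℕ, ∃ (e : Fin (n + 1) → Fin (n + 1) → Seq A) (s : Seq A),
    IsRW n e s ∧ (∀ i j, Seq.Central (e i j)) ∧ Seq.Central s

namespace CentAux

/-- elements of `C` approximately commuting with `j y` as soon as `y` approximately commutes with a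
finite set -/
def P {Z C : Type*} [CStarAlgebra Z] [CStarAlgebra C] (j : Z →⋆ₐ[ℂ] C) (c : C) : Prop :=
  ∀ η : ℝ, 0 < η → ∃ (T : Finset Z) (δ : ℝ), 0 < δ ∧ ∀ y : Z,
    (∀ t ∈ T, ‖y * t - t * y‖ < δ) → ‖j y * c - c * j y‖ < η

theorem P_span {A Z C : Type*} [CStarAlgebra A] [CStarAlgebra Z] [CStarAlgebra C]
    {i : A →⋆ₐ[ℂ] C} {j : Z →⋆ₐ[ℂ] C} (hT : IsTensor i j) (c : C)
    (hc : c ∈ Submodule.span ℂ {x : C | ∃ a b, x = i a * j b}) : P j c := by
  classical
  induction hc using Submodule.span_induction with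
  | mem x hx =>
    obtain ⟨a, b, rfl⟩ := hx
    intro η hη
    refine ⟨{b}, η / (‖a‖ + 1), by positivity, fun y hy => ?_⟩
    have h1 := hy b (Finset.mem_singleton_self b)
    have h2 : j y * (i a * j b) - i a * j b * j y = i a * j (y * b - b * y) := by
      have h3 := (hT.comm a y).eq
      rw [map_sub, map_mul, map_mul, mul_sub, ← mul_assoc, ← h3, mul_assoc, mul_assoc]
    rw [h2]
    calc ‖i a * j (y * b - b * y)‖ ≤ ‖i a‖ * ‖j (y * b - b * y)‖ := norm_mul_le _ _
      _ ≤ ‖a‖ * ‖y * b - b * y‖ :=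
        mul_le_mul (shom_norm_le _ _) (shom_norm_le _ _) (norm_nonneg _) (norm_nonneg _)
      _ ≤ ‖a‖ * (η / (‖a‖ + 1)) := mul_le_mul_of_nonneg_left h1.le (norm_nonneg _)
      _ < η := by
          rw [mul_div_assoc', div_lt_iff₀ (by positivity)]
          nlinarith [norm_nonneg a]
  | zero =>
    intro η hη
    exact ⟨∅, 1, one_pos, fun y _ => by simpa using hη⟩
  | add x y _ _ hx hy =>
    intro η hη
    obtain ⟨T1, δ1, h1, h1'⟩ := hx (η / 2) (by positivity)
    obtain ⟨T2, δ2, h2, h2'⟩ := hy (η / 2) (by positivity)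
    refine ⟨T1 ∪ T2, min δ1 δ2, lt_min h1 h2, fun z hz => ?_⟩
    have e1 := h1' z fun t ht => (hz t (Finset.mem_union_left _ ht)).trans_le (min_le_left _ _)
    have e2 := h2' z fun t ht => (hz t (Finset.mem_union_right _ ht)).trans_le (min_le_right _ _)
    have e3 : j z * (x + y) - (x + y) * j z = (j z * x - x * j z) + (j z * y - y * j z) := by
      noncomm_ring
    rw [e3]
    have e4 := norm_add_le (j z * x - x * j z) (j z * y - y * j z)
    linarith
  | smul r x _ hx =>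
    intro η hη
    obtain ⟨T1, δ1, h1, h1'⟩ := hx (η / (‖r‖ + 1)) (by positivity)
    refine ⟨T1, δ1, h1, fun z hz => ?_⟩
    have e1 := h1' z hz
    rw [mul_smul_comm, smul_mul_assoc, ← smul_sub, norm_smul]
    calc ‖r‖ * ‖j z * x - x * j z‖ ≤ ‖r‖ * (η / (‖r‖ + 1)) :=
          mul_le_mul_of_nonneg_left e1.le (norm_nonneg _)
      _ < η := by
          rw [mul_div_assoc', div_lt_iff₀ (by positivity)]
          nlinarith [norm_nonneg r]

/-- all elements of a tensor product, for bounded `y` -/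
theorem exists_bound {A Z C : Type*} [CStarAlgebra A] [CStarAlgebra Z] [CStarAlgebra C]
    {i : A →⋆ₐ[ℂ] C} {j : Z →⋆ₐ[ℂ] C} (hT : IsTensor i j) (c : C) (K : ℝ) (hK : 0 ≤ K) (η : ℝ)
    (hη : 0 < η) : ∃ (T : Finset Z) (δ : ℝ), 0 < δ ∧ ∀ y : Z, ‖y‖ ≤ K →
      (∀ t ∈ T, ‖y * t - t * y‖ < δ) → ‖j y * c - c * j y‖ < η := by
  obtain ⟨c', hc', hcc⟩ := Metric.mem_closure_iff.1 (hT.dense c) (η / (4 * (K + 1)))
    (by positivity)
  obtain ⟨T, δ, hδ, h1⟩ := P_span hT c' hc' (η / 2) (by positivity)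
  refine ⟨T, δ, hδ, fun y hy hyT => ?_⟩
  have h2 := h1 y hyT
  rw [dist_eq_norm] at hcc
  have h3 : j y * c - c * j y = (j y * c' - c' * j y) + (j y * (c - c') - (c - c') * j y) := by
    noncomm_ring
  rw [h3]
  have h4 := norm_add_le (j y * c' - c' * j y) (j y * (c - c') - (c - c') * j y)
  have h5 := norm_sub_le (j y * (c - c')) ((c - c') * j y)
  have h6 := norm_mul_le (j y) (c - c')
  have h7 := norm_mul_le (c - c') (j y)
  have h8 : ‖j y‖ ≤ K := (shom_norm_le j y).trans hy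
  have h9 : K * ‖c - c'‖ ≤ η / 4 := by
    calc K * ‖c - c'‖ ≤ K * (η / (4 * (K + 1))) := mul_le_mul_of_nonneg_left hcc.le hK
      _ ≤ η / 4 := by
          rw [mul_div_assoc', div_le_div_iff₀ (by positivity) (by positivity)]
          nlinarith
  have h10 : ‖j y‖ * ‖c - c'‖ ≤ K * ‖c - c'‖ := mul_le_mul_of_nonneg_right h8 (norm_nonneg _)
  have h11 : ‖c - c'‖ * ‖j y‖ ≤ K * ‖c - c'‖ := by rw [mul_comm]; exact h10
  linarith

/-- assemble homomorphisms in every coordinate -/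
noncomputable def assemble {Z : Type u} {A : Type v} [CStarAlgebra Z] [CStarAlgebra A]
    (θ : ℕ → (Z →⋆ₐ[ℂ] A)) : Z →⋆ₐ[ℂ] BF ℕ A where
  toFun z := BF.mk (fun n => θ n z) ‖z‖ (fun n => shom_norm_le (θ n) z)
  map_one' := BF.ext fun j => by rw [BF.ev_mk, map_one, map_one]
  map_mul' x y := BF.ext fun j => by
    rw [BF.ev_mk, map_mul, map_mul, BF.ev_mk, BF.ev_mk]
  map_zero' := BF.ext fun j => by rw [BF.ev_mk, map_zero, map_zero]
  map_add' x y := BF.ext fun j => by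
    rw [BF.ev_mk, map_add, map_add, BF.ev_mk, BF.ev_mk]
  commutes' r := BF.ext fun j => by
    rw [BF.ev_mk, AlgHomClass.commutes, AlgHomClass.commutes]
  map_star' x := BF.ext fun j => by
    rw [BF.ev_mk, map_star, map_star, BF.ev_mk]

theorem ev_assemble {Z : Type u} {A : Type v} [CStarAlgebra Z] [CStarAlgebra A]
    (θ : ℕ → (Z →⋆ₐ[ℂ] A)) (z : Z) (n : ℕ) : BF.ev n (assemble θ z) = θ n z := rfl

end CentAux

theorem centralHoms_of_zStable {Z A : Type u} [CStarAlgebra Z] [CStarAlgebra A]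
    (hZ : IsJiangSu Z) (h : ZStable Z A) : CentralHoms Z A := by
  classical
  obtain ⟨C, _, i, j, hT, ⟨φ⟩⟩ := h
  intro F S ε hε
  set K : ℝ := ∑ z ∈ S, ‖z‖ with hK
  have hK0 : 0 ≤ K := Finset.sum_nonneg fun _ _ => norm_nonneg _
  choose T δ hδ hTδ using fun a : A => CentAux.exists_bound hT (φ a) K hK0 ε hε
  obtain ⟨δ0, hδ0, hδ0'⟩ : ∃ δ0 : ℝ, 0 < δ0 ∧ ∀ a ∈ F, δ0 ≤ δ a := by
    have h1 : ∀ᶠ x : ℝ in 𝓝[>] 0, ∀ a ∈ F, x < δ a :=
      (Filter.eventually_all_finset F).2 fun a _ => by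
        filter_upwards [Ioo_mem_nhdsGT (hδ a)] with x hx
        exact hx.2
    obtain ⟨x, hx, hx'⟩ := (h1.and self_mem_nhdsWithin).exists
    exact ⟨x, hx', fun a ha => (hx a ha).le⟩
  obtain ⟨ρ, hρ⟩ := hZ.central (S ∪ F.biUnion T) δ0 hδ0
  refine ⟨((φ.symm : C →⋆ₐ[ℂ] A).comp j).comp ρ, fun z hz a ha => ?_⟩
  have h1 : ‖j (ρ z) * φ a - φ a * j (ρ z)‖ < ε := by
    refine hTδ a (ρ z) ?_ fun t ht => ?_
    · refine (shom_norm_le ρ z).trans ?_
      exact Finset.single_le_sum (f := fun z => ‖z‖) (fun _ _ => norm_nonneg _) hz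
    · refine (hρ z (Finset.mem_union_left _ hz) t
        (Finset.mem_union_right _ (Finset.mem_biUnion.2 ⟨a, ha, ht⟩))).trans_le (hδ0' a ha)
  have h2 : (((φ.symm : C →⋆ₐ[ℂ] A).comp j).comp ρ) z * a - a * (((φ.symm : C →⋆ₐ[ℂ] A).comp j).comp ρ) z
      = (φ.symm : C →⋆ₐ[ℂ] A) (j (ρ z) * φ a - φ a * j (ρ z)) := by
    rw [map_sub, map_mul, map_mul]
    have h3 : (φ.symm : C →⋆ₐ[ℂ] A) (φ a) = a := φ.symm_apply_apply a
    rw [h3]
    rfl
  rw [h2]
  exact (shom_norm_le _ _).trans_lt h1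

theorem exists_central_seq {Z : Type u} {A : Type v} [CStarAlgebra Z] [CStarAlgebra A]
    [TopologicalSpace.SeparableSpace Z] [TopologicalSpace.SeparableSpace A]
    (h : CentralHoms Z A) (S : Set (Seq A)) (hS : S.Countable) :
    ∃ θ : Z →⋆ₐ[ℂ] Seq A, (∀ z a, Commute (Seq.const a) (θ z)) ∧ ∀ z, ∀ x ∈ S, Commute x (θ z) := by
  classical
  set zd := TopologicalSpace.denseSeq Z with hzd
  set ad := TopologicalSpace.denseSeq A with had
  have hS' : (S ∪ Set.range fun m => (Seq.const (ad m) : Seq A)).Countable :=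
    hS.union (Set.countable_range _)
  obtain ⟨y, hy⟩ := hS'.exists_eq_range ⟨Seq.const (ad 0), Or.inr ⟨0, rfl⟩⟩
  choose x hx using fun n => Seq.of_surjective (y n)
  have key : ∀ n : ℕ, ∃ θ : Z →⋆ₐ[ℂ] A, ∀ l ≤ n, ∀ m ≤ n,
      ‖θ (zd l) * BF.ev n (x m) - BF.ev n (x m) * θ (zd l)‖ < 1 / ((n : ℝ) + 1) := by
    intro n
    obtain ⟨θ, hθ⟩ := h ((Finset.range (n + 1)).image fun m => BF.ev n (x m))
      ((Finset.range (n + 1)).image zd) (1 / ((n : ℝ) + 1)) (by positivity)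
    refine ⟨θ, fun l hl m hm => hθ _ ?_ _ ?_⟩
    · exact Finset.mem_image_of_mem _ (Finset.mem_range.2 (Nat.lt_succ_of_le hl))
    · exact Finset.mem_image_of_mem (fun m => BF.ev n (x m))
        (Finset.mem_range.2 (Nat.lt_succ_of_le hm))
  choose θ hθ using key
  set Θ : Z →⋆ₐ[ℂ] Seq A := Seq.of.comp (CentAux.assemble θ) with hΘ
  have h1 : ∀ m l, y m * Θ (zd l) = Θ (zd l) * y m := by
    intro m l
    rw [← hx m]
    have h2 : Θ (zd l) = Seq.of (CentAux.assemble θ (zd l)) := rfl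
    rw [h2, ← map_mul, ← map_mul, Seq.of_eq_of, tendsto_zero_iff_norm_tendsto_zero]
    refine squeeze_zero' (Eventually.of_forall fun _ => norm_nonneg _) ?_
      (tendsto_one_div_add_atTop_nhds_zero_nat (𝕜 := ℝ))
    filter_upwards [eventually_ge_atTop (max l m)] with n hn
    rw [norm_sub_rev, map_mul, map_mul, CentAux.ev_assemble]
    exact (hθ n l ((le_max_left _ _).trans hn) m ((le_max_right _ _).trans hn)).le
  have h2 : ∀ m z, y m * Θ z = Θ z * y m := by
    intro m z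
    have hc : Continuous Θ := shom_continuous Θ
    have h3 : IsClosed {z | y m * Θ z = Θ z * y m} :=
      isClosed_eq (by fun_prop) (by fun_prop)
    exact (TopologicalSpace.denseRange_denseSeq Z).induction_on z h3 (h1 m)
  have h3 : ∀ x' ∈ S ∪ Set.range fun m => (Seq.const (ad m) : Seq A), ∀ z, x' * Θ z = Θ z * x' := by
    intro x' hx' z
    rw [hy] at hx'
    obtain ⟨m, rfl⟩ := hx'
    exact h2 m z
  refine ⟨Θ, fun z a => ?_, fun z x' hx' => h3 x' (Or.inl hx') z⟩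
  have hc : Continuous (Seq.const : A → Seq A) := shom_continuous Seq.const
  have h4 : IsClosed {a : A | Seq.const a * Θ z = Θ z * Seq.const a} :=
    isClosed_eq (by fun_prop) (by fun_prop)
  exact (TopologicalSpace.denseRange_denseSeq A).induction_on a h4
    fun m => h3 _ (Or.inr ⟨m, rfl⟩) z

theorem centralRW_of_centralHoms {Z : Type u} {A : Type v} [CStarAlgebra Z] [CStarAlgebra A]
    (hZ : IsJiangSu Z) (h : CentralHoms Z A) : CentralRW A := by
  classical
  intro n F ε hε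
  obtain ⟨e, s, hRW⟩ := hZ.hasRW n
  obtain ⟨θ, hθ⟩ := h F
    ((Finset.univ.image fun p : Fin (n + 1) × Fin (n + 1) => e p.1 p.2) ∪ {s}) ε hε
  refine ⟨_, _, hRW.map θ, fun i j a ha => ?_, fun a ha => ?_⟩
  · rw [norm_sub_rev]
    exact (hθ (e i j) (Finset.mem_union_left _ (Finset.mem_image.2
      ⟨(i, j), Finset.mem_univ _, rfl⟩)) a ha).le
  · rw [norm_sub_rev]
    exact (hθ s (Finset.mem_union_right _ (Finset.mem_singleton_self s)) a ha).le

theorem seqRW_of_centralHoms {Z : Type u} {A : Type v} [CStarAlgebra Z] [CStarAlgebra A]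
    [TopologicalSpace.SeparableSpace A] (hZ : IsJiangSu Z) (h : CentralHoms Z A) : SeqRW A := by
  intro n
  have := hZ.separable
  obtain ⟨e, s, hRW⟩ := hZ.hasRW n
  obtain ⟨θ, hθ, -⟩ := exists_central_seq h ∅ Set.countable_empty
  exact ⟨_, _, hRW.map θ, fun i j a => hθ (e i j) a, fun a => hθ s a⟩

theorem isTensor_separable {A B C : Type*} [CStarAlgebra A] [CStarAlgebra B] [CStarAlgebra C]
    [TopologicalSpace.SeparableSpace A] [TopologicalSpace.SeparableSpace B]
    {i : A →⋆ₐ[ℂ] C} {j : B →⋆ₐ[ℂ] C} (h : IsTensor i j) : TopologicalSpace.SeparableSpace C := by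
  have h1 : TopologicalSpace.IsSeparable {x : C | ∃ a b, x = i a * j b} := by
    have h2 : {x : C | ∃ a b, x = i a * j b} = Set.range (fun p : A × B => i p.1 * j p.2) := by
      ext x
      constructor
      · rintro ⟨a, b, rfl⟩
        exact ⟨(a, b), rfl⟩
      · rintro ⟨p, rfl⟩
        exact ⟨p.1, p.2, rfl⟩
    rw [h2]
    have hi := shom_continuous i
    have hj := shom_continuous j
    exact TopologicalSpace.isSeparable_range (by fun_prop)
  have h2 := (h1.span (R := ℂ)).closure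
  rw [h.dense.closure_eq] at h2
  exact TopologicalSpace.isSeparable_univ_iff.1 h2

end Pool.Agent.Lib.EJS
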