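import Pool.Agent.Lib.EJS.Seq
import Pool.Agent.Lib.EqGamma.GUlt

/-!
# Common definitions of the EJS project

`IsRW`: Rordam-Winter pairs.  `J A`: the trace kernel ideal of `Seq A`.  `TA A`: the uniform tracial
sequence algebra.  `IsLimTr`: limit traces on `TA A`.  `fix α`: invariant central sequences.
-/

open scoped ComplexOrder
open Filter Topology Pool.Agent.Lib.EqGamma

namespace Pool.Agent.Lib.EJS

universe u v

/-- Rordam-Winter pairs of size `n + 1`: an order zero family of matrix units `e i j` with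
`h = ∑ e i i` a positive element, and `s` with `s* s = 1 - h` and `e 0 0 * s = s`. -/
structure IsRW {E : Type*} [Ring E] [StarRing E] (n : ℕ) (e : Fin (n + 1) → Fin (n + 1) → E)
    (s : E) : Prop where
  star_e : ∀ i j, star (e i j) = e j i
  mul_e : ∀ i j k l, e i j * e k l = if j = k then (∑ m, e m m) * e i l else 0
  pos : ∃ c, ∑ m, e m m = star c * c
  star_s : star s * s = 1 - ∑ m, e m m
  e_s : e 0 0 * s = s

/-- existence of a Rordam-Winter pair of size `n + 1` -/
def HasRW (n : ℕ) (E : Type*) [Ring E] [StarRing E] : Prop :=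
  ∃ (e : Fin (n + 1) → Fin (n + 1) → E) (s : E), IsRW n e s

theorem IsRW.map {E F : Type*} [Ring E] [StarRing E] [Algebra ℂ E] [Ring F] [StarRing F]
    [Algebra ℂ F] {n : ℕ} {e : Fin (n + 1) → Fin (n + 1) → E} {s : E} (h : IsRW n e s)
    (φ : E →⋆ₐ[ℂ] F) : IsRW n (fun i j => φ (e i j)) (φ s) where
  star_e i j := by rw [← map_star, h.star_e]
  mul_e i j k l := by
    rw [← map_mul, h.mul_e]
    split_ifs
    · rw [map_mul, map_sum]
    · rw [map_zero]
  pos := by
    obtain ⟨c, hc⟩ := h.pos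
    exact ⟨φ c, by rw [← map_sum, hc, map_mul, map_star]⟩
  star_s := by rw [← map_star, ← map_mul, h.star_s, map_sub, map_one, map_sum]
  e_s := by rw [← map_mul, h.e_s]

theorem HasRW.map {E F : Type*} [Ring E] [StarRing E] [Algebra ℂ E] [Ring F] [StarRing F]
    [Algebra ℂ F] {n : ℕ} (h : HasRW n E) (φ : E →⋆ₐ[ℂ] F) : HasRW n F := by
  obtain ⟨e, s, h⟩ := h
  exact ⟨_, _, h.map φ⟩

variable {A : Type u} [CStarAlgebra A]

theorem nul_of_tendsto {x : BF ℕ A} (hx : Tendsto (fun n => BF.ev n x) atTop (𝓝 0)) :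
    Nul atTop x := by
  let _ := CStarAlgebra.spectralOrder A
  have := CStarAlgebra.spectralOrderedRing A
  intro ε hε
  have h1 := (Metric.tendsto_nhds.1 hx) (√ε) (Real.sqrt_pos.2 hε)
  filter_upwards [h1] with n hn τ hτ
  rw [dist_zero_right] at hn
  have h2 := hτ.norm_le (star (BF.ev n x) * BF.ev n x)
  rw [CStarRing.norm_star_mul_self] at h2
  rw [reT_apply]
  refine (Complex.re_le_norm _).trans (h2.trans ?_)
  have h3 : ‖BF.ev n x‖ * ‖BF.ev n x‖ ≤ √ε * √ε :=
    mul_le_mul hn.le hn.le (norm_nonneg _) (Real.sqrt_nonneg _)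
  rwa [Real.mul_self_sqrt hε.le] at h3

theorem nul_congr {x y : BF ℕ A} (h : Seq.of x = Seq.of y) : Nul atTop x ↔ Nul atTop y := by
  rw [Seq.of_eq_of] at h
  have h1 : Nul atTop (x - y) := nul_of_tendsto (by simpa only [map_sub] using h)
  constructor
  · intro hx
    have := hx.sub h1
    rwa [sub_sub_cancel] at this
  · intro hy
    have := h1.add hy
    rwa [sub_add_cancel] at this

/-- the trace kernel ideal of the sequence algebra -/
def J (A : Type u) [CStarAlgebra A] : CIdeal (Seq A) where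
  ideal :=
    { carrier := {y | ∃ x : BF ℕ A, Seq.of x = y ∧ Nul atTop x}
      add_mem' := by
        rintro _ _ ⟨x, rfl, hx⟩ ⟨y, rfl, hy⟩
        exact ⟨x + y, map_add _ _ _, hx.add hy⟩
      zero_mem' := ⟨0, map_zero _, Nul.zero⟩
      smul_mem' := by
        rintro c _ ⟨x, rfl, hx⟩
        obtain ⟨c, rfl⟩ := Seq.of_surjective c
        exact ⟨c * x, map_mul _ _ _, hx.mul_left c⟩ }
  mul_right' := by
    rintro _ c ⟨x, rfl, hx⟩
    obtain ⟨c, rfl⟩ := Seq.of_surjective c
    exact ⟨x * c, map_mul _ _ _, hx.mul_right c⟩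
  star_mem' := by
    rintro _ ⟨x, rfl, hx⟩
    exact ⟨star x, map_star _ _, hx.star⟩
  closed' := by
    rw [← isSeqClosed_iff_isClosed]
    intro x y hx hxy
    obtain ⟨y, rfl⟩ := Seq.of_surjective y
    refine ⟨y, rfl, ?_⟩
    let _ := CStarAlgebra.spectralOrder A
    have := CStarAlgebra.spectralOrderedRing A
    intro ε hε
    obtain ⟨k, hk⟩ := ((Metric.tendsto_nhds.1 hxy) (√(ε / 4))
      (Real.sqrt_pos.2 (by positivity))).exists
    obtain ⟨z, hz, hz'⟩ := hx k
    rw [← hz, dist_eq_norm, ← map_sub] at hk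
    filter_upwards [Seq.eventually_lt hk, hz' (ε / 4) (by positivity)] with n hn hn' τ hτ
    have h1 := hn' τ hτ
    have e : BF.ev n y = BF.ev n z - BF.ev n (z - y) := by rw [map_sub]; abel
    rw [e]
    have h2 := hτ.rtr.sq_sub_le (BF.ev n z) (BF.ev n (z - y))
    have h3 : reT τ (star (BF.ev n (z - y)) * BF.ev n (z - y)) ≤ ε / 4 := by
      have h4 := hτ.norm_le (star (BF.ev n (z - y)) * BF.ev n (z - y))
      rw [CStarRing.norm_star_mul_self] at h4
      rw [reT_apply]
      refine (Complex.re_le_norm _).trans (h4.trans ?_)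
      have h5 := mul_le_mul hn.le hn.le (norm_nonneg _) (Real.sqrt_nonneg _)
      rwa [Real.mul_self_sqrt (by positivity)] at h5
    linarith

theorem mem_J {x : BF ℕ A} : Seq.of x ∈ J A ↔ Nul atTop x := by
  constructor
  · rintro ⟨y, hy, hy'⟩
    exact (nul_congr hy).1 hy'
  · intro h
    exact ⟨x, rfl, h⟩

/-- the uniform tracial sequence algebra -/
abbrev TA (A : Type u) [CStarAlgebra A] : Type u := CQ (J A)

namespace TA

/-- the quotient map -/
noncomputable def of : Seq A →⋆ₐ[ℂ] TA A := CQ.mk (J A)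

theorem of_surjective : Function.Surjective (of : Seq A → TA A) := CQ.mk_surjective _

theorem of_eq_zero {x : Seq A} : of x = 0 ↔ x ∈ J A := CQ.mk_eq_zero _

theorem exists_lift (y : TA A) : ∃ x : Seq A, of x = y ∧ ‖x‖ ≤ ‖y‖ := CQ.exists_lift _ y

/-- constants -/
noncomputable def cst : A →⋆ₐ[ℂ] TA A := of.comp Seq.const

end TA

section action

variable {G : Type v} [Group G] (α : G →* (A ≃⋆ₐ[ℂ] A))

theorem act_mem_J (g : G) {x : Seq A} (hx : x ∈ J A) : Seq.act α g x ∈ J A := by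
  obtain ⟨x, rfl⟩ := Seq.of_surjective x
  rw [mem_J] at hx
  change Seq.of (BFmap _ x) ∈ J A
  rw [mem_J]
  intro ε hε
  filter_upwards [hx ε hε] with n hn τ hτ
  have hτ' : TracialState (τ ∘ₗ ((α g : A →⋆ₐ[ℂ] A) : A →ₐ[ℂ] A).toLinearMap) := by
    refine ⟨?_, ?_, ?_⟩
    · change τ ((α g : A →⋆ₐ[ℂ] A) 1) = 1
      rw [map_one, hτ.map_one]
    · intro y
      change 0 ≤ τ ((α g : A →⋆ₐ[ℂ] A) (star y * y))
      rw [map_mul, map_star]
      exact hτ.nonneg _
    · intro y z
      change τ ((α g : A →⋆ₐ[ℂ] A) (y * z)) = τ ((α g : A →⋆ₐ[ℂ] A) (z * y))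
      rw [map_mul (α g : A →⋆ₐ[ℂ] A), map_mul (α g : A →⋆ₐ[ℂ] A)]
      exact hτ.tracial _ _
  have h1 := hn _ hτ'
  rw [ev_BFmap, ← map_star, ← map_mul]
  exact h1

/-- the action on the tracial sequence algebra -/
noncomputable def TA.act (g : G) : TA A →⋆ₐ[ℂ] TA A :=
  CQ.lift (TA.of.comp (Seq.act α g)) fun x hx => by
    rw [StarAlgHom.comp_apply, TA.of_eq_zero]
    exact act_mem_J α g hx

theorem TA.act_of (g : G) (x : Seq A) : TA.act α g (TA.of x) = TA.of (Seq.act α g x) := rfl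

theorem TA.act_one (x : TA A) : TA.act α 1 x = x := by
  obtain ⟨x, rfl⟩ := TA.of_surjective x
  rw [TA.act_of, Seq.act_one]

theorem TA.act_mul (g h : G) (x : TA A) : TA.act α (g * h) x = TA.act α g (TA.act α h x) := by
  obtain ⟨x, rfl⟩ := TA.of_surjective x
  rw [TA.act_of, TA.act_of, TA.act_of, Seq.act_mul]

theorem TA.act_cst (g : G) (a : A) : TA.act α g (TA.cst a) = TA.cst (α g a) := rfl

end action

/-- limit traces (real parts) on the uniform tracial sequence algebra -/
def IsLimTr (T : TA A →ₗ[ℝ] ℝ) : Prop :=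
  ∃ (V : Ultrafilter ℕ) (τ : ℕ → A →ₗ[ℂ] ℂ) (hτ : ∀ n, TracialState (τ n)),
    (V : Filter ℕ) ≤ atTop ∧ ∀ x : BF ℕ A, T (TA.of (Seq.of x)) = (Tlim V τ hτ x).re

/-- the algebra of invariant central sequences -/
noncomputable def fix {G : Type v} [Group G] (α : G →* (A ≃⋆ₐ[ℂ] A)) :
    StarSubalgebra ℂ (Seq A) where
  carrier := {x | Seq.Central x ∧ Seq.Invariant α x}
  mul_mem' := by
    rintro x y ⟨hx, hx'⟩ ⟨hy, hy'⟩
    exact ⟨fun a => (hx a).mul_right (hy a), fun g => by rw [map_mul, hx', hy']⟩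
  add_mem' := by
    rintro x y ⟨hx, hx'⟩ ⟨hy, hy'⟩
    exact ⟨fun a => (hx a).add_right (hy a), fun g => by rw [map_add, hx', hy']⟩
  algebraMap_mem' r := ⟨fun a => (Algebra.commutes r (Seq.const a)).symm, fun g => by
    rw [AlgHomClass.commutes]⟩
  star_mem' := by
    rintro x ⟨hx, hx'⟩
    refine ⟨fun a => ?_, fun g => by rw [map_star, hx']⟩
    have h1 := (hx (star a)).star_star
    rw [map_star, star_star] at h1
    exact h1

instance {G : Type v} [Group G] (α : G →* (A ≃⋆ₐ[ℂ] A)) :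
    IsClosed (fix α : Set (Seq A)) := by
  have : (fix α : Set (Seq A)) = (⋂ a : A, {x | Seq.const a * x = x * Seq.const a}) ∩
      ⋂ g : G, {x | Seq.act α g x = x} := by
    ext x
    simp only [Set.mem_inter_iff, Set.mem_iInter]
    rfl
  rw [this]
  exact (isClosed_iInter fun a => isClosed_eq (by fun_prop) (by fun_prop)).inter
    (isClosed_iInter fun g => isClosed_eq (shom_continuous _) continuous_id)

end Pool.Agent.Lib.EJS
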