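import Pool.Agent.Lib.EJS.CoordCompare

/-!
# Comparison in the sequence algebra

PROOF.  Choose `δ > 0` with `δ ‖∑ y_j* y_j‖ ≤ 1/8` and `δ < 1`, `X' := cfc (fun t => max (t - δ) 0) X`, so
`X' ≤ X ≤ X' + δ`.  Let `Y = ∑ y_j* X y_j`, `Y' = ∑ y_j* X' y_j`, `c := cfc (fun t => max (t - 1/8) 0) (1 - Y')`.
In the quotient by `J A` the element `1 - Y'` is the image of `Y - Y'`, of norm at most `1/8`, so the
image of `c` is `0` (`map_cfc`-type lemma for the quotient map): `c ∈ J A`.  Lift everything: `X`, `e` to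
positive contractions `x_n`, `e_n` (write `X = c* c`, lift `c` with the same norm bound), `y_j` to
`y_{j,n}`.  The coordinates of lifts of `X'`, `c` are `cfc .. (x_n)`, `cfc .. (1 - ∑ y_{j,n}* x'_n y_{j,n})` (`BF.ev` commutes
with the functional calculus).  As `e, c ∈ J A` are positive, `sup_τ τ(e_n) → 0`, `sup_τ τ(c_n) → 0`
(`Nul` controls `τ(z* z)`, and `τ(z)² ≤ τ(z* z)` by Cauchy-Schwarz for positive `z`).
`x'_n ≠ 0` eventually: if `x'_n = 0` then `c_n = cfc .. 1 = 7/8`; if there is a tracial state this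
contradicts `τ(c_n) → 0`; if `∑ y_j* X y_j = 1` then `‖1 - Y'‖ ≤ 1/8`, so `‖1 - Y'_n‖ < 7/8`-ish eventually, so
`Y'_n ≠ 0`.
By `coord_compare` (with `ε / 2`) for all large `n`: `cfc (max (t - ε/2) 0) e_n ≾ x'_n`: there is `R_n` with
`‖R_n* x'_n R_n - (e_n - ε/2)₊‖ < ε/4`.  Put `R'_n := cfc (fun t => √(max (t - δ) 0 / t)) x_n * R_n` (the function is
continuous on `[0,1]`, `0` on `[0,δ]`): `R'* x R' = R* x' R`, and `R'* R' ≤ δ⁻¹ R* x' R` (
`max (t-δ) 0 / t ≤ δ⁻¹ max (t - δ) 0`), so `‖R'_n‖² ≤ δ⁻¹ (1 + ε)`: bounded.  The class of `R'` satisfies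
`‖R'* X R' - e‖ ≤ ε/2 + ε/4`.
-/

open scoped ComplexOrder
open Filter Topology Pool.Agent.Lib.EqGamma

namespace Pool.Agent.Lib.EJS

universe u

namespace CompareAux

section basic

variable {B : Type*} [CStarAlgebra B] [PartialOrder B] [StarOrderedRing B]

/-- cutting down changes a positive element by at most `δ` -/
theorem cut_le {X : B} (hX : 0 ≤ X) {δ : ℝ} (hδ : 0 < δ) :
    0 ≤ X - cfc (fun t : ℝ => max (t - δ) 0) X ∧
      X - cfc (fun t : ℝ => max (t - δ) 0) X ≤ algebraMap ℝ B δ := by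
  have h1 : X - cfc (fun t : ℝ => max (t - δ) 0) X = cfc (fun t : ℝ => t - max (t - δ) 0) X := by
    rw [cfc_sub (fun t : ℝ => t) (fun t : ℝ => max (t - δ) 0) X (by fun_prop) (by fun_prop),
      cfc_id' ℝ X]
  rw [h1]
  constructor
  · refine cfc_nonneg fun t ht => ?_
    have h0 : 0 ≤ t := spectrum_nonneg_of_nonneg hX ht
    rw [sub_nonneg]
    exact max_le (by linarith) h0
  · refine cfc_le_algebraMap _ _ _ fun t ht => ?_
    have := le_max_left (t - δ) 0
    linarith

theorem norm_sum_conj_le {X : B} (hX : 0 ≤ X) {δ : ℝ} (hδ : 0 < δ) {C : ℕ} (y : Fin C → B) :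
    ‖∑ j, star (y j) * (X - cfc (fun t : ℝ => max (t - δ) 0) X) * y j‖ ≤
      δ * ‖∑ j, star (y j) * y j‖ := by
  obtain ⟨h1, h2⟩ := cut_le hX hδ
  have h3 : 0 ≤ ∑ j, star (y j) * (X - cfc (fun t : ℝ => max (t - δ) 0) X) * y j :=
    Finset.sum_nonneg fun j _ => star_left_conjugate_nonneg h1 _
  have h4 : ∑ j, star (y j) * (X - cfc (fun t : ℝ => max (t - δ) 0) X) * y j ≤
      δ • ∑ j, star (y j) * y j := by
    rw [Finset.smul_sum]
    refine Finset.sum_le_sum fun j _ => ?_
    refine (star_left_conjugate_le_conjugate h2 _).trans (le_of_eq ?_)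
    rw [Algebra.algebraMap_eq_smul_one, mul_smul_comm, mul_one, smul_mul_assoc]
  refine (CStarAlgebra.norm_le_norm_of_nonneg_of_le h3 h4).trans ?_
  rw [norm_smul, Real.norm_eq_abs, abs_of_pos hδ]

/-- a self-adjoint element of small norm is cut down to zero -/
theorem cfc_cut_eq_zero {z : B} {r : ℝ} (hr : ‖z‖ ≤ r) :
    cfc (fun t : ℝ => max (t - r) 0) z = 0 := by
  rcases subsingleton_or_nontrivial B with hs | hs
  · exact Subsingleton.elim _ _
  · rw [← cfc_const_zero ℝ z]
    refine cfc_congr fun t ht => ?_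
    have h1 := spectrum.norm_le_norm_of_mem ht
    have h2 := (Real.le_norm_self t).trans (h1.trans hr)
    show max (t - r) 0 = 0
    exact max_eq_right (by linarith)

theorem norm_cut_sub_le {z : B} (hz : 0 ≤ z) {r : ℝ} (hr : 0 < r) :
    ‖cfc (fun t : ℝ => max (t - r) 0) z - z‖ ≤ r := by
  have h1 : cfc (fun t : ℝ => max (t - r) 0) z - z = cfc (fun t : ℝ => max (t - r) 0 - t) z := by
    rw [cfc_sub (fun t : ℝ => max (t - r) 0) (fun t : ℝ => t) z (by fun_prop) (by fun_prop),
      cfc_id' ℝ z]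
  rw [h1]
  refine norm_cfc_le hr.le fun t ht => ?_
  have h0 : 0 ≤ t := spectrum_nonneg_of_nonneg hz ht
  rw [Real.norm_eq_abs, abs_le]
  constructor
  · have := le_max_left (t - r) 0
    linarith
  · have : max (t - r) 0 ≤ t := max_le (by linarith) h0
    linarith

/-- changing the element which implements the comparison -/
theorem exists_bounded {x R w : B} (hx : 0 ≤ x) {δ η : ℝ} (hδ : 0 < δ)
    (h : ‖star R * cfc (fun t : ℝ => max (t - δ) 0) x * R - w‖ < η) (hw : ‖w‖ ≤ 1) :
    ∃ S : B, ‖star S * x * S - w‖ < η ∧ ‖S‖ ^ 2 ≤ δ⁻¹ * (1 + η) := by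
  set g : ℝ → ℝ := fun t => √(max (t - δ) 0 / max t δ) with hg
  have hgc : Continuous g := by
    apply Real.continuous_sqrt.comp
    apply Continuous.div₀ (by fun_prop) (by fun_prop)
    intro t
    exact (lt_max_of_lt_right hδ).ne'
  have hsa : IsSelfAdjoint x := IsSelfAdjoint.of_nonneg hx
  have hgs : star (cfc g x) = cfc g x := (cfc_predicate (R := ℝ) g x).star_eq
  have hgg : ∀ t : ℝ, g t * g t = max (t - δ) 0 / max t δ := by
    intro t
    apply Real.mul_self_sqrt
    exact div_nonneg (le_max_right _ _) (hδ.le.trans (le_max_right _ _))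
  have h1 : cfc g x * x * cfc g x = cfc (fun t : ℝ => max (t - δ) 0) x := by
    have h2 : cfc g x * x = cfc (fun t : ℝ => g t * t) x := by
      rw [cfc_mul g (fun t : ℝ => t) x hgc.continuousOn continuousOn_id, cfc_id' ℝ x]
    rw [h2, ← cfc_mul (fun t : ℝ => g t * t) g x (by fun_prop) hgc.continuousOn]
    refine cfc_congr fun t ht => ?_
    have h0 : 0 ≤ t := spectrum_nonneg_of_nonneg hx ht
    show g t * t * g t = max (t - δ) 0
    rw [mul_right_comm, hgg]
    rcases le_total t δ with h3 | h3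
    · rw [max_eq_right (by linarith : t - δ ≤ 0), zero_div, zero_mul]
    · rw [max_eq_left h3, div_mul_cancel₀ _ (lt_of_lt_of_le hδ h3).ne']
  refine ⟨cfc g x * R, ?_, ?_⟩
  · have h2 : star (cfc g x * R) * x * (cfc g x * R) =
        star R * (cfc g x * x * cfc g x) * R := by
      rw [star_mul, hgs]; noncomm_ring
    rw [h2, h1]
    exact h
  · have h2 : star (cfc g x * R) * (cfc g x * R) = star R * (cfc g x * cfc g x) * R := by
      rw [star_mul, hgs]; noncomm_ring
    have h3 : cfc g x * cfc g x ≤ δ⁻¹ • cfc (fun t : ℝ => max (t - δ) 0) x := by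
      rw [← cfc_mul g g x hgc.continuousOn hgc.continuousOn,
        ← cfc_smul δ⁻¹ (fun t : ℝ => max (t - δ) 0) x (by fun_prop)]
      refine cfc_mono ?_ (by fun_prop) (by fun_prop)
      intro t ht
      show g t * g t ≤ δ⁻¹ • max (t - δ) 0
      rw [hgg, smul_eq_mul, div_eq_inv_mul]
      refine mul_le_mul_of_nonneg_right ?_ (le_max_right _ _)
      exact inv_anti₀ hδ (le_max_right _ _)
    have h4 : star R * (cfc g x * cfc g x) * R ≤
        δ⁻¹ • (star R * cfc (fun t : ℝ => max (t - δ) 0) x * R) := by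
      refine (star_left_conjugate_le_conjugate h3 _).trans (le_of_eq ?_)
      rw [mul_smul_comm, smul_mul_assoc]
    have h5 : 0 ≤ star R * (cfc g x * cfc g x) * R := by
      rw [← h2]; exact star_mul_self_nonneg _
    have h6 := CStarAlgebra.norm_le_norm_of_nonneg_of_le h5 h4
    rw [sq, ← CStarRing.norm_star_mul_self, h2]
    refine h6.trans ?_
    rw [norm_smul, Real.norm_eq_abs, abs_of_pos (inv_pos.2 hδ)]
    refine mul_le_mul_of_nonneg_left ?_ (inv_pos.2 hδ).le
    have h7 : ‖star R * cfc (fun t : ℝ => max (t - δ) 0) x * R‖ ≤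
        ‖w‖ + ‖star R * cfc (fun t : ℝ => max (t - δ) 0) x * R - w‖ := norm_le_norm_add_norm_sub' _ _
    linarith

end basic

/-- null families have uniformly small traces -/
theorem trace_small_of_nul {A : Type u} [CStarAlgebra A] {x : BF ℕ A} (hx : Nul atTop x) {δ : ℝ}
    (hδ : 0 < δ) : ∀ᶠ n in atTop, ∀ τ : A →ₗ[ℂ] ℂ, TracialState τ → reT τ (BF.ev n x) ≤ δ := by
  filter_upwards [hx (δ ^ 2) (by positivity)] with n hn τ hτ
  have h1 := (hτ.sq_norm_le (BF.ev n x)).trans (hn τ hτ)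
  have h2 : ‖τ (BF.ev n x)‖ ≤ δ := abs_le_of_sq_le_sq' h1 hδ.le |>.2
  rw [reT_apply]
  exact (Complex.re_le_norm _).trans h2

/-- lifts of positive contractions -/
theorem exists_pos_lift {A : Type u} [CStarAlgebra A] {X : Seq A}
    (hX : ∃ c : Seq A, X = star c * c) (hX1 : ‖X‖ ≤ 1) :
    ∃ c : BF ℕ A, Seq.of (star c * c) = X ∧ ‖c‖ ≤ 1 := by
  obtain ⟨c, rfl⟩ := hX
  obtain ⟨d, hd, hd'⟩ := Seq.exists_lift c
  refine ⟨d, by rw [map_mul, map_star, hd], hd'.trans ?_⟩
  rw [CStarRing.norm_star_mul_self] at hX1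
  nlinarith [norm_nonneg c]

end CompareAux

open CompareAux

theorem compare {A : Type u} [CStarAlgebra A] [PartialOrder A] [StarOrderedRing A]
    [IsSimpleRing A] (hA : AlmostUnperf A) (hT : TraceSmall A) {X e : Seq A}
    (hX : ∃ c : Seq A, X = star c * c) (hX1 : ‖X‖ ≤ 1) (he : ∃ c : Seq A, e = star c * c)
    (he1 : ‖e‖ ≤ 1) (heJ : e ∈ J A) {C : ℕ} (y : Fin C → Seq A)
    (hy : 1 - ∑ j, star (y j) * X * y j ∈ J A)
    (h : (∃ τ : A →ₗ[ℂ] ℂ, TracialState τ) ∨ ∑ j, star (y j) * X * y j = 1) {ε : ℝ}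
    (hε : 0 < ε) : ∃ R : Seq A, ‖star R * X * R - e‖ ≤ ε := by
  let _ := CStarAlgebra.spectralOrder (BF ℕ A)
  have := CStarAlgebra.spectralOrderedRing (BF ℕ A)
  obtain ⟨c, hc, hc1⟩ := exists_pos_lift hX hX1
  obtain ⟨d, hd, hd1⟩ := exists_pos_lift he he1
  choose Y hY _ using fun j => Seq.exists_lift (y j)
  set K : ℝ := ‖∑ j, star (y j) * y j‖ with hK
  have hK0 : 0 ≤ K := norm_nonneg _
  set δ : ℝ := 1 / (8 * (K + 1)) with hδdef
  have hδ : 0 < δ := by positivity
  have hδK : δ * K ≤ 1 / 8 := by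
    rw [hδdef, div_mul_eq_mul_div, one_mul, div_le_iff₀ (by positivity)]
    linarith
  set x : BF ℕ A := star c * c with hx
  have hx0 : 0 ≤ x := star_mul_self_nonneg c
  set f : ℝ → ℝ := fun t => max (t - δ) 0 with hf
  have hfc : Continuous f := by fun_prop
  set x' : BF ℕ A := cfc f x with hx'
  set z : BF ℕ A := 1 - ∑ j, star (Y j) * x' * Y j with hz
  have hx'sa : IsSelfAdjoint x' := cfc_predicate (R := ℝ) f x
  have hzsa : IsSelfAdjoint z := by
    refine (IsSelfAdjoint.one _).sub ?_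
    rw [isSelfAdjoint_iff, star_sum]
    refine Finset.sum_congr rfl fun j _ => ?_
    rw [star_mul, star_mul, star_star, hx'sa.star_eq, mul_assoc]
  set g : ℝ → ℝ := fun t => max (t - 1 / 8) 0 with hg
  have hgc : Continuous g := by fun_prop
  set k : BF ℕ A := cfc g z with hk
  -- coordinates
  have hevc : ∀ n, Continuous (BF.ev n : BF ℕ A →⋆ₐ[ℂ] A) := fun n => shom_continuous _
  have hxn : ∀ n, 0 ≤ BF.ev n x := fun n => by
    rw [hx, map_mul, map_star]; exact star_mul_self_nonneg _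
  have hx'n : ∀ n, BF.ev n x' = cfc f (BF.ev n x) := fun n =>
    StarAlgHomClass.map_cfc (BF.ev n) f x hfc.continuousOn (hevc n) hx0.isSelfAdjoint
      (hx0.isSelfAdjoint.map (BF.ev n))
  have hzn : ∀ n, BF.ev n z = 1 - ∑ j, star (BF.ev n (Y j)) * BF.ev n x' * BF.ev n (Y j) := by
    intro n
    rw [hz, map_sub, map_one, map_sum]
    simp only [map_mul, map_star]
  have hkn : ∀ n, BF.ev n k = cfc g (BF.ev n z) := fun n =>
    StarAlgHomClass.map_cfc (BF.ev n) g z hgc.continuousOn (hevc n) hzsa (hzsa.map (BF.ev n))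
  -- the images in the sequence algebra
  have hXpos : 0 ≤ X := by rw [← hc, map_mul, map_star]; exact star_mul_self_nonneg _
  have hX' : Seq.of x' = cfc f X := by
    rw [← hc]
    exact StarAlgHomClass.map_cfc Seq.of f x hfc.continuousOn Seq.continuous_of hx0.isSelfAdjoint
      (hx0.isSelfAdjoint.map Seq.of)
  have hzof : Seq.of z = (1 - ∑ j, star (y j) * X * y j) +
      ∑ j, star (y j) * (X - cfc f X) * y j := by
    rw [hz, map_sub, map_one, map_sum]
    simp only [map_mul, map_star, hY, hX']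
    simp only [mul_sub, sub_mul, Finset.sum_sub_distrib]
    abel
  have hsmall : ‖∑ j, star (y j) * (X - cfc f X) * y j‖ ≤ 1 / 8 :=
    (norm_sum_conj_le hXpos hδ y).trans hδK
  have hkJ : Seq.of k ∈ J A := by
    rw [← TA.of_eq_zero]
    have h1 : TA.of (Seq.of z) = TA.of (∑ j, star (y j) * (X - cfc f X) * y j) := by
      rw [hzof, map_add, TA.of_eq_zero.2 hy, zero_add]
    have h2 : ‖TA.of (Seq.of z)‖ ≤ 1 / 8 := by
      rw [h1]
      exact (shom_norm_le _ _).trans hsmall
    have h3 : (TA.of.comp Seq.of) k = cfc g ((TA.of.comp Seq.of) z) :=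
      StarAlgHomClass.map_cfc (TA.of.comp Seq.of) g z hgc.continuousOn (shom_continuous _) hzsa
        (hzsa.map _)
    rw [StarAlgHom.comp_apply, StarAlgHom.comp_apply] at h3
    rw [h3]
    exact cfc_cut_eq_zero h2
  have hkN : Nul atTop k := mem_J.1 hkJ
  have hdN : Nul atTop (star d * d) := by
    rw [← mem_J, hd]; exact heJ
  -- the coordinates of `x'` are not zero
  have hne : ∀ᶠ n in atTop, BF.ev n x' ≠ 0 := by
    rcases h with ⟨τ, hτ⟩ | h
    · filter_upwards [trace_small_of_nul hkN (show (0 : ℝ) < 1 / 2 by norm_num)] with n hn h0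
      have h1 : BF.ev n z = 1 := by
        rw [hzn n, h0]
        simp
      have h2 : BF.ev n k = algebraMap ℝ A (7 / 8) := by
        rw [hkn n, h1]
        have h3 : (1 : A) = algebraMap ℝ A 1 := (map_one _).symm
        rw [h3, cfc_algebraMap (1 : ℝ) g]
        congr 1
        norm_num [hg]
      have h3 := hn τ hτ
      rw [h2, Algebra.algebraMap_eq_smul_one, map_smul, reT_apply, hτ.map_one] at h3
      norm_num at h3
    · have h1 : ‖Seq.of z‖ < 1 / 2 := by
        rw [hzof, h, sub_self, zero_add]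
        exact hsmall.trans_lt (by norm_num)
      filter_upwards [Seq.eventually_lt h1] with n hn h0
      have h2 : BF.ev n z = 1 := by
        rw [hzn n, h0]
        simp
      rw [h2, CStarRing.norm_one] at hn
      norm_num at hn
  -- the comparison in the coordinates
  obtain ⟨η, hη, hcmp⟩ := coord_compare hA hT C (half_pos hε)
  have hen : ∀ n, 0 ≤ BF.ev n (star d * d) := fun n => by
    rw [map_mul, map_star]; exact star_mul_self_nonneg _
  have hen1 : ∀ n, ‖BF.ev n (star d * d)‖ ≤ 1 := fun n => by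
    rw [map_mul, map_star, CStarRing.norm_star_mul_self]
    have h1 := (BF.norm_ev_le d n).trans hd1
    nlinarith [norm_nonneg (BF.ev n d)]
  have hev : ∀ᶠ n in atTop, ∃ S : A,
      ‖star S * BF.ev n x * S - BF.ev n (star d * d)‖ ≤ ε ∧ ‖S‖ ^ 2 ≤ δ⁻¹ * (1 + ε / 4) := by
    filter_upwards [hne, trace_small_of_nul hkN hη, trace_small_of_nul hdN hη] with n h1 h2 h3
    have h4 := hcmp (BF.ev n x') (BF.ev n (star d * d)) (fun j => BF.ev n (Y j))
      (by rw [hx'n n]; exact cfc_nonneg fun t _ => le_max_right _ _) h1 (hen n) (hen1 n)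
      (fun τ hτ => by
        have h5 := h2 τ hτ
        rw [hkn n, hzn n] at h5
        exact h5)
      (fun τ hτ => h3 τ hτ)
    obtain ⟨R, hR⟩ := h4 (ε / 4) (by positivity)
    have h5 := hR () ()
    rw [if_pos rfl, Fintype.sum_unique, hx'n n] at h5
    have h6 : ‖cfc (fun t : ℝ => max (t - ε / 2) 0) (BF.ev n (star d * d))‖ ≤ 1 := by
      refine norm_cfc_le zero_le_one fun t ht => ?_
      have h7 : t ≤ 1 :=
        (Real.le_norm_self t).trans ((spectrum.norm_le_norm_of_mem ht).trans (hen1 n))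
      rw [Real.norm_eq_abs, abs_of_nonneg (le_max_right _ _)]
      exact max_le (by linarith) zero_le_one
    obtain ⟨S, hS1, hS2⟩ := exists_bounded (hxn n) hδ h5 h6
    refine ⟨S, ?_, hS2⟩
    have h8 := norm_cut_sub_le (hen n) (half_pos hε)
    calc ‖star S * BF.ev n x * S - BF.ev n (star d * d)‖
        ≤ ‖star S * BF.ev n x * S - cfc (fun t : ℝ => max (t - ε / 2) 0) (BF.ev n (star d * d))‖ +
          ‖cfc (fun t : ℝ => max (t - ε / 2) 0) (BF.ev n (star d * d)) - BF.ev n (star d * d)‖ :=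
            norm_sub_le_norm_sub_add_norm_sub _ _ _
      _ ≤ ε / 4 + ε / 2 := add_le_add hS1.le h8
      _ ≤ ε := by linarith
  obtain ⟨N, hN⟩ := eventually_atTop.1 hev
  choose S hS1 hS2 using hN
  classical
  set D : ℝ := √(δ⁻¹ * (1 + ε / 4)) with hD
  have hSD : ∀ n (hn : N ≤ n), ‖S n hn‖ ≤ D := fun n hn => Real.le_sqrt_of_sq_le (hS2 n hn)
  let R : BF ℕ A := BF.mk (fun n => if hn : N ≤ n then S n hn else 0) D fun n => by
    split_ifs with hn
    · exact hSD n hn
    · rw [norm_zero]; exact Real.sqrt_nonneg _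
  refine ⟨Seq.of R, ?_⟩
  have h9 : star (Seq.of R) * X * Seq.of R - e = Seq.of (star R * x * R - star d * d) := by
    rw [map_sub, map_mul, map_mul, map_star, hc, hd]
  rw [h9]
  refine Seq.norm_le_of_eventually hε.le ?_
  filter_upwards [eventually_ge_atTop N] with n hn
  rw [map_sub, map_mul, map_mul, map_star]
  have h10 : BF.ev n R = S n hn := by
    rw [BF.ev_mk, dif_pos hn]
  rw [h10]
  exact hS1 n hn

end Pool.Agent.Lib.EJS
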