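import Pool.Agent.Lib.EJS.AU

/-!
# Multiplicities

`MC b n m` for `n, m : S → ℕ`: the diagonal family with `n i` copies of `b i` is Cuntz
subequivalent to the one with `m i` copies of `b i`.  This is a preorder on `S → ℕ`, compatible
with the order and the addition.

PROOFS: reindexing with equivalences of sigma types, e.g.
`(Σ i, Fin (n i + n' i)) ≃ (Σ i, Fin (n i)) ⊕ (Σ i, Fin (n' i))`,
`(Σ i, Fin ((m + 1) * n i)) ≃ (Σ i, Fin (n i)) × Fin (m + 1)`, and `Fintype.equivFin` for `au`.
-/

open scoped ComplexOrder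
open Filter Topology Pool.Agent.Lib.EqGamma

namespace Pool.Agent.Lib.EJS

/-- comparison of multiplicities, see the header -/
def MC {A S : Type*} [CStarAlgebra A] [Fintype S] [DecidableEq S] (b : S → A) (n m : S → ℕ) :
    Prop :=
  Cle (fun p : Σ i, Fin (n i) => b p.1) (fun p : Σ i, Fin (m i) => b p.1)

namespace MC

section aux

variable {A S : Type*} [CStarAlgebra A] [Fintype S] [DecidableEq S] {b : S → A}

/-- the number of elements of the fibre -/
def cnt {T S : Type*} [Fintype T] [DecidableEq S] (f : T → S) (j : S) : ℕ :=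
  ∑ t, if f t = j then 1 else 0

theorem cnt_eq_card {T S : Type*} [Fintype T] [DecidableEq S] (f : T → S) (j : S) :
    cnt f j = Fintype.card {t // f t = j} := by
  rw [Fintype.card_subtype, Finset.card_filter, cnt]

theorem exists_iso {T : Type*} [Fintype T] (f : T → S) {n : S → ℕ} (hn : ∀ j, n j = cnt f j) :
    ∃ e : T ≃ Σ i, Fin (n i), ∀ t, (e t).1 = f t := by
  refine ⟨(Equiv.sigmaFiberEquiv f).symm.trans (Equiv.sigmaCongrRight fun j =>
    Fintype.equivFinOfCardEq ((cnt_eq_card f j).symm.trans (hn j).symm)), fun t => rfl⟩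

theorem cnt_fst (n : S → ℕ) (j : S) : cnt (fun p : Σ i, Fin (n i) => p.1) j = n j := by
  rw [cnt, Fintype.sum_sigma, Finset.sum_eq_single j]
  · simp
  · intro i _ hi
    simp [hi]
  · intro h
    exact absurd (Finset.mem_univ _) h

theorem mc_iff {T U : Type*} [Fintype T] [Fintype U] [DecidableEq T] [DecidableEq U]
    (f : T → S) (g : U → S) {n m : S → ℕ} (hn : ∀ j, n j = cnt f j) (hm : ∀ j, m j = cnt g j) :
    MC b n m ↔ Cle (fun t => b (f t)) (fun u => b (g u)) := by
  obtain ⟨e, he⟩ := exists_iso f hn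
  obtain ⟨e', he'⟩ := exists_iso g hm
  have h1 : (fun t => b (f t)) = fun t => (fun p : Σ i, Fin (n i) => b p.1) (e t) := by
    funext t
    simp only [he t]
  have h2 : (fun u => b (g u)) = fun u => (fun p : Σ i, Fin (m i) => b p.1) (e' u) := by
    funext u
    simp only [he' u]
  rw [h1, h2]
  constructor
  · intro h
    exact (Cle.comp_equiv e _).trans (Cle.trans h (Cle.equiv_comp e' _))
  · intro h
    exact (Cle.equiv_comp e _).trans (Cle.trans h (Cle.comp_equiv e' _))

theorem cle_sum {ι κ ι' κ' : Type*} [Fintype ι] [Fintype κ] [DecidableEq ι] [Fintype ι']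
    [Fintype κ'] [DecidableEq ι'] {x : ι → A} {y : κ → A} {x' : ι' → A} {y' : κ' → A}
    (h : Cle x y) (h' : Cle x' y') : Cle (Sum.elim x x') (Sum.elim y y') := by
  intro ε hε
  obtain ⟨R, hR⟩ := h ε hε
  obtain ⟨R', hR'⟩ := h' ε hε
  refine ⟨Sum.elim (fun k => Sum.elim (fun i => R k i) (fun _ => 0))
    (fun k => Sum.elim (fun _ => 0) (fun i => R' k i)), ?_⟩
  rintro (i | i) (i' | i')
  · simpa [Fintype.sum_sum_type] using hR i i'
  · simpa [Fintype.sum_sum_type] using hε
  · simpa [Fintype.sum_sum_type] using hε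
  · simpa [Fintype.sum_sum_type] using hR' i i'

end aux

variable {A S : Type*} [CStarAlgebra A] [Fintype S] [DecidableEq S] {b : S → A}

theorem of_le {n m : S → ℕ} (h : ∀ i, n i ≤ m i) : MC b n m := by
  have hj : Function.Injective
      (fun p : Σ i, Fin (n i) => (⟨p.1, Fin.castLE (h p.1) p.2⟩ : Σ i, Fin (m i))) := by
    rintro ⟨i, p⟩ ⟨j, q⟩ hpq
    simp only [Sigma.mk.injEq] at hpq
    obtain ⟨h1, h2⟩ := hpq
    subst h1
    rw [heq_eq_eq, Fin.castLE_inj] at h2
    rw [h2]
  exact Cle.of_injective hj (fun p : Σ i, Fin (m i) => b p.1)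

theorem trans {n m k : S → ℕ} (h1 : MC b n m) (h2 : MC b m k) : MC b n k :=
  Cle.trans h1 h2

theorem add {n m n' m' : S → ℕ} (h : MC b n m) (h' : MC b n' m') :
    MC b (fun i => n i + n' i) (fun i => m i + m' i) := by
  have key : ∀ n n' : S → ℕ, ∀ j, n j + n' j = cnt (Sum.elim (fun p : Σ i, Fin (n i) => p.1)
      (fun p : Σ i, Fin (n' i) => p.1)) j := by
    intro n n' j
    rw [← cnt_fst n j, ← cnt_fst n' j, cnt, cnt, cnt, Fintype.sum_sum_type]
    rfl
  rw [mc_iff _ _ (key n n') (key m m')]
  have h3 := cle_sum h h'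
  have e1 : ∀ n n' : S → ℕ, Sum.elim (fun p : Σ i, Fin (n i) => b p.1)
      (fun p : Σ i, Fin (n' i) => b p.1) = fun t => b (Sum.elim (fun p : Σ i, Fin (n i) => p.1)
      (fun p : Σ i, Fin (n' i) => p.1) t) := by
    intro n n'
    funext t
    rcases t with t | t <;> rfl
  rw [e1, e1] at h3
  exact h3

theorem mul {n m : S → ℕ} (h : MC b n m) (k : ℕ) :
    MC b (fun i => k * n i) (fun i => k * m i) := by
  have key : ∀ n : S → ℕ, ∀ j, k * n j =
      cnt (fun p : Fin k × (Σ i, Fin (n i)) => p.2.1) j := by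
    intro n j
    have h1 : cnt (fun p : Fin k × (Σ i, Fin (n i)) => p.2.1) j
        = ∑ _x : Fin k, cnt (fun p : Σ i, Fin (n i) => p.1) j := by
      rw [cnt, Fintype.sum_prod_type]
      rfl
    rw [h1, Finset.sum_const, Finset.card_univ, Fintype.card_fin, smul_eq_mul, cnt_fst]
  rw [mc_iff _ _ (key n) (key m)]
  exact Cle.copies h

theorem au (hA : AlmostUnperf A) {n m : S → ℕ} {k : ℕ} (hk : 0 < k)
    (h : MC b (fun i => (k + 1) * n i) (fun i => k * m i)) : MC b n m := by
  have key : ∀ (n : S → ℕ) (l : ℕ), ∀ j, l * n j =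
      cnt (fun p : Fin (Fintype.card (Σ i, Fin (n i))) × Fin l =>
        ((Fintype.equivFin (Σ i, Fin (n i))).symm p.1).1) j := by
    intro n l j
    rw [cnt, Fintype.sum_prod_type]
    simp only
    rw [← Equiv.sum_comp (Fintype.equivFin (Σ i, Fin (n i)))]
    simp only [Equiv.symm_apply_apply, Finset.sum_const, Finset.card_univ, Fintype.card_fin,
      smul_eq_mul]
    rw [← Finset.mul_sum]
    congr 1
    exact (cnt_fst n j).symm
  have key1 : ∀ (n : S → ℕ), ∀ j, n j =
      cnt (fun p : Fin (Fintype.card (Σ i, Fin (n i))) =>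
        ((Fintype.equivFin (Σ i, Fin (n i))).symm p).1) j := by
    intro n j
    rw [cnt, ← Equiv.sum_comp (Fintype.equivFin (Σ i, Fin (n i)))]
    simp only [Equiv.symm_apply_apply]
    exact (cnt_fst n j).symm
  rw [mc_iff _ _ (key1 n) (key1 m)]
  rw [mc_iff _ _ (key n (k + 1)) (key m k)] at h
  exact hA _ _ k hk _ _ h

/-- comparison of constant families in terms of multiplicities -/
theorem of_cle_const {i j : S} {n m : ℕ} (h : Cle (fun _ : Fin n => b i) (fun _ : Fin m => b j)) :
    MC b (fun l => if l = i then n else 0) (fun l => if l = j then m else 0) := by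
  have key : ∀ (i : S) (n : ℕ), ∀ l, (if l = i then n else 0) = cnt (fun _ : Fin n => i) l := by
    intro i n l
    rw [cnt, Finset.sum_const, Finset.card_univ, Fintype.card_fin, smul_eq_mul]
    by_cases hl : l = i
    · rw [if_pos hl, if_pos hl.symm, mul_one]
    · rw [if_neg hl, if_neg (Ne.symm hl), mul_zero]
  rw [mc_iff _ _ (key i n) (key j m)]
  exact h

/-- the unit vector comparison gives back the comparison of the elements -/
theorem cle_of_single {i j : S}
    (h : MC b (fun l => if l = i then 1 else 0) (fun l => if l = j then 1 else 0)) :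
    Cle (fun _ : Unit => b i) (fun _ : Unit => b j) := by
  have key : ∀ (i : S), ∀ l, (if l = i then 1 else 0) = cnt (fun _ : Unit => i) l := by
    intro i l
    rw [cnt, Finset.sum_const, Finset.card_univ, Fintype.card_unit, smul_eq_mul, one_mul]
    by_cases hl : l = i
    · rw [if_pos hl, if_pos hl.symm]
    · rw [if_neg hl, if_neg (Ne.symm hl)]
  rw [mc_iff _ _ (key i) (key j)] at h
  exact h

/-- an element below a sum of elements of the family -/
theorem of_sum {T : Type*} [Fintype T] [DecidableEq T] {i : S} (f : T → S) {n : S → ℕ}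
    (hn : ∀ j, n j = Fintype.card {t // f t = j})
    (h : Cle (fun _ : Unit => b i) (fun t : T => b (f t))) :
    MC b (fun l => if l = i then 1 else 0) n := by
  have key : ∀ (i : S), ∀ l, (if l = i then 1 else 0) = cnt (fun _ : Unit => i) l := by
    intro i l
    rw [cnt, Finset.sum_const, Finset.card_univ, Fintype.card_unit, smul_eq_mul, one_mul]
    by_cases hl : l = i
    · rw [if_pos hl, if_pos hl.symm]
    · rw [if_neg hl, if_neg (Ne.symm hl)]
  rw [mc_iff _ f (key i) fun j => (hn j).trans (cnt_eq_card f j).symm]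
  exact h

end MC

end Pool.Agent.Lib.EJS
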