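import Mathlib

/-!
# Simple unital C-star algebras

PROOFS.
`exists_sum_eq_one`: the two-sided ideal generated by `star z * z ≠ 0` is everything, so
`1 = ∑ a_j (z* z) b_j`.  Then `2 • 1 = ∑ (a_j z*z b_j + b_j* z*z a_j*) ≤ ∑ (a_j z*z a_j* + b_j* z*z b_j) =: Y`
(because `(z a_j* - z b_j)* (z a_j* - z b_j) ≥ 0`).  So `Y ≥ 2` is invertible and
`1 = Y^{-1/2} Y Y^{-1/2}`.  For `exists_sum_eq_one'` write `x = c* c`, `c ≠ 0` (`c = √x`).
`center_scalar`: a central element `z - c`, with `c` in the spectrum of `z`, is not invertible, so it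
is zero.
`simple_inj`: density.  If `w` is not in the span of a finite set `s` then some map
`T z = ∑ a_l z b_l` vanishes on `s` and `T w = 1` (`Mu.exists_of_notMem_span`); apply this to the
relation.
-/

open scoped ComplexOrder
open Filter Topology

namespace Pool.Agent.Lib.EJS

/-- the two-sided ideal generated by a non-zero element of a simple ring contains `1` -/
theorem exists_gen {A : Type*} [Ring A] [IsSimpleRing A] (z : A) (hz : z ≠ 0) :
    ∃ (m : ℕ) (a b : Fin m → A), ∑ j, a j * z * b j = 1 := by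
  have h1 : (1 : A) ∈ TwoSidedIdeal.span {z} :=
    IsSimpleRing.one_mem_of_ne_zero_mem _ hz (TwoSidedIdeal.subset_span rfl)
  have h2 : ∀ x, x ∈ TwoSidedIdeal.span {z} →
      ∃ l : List (A × A), (l.map fun p => p.1 * z * p.2).sum = x := by
    intro x hx
    induction hx using TwoSidedIdeal.span_induction with
    | mem x h =>
      rw [Set.mem_singleton_iff] at h
      exact ⟨[(1, 1)], by simp [h]⟩
    | zero => exact ⟨[], by simp⟩
    | add x y _ _ hx hy =>
      obtain ⟨l, hl⟩ := hx
      obtain ⟨k, hk⟩ := hy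
      exact ⟨l ++ k, by rw [List.map_append, List.sum_append, hl, hk]⟩
    | neg x _ hx =>
      obtain ⟨l, hl⟩ := hx
      refine ⟨l.map fun p => (-p.1, p.2), ?_⟩
      rw [List.map_map, ← hl]
      have : ((fun p : A × A => p.1 * z * p.2) ∘ fun p : A × A => (-p.1, p.2)) =
          fun p : A × A => (-1) * (p.1 * z * p.2) := by
        funext p
        simp [neg_mul]
      rw [this, List.sum_map_mul_left, neg_one_mul]
    | left_absorb a x _ hx =>
      obtain ⟨l, hl⟩ := hx
      refine ⟨l.map fun p => (a * p.1, p.2), ?_⟩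
      rw [List.map_map, ← hl]
      have : ((fun p : A × A => p.1 * z * p.2) ∘ fun p : A × A => (a * p.1, p.2)) =
          fun p : A × A => a * (p.1 * z * p.2) := by
        funext p
        simp [mul_assoc]
      rw [this, List.sum_map_mul_left]
    | right_absorb b x _ hx =>
      obtain ⟨l, hl⟩ := hx
      refine ⟨l.map fun p => (p.1, p.2 * b), ?_⟩
      rw [List.map_map, ← hl]
      have : ((fun p : A × A => p.1 * z * p.2) ∘ fun p : A × A => (p.1, p.2 * b)) =
          fun p : A × A => (p.1 * z * p.2) * b := by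
        funext p
        simp [mul_assoc]
      rw [this, List.sum_map_mul_right]
  obtain ⟨l, hl⟩ := h2 1 h1
  refine ⟨l.length, fun i => (l[i.1]).1, fun i => (l[i.1]).2, ?_⟩
  rw [← hl]
  exact Fin.sum_univ_fun_getElem l (fun p => p.1 * z * p.2)

theorem exists_sum_eq_one {A : Type*} [CStarAlgebra A] [IsSimpleRing A] (z : A) (hz : z ≠ 0) :
    ∃ (m : ℕ) (y : Fin m → A), ∑ j, star (y j) * (star z * z) * y j = 1 := by
  let _ := CStarAlgebra.spectralOrder A
  have := CStarAlgebra.spectralOrderedRing A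
  have hzz : star z * z ≠ 0 := by
    intro h
    rw [CStarRing.star_mul_self_eq_zero_iff] at h
    exact hz h
  obtain ⟨m, a, b, hab⟩ := exists_gen (star z * z) hzz
  have hab' : ∑ j, star (b j) * (star z * z) * star (a j) = 1 := by
    have h := congrArg star hab
    rw [star_sum, star_one] at h
    rw [← h]
    refine Finset.sum_congr rfl fun j _ => ?_
    rw [star_mul, star_mul, star_mul, star_star]
    noncomm_ring
  set Y : A := ∑ j, (a j * (star z * z) * star (a j) + star (b j) * (star z * z) * b j) with hY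
  have hY2 : Y - 2 = ∑ j, star (z * star (a j) - z * b j) * (z * star (a j) - z * b j) := by
    have h2 : (2 : A) = ∑ j, (a j * (star z * z) * b j + star (b j) * (star z * z) * star (a j)) := by
      rw [Finset.sum_add_distrib, hab, hab']
      norm_num
    rw [h2, hY, ← Finset.sum_sub_distrib]
    refine Finset.sum_congr rfl fun j _ => ?_
    rw [star_sub, star_mul, star_mul, star_star]
    noncomm_ring
  have h2Y : (2 : A) ≤ Y := by
    rw [← sub_nonneg, hY2]
    exact Finset.sum_nonneg fun j _ => star_mul_self_nonneg _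
  have h2pos : IsStrictlyPositive (2 : A) := by
    refine ⟨?_, ?_⟩
    · have : (2 : A) = 1 + 1 := by norm_num
      rw [this]
      exact add_nonneg zero_le_one zero_le_one
    · have h3 : IsUnit (algebraMap ℂ A 2) := (IsUnit.mk0 (2 : ℂ) (by norm_num)).map _
      rwa [map_ofNat] at h3
  have hYpos : IsStrictlyPositive Y := IsStrictlyPositive.of_le h2pos h2Y
  have hc := CFC.conjugate_rpow_neg_one_half Y hYpos
  set c : A := Y ^ (-(1 / 2) : ℝ) with hcdef
  have hcs : star c = c := (IsSelfAdjoint.of_nonneg CFC.rpow_nonneg : IsSelfAdjoint c).star_eq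
  refine ⟨m + m, Fin.append (fun j => star (a j) * c) (fun j => b j * c), ?_⟩
  rw [Fin.sum_univ_add]
  simp only [Fin.append_left, Fin.append_right]
  rw [← Finset.sum_add_distrib, ← hc, hY, Finset.mul_sum, Finset.sum_mul]
  refine Finset.sum_congr rfl fun j _ => ?_
  rw [star_mul, star_mul, star_star, hcs]
  noncomm_ring

theorem exists_sum_eq_one' {A : Type*} [CStarAlgebra A] [PartialOrder A] [StarOrderedRing A]
    [IsSimpleRing A] (x : A) (hx : 0 ≤ x) (hx0 : x ≠ 0) :
    ∃ (m : ℕ) (y : Fin m → A), ∑ j, star (y j) * x * y j = 1 := by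
  obtain ⟨c, rfl⟩ := CStarAlgebra.nonneg_iff_eq_star_mul_self.1 hx
  refine exists_sum_eq_one c ?_
  rintro rfl
  exact hx0 (by rw [mul_zero])

theorem center_scalar {A : Type*} [CStarAlgebra A] [IsSimpleRing A] (z : A)
    (h : ∀ x, Commute z x) : ∃ c : ℂ, z = algebraMap ℂ A c := by
  obtain ⟨c, hc⟩ := spectrum.nonempty z
  refine ⟨c, ?_⟩
  by_contra hne
  have hne' : algebraMap ℂ A c - z ≠ 0 := fun h0 => hne (sub_eq_zero.mp h0).symm
  have hcen : ∀ x, (algebraMap ℂ A c - z) * x = x * (algebraMap ℂ A c - z) := by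
    intro x
    rw [sub_mul, mul_sub, Algebra.commutes c x, (h x).eq]
  obtain ⟨m, a, b, hab⟩ := exists_gen _ hne'
  have h1 : (algebraMap ℂ A c - z) * ∑ j, a j * b j = 1 := by
    rw [← hab, Finset.mul_sum]
    refine Finset.sum_congr rfl fun j _ => ?_
    rw [← mul_assoc, hcen]
  have h2 : (∑ j, a j * b j) * (algebraMap ℂ A c - z) = 1 := by
    rw [← hcen, h1]
  rw [spectrum.mem_iff] at hc
  exact hc ⟨⟨_, _, h1, h2⟩, rfl⟩

theorem hom_injective {A B : Type*} [CStarAlgebra A] [IsSimpleRing A] [CStarAlgebra B]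
    [Nontrivial B] (i : A →⋆ₐ[ℂ] B) : Function.Injective i :=
  RingHom.injective (i : A →+* B)

/-- the maps `z ↦ ∑ a_l z b_l` -/
inductive Mu {Z : Type*} [Ring Z] : (Z → Z) → Prop
  | id : Mu fun z => z
  | add (S T : Z → Z) : Mu S → Mu T → Mu fun z => S z + T z
  | left (a : Z) (T : Z → Z) : Mu T → Mu fun z => a * T z
  | right (a : Z) (T : Z → Z) : Mu T → Mu fun z => T z * a

namespace Mu

variable {Z : Type*} [Ring Z] [Algebra ℂ Z]

omit [Algebra ℂ Z] in
theorem map_add {T : Z → Z} (hT : Mu T) (x y : Z) : T (x + y) = T x + T y := by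
  induction hT with
  | id => rfl
  | add S T _ _ hS hT => beta_reduce; rw [hS, hT]; abel
  | left a T _ hT => beta_reduce; rw [hT, mul_add]
  | right a T _ hT => beta_reduce; rw [hT, add_mul]

theorem map_smul {T : Z → Z} (hT : Mu T) (c : ℂ) (x : Z) : T (c • x) = c • T x := by
  induction hT with
  | id => rfl
  | add S T _ _ hS hT => beta_reduce; rw [hS, hT, smul_add]
  | left a T _ hT => beta_reduce; rw [hT, mul_smul_comm]
  | right a T _ hT => beta_reduce; rw [hT, smul_mul_assoc]

omit [Algebra ℂ Z] in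
theorem zero : Mu fun _ : Z => (0 : Z) := by
  have h := Mu.left (0 : Z) _ (Mu.id (Z := Z))
  simpa using h

omit [Algebra ℂ Z] in
theorem sum {ι : Type*} (s : Finset ι) (f : ι → Z → Z) (h : ∀ i, Mu (f i)) :
    Mu fun z => ∑ i ∈ s, f i z := by
  classical
  induction s using Finset.induction_on with
  | empty => simpa using Mu.zero
  | insert a s ha ih =>
    simp only [Finset.sum_insert ha]
    exact Mu.add _ _ (h a) ih

theorem eq_zero_of_mem_span {T : Z → Z} (hT : Mu T) {s : Set Z} (hs : ∀ u ∈ s, T u = 0) {x : Z}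
    (hx : x ∈ Submodule.span ℂ s) : T x = 0 := by
  induction hx using Submodule.span_induction with
  | mem x h => exact hs x h
  | zero =>
    have h1 := hT.map_smul 0 0
    rwa [zero_smul, zero_smul] at h1
  | add x y _ _ hx hy => rw [hT.map_add, hx, hy, add_zero]
  | smul c x _ hx => rw [hT.map_smul, hx, smul_zero]

end Mu

theorem Mu.exists_of_notMem_span {Z : Type*} [CStarAlgebra Z] [IsSimpleRing Z] (s : Finset Z) :
    ∀ w : Z, w ∉ Submodule.span ℂ (s : Set Z) →
      ∃ T : Z → Z, Mu T ∧ (∀ u ∈ s, T u = 0) ∧ T w = 1 := by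
  classical
  -- it suffices to have `T w ≠ 0`
  have key : ∀ (s : Finset Z) (w : Z), (∃ T : Z → Z, Mu T ∧ (∀ u ∈ s, T u = 0) ∧ T w ≠ 0) →
      ∃ T : Z → Z, Mu T ∧ (∀ u ∈ s, T u = 0) ∧ T w = 1 := by
    rintro s w ⟨T, hT, hs, hw⟩
    obtain ⟨m, a, b, hab⟩ := exists_gen _ hw
    refine ⟨fun z => ∑ j, a j * T z * b j, ?_, ?_, hab⟩
    · exact Mu.sum Finset.univ (fun j z => a j * T z * b j)
        (fun j => Mu.right _ _ (Mu.left _ _ hT))
    · intro u hu
      refine Finset.sum_eq_zero fun j _ => ?_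
      rw [hs u hu, mul_zero, zero_mul]
  induction s using Finset.induction_on with
  | empty =>
    intro w hw
    refine key _ _ ⟨fun z => z, Mu.id, by simp, ?_⟩
    rintro rfl
    exact hw (Submodule.zero_mem _)
  | insert v s hv ih =>
    intro w hw
    rw [Finset.coe_insert] at hw
    by_cases hvs : v ∈ Submodule.span ℂ (s : Set Z)
    · obtain ⟨T, hT, hs, hTw⟩ := ih w (fun h => hw (Submodule.span_mono (Set.subset_insert _ _) h))
      refine ⟨T, hT, ?_, hTw⟩
      intro u hu
      rcases Finset.mem_insert.mp hu with rfl | hu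
      · exact hT.eq_zero_of_mem_span (fun u hu => hs u hu) hvs
      · exact hs u hu
    · obtain ⟨T₁, hT₁, hs₁, hTv⟩ := ih v hvs
      apply key
      by_contra hcon
      have hcon' : ∀ T : Z → Z, Mu T → (∀ u ∈ s, T u = 0) → T v = 0 → T w = 0 := by
        intro T hT h1 h2
        by_contra h3
        refine hcon ⟨T, hT, ?_, h3⟩
        intro u hu
        rcases Finset.mem_insert.mp hu with rfl | hu
        · exact h2
        · exact h1 u hu
      -- `T₁ w` is central
      have hcen : ∀ a, Commute (T₁ w) a := by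
        intro a
        have h1 : Mu fun z => a * T₁ z + (-1) * (T₁ z * a) :=
          Mu.add _ _ (Mu.left _ _ hT₁) (Mu.left _ _ (Mu.right _ _ hT₁))
        have h2 := hcon' _ h1 (fun u hu => by simp [hs₁ u hu]) (by simp [hTv])
        have h3 : a * T₁ w + (-1) * (T₁ w * a) = 0 := h2
        rw [neg_one_mul, ← sub_eq_add_neg, sub_eq_zero] at h3
        exact h3.symm
      obtain ⟨c, hc⟩ := center_scalar _ hcen
      have hw2 : w - c • v ∉ Submodule.span ℂ (s : Set Z) := by
        intro h
        apply hw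
        rw [Submodule.mem_span_insert]
        exact ⟨c, w - c • v, h, by abel⟩
      obtain ⟨T₂, hT₂, hs₂, hT₂w⟩ := ih _ hw2
      have h1 : Mu fun z => T₂ z + (-1) * (T₂ v * T₁ z) :=
        Mu.add _ _ hT₂ (Mu.left _ _ (Mu.left _ _ hT₁))
      have h2 := hcon' _ h1 (fun u hu => by simp [hs₁ u hu, hs₂ u hu]) (by simp [hTv])
      have h3 : T₂ w + (-1) * (T₂ v * T₁ w) = 0 := h2
      rw [hc, neg_one_mul, ← sub_eq_add_neg, Algebra.algebraMap_eq_smul_one, mul_smul_comm,
        mul_one] at h3
      have h4 : T₂ (w - c • v) = T₂ w - c • T₂ v := by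
        have h5 := hT₂.map_add w ((-c) • v)
        rw [hT₂.map_smul, neg_smul, neg_smul, ← sub_eq_add_neg, ← sub_eq_add_neg] at h5
        exact h5
      rw [h4, h3] at hT₂w
      exact zero_ne_one hT₂w

/-- multiplication maps act on `i x * j y` through `x` -/
theorem Mu.lift {Z W D : Type*} [CStarAlgebra Z] [CStarAlgebra W] [CStarAlgebra D]
    (i : Z →⋆ₐ[ℂ] D) (j : W →⋆ₐ[ℂ] D) (hc : ∀ x y, Commute (i x) (j y)) {T : Z → Z} (hT : Mu T) :
    ∃ T' : D →+ D, ∀ x y, T' (i x * j y) = i (T x) * j y := by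
  induction hT with
  | id => exact ⟨AddMonoidHom.id D, fun x y => rfl⟩
  | add S T _ _ hS hT =>
    obtain ⟨S', hS'⟩ := hS
    obtain ⟨T', hT'⟩ := hT
    refine ⟨S' + T', fun x y => ?_⟩
    rw [AddMonoidHom.add_apply, hS', hT', _root_.map_add, add_mul]
  | left a T _ hT =>
    obtain ⟨T', hT'⟩ := hT
    refine ⟨(AddMonoidHom.mulLeft (i a)).comp T', fun x y => ?_⟩
    rw [AddMonoidHom.comp_apply, hT', AddMonoidHom.coe_mulLeft, map_mul, mul_assoc]
  | right a T _ hT =>
    obtain ⟨T', hT'⟩ := hT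
    refine ⟨(AddMonoidHom.mulRight (i a)).comp T', fun x y => ?_⟩
    rw [AddMonoidHom.comp_apply, hT', AddMonoidHom.mulRight_apply, map_mul, mul_assoc, mul_assoc,
      (hc a y).eq]

theorem simple_inj {Z W D : Type*} [CStarAlgebra Z] [CStarAlgebra W] [CStarAlgebra D]
    [IsSimpleRing Z] [IsSimpleRing W] [Nontrivial D] (i : Z →⋆ₐ[ℂ] D) (j : W →⋆ₐ[ℂ] D)
    (hc : ∀ x y, Commute (i x) (j y)) (n : ℕ) (x : Fin n → Z) (y : Fin n → W)
    (hx : LinearIndependent ℂ x) (h : ∑ k, i (x k) * j (y k) = 0) : ∀ k, y k = 0 := by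
  classical
  intro k
  have h1 := (linearIndependent_iff_notMem_span.mp hx) k
  have h2 : x k ∉ Submodule.span ℂ (((Finset.univ.erase k).image x : Finset Z) : Set Z) := by
    rw [Finset.coe_image, Finset.coe_erase, Finset.coe_univ]
    exact h1
  obtain ⟨T, hT, hs, hTk⟩ := Mu.exists_of_notMem_span _ _ h2
  obtain ⟨T', hT'⟩ := hT.lift i j hc
  have h3 := congrArg T' h
  rw [map_sum, map_zero, Finset.sum_eq_single k] at h3
  · rw [hT', hTk, map_one, one_mul] at h3
    exact hom_injective j (by rw [h3, map_zero])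
  · intro l _ hl
    rw [hT', hs (x l) (Finset.mem_image.mpr ⟨l, Finset.mem_erase.mpr ⟨hl, Finset.mem_univ _⟩, rfl⟩),
      map_zero, zero_mul]
  · intro h4
    exact absurd (Finset.mem_univ k) h4

end Pool.Agent.Lib.EJS
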