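import Pool.Agent.Lib.EJS.CuntzB
import Pool.Agent.Lib.EJS.MC
import Pool.Agent.Lib.EJS.Simp

/-!
# Comparison in a simple algebra with almost unperforation and small traces comparison

PROOF.  Base family `b = ![1, x, a, e']`, `Y = ∑ y_j* x y_j`, `a = cfc (fun t => max (t - 1/4) 0) (1 - Y)`,
`e' = cfc (fun t => max (t - ε) 0) e`; write `n₀[1] + n₁[x] + n₂[a] + n₃[e']` for multiplicities and `≤`
for `MC b`.  `C' := max C 1`.
(1) `[1] ≤ C[x] + [a]`: `1 - Y ≤ a + 1/4` (functional calculus, `t ≤ max (t-1/4) 0 + 1/4`), so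
`1 ≤ (4/3) (Y + a)`; `Cle.mono`, `Cle.smul`, and `Y + a` is `∑` of `y_j* x y_j` and `a` (`Cle.sum_le`,
`Cle.conj`).
(2) `2[a] ≤ [1]`: let `c := cfc (fun t => max (t - 1/8) 0) (1 - Y)`, `0 ≤ c ≤ 1` (`1 - Y ≤ 1`), traces at most `δ`;
`cfc (fun t => max (t - 1/8) 0) c = a`; `TraceSmall` with `N = 3`, `ε = 1/8`: `3M[a] ≤ M[1]`, so `6M[a] ≤ 2M[1]`, so
`(2M+1) * 2 [a] ≤ 2M [1]` (`2(2M+1) ≤ 6M`), `MC.au`.
(3) `[1] ≤ D[x]` for some `D` (depending on `x`): `exists_sum_eq_one'`; `[a] ≤ [1]` (`a ≤ 1`, `Cle.mono`).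
(4) `2^j [a] ≤ C(2^j - 1)[x] + [a]` by induction on `j` from (2), (1):
`2^(j+1)[a] ≤ 2C(2^j-1)[x] + 2[a] ≤ 2C(2^j-1)[x] + C[x] + [a]`.
(5) choose `j ≥ 1` with `D ≤ 2(2^j - 1)`: `2^j[a] ≤ (C(2^j-1) + D)[x] ≤ (2^j - 1)(C+2)[x]`; `MC.au` with
`k = 2^j - 1`: `[a] ≤ (C+2)[x]`.  So `[1] ≤ (2C+2)[x]`.
(6) `TraceSmall` with `N = 4C+4` and `ε` for `e`: `(4C+4)M[e'] ≤ M[1] ≤ M(2C+2)[x]`; so with `k := M(2C+2)`,
`(k+1)[e'] ≤ (4C+4)M[e'] ≤ k[x]`, `MC.au`: `[e'] ≤ [x]`.
`δ` is the minimum of the two numbers of `TraceSmall`.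
-/

open scoped ComplexOrder
open Filter Topology Pool.Agent.Lib.EqGamma

namespace Pool.Agent.Lib.EJS

namespace CoordCompareAux

/-- monotonicity in the multiplicities -/
theorem mc_weaken {A S : Type*} [CStarAlgebra A] [Fintype S] [DecidableEq S] {b : S → A}
    {n m n' m' : S → ℕ} (h : MC b n m) (hn : ∀ i, n' i ≤ n i) (hm : ∀ i, m i ≤ m' i) :
    MC b n' m' :=
  (MC.of_le hn).trans (h.trans (MC.of_le hm))

/-- `1` is below copies of `x`, `a` -/
theorem mc_one {A : Type*} [CStarAlgebra A] {S : Type*} [Fintype S] [DecidableEq S] {b : S → A}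
    {i0 i1 i2 : S} (h12 : i1 ≠ i2) (hb0 : b i0 = 1) {C : ℕ} (y : Fin C → A)
    (h : Cle (fun _ : Unit => (1 : A))
      (fun _ : Unit => ∑ j, star (y j) * b i1 * y j + b i2)) :
    MC b (fun l => if l = i0 then 1 else 0)
      (fun l => if l = i1 then C else if l = i2 then 1 else 0) := by
  classical
  let f : Option (Fin C) → S := fun t => t.elim i2 fun _ => i1
  refine MC.of_sum (T := Option (Fin C)) f ?_ ?_
  · intro j
    rw [Fintype.card_subtype, Finset.card_filter, Fintype.sum_option]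
    simp only [f, Option.elim_none, Option.elim_some]
    by_cases h1 : j = i1
    · subst h1
      simp [Ne.symm h12]
    · by_cases h2 : j = i2
      · subst h2
        simp [h12, h1]
      · simp [h1, h2, Ne.symm h1, Ne.symm h2]
  · have h1 : Cle (fun _ : Unit => ∑ j, star (y j) * b i1 * y j + b i2)
        (fun t : Option (Fin C) => t.elim (b i2) fun j => star (y j) * b i1 * y j) := by
      have h2 := Cle.sum_le (A := A)
        (fun t : Option (Fin C) => t.elim (b i2) fun j => star (y j) * b i1 * y j)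
      rw [Fintype.sum_option] at h2
      simp only [Option.elim_none, Option.elim_some] at h2
      rwa [add_comm] at h2
    have h3 : Cle (fun t : Option (Fin C) => t.elim (b i2) fun j => star (y j) * b i1 * y j)
        (fun t : Option (Fin C) => b (f t)) := by
      refine Cle.of_single fun t ε hε => ?_
      rcases t with _ | j
      · exact ⟨1, by simp [f, hε]⟩
      · exact ⟨y j, by simp [f, hε]⟩
    rw [hb0]
    exact h.trans (h1.trans h3)

/-- vectors of multiplicities -/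
abbrev V (n0 n1 n2 n3 : ℕ) : Fin 4 → ℕ := ![n0, n1, n2, n3]

theorem V_le {a0 a1 a2 a3 b0 b1 b2 b3 : ℕ} (h0 : a0 ≤ b0) (h1 : a1 ≤ b1) (h2 : a2 ≤ b2)
    (h3 : a3 ≤ b3) : ∀ i, V a0 a1 a2 a3 i ≤ V b0 b1 b2 b3 i := by
  intro i
  fin_cases i <;> assumption

theorem V_add (a0 a1 a2 a3 b0 b1 b2 b3 : ℕ) :
    (fun i => V a0 a1 a2 a3 i + V b0 b1 b2 b3 i) = V (a0 + b0) (a1 + b1) (a2 + b2) (a3 + b3) := by
  funext i
  fin_cases i <;> rfl

theorem V_mul (k a0 a1 a2 a3 : ℕ) :
    (fun i => k * V a0 a1 a2 a3 i) = V (k * a0) (k * a1) (k * a2) (k * a3) := by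
  funext i
  fin_cases i <;> rfl

section numeric

variable {A : Type*} [CStarAlgebra A] {b : Fin 4 → A}

theorem mcV_add {a0 a1 a2 a3 b0 b1 b2 b3 c0 c1 c2 c3 d0 d1 d2 d3 : ℕ}
    (h : MC b (V a0 a1 a2 a3) (V b0 b1 b2 b3)) (h' : MC b (V c0 c1 c2 c3) (V d0 d1 d2 d3)) :
    MC b (V (a0 + c0) (a1 + c1) (a2 + c2) (a3 + c3))
      (V (b0 + d0) (b1 + d1) (b2 + d2) (b3 + d3)) := by
  have := h.add h'
  rwa [V_add, V_add] at this

theorem mcV_mul {a0 a1 a2 a3 b0 b1 b2 b3 : ℕ} (k : ℕ)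
    (h : MC b (V a0 a1 a2 a3) (V b0 b1 b2 b3)) :
    MC b (V (k * a0) (k * a1) (k * a2) (k * a3)) (V (k * b0) (k * b1) (k * b2) (k * b3)) := by
  have := h.mul k
  rwa [V_mul, V_mul] at this

theorem mcV_au (hA : AlmostUnperf A) {a0 a1 a2 a3 b0 b1 b2 b3 : ℕ} {k : ℕ} (hk : 0 < k)
    (h : MC b (V ((k + 1) * a0) ((k + 1) * a1) ((k + 1) * a2) ((k + 1) * a3))
      (V (k * b0) (k * b1) (k * b2) (k * b3))) :
    MC b (V a0 a1 a2 a3) (V b0 b1 b2 b3) := by
  rw [← V_mul, ← V_mul] at h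
  exact MC.au hA hk h

theorem mcV_of {a0 a1 a2 a3 b0 b1 b2 b3 : ℕ} (h0 : a0 ≤ b0) (h1 : a1 ≤ b1) (h2 : a2 ≤ b2)
    (h3 : a3 ≤ b3) : MC b (V a0 a1 a2 a3) (V b0 b1 b2 b3) := MC.of_le (V_le h0 h1 h2 h3)

/-- the numerical argument -/
theorem numeric (hA : AlmostUnperf A) {C D M1 M2 : ℕ} (hM1 : 0 < M1) (hM2 : 0 < M2)
    (h1 : MC b (V 1 0 0 0) (V 0 C 1 0)) (h2 : MC b (V 0 0 (3 * M1) 0) (V M1 0 0 0))
    (h3 : MC b (V 1 0 0 0) (V 0 D 0 0)) (h4 : MC b (V 0 0 1 0) (V 1 0 0 0))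
    (h5 : MC b (V 0 0 0 ((4 * C + 4) * M2)) (V M2 0 0 0)) :
    MC b (V 0 0 0 1) (V 0 1 0 0) := by
  -- two copies of `a` are below `1`
  have h6 : MC b (V 0 0 2 0) (V 1 0 0 0) := by
    refine mcV_au hA (k := 2 * M1) (by omega) ?_
    refine MC.trans ?_ ((mcV_mul 2 h2).trans ?_)
    · exact mcV_of (by omega) (by omega) (by nlinarith) (by omega)
    · exact mcV_of (by omega) (by omega) (by omega) (by omega)
  have h7 : ∀ j : ℕ, ∀ q : ℕ, 2 ^ j = q + 1 → MC b (V 0 0 (q + 1) 0) (V 0 (C * q) 1 0) := by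
    intro j
    induction j with
    | zero =>
      intro q hq
      have : q = 0 := by simpa using hq.symm
      subst this
      exact mcV_of (by omega) (by omega) (by omega) (by omega)
    | succ j ih =>
      intro q hq
      obtain ⟨r, hr⟩ : ∃ r, 2 ^ j = r + 1 := ⟨2 ^ j - 1, by have := Nat.two_pow_pos j; omega⟩
      have hqr : q = 2 * r + 1 := by
        rw [pow_succ, hr] at hq
        omega
      subst hqr
      have e1 := mcV_mul 2 (ih r hr)
      have e2 : MC b (V 0 (2 * (C * r)) 2 0) (V 1 (2 * (C * r)) 0 0) := by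
        have := mcV_add (mcV_of (b := b) (a0 := 0) (a1 := 2 * (C * r)) (a2 := 0) (a3 := 0) (b0 := 0)
          (b1 := 2 * (C * r)) (b2 := 0) (b3 := 0) le_rfl le_rfl le_rfl le_rfl) h6
        simpa only [zero_add, add_zero] using this
      have e3 : MC b (V 1 (2 * (C * r)) 0 0) (V 0 (2 * (C * r) + C) 1 0) := by
        have := mcV_add (mcV_of (b := b) (a0 := 0) (a1 := 2 * (C * r)) (a2 := 0) (a3 := 0) (b0 := 0)
          (b1 := 2 * (C * r)) (b2 := 0) (b3 := 0) le_rfl le_rfl le_rfl le_rfl) h1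
        simpa only [zero_add, add_zero] using this
      refine MC.trans ?_ (e1.trans (MC.trans ?_ (e2.trans (e3.trans ?_))))
      · exact mcV_of (by omega) (by omega) (by omega) (by omega)
      · exact mcV_of (by omega) (by omega) (by omega) (by omega)
      · exact mcV_of (by omega) (by nlinarith) (by omega) (by omega)
  have h8 : MC b (V 0 0 1 0) (V 0 (C + 2) 0 0) := by
    obtain ⟨q, hq⟩ : ∃ q, 2 ^ (D + 1) = q + 1 :=
      ⟨2 ^ (D + 1) - 1, by have := Nat.two_pow_pos (D + 1); omega⟩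
    have hDq : D ≤ q := by
      have := Nat.lt_two_pow_self (n := D + 1)
      omega
    have hq0 : 0 < q := by
      have := Nat.lt_two_pow_self (n := D + 1)
      omega
    refine mcV_au hA hq0 ?_
    have e1 := h7 _ _ hq
    have e2 : MC b (V 0 (C * q) 1 0) (V 0 (C * q + D) 0 0) := by
      have := mcV_add (mcV_of (b := b) (a0 := 0) (a1 := C * q) (a2 := 0) (a3 := 0) (b0 := 0)
        (b1 := C * q) (b2 := 0) (b3 := 0) le_rfl le_rfl le_rfl le_rfl) (h4.trans h3)
      simpa only [zero_add, add_zero] using this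
    refine MC.trans ?_ (e1.trans (e2.trans ?_))
    · exact mcV_of (by omega) (by omega) (by omega) (by omega)
    · exact mcV_of (by omega) (by nlinarith) (by omega) (by omega)
  have h9 : MC b (V 1 0 0 0) (V 0 (2 * C + 2) 0 0) := by
    have := mcV_add (mcV_of (b := b) (a0 := 0) (a1 := C) (a2 := 0) (a3 := 0) (b0 := 0)
      (b1 := C) (b2 := 0) (b3 := 0) le_rfl le_rfl le_rfl le_rfl) h8
    simp only [zero_add, add_zero] at this
    exact h1.trans (this.trans (mcV_of (by omega) (by omega) (by omega) (by omega)))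
  refine mcV_au hA (k := M2 * (2 * C + 2)) (by positivity) ?_
  refine MC.trans ?_ (h5.trans (MC.trans ?_ ((mcV_mul M2 h9).trans ?_)))
  · exact mcV_of (by omega) (by omega) (by omega) (by nlinarith)
  · exact mcV_of (by omega) (by omega) (by omega) (by omega)
  · exact mcV_of (by omega) (by omega) (by omega) (by omega)

end numeric

end CoordCompareAux

theorem coord_compare {A : Type*} [CStarAlgebra A] [PartialOrder A] [StarOrderedRing A]
    [IsSimpleRing A] (hA : AlmostUnperf A) (hT : TraceSmall A) (C : ℕ) {ε : ℝ} (hε : 0 < ε) :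
    ∃ δ : ℝ, 0 < δ ∧ ∀ (x e : A) (y : Fin C → A), 0 ≤ x → x ≠ 0 → 0 ≤ e → ‖e‖ ≤ 1 →
      (∀ τ : A →ₗ[ℂ] ℂ, TracialState τ →
        reT τ (cfc (fun t : ℝ => max (t - 1 / 8) 0) (1 - ∑ j, star (y j) * x * y j)) ≤ δ) →
      (∀ τ : A →ₗ[ℂ] ℂ, TracialState τ → reT τ e ≤ δ) →
      Cle (fun _ : Unit => cfc (fun t : ℝ => max (t - ε) 0) e) (fun _ : Unit => x) := by
  classical
  obtain ⟨δ1, hδ1, H1⟩ := hT 3 (1 / 8) (by norm_num)
  obtain ⟨δ2, hδ2, H2⟩ := hT (4 * C + 4) ε hε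
  refine ⟨min δ1 δ2, lt_min hδ1 hδ2, fun x e y hx hx0 he he1 htr1 htr2 => ?_⟩
  set Y : A := ∑ j, star (y j) * x * y j with hY
  have hY0 : 0 ≤ Y := Finset.sum_nonneg fun j _ => star_left_conjugate_nonneg hx (y j)
  have hYsa : IsSelfAdjoint (1 - Y) := (IsSelfAdjoint.one A).sub (IsSelfAdjoint.of_nonneg hY0)
  have hspec : ∀ t ∈ spectrum ℝ (1 - Y), t ≤ 1 := by
    have h1 : 1 - Y ≤ algebraMap ℝ A 1 := by
      rw [map_one]
      exact sub_le_self 1 hY0
    exact (le_algebraMap_iff_spectrum_le (ha := hYsa)).1 h1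
  set c : A := cfc (fun t : ℝ => max (t - 1 / 8) 0) (1 - Y) with hc
  set a : A := cfc (fun t : ℝ => max (t - 1 / 4) 0) (1 - Y) with ha
  have hc0 : 0 ≤ c := cfc_nonneg fun t _ => le_max_right _ _
  have ha0 : 0 ≤ a := cfc_nonneg fun t _ => le_max_right _ _
  have hc1 : ‖c‖ ≤ 1 := by
    refine norm_cfc_le zero_le_one fun t ht => ?_
    rw [Real.norm_of_nonneg (le_max_right _ _)]
    exact max_le (by linarith [hspec t ht]) zero_le_one
  have ha1 : a ≤ 1 := by
    refine cfc_le_one _ _ fun t ht => ?_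
    exact max_le (by linarith [hspec t ht]) zero_le_one
  have hca : cfc (fun t : ℝ => max (t - 1 / 8) 0) c = a := by
    rw [hc, ha, ← cfc_comp' (fun t : ℝ => max (t - 1 / 8) 0) (fun t : ℝ => max (t - 1 / 8) 0)
      (1 - Y) (by fun_prop) (by fun_prop) hYsa]
    refine cfc_congr fun t _ => ?_
    show max (max (t - 1 / 8) 0 - 1 / 8) 0 = max (t - 1 / 4) 0
    rcases le_total t (1 / 8) with h | h
    · rw [max_eq_right (show t - 1 / 8 ≤ 0 by linarith),
        max_eq_right (show t - 1 / 4 ≤ 0 by linarith), max_eq_right (by norm_num)]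
    · rw [max_eq_left (show 0 ≤ t - 1 / 8 by linarith)]
      congr 1
      ring
  set e' : A := cfc (fun t : ℝ => max (t - ε) 0) e with he'
  let b : Fin 4 → A := ![1, x, a, e']
  -- (1)
  have s1 : MC b (CoordCompareAux.V 1 0 0 0) (CoordCompareAux.V 0 C 1 0) := by
    have h1 : 1 - Y ≤ a + algebraMap ℝ A (1 / 4) := by
      rw [ha, ← cfc_add_const (1 / 4) (fun t : ℝ => max (t - 1 / 4) 0) (1 - Y) (by fun_prop) hYsa]
      conv_lhs => rw [← cfc_id' ℝ (1 - Y) hYsa]
      refine cfc_mono (fun t _ => ?_) (by fun_prop) (by fun_prop)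
      linarith [le_max_left (t - 1 / 4) 0]
    have h2 : (1 : A) ≤ (4 / 3 : ℝ) • (Y + a) := by
      have h3 : (3 / 4 : ℝ) • (1 : A) ≤ Y + a := by
        rw [Algebra.algebraMap_eq_smul_one] at h1
        have h4 := add_le_add_left h1 (Y - (1 / 4 : ℝ) • (1 : A))
        have h5 : Y - (1 / 4 : ℝ) • (1 : A) + (1 - Y) = (3 / 4 : ℝ) • (1 : A) := by
          have : (1 : A) = (3 / 4 : ℝ) • (1 : A) + (1 / 4 : ℝ) • (1 : A) := by
            rw [← add_smul]
            norm_num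
          nth_rw 2 [this]
          abel
        have h6 : Y - (1 / 4 : ℝ) • (1 : A) + (a + (1 / 4 : ℝ) • (1 : A)) = Y + a := by abel
        first
          | rwa [h5, h6] at h4
          | (rw [add_comm (1 - Y), add_comm (a + _), h5, h6] at h4; exact h4)
      have h4 := smul_le_smul_of_nonneg_left h3 (show (0:ℝ) ≤ 4 / 3 by norm_num)
      rwa [smul_smul, show (4 / 3 * (3 / 4) : ℝ) = 1 by norm_num, one_smul] at h4
    have h3 : Cle (fun _ : Unit => (1 : A)) (fun _ : Unit => (4 / 3 : ℝ) • (Y + a)) :=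
      Cle.mono (fun _ => zero_le_one) fun _ => h2
    have h4 : Cle (fun _ : Unit => (4 / 3 : ℝ) • (Y + a)) (fun _ : Unit => Y + a) :=
      Cle.smul (t := 4 / 3) (by norm_num) fun _ => rfl
    have h5 := CoordCompareAux.mc_one (b := b) (i0 := 0) (i1 := 1) (i2 := 2) (by decide) rfl y
      (h3.trans h4)
    exact CoordCompareAux.mc_weaken h5 (by intro i; fin_cases i <;> simp)
      (by intro i; fin_cases i <;> simp)
  -- (2)
  obtain ⟨M1, hM1, K1⟩ := H1 c hc0 hc1 fun τ hτ => (htr1 τ hτ).trans (min_le_left _ _)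
  rw [hca] at K1
  have s2 : MC b (CoordCompareAux.V 0 0 (3 * M1) 0) (CoordCompareAux.V M1 0 0 0) :=
    CoordCompareAux.mc_weaken (MC.of_cle_const (b := b) (i := 2) (j := 0) K1)
      (by intro i; fin_cases i <;> simp) (by intro i; fin_cases i <;> simp)
  -- (3)
  obtain ⟨D, z, hz⟩ := exists_sum_eq_one' x hx hx0
  have s3 : MC b (CoordCompareAux.V 1 0 0 0) (CoordCompareAux.V 0 D 0 0) := by
    have h1 : Cle (fun _ : Unit => b 0) (fun _ : Fin D => b 1) := by
      have h2 := Cle.sum_le (fun j => star (z j) * x * z j)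
      rw [hz] at h2
      refine h2.trans (Cle.of_single fun j ε hε => ⟨z j, ?_⟩)
      simp [b, hε]
    have h2 := MC.of_sum (b := b) (i := 0) (T := Fin D) (fun _ => 1)
      (n := fun l => if l = 1 then D else 0) (by
        intro j
        by_cases h : j = 1
        · subst h; simp
        · simp [h, Ne.symm h]) h1
    exact CoordCompareAux.mc_weaken h2
      (by intro i; fin_cases i <;> simp) (by intro i; fin_cases i <;> simp)
  have s4 : MC b (CoordCompareAux.V 0 0 1 0) (CoordCompareAux.V 1 0 0 0) := by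
    have h1 : Cle (fun _ : Fin 1 => b 2) (fun _ : Fin 1 => b 0) :=
      Cle.mono (fun _ => ha0) fun _ => ha1
    exact CoordCompareAux.mc_weaken (MC.of_cle_const h1)
      (by intro i; fin_cases i <;> simp) (by intro i; fin_cases i <;> simp)
  -- (6)
  obtain ⟨M2, hM2, K2⟩ := H2 e he he1 fun τ hτ => (htr2 τ hτ).trans (min_le_right _ _)
  have s5 : MC b (CoordCompareAux.V 0 0 0 ((4 * C + 4) * M2)) (CoordCompareAux.V M2 0 0 0) :=
    CoordCompareAux.mc_weaken (MC.of_cle_const (b := b) (i := 3) (j := 0) K2)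
      (by intro i; fin_cases i <;> simp) (by intro i; fin_cases i <;> simp)
  have s6 := CoordCompareAux.numeric hA hM1 hM2 s1 s2 s3 s4 s5
  exact MC.cle_of_single (b := b) (i := 3) (j := 1) (CoordCompareAux.mc_weaken s6
      (by intro i; fin_cases i <;> simp) (by intro i; fin_cases i <;> simp))

end Pool.Agent.Lib.EJS
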