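import Pool.Agent.Lib.EJS.Cuntz
import Pool.Agent.Lib.EqGamma.GLim

/-!
# More on Cuntz comparison of diagonal families

PROOFS.
`reindex`: `comp_equiv`, `equiv_comp`, `trans`.  `conj`: `R = z`.  `sum_le`: `R k i = 1`.  `smul`: `R` diagonal
with entries `√t`.  `sumElim`: block diagonal matrices.  `limit`: replace `x` by `x'` with error `ε / 2`.
-/

open scoped ComplexOrder
open Filter Topology Pool.Agent.Lib.EqGamma

namespace Pool.Agent.Lib.EJS

/-- small traces imply comparison with the unit: `N M` copies of `(a - ε)₊` are below `M` copies of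
`1`, for some `M > 0` -/
def TraceSmall (A : Type*) [CStarAlgebra A] [PartialOrder A] [StarOrderedRing A] : Prop :=
  ∀ (N : ℕ) (ε : ℝ), 0 < ε → ∃ δ : ℝ, 0 < δ ∧ ∀ a : A, 0 ≤ a → ‖a‖ ≤ 1 →
    (∀ τ : A →ₗ[ℂ] ℂ, TracialState τ → reT τ a ≤ δ) → ∃ M : ℕ, 0 < M ∧
      Cle (fun _ : Fin (N * M) => cfc (fun t : ℝ => max (t - ε) 0) a) (fun _ : Fin M => (1 : A))

namespace Cle

variable {A : Type*} [CStarAlgebra A] {ι κ ι' κ' : Type*} [DecidableEq ι] [Fintype ι]
  [DecidableEq κ] [Fintype κ] [DecidableEq ι'] [Fintype ι'] [DecidableEq κ'] [Fintype κ']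

theorem of_inj {x : ι → A} {y : κ → A} (f : ι → κ) (hf : Function.Injective f)
    (h : ∀ i, x i = y (f i)) : Cle x y := by
  have := of_injective hf y
  rwa [show (fun i => y (f i)) = x from funext fun i => (h i).symm] at this

theorem reindex {x : ι → A} {y : κ → A} (h : Cle x y) (f : ι' ≃ ι) (g : κ' ≃ κ) :
    Cle (fun i => x (f i)) (fun k => y (g k)) :=
  ((comp_equiv f x).trans h).trans (equiv_comp g y)

theorem conj (x z : A) : Cle (fun _ : Unit => star z * x * z) (fun _ : Unit => x) := by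
  refine of_single fun i ε hε => ⟨z, ?_⟩
  rw [sub_self, norm_zero]
  exact hε

theorem sum_le (y : κ → A) : Cle (fun _ : Unit => ∑ k, y k) y := by
  intro ε hε
  refine ⟨fun _ _ => 1, fun i i' => ?_⟩
  have h1 : ∑ k, star (1 : A) * y k * 1 = ∑ k, y k :=
    Finset.sum_congr rfl fun k _ => by rw [star_one, one_mul, mul_one]
  rw [h1, if_pos (Subsingleton.elim _ _), sub_self, norm_zero]
  exact hε

theorem smul {x y : ι → A} {t : ℝ} (ht : 0 < t) (h : ∀ i, x i = t • y i) : Cle x y := by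
  refine of_single fun i ε hε => ⟨(√t : ℝ) • (1 : A), ?_⟩
  have h1 : star ((√t : ℝ) • (1 : A)) * y i * ((√t : ℝ) • (1 : A)) = x i := by
    rw [star_smul, star_one, star_trivial, smul_one_mul, mul_smul_one, smul_smul,
      Real.mul_self_sqrt ht.le, h i]
  rw [h1, sub_self, norm_zero]
  exact hε

theorem sumElim {x : ι → A} {y : κ → A} {x' : ι' → A} {y' : κ' → A} (h : Cle x y)
    (h' : Cle x' y') : Cle (Sum.elim x x') (Sum.elim y y') := by
  intro ε hε
  obtain ⟨R, hR⟩ := h ε hε
  obtain ⟨S, hS⟩ := h' ε hε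
  refine ⟨fun k i => Sum.elim (fun k => Sum.elim (fun i => R k i) (fun _ => 0) i)
    (fun k => Sum.elim (fun _ => 0) (fun i => S k i) i) k, fun i i' => ?_⟩
  rw [Fintype.sum_sum_type]
  rcases i with i | i <;> rcases i' with i' | i'
  · have := hR i i'
    simpa using this
  · simpa using hε
  · simpa using hε
  · have := hS i i'
    simpa using this

theorem prod {x : ι → A} {y : κ → A} (h : Cle x y) (m : ℕ) :
    Cle (fun p : ι × Fin m => x p.1) (fun p : κ × Fin m => y p.1) := by
  have h1 := copies (σ := Fin m) h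
  exact h1.reindex (Equiv.prodComm ι (Fin m)) (Equiv.prodComm κ (Fin m))

theorem mono [PartialOrder A] [StarOrderedRing A] {x y : ι → A} (h0 : ∀ i, 0 ≤ x i)
    (h : ∀ i, x i ≤ y i) : Cle x y := of_le h0 h

end Cle

end Pool.Agent.Lib.EJS
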