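import Mathlib

/-!
# Definitions used in the final statement

Completely positive maps, nuclearity, C-star tensor products, prime dimension drop algebras, the
Jiang-Su algebra, cocycle conjugacy and equivariant Jiang-Su stability.
-/

open scoped ComplexOrder
open Filter Topology

namespace Pool.Agent.Lib.EJS

universe u v

/-- the matrix algebra `M_d(ℂ)` with its C-star norm -/
abbrev Mat (d : ℕ) : Type := CStarMatrix (Fin d) (Fin d) ℂ

/-- Completely positive maps: `∑ i, ∑ j, b_i^* φ(a_i^* a_j) b_j` is positive for all finite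
families `a_i` in `A` and `b_i` in `B`. -/
def CP {A B : Type*} [CStarAlgebra A] [CStarAlgebra B] (φ : A →ₗ[ℂ] B) : Prop :=
  ∀ (n : ℕ) (a : Fin n → A) (b : Fin n → B),
    ∃ c : B, ∑ i, ∑ j, star (b i) * φ (star (a i) * a j) * b j = star c * c

/-- Nuclear: the completely positive approximation property.  On every finite set the identity is
approximated in norm by compositions `A → M_d(ℂ) → A` of completely positive contractions. -/
def IsNuclear (A : Type*) [CStarAlgebra A] : Prop :=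
  ∀ (F : Finset A) (ε : ℝ), 0 < ε → ∃ (d : ℕ) (φ : A →ₗ[ℂ] Mat d) (ψ : Mat d →ₗ[ℂ] A),
    CP φ ∧ CP ψ ∧ (∀ a, ‖φ a‖ ≤ ‖a‖) ∧ (∀ m, ‖ψ m‖ ≤ ‖m‖) ∧ ∀ a ∈ F, ‖ψ (φ a) - a‖ < ε

/-- `C` with the unital homomorphisms `i`, `j` is a C-star tensor product of `A` and `B`: the images
commute, the algebraic tensor product of `A` and `B` embeds into `C`, and its image is dense. -/
structure IsTensor {A B C : Type*} [CStarAlgebra A] [CStarAlgebra B] [CStarAlgebra C]
    (i : A →⋆ₐ[ℂ] C) (j : B →⋆ₐ[ℂ] C) : Prop where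
  comm : ∀ a b, Commute (i a) (j b)
  inj : ∀ (n : ℕ) (a : Fin n → A) (b : Fin n → B), LinearIndependent ℂ a →
    ∑ k, i (a k) * j (b k) = 0 → ∀ k, b k = 0
  dense : Dense (Submodule.span ℂ {x : C | ∃ a b, x = i a * j b} : Set C)

/-- the C-star algebra of continuous functions `[0,1] → M_p(ℂ) ⊗ M_q(ℂ)` -/
def MFun (p q : ℕ) : Type := C(unitInterval, CStarMatrix (Fin p × Fin q) (Fin p × Fin q) ℂ)

noncomputable instance (p q : ℕ) : CStarAlgebra (MFun p q) :=
  inferInstanceAs (CStarAlgebra C(unitInterval, CStarMatrix (Fin p × Fin q) (Fin p × Fin q) ℂ))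

/-- the value of a function at `t` -/
noncomputable def MFun.ev {p q : ℕ} (t : unitInterval) :
    MFun p q →⋆ₐ[ℂ] CStarMatrix (Fin p × Fin q) (Fin p × Fin q) ℂ where
  toFun f := (show C(unitInterval, CStarMatrix (Fin p × Fin q) (Fin p × Fin q) ℂ) from f) t
  map_one' := rfl
  map_mul' _ _ := rfl
  map_zero' := rfl
  map_add' _ _ := rfl
  commutes' _ := rfl
  map_star' _ := rfl

/-- The dimension drop algebra of all continuous `f : [0,1] → M_p(ℂ) ⊗ M_q(ℂ)` with
`f 0 ∈ M_p(ℂ) ⊗ 1` and `f 1 ∈ 1 ⊗ M_q(ℂ)`. -/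
noncomputable def DimDrop (p q : ℕ) : StarSubalgebra ℂ (MFun p q) where
  carrier := {f | (∃ x : Fin p → Fin p → ℂ,
      ∀ a b, MFun.ev 0 f a b = if a.2 = b.2 then x a.1 b.1 else 0) ∧
    ∃ y : Fin q → Fin q → ℂ, ∀ a b, MFun.ev 1 f a b = if a.1 = b.1 then y a.2 b.2 else 0}
  mul_mem' := by
    rintro f g ⟨⟨x, hx⟩, ⟨y, hy⟩⟩ ⟨⟨x', hx'⟩, ⟨y', hy'⟩⟩
    refine ⟨⟨fun a b => ∑ c, x a c * x' c b, fun a b => ?_⟩,
      ⟨fun a b => ∑ c, y a c * y' c b, fun a b => ?_⟩⟩
    · rw [map_mul, CStarMatrix.mul_apply, Fintype.sum_prod_type]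
      simp only [hx, hx']
      split_ifs with h
      · refine Finset.sum_congr rfl fun c _ => ?_
        rw [Finset.sum_eq_single a.2]
        · simp [h]
        · intro d _ hd
          simp [Ne.symm hd]
        · intro hd; exact absurd (Finset.mem_univ _) hd
      · refine Finset.sum_eq_zero fun c _ => Finset.sum_eq_zero fun d _ => ?_
        by_cases h1 : a.2 = d
        · subst h1
          simp [h]
        · simp [h1]
    · rw [map_mul, CStarMatrix.mul_apply, Fintype.sum_prod_type_right]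
      simp only [hy, hy']
      split_ifs with h
      · refine Finset.sum_congr rfl fun c _ => ?_
        rw [Finset.sum_eq_single a.1]
        · simp [h]
        · intro d _ hd
          simp [Ne.symm hd]
        · intro hd; exact absurd (Finset.mem_univ _) hd
      · refine Finset.sum_eq_zero fun c _ => Finset.sum_eq_zero fun d _ => ?_
        by_cases h1 : a.1 = d
        · subst h1
          simp [h]
        · simp [h1]
  add_mem' := by
    rintro f g ⟨⟨x, hx⟩, ⟨y, hy⟩⟩ ⟨⟨x', hx'⟩, ⟨y', hy'⟩⟩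
    refine ⟨⟨fun a b => x a b + x' a b, fun a b => ?_⟩, ⟨fun a b => y a b + y' a b, fun a b => ?_⟩⟩
    · rw [map_add, CStarMatrix.add_apply, hx, hx']
      split_ifs <;> simp
    · rw [map_add, CStarMatrix.add_apply, hy, hy']
      split_ifs <;> simp
  algebraMap_mem' := by
    intro r
    refine ⟨⟨fun a b => if a = b then r else 0, fun a b => ?_⟩,
      ⟨fun a b => if a = b then r else 0, fun a b => ?_⟩⟩
    · rw [AlgHomClass.commutes, CStarMatrix.algebraMap_apply]
      by_cases h1 : a.2 = b.2 <;> by_cases h2 : a.1 = b.1 <;> simp [h1, h2, Prod.ext_iff]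
    · rw [AlgHomClass.commutes, CStarMatrix.algebraMap_apply]
      by_cases h1 : a.2 = b.2 <;> by_cases h2 : a.1 = b.1 <;> simp [h1, h2, Prod.ext_iff]
  star_mem' := by
    rintro f ⟨⟨x, hx⟩, ⟨y, hy⟩⟩
    refine ⟨⟨fun a b => star (x b a), fun a b => ?_⟩, ⟨fun a b => star (y b a), fun a b => ?_⟩⟩
    · rw [map_star, CStarMatrix.star_apply, hx]
      by_cases h : a.2 = b.2
      · simp [h]
      · simp [h, Ne.symm h]
    · rw [map_star, CStarMatrix.star_apply, hy]
      by_cases h : a.1 = b.1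
      · simp [h]
      · simp [h, Ne.symm h]

/-- The defining properties of the Jiang-Su algebra which are used: `Z` is separable, unital, simple,
strongly self-absorbing (in the form of Toms and Winter: the two embeddings of `Z` into `Z ⊗ Z` are
approximately unitarily equivalent, and there are approximately central unital endomorphisms of
`Z`), and the closure of an increasing union of copies of prime dimension drop algebras
`Z_{p,q}` with `p, q → ∞`. -/
structure IsJiangSu (Z : Type u) [CStarAlgebra Z] : Prop where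
  separable : TopologicalSpace.SeparableSpace Z
  simple : IsSimpleRing Z
  half_flip : ∀ (C : Type u) [CStarAlgebra C] (i j : Z →⋆ₐ[ℂ] C), IsTensor i j →
    ∀ (F : Finset Z) (ε : ℝ), 0 < ε → ∃ w ∈ unitary C, ∀ z ∈ F, ‖w * i z * star w - j z‖ < ε
  central : ∀ (F : Finset Z) (ε : ℝ), 0 < ε →
    ∃ ρ : Z →⋆ₐ[ℂ] Z, ∀ x ∈ F, ∀ y ∈ F, ‖ρ x * y - y * ρ x‖ < ε
  limit : ∃ (p q : ℕ → ℕ) (κ : ∀ n, DimDrop (p n) (q n) →⋆ₐ[ℂ] Z),
    (∀ n, Nat.Coprime (p n) (q n)) ∧ Tendsto p atTop atTop ∧ Tendsto q atTop atTop ∧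
    (∀ n, Function.Injective (κ n)) ∧ (∀ n, Set.range (κ n) ⊆ Set.range (κ (n + 1))) ∧
    Dense (⋃ n, Set.range (κ n))

/-- `A` is `Z`-stable: `A ≅ A ⊗ Z` -/
def ZStable (Z A : Type u) [CStarAlgebra Z] [CStarAlgebra A] : Prop :=
  ∃ (C : Type u) (_ : CStarAlgebra C) (i : A →⋆ₐ[ℂ] C) (j : Z →⋆ₐ[ℂ] C),
    IsTensor i j ∧ Nonempty (A ≃⋆ₐ[ℂ] C)

/-- cocycle conjugacy of two actions on unital C-star algebras -/
def CocycleConj {G : Type*} [Group G] {A B : Type*} [CStarAlgebra A] [CStarAlgebra B]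
    (α : G →* (A ≃⋆ₐ[ℂ] A)) (β : G →* (B ≃⋆ₐ[ℂ] B)) : Prop :=
  ∃ (σ : A ≃⋆ₐ[ℂ] B) (w : G → B), (∀ g, w g ∈ unitary B) ∧
    (∀ g h, w (g * h) = w g * β g (w h)) ∧ ∀ g a, σ (α g a) = w g * β g (σ a) * star (w g)

/-- `C` with `i : A → C` and `j : Z → C` is a tensor product of `A` and `Z`, and `β` is the action
`α ⊗ id` on it. -/
structure IsTensorAction {G : Type*} [Group G] {A Z C : Type*} [CStarAlgebra A]
    [CStarAlgebra Z] [CStarAlgebra C] (α : G →* (A ≃⋆ₐ[ℂ] A)) (i : A →⋆ₐ[ℂ] C) (j : Z →⋆ₐ[ℂ] C)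
    (β : G →* (C ≃⋆ₐ[ℂ] C)) : Prop where
  tensor : IsTensor i j
  left : ∀ g a, β g (i a) = i (α g a)
  right : ∀ g z, β g (j z) = j z

/-- `α` is equivariantly `Z`-stable: `α` is cocycle conjugate to `α ⊗ id` on `A ⊗ Z`.  (The action
`α ⊗ id` exists on some C-star tensor product of `A` and `Z`, and `α` is cocycle conjugate to it on
every C-star tensor product of `A` and `Z` on which it exists.) -/
def EquivZStable {G : Type*} [Group G] (Z : Type u) {A : Type u} [CStarAlgebra Z]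
    [CStarAlgebra A] (α : G →* (A ≃⋆ₐ[ℂ] A)) : Prop :=
  (∃ (C : Type u) (_ : CStarAlgebra C) (i : A →⋆ₐ[ℂ] C) (j : Z →⋆ₐ[ℂ] C)
    (β : G →* (C ≃⋆ₐ[ℂ] C)), IsTensorAction α i j β) ∧
  ∀ (C : Type u) [CStarAlgebra C] (i : A →⋆ₐ[ℂ] C) (j : Z →⋆ₐ[ℂ] C)
    (β : G →* (C ≃⋆ₐ[ℂ] C)), IsTensorAction α i j β → CocycleConj α β

end Pool.Agent.Lib.EJS
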