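import Pool.Agent.Lib.EJS.Defs

/-!
# The dimension drop algebras are C-star algebras
-/

open scoped ComplexOrder
open Filter Topology

namespace Pool.Agent.Lib.EJS

theorem isClosed_dimDrop (p q : ℕ) :
    IsClosed (DimDrop p q : Set (MFun p q)) := by
  classical
  have h : (DimDrop p q : Set (MFun p q)) =
    {f | (∀ a b, a.2 ≠ b.2 → MFun.ev 0 f a b = 0) ∧
      (∀ a b, ∀ d : Fin q, a.2 = b.2 → MFun.ev 0 f a b = MFun.ev 0 f (a.1, d) (b.1, d)) ∧
      (∀ a b, a.1 ≠ b.1 → MFun.ev 1 f a b = 0) ∧
      (∀ a b, ∀ d : Fin p, a.1 = b.1 → MFun.ev 1 f a b = MFun.ev 1 f (d, a.2) (d, b.2))} := by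
    ext f
    constructor
    · rintro ⟨⟨x, hx⟩, ⟨y, hy⟩⟩
      refine ⟨fun a b h => by rw [hx, if_neg h], fun a b d h => by rw [hx, hx, if_pos h, if_pos rfl],
        fun a b h => by rw [hy, if_neg h], fun a b d h => by rw [hy, hy, if_pos h, if_pos rfl]⟩
    · rintro ⟨h1, h2, h3, h4⟩
      refine ⟨⟨fun i j => if h : Nonempty (Fin q) then MFun.ev 0 f (i, h.some) (j, h.some) else 0,
        fun a b => ?_⟩, ⟨fun i j => if h : Nonempty (Fin p) then MFun.ev 1 f (h.some, i) (h.some, j) else 0,
        fun a b => ?_⟩⟩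
      · split_ifs with h5 h6
        · exact h2 a b _ h5
        · exact absurd ⟨a.2⟩ h6
        · exact h1 a b h5
      · split_ifs with h5 h6
        · exact h4 a b _ h5
        · exact absurd ⟨a.1⟩ h6
        · exact h3 a b h5
  rw [h]
  have hc : ∀ (t : unitInterval) (a b),
    Continuous fun f : MFun p q => MFun.ev t f a b := by
    intro t a b
    have h1 : Continuous fun f : MFun p q => MFun.ev t f := by
      change Continuous fun f : C(unitInterval, CStarMatrix (Fin p × Fin q) (Fin p × Fin q) ℂ) => f t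
      fun_prop
    exact (continuous_apply b).comp ((continuous_apply a).comp h1)
  simp only [Set.ofPred_and, Set.ofPred_forall]
  refine IsClosed.inter ?_ (IsClosed.inter ?_ (IsClosed.inter ?_ ?_))
  · exact isClosed_iInter fun a => isClosed_iInter fun b => isClosed_iInter fun _ =>
      isClosed_eq (hc _ _ _) continuous_const
  · exact isClosed_iInter fun a => isClosed_iInter fun b => isClosed_iInter fun d =>
      isClosed_iInter fun _ => isClosed_eq (hc _ _ _) (hc _ _ _)
  · exact isClosed_iInter fun a => isClosed_iInter fun b => isClosed_iInter fun _ =>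
      isClosed_eq (hc _ _ _) continuous_const
  · exact isClosed_iInter fun a => isClosed_iInter fun b => isClosed_iInter fun d =>
      isClosed_iInter fun _ => isClosed_eq (hc _ _ _) (hc _ _ _)

instance (p q : ℕ) :
    IsClosed (DimDrop p q : Set (MFun p q)) :=
  isClosed_dimDrop p q


end Pool.Agent.Lib.EJS
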