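import Mathlib

/-!
# Permutation matrices are connected to `1` in the unitary group

PROOF.  Induction over products of transpositions (`Equiv.Perm.swap_induction_on`).  The identity
has the constant path.  For a transposition with matrix `P` (self-adjoint, `P * P = 1`) use
`(1 + exp(iπt))/2 • 1 + (1 - exp(iπt))/2 • P`; products of paths are paths, and the permutation matrix of
a product is the product of the permutation matrices.
-/

open scoped ComplexOrder
open Filter Topology

namespace Pool.Agent.Lib.EJS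

namespace DimPathAux

/-- `exp(iπt)` -/
noncomputable def ez (t : unitInterval) : ℂ := Complex.exp ((Real.pi * (t : ℝ) : ℝ) * Complex.I)

theorem ez_star (t : unitInterval) : ez t * star (ez t) = 1 := by
  unfold ez
  rw [Complex.star_def, ← Complex.exp_conj, ← Complex.exp_add, map_mul, Complex.conj_ofReal,
    Complex.conj_I, mul_neg, add_neg_cancel, Complex.exp_zero]

theorem ez_zero : ez 0 = 1 := by
  unfold ez
  simp

theorem ez_one : ez 1 = -1 := by
  unfold ez
  simp

theorem ez_cont : Continuous ez := by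
  unfold ez
  fun_prop

variable {T : Type} [Fintype T] [DecidableEq T]

theorem path_mul {P : CStarMatrix T T ℂ} (hP : P * P = 1) (hs : star P = P) {z : ℂ}
    (hz : z * star z = 1) :
    (((1 + z) / 2) • (1 : CStarMatrix T T ℂ) + ((1 - z) / 2) • P) *
      star (((1 + z) / 2) • (1 : CStarMatrix T T ℂ) + ((1 - z) / 2) • P) = 1 := by
  rw [star_add, star_smul, star_smul, star_one, hs]
  simp only [add_mul, mul_add, smul_mul_smul_comm, one_mul, mul_one, hP]
  have h2 : star (2 : ℂ) = 2 := by simp
  have e1 : (1 + z) / 2 * star ((1 + z) / 2) + (1 - z) / 2 * star ((1 - z) / 2) = 1 := by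
    rw [star_div₀, star_div₀, star_add, star_sub, star_one, h2]
    linear_combination (1 / 2) * hz
  have e2 : (1 + z) / 2 * star ((1 - z) / 2) + (1 - z) / 2 * star ((1 + z) / 2) = 0 := by
    rw [star_div₀, star_div₀, star_add, star_sub, star_one, h2]
    linear_combination (-1 / 2) * hz
  calc ((1 + z) / 2 * star ((1 + z) / 2)) • (1 : CStarMatrix T T ℂ) +
        ((1 - z) / 2 * star ((1 + z) / 2)) • P +
        (((1 + z) / 2 * star ((1 - z) / 2)) • P + ((1 - z) / 2 * star ((1 - z) / 2)) •
          (1 : CStarMatrix T T ℂ))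
      = ((1 + z) / 2 * star ((1 + z) / 2) + (1 - z) / 2 * star ((1 - z) / 2)) •
          (1 : CStarMatrix T T ℂ) + ((1 + z) / 2 * star ((1 - z) / 2) +
          (1 - z) / 2 * star ((1 + z) / 2)) • P := by
        rw [add_smul, add_smul]
        abel
    _ = 1 := by rw [e1, e2, one_smul, zero_smul, add_zero]

theorem path_star {P : CStarMatrix T T ℂ} (hs : star P = P) (z : ℂ) :
    star (((1 + z) / 2) • (1 : CStarMatrix T T ℂ) + ((1 - z) / 2) • P) =
      ((1 + star z) / 2) • (1 : CStarMatrix T T ℂ) + ((1 - star z) / 2) • P := by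
  have h2 : star (2 : ℂ) = 2 := by simp
  rw [star_add, star_smul, star_smul, star_one, hs, star_div₀, star_div₀, star_add, star_sub,
    star_one, h2]

theorem inv_path (P : CStarMatrix T T ℂ) (hP : P * P = 1) (hs : star P = P) :
    ∃ V : C(unitInterval, CStarMatrix T T ℂ), (∀ t, V t * star (V t) = 1) ∧
      (∀ t, star (V t) * V t = 1) ∧ V 0 = 1 ∧ V 1 = P := by
  refine ⟨⟨fun t => ((1 + ez t) / 2) • (1 : CStarMatrix T T ℂ) + ((1 - ez t) / 2) • P, ?_⟩,
    fun t => ?_, fun t => ?_, ?_, ?_⟩
  · have := ez_cont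
    fun_prop
  · exact path_mul hP hs (ez_star t)
  · have h1 := path_mul hP hs (z := star (ez t)) (by rw [star_star, mul_comm]; exact ez_star t)
    rw [path_star hs (star (ez t)), star_star] at h1
    change star (((1 + ez t) / 2) • (1 : CStarMatrix T T ℂ) + ((1 - ez t) / 2) • P) *
      (((1 + ez t) / 2) • (1 : CStarMatrix T T ℂ) + ((1 - ez t) / 2) • P) = 1
    rw [path_star hs (ez t)]
    exact h1
  · change ((1 + ez 0) / 2) • (1 : CStarMatrix T T ℂ) + ((1 - ez 0) / 2) • P = 1
    rw [ez_zero]
    norm_num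
  · change ((1 + ez 1) / 2) • (1 : CStarMatrix T T ℂ) + ((1 - ez 1) / 2) • P = P
    rw [ez_one]
    norm_num

/-- the matrix of a permutation -/
def pmat (σ : Equiv.Perm T) : CStarMatrix T T ℂ := fun i j => if i = σ j then 1 else 0

theorem pmat_apply (σ : Equiv.Perm T) (i j : T) : pmat σ i j = if i = σ j then 1 else 0 := rfl

theorem pmat_mul (σ τ : Equiv.Perm T) : pmat σ * pmat τ = pmat (σ * τ) := by
  ext i j
  rw [CStarMatrix.mul_apply, Finset.sum_eq_single (τ j)]
  · simp [pmat_apply]
  · intro k _ hk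
    rw [pmat_apply τ, if_neg hk, mul_zero]
  · intro h
    exact absurd (Finset.mem_univ _) h

theorem pmat_one : pmat (1 : Equiv.Perm T) = 1 := by
  ext i j
  rw [pmat_apply, CStarMatrix.one_apply]
  rfl

theorem pmat_star (σ : Equiv.Perm T) : star (pmat σ) = pmat σ⁻¹ := by
  ext i j
  rw [CStarMatrix.star_apply, pmat_apply, pmat_apply]
  by_cases h : j = σ i
  · rw [if_pos h, if_pos (by rw [h]; simp)]
    simp
  · rw [if_neg h, if_neg (fun h' => h (by rw [h']; simp))]
    simp

end DimPathAux

open DimPathAux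

theorem exists_perm_path {T : Type} [Fintype T] [DecidableEq T] (σ : Equiv.Perm T) :
    ∃ W : C(unitInterval, CStarMatrix T T ℂ), (∀ t, W t * star (W t) = 1) ∧
      (∀ t, star (W t) * W t = 1) ∧ W 0 = 1 ∧ ∀ i j, W 1 i j = if i = σ j then 1 else 0 := by
  suffices h : ∃ W : C(unitInterval, CStarMatrix T T ℂ), (∀ t, W t * star (W t) = 1) ∧
      (∀ t, star (W t) * W t = 1) ∧ W 0 = 1 ∧ W 1 = pmat σ by
    obtain ⟨W, h1, h2, h3, h4⟩ := h
    exact ⟨W, h1, h2, h3, fun i j => by rw [h4, pmat_apply]⟩
  induction σ using Equiv.Perm.swap_induction_on with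
  | one =>
    refine ⟨ContinuousMap.const _ 1, fun t => ?_, fun t => ?_, rfl, ?_⟩
    · rw [ContinuousMap.const_apply, star_one, one_mul]
    · rw [ContinuousMap.const_apply, star_one, one_mul]
    · rw [ContinuousMap.const_apply, pmat_one]
  | swap_mul f x y hxy ih =>
    obtain ⟨W, h1, h2, h3, h4⟩ := ih
    obtain ⟨V, g1, g2, g3, g4⟩ := inv_path (pmat (Equiv.swap x y))
      (by rw [pmat_mul, Equiv.swap_mul_self, pmat_one]) (by rw [pmat_star, Equiv.swap_inv])
    refine ⟨V * W, fun t => ?_, fun t => ?_, ?_, ?_⟩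
    · rw [ContinuousMap.mul_apply, star_mul, mul_assoc, ← mul_assoc (W t), h1, one_mul, g1]
    · rw [ContinuousMap.mul_apply, star_mul, mul_assoc, ← mul_assoc (star (V t)), g2, one_mul, h2]
    · rw [ContinuousMap.mul_apply, h3, g3, one_mul]
    · rw [ContinuousMap.mul_apply, h4, g4, pmat_mul]

end Pool.Agent.Lib.EJS
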