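import Pool.Agent.Lib.EJS.Defs
import Pool.Agent.Lib.EJS.DimPath

/-!
# Unital homomorphisms `Z_{p,q} → Z_{p',q'}` for coprime `p, q` and large `p', q'`

PROOF.  For `p', q' ≥ N := p * q` there are natural numbers with `p' = a₀ p + b₀ q`,
`q' = a₁ p + b₁ q` (coin problem, `p, q` coprime).  Let `d = b₁ a₀ - b₀ a₁ : ℤ`; then
`q' a₀ - p' a₁ = q d` and `p' b₁ - q' b₀ = p d`.
Case `d ≥ 0`, `m = d`: put `a = p' a₁`, `b = q' b₀`, `ξ(t) = t`.  Then `m q + a = q' a₀`, `b = q' b₀`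
and `a = p' a₁`, `m p + b = p' b₁`.
Case `d < 0`, `m = -d`: put `a = q' a₀`, `b = p' b₁`, `ξ(t) = 1 - t`.  Then
`a = q' a₀`, `m p + b = q' b₀` and `m q + a = p' a₁`, `b = p' b₁`.
For `f ∈ DimDrop p q` with `f 0 = x ⊗ 1`, `f 1 = 1 ⊗ y` let `D t (f)` be the block diagonal matrix over
`T := (Fin m × (Fin p × Fin q)) ⊕ (Fin a × Fin p) ⊕ (Fin b × Fin q)` with `m` blocks `f (ξ t)`, `a` blocks
`x` and `b` blocks `y`; this is a unital homomorphism in `f` for every `t`, continuous in `t`.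
The numbers above give bijections `E₀ : Fin p' × Fin q' ≃ T` and `E₁ : Fin p' × Fin q' ≃ T` such that
`D 0 (f)` reindexed by `E₀` is `(x^{⊕ a₀} ⊕ y^{⊕ b₀}) ⊗ 1_{q'}` (with
`Fin p' ≃ (Fin a₀ × Fin p) ⊕ (Fin b₀ × Fin q)`) and `D 1 (f)` reindexed by `E₁` is
`1_{p'} ⊗ (x^{⊕ a₁} ⊕ y^{⊕ b₁})` (with `Fin q' ≃ (Fin a₁ × Fin p) ⊕ (Fin b₁ × Fin q)`); note that
`f (ξ 0)` is `x ⊗ 1_q`, which is `q` blocks `x` (or `1_p ⊗ y`, which is `p` blocks `y`).
With the path `W` of `exists_perm_path` from `1` to the matrix of `σ := E₀.symm ∘ E₁` (or its inverse,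
whichever fits) the map `f ↦ (t ↦ W t^* * reindex E₀ (D t (f)) * W t)` is the required homomorphism.
-/

open scoped ComplexOrder
open Filter Topology

namespace Pool.Agent.Lib.EJS

namespace DimHomAux

open Matrix

variable {p q : ℕ}

/-- A unital star homomorphism from a dimension drop algebra to matrix valued functions, written
with ordinary matrices. -/
structure Rep {S : Type*} [Fintype S] [DecidableEq S]
    (φ : DimDrop p q → unitInterval → Matrix S S ℂ) : Prop where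
  cont : ∀ f i j, Continuous fun t => φ f t i j
  one : ∀ t, φ 1 t = 1
  mul : ∀ f g t, φ (f * g) t = φ f t * φ g t
  add : ∀ f g t, φ (f + g) t = φ f t + φ g t
  smul : ∀ (c : ℂ) f t, φ (c • f) t = c • φ f t
  st : ∀ f t, φ (star f) t = (φ f t)ᴴ

theorem Rep.hom {p' q' : ℕ}
    {φ : DimDrop p q → unitInterval → Matrix (Fin p' × Fin q') (Fin p' × Fin q') ℂ}
    (h : Rep φ) (h0 : ∀ f, ∃ x : Fin p' → Fin p' → ℂ,
      ∀ a b, φ f 0 a b = if a.2 = b.2 then x a.1 b.1 else 0)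
    (h1 : ∀ f, ∃ y : Fin q' → Fin q' → ℂ,
      ∀ a b, φ f 1 a b = if a.1 = b.1 then y a.2 b.2 else 0) :
    Nonempty (DimDrop p q →⋆ₐ[ℂ] DimDrop p' q') := by
  have hc : ∀ f, Continuous (fun t => (φ f t : CStarMatrix (Fin p' × Fin q') (Fin p' × Fin q') ℂ)) :=
    fun f => continuous_pi fun i => continuous_pi fun j => h.cont f i j
  let F₀ : DimDrop p q → MFun p' q' := fun f =>
    (⟨fun t => φ f t, hc f⟩ : C(unitInterval, CStarMatrix (Fin p' × Fin q') (Fin p' × Fin q') ℂ))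
  have hev : ∀ f t, MFun.ev t (F₀ f) = (φ f t : CStarMatrix (Fin p' × Fin q') (Fin p' × Fin q') ℂ) :=
    fun f t => rfl
  have hext : ∀ F G : MFun p' q', (∀ t, MFun.ev t F = MFun.ev t G) → F = G := by
    intro F G hFG
    exact ContinuousMap.ext (fun t => hFG t)
  have hone : F₀ 1 = 1 := by
    refine hext _ _ fun t => ?_
    rw [hev, map_one, h.one]
    rfl
  have hmul : ∀ f g, F₀ (f * g) = F₀ f * F₀ g := by
    intro f g
    refine hext _ _ fun t => ?_
    rw [map_mul, hev, hev, hev, h.mul]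
    rfl
  have hadd : ∀ f g, F₀ (f + g) = F₀ f + F₀ g := by
    intro f g
    refine hext _ _ fun t => ?_
    rw [map_add, hev, hev, hev, h.add]
    rfl
  have hsmul : ∀ (c : ℂ) f, F₀ (c • f) = c • F₀ f := by
    intro c f
    refine hext _ _ fun t => ?_
    rw [map_smul, hev, hev, h.smul]
    rfl
  have hstar : ∀ f, F₀ (star f) = star (F₀ f) := by
    intro f
    refine hext _ _ fun t => ?_
    rw [map_star, hev, hev, h.st]
    rfl
  let F : DimDrop p q →⋆ₐ[ℂ] MFun p' q' :=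
    { AlgHom.ofLinearMap (R := ℂ) ⟨⟨F₀, hadd⟩, hsmul⟩ hone hmul with
      map_star' := hstar }
  refine ⟨StarAlgHom.codRestrict F (DimDrop p' q') fun f => ?_⟩
  exact ⟨h0 f, h1 f⟩

theorem Rep.conj {S : Type*} [Fintype S] [DecidableEq S]
    {φ : DimDrop p q → unitInterval → Matrix S S ℂ} (h : Rep φ)
    (W : unitInterval → Matrix S S ℂ) (hW : ∀ i j, Continuous fun t => W t i j)
    (h1 : ∀ t, W t * (W t)ᴴ = 1) (h2 : ∀ t, (W t)ᴴ * W t = 1) :
    Rep fun f t => (W t)ᴴ * φ f t * W t where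
  cont f i j := by
    simp only [Matrix.mul_apply, Matrix.conjTranspose_apply]
    refine continuous_finsetSum _ fun k _ => ?_
    refine Continuous.mul (continuous_finsetSum _ fun m _ => ?_) (hW _ _)
    exact (continuous_star.comp (hW _ _)).mul (h.cont _ _ _)
  one t := by rw [h.one, Matrix.mul_one, h2]
  mul f g t := by
    rw [h.mul]
    calc (W t)ᴴ * (φ f t * φ g t) * W t = (W t)ᴴ * φ f t * 1 * φ g t * W t := by
          simp only [Matrix.mul_assoc, Matrix.mul_one]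
      _ = (W t)ᴴ * φ f t * (W t * (W t)ᴴ) * φ g t * W t := by rw [h1]
      _ = _ := by simp only [Matrix.mul_assoc]
  add f g t := by rw [h.add, Matrix.mul_add, Matrix.add_mul]
  smul c f t := by rw [h.smul, Matrix.mul_smul, Matrix.smul_mul]
  st f t := by
    rw [h.st, Matrix.conjTranspose_mul, Matrix.conjTranspose_mul,
      Matrix.conjTranspose_conjTranspose, Matrix.mul_assoc]

theorem Rep.reindex {S T : Type*} [Fintype S] [DecidableEq S] [Fintype T] [DecidableEq T]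
    {φ : DimDrop p q → unitInterval → Matrix S S ℂ} (h : Rep φ) (e : T ≃ S) :
    Rep fun f t => (φ f t).submatrix e e where
  cont f i j := h.cont f _ _
  one t := by rw [h.one, Matrix.submatrix_one_equiv]
  mul f g t := by rw [h.mul, Matrix.submatrix_mul_equiv]
  add f g t := by rw [h.add]; rfl
  smul c f t := by rw [h.smul]; rfl
  st f t := by rw [h.st]; rfl

theorem Rep.infl {S : Type*} [Fintype S] [DecidableEq S]
    {φ : DimDrop p q → unitInterval → Matrix S S ℂ} (h : Rep φ) (n : ℕ) :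
    Rep fun f t => blockDiagonal fun _ : Fin n => φ f t where
  cont f i j := by
    simp only [blockDiagonal_apply]
    split_ifs
    · exact h.cont f _ _
    · exact continuous_const
  one t := by
    rw [h.one]
    exact blockDiagonal_one
  mul f g t := by
    rw [← blockDiagonal_mul]
    congr 1
    funext k
    exact h.mul f g t
  add f g t := by
    rw [← blockDiagonal_add]
    congr 1
    funext k
    exact h.add f g t
  smul c f t := by
    rw [← blockDiagonal_smul]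
    congr 1
    funext k
    exact h.smul c f t
  st f t := by
    rw [blockDiagonal_conjTranspose]
    congr 1
    funext k
    exact h.st f t

theorem Rep.sum {S T : Type*} [Fintype S] [DecidableEq S] [Fintype T] [DecidableEq T]
    {φ : DimDrop p q → unitInterval → Matrix S S ℂ} (h : Rep φ)
    {ψ : DimDrop p q → unitInterval → Matrix T T ℂ} (h' : Rep ψ) :
    Rep fun f t => fromBlocks (φ f t) 0 0 (ψ f t) where
  cont f i j := by
    rcases i with i | i <;> rcases j with j | j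
    · exact h.cont f i j
    · exact continuous_const
    · exact continuous_const
    · exact h'.cont f i j
  one t := by rw [h.one, h'.one, fromBlocks_one]
  mul f g t := by
    rw [h.mul, h'.mul, fromBlocks_multiply]
    simp
  add f g t := by
    rw [h.add, h'.add, fromBlocks_add]
    simp
  smul c f t := by
    rw [h.smul, h'.smul, fromBlocks_smul]
    simp
  st f t := by
    rw [h.st, h'.st, fromBlocks_conjTranspose]
    simp

/-- The values. -/
noncomputable def val (f : DimDrop p q) (t : unitInterval) :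
    Matrix (Fin p × Fin q) (Fin p × Fin q) ℂ := MFun.ev t f.1

theorem rep_val : Rep (val (p := p) (q := q)) where
  cont f i j := by
    have h1 : Continuous fun t => (MFun.ev t f.1 : CStarMatrix (Fin p × Fin q) (Fin p × Fin q) ℂ) :=
      ContinuousMap.continuous
        (show C(unitInterval, CStarMatrix (Fin p × Fin q) (Fin p × Fin q) ℂ) from f.1)
    exact (continuous_apply j).comp ((continuous_apply i).comp h1)
  one t := map_one (MFun.ev (p := p) (q := q) t)
  mul f g t := map_mul (MFun.ev (p := p) (q := q) t) f.1 g.1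
  add f g t := map_add (MFun.ev (p := p) (q := q) t) f.1 g.1
  smul c f t := map_smul (MFun.ev (p := p) (q := q) t) c f.1
  st f t := map_star (MFun.ev (p := p) (q := q) t) f.1

/-- The first coordinate algebra. -/
noncomputable def X (hq : 0 < q) (f : DimDrop p q) : Matrix (Fin p) (Fin p) ℂ :=
  Matrix.of fun i j => val f 0 (i, ⟨0, hq⟩) (j, ⟨0, hq⟩)

theorem X_apply (hq : 0 < q) (f : DimDrop p q) (i j : Fin p) :
    X hq f i j = val f 0 (i, ⟨0, hq⟩) (j, ⟨0, hq⟩) := rfl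

/-- The second coordinate algebra. -/
noncomputable def Y (hp : 0 < p) (f : DimDrop p q) : Matrix (Fin q) (Fin q) ℂ :=
  Matrix.of fun i j => val f 1 (⟨0, hp⟩, i) (⟨0, hp⟩, j)

theorem Y_apply (hp : 0 < p) (f : DimDrop p q) (i j : Fin q) :
    Y hp f i j = val f 1 (⟨0, hp⟩, i) (⟨0, hp⟩, j) := rfl

theorem val_zero (hq : 0 < q) (f : DimDrop p q) (a b : Fin p × Fin q) :
    val f 0 a b = if a.2 = b.2 then X hq f a.1 b.1 else 0 := by
  obtain ⟨x, hx⟩ := f.2.1
  have hx' : ∀ a b : Fin p × Fin q, val f 0 a b = if a.2 = b.2 then x a.1 b.1 else 0 := hx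
  rw [X_apply, hx', hx', if_pos rfl]

theorem val_one (hp : 0 < p) (f : DimDrop p q) (a b : Fin p × Fin q) :
    val f 1 a b = if a.1 = b.1 then Y hp f a.2 b.2 else 0 := by
  obtain ⟨y, hy⟩ := f.2.2
  have hy' : ∀ a b : Fin p × Fin q, val f 1 a b = if a.1 = b.1 then y a.2 b.2 else 0 := hy
  rw [Y_apply, hy', hy', if_pos rfl]

theorem rep_X (hq : 0 < q) : Rep fun (f : DimDrop p q) _ => X hq f where
  cont f i j := continuous_const
  one t := by
    ext i j
    rw [X_apply, rep_val.one, Matrix.one_apply, Matrix.one_apply]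
    simp
  mul f g t := by
    ext i j
    rw [X_apply, rep_val.mul, Matrix.mul_apply, Matrix.mul_apply, Fintype.sum_prod_type]
    refine Finset.sum_congr rfl fun k _ => ?_
    rw [Finset.sum_eq_single (⟨0, hq⟩ : Fin q)]
    · rfl
    · intro d _ hd
      rw [val_zero hq f, if_neg (Ne.symm hd), zero_mul]
    · intro hd
      exact absurd (Finset.mem_univ _) hd
  add f g t := by
    ext i j
    rw [X_apply, rep_val.add]
    rfl
  smul c f t := by
    ext i j
    rw [X_apply, rep_val.smul]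
    rfl
  st f t := by
    ext i j
    rw [X_apply, rep_val.st]
    rfl

theorem rep_Y (hp : 0 < p) : Rep fun (f : DimDrop p q) _ => Y hp f where
  cont f i j := continuous_const
  one t := by
    ext i j
    rw [Y_apply, rep_val.one, Matrix.one_apply, Matrix.one_apply]
    simp
  mul f g t := by
    ext i j
    rw [Y_apply, rep_val.mul, Matrix.mul_apply, Matrix.mul_apply, Fintype.sum_prod_type_right]
    refine Finset.sum_congr rfl fun k _ => ?_
    rw [Finset.sum_eq_single (⟨0, hp⟩ : Fin p)]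
    · rfl
    · intro d _ hd
      rw [val_one hp f, if_neg (Ne.symm hd), zero_mul]
    · intro hd
      exact absurd (Finset.mem_univ _) hd
  add f g t := by
    ext i j
    rw [Y_apply, rep_val.add]
    rfl
  smul c f t := by
    ext i j
    rw [Y_apply, rep_val.smul]
    rfl
  st f t := by
    ext i j
    rw [Y_apply, rep_val.st]
    rfl

/-- Blocks. -/
def Mod {U V : Type*} [DecidableEq U] [DecidableEq V] (x : Matrix (Fin p) (Fin p) ℂ)
    (y : Matrix (Fin q) (Fin q) ℂ) : (U × Fin p) ⊕ (V × Fin q) → (U × Fin p) ⊕ (V × Fin q) → ℂ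
  | Sum.inl (u, i), Sum.inl (u', j) => if u = u' then x i j else 0
  | Sum.inl _, Sum.inr _ => 0
  | Sum.inr _, Sum.inl _ => 0
  | Sum.inr (v, i), Sum.inr (v', j) => if v = v' then y i j else 0

/-- Reindexing of blocks. -/
def cg {U V U' V' : Type*} (eU : U ≃ U') (eV : V ≃ V') :
    (U × Fin p) ⊕ (V × Fin q) ≃ (U' × Fin p) ⊕ (V' × Fin q) :=
  Equiv.sumCongr (Equiv.prodCongr eU (Equiv.refl _)) (Equiv.prodCongr eV (Equiv.refl _))

theorem Mod_cg {U V U' V' : Type*} [DecidableEq U] [DecidableEq V] [DecidableEq U']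
    [DecidableEq V'] (eU : U ≃ U') (eV : V ≃ V') (x : Matrix (Fin p) (Fin p) ℂ)
    (y : Matrix (Fin q) (Fin q) ℂ) (i j : (U × Fin p) ⊕ (V × Fin q)) :
    Mod x y (cg eU eV i) (cg eU eV j) = Mod x y i j := by
  rcases i with ⟨u, i⟩ | ⟨v, i⟩ <;> rcases j with ⟨u', j⟩ | ⟨v', j⟩ <;>
    simp [Mod, cg]

/-- Left tensor factor. -/
def Fl {P Q U V : Type*} (e : P ≃ (U × Fin p) ⊕ (V × Fin q)) :
    P × Q ≃ ((U × Q) × Fin p) ⊕ ((V × Q) × Fin q) :=
  (Equiv.prodCongr e (Equiv.refl Q)).trans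
    { toFun := fun z => match z with
        | (Sum.inl (u, i), c) => Sum.inl ((u, c), i)
        | (Sum.inr (v, i), c) => Sum.inr ((v, c), i)
      invFun := fun z => match z with
        | Sum.inl ((u, c), i) => (Sum.inl (u, i), c)
        | Sum.inr ((v, c), i) => (Sum.inr (v, i), c)
      left_inv := by rintro ⟨⟨u, i⟩ | ⟨v, i⟩, c⟩ <;> rfl
      right_inv := by rintro (⟨⟨u, c⟩, i⟩ | ⟨⟨v, c⟩, i⟩) <;> rfl }

theorem Mod_Fl {P Q U V : Type*} [DecidableEq U] [DecidableEq V] [DecidableEq Q]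
    (e : P ≃ (U × Fin p) ⊕ (V × Fin q)) (x : Matrix (Fin p) (Fin p) ℂ)
    (y : Matrix (Fin q) (Fin q) ℂ) (a b : P × Q) :
    Mod x y (Fl e a) (Fl e b) = if a.2 = b.2 then Mod x y (e a.1) (e b.1) else 0 := by
  obtain ⟨s, c⟩ := a
  obtain ⟨s', c'⟩ := b
  have h1 : ∀ s c, Fl (Q := Q) e (s, c) = match (e s, c) with
        | (Sum.inl (u, i), c) => Sum.inl ((u, c), i)
        | (Sum.inr (v, i), c) => Sum.inr ((v, c), i) := fun s c => rfl
  rw [h1, h1]
  rcases e s with ⟨u, i⟩ | ⟨v, i⟩ <;> rcases e s' with ⟨u', j⟩ | ⟨v', j⟩ <;>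
    by_cases hc : c = c' <;> simp [Mod, Prod.ext_iff, hc]

/-- The index set. -/
abbrev Ix (p q m a b : ℕ) : Type :=
  ((Fin p × Fin q) × Fin m) ⊕ ((Fin p × Fin a) ⊕ (Fin q × Fin b))

/-- The block diagonal representation. -/
noncomputable def D (hp : 0 < p) (hq : 0 < q) (m a b : ℕ) (f : DimDrop p q) (t : unitInterval) :
    Matrix (Ix p q m a b) (Ix p q m a b) ℂ :=
  fromBlocks (blockDiagonal fun _ : Fin m => val f t) 0 0
    (fromBlocks (blockDiagonal fun _ : Fin a => X hq f) 0 0 (blockDiagonal fun _ : Fin b => Y hp f))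

theorem rep_D (hp : 0 < p) (hq : 0 < q) (m a b : ℕ) : Rep (D (p := p) (q := q) hp hq m a b) :=
  (rep_val.infl m).sum (((rep_X hq).infl a).sum ((rep_Y hp).infl b))

/-- The identification at `0`. -/
def G0 (p q m a b : ℕ) : Ix p q m a b ≃ (((Fin m × Fin q) ⊕ Fin a) × Fin p) ⊕ (Fin b × Fin q) where
  toFun z := match z with
    | Sum.inl ((i, c), k) => Sum.inl (Sum.inl (k, c), i)
    | Sum.inr (Sum.inl (i, k)) => Sum.inl (Sum.inr k, i)
    | Sum.inr (Sum.inr (j, k)) => Sum.inr (k, j)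
  invFun z := match z with
    | Sum.inl (Sum.inl (k, c), i) => Sum.inl ((i, c), k)
    | Sum.inl (Sum.inr k, i) => Sum.inr (Sum.inl (i, k))
    | Sum.inr (k, j) => Sum.inr (Sum.inr (j, k))
  left_inv := by rintro (⟨⟨i, c⟩, k⟩ | ⟨i, k⟩ | ⟨j, k⟩) <;> rfl
  right_inv := by rintro (⟨⟨k, c⟩ | k, i⟩ | ⟨k, j⟩) <;> rfl

/-- The identification at `1`. -/
def G1 (p q m a b : ℕ) : Ix p q m a b ≃ (Fin a × Fin p) ⊕ (((Fin m × Fin p) ⊕ Fin b) × Fin q) where
  toFun z := match z with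
    | Sum.inl ((i, c), k) => Sum.inr (Sum.inl (k, i), c)
    | Sum.inr (Sum.inl (i, k)) => Sum.inl (k, i)
    | Sum.inr (Sum.inr (j, k)) => Sum.inr (Sum.inr k, j)
  invFun z := match z with
    | Sum.inr (Sum.inl (k, i), c) => Sum.inl ((i, c), k)
    | Sum.inl (k, i) => Sum.inr (Sum.inl (i, k))
    | Sum.inr (Sum.inr k, j) => Sum.inr (Sum.inr (j, k))
  left_inv := by rintro (⟨⟨i, c⟩, k⟩ | ⟨i, k⟩ | ⟨j, k⟩) <;> rfl
  right_inv := by rintro (⟨k, i⟩ | ⟨⟨k, i⟩ | k, j⟩) <;> rfl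

theorem D_zero (hp : 0 < p) (hq : 0 < q) (m a b : ℕ) (f : DimDrop p q) (i j : Ix p q m a b) :
    D hp hq m a b f 0 i j = Mod (X hq f) (Y hp f) (G0 p q m a b i) (G0 p q m a b j) := by
  rcases i with ⟨⟨i, c⟩, k⟩ | ⟨i, k⟩ | ⟨i, k⟩ <;> rcases j with ⟨⟨j, d⟩, l⟩ | ⟨j, l⟩ | ⟨j, l⟩ <;>
    simp only [D, G0, Mod, Equiv.coe_fn_mk, fromBlocks_apply₁₁, fromBlocks_apply₁₂,
      fromBlocks_apply₂₁, fromBlocks_apply₂₂, blockDiagonal_apply, Matrix.zero_apply,
      Sum.inl.injEq, Sum.inr.injEq, Prod.mk.injEq, reduceCtorEq, if_false, val_zero hq]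
  by_cases h1 : k = l <;> by_cases h2 : c = d <;> simp [h1, h2]

theorem D_one (hp : 0 < p) (hq : 0 < q) (m a b : ℕ) (f : DimDrop p q) (i j : Ix p q m a b) :
    D hp hq m a b f 1 i j = Mod (X hq f) (Y hp f) (G1 p q m a b i) (G1 p q m a b j) := by
  rcases i with ⟨⟨i, c⟩, k⟩ | ⟨i, k⟩ | ⟨i, k⟩ <;> rcases j with ⟨⟨j, d⟩, l⟩ | ⟨j, l⟩ | ⟨j, l⟩ <;>
    simp only [D, G1, Mod, Equiv.coe_fn_mk, fromBlocks_apply₁₁, fromBlocks_apply₁₂,
      fromBlocks_apply₂₁, fromBlocks_apply₂₂, blockDiagonal_apply, Matrix.zero_apply,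
      Sum.inl.injEq, Sum.inr.injEq, Prod.mk.injEq, reduceCtorEq, if_false, val_one hp]
  by_cases h1 : k = l <;> by_cases h2 : i = j <;> simp [h1, h2]

/-- The path argument. -/
theorem of_path {p' q' : ℕ} {S : Type} [Fintype S] [DecidableEq S]
    {φ : DimDrop p q → unitInterval → Matrix S S ℂ} (h : Rep φ) (E₀ E₁ : Fin p' × Fin q' ≃ S)
    (h0 : ∀ f, ∃ x : Fin p' → Fin p' → ℂ,
      ∀ a b, φ f 0 (E₀ a) (E₀ b) = if a.2 = b.2 then x a.1 b.1 else 0)
    (h1 : ∀ f, ∃ y : Fin q' → Fin q' → ℂ,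
      ∀ a b, φ f 1 (E₁ a) (E₁ b) = if a.1 = b.1 then y a.2 b.2 else 0) :
    Nonempty (DimDrop p q →⋆ₐ[ℂ] DimDrop p' q') := by
  obtain ⟨W, hW1, hW2, hW3, hW4⟩ := exists_perm_path (E₀.symm.trans E₁)
  set w : unitInterval → Matrix S S ℂ := fun t => CStarMatrix.ofMatrix.symm (W t) with hw
  have hw1 : ∀ t, w t * (w t)ᴴ = 1 := hW1
  have hw2 : ∀ t, (w t)ᴴ * w t = 1 := hW2
  have hw3 : w 0 = 1 := hW3
  have hw4 : ∀ i j, w 1 i j = if i = (E₀.symm.trans E₁) j then 1 else 0 := hW4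
  have hr := (h.conj w (fun i j => by
    have h3 : Continuous fun t => (W t : CStarMatrix S S ℂ) := W.continuous
    exact (continuous_apply j).comp ((continuous_apply i).comp h3)) hw1 hw2).reindex E₀
  clear_value w
  refine hr.hom (fun f => ?_) (fun f => ?_)
  · obtain ⟨x, hx⟩ := h0 f
    refine ⟨x, fun a b => ?_⟩
    rw [← hx a b]
    rw [Matrix.submatrix_apply, hw3, Matrix.conjTranspose_one, Matrix.one_mul, Matrix.mul_one]
  · obtain ⟨y, hy⟩ := h1 f
    refine ⟨y, fun a b => ?_⟩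
    rw [← hy a b, Matrix.submatrix_apply, Matrix.mul_apply]
    have h5 : ∀ c : Fin p' × Fin q', (E₀.symm.trans E₁) (E₀ c) = E₁ c := by
      intro c
      simp
    rw [Finset.sum_eq_single (E₁ b)]
    · rw [Matrix.mul_apply, Finset.sum_eq_single (E₁ a)]
      · rw [Matrix.conjTranspose_apply]
        have h6 : w 1 (E₁ a) (E₀ a) = 1 := by
          have := hw4 (E₁ a) (E₀ a)
          rw [h5, if_pos rfl] at this
          exact this
        have h7 : w 1 (E₁ b) (E₀ b) = 1 := by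
          have := hw4 (E₁ b) (E₀ b)
          rw [h5, if_pos rfl] at this
          exact this
        rw [h6, h7, star_one, one_mul, mul_one]
      · intro c _ hc
        have h6 : w 1 c (E₀ a) = 0 := by
          have := hw4 c (E₀ a)
          rw [h5, if_neg hc] at this
          exact this
        rw [Matrix.conjTranspose_apply, h6, star_zero, zero_mul]
      · intro hc
        exact absurd (Finset.mem_univ _) hc
    · intro c _ hc
      have h6 : w 1 c (E₀ b) = 0 := by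
        have := hw4 c (E₀ b)
        rw [h5, if_neg hc] at this
        exact this
      rw [h6, mul_zero]
    · intro hc
      exact absurd (Finset.mem_univ _) hc

theorem core (hp : 0 < p) (hq : 0 < q) (a₀ b₀ a₁ b₁ : ℕ) (hd : b₀ * a₁ ≤ b₁ * a₀) :
    Nonempty (DimDrop p q →⋆ₐ[ℂ] DimDrop (a₀ * p + b₀ * q) (a₁ * p + b₁ * q)) := by
  obtain ⟨m, hm⟩ := Nat.exists_eq_add_of_le hd
  have hc1 : m * q + (a₀ * p + b₀ * q) * a₁ = a₀ * (a₁ * p + b₁ * q) := by
    have : b₁ * a₀ * q = (b₀ * a₁ + m) * q := by rw [hm]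
    nlinarith
  have hc2 : m * p + (a₁ * p + b₁ * q) * b₀ = b₁ * (a₀ * p + b₀ * q) := by
    have : b₁ * a₀ * p = (b₀ * a₁ + m) * p := by rw [hm]
    nlinarith
  set p' := a₀ * p + b₀ * q with hp'
  set q' := a₁ * p + b₁ * q with hq'
  set a := p' * a₁ with ha
  set b := q' * b₀ with hb
  have e₀ : Fin p' ≃ (Fin a₀ × Fin p) ⊕ (Fin b₀ × Fin q) :=
    Fintype.equivOfCardEq (by simp [hp'])
  have e₁ : Fin q' ≃ (Fin a₁ × Fin p) ⊕ (Fin b₁ × Fin q) :=
    Fintype.equivOfCardEq (by simp [hq'])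
  have u₀ : Fin a₀ × Fin q' ≃ (Fin m × Fin q) ⊕ Fin a :=
    Fintype.equivOfCardEq (by simp [hc1])
  have v₀ : Fin b₀ × Fin q' ≃ Fin b :=
    Fintype.equivOfCardEq (by simp [hb, mul_comm])
  have u₁ : Fin a₁ × Fin p' ≃ Fin a :=
    Fintype.equivOfCardEq (by simp [ha, mul_comm])
  have v₁ : Fin b₁ × Fin p' ≃ (Fin m × Fin p) ⊕ Fin b :=
    Fintype.equivOfCardEq (by simp [hc2])
  let E₀ : Fin p' × Fin q' ≃ Ix p q m a b := ((Fl e₀).trans (cg u₀ v₀)).trans (G0 p q m a b).symm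
  let E₁ : Fin p' × Fin q' ≃ Ix p q m a b :=
    (((Equiv.prodComm _ _).trans (Fl e₁)).trans (cg u₁ v₁)).trans (G1 p q m a b).symm
  refine of_path (rep_D hp hq m a b) E₀ E₁ (fun f => ?_) (fun f => ?_)
  · refine ⟨fun s s' => Mod (X hq f) (Y hp f) (e₀ s) (e₀ s'), fun c d => ?_⟩
    have h1 : ∀ z, G0 p q m a b (E₀ z) = cg u₀ v₀ (Fl e₀ z) := by
      intro z
      exact Equiv.apply_symm_apply _ _
    rw [D_zero, h1, h1, Mod_cg, Mod_Fl]
  · refine ⟨fun s s' => Mod (X hq f) (Y hp f) (e₁ s) (e₁ s'), fun c d => ?_⟩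
    have h1 : ∀ z, G1 p q m a b (E₁ z) = cg u₁ v₁ (Fl e₁ z.swap) := by
      intro z
      exact Equiv.apply_symm_apply _ _
    rw [D_one, h1, h1, Mod_cg, Mod_Fl]
    rfl

/-- Exchange of the two factors. -/
theorem flip (p q : ℕ) : Nonempty (DimDrop p q →⋆ₐ[ℂ] DimDrop q p) := by
  have h : Rep fun (f : DimDrop p q) (t : unitInterval) =>
      (val f (unitInterval.symm t)).submatrix (Equiv.prodComm (Fin q) (Fin p))
        (Equiv.prodComm (Fin q) (Fin p)) := by
    have h1 : Rep fun (f : DimDrop p q) (t : unitInterval) => val f (unitInterval.symm t) :=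
      { cont := fun f i j => (rep_val.cont f i j).comp unitInterval.continuous_symm
        one := fun t => rep_val.one _
        mul := fun f g t => rep_val.mul f g _
        add := fun f g t => rep_val.add f g _
        smul := fun c f t => rep_val.smul c f _
        st := fun f t => rep_val.st f _ }
    exact h1.reindex (Equiv.prodComm (Fin q) (Fin p))
  refine h.hom (fun f => ?_) (fun f => ?_)
  · obtain ⟨y, hy⟩ := f.2.2
    refine ⟨y, fun a b => ?_⟩
    have hy' : ∀ a b : Fin p × Fin q, val f 1 a b = if a.1 = b.1 then y a.2 b.2 else 0 := hy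
    rw [Matrix.submatrix_apply, unitInterval.symm_zero, hy']
    rfl
  · obtain ⟨x, hx⟩ := f.2.1
    refine ⟨x, fun a b => ?_⟩
    have hx' : ∀ a b : Fin p × Fin q, val f 0 a b = if a.2 = b.2 then x a.1 b.1 else 0 := hx
    rw [Matrix.submatrix_apply, unitInterval.symm_one, hx']
    rfl

theorem coin (p q : ℕ) (hp : 0 < p) (h : Nat.Coprime p q) (n : ℕ) (hn : p * q ≤ n) :
    ∃ a b : ℕ, n = a * p + b * q := by
  have : NeZero p := ⟨hp.ne'⟩
  set b : ℕ := ((n : ZMod p) * (q : ZMod p)⁻¹).val with hb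
  have h1 : ((b * q : ℕ) : ZMod p) = (n : ZMod p) := by
    rw [Nat.cast_mul, hb, ZMod.natCast_zmod_val, mul_assoc, mul_comm ((q : ZMod p)⁻¹),
      ZMod.coe_mul_inv_eq_one q h.symm, mul_one]
  have h2 : b < p := ZMod.val_lt _
  have h3 : b * q ≤ n := (Nat.mul_le_mul_right q h2.le).trans hn
  have h4 : p ∣ n - b * q := (Nat.modEq_iff_dvd' h3).1 ((ZMod.natCast_eq_natCast_iff _ _ _).1 h1)
  obtain ⟨a, ha⟩ := h4
  refine ⟨a, b, ?_⟩
  rw [mul_comm a p, ← ha]
  omega

end DimHomAux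

open DimHomAux in
theorem exists_dimDrop_hom (p q : ℕ) (hp : 0 < p) (hq : 0 < q) (h : Nat.Coprime p q) :
    ∃ N : ℕ, ∀ p' q' : ℕ, N ≤ p' → N ≤ q' → Nonempty (DimDrop p q →⋆ₐ[ℂ] DimDrop p' q') := by
  refine ⟨p * q, fun p' q' hp' hq' => ?_⟩
  obtain ⟨a₀, b₀, rfl⟩ := coin p q hp h p' hp'
  obtain ⟨a₁, b₁, rfl⟩ := coin p q hp h q' hq'
  rcases le_total (b₀ * a₁) (b₁ * a₀) with hd | hd
  · exact core hp hq a₀ b₀ a₁ b₁ hd
  · obtain ⟨F⟩ := core hp hq a₁ b₁ a₀ b₀ hd
    obtain ⟨G⟩ := flip (a₁ * p + b₁ * q) (a₀ * p + b₀ * q)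
    exact ⟨G.comp F⟩

end Pool.Agent.Lib.EJS
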