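import Pool.Agent.Lib.EJS.Common
import Pool.Agent.Lib.EJS.Defs
import Pool.Agent.Lib.EJS.DimPath

/-!
# Rordam-Winter pairs in the dimension drop algebras `Z_{n+1,n+2}`

PROOF.  Put `I = Fin (n+1) × Fin (n+2)`.  Let `F` be the permutation of `I` with `F (i, 0) = (i, 0)`
and `F (i, k.succ) = (k, i.succ)` (it is an involution; write `F` also for its matrix), and
`U t = (1 + exp(iπt))/2 • 1 + (1 - exp(iπt))/2 • F`, a continuous path of unitaries, `U 0 = 1`,
`U 1 = F`.  Put (everything is a continuous function of `t ∈ [0,1]` with values in the matrices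
over `I`)
* `e i j (t) = U t^* * (E_ij ⊗ diag(1-t, 1, ..., 1)) * U t`,
* `s (t) = U t^* * (√t ∑ k : Fin (n+1), E_{0 k} ⊗ F_{k.succ, 0}) * U t`, that is the matrix under the
  conjugation has the entry `√t` at `((0, k.succ), (k, 0))` for every `k` and `0` elsewhere.
At `t = 0`: `e i j (0) = E_ij ⊗ 1`, `s (0) = 0`.  At `t = 1`: conjugating
`E_ij ⊗ diag(0,1,...,1)` by `F` gives `1 ⊗ E_{i.succ, j.succ}`, and conjugating
`∑ k E_{0 k} ⊗ F_{k.succ,0}` by `F` gives `1 ⊗ E_{1, 0}`.  So all of these functions are in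
`DimDrop (n+1) (n+2)`.  The relations are checked before conjugation, pointwise: `h (t) = ∑ e i i =
1 ⊗ diag(1-t,1,...,1)`, `s* s = t • 1 ⊗ E_00 = 1 - h`, `e 0 0 * s = s`, and `h = c* c` with
`c (t) = U t^* (1 ⊗ diag(√(1-t),1,...,1)) U t`, which is again in `DimDrop` (at `t = 1` it is `h (1)`).
-/

open scoped ComplexOrder
open Filter Topology

namespace Pool.Agent.Lib.EJS

namespace DimRWAux

open DimPathAux

variable {n : ℕ}

/-- the index set -/
abbrev II (n : ℕ) : Type := Fin (n + 1) × Fin (n + 2)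

/-- the flip -/
def fl (a : II n) : II n :=
  Fin.cases (motive := fun _ => II n) (a.1, 0) (fun k => (k, a.1.succ)) a.2

theorem fl_zero (i : Fin (n + 1)) : fl (i, (0 : Fin (n + 2))) = (i, 0) := rfl

theorem fl_succ (i k : Fin (n + 1)) : fl (i, k.succ) = (k, i.succ) := rfl

theorem fl_fl (a : II n) : fl (fl a) = a := by
  obtain ⟨i, j⟩ := a
  refine Fin.cases ?_ (fun k => ?_) j
  · rw [fl_zero, fl_zero]
  · rw [fl_succ, fl_succ]

/-- the flip as a permutation -/
def flP (n : ℕ) : Equiv.Perm (II n) := ⟨fl, fl, fl_fl, fl_fl⟩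

/-- the weight -/
noncomputable def wt (t : ℝ) (c : Fin (n + 2)) : ℂ := if c = 0 then ((1 - t : ℝ) : ℂ) else 1

/-- the square root of the weight -/
noncomputable def wq (t : ℝ) (c : Fin (n + 2)) : ℂ := if c = 0 then ((√(1 - t) : ℝ) : ℂ) else 1

/-- matrix units before conjugation -/
noncomputable def Em (i j : Fin (n + 1)) (t : ℝ) : CStarMatrix (II n) (II n) ℂ :=
  fun a b => if a.1 = i ∧ b = (j, a.2) then wt t a.2 else 0

/-- their sum -/
noncomputable def Dm (n : ℕ) (t : ℝ) : CStarMatrix (II n) (II n) ℂ :=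
  fun a b => if a = b then wt t a.2 else 0

/-- the square root -/
noncomputable def Cm (n : ℕ) (t : ℝ) : CStarMatrix (II n) (II n) ℂ :=
  fun a b => if a = b then wq t a.2 else 0

/-- the isometry before conjugation -/
noncomputable def Sm (n : ℕ) (t : ℝ) : CStarMatrix (II n) (II n) ℂ :=
  fun a b => if b.2 = 0 ∧ a = (0, b.1.succ) then ((√t : ℝ) : ℂ) else 0

theorem Em_apply (i j : Fin (n + 1)) (t : ℝ) (a b : II n) :
    Em i j t a b = if a.1 = i ∧ b = (j, a.2) then wt t a.2 else 0 := rfl

theorem Dm_apply (t : ℝ) (a b : II n) : Dm n t a b = if a = b then wt t a.2 else 0 := rfl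

theorem Cm_apply (t : ℝ) (a b : II n) : Cm n t a b = if a = b then wq t a.2 else 0 := rfl

theorem Sm_apply (t : ℝ) (a b : II n) :
    Sm n t a b = if b.2 = 0 ∧ a = (0, b.1.succ) then ((√t : ℝ) : ℂ) else 0 := rfl

theorem star_wt (t : ℝ) (c : Fin (n + 2)) : star (wt t c) = wt t c := by
  unfold wt
  split_ifs <;> simp

theorem sum_entry {ι : Type*} (s : Finset ι) (f : ι → CStarMatrix (II n) (II n) ℂ) (a b : II n) :
    (∑ i ∈ s, f i) a b = ∑ i ∈ s, f i a b := by
  classical
  induction s using Finset.induction_on with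
  | empty => rfl
  | insert i s hi ih => rw [Finset.sum_insert hi, Finset.sum_insert hi, CStarMatrix.add_apply, ih]

theorem sum_Em (t : ℝ) : ∑ m, Em (n := n) m m t = Dm n t := by
  ext a b
  rw [sum_entry, Finset.sum_eq_single a.1]
  · rw [Em_apply, Dm_apply]
    by_cases h : a = b
    · rw [if_pos h, if_pos ⟨rfl, h.symm⟩]
    · rw [if_neg h, if_neg (fun h' => h h'.2.symm)]
  · intro m _ hm
    rw [Em_apply, if_neg (fun h => hm h.1.symm)]
  · intro h
    exact absurd (Finset.mem_univ _) h

theorem star_Em (i j : Fin (n + 1)) (t : ℝ) : star (Em i j t) = Em j i t := by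
  ext a b
  rw [CStarMatrix.star_apply, Em_apply, Em_apply]
  by_cases h : b.1 = i ∧ a = (j, b.2)
  · obtain ⟨h1, h2⟩ := h
    rw [if_pos ⟨h1, h2⟩, if_pos, star_wt, h2]
    rw [h2]
    exact ⟨rfl, Prod.ext h1 rfl⟩
  · rw [if_neg h, if_neg, star_zero]
    rintro ⟨h1, h2⟩
    apply h
    rw [h2]
    exact ⟨rfl, Prod.ext h1 rfl⟩

theorem Em_mul (i j k l : Fin (n + 1)) (t : ℝ) :
    Em i j t * Em k l t = if j = k then Dm n t * Em i l t else 0 := by
  split_ifs with hjk
  · ext a b
    rw [CStarMatrix.mul_apply, CStarMatrix.mul_apply, Finset.sum_eq_single (j, a.2),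
      Finset.sum_eq_single a]
    · rw [Em_apply, Em_apply, Em_apply, Dm_apply, if_pos (rfl : a = a)]
      by_cases h : a.1 = i ∧ b = (l, a.2)
      · rw [if_pos ⟨h.1, rfl⟩, if_pos ⟨hjk, h.2⟩, if_pos h]
      · rw [if_neg h, mul_zero]
        by_cases h1 : a.1 = i
        · rw [if_neg (fun h2 : j = k ∧ b = (l, a.2) => h ⟨h1, h2.2⟩), mul_zero]
        · rw [if_neg (fun h2 => h1 h2.1), zero_mul]
    · intro c _ hc
      rw [Dm_apply, if_neg (Ne.symm hc), zero_mul]
    · intro h
      exact absurd (Finset.mem_univ _) h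
    · intro c _ hc
      rw [Em_apply, if_neg (fun h => hc h.2), zero_mul]
    · intro h
      exact absurd (Finset.mem_univ _) h
  · ext a b
    rw [CStarMatrix.mul_apply, CStarMatrix.zero_apply]
    refine Finset.sum_eq_zero fun c _ => ?_
    rw [Em_apply, Em_apply]
    by_cases h : a.1 = i ∧ c = (j, a.2)
    · rw [if_neg (fun h2 : c.1 = k ∧ _ => hjk (by rw [← h2.1, h.2])), mul_zero]
    · rw [if_neg h, zero_mul]

theorem Cm_mul {t : ℝ} (ht : t ≤ 1) : star (Cm n t) * Cm n t = Dm n t := by
  ext a b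
  rw [CStarMatrix.mul_apply, Finset.sum_eq_single a]
  · rw [CStarMatrix.star_apply, Cm_apply, Cm_apply, Dm_apply, if_pos rfl]
    by_cases h : a = b
    · rw [if_pos h, if_pos h]
      unfold wq wt
      split_ifs
      · rw [Complex.star_def, Complex.conj_ofReal, ← Complex.ofReal_mul,
          Real.mul_self_sqrt (by linarith)]
      · simp
    · rw [if_neg h, if_neg h, mul_zero]
  · intro c _ hc
    rw [CStarMatrix.star_apply, Cm_apply, if_neg hc, star_zero, zero_mul]
  · intro h
    exact absurd (Finset.mem_univ _) h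

theorem Sm_mul {t : ℝ} (ht : 0 ≤ t) : star (Sm n t) * Sm n t = 1 - Dm n t := by
  ext a b
  rw [CStarMatrix.mul_apply, Finset.sum_eq_single ((0 : Fin (n + 1)), a.1.succ)]
  · rw [CStarMatrix.star_apply, CStarMatrix.sub_apply, CStarMatrix.one_apply, Sm_apply, Sm_apply,
      Dm_apply]
    by_cases h : a = b
    · rw [if_pos h, if_pos h, h]
      unfold wt
      by_cases h2 : b.2 = 0
      · rw [if_pos h2, if_pos ⟨h2, rfl⟩, Complex.star_def, Complex.conj_ofReal,
          ← Complex.ofReal_mul, Real.mul_self_sqrt ht]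
        push_cast
        ring
      · rw [if_neg h2, if_neg (fun h3 => h2 h3.1), mul_zero, sub_self]
    · rw [if_neg h, if_neg h, sub_zero]
      by_cases h2 : a.2 = 0 ∧ b.2 = 0
      · rw [if_neg (fun h3 : b.2 = 0 ∧ ((0 : Fin (n + 1)), a.1.succ) = (0, b.1.succ) => h ?_),
          mul_zero]
        have h4 := Fin.succ_injective _ (Prod.mk.inj h3.2).2
        exact Prod.ext h4 (h2.1.trans h2.2.symm)
      · by_cases h3 : a.2 = 0
        · rw [if_neg (fun h4 : b.2 = 0 ∧ ((0 : Fin (n + 1)), a.1.succ) = (0, b.1.succ) =>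
            h2 ⟨h3, h4.1⟩), mul_zero]
        · rw [if_neg (fun h4 : a.2 = 0 ∧ ((0 : Fin (n + 1)), a.1.succ) = (0, a.1.succ) =>
            h3 h4.1), star_zero, zero_mul]
  · intro c _ hc
    rw [CStarMatrix.star_apply, Sm_apply, if_neg (fun h => hc h.2), star_zero, zero_mul]
  · intro h
    exact absurd (Finset.mem_univ _) h

theorem Em_Sm (t : ℝ) : Em (n := n) 0 0 t * Sm n t = Sm n t := by
  ext a b
  rw [CStarMatrix.mul_apply, Finset.sum_eq_single ((0 : Fin (n + 1)), a.2)]
  · rw [Em_apply, Sm_apply, Sm_apply]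
    by_cases h : b.2 = 0 ∧ a = (0, b.1.succ)
    · have h1 : a.1 = 0 := by rw [h.2]
      have h2 : a.2 = b.1.succ := by rw [h.2]
      rw [if_pos ⟨h1, rfl⟩, if_pos h, if_pos ⟨h.1, by rw [h2]⟩]
      unfold wt
      rw [h2, if_neg (Fin.succ_ne_zero _), one_mul]
    · rw [if_neg h]
      by_cases h1 : a.1 = 0
      · rw [if_neg (fun h2 : b.2 = 0 ∧ ((0 : Fin (n + 1)), a.2) = (0, b.1.succ) =>
          h ⟨h2.1, Prod.ext h1 (Prod.mk.inj h2.2).2⟩), mul_zero]
      · rw [if_neg (fun h2 => h1 h2.1), zero_mul]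
  · intro c _ hc
    rw [Em_apply, if_neg (fun h => hc h.2), zero_mul]
  · intro h
    exact absurd (Finset.mem_univ _) h

/-- functions -/
noncomputable def mf (X : ℝ → CStarMatrix (II n) (II n) ℂ)
    (hX : ∀ a b, Continuous fun t => X t a b) : MFun (n + 1) (n + 2) :=
  (⟨fun t => X (t : ℝ), by
    refine continuous_pi fun a => continuous_pi fun b => ?_
    exact (hX a b).comp continuous_subtype_val⟩ :
    C(unitInterval, CStarMatrix (Fin (n + 1) × Fin (n + 2)) (Fin (n + 1) × Fin (n + 2)) ℂ))

theorem mf_ev (X : ℝ → CStarMatrix (II n) (II n) ℂ) (hX : ∀ a b, Continuous fun t => X t a b)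
    (t : unitInterval) : MFun.ev t (mf X hX) = X (t : ℝ) := rfl

theorem mfun_ext {f g : MFun (n + 1) (n + 2)} (h : ∀ t, MFun.ev t f = MFun.ev t g) : f = g := by
  have h1 : ∀ t, (show C(unitInterval, CStarMatrix (Fin (n + 1) × Fin (n + 2))
      (Fin (n + 1) × Fin (n + 2)) ℂ) from f) t = (show C(unitInterval,
      CStarMatrix (Fin (n + 1) × Fin (n + 2)) (Fin (n + 1) × Fin (n + 2)) ℂ) from g) t := h
  exact ContinuousMap.ext h1

theorem wt_cont (c : Fin (n + 2)) : Continuous fun t => wt t c := by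
  unfold wt
  split_ifs <;> fun_prop

theorem wq_cont (c : Fin (n + 2)) : Continuous fun t => wq t c := by
  unfold wq
  split_ifs <;> fun_prop

theorem Em_cont (i j : Fin (n + 1)) (a b : II n) : Continuous fun t => Em i j t a b := by
  simp only [Em_apply]
  split_ifs
  · exact wt_cont _
  · exact continuous_const

theorem Cm_cont (a b : II n) : Continuous fun t => Cm n t a b := by
  simp only [Cm_apply]
  split_ifs
  · exact wq_cont _
  · exact continuous_const

theorem Sm_cont (a b : II n) : Continuous fun t => Sm n t a b := by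
  simp only [Sm_apply]
  split_ifs
  · fun_prop
  · exact continuous_const

/-- conjugation by a permutation matrix -/
theorem conj_perm (X V : CStarMatrix (II n) (II n) ℂ)
    (hV : ∀ i j, V i j = if i = flP n j then 1 else 0) (a b : II n) :
    (star V * X * V) a b = X (fl a) (fl b) := by
  have hV' : ∀ i j, V i j = if i = fl j then 1 else 0 := hV
  rw [CStarMatrix.mul_apply, Finset.sum_eq_single (fl b)]
  · rw [hV', if_pos rfl, mul_one, CStarMatrix.mul_apply, Finset.sum_eq_single (fl a)]
    · rw [CStarMatrix.star_apply, hV', if_pos rfl, star_one, one_mul]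
    · intro c _ hc
      rw [CStarMatrix.star_apply, hV', if_neg hc, star_zero, zero_mul]
    · intro h
      exact absurd (Finset.mem_univ _) h
  · intro c _ hc
    rw [hV', if_neg hc, mul_zero]
  · intro h
    exact absurd (Finset.mem_univ _) h

end DimRWAux

open DimRWAux

theorem hasRW_dimDrop (n : ℕ) : HasRW n (DimDrop (n + 1) (n + 2)) := by
  obtain ⟨W, h1, h2, h3, h4⟩ := exists_perm_path (flP n)
  set w : MFun (n + 1) (n + 2) := W with hw
  have hev : ∀ t, MFun.ev t w = W t := fun t => rfl
  have hw1 : w * star w = 1 := mfun_ext fun t => by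
    rw [map_mul, map_star, map_one, hev, h1]
  have hw2 : star w * w = 1 := mfun_ext fun t => by
    rw [map_mul, map_star, map_one, hev, h2]
  -- conjugation
  have hcj : ∀ x y : MFun (n + 1) (n + 2),
      (star w * x * w) * (star w * y * w) = star w * (x * y) * w := by
    intro x y
    calc (star w * x * w) * (star w * y * w) = star w * x * (w * star w) * y * w := by
          simp only [mul_assoc]
      _ = star w * (x * y) * w := by
          rw [hw1, mul_one]
          simp only [mul_assoc]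
  have hcs : ∀ x : MFun (n + 1) (n + 2), star (star w * x * w) = star w * star x * w := by
    intro x
    rw [star_mul, star_mul, star_star, mul_assoc]
  -- membership
  have hmem : ∀ (X : ℝ → CStarMatrix (II n) (II n) ℂ) (hX : ∀ a b, Continuous fun t => X t a b),
      (∃ x : Fin (n + 1) → Fin (n + 1) → ℂ, ∀ a b, X 0 a b = if a.2 = b.2 then x a.1 b.1 else 0) →
      (∃ y : Fin (n + 2) → Fin (n + 2) → ℂ, ∀ a b : II n,
        X 1 (fl a) (fl b) = if a.1 = b.1 then y a.2 b.2 else 0) →
      star w * mf X hX * w ∈ DimDrop (n + 1) (n + 2) := by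
    rintro X hX ⟨x, hx⟩ ⟨y, hy⟩
    refine ⟨⟨x, fun a b => ?_⟩, ⟨y, fun a b => ?_⟩⟩
    · rw [map_mul, map_mul, map_star, hev, h3, star_one, one_mul, mul_one, mf_ev]
      exact hx a b
    · rw [map_mul, map_mul, map_star, hev, mf_ev, ← hy]
      exact conj_perm (X 1) (W 1) h4 a b
  have hE : ∀ i j, star w * mf (Em (n := n) i j) (Em_cont i j) * w ∈ DimDrop (n + 1) (n + 2) := by
    intro i j
    refine hmem _ _ ⟨fun u v => if u = i ∧ v = j then 1 else 0, fun a b => ?_⟩
      ⟨fun u v => if u = i.succ ∧ v = j.succ then 1 else 0, fun a b => ?_⟩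
    · dsimp only
      rw [Em_apply]
      have hwt : wt 0 a.2 = 1 := by
        unfold wt
        split_ifs <;> simp
      rw [hwt]
      by_cases h : a.2 = b.2
      · rw [if_pos h]
        by_cases h' : a.1 = i ∧ b.1 = j
        · rw [if_pos h', if_pos ⟨h'.1, Prod.ext h'.2 h.symm⟩]
        · rw [if_neg h', if_neg (fun h'' => h' ⟨h''.1, by rw [h''.2]⟩)]
      · rw [if_neg h, if_neg (fun h'' => h (by rw [h''.2]))]
    · obtain ⟨a1, a2⟩ := a
      obtain ⟨b1, b2⟩ := b
      dsimp only
      rw [Em_apply]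
      refine Fin.cases ?_ (fun k => ?_) a2
      · have hwt : wt 1 (fl (a1, (0 : Fin (n + 2)))).2 = 0 := by
          unfold wt
          rw [fl_zero, if_pos rfl]
          simp
        rw [hwt, ite_self]
        simp [(Fin.succ_ne_zero i).symm]
      · rw [fl_succ]
        have hwt : wt 1 a1.succ = 1 := by
          unfold wt
          rw [if_neg (Fin.succ_ne_zero _)]
        rw [hwt]
        refine Fin.cases ?_ (fun m => ?_) b2
        · rw [fl_zero]
          rw [if_neg (fun h => Fin.succ_ne_zero a1 (Prod.mk.inj h.2).2.symm)]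
          simp [(Fin.succ_ne_zero j).symm]
        · rw [fl_succ]
          by_cases h : a1 = b1
          · subst h
            rw [if_pos rfl]
            by_cases h' : k = i ∧ m = j
            · rw [if_pos ⟨h'.1, by rw [h'.2]⟩, if_pos ⟨by rw [h'.1], by rw [h'.2]⟩]
            · rw [if_neg, if_neg]
              · rintro ⟨h5, h6⟩
                exact h' ⟨Fin.succ_injective _ h5, Fin.succ_injective _ h6⟩
              · rintro ⟨h5, h6⟩
                exact h' ⟨h5, (Prod.mk.inj h6).1⟩
          · rw [if_neg h, if_neg]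
            rintro ⟨h5, h6⟩
            exact h (Fin.succ_injective _ (Prod.mk.inj h6).2).symm
  have hC : star w * mf (Cm n) Cm_cont * w ∈ DimDrop (n + 1) (n + 2) := by
    refine hmem _ _ ⟨fun u v => if u = v then 1 else 0, fun a b => ?_⟩
      ⟨fun u v => if u = v ∧ u ≠ 0 then 1 else 0, fun a b => ?_⟩
    · dsimp only
      rw [Cm_apply]
      have hwt : wq 0 a.2 = 1 := by
        unfold wq
        split_ifs <;> simp
      rw [hwt]
      by_cases h : a.2 = b.2
      · rw [if_pos h]
        by_cases h' : a.1 = b.1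
        · rw [if_pos h', if_pos (Prod.ext h' h)]
        · rw [if_neg h', if_neg (fun h'' => h' (by rw [h'']))]
      · rw [if_neg h, if_neg (fun h'' => h (by rw [h'']))]
    · dsimp only
      rw [Cm_apply]
      have hab : fl a = fl b ↔ a = b := (flP n).injective.eq_iff
      by_cases h : a = b
      · subst h
        rw [if_pos rfl, if_pos rfl]
        obtain ⟨a1, a2⟩ := a
        refine Fin.cases ?_ (fun k => ?_) a2
        · rw [fl_zero]
          unfold wq
          simp
        · rw [fl_succ]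
          unfold wq
          simp [Fin.succ_ne_zero]
      · rw [if_neg (fun h' => h (hab.1 h'))]
        by_cases h' : a.1 = b.1
        · rw [if_pos h', if_neg (fun h'' => h (Prod.ext h' h''.1))]
        · rw [if_neg h']
  have hS : star w * mf (Sm n) Sm_cont * w ∈ DimDrop (n + 1) (n + 2) := by
    refine hmem _ _ ⟨fun _ _ => 0, fun a b => ?_⟩
      ⟨fun u v => if u = Fin.succ 0 ∧ v = 0 then 1 else 0, fun a b => ?_⟩
    · rw [Sm_apply, Real.sqrt_zero]
      simp
    · obtain ⟨a1, a2⟩ := a
      obtain ⟨b1, b2⟩ := b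
      dsimp only
      rw [Sm_apply, Real.sqrt_one]
      refine Fin.cases ?_ (fun m => ?_) b2
      · rw [fl_zero]
        refine Fin.cases ?_ (fun k => ?_) a2
        · rw [fl_zero, if_neg (fun h => Fin.succ_ne_zero b1 (Prod.mk.inj h.2).2.symm)]
          simp
        · rw [fl_succ]
          by_cases h : a1 = b1
          · subst h
            rw [if_pos rfl]
            by_cases h' : k = 0
            · rw [if_pos ⟨rfl, by rw [h']⟩, if_pos ⟨by rw [h'], rfl⟩]
              simp
            · rw [if_neg (fun h5 => h' (Prod.mk.inj h5.2).1),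
                if_neg (fun h5 => h' (Fin.succ_injective _ h5.1))]
          · rw [if_neg h, if_neg]
            rintro ⟨_, h6⟩
            exact h (Fin.succ_injective _ (Prod.mk.inj h6).2)
      · rw [fl_succ]
        rw [if_neg (fun h => Fin.succ_ne_zero b1 h.1)]
        simp
  have hsumE : ∑ m, mf (Em (n := n) m m) (Em_cont m m) =
      mf (Dm n) (fun a b => by
        simp only [Dm_apply]
        split_ifs
        · exact wt_cont _
        · exact continuous_const) := mfun_ext fun t => by
    rw [map_sum, mf_ev, ← sum_Em]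
    rfl
  refine ⟨fun i j => ⟨_, hE i j⟩, ⟨_, hS⟩, ?_⟩
  have hsum : ((∑ m, (⟨_, hE m m⟩ : DimDrop (n + 1) (n + 2)) : DimDrop (n + 1) (n + 2)) :
      MFun (n + 1) (n + 2)) = star w * (∑ m, mf (Em (n := n) m m) (Em_cont m m)) * w := by
    rw [AddSubmonoidClass.coe_finsetSum, Finset.mul_sum, Finset.sum_mul]
  constructor
  · intro i j
    apply Subtype.ext
    change star (star w * mf (Em (n := n) i j) (Em_cont i j) * w) =
      star w * mf (Em (n := n) j i) (Em_cont j i) * w
    rw [hcs]
    congr 2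
    refine mfun_ext fun t => ?_
    rw [map_star, mf_ev, mf_ev, star_Em]
  · intro i j k l
    apply Subtype.ext
    have e1 : ∀ P : Prop, ∀ [Decidable P], ∀ x : DimDrop (n + 1) (n + 2),
        ((if P then x else 0 : DimDrop (n + 1) (n + 2)) : MFun (n + 1) (n + 2)) =
          if P then (x : MFun (n + 1) (n + 2)) else 0 := by
      intro P _ x
      split_ifs <;> rfl
    rw [e1]
    change (star w * mf (Em (n := n) i j) (Em_cont i j) * w) *
      (star w * mf (Em (n := n) k l) (Em_cont k l) * w) = if j = k then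
        ((∑ m, (⟨_, hE m m⟩ : DimDrop (n + 1) (n + 2)) : DimDrop (n + 1) (n + 2)) :
          MFun (n + 1) (n + 2)) * (star w * mf (Em (n := n) i l) (Em_cont i l) * w) else 0
    rw [hsum, hcj, hcj]
    by_cases hjk : j = k
    · rw [if_pos hjk]
      congr 2
      rw [hsumE]
      refine mfun_ext fun t => ?_
      rw [map_mul, map_mul, mf_ev, mf_ev, mf_ev, mf_ev, Em_mul, if_pos hjk]
    · rw [if_neg hjk]
      have h0 : mf (Em (n := n) i j) (Em_cont i j) * mf (Em (n := n) k l) (Em_cont k l) = 0 :=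
        mfun_ext fun t => by
          rw [map_mul, mf_ev, mf_ev, Em_mul, if_neg hjk, map_zero]
      rw [h0, mul_zero, zero_mul]
  · refine ⟨⟨_, hC⟩, Subtype.ext ?_⟩
    change ((∑ m, (⟨_, hE m m⟩ : DimDrop (n + 1) (n + 2)) : DimDrop (n + 1) (n + 2)) :
          MFun (n + 1) (n + 2)) = star (star w * mf (Cm n) Cm_cont * w) *
            (star w * mf (Cm n) Cm_cont * w)
    rw [hsum, hcs, hcj, hsumE]
    congr 2
    refine mfun_ext fun t => ?_
    rw [map_mul, map_star, mf_ev, mf_ev, Cm_mul t.2.2]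
  · apply Subtype.ext
    change star (star w * mf (Sm n) Sm_cont * w) * (star w * mf (Sm n) Sm_cont * w) =
      1 - ((∑ m, (⟨_, hE m m⟩ : DimDrop (n + 1) (n + 2)) : DimDrop (n + 1) (n + 2)) :
          MFun (n + 1) (n + 2))
    have e2 : star w * 1 * w = 1 := by rw [mul_one, hw2]
    rw [hsum, hcs, hcj, hsumE, ← e2, ← sub_mul, ← mul_sub]
    congr 2
    refine mfun_ext fun t => ?_
    rw [map_mul, map_star, mf_ev, map_sub, map_one, mf_ev, Sm_mul t.2.1]
  · apply Subtype.ext
    change (star w * mf (Em (n := n) 0 0) (Em_cont 0 0) * w) * (star w * mf (Sm n) Sm_cont * w) =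
      star w * mf (Sm n) Sm_cont * w
    rw [hcj]
    congr 2
    refine mfun_ext fun t => ?_
    rw [map_mul, mf_ev, mf_ev, Em_Sm]

end Pool.Agent.Lib.EJS
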