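import Mathlib

/-!
# Drop systems: definition
-/

open scoped ComplexOrder
open Filter Topology

namespace Pool.Agent.Lib.EJS

/-- the flip of the index set: `(i, 0) ↦ (i, 0)` and `(i, k.succ) ↦ (k, i.succ)` -/
def flipI {n : ℕ} (a : Fin (n + 1) × Fin (n + 2)) : Fin (n + 1) × Fin (n + 2) :=
  Fin.cases (motive := fun _ => Fin (n + 1) × Fin (n + 2)) (a.1, 0) (fun k => (k, a.1.succ)) a.2

/-- A system of local matrix units over the central element `k` with spectrum in `[0,1]`: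
`X` for `M_{n+1}` over `[0, 3/4)`, `Y` for `M_{n+2}` over `(1/4, 1]`, `Z` for `M_{(n+1)(n+2)}` over
`(1/4, 3/4)`; there `X i j = E_ij ⊗ 1` and `Y a b` is the flip of `1 ⊗ E_ab`. -/
structure DropSys {E : Type*} [CStarAlgebra E] (n : ℕ) (k : E) (X : Fin (n + 1) → Fin (n + 1) → E)
    (Y : Fin (n + 2) → Fin (n + 2) → E)
    (Z : Fin (n + 1) × Fin (n + 2) → Fin (n + 1) × Fin (n + 2) → E) : Prop where
  sa : IsSelfAdjoint k
  spec : spectrum ℝ k ⊆ Set.Icc 0 1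
  comm_X : ∀ i j, Commute k (X i j)
  comm_Y : ∀ i j, Commute k (Y i j)
  comm_Z : ∀ i j, Commute k (Z i j)
  star_X : ∀ i j, star (X i j) = X j i
  star_Y : ∀ i j, star (Y i j) = Y j i
  star_Z : ∀ i j, star (Z i j) = Z j i
  mul_X : ∀ g : ℝ → ℝ, Continuous g → (∀ t, 3 / 4 ≤ t → g t = 0) → ∀ i j i' j',
    X i j * X i' j' * cfc g k = (if j = i' then X i j' else 0) * cfc g k
  sum_X : ∀ g : ℝ → ℝ, Continuous g → (∀ t, 3 / 4 ≤ t → g t = 0) → (∑ i, X i i) * cfc g k = cfc g k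
  mul_Y : ∀ g : ℝ → ℝ, Continuous g → (∀ t, t ≤ 1 / 4 → g t = 0) → ∀ i j i' j',
    Y i j * Y i' j' * cfc g k = (if j = i' then Y i j' else 0) * cfc g k
  sum_Y : ∀ g : ℝ → ℝ, Continuous g → (∀ t, t ≤ 1 / 4 → g t = 0) → (∑ i, Y i i) * cfc g k = cfc g k
  mul_Z : ∀ g : ℝ → ℝ, Continuous g → (∀ t, t ≤ 1 / 4 → g t = 0) → (∀ t, 3 / 4 ≤ t → g t = 0) →
    ∀ i j i' j', Z i j * Z i' j' * cfc g k = (if j = i' then Z i j' else 0) * cfc g k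
  X_Z : ∀ g : ℝ → ℝ, Continuous g → (∀ t, t ≤ 1 / 4 → g t = 0) → (∀ t, 3 / 4 ≤ t → g t = 0) →
    ∀ i j, X i j * cfc g k = (∑ b, Z (i, b) (j, b)) * cfc g k
  Y_Z : ∀ g : ℝ → ℝ, Continuous g → (∀ t, t ≤ 1 / 4 → g t = 0) → (∀ t, 3 / 4 ≤ t → g t = 0) →
    ∀ a b, Y a b * cfc g k = (∑ i, Z (flipI (i, a)) (flipI (i, b))) * cfc g k

end Pool.Agent.Lib.EJS
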