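import Pool.Agent.Lib.EJS.Common
import Pool.Agent.Lib.EJS.DropSys

/-!
# A Rordam-Winter pair gives a drop system

PROOF.  Let `e, s` be the pair, `h = ∑ e m m`, `0 ≤ h ≤ 1` (`h = c* c`, `1 - h = s* s`).
Elementary relations: `h * e i j = e i i * e i j = e i j * h` (so `h` commutes with the `e i j`);
`h * e 0 0 = e 0 0 * e 0 0`, hence `h * s = h * e 0 0 * s = e 0 0 * e 0 0 * s = s`, so `g(h) * s = g(1) * s`
for continuous `g`;  `(e i 0 * s)* (e j 0 * s) = s* (e 0 i * e j 0) s = δ_ij s* (h * e 0 0) s = δ_ij s* s =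
δ_ij (1 - h)`.
Put `k := (1 - h) + ∑ i, e i 0 * s * s* * e 0 i`.
It helps to think of the standard picture `e i j = E_ij ⊗ diag(1-t,1,...,1)`,
`s = √t ∑ l E_{0 l} ⊗ F_{l.succ,0}`, where `k = t`, but all relations have to be derived from those of the
pair.  `k` is self-adjoint, positive, and commutes with all `e i j` and with `s`:
`k e i j = (1-h) e i j + e i 0 s s* e 0 i e i j = (1-h) e i j + e i 0 s s* e 0 j h` (use
`e 0 i * e i j = h * e 0 j`) and `e 0 j h = h e 0 j`, `s* h = s*`, so it is
`(1-h) e i j + e i 0 s s* e 0 j`, symmetric under adjoint with `i ↔ j`, whence it equals `e i j k`.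
`k s = (1-h) s + e 0 0 s s* e 0 0 s + 0 = s s* s = s (1-h)` (use `(1-h)s = 0`, and
`e 0 i s = e 0 i e 0 0 s = 0` for `i ≠ 0`), and `s k = s (1-h) + ∑ s e i 0 s s* e 0 i` where
`s e i 0 s = s h e i 0 s - ... `: from `s* s = 1 - h` and `h s = s` one gets `s* s e i 0 s =
(1-h) e i 0 s = e i 0 (1-h) s = 0`, so `s e i 0 s = 0`.  Hence `s k = s (1-h) = k s`.
`k ≤ 1`: the summand `r := ∑ e i 0 s s* e 0 i` has `r² = ∑ e i 0 s (s* e 0 i e i 0 s) s* e 0 i =
∑ e i 0 s (1-h) s* e 0 i`, and `(1-h) r = 0` (as `(1-h) e i 0 s = e i 0 (1-h) s = 0`), so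
`k² = (1-h)² + ∑ e i 0 s (1-h) s* e 0 i ≤ (1-h) + r = k`, hence `0 ≤ k ≤ 1`.  More precisely
`g(k) = g(1-h) + ∑ e i 0 s ĝ(1-h) s* e 0 i` for `g(t) = t ĝ(t)`, in particular
`k (1-h) = (1-h)²`, so `g(k) (1-h) = g(1-h) (1-h)`, and `1 - h ≤ k`.
Let `r : ℝ → ℝ` be continuous with `r t = 1/t` for `t ≥ 1/4` and `w : ℝ → ℝ` continuous, `w t = 1/t` for
`t ≥ 1/4`, and `v t = 1/√t` for `t ≥ 1/4`.  Put
`X i j = e i j * r(h)`;
`Y 0 0 = (1-h) w(k)`, `Y l.succ 0 = e l 0 * s * v(k)`, `Y 0 l.succ = star (Y l.succ 0)`,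
`Y l.succ m.succ = e l 0 * s * s* * e 0 m * w(k)`;
`C (i, 0) = X i 0 * Y 0 0`, `C (i, l.succ) = X i 0 * (s * v(k)) * X l 0 * Y 0 0` (maps from the corner
`E_00 ⊗ F_00`), and `Z a b = C a * (C b)*`.
Relations for `g` with `g = 0` on `[3/4, ∞)`: `(1 - h r(h)) g(k) = 0` because `1 - h ≤ k` commute, so on
the part where `h < 1/4` we have `k > 3/4` (formally: `b := (1 - h r(h))² g(k)²  ≥ 0` satisfies
`b (1-h) ≥ (3/4) b` and `b (1-h) ≤ b k ≤ ...`; or use a two variable argument in the commutative
subalgebra).  Similarly `(1 - k w(k)) g(k) = 0` for `g = 0` on `(-∞, 1/4]`.  Everything else is algebra.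
One may choose other formulas as long as `DropSys` holds.
-/

open scoped ComplexOrder
open Filter Topology

namespace Pool.Agent.Lib.EJS

namespace DropOfRWAux

variable {E : Type*} [CStarAlgebra E]

theorem aeval_intertwine {x y z : E} (h : x * z = z * y) (P : Polynomial ℝ) :
    Polynomial.aeval x P * z = z * Polynomial.aeval y P := by
  induction P using Polynomial.induction_on' with
  | add p q hp hq => simp only [map_add, add_mul, mul_add, hp, hq]
  | monomial n a =>
    have h1 : SemiconjBy z y x := h.symm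
    have h2 : z * y ^ n = x ^ n * z := (h1.pow_right n)
    rw [Polynomial.aeval_monomial, Polynomial.aeval_monomial, mul_assoc, ← h2, ← mul_assoc,
      ← mul_assoc, Algebra.commutes]

theorem cfc_intertwine {x y z : E} (hx : IsSelfAdjoint x) (hy : IsSelfAdjoint y)
    (h : x * z = z * y) {g : ℝ → ℝ} (hg : Continuous g) : cfc g x * z = z * cfc g y := by
  obtain ⟨R, hR⟩ : ∃ R : ℝ, spectrum ℝ x ∪ spectrum ℝ y ⊆ Set.Icc (-R) R := by
    have h1 := ((ContinuousFunctionalCalculus.isCompact_spectrum (R := ℝ) x).union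
      (ContinuousFunctionalCalculus.isCompact_spectrum (R := ℝ) y)).isBounded
    obtain ⟨R, hR⟩ := h1.subset_closedBall 0
    refine ⟨R, hR.trans ?_⟩
    rw [Real.closedBall_eq_Icc]
    simp
  have hb : ∀ ε : ℝ, 0 < ε → ‖cfc g x * z - z * cfc g y‖ ≤ 2 * ε * ‖z‖ := by
    intro ε hε
    obtain ⟨P, hP⟩ := exists_polynomial_near_of_continuousOn (-R) R g hg.continuousOn ε hε
    have e1 : ∀ w : E, IsSelfAdjoint w → spectrum ℝ w ⊆ Set.Icc (-R) R →
        ‖cfc g w - Polynomial.aeval w P‖ ≤ ε := by
      intro w hw hs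
      rw [← cfc_polynomial P w, ← cfc_sub g P.eval w]
      refine norm_cfc_le hε.le fun t ht => ?_
      rw [Real.norm_eq_abs, abs_sub_comm]
      exact (hP t (hs ht)).le
    have e2 : cfc g x * z - z * cfc g y = (cfc g x - Polynomial.aeval x P) * z -
        z * (cfc g y - Polynomial.aeval y P) := by
      rw [sub_mul, mul_sub, aeval_intertwine h P]
      abel
    rw [e2]
    have e3 := e1 x hx (Set.subset_union_left.trans hR)
    have e4 := e1 y hy (Set.subset_union_right.trans hR)
    calc _ ≤ ‖(cfc g x - Polynomial.aeval x P) * z‖ + ‖z * (cfc g y - Polynomial.aeval y P)‖ :=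
          norm_sub_le _ _
      _ ≤ ε * ‖z‖ + ‖z‖ * ε := by
          refine add_le_add ((norm_mul_le _ _).trans ?_) ((norm_mul_le _ _).trans ?_)
          · exact mul_le_mul_of_nonneg_right e3 (norm_nonneg _)
          · exact mul_le_mul_of_nonneg_left e4 (norm_nonneg _)
      _ = 2 * ε * ‖z‖ := by ring
  have h0 : ‖cfc g x * z - z * cfc g y‖ ≤ 0 := by
    refine le_of_forall_pos_le_add fun δ hδ => ?_
    have h1 := hb (δ / (2 * (‖z‖ + 1))) (by positivity)
    refine h1.trans ?_
    have h2 : 0 ≤ ‖z‖ := norm_nonneg _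
    rw [zero_add]
    calc 2 * (δ / (2 * (‖z‖ + 1))) * ‖z‖ = δ * (‖z‖ / (‖z‖ + 1)) := by
          field_simp
      _ ≤ δ * 1 := by
          refine mul_le_mul_of_nonneg_left ?_ hδ.le
          rw [div_le_one (by positivity)]
          linarith
      _ = δ := mul_one _
  exact sub_eq_zero.1 (norm_le_zero_iff.1 h0)


/-- the data: matrix units `e` of order zero with `∑ e m m = 1 - p`, and a column `b` with
`b a* b c = δ p`. -/
structure Dat (n : ℕ) (e : Fin (n + 1) → Fin (n + 1) → E) (b : Fin (n + 2) → E) (p k : E) :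
    Prop where
  sa_p : IsSelfAdjoint p
  star_e : ∀ i j, star (e i j) = e j i
  mul_e : ∀ i j k l, e i j * e k l = if j = k then (1 - p) * e i l else 0
  sum_e : ∑ m, e m m = 1 - p
  pe : ∀ i j, p * e i j = e i j * p
  bb : ∀ a c, star (b a) * b c = if a = c then p else 0
  k_def : k = ∑ a, b a * star (b a)
  eb : ∀ i j l, e i j * b (Fin.succ l) = if j = l then b (Fin.succ i) else 0
  e0 : ∀ i j, e i j * b 0 = b 0 * e i j
  sa_b : star (b 0) = b 0
  hpos : ∃ c, 1 - p = star c * c

theorem star_zero_of {x : E} (h : star x * x = 0) : x = 0 :=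
  (CStarRing.star_mul_self_eq_zero_iff x).1 h

theorem exists_dat {n : ℕ} (h : HasRW n E) :
    ∃ (e : Fin (n + 1) → Fin (n + 1) → E) (b : Fin (n + 2) → E) (p k : E), Dat n e b p k := by
  obtain ⟨e, s, h⟩ := h
  obtain ⟨c, hc⟩ := h.pos
  obtain ⟨p, hp⟩ : ∃ p : E, p = star s * s := ⟨_, rfl⟩
  have hh : ∑ m, e m m = 1 - p := by rw [hp, h.star_s]; abel
  have sa_p : IsSelfAdjoint p := by rw [hp]; exact IsSelfAdjoint.star_mul_self s
  have mul_e : ∀ i j k l, e i j * e k l = if j = k then (1 - p) * e i l else 0 := by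
    intro i j k l
    rw [h.mul_e, hh]
  -- `h` commutes with the matrix units
  have he : ∀ i l, (1 - p) * e i l = e i l * (1 - p) := by
    intro i l
    conv_rhs => rw [← hh, Finset.mul_sum]
    rw [Finset.sum_eq_single l]
    · rw [mul_e, if_pos rfl]
    · intro m _ hm
      rw [mul_e, if_neg (Ne.symm hm)]
    · intro hm
      exact absurd (Finset.mem_univ _) hm
  have pe : ∀ i j, p * e i j = e i j * p := by
    intro i j
    have h1 := he i j
    rw [sub_mul, mul_sub, one_mul, mul_one] at h1
    exact sub_right_injective h1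
  have hs1 : (1 - p) * s = s := by
    calc (1 - p) * s = ((1 - p) * e 0 0) * s := by rw [mul_assoc, h.e_s]
      _ = (e 0 0 * e 0 0) * s := by rw [mul_e, if_pos rfl]
      _ = s := by rw [mul_assoc, h.e_s, h.e_s]
  have ps : p * s = 0 := by
    rw [sub_mul, one_mul] at hs1
    exact sub_eq_self.1 hs1
  have he0s : ∀ i, (1 - p) * (e i 0 * s) = e i 0 * s := by
    intro i
    rw [← mul_assoc, he, mul_assoc, hs1]
  obtain ⟨q, hq⟩ : ∃ q : E, q = cfc Real.sqrt p := ⟨_, rfl⟩
  have sa_q : star q = q := by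
    rw [hq]
    exact (cfc_predicate Real.sqrt p : IsSelfAdjoint _)
  have qq : q * q = p := by
    rw [hq, ← cfc_mul Real.sqrt Real.sqrt p (by fun_prop) (by fun_prop)]
    conv_rhs => rw [← cfc_id ℝ p sa_p]
    refine cfc_congr fun t ht => ?_
    have ht0 : 0 ≤ t := by
      rw [hp] at ht
      exact spectrum_star_mul_self_nonneg t ht
    exact Real.mul_self_sqrt ht0
  have qe : ∀ i j, e i j * q = q * e i j := by
    intro i j
    rw [hq]
    exact ((show Commute p (e i j) from pe i j).cfc_real Real.sqrt).eq.symm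
  have qs : q * s = 0 := by
    apply star_zero_of
    rw [star_mul, sa_q, mul_assoc, ← mul_assoc q q s, qq, ps, mul_zero]
  have qes : ∀ l, q * (e l 0 * s) = 0 := by
    intro l
    rw [← mul_assoc, ← qe, mul_assoc, qs, mul_zero]
  refine ⟨e, Fin.cases q (fun l => e l 0 * s), p, _, sa_p, h.star_e, mul_e, hh, pe, ?_, rfl, ?_,
    ?_, ?_, ⟨c, by rw [← hh, hc]⟩⟩
  · intro a c
    refine Fin.cases ?_ (fun l => ?_) a
    · refine Fin.cases ?_ (fun m => ?_) c
      · show star q * q = _
        rw [sa_q, qq, if_pos rfl]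
      · show star q * (e m 0 * s) = _
        rw [sa_q, qes, if_neg (Fin.succ_ne_zero m).symm]
    · refine Fin.cases ?_ (fun m => ?_) c
      · show star (e l 0 * s) * q = _
        rw [if_neg (Fin.succ_ne_zero l)]
        have h1 : star (star (e l 0 * s) * q) = 0 := by
          rw [star_mul, star_star, sa_q, qes]
        rw [← star_star (star (e l 0 * s) * q), h1, star_zero]
      · show star (e l 0 * s) * (e m 0 * s) = _
        rw [star_mul, h.star_e, mul_assoc, ← mul_assoc (e 0 l) (e m 0) s, mul_e]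
        by_cases hlm : l = m
        · subst hlm
          rw [if_pos rfl, if_pos rfl, mul_assoc, h.e_s, hs1, hp]
        · rw [if_neg hlm, if_neg (fun hc => hlm (Fin.succ_injective _ hc)), zero_mul, mul_zero]
  · intro i j l
    show e i j * (e l 0 * s) = if j = l then e i 0 * s else 0
    rw [← mul_assoc, mul_e]
    by_cases hjl : j = l
    · rw [if_pos hjl, if_pos hjl, mul_assoc, he0s]
    · rw [if_neg hjl, if_neg hjl, zero_mul]
  · intro i j
    exact qe i j
  · exact sa_q

section

variable {n : ℕ} {e : Fin (n + 1) → Fin (n + 1) → E} {b : Fin (n + 2) → E} {p k : E}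

theorem Dat.kb (h : Dat n e b p k) (a : Fin (n + 2)) : k * b a = b a * p := by
  rw [h.k_def, Finset.sum_mul, Finset.sum_eq_single a]
  · rw [mul_assoc, h.bb, if_pos rfl]
  · intro c _ hc
    rw [mul_assoc, h.bb, if_neg hc, mul_zero]
  · intro hc
    exact absurd (Finset.mem_univ _) hc

theorem Dat.sa_k (h : Dat n e b p k) : IsSelfAdjoint k := by
  rw [h.k_def, IsSelfAdjoint, star_sum]
  refine Finset.sum_congr rfl fun a _ => ?_
  rw [star_mul, star_star]

theorem Dat.bk (h : Dat n e b p k) (a : Fin (n + 2)) : star (b a) * k = p * star (b a) := by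
  have h1 := congrArg star (h.kb a)
  rw [star_mul, star_mul, h.sa_k.star_eq, h.sa_p.star_eq] at h1
  exact h1

theorem Dat.b0 (h : Dat n e b p k) : b 0 * b 0 = p := by
  have h1 := h.bb 0 0
  rwa [if_pos rfl, h.sa_b] at h1

theorem Dat.b0p (h : Dat n e b p k) : b 0 * p = p * b 0 := by
  rw [← h.b0, mul_assoc]

theorem Dat.kp (h : Dat n e b p k) : k * p = p * p := by
  calc k * p = k * b 0 * b 0 := by rw [mul_assoc, h.b0]
    _ = b 0 * p * b 0 := by rw [h.kb]
    _ = p * (b 0 * b 0) := by rw [h.b0p, mul_assoc]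
    _ = p * p := by rw [h.b0]

theorem Dat.pk (h : Dat n e b p k) : p * k = p * p := by
  have h1 := congrArg star h.kp
  rw [star_mul, star_mul, h.sa_k.star_eq, h.sa_p.star_eq] at h1
  exact h1

theorem Dat.ke1 (h : Dat n e b p k) (i j : Fin (n + 1)) :
    k * e i j = p * e i j + b (Fin.succ i) * star (b (Fin.succ j)) := by
  rw [h.k_def, Finset.sum_mul, Fin.sum_univ_succ]
  congr 1
  · rw [h.sa_b, h.b0]
  · rw [Finset.sum_eq_single i]
    · have h1 : star (b (Fin.succ i)) * e i j = star (b (Fin.succ j)) := by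
        have h2 := congrArg star (h.eb j i i)
        rw [if_pos rfl, star_mul, h.star_e] at h2
        exact h2
      rw [mul_assoc, h1]
    · intro l _ hl
      have h1 : star (b (Fin.succ l)) * e i j = 0 := by
        have h2 := congrArg star (h.eb j i l)
        rw [if_neg (Ne.symm hl), star_mul, h.star_e, star_zero] at h2
        exact h2
      rw [mul_assoc, h1, mul_zero]
    · intro hc
      exact absurd (Finset.mem_univ _) hc

theorem Dat.ke2 (h : Dat n e b p k) (i j : Fin (n + 1)) :
    e i j * k = p * e i j + b (Fin.succ i) * star (b (Fin.succ j)) := by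
  have h1 := congrArg star (h.ke1 j i)
  rw [star_mul, star_add, star_mul, star_mul, star_star, h.star_e, h.sa_k.star_eq,
    h.sa_p.star_eq, ← h.pe] at h1
  exact h1

theorem Dat.ke (h : Dat n e b p k) (i j : Fin (n + 1)) : Commute k (e i j) := by
  show k * e i j = e i j * k
  rw [h.ke1, h.ke2]

theorem Dat.comm_kp (h : Dat n e b p k) : Commute k p := by
  show k * p = p * k
  rw [h.kp, h.pk]

theorem Dat.gp (h : Dat n e b p k) {g : ℝ → ℝ} (hg : Continuous g) :
    p * cfc g k = p * cfc g p := by
  have h1 := cfc_intertwine h.sa_k h.sa_p (h.kb 0) hg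
  have h2 : Commute (cfc g p) (b 0) :=
    (show Commute p (b 0) from h.b0p.symm).cfc_real g
  have h3 : cfc g k * p = p * cfc g p := by
    calc cfc g k * p = cfc g k * b 0 * b 0 := by rw [mul_assoc, h.b0]
      _ = b 0 * (cfc g p * b 0) := by rw [h1, mul_assoc]
      _ = b 0 * (b 0 * cfc g p) := by rw [h2.eq]
      _ = p * cfc g p := by rw [← mul_assoc, h.b0]
  rw [← h3]
  exact (h.comm_kp.cfc_real g).eq.symm

/-- `1 / (1 - t)` -/
noncomputable def rr (t : ℝ) : ℝ := 1 / max (1 - t) (1 / 4)

/-- `1 / t` -/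
noncomputable def ww (t : ℝ) : ℝ := 1 / max t (1 / 4)

/-- `1 / (t (1 - t)²)` -/
noncomputable def ff (t : ℝ) : ℝ := ww t * (rr t * rr t)

theorem max_pos (x : ℝ) : 0 < max x (1 / 4) := lt_of_lt_of_le (by norm_num) (le_max_right _ _)

theorem continuous_rr : Continuous rr := by
  unfold rr
  exact continuous_const.div (by fun_prop) fun t => (max_pos _).ne'

theorem continuous_ww : Continuous ww := by
  unfold ww
  exact continuous_const.div (by fun_prop) fun t => (max_pos _).ne'

theorem continuous_ff : Continuous ff :=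
  continuous_ww.mul (continuous_rr.mul continuous_rr)

theorem rr_eq {t : ℝ} (ht : t ≤ 3 / 4) : (1 - t) * rr t = 1 := by
  unfold rr
  rw [max_eq_left (by linarith), mul_one_div, div_self (by linarith)]

theorem ww_eq {t : ℝ} (ht : 1 / 4 ≤ t) : t * ww t = 1 := by
  unfold ww
  rw [max_eq_left ht, mul_one_div, div_self (by linarith)]

theorem cfc_one_sub {x : E} (hx : IsSelfAdjoint x) : cfc (fun t : ℝ => 1 - t) x = 1 - x := by
  rw [cfc_sub (fun _ : ℝ => 1) (fun t : ℝ => t) x, cfc_const_one ℝ x, cfc_id' ℝ x]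

theorem Dat.lemA (h : Dat n e b p k) {g : ℝ → ℝ} (hg : Continuous g)
    (hg0 : ∀ t, 3 / 4 ≤ t → g t = 0) : (1 - p) * cfc rr p * cfc g k = cfc g k := by
  have hsa := h.sa_p
  obtain ⟨mh, hmh⟩ : ∃ mh : ℝ → ℝ, mh = fun t => (1 - (1 - t) * rr t) / max t (3 / 4) := ⟨_, rfl⟩
  have hm34 : ∀ t : ℝ, 0 < max t (3 / 4) := fun t => lt_of_lt_of_le (by norm_num) (le_max_right _ _)
  have hcm : Continuous mh := by
    rw [hmh]
    have := continuous_rr
    exact Continuous.div (by fun_prop) (by fun_prop) fun t => (hm34 t).ne'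
  have hmt : ∀ t, 1 - (1 - t) * rr t = mh t * t := by
    intro t
    rw [hmh]
    show 1 - (1 - t) * rr t = (1 - (1 - t) * rr t) / max t (3 / 4) * t
    rcases le_total t (3 / 4) with ht | ht
    · rw [rr_eq ht]
      simp
    · rw [max_eq_left ht, div_mul_cancel₀ _ (by linarith)]
  have h1 : 1 - (1 - p) * cfc rr p = cfc mh p * p := by
    have e1 : (1 - p) * cfc rr p = cfc (fun t => (1 - t) * rr t) p := by
      rw [cfc_mul (fun t : ℝ => 1 - t) rr p (by fun_prop) continuous_rr.continuousOn,
        cfc_one_sub hsa]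
    have e2 : cfc (fun t => 1 - (1 - t) * rr t) p = 1 - cfc (fun t => (1 - t) * rr t) p := by
      have := continuous_rr
      rw [cfc_sub (fun _ : ℝ => 1) (fun t : ℝ => (1 - t) * rr t) p (by fun_prop)
        (by fun_prop), cfc_const_one ℝ p]
    have e3 : cfc (fun t => mh t * t) p = cfc mh p * p := by
      rw [cfc_mul mh (fun t : ℝ => t) p hcm.continuousOn (by fun_prop), cfc_id' ℝ p]
    rw [e1, ← e2, ← e3]
    congr 1
    funext t
    exact hmt t
  have h2 : cfc mh p * p * cfc g k = 0 := by
    rw [mul_assoc, h.gp hg]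
    have e3 : p * cfc g p = cfc (fun t => t * g t) p := by
      rw [cfc_mul (fun t : ℝ => t) g p (by fun_prop) hg.continuousOn, cfc_id' ℝ p]
    rw [e3, ← cfc_mul mh (fun t : ℝ => t * g t) p hcm.continuousOn (by fun_prop)]
    have e4 : (fun t => mh t * (t * g t)) = fun _ => (0 : ℝ) := by
      funext t
      rw [← mul_assoc, ← hmt]
      rcases le_total t (3 / 4) with ht | ht
      · rw [rr_eq ht, sub_self, zero_mul]
      · rw [hg0 t ht, mul_zero]
    rw [e4, cfc_const_zero ℝ p]
  have h3 : cfc g k - (1 - p) * cfc rr p * cfc g k = 0 := by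
    calc cfc g k - (1 - p) * cfc rr p * cfc g k = (1 - (1 - p) * cfc rr p) * cfc g k := by
          rw [sub_mul 1 ((1 - p) * cfc rr p) (cfc g k), one_mul]
      _ = 0 := by rw [h1, h2]
  exact (sub_eq_zero.1 h3).symm

/-! ### the three systems -/

/-- the family `X` -/
noncomputable def XX (e : Fin (n + 1) → Fin (n + 1) → E) (p : E) (i j : Fin (n + 1)) : E :=
  e i j * cfc rr p

/-- the family `Y` -/
noncomputable def YY (b : Fin (n + 2) → E) (k : E) (a c : Fin (n + 2)) : E :=
  b a * star (b c) * cfc ww k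

/-- the columns of `Z` -/
noncomputable def DD (e : Fin (n + 1) → Fin (n + 1) → E) (b : Fin (n + 2) → E)
    (α : Fin (n + 1) × Fin (n + 2)) : E := b (flipI α).2 * e (flipI α).1 0

/-- the family `Z` -/
noncomputable def ZZ (e : Fin (n + 1) → Fin (n + 1) → E) (b : Fin (n + 2) → E) (k : E)
    (α β : Fin (n + 1) × Fin (n + 2)) : E := DD e b α * star (DD e b β) * cfc ff k

theorem flipI_zero (i : Fin (n + 1)) : flipI (i, (0 : Fin (n + 2))) = (i, 0) := rfl

theorem flipI_succ (i l : Fin (n + 1)) :
    flipI (i, (Fin.succ l : Fin (n + 2))) = (l, Fin.succ i) := rfl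

theorem flipI_flipI (α : Fin (n + 1) × Fin (n + 2)) : flipI (flipI α) = α := by
  obtain ⟨i, a⟩ := α
  refine Fin.cases ?_ (fun l => ?_) a
  · rfl
  · rfl

theorem flipI_inj {α β : Fin (n + 1) × Fin (n + 2)} : flipI α = flipI β ↔ α = β := by
  constructor
  · intro h
    rw [← flipI_flipI α, h, flipI_flipI]
  · intro h
    rw [h]

theorem Dat.comm_kR (h : Dat n e b p k) : Commute k (cfc rr p) :=
  (h.comm_kp.symm.cfc_real rr).symm

theorem Dat.comm_eR (h : Dat n e b p k) (i j : Fin (n + 1)) : Commute (e i j) (cfc rr p) :=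
  ((show Commute p (e i j) from h.pe i j).cfc_real rr).symm

theorem Dat.comm_pR (_h : Dat n e b p k) : Commute p (cfc rr p) :=
  ((Commute.refl p).cfc_real rr).symm

theorem Dat.kD (h : Dat n e b p k) (α : Fin (n + 1) × Fin (n + 2)) :
    k * DD e b α = DD e b α * p := by
  unfold DD
  rw [← mul_assoc, h.kb, mul_assoc, h.pe, mul_assoc]

theorem Dat.Dk (h : Dat n e b p k) (α : Fin (n + 1) × Fin (n + 2)) :
    star (DD e b α) * k = p * star (DD e b α) := by
  have h1 := congrArg star (h.kD α)
  rw [star_mul, star_mul, h.sa_k.star_eq, h.sa_p.star_eq] at h1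
  exact h1

theorem Dat.comm_kbb (h : Dat n e b p k) (a c : Fin (n + 2)) : Commute k (b a * star (b c)) := by
  show k * (b a * star (b c)) = b a * star (b c) * k
  rw [← mul_assoc, h.kb, mul_assoc, mul_assoc, h.bk]

theorem Dat.comm_kDD (h : Dat n e b p k) (α β : Fin (n + 1) × Fin (n + 2)) :
    Commute k (DD e b α * star (DD e b β)) := by
  show k * (DD e b α * star (DD e b β)) = DD e b α * star (DD e b β) * k
  rw [← mul_assoc, h.kD, mul_assoc, mul_assoc, h.Dk]

/-- `D α* D β = δ p (1 - p) e 0 0` -/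
theorem Dat.DD_star (h : Dat n e b p k) (α β : Fin (n + 1) × Fin (n + 2)) :
    star (DD e b α) * DD e b β = if α = β then p * ((1 - p) * e 0 0) else 0 := by
  unfold DD
  have h1 : star (b (flipI α).2 * e (flipI α).1 0) * (b (flipI β).2 * e (flipI β).1 0) =
      e 0 (flipI α).1 * (star (b (flipI α).2) * b (flipI β).2) * e (flipI β).1 0 := by
    rw [star_mul, h.star_e]
    simp only [mul_assoc]
  rw [h1, h.bb]
  by_cases h2 : (flipI α).2 = (flipI β).2
  · rw [if_pos h2, ← h.pe, mul_assoc, h.mul_e]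
    by_cases h3 : (flipI α).1 = (flipI β).1
    · rw [if_pos h3, if_pos (flipI_inj.1 (Prod.ext h3 h2))]
    · rw [if_neg h3, if_neg (fun hc => h3 (by rw [hc])), mul_zero]
  · rw [if_neg h2, if_neg (fun hc => h2 (by rw [hc])), mul_zero, zero_mul]

/-- `D α (p (1 - p) e 0 0) = D α p (1 - p)²` -/
theorem Dat.DD_q (h : Dat n e b p k) (α : Fin (n + 1) × Fin (n + 2)) :
    DD e b α * (p * ((1 - p) * e 0 0)) = k * ((1 - k) * (1 - k)) * DD e b α := by
  have h1 : (1 - k) * DD e b α = DD e b α * (1 - p) := by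
    rw [sub_mul, one_mul, h.kD, mul_sub, mul_one]
  have h2 : k * ((1 - k) * (1 - k)) * DD e b α = DD e b α * (p * ((1 - p) * (1 - p))) := by
    calc k * ((1 - k) * (1 - k)) * DD e b α = k * ((1 - k) * ((1 - k) * DD e b α)) := by
          simp only [mul_assoc]
      _ = k * ((1 - k) * DD e b α * (1 - p)) := by
          rw [mul_assoc (1 - k) (DD e b α) (1 - p), ← h1]
      _ = k * (DD e b α * (1 - p) * (1 - p)) := by rw [h1]
      _ = k * DD e b α * ((1 - p) * (1 - p)) := by simp only [mul_assoc]
      _ = DD e b α * p * ((1 - p) * (1 - p)) := by rw [h.kD]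
      _ = _ := by simp only [mul_assoc]
  rw [h2]
  unfold DD
  have hq : ∀ i j, (1 - p) * e i j = e i j * (1 - p) := by
    intro i j
    rw [sub_mul, mul_sub, one_mul, mul_one, h.pe]
  have h3 : e (flipI α).1 0 * (p * ((1 - p) * e 0 0)) =
      e (flipI α).1 0 * (p * ((1 - p) * (1 - p))) := by
    calc e (flipI α).1 0 * (p * ((1 - p) * e 0 0)) = e (flipI α).1 0 * (p * (e 0 0 * (1 - p))) := by
          rw [hq]
      _ = e (flipI α).1 0 * (e 0 0 * (p * (1 - p))) := by
          rw [← mul_assoc p, h.pe, mul_assoc]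
      _ = (e (flipI α).1 0 * e 0 0) * (p * (1 - p)) := by rw [mul_assoc]
      _ = (1 - p) * e (flipI α).1 0 * (p * (1 - p)) := by rw [h.mul_e, if_pos rfl]
      _ = e (flipI α).1 0 * (1 - p) * (p * (1 - p)) := by rw [hq]
      _ = e (flipI α).1 0 * (p * ((1 - p) * (1 - p))) := by
          rw [mul_assoc]
          congr 1
          noncomm_ring
  rw [mul_assoc, h3, mul_assoc]

/-- functions of `k`: absorb a factor -/
theorem Dat.absorb (h : Dat n e b p k) {f g f' : ℝ → ℝ} (hf : Continuous f) (hg : Continuous g)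
    (hfg : ∀ t, f t * g t = f' t) : cfc f k * cfc g k = cfc f' k := by
  have hk := h.sa_k
  rw [← cfc_mul f g k hf.continuousOn hg.continuousOn]
  congr 1
  funext t
  exact hfg t

theorem Dat.absorb_k (h : Dat n e b p k) {g : ℝ → ℝ} (hg : Continuous g)
    (hg0 : ∀ t, t ≤ 1 / 4 → g t = 0) : k * (cfc ww k * cfc g k) = cfc g k := by
  have hk := h.sa_k
  have h1 : cfc ww k * cfc g k = cfc (fun t => ww t * g t) k :=
    h.absorb continuous_ww hg fun t => rfl
  have h2 : k * cfc (fun t => ww t * g t) k =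
      cfc (fun t : ℝ => t) k * cfc (fun t => ww t * g t) k := by rw [cfc_id' ℝ k]
  rw [h1, h2]
  have := continuous_ww
  refine h.absorb (f := fun t : ℝ => t) (g := fun t => ww t * g t) continuous_id (by fun_prop)
    fun t => ?_
  show t * (ww t * g t) = g t
  rcases le_total t (1 / 4) with ht | ht
  · rw [hg0 t ht, mul_zero, mul_zero]
  · rw [← mul_assoc, ww_eq ht, one_mul]

theorem Dat.cfc_k2 (h : Dat n e b p k) :
    (1 - k) * (1 - k) = cfc (fun t : ℝ => (1 - t) * (1 - t)) k := by
  have hk := h.sa_k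
  rw [cfc_mul (fun t : ℝ => 1 - t) (fun t : ℝ => 1 - t) k (by fun_prop) (by fun_prop),
    cfc_one_sub hk]

theorem Dat.absorb_q (h : Dat n e b p k) {g : ℝ → ℝ} (hg : Continuous g)
    (hg1 : ∀ t, 3 / 4 ≤ t → g t = 0) :
    (1 - k) * (1 - k) * (cfc ff k * cfc g k) = cfc ww k * cfc g k := by
  have hk := h.sa_k
  have h1 : cfc ff k * cfc g k = cfc (fun t => ff t * g t) k :=
    h.absorb continuous_ff hg fun t => rfl
  have h2 : cfc ww k * cfc g k = cfc (fun t => ww t * g t) k :=
    h.absorb continuous_ww hg fun t => rfl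
  rw [h1, h2, h.cfc_k2]
  have := continuous_ff
  refine h.absorb (by fun_prop) (by fun_prop) fun t => ?_
  rcases le_total t (3 / 4) with ht | ht
  · have h3 := rr_eq ht
    unfold ff
    calc (1 - t) * (1 - t) * (ww t * (rr t * rr t) * g t) =
          ((1 - t) * rr t) * ((1 - t) * rr t) * (ww t * g t) := by ring
      _ = _ := by rw [h3]; ring
  · rw [hg1 t ht]
    ring

theorem Dat.absorb_kq (h : Dat n e b p k) {g : ℝ → ℝ} (hg : Continuous g)
    (hg0 : ∀ t, t ≤ 1 / 4 → g t = 0) (hg1 : ∀ t, 3 / 4 ≤ t → g t = 0) :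
    k * ((1 - k) * (1 - k)) * (cfc ff k * cfc g k) = cfc g k := by
  rw [mul_assoc, h.absorb_q hg hg1, h.absorb_k hg hg0]

end

section

variable {n : ℕ} {e : Fin (n + 1) → Fin (n + 1) → E} {b : Fin (n + 2) → E} {p k : E}

theorem Dat.spec_k (h : Dat n e b p k) : spectrum ℝ k ⊆ Set.Icc 0 1 := by
  let _ := CStarAlgebra.spectralOrder E
  have := CStarAlgebra.spectralOrderedRing E
  have hk := h.sa_k
  obtain ⟨c, hc⟩ := h.hpos
  have h1 : k - k * k = ∑ a, star (c * star (b a)) * (c * star (b a)) := by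
    have h2 : k * k = ∑ a, b a * (p * star (b a)) := by
      calc k * k = (∑ a, b a * star (b a)) * k := by rw [← h.k_def]
        _ = _ := by
          rw [Finset.sum_mul]
          refine Finset.sum_congr rfl fun a _ => ?_
          rw [mul_assoc, h.bk]
    rw [h2]
    nth_rewrite 1 [h.k_def]
    rw [← Finset.sum_sub_distrib]
    refine Finset.sum_congr rfl fun a _ => ?_
    rw [star_mul, star_star, mul_assoc, ← mul_assoc (star c) c, ← hc, sub_mul, one_mul, mul_sub]
  have h3 : 0 ≤ k - k * k := by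
    rw [h1]
    exact Finset.sum_nonneg fun a _ => star_mul_self_nonneg _
  have h4 : cfc (fun t : ℝ => t - t * t) k = k - k * k := by
    rw [cfc_sub (fun t : ℝ => t) (fun t : ℝ => t * t) k (by fun_prop) (by fun_prop),
      cfc_mul (fun t : ℝ => t) (fun t : ℝ => t) k (by fun_prop) (by fun_prop), cfc_id' ℝ k]
  intro t ht
  have h5 : t - t * t ∈ spectrum ℝ (k - k * k) := by
    rw [← h4, cfc_map_spectrum (fun t : ℝ => t - t * t) k]
    exact ⟨t, ht, rfl⟩
  have h6 : 0 ≤ t - t * t := spectrum_nonneg_of_nonneg h3 h5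
  constructor <;> nlinarith

/-- the coefficient of `∑ b, Z (i, b) (j, b)` -/
theorem Dat.S_G (h : Dat n e b p k) {g : ℝ → ℝ} (hg : Continuous g)
    (hg0 : ∀ t, t ≤ 1 / 4 → g t = 0) (hg1 : ∀ t, 3 / 4 ≤ t → g t = 0) :
    ((1 - p) * p + (1 - k) * (1 - k) * (k - p)) * (cfc ff k * cfc g k) =
      cfc rr p * cfc g k := by
  have hk := h.sa_k
  obtain ⟨R, hR⟩ : ∃ R : E, R = cfc rr p := ⟨_, rfl⟩
  obtain ⟨F, hF⟩ : ∃ F : E, F = cfc ff k := ⟨_, rfl⟩
  obtain ⟨G, hG⟩ : ∃ G : E, G = cfc g k := ⟨_, rfl⟩
  obtain ⟨S, hS⟩ : ∃ S : E, S = (1 - p) * p + (1 - k) * (1 - k) * (k - p) := ⟨_, rfl⟩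
  have hkR : Commute k R := by rw [hR]; exact h.comm_kR
  have hpR : Commute p R := by rw [hR]; exact h.comm_pR
  have hkp : Commute k p := h.comm_kp
  have hA : (1 - p) * R * G = G := by
    rw [hR, hG]
    exact h.lemA hg hg1
  have hB : k * ((1 - k) * (1 - k)) * (F * G) = G := by
    rw [hF, hG]
    exact h.absorb_kq hg hg0 hg1
  have hFp : Commute F p := by rw [hF]; exact hkp.cfc_real ff
  have hFR : Commute F R := by rw [hF]; exact hkR.cfc_real ff
  have hSR : Commute S R := by
    rw [hS]
    have e1 : Commute (1 - p) R := (Commute.one_left R).sub_left hpR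
    have e2 : Commute (1 - k) R := (Commute.one_left R).sub_left hkR
    exact (e1.mul_left hpR).add_left ((e2.mul_left e2).mul_left (hkR.sub_left hpR))
  have hSp : Commute S (1 - p) := by
    rw [hS]
    have e1 : Commute (1 - p) (1 - p) := Commute.refl _
    have e2 : Commute (1 - k) (1 - p) :=
      (Commute.one_left _).sub_left ((Commute.one_right k).sub_right hkp)
    have e3 : Commute p (1 - p) := (Commute.one_right p).sub_right (Commute.refl p)
    have e4 : Commute k (1 - p) := (Commute.one_right k).sub_right hkp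
    exact (e1.mul_left e3).add_left ((e2.mul_left e2).mul_left (e4.sub_left e3))
  have hFp1 : Commute F (1 - p) := (Commute.one_right F).sub_right hFp
  -- `(1 - p) S = k (1 - k)²`
  have hpS : (1 - p) * S = k * ((1 - k) * (1 - k)) := by
    have a1 : k * p = p * p := h.kp
    have a2 : p * k = p * p := h.pk
    have a3 : (1 - p) * (k - p) = k - p := by
      rw [sub_mul, one_mul, mul_sub, a2, sub_self, sub_zero]
    have a4 : (1 - k) * p = (1 - p) * p := by rw [sub_mul, sub_mul, a1]
    have a5 : (1 - p) * ((1 - k) * (1 - k)) = (1 - k) * (1 - k) * (1 - p) := by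
      have e2 : Commute (1 - k) (1 - p) :=
        (Commute.one_left _).sub_left ((Commute.one_right k).sub_right hkp)
      exact (e2.mul_left e2).eq.symm
    have a6 : (1 - p) * ((1 - p) * p) = (1 - k) * (1 - k) * p := by
      calc (1 - p) * ((1 - p) * p) = ((1 - p) * p) * (1 - p) := by noncomm_ring
        _ = ((1 - k) * p) * (1 - p) := by rw [a4]
        _ = (1 - k) * ((1 - p) * p) := by noncomm_ring
        _ = (1 - k) * ((1 - k) * p) := by rw [a4]
        _ = _ := by rw [mul_assoc]
    have a7 : k * ((1 - k) * (1 - k)) = (1 - k) * (1 - k) * k := by noncomm_ring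
    rw [hS, mul_add, a6, ← mul_assoc (1 - p), a5, mul_assoc ((1 - k) * (1 - k)), a3, a7]
    noncomm_ring
  rw [← hR, ← hF, ← hG, ← hS]
  calc S * (F * G) = S * (F * ((1 - p) * R * G)) := by rw [hA]
    _ = S * ((F * (1 - p)) * R * G) := by simp only [mul_assoc]
    _ = S * (((1 - p) * F) * R * G) := by rw [hFp1.eq]
    _ = (S * (1 - p)) * (F * R) * G := by simp only [mul_assoc]
    _ = ((1 - p) * S) * (R * F) * G := by rw [hSp.eq, hFR.eq]
    _ = (1 - p) * (S * R) * (F * G) := by simp only [mul_assoc]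
    _ = (1 - p) * (R * S) * (F * G) := by rw [hSR.eq]
    _ = ((1 - p) * R) * S * (F * G) := by simp only [mul_assoc]
    _ = (R * (1 - p)) * S * (F * G) := by
        rw [((Commute.one_left R).sub_left hpR).eq]
    _ = R * ((1 - p) * S * (F * G)) := by simp only [mul_assoc]
    _ = R * G := by rw [hpS, hB]

end

section

variable {n : ℕ} {e : Fin (n + 1) → Fin (n + 1) → E} {b : Fin (n + 2) → E} {p k : E}

theorem Dat.one_sub_e (h : Dat n e b p k) (i j : Fin (n + 1)) :
    (1 - p) * e i j = e i j * (1 - p) := by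
  rw [sub_mul, mul_sub, one_mul, mul_one, h.pe]

theorem Dat.one_sub_b (h : Dat n e b p k) (a : Fin (n + 2)) :
    b a * (1 - p) = (1 - k) * b a := by
  rw [sub_mul, mul_sub, one_mul, mul_one, h.kb]

theorem Dat.one_sub_b2 (h : Dat n e b p k) (a : Fin (n + 2)) :
    b a * (1 - p) * (1 - p) = (1 - k) * (1 - k) * b a := by
  rw [h.one_sub_b, mul_assoc, h.one_sub_b, ← mul_assoc]

theorem Dat.XZ (h : Dat n e b p k) (i j : Fin (n + 1)) :
    ∑ a, DD e b (i, a) * star (DD e b (j, a)) =
      e i j * ((1 - p) * p + (1 - k) * (1 - k) * (k - p)) := by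
  have hc : ∀ l : Fin (n + 1), DD e b (i, Fin.succ l) * star (DD e b (j, Fin.succ l)) =
      b (Fin.succ i) * ((1 - p) * e l l) * star (b (Fin.succ j)) := by
    intro l
    show b (Fin.succ i) * e l 0 * star (b (Fin.succ j) * e l 0) = _
    rw [star_mul, h.star_e]
    calc b (Fin.succ i) * e l 0 * (e 0 l * star (b (Fin.succ j))) =
          b (Fin.succ i) * (e l 0 * e 0 l) * star (b (Fin.succ j)) := by simp only [mul_assoc]
      _ = _ := by rw [h.mul_e, if_pos rfl]
  have h0 : DD e b (i, 0) * star (DD e b (j, 0)) = (1 - p) * p * e i j := by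
    show b 0 * e i 0 * star (b 0 * e j 0) = _
    rw [star_mul, h.star_e, h.sa_b]
    calc b 0 * e i 0 * (e 0 j * b 0) = b 0 * (e i 0 * e 0 j) * b 0 := by simp only [mul_assoc]
      _ = b 0 * ((1 - p) * e i j) * b 0 := by rw [h.mul_e, if_pos rfl]
      _ = b 0 * (1 - p) * (e i j * b 0) := by simp only [mul_assoc]
      _ = (1 - p) * b 0 * (b 0 * e i j) := by
          have hb0 : b 0 * (1 - p) = (1 - p) * b 0 := by
            rw [mul_sub, mul_one, h.b0p, sub_mul, one_mul]
          rw [h.e0, hb0]
      _ = (1 - p) * (b 0 * b 0) * e i j := by simp only [mul_assoc]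
      _ = _ := by rw [h.b0]
  have hbb : b (Fin.succ i) * star (b (Fin.succ j)) = (k - p) * e i j := by
    rw [sub_mul, h.ke1]
    abel
  have hs : ∑ l, b (Fin.succ i) * ((1 - p) * e l l) * star (b (Fin.succ j)) =
      (1 - k) * (1 - k) * (k - p) * e i j := by
    rw [← Finset.sum_mul, ← Finset.mul_sum, ← Finset.mul_sum, h.sum_e]
    calc b (Fin.succ i) * ((1 - p) * (1 - p)) * star (b (Fin.succ j)) =
          b (Fin.succ i) * (1 - p) * (1 - p) * star (b (Fin.succ j)) := by simp only [mul_assoc]
      _ = (1 - k) * (1 - k) * (b (Fin.succ i) * star (b (Fin.succ j))) := by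
          rw [h.one_sub_b2]
          simp only [mul_assoc]
      _ = _ := by rw [hbb]; simp only [mul_assoc]
  rw [Fin.sum_univ_succ, h0, Finset.sum_congr rfl fun l _ => hc l, hs, ← add_mul]
  -- the coefficient commutes with `e i j`
  have e1 : Commute p (e i j) := h.pe i j
  have e2 : Commute k (e i j) := h.ke i j
  have e3 : Commute (1 - p) (e i j) := (Commute.one_left _).sub_left e1
  have e4 : Commute (1 - k) (e i j) := (Commute.one_left _).sub_left e2
  exact ((e3.mul_left e1).add_left ((e4.mul_left e4).mul_left (e2.sub_left e1))).eq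

theorem Dat.YZ (h : Dat n e b p k) (a c : Fin (n + 2)) :
    ∑ i, DD e b (flipI (i, a)) * star (DD e b (flipI (i, c))) =
      b a * star (b c) * ((1 - k) * (1 - k)) := by
  have hc : ∀ i : Fin (n + 1), DD e b (flipI (i, a)) * star (DD e b (flipI (i, c))) =
      b a * ((1 - p) * e i i) * star (b c) := by
    intro i
    unfold DD
    rw [flipI_flipI, flipI_flipI]
    show b a * e i 0 * star (b c * e i 0) = _
    rw [star_mul, h.star_e]
    calc b a * e i 0 * (e 0 i * star (b c)) = b a * (e i 0 * e 0 i) * star (b c) := by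
          simp only [mul_assoc]
      _ = _ := by rw [h.mul_e, if_pos rfl]
  rw [Finset.sum_congr rfl fun i _ => hc i, ← Finset.sum_mul, ← Finset.mul_sum, ← Finset.mul_sum,
    h.sum_e]
  have e2 : Commute (1 - k) (b a * star (b c)) :=
    (Commute.one_left _).sub_left (h.comm_kbb a c)
  calc b a * ((1 - p) * (1 - p)) * star (b c) = b a * (1 - p) * (1 - p) * star (b c) := by
        simp only [mul_assoc]
    _ = (1 - k) * (1 - k) * (b a * star (b c)) := by
        rw [h.one_sub_b2]
        simp only [mul_assoc]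
    _ = _ := (e2.mul_left e2).eq

end

end DropOfRWAux

open DropOfRWAux in
theorem exists_dropSys {E : Type*} [CStarAlgebra E] {n : ℕ} (h : HasRW n E) :
    ∃ (k : E) (X : Fin (n + 1) → Fin (n + 1) → E) (Y : Fin (n + 2) → Fin (n + 2) → E)
      (Z : Fin (n + 1) × Fin (n + 2) → Fin (n + 1) × Fin (n + 2) → E), DropSys n k X Y Z := by
  obtain ⟨e, b, p, k, h⟩ := exists_dat h
  have hk := h.sa_k
  have saR : star (cfc rr p) = cfc rr p := (cfc_predicate rr p : IsSelfAdjoint _)
  have saW : star (cfc ww k) = cfc ww k := (cfc_predicate ww k : IsSelfAdjoint _)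
  have saF : star (cfc ff k) = cfc ff k := (cfc_predicate ff k : IsSelfAdjoint _)
  refine ⟨k, XX e p, YY b k, ZZ e b k, ?_⟩
  refine ⟨hk, h.spec_k, ?_, ?_, ?_, ?_, ?_, ?_, ?_, ?_, ?_, ?_, ?_, ?_, ?_⟩
  · intro i j
    exact (h.ke i j).mul_right h.comm_kR
  · intro a c
    exact (h.comm_kbb a c).mul_right ((Commute.refl k).cfc_real ww).symm
  · intro α β
    exact (h.comm_kDD α β).mul_right ((Commute.refl k).cfc_real ff).symm
  · intro i j
    unfold XX
    rw [star_mul, saR, h.star_e, (h.comm_eR j i).eq]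
  · intro a c
    unfold YY
    rw [star_mul, saW, star_mul, star_star, ((h.comm_kbb c a).cfc_real ww).eq]
  · intro α β
    unfold ZZ
    rw [star_mul, saF, star_mul, star_star, ((h.comm_kDD β α).cfc_real ff).eq]
  · intro g hg hg0 i j i' j'
    have hA := h.lemA hg hg0
    unfold XX
    calc e i j * cfc rr p * (e i' j' * cfc rr p) * cfc g k =
          e i j * (cfc rr p * e i' j') * cfc rr p * cfc g k := by simp only [mul_assoc]
      _ = (e i j * e i' j') * (cfc rr p * cfc rr p) * cfc g k := by
          rw [← (h.comm_eR i' j').eq]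
          simp only [mul_assoc]
      _ = _ := by
          rw [h.mul_e]
          by_cases hj : j = i'
          · rw [if_pos hj, if_pos hj, h.one_sub_e]
            have e1 : Commute (1 - p) (cfc rr p) := (Commute.one_left _).sub_left h.comm_pR
            calc e i j' * (1 - p) * (cfc rr p * cfc rr p) * cfc g k =
                  e i j' * ((1 - p) * cfc rr p) * (cfc rr p * cfc g k) := by
                  simp only [mul_assoc]
              _ = e i j' * (cfc rr p * (1 - p)) * (cfc rr p * cfc g k) := by rw [e1.eq]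
              _ = e i j' * cfc rr p * ((1 - p) * cfc rr p * cfc g k) := by
                  simp only [mul_assoc]
              _ = _ := by rw [hA]
          · rw [if_neg hj, if_neg hj, zero_mul, zero_mul]
  · intro g hg hg0
    have hA := h.lemA hg hg0
    unfold XX
    rw [← Finset.sum_mul, h.sum_e, hA]
  · intro g hg hg0 a c a' c'
    unfold YY
    have e1 : Commute (cfc ww k) (b a' * star (b c')) := (h.comm_kbb a' c').cfc_real ww
    calc b a * star (b c) * cfc ww k * (b a' * star (b c') * cfc ww k) * cfc g k =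
          b a * star (b c) * (cfc ww k * (b a' * star (b c'))) * (cfc ww k * cfc g k) := by
          simp only [mul_assoc]
      _ = b a * (star (b c) * b a') * star (b c') * (cfc ww k * (cfc ww k * cfc g k)) := by
          rw [e1.eq]
          simp only [mul_assoc]
      _ = _ := by
          rw [h.bb]
          by_cases hc : c = a'
          · rw [if_pos hc, if_pos hc]
            have e2 : b a * p * star (b c') = b a * star (b c') * k := by
              rw [mul_assoc, ← h.bk, mul_assoc]
            have e3 : Commute k (cfc ww k) := ((Commute.refl k).cfc_real ww).symm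
            calc b a * p * star (b c') * (cfc ww k * (cfc ww k * cfc g k)) =
                  b a * star (b c') * (k * cfc ww k) * (cfc ww k * cfc g k) := by
                  rw [e2]
                  simp only [mul_assoc]
              _ = b a * star (b c') * cfc ww k * (k * (cfc ww k * cfc g k)) := by
                  rw [e3.eq]
                  simp only [mul_assoc]
              _ = _ := by rw [h.absorb_k hg hg0]
          · rw [if_neg hc, if_neg hc, mul_zero, zero_mul, zero_mul, zero_mul]
  · intro g hg hg0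
    unfold YY
    rw [← Finset.sum_mul, ← h.k_def, mul_assoc, h.absorb_k hg hg0]
  · intro g hg hg0 hg1 α β γ δ
    unfold ZZ
    have e1 : Commute (cfc ff k) (DD e b γ * star (DD e b δ)) := (h.comm_kDD γ δ).cfc_real ff
    calc DD e b α * star (DD e b β) * cfc ff k * (DD e b γ * star (DD e b δ) * cfc ff k) *
            cfc g k =
          DD e b α * star (DD e b β) * (cfc ff k * (DD e b γ * star (DD e b δ))) *
            (cfc ff k * cfc g k) := by simp only [mul_assoc]
      _ = DD e b α * (star (DD e b β) * DD e b γ) * star (DD e b δ) *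
            (cfc ff k * (cfc ff k * cfc g k)) := by
          rw [e1.eq]
          simp only [mul_assoc]
      _ = _ := by
          rw [h.DD_star]
          by_cases hc : β = γ
          · rw [if_pos hc, if_pos hc, h.DD_q]
            have e2 : Commute (k * ((1 - k) * (1 - k))) (DD e b α * star (DD e b δ)) := by
              have e3 := h.comm_kDD α δ
              have e4 : Commute (1 - k) (DD e b α * star (DD e b δ)) :=
                (Commute.one_left _).sub_left e3
              exact e3.mul_left (e4.mul_left e4)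
            have e5 : Commute (k * ((1 - k) * (1 - k))) (cfc ff k) := by
              have e3 : Commute k (cfc ff k) := ((Commute.refl k).cfc_real ff).symm
              have e4 : Commute (1 - k) (cfc ff k) := (Commute.one_left _).sub_left e3
              exact e3.mul_left (e4.mul_left e4)
            calc k * ((1 - k) * (1 - k)) * DD e b α * star (DD e b δ) *
                    (cfc ff k * (cfc ff k * cfc g k)) =
                  k * ((1 - k) * (1 - k)) * (DD e b α * star (DD e b δ)) *
                    (cfc ff k * (cfc ff k * cfc g k)) := by simp only [mul_assoc]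
              _ = DD e b α * star (DD e b δ) * (k * ((1 - k) * (1 - k)) * cfc ff k) *
                    (cfc ff k * cfc g k) := by
                  rw [e2.eq]
                  simp only [mul_assoc]
              _ = DD e b α * star (DD e b δ) * cfc ff k *
                    (k * ((1 - k) * (1 - k)) * (cfc ff k * cfc g k)) := by
                  rw [e5.eq]
                  simp only [mul_assoc]
              _ = _ := by rw [h.absorb_kq hg hg0 hg1]
          · rw [if_neg hc, if_neg hc, mul_zero, zero_mul, zero_mul, zero_mul]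
  · intro g hg hg0 hg1 i j
    unfold XX ZZ
    calc e i j * cfc rr p * cfc g k =
          e i j * (((1 - p) * p + (1 - k) * (1 - k) * (k - p)) * (cfc ff k * cfc g k)) := by
          rw [h.S_G hg hg0 hg1, mul_assoc]
      _ = (∑ a, DD e b (i, a) * star (DD e b (j, a))) * cfc ff k * cfc g k := by
          rw [h.XZ]
          simp only [mul_assoc]
      _ = _ := by rw [Finset.sum_mul]
  · intro g hg hg0 hg1 a c
    unfold YY ZZ
    calc b a * star (b c) * cfc ww k * cfc g k =
          b a * star (b c) * ((1 - k) * (1 - k) * (cfc ff k * cfc g k)) := by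
          rw [h.absorb_q hg hg1, mul_assoc]
      _ = (∑ i, DD e b (flipI (i, a)) * star (DD e b (flipI (i, c)))) * cfc ff k *
            cfc g k := by
          rw [h.YZ]
          simp only [mul_assoc]
      _ = _ := by rw [Finset.sum_mul]

end Pool.Agent.Lib.EJS
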