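import Pool.Agent.Lib.EJS.DimBase
import Pool.Agent.Lib.EJS.DropOfRW

/-!
# A drop system gives a unital homomorphism from `Z_{n+1,n+2}`

PROOF.  Let `F` be the permutation matrix of the involution `flipI`, `U t = (1 + exp(iπt))/2 • 1 +
(1 - exp(iπt))/2 • F` (`U 0 = 1`, `U 1 = F`), `ρ : [0,1] → [0,1]` continuous with `ρ = 0` on `[0,3/8]`,
`ρ = 1` on `[5/8,1]`.  For `f ∈ DimDrop (n+1) (n+2)`, `f 0 = x ⊗ 1`, `f 1 = 1 ⊗ y` put
`f' t = U (ρ t) * f (ρ t) * (U (ρ t))^*`.  So `f' t = x ⊗ 1` for `t ≤ 3/8` and `f' t = F (1 ⊗ y) F` for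
`t ≥ 5/8`, and `f ↦ f'` is a unital homomorphism.  Let `c₀ + c₁ + c₂ = 1` be a partition of unity on
`[0,1]`, with `c₀ = 0` on `[3/8,1]`, `c₂ = 0` on `[0,5/8]`, `c₁ = 0` outside `[5/16, 11/16]`.
Put `Ψ f = ∑ x i j • X i j * c₀(k) + ∑ y a b • Y a b * c₂(k) + ∑ Z a b * (c₁ f'_ab)(k)`, where for a
complex function the real and the imaginary part are inserted in the functional calculus separately
(or use `cfc` over `ℂ`).
Verification of multiplicativity: for a cutoff `g` vanishing on `[3/8,1]` one has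
`Ψ f * g(k) = ∑ x i j • X i j * g(k)` (use `X_Z` on the overlap `[5/16,3/8]`); for `g` vanishing on
`[0,5/8]`, `Ψ f * g(k) = ∑ y a b • Y a b * g(k)` (use `Y_Z`); for `g` vanishing outside `[5/16,11/16]`,
`Ψ f * g(k) = ∑ Z a b * (g f'_ab)(k)`.  On each of the three regions this is multiplicative in `f` by
`mul_X`, `mul_Y`, `mul_Z` (functions of `k` commute with everything).  Now write
`Ψ f * Ψ f' = ∑ r, Ψ f * Ψ f' * c_r(k) = ∑ r, (Ψ f * c'_r(k)) * (Ψ f' * c_r(k))` with slightly larger cutoffs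
`c'_r`, `c'_r c_r = c_r` (or use `√c_r` twice: `c_r = √c_r √c_r`).
-/

open scoped ComplexOrder
open Filter Topology

namespace Pool.Agent.Lib.EJS

namespace DropHomAux

/-- gluing local homomorphisms along a partition of unity -/
theorem glue {A E : Type*} [CStarAlgebra E] [Semiring A] [Star A] [Algebra ℂ A] {ι : Type*}
    [Fintype ι] (ψ : ι → A →ₗ[ℂ] E) (s : ι → E) (hsum : ∑ r, s r * s r = 1)
    (hsa : ∀ r, star (s r) = s r) (hss : ∀ r q, Commute (s r) (s q))
    (hsψ : ∀ r q a, Commute (s r) (ψ q a)) (hmul : ∀ r a b, ψ r a * ψ r b * s r = ψ r (a * b) * s r)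
    (hone : ∀ r, ψ r 1 * s r = s r)
    (hcomp : ∀ r q a, ψ r a * (s r * s q) = ψ q a * (s r * s q))
    (hstar : ∀ r a, ψ r (star a) = star (ψ r a)) : Nonempty (A →⋆ₐ[ℂ] E) := by
  have hm : ∀ a b, (∑ r, ψ r a * (s r * s r)) * (∑ q, ψ q b * (s q * s q)) =
      ∑ r, ψ r (a * b) * (s r * s r) := by
    intro a b
    have h1 : ∀ r q, ψ r a * (s r * s r) * (ψ q b * (s q * s q)) =
        ψ r (a * b) * (s r * s r) * (s q * s q) := by
      intro r q
      have e1 : s r * (s r * ψ q b) = ψ q b * (s r * s r) := by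
        rw [(hsψ r q b).eq, ← mul_assoc, (hsψ r q b).eq, mul_assoc]
      have e2 : s r * s r * (s q * s q) = s r * s q * (s r * s q) :=
        (hss r q).mul_mul_mul_comm _ _
      calc ψ r a * (s r * s r) * (ψ q b * (s q * s q))
          = ψ r a * (s r * (s r * ψ q b)) * (s q * s q) := by simp only [mul_assoc]
        _ = ψ r a * ψ q b * (s r * s r * (s q * s q)) := by rw [e1]; simp only [mul_assoc]
        _ = ψ r a * (ψ q b * (s r * s q)) * (s r * s q) := by rw [e2]; simp only [mul_assoc]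
        _ = ψ r a * (ψ r b * (s r * s q)) * (s r * s q) := by rw [hcomp r q b]
        _ = (ψ r a * ψ r b * s r) * (s q * (s r * s q)) := by simp only [mul_assoc]
        _ = ψ r (a * b) * (s r * s q * (s r * s q)) := by rw [hmul]; simp only [mul_assoc]
        _ = _ := by rw [← e2]; simp only [mul_assoc]
    rw [Finset.sum_mul_sum]
    simp only [h1]
    simp only [← Finset.mul_sum, hsum, mul_one]
  have hu : ∑ r, ψ r 1 * (s r * s r) = 1 := by
    rw [← hsum]
    refine Finset.sum_congr rfl fun r _ => ?_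
    rw [← mul_assoc, hone]
  exact ⟨{
    toFun := fun a => ∑ r, ψ r a * (s r * s r)
    map_one' := hu
    map_mul' := fun a b => (hm a b).symm
    map_zero' := by simp
    map_add' := by
      intro a b
      simp only [map_add, add_mul, Finset.sum_add_distrib]
    commutes' := by
      intro c
      simp only [Algebra.algebraMap_eq_smul_one, map_smul, smul_mul_assoc]
      rw [← Finset.smul_sum, hu]
    map_star' := by
      intro a
      rw [star_sum]
      refine Finset.sum_congr rfl fun r _ => ?_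
      rw [star_mul, star_mul, hsa, hstar]
      have h1 := hsψ r r (star a)
      rw [hstar] at h1
      exact ((h1.mul_left h1).eq).symm }⟩

section calc_

variable {E : Type*} [CStarAlgebra E]

theorem re_mem {k : E} (hk : IsSelfAdjoint k) (hs : spectrum ℝ k ⊆ Set.Icc 0 1)
    (z : spectrum ℂ k) : z.1.re ∈ Set.Icc (0 : ℝ) 1 :=
  hs (hk.spectrumRestricts.apply_mem z.2)

/-- the functional calculus on continuous functions on the unit interval -/
noncomputable def Phi {k : E} (hk : IsSelfAdjoint k) (hs : spectrum ℝ k ⊆ Set.Icc 0 1) :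
    C(unitInterval, ℂ) →⋆ₐ[ℂ] E :=
  (cfcHom (R := ℂ) (p := IsStarNormal) hk.isStarNormal).comp
    (ContinuousMap.compStarAlgHom' ℂ ℂ
      ⟨fun z : spectrum ℂ k => (⟨z.1.re, re_mem hk hs z⟩ : unitInterval), by fun_prop⟩)

/-- the restriction of a real function to the unit interval -/
noncomputable def rs (g : ℝ → ℝ) (hg : Continuous g) : C(unitInterval, ℂ) :=
  ⟨fun t => (g t : ℂ), by fun_prop⟩

theorem Phi_rs {k : E} (hk : IsSelfAdjoint k) (hs : spectrum ℝ k ⊆ Set.Icc 0 1) (g : ℝ → ℝ)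
    (hg : Continuous g) : cfc g k = Phi hk hs (rs g hg) := by
  rw [cfc_real_eq_complex g hk, cfc_apply _ k hk.isStarNormal (by fun_prop)]
  rfl

theorem Phi_comm {k : E} (hk : IsSelfAdjoint k) (hs : spectrum ℝ k ⊆ Set.Icc 0 1) {x : E}
    (hx : Commute k x) (f : C(unitInterval, ℂ)) : Commute (Phi hk hs f) x := by
  unfold Phi
  exact Commute.cfcHom hk.isStarNormal hx (by rw [hk.star_eq]; exact hx) _

variable {ι : Type*} [Fintype ι] [DecidableEq ι]

/-- a matrix of functions inserted into local matrix units -/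
noncomputable def zz (Φ : C(unitInterval, ℂ) →⋆ₐ[ℂ] E) (Z : ι → ι → E)
    (F : ι → ι → C(unitInterval, ℂ)) : E :=
  ∑ a, ∑ b, Z a b * Φ (F a b)

theorem zz_mul {Φ : C(unitInterval, ℂ) →⋆ₐ[ℂ] E} {Z : ι → ι → E} {s : E}
    (hZ : ∀ a b f, Commute (Φ f) (Z a b)) (hs : ∀ f, Commute (Φ f) s)
    (hm : ∀ a b c d, Z a b * Z c d * s = (if b = c then Z a d else 0) * s)
    (F G : ι → ι → C(unitInterval, ℂ)) :
    zz Φ Z F * zz Φ Z G * s = zz Φ Z (fun a b => ∑ c, F a c * G c b) * s := by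
  have h : ∀ a b c d, Z a b * Φ (F a b) * (Z c d * Φ (G c d)) * s =
      if c = b then Z a d * Φ (F a b * G c d) * s else 0 := by
    intro a b c d
    have h1 : Z a b * Φ (F a b) * (Z c d * Φ (G c d)) * s =
        Z a b * Z c d * s * Φ (F a b * G c d) := by
      calc Z a b * Φ (F a b) * (Z c d * Φ (G c d)) * s
          = Z a b * (Φ (F a b) * Z c d) * Φ (G c d) * s := by simp only [mul_assoc]
        _ = Z a b * Z c d * (Φ (F a b) * Φ (G c d) * s) := by
            rw [(hZ c d (F a b)).eq]; simp only [mul_assoc]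
        _ = Z a b * Z c d * (Φ (F a b * G c d) * s) := by rw [map_mul]
        _ = _ := by rw [(hs _).eq]; simp only [mul_assoc]
    rw [h1, hm]
    by_cases hbc : b = c
    · rw [if_pos hbc, if_pos hbc.symm, mul_assoc, ← (hs _).eq, mul_assoc]
    · rw [if_neg hbc, if_neg (Ne.symm hbc), zero_mul, zero_mul]
  unfold zz
  simp only [Finset.sum_mul]
  simp only [Finset.mul_sum, Finset.sum_mul]
  simp only [h, map_sum, Finset.mul_sum, Finset.sum_mul]
  refine Finset.sum_congr rfl fun a _ => ?_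
  conv_rhs => rw [Finset.sum_comm]
  refine Finset.sum_congr rfl fun b _ => ?_
  rw [Finset.sum_eq_single b]
  · simp only [if_true]
  · intro c _ hc
    simp only [if_neg hc, Finset.sum_const_zero]
  · intro hb
    exact absurd (Finset.mem_univ _) hb

omit [DecidableEq ι] in
theorem zz_star {Φ : C(unitInterval, ℂ) →⋆ₐ[ℂ] E} {Z : ι → ι → E}
    (hZ : ∀ a b f, Commute (Φ f) (Z a b)) (hst : ∀ a b, star (Z a b) = Z b a)
    (F : ι → ι → C(unitInterval, ℂ)) :
    star (zz Φ Z F) = zz Φ Z (fun a b => star (F b a)) := by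
  unfold zz
  simp only [star_sum, star_mul, hst, ← map_star]
  rw [Finset.sum_comm]
  refine Finset.sum_congr rfl fun a _ => Finset.sum_congr rfl fun b _ => ?_
  exact (hZ _ _ _).eq

theorem zz_one {Φ : C(unitInterval, ℂ) →⋆ₐ[ℂ] E} {Z : ι → ι → E} {s : E}
    (hs : (∑ i, Z i i) * s = s) :
    zz Φ Z (fun a b => if a = b then 1 else 0) * s = s := by
  have h : zz Φ Z (fun a b => if a = b then 1 else 0) = ∑ i, Z i i := by
    unfold zz
    refine Finset.sum_congr rfl fun a _ => ?_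
    rw [Finset.sum_eq_single a]
    · dsimp only
      rw [if_pos rfl, map_one, mul_one]
    · intro b _ hb
      dsimp only
      rw [if_neg (Ne.symm hb), map_zero, mul_zero]
    · intro hb
      exact absurd (Finset.mem_univ _) hb
  rw [h, hs]

omit [DecidableEq ι] in
theorem zz_congr {Φ : C(unitInterval, ℂ) →⋆ₐ[ℂ] E} {Z : ι → ι → E}
    {F G : ι → ι → C(unitInterval, ℂ)} {σ : C(unitInterval, ℂ)}
    (h : ∀ a b, F a b * σ = G a b * σ) : zz Φ Z F * Φ σ = zz Φ Z G * Φ σ := by
  unfold zz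
  simp only [Finset.sum_mul, mul_assoc, ← map_mul, h]

omit [DecidableEq ι] in
theorem zz_comm {Φ : C(unitInterval, ℂ) →⋆ₐ[ℂ] E} {Z : ι → ι → E}
    (hZ : ∀ a b f, Commute (Φ f) (Z a b)) (F : ι → ι → C(unitInterval, ℂ))
    (σ : C(unitInterval, ℂ)) : Commute (Φ σ) (zz Φ Z F) := by
  unfold zz
  refine Commute.sum_right _ _ _ fun a _ => Commute.sum_right _ _ _ fun b _ => ?_
  refine (hZ _ _ _).mul_right ?_
  unfold Commute SemiconjBy
  rw [← map_mul, ← map_mul, mul_comm]

/-- the linear map associated with a linear family of matrices of functions -/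
noncomputable def zl {A : Type*} [AddCommMonoid A] [Module ℂ A]
    (Φ : C(unitInterval, ℂ) →⋆ₐ[ℂ] E) (Z : ι → ι → E)
    (F : ι → ι → A →ₗ[ℂ] C(unitInterval, ℂ)) : A →ₗ[ℂ] E where
  toFun x := zz Φ Z (fun a b => F a b x)
  map_add' x y := by
    unfold zz
    simp only [map_add, mul_add, Finset.sum_add_distrib]
  map_smul' c x := by
    unfold zz
    simp only [map_smul, mul_smul_comm, Finset.smul_sum, RingHom.id_apply]

omit [DecidableEq ι] in
theorem zl_apply {A : Type*} [AddCommMonoid A] [Module ℂ A]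
    (Φ : C(unitInterval, ℂ) →⋆ₐ[ℂ] E) (Z : ι → ι → E)
    (F : ι → ι → A →ₗ[ℂ] C(unitInterval, ℂ)) (x : A) :
    zl Φ Z F x = zz Φ Z (fun a b => F a b x) := rfl

end calc_

section mats

variable {n : ℕ}

theorem ev0 (f : DimDrop (n + 1) (n + 2)) (a b : Fin (n + 1) × Fin (n + 2)) :
    MFun.ev 0 f.1 a b = if a.2 = b.2 then MFun.ev 0 f.1 (a.1, 0) (b.1, 0) else 0 := by
  obtain ⟨f, ⟨⟨x, hx⟩, -⟩⟩ := f
  simp only [hx, if_true]

theorem ev1 (f : DimDrop (n + 1) (n + 2)) (a b : Fin (n + 1) × Fin (n + 2)) :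
    MFun.ev 1 f.1 a b = if a.1 = b.1 then MFun.ev 1 f.1 (0, a.2) (0, b.2) else 0 := by
  obtain ⟨f, ⟨-, ⟨y, hy⟩⟩⟩ := f
  simp only [hy, if_true]

/-- the matrix at `0` -/
noncomputable def fX (i j : Fin (n + 1)) : DimDrop (n + 1) (n + 2) →ₗ[ℂ] C(unitInterval, ℂ) where
  toFun f := algebraMap ℂ C(unitInterval, ℂ) (MFun.ev 0 f.1 (i, 0) (j, 0))
  map_add' f g := by
    have h : (f + g).1 = f.1 + g.1 := rfl
    rw [h, map_add, CStarMatrix.add_apply, map_add]
  map_smul' c f := by
    have h : (c • f).1 = c • f.1 := rfl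
    rw [h, map_smul, CStarMatrix.smul_apply, RingHom.id_apply, smul_eq_mul, map_mul]
    exact (Algebra.smul_def _ _).symm

/-- the matrix at `1` -/
noncomputable def fY (i j : Fin (n + 2)) : DimDrop (n + 1) (n + 2) →ₗ[ℂ] C(unitInterval, ℂ) where
  toFun f := algebraMap ℂ C(unitInterval, ℂ) (MFun.ev 1 f.1 (0, i) (0, j))
  map_add' f g := by
    have h : (f + g).1 = f.1 + g.1 := rfl
    rw [h, map_add, CStarMatrix.add_apply, map_add]
  map_smul' c f := by
    have h : (c • f).1 = c • f.1 := rfl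
    rw [h, map_smul, CStarMatrix.smul_apply, RingHom.id_apply, smul_eq_mul, map_mul]
    exact (Algebra.smul_def _ _).symm

theorem fX_mul (f g : DimDrop (n + 1) (n + 2)) (i j : Fin (n + 1)) :
    fX i j (f * g) = ∑ c, fX i c f * fX c j g := by
  have h : (f * g).1 = f.1 * g.1 := rfl
  change algebraMap ℂ C(unitInterval, ℂ) (MFun.ev 0 (f * g).1 (i, 0) (j, 0)) = ∑ c,
    algebraMap ℂ C(unitInterval, ℂ) (MFun.ev 0 f.1 (i, 0) (c, 0)) * algebraMap ℂ C(unitInterval, ℂ) (MFun.ev 0 g.1 (c, 0) (j, 0))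
  rw [h, map_mul, CStarMatrix.mul_apply, Fintype.sum_prod_type, map_sum]
  refine Finset.sum_congr rfl fun c _ => ?_
  rw [Finset.sum_eq_single 0]
  · rw [map_mul]
  · intro d _ hd
    rw [ev0 f, if_neg (Ne.symm hd), zero_mul]
  · intro hd
    exact absurd (Finset.mem_univ _) hd

theorem fY_mul (f g : DimDrop (n + 1) (n + 2)) (i j : Fin (n + 2)) :
    fY i j (f * g) = ∑ c, fY i c f * fY c j g := by
  have h : (f * g).1 = f.1 * g.1 := rfl
  change algebraMap ℂ C(unitInterval, ℂ) (MFun.ev 1 (f * g).1 (0, i) (0, j)) = ∑ c,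
    algebraMap ℂ C(unitInterval, ℂ) (MFun.ev 1 f.1 (0, i) (0, c)) * algebraMap ℂ C(unitInterval, ℂ) (MFun.ev 1 g.1 (0, c) (0, j))
  rw [h, map_mul, CStarMatrix.mul_apply, Fintype.sum_prod_type_right, map_sum]
  refine Finset.sum_congr rfl fun c _ => ?_
  rw [Finset.sum_eq_single 0]
  · rw [map_mul]
  · intro d _ hd
    rw [ev1 f, if_neg (Ne.symm hd), zero_mul]
  · intro hd
    exact absurd (Finset.mem_univ _) hd

theorem fX_one (i j : Fin (n + 1)) :
    fX i j (1 : DimDrop (n + 1) (n + 2)) = if i = j then 1 else 0 := by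
  have h : (1 : DimDrop (n + 1) (n + 2)).1 = 1 := rfl
  change algebraMap ℂ C(unitInterval, ℂ) (MFun.ev 0 (1 : DimDrop (n + 1) (n + 2)).1 (i, 0) (j, 0)) = _
  rw [h, map_one, CStarMatrix.one_apply]
  by_cases hij : i = j
  · rw [if_pos (by rw [hij]), if_pos hij, map_one]
  · rw [if_neg (by simpa using hij), if_neg hij, map_zero]

theorem fY_one (i j : Fin (n + 2)) :
    fY i j (1 : DimDrop (n + 1) (n + 2)) = if i = j then 1 else 0 := by
  have h : (1 : DimDrop (n + 1) (n + 2)).1 = 1 := rfl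
  change algebraMap ℂ C(unitInterval, ℂ) (MFun.ev 1 (1 : DimDrop (n + 1) (n + 2)).1 (0, i) (0, j)) = _
  rw [h, map_one, CStarMatrix.one_apply]
  by_cases hij : i = j
  · rw [if_pos (by rw [hij]), if_pos hij, map_one]
  · rw [if_neg (by simpa using hij), if_neg hij, map_zero]

theorem fX_star (f : DimDrop (n + 1) (n + 2)) (i j : Fin (n + 1)) :
    fX i j (star f) = star (fX j i f) := by
  have h : (star f).1 = star f.1 := rfl
  change algebraMap ℂ C(unitInterval, ℂ) (MFun.ev 0 (star f).1 (i, 0) (j, 0)) =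
    star (algebraMap ℂ C(unitInterval, ℂ) (MFun.ev 0 f.1 (j, 0) (i, 0)))
  rw [h, map_star, CStarMatrix.star_apply]
  exact algebraMap_star_comm _

theorem fY_star (f : DimDrop (n + 1) (n + 2)) (i j : Fin (n + 2)) :
    fY i j (star f) = star (fY j i f) := by
  have h : (star f).1 = star f.1 := rfl
  change algebraMap ℂ C(unitInterval, ℂ) (MFun.ev 1 (star f).1 (0, i) (0, j)) =
    star (algebraMap ℂ C(unitInterval, ℂ) (MFun.ev 1 f.1 (0, j) (0, i)))
  rw [h, map_star, CStarMatrix.star_apply]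
  exact algebraMap_star_comm _

theorem flip_zero (i : Fin (n + 1)) : flipI (i, (0 : Fin (n + 2))) = (i, 0) := rfl

theorem flip_succ (i k : Fin (n + 1)) : flipI (i, k.succ) = (k, i.succ) := rfl

theorem flip_flip (a : Fin (n + 1) × Fin (n + 2)) : flipI (flipI a) = a := by
  obtain ⟨i, b⟩ := a
  refine Fin.cases ?_ (fun k => ?_) b
  · rfl
  · rfl

/-- the matrix of the flip -/
def Fl (n : ℕ) : CStarMatrix (Fin (n + 1) × Fin (n + 2)) (Fin (n + 1) × Fin (n + 2)) ℂ :=
  CStarMatrix.ofMatrix (Matrix.of fun a b => if a = flipI b then 1 else 0)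

theorem Fl_apply (a b : Fin (n + 1) × Fin (n + 2)) : Fl n a b = if a = flipI b then 1 else 0 := rfl

theorem Fl_mul (M : CStarMatrix (Fin (n + 1) × Fin (n + 2)) (Fin (n + 1) × Fin (n + 2)) ℂ)
    (a b : Fin (n + 1) × Fin (n + 2)) : (Fl n * M) a b = M (flipI a) b := by
  rw [CStarMatrix.mul_apply, Finset.sum_eq_single (flipI a)]
  · rw [Fl_apply, if_pos (flip_flip a).symm, one_mul]
  · intro c _ hc
    rw [Fl_apply, if_neg, zero_mul]
    intro h
    apply hc
    rw [h, flip_flip]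
  · intro hc
    exact absurd (Finset.mem_univ _) hc

theorem mul_Fl (M : CStarMatrix (Fin (n + 1) × Fin (n + 2)) (Fin (n + 1) × Fin (n + 2)) ℂ)
    (a b : Fin (n + 1) × Fin (n + 2)) : (M * Fl n) a b = M a (flipI b) := by
  rw [CStarMatrix.mul_apply, Finset.sum_eq_single (flipI b)]
  · rw [Fl_apply, if_pos rfl, mul_one]
  · intro c _ hc
    rw [Fl_apply, if_neg hc, mul_zero]
  · intro hc
    exact absurd (Finset.mem_univ _) hc

theorem Fl_sq : Fl n * Fl n = 1 := by
  ext a b
  rw [Fl_mul, Fl_apply, CStarMatrix.one_apply]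
  by_cases h : a = b
  · rw [if_pos (by rw [h]), if_pos h]
  · rw [if_neg, if_neg h]
    intro h2
    exact h (by rw [← flip_flip a, h2, flip_flip])

theorem Fl_star : star (Fl n) = Fl n := by
  ext a b
  rw [CStarMatrix.star_apply, Fl_apply, Fl_apply]
  by_cases h : a = flipI b
  · rw [if_pos h, if_pos (by rw [h, flip_flip]), star_one]
  · rw [if_neg h, if_neg, star_zero]
    intro h2
    exact h (by rw [h2, flip_flip])

/-- the path of unitaries -/
noncomputable def UU (n : ℕ) (t : ℝ) :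
    CStarMatrix (Fin (n + 1) × Fin (n + 2)) (Fin (n + 1) × Fin (n + 2)) ℂ :=
  ((1 + Complex.exp (Real.pi * t * Complex.I)) / 2) • 1 +
    ((1 - Complex.exp (Real.pi * t * Complex.I)) / 2) • Fl n

theorem UU_zero : UU n 0 = 1 := by
  unfold UU
  simp

theorem UU_one : UU n 1 = Fl n := by
  unfold UU
  simp [Complex.exp_pi_mul_I]

theorem UU_star (t : ℝ) : star (UU n t) * UU n t = 1 ∧ UU n t * star (UU n t) = 1 := by
  unfold UU
  obtain ⟨w, hw⟩ : ∃ w, w = Complex.exp (Real.pi * t * Complex.I) := ⟨_, rfl⟩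
  rw [← hw]
  have hw1 : star w * w = 1 := by
    have h1 : ‖w‖ = 1 := by
      rw [hw, ← Complex.ofReal_mul]
      exact Complex.norm_exp_ofReal_mul_I _
    have h2 : (starRingEnd ℂ) w * w = 1 := by
      rw [mul_comm, Complex.mul_conj, Complex.normSq_eq_norm_sq, h1]
      norm_num
    exact h2
  have hst : star (((1 + w) / 2) • (1 : CStarMatrix (Fin (n + 1) × Fin (n + 2))
      (Fin (n + 1) × Fin (n + 2)) ℂ) + ((1 - w) / 2) • Fl n) =
      ((1 + star w) / 2) • 1 + ((1 - star w) / 2) • Fl n := by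
    rw [star_add, star_smul, star_smul, Fl_star, star_one]
    congr 2
    · simp
    · simp
  rw [hst]
  have e1 : (1 + star w) / 2 * ((1 + w) / 2) + (1 - star w) / 2 * ((1 - w) / 2) = 1 := by
    linear_combination (1 / 2 : ℂ) * hw1
  have e2 : (1 + star w) / 2 * ((1 - w) / 2) + (1 - star w) / 2 * ((1 + w) / 2) = 0 := by
    linear_combination -(1 / 2 : ℂ) * hw1
  have key : ∀ α β γ δ : ℂ, α * γ + β * δ = 1 → α * δ + β * γ = 0 →
      (α • (1 : CStarMatrix (Fin (n + 1) × Fin (n + 2))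
      (Fin (n + 1) × Fin (n + 2)) ℂ) + β • Fl n) * (γ • 1 + δ • Fl n) = 1 := by
    intro α β γ δ h1 h2
    calc (α • (1 : CStarMatrix (Fin (n + 1) × Fin (n + 2))
      (Fin (n + 1) × Fin (n + 2)) ℂ) + β • Fl n) * (γ • 1 + δ • Fl n)
        = (α * γ) • 1 + (α * δ) • Fl n + ((β * γ) • Fl n + (β * δ) • (Fl n * Fl n)) := by
          simp only [add_mul, mul_add, smul_mul_smul_comm, one_mul, mul_one]
          abel
      _ = (α * γ + β * δ) • 1 + (α * δ + β * γ) • Fl n := by
          rw [Fl_sq]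
          simp only [add_smul]
          abel
      _ = 1 := by rw [h1, h2, one_smul, zero_smul, add_zero]
  refine ⟨key _ _ _ _ e1 e2, key _ _ _ _ ?_ ?_⟩
  · linear_combination e1
  · linear_combination e2

theorem UU_cont : Continuous (UU n) := by
  unfold UU
  fun_prop

/-- the reparametrization -/
noncomputable def rho (t : unitInterval) : unitInterval :=
  Set.projIcc 0 1 zero_le_one (((t : ℝ) - 3 / 8) * 4)

theorem rho_cont : Continuous rho := by
  unfold rho
  fun_prop

theorem rho_left {t : unitInterval} (ht : (t : ℝ) ≤ 3 / 8) : rho t = 0 :=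
  Set.projIcc_of_le_left _ (by linarith)

theorem rho_right {t : unitInterval} (ht : 5 / 8 ≤ (t : ℝ)) : rho t = 1 :=
  Set.projIcc_of_right_le _ (by linarith)

/-- the rotated function -/
noncomputable def rot (f : MFun (n + 1) (n + 2)) (t : unitInterval) :
    CStarMatrix (Fin (n + 1) × Fin (n + 2)) (Fin (n + 1) × Fin (n + 2)) ℂ :=
  UU n (rho t) * MFun.ev (rho t) f * star (UU n (rho t))

theorem rot_cont (f : MFun (n + 1) (n + 2)) : Continuous (rot f) := by
  unfold rot
  have h1 : Continuous fun t : unitInterval => MFun.ev (rho t) f := by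
    change Continuous fun t : unitInterval => (show C(unitInterval,
      CStarMatrix (Fin (n + 1) × Fin (n + 2)) (Fin (n + 1) × Fin (n + 2)) ℂ) from f) (rho t)
    have := rho_cont
    fun_prop
  have h2 : Continuous fun t : unitInterval => UU n (rho t) :=
    UU_cont.comp (continuous_subtype_val.comp rho_cont)
  exact (h2.mul h1).mul h2.star

theorem rot_cont' (f : MFun (n + 1) (n + 2)) (a b : Fin (n + 1) × Fin (n + 2)) :
    Continuous fun t => rot f t a b :=
  (continuous_apply b).comp ((continuous_apply a).comp (rot_cont f))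

theorem rot_mul (f g : MFun (n + 1) (n + 2)) (t : unitInterval) :
    rot (f * g) t = rot f t * rot g t := by
  unfold rot
  rw [map_mul]
  have h := (UU_star (n := n) (rho t)).1
  calc UU n (rho t) * (MFun.ev (rho t) f * MFun.ev (rho t) g) * star (UU n (rho t))
      = UU n (rho t) * MFun.ev (rho t) f * 1 * MFun.ev (rho t) g * star (UU n (rho t)) := by
        simp only [mul_assoc, one_mul]
    _ = _ := by
        rw [← h]
        simp only [mul_assoc]

theorem rot_one (t : unitInterval) : rot (1 : MFun (n + 1) (n + 2)) t = 1 := by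
  unfold rot
  rw [map_one, mul_one, (UU_star (n := n) (rho t)).2]

theorem rot_star (f : MFun (n + 1) (n + 2)) (t : unitInterval) :
    rot (star f) t = star (rot f t) := by
  unfold rot
  rw [star_mul, star_mul, star_star, map_star, mul_assoc]

/-- the rotated entries -/
noncomputable def fZ (a b : Fin (n + 1) × Fin (n + 2)) :
    DimDrop (n + 1) (n + 2) →ₗ[ℂ] C(unitInterval, ℂ) where
  toFun f := ⟨fun t => rot f.1 t a b, rot_cont' _ _ _⟩
  map_add' f g := by
    have h : (f + g).1 = f.1 + g.1 := rfl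
    ext t
    change rot (f + g).1 t a b = rot f.1 t a b + rot g.1 t a b
    unfold rot
    rw [h, map_add, mul_add, add_mul, CStarMatrix.add_apply]
  map_smul' c f := by
    have h : (c • f).1 = c • f.1 := rfl
    ext t
    change rot (c • f).1 t a b = c * rot f.1 t a b
    unfold rot
    rw [h, map_smul, mul_smul_comm, smul_mul_assoc, CStarMatrix.smul_apply, smul_eq_mul]

theorem fZ_mul (f g : DimDrop (n + 1) (n + 2)) (a b : Fin (n + 1) × Fin (n + 2)) :
    fZ a b (f * g) = ∑ c, fZ a c f * fZ c b g := by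
  ext t
  rw [ContinuousMap.sum_apply]
  change rot (f.1 * g.1) t a b = ∑ c, rot f.1 t a c * rot g.1 t c b
  rw [rot_mul, CStarMatrix.mul_apply]

theorem fZ_one (a b : Fin (n + 1) × Fin (n + 2)) :
    fZ a b (1 : DimDrop (n + 1) (n + 2)) = if a = b then 1 else 0 := by
  ext t
  change rot (1 : MFun (n + 1) (n + 2)) t a b = _
  rw [rot_one, CStarMatrix.one_apply]
  split_ifs <;> rfl

theorem fZ_star (f : DimDrop (n + 1) (n + 2)) (a b : Fin (n + 1) × Fin (n + 2)) :
    fZ a b (star f) = star (fZ b a f) := by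
  ext t
  change rot (star f.1) t a b = star (rot f.1 t b a)
  rw [rot_star, CStarMatrix.star_apply]

theorem rot_left (f : DimDrop (n + 1) (n + 2)) {t : unitInterval} (ht : (t : ℝ) ≤ 3 / 8)
    (a b : Fin (n + 1) × Fin (n + 2)) :
    rot f.1 t a b = if a.2 = b.2 then MFun.ev 0 f.1 (a.1, 0) (b.1, 0) else 0 := by
  unfold rot
  rw [rho_left ht, ← ev0]
  have h : UU n ((0 : unitInterval) : ℝ) = 1 := UU_zero
  rw [h, one_mul, star_one, mul_one]

theorem rot_right (f : DimDrop (n + 1) (n + 2)) {t : unitInterval} (ht : 5 / 8 ≤ (t : ℝ))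
    (a b : Fin (n + 1) × Fin (n + 2)) :
    rot f.1 t a b = if (flipI a).1 = (flipI b).1 then
      MFun.ev 1 f.1 (0, (flipI a).2) (0, (flipI b).2) else 0 := by
  unfold rot
  rw [rho_right ht, ← ev1]
  have h : UU n ((1 : unitInterval) : ℝ) = Fl n := UU_one
  rw [h, Fl_star, mul_Fl, Fl_mul]

end mats

section final

variable {E : Type*} [CStarAlgebra E] {n : ℕ} {k : E}
    {X : Fin (n + 1) → Fin (n + 1) → E} {Y : Fin (n + 2) → Fin (n + 2) → E}
    {Z : Fin (n + 1) × Fin (n + 2) → Fin (n + 1) × Fin (n + 2) → E}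

theorem comp_XZ (h : DropSys n k X Y Z) (f : DimDrop (n + 1) (n + 2)) (g : ℝ → ℝ)
    (hg : Continuous g) (h1 : ∀ t, t ≤ 1 / 4 → g t = 0) (h2 : ∀ t, 3 / 8 ≤ t → g t = 0) :
    zz (Phi h.sa h.spec) X (fun a b => fX a b f) * Phi h.sa h.spec (rs g hg) =
      zz (Phi h.sa h.spec) Z (fun a b => fZ a b f) * Phi h.sa h.spec (rs g hg) := by
  have hX := h.X_Z g hg h1 (fun t ht => h2 t (by linarith))
  rw [Phi_rs h.sa h.spec g hg] at hX
  have hc : zz (Phi h.sa h.spec) Z (fun a b => fZ a b f) * Phi h.sa h.spec (rs g hg) =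
      zz (Phi h.sa h.spec) Z (fun a b => if a.2 = b.2 then fX a.1 b.1 f else 0) *
        Phi h.sa h.spec (rs g hg) := by
    apply zz_congr
    intro a b
    ext t
    rw [ContinuousMap.mul_apply, ContinuousMap.mul_apply]
    by_cases ht : (t : ℝ) ≤ 3 / 8
    · congr 1
      change rot f.1 t a b = _
      rw [rot_left f ht]
      split_ifs <;> rfl
    · have h3 : rs g hg t = 0 := by
        change ((g t : ℝ) : ℂ) = 0
        rw [h2 _ (by linarith), Complex.ofReal_zero]
      rw [h3, mul_zero, mul_zero]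
  rw [hc]
  have hPs : ∀ f, Commute (Phi h.sa h.spec f) (Phi h.sa h.spec (rs g hg)) := by
    intro f
    unfold Commute SemiconjBy
    rw [← map_mul, ← map_mul, mul_comm]
  generalize Phi h.sa h.spec (rs g hg) = s at *
  unfold zz
  simp only [Finset.sum_mul]
  have hl : ∀ i j, X i j * Phi h.sa h.spec (fX i j f) * s =
      ∑ b, Z (i, b) (j, b) * Phi h.sa h.spec (fX i j f) * s := by
    intro i j
    rw [mul_assoc, (hPs _).eq, ← mul_assoc, hX, Finset.sum_mul, Finset.sum_mul]
    refine Finset.sum_congr rfl fun b _ => ?_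
    rw [mul_assoc, ← (hPs _).eq, mul_assoc]
  simp only [hl, Fintype.sum_prod_type]
  refine Finset.sum_congr rfl fun i _ => ?_
  rw [Finset.sum_comm]
  refine Finset.sum_congr rfl fun b _ => Finset.sum_congr rfl fun j _ => ?_
  rw [Finset.sum_eq_single b]
  · rw [if_pos rfl]
  · intro b' _ hb
    rw [if_neg (Ne.symm hb), map_zero, mul_zero, zero_mul]
  · intro hb
    exact absurd (Finset.mem_univ _) hb

/-- the flip as an equivalence -/
def flE (n : ℕ) : Fin (n + 1) × Fin (n + 2) ≃ Fin (n + 1) × Fin (n + 2) :=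
  ⟨flipI, flipI, flip_flip, flip_flip⟩

theorem comp_YZ (h : DropSys n k X Y Z) (f : DimDrop (n + 1) (n + 2)) (g : ℝ → ℝ)
    (hg : Continuous g) (h1 : ∀ t, t ≤ 5 / 8 → g t = 0) (h2 : ∀ t, 3 / 4 ≤ t → g t = 0) :
    zz (Phi h.sa h.spec) Y (fun a b => fY a b f) * Phi h.sa h.spec (rs g hg) =
      zz (Phi h.sa h.spec) Z (fun a b => fZ a b f) * Phi h.sa h.spec (rs g hg) := by
  have hY := h.Y_Z g hg (fun t ht => h1 t (by linarith)) h2
  rw [Phi_rs h.sa h.spec g hg] at hY
  have hc : zz (Phi h.sa h.spec) Z (fun a b => fZ a b f) * Phi h.sa h.spec (rs g hg) =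
      zz (Phi h.sa h.spec) Z (fun a b => if (flipI a).1 = (flipI b).1 then
        fY (flipI a).2 (flipI b).2 f else 0) * Phi h.sa h.spec (rs g hg) := by
    apply zz_congr
    intro a b
    ext t
    rw [ContinuousMap.mul_apply, ContinuousMap.mul_apply]
    by_cases ht : 5 / 8 ≤ (t : ℝ)
    · congr 1
      change rot f.1 t a b = _
      rw [rot_right f ht]
      split_ifs <;> rfl
    · have h3 : rs g hg t = 0 := by
        change ((g t : ℝ) : ℂ) = 0
        rw [h1 _ (by linarith), Complex.ofReal_zero]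
      rw [h3, mul_zero, mul_zero]
  rw [hc]
  have hfl : zz (Phi h.sa h.spec) Z (fun a b => if (flipI a).1 = (flipI b).1 then
        fY (flipI a).2 (flipI b).2 f else 0) = ∑ a, ∑ b, Z (flipI a) (flipI b) *
          Phi h.sa h.spec (if a.1 = b.1 then fY a.2 b.2 f else 0) := by
    unfold zz
    rw [← (flE n).sum_comp]
    refine Finset.sum_congr rfl fun a _ => ?_
    rw [← (flE n).sum_comp]
    refine Finset.sum_congr rfl fun b _ => ?_
    change Z (flipI a) (flipI b) * Phi h.sa h.spec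
      (if (flipI (flipI a)).1 = (flipI (flipI b)).1 then
        fY (flipI (flipI a)).2 (flipI (flipI b)).2 f else 0) = _
    rw [flip_flip, flip_flip]
  rw [hfl]
  have hPs : ∀ f, Commute (Phi h.sa h.spec f) (Phi h.sa h.spec (rs g hg)) := by
    intro f
    unfold Commute SemiconjBy
    rw [← map_mul, ← map_mul, mul_comm]
  generalize Phi h.sa h.spec (rs g hg) = s at *
  unfold zz
  simp only [Finset.sum_mul]
  have hl : ∀ a b, Y a b * Phi h.sa h.spec (fY a b f) * s =
      ∑ i, Z (flipI (i, a)) (flipI (i, b)) * Phi h.sa h.spec (fY a b f) * s := by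
    intro a b
    rw [mul_assoc, (hPs _).eq, ← mul_assoc, hY, Finset.sum_mul, Finset.sum_mul]
    refine Finset.sum_congr rfl fun i _ => ?_
    rw [mul_assoc, ← (hPs _).eq, mul_assoc]
  simp only [hl, Fintype.sum_prod_type_right]
  refine Finset.sum_congr rfl fun a _ => ?_
  rw [Finset.sum_comm]
  refine Finset.sum_congr rfl fun i _ => Finset.sum_congr rfl fun b _ => ?_
  rw [Finset.sum_eq_single i]
  · rw [if_pos rfl]
  · intro i' _ hb
    rw [if_neg (Ne.symm hb), map_zero, mul_zero, zero_mul]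
  · intro hb
    exact absurd (Finset.mem_univ _) hb

/-- cutoffs -/
noncomputable def c0 (t : ℝ) : ℝ := max 0 (min 1 ((3 / 8 - t) * 16))

/-- cutoffs -/
noncomputable def c2 (t : ℝ) : ℝ := max 0 (min 1 ((t - 5 / 8) * 16))

theorem c0_nonneg (t : ℝ) : 0 ≤ c0 t := le_max_left _ _

theorem c2_nonneg (t : ℝ) : 0 ≤ c2 t := le_max_left _ _

theorem c0_le (t : ℝ) : c0 t ≤ 1 := max_le zero_le_one (min_le_left _ _)

theorem c2_le (t : ℝ) : c2 t ≤ 1 := max_le zero_le_one (min_le_left _ _)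

theorem c0_zero {t : ℝ} (ht : 3 / 8 ≤ t) : c0 t = 0 :=
  max_eq_left ((min_le_right _ _).trans (by linarith))

theorem c2_zero {t : ℝ} (ht : t ≤ 5 / 8) : c2 t = 0 :=
  max_eq_left ((min_le_right _ _).trans (by linarith))

theorem c0_one {t : ℝ} (ht : t ≤ 5 / 16) : c0 t = 1 := by
  unfold c0
  rw [min_eq_left (by linarith), max_eq_right zero_le_one]

theorem c2_one {t : ℝ} (ht : 11 / 16 ≤ t) : c2 t = 1 := by
  unfold c2
  rw [min_eq_left (by linarith), max_eq_right zero_le_one]

theorem c1_nonneg (t : ℝ) : 0 ≤ 1 - c0 t - c2 t := by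
  rcases le_total t (5 / 8) with h | h
  · rw [c2_zero h]
    linarith [c0_le t]
  · rw [c0_zero (by linarith)]
    linarith [c2_le t]

/-- square roots of the cutoffs -/
noncomputable def s0 (t : ℝ) : ℝ := √(c0 t)

/-- square roots of the cutoffs -/
noncomputable def s1 (t : ℝ) : ℝ := √(1 - c0 t - c2 t)

/-- square roots of the cutoffs -/
noncomputable def s2 (t : ℝ) : ℝ := √(c2 t)

theorem c0_cont : Continuous c0 := by unfold c0; fun_prop

theorem c2_cont : Continuous c2 := by unfold c2; fun_prop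

theorem s0_cont : Continuous s0 := c0_cont.sqrt

theorem s2_cont : Continuous s2 := c2_cont.sqrt

theorem s1_cont : Continuous s1 := ((continuous_const.sub c0_cont).sub c2_cont).sqrt

theorem s0_zero {t : ℝ} (ht : 3 / 8 ≤ t) : s0 t = 0 := by
  unfold s0
  rw [c0_zero ht, Real.sqrt_zero]

theorem s2_zero {t : ℝ} (ht : t ≤ 5 / 8) : s2 t = 0 := by
  unfold s2
  rw [c2_zero ht, Real.sqrt_zero]

theorem s1_zero {t : ℝ} (ht : t ≤ 5 / 16) : s1 t = 0 := by
  unfold s1
  rw [c0_one ht, c2_zero (by linarith), sub_self, sub_zero, Real.sqrt_zero]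

theorem s1_zero' {t : ℝ} (ht : 11 / 16 ≤ t) : s1 t = 0 := by
  unfold s1
  rw [c2_one ht, c0_zero (by linarith), sub_zero, sub_self, Real.sqrt_zero]

theorem s_sum (t : ℝ) : s0 t * s0 t + s1 t * s1 t + s2 t * s2 t = 1 := by
  unfold s0 s1 s2
  rw [Real.mul_self_sqrt (c0_nonneg t), Real.mul_self_sqrt (c1_nonneg t),
    Real.mul_self_sqrt (c2_nonneg t)]
  ring

theorem rs_mul (g g' : ℝ → ℝ) (hg : Continuous g) (hg' : Continuous g') :
    rs g hg * rs g' hg' = rs (fun t => g t * g' t) (hg.mul hg') := by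
  ext t
  change ((g t : ℝ) : ℂ) * ((g' t : ℝ) : ℂ) = ((g t * g' t : ℝ) : ℂ)
  rw [Complex.ofReal_mul]

theorem rs_star (g : ℝ → ℝ) (hg : Continuous g) : star (rs g hg) = rs g hg := by
  ext t
  change star ((g t : ℝ) : ℂ) = ((g t : ℝ) : ℂ)
  exact Complex.conj_ofReal _

theorem sum_Z (h : DropSys n k X Y Z) (g : ℝ → ℝ)
    (hg : Continuous g) (h1 : ∀ t, t ≤ 1 / 4 → g t = 0) (h2 : ∀ t, 3 / 4 ≤ t → g t = 0) :
    (∑ a, Z a a) * cfc g k = cfc g k := by
  rw [Fintype.sum_prod_type, Finset.sum_mul]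
  simp only [← h.X_Z g hg h1 h2]
  rw [← Finset.sum_mul, h.sum_X g hg h2]

theorem main (h : DropSys n k X Y Z) : Nonempty (DimDrop (n + 1) (n + 2) →⋆ₐ[ℂ] E) := by
  obtain ⟨Φ, hΦ⟩ : ∃ Φ, Φ = Phi h.sa h.spec := ⟨_, rfl⟩
  have hcf : ∀ (g : ℝ → ℝ) (hg : Continuous g), cfc g k = Φ (rs g hg) := by
    intro g hg
    rw [hΦ]
    exact Phi_rs h.sa h.spec g hg
  have hPX : ∀ a b f, Commute (Φ f) (X a b) := by
    intro a b f
    rw [hΦ]
    exact Phi_comm _ _ (h.comm_X a b) f
  have hPY : ∀ a b f, Commute (Φ f) (Y a b) := by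
    intro a b f
    rw [hΦ]
    exact Phi_comm _ _ (h.comm_Y a b) f
  have hPZ : ∀ a b f, Commute (Φ f) (Z a b) := by
    intro a b f
    rw [hΦ]
    exact Phi_comm _ _ (h.comm_Z a b) f
  have hPP : ∀ f f', Commute (Φ f) (Φ f') := by
    intro f f'
    unfold Commute SemiconjBy
    rw [← map_mul, ← map_mul, mul_comm]
  -- compatibility
  have hXZ : ∀ f : DimDrop (n + 1) (n + 2), zl Φ X fX f * (Φ (rs s0 s0_cont) * Φ (rs s1 s1_cont)) =
      zl Φ Z fZ f * (Φ (rs s0 s0_cont) * Φ (rs s1 s1_cont)) := by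
    intro f
    rw [← map_mul, rs_mul, zl_apply, zl_apply, hΦ]
    refine comp_XZ h f _ _ (fun t ht => ?_) (fun t ht => ?_)
    · rw [s1_zero (by linarith), mul_zero]
    · rw [s0_zero ht, zero_mul]
  have hYZ : ∀ f : DimDrop (n + 1) (n + 2), zl Φ Y fY f * (Φ (rs s2 s2_cont) * Φ (rs s1 s1_cont)) =
      zl Φ Z fZ f * (Φ (rs s2 s2_cont) * Φ (rs s1 s1_cont)) := by
    intro f
    rw [← map_mul, rs_mul, zl_apply, zl_apply, hΦ]
    refine comp_YZ h f _ _ (fun t ht => ?_) (fun t ht => ?_)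
    · rw [s2_zero ht, zero_mul]
    · rw [s1_zero' (by linarith), mul_zero]
  have h02 : Φ (rs s0 s0_cont) * Φ (rs s2 s2_cont) = 0 := by
    rw [← map_mul, rs_mul]
    have : rs (fun t => s0 t * s2 t) (s0_cont.mul s2_cont) = 0 := by
      ext t
      change ((s0 t * s2 t : ℝ) : ℂ) = 0
      rcases le_total (t : ℝ) (5 / 8) with ht | ht
      · rw [s2_zero ht, mul_zero, Complex.ofReal_zero]
      · rw [s0_zero (by linarith), zero_mul, Complex.ofReal_zero]
    rw [this, map_zero]
  refine glue ![zl Φ X fX, zl Φ Z fZ, zl Φ Y fY]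
    ![Φ (rs s0 s0_cont), Φ (rs s1 s1_cont), Φ (rs s2 s2_cont)] ?_ ?_ ?_ ?_ ?_ ?_ ?_ ?_
  · simp only [Fin.sum_univ_three, Matrix.cons_val_zero, Matrix.cons_val_one, Matrix.cons_val]
    rw [← map_mul, ← map_mul, ← map_mul, ← map_add, ← map_add, ← map_one Φ]
    congr 1
    ext t
    change ((s0 t : ℝ) : ℂ) * ((s0 t : ℝ) : ℂ) + ((s1 t : ℝ) : ℂ) * ((s1 t : ℝ) : ℂ) +
      ((s2 t : ℝ) : ℂ) * ((s2 t : ℝ) : ℂ) = 1
    rw [← Complex.ofReal_mul, ← Complex.ofReal_mul, ← Complex.ofReal_mul, ← Complex.ofReal_add,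
      ← Complex.ofReal_add, s_sum, Complex.ofReal_one]
  · intro r
    fin_cases r
    all_goals exact (map_star Φ _).symm.trans (congrArg Φ (rs_star _ _))
  · intro r q
    fin_cases r <;> fin_cases q
    all_goals exact hPP _ _
  · intro r q f
    fin_cases r <;> fin_cases q
    all_goals first
      | exact zz_comm hPX _ _
      | exact zz_comm hPZ _ _
      | exact zz_comm hPY _ _
  · intro r f g
    fin_cases r
    · change zz Φ X (fun a b => fX a b f) * zz Φ X (fun a b => fX a b g) * Φ (rs s0 s0_cont) =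
        zz Φ X (fun a b => fX a b (f * g)) * Φ (rs s0 s0_cont)
      simp only [fX_mul]
      refine zz_mul hPX (fun f => hPP _ _) ?_ _ _
      rw [← hcf]
      exact h.mul_X s0 s0_cont (fun t ht => s0_zero (by linarith))
    · change zz Φ Z (fun a b => fZ a b f) * zz Φ Z (fun a b => fZ a b g) * Φ (rs s1 s1_cont) =
        zz Φ Z (fun a b => fZ a b (f * g)) * Φ (rs s1 s1_cont)
      simp only [fZ_mul]
      refine zz_mul hPZ (fun f => hPP _ _) ?_ _ _
      rw [← hcf]
      exact h.mul_Z s1 s1_cont (fun t ht => s1_zero (by linarith)) (fun t ht => s1_zero' (by linarith))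
    · change zz Φ Y (fun a b => fY a b f) * zz Φ Y (fun a b => fY a b g) * Φ (rs s2 s2_cont) =
        zz Φ Y (fun a b => fY a b (f * g)) * Φ (rs s2 s2_cont)
      simp only [fY_mul]
      refine zz_mul hPY (fun f => hPP _ _) ?_ _ _
      rw [← hcf]
      exact h.mul_Y s2 s2_cont (fun t ht => s2_zero (by linarith))
  · intro r
    fin_cases r
    · change zz Φ X (fun a b => fX a b 1) * Φ (rs s0 s0_cont) = Φ (rs s0 s0_cont)
      simp only [fX_one]
      refine zz_one ?_
      rw [← hcf]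
      exact h.sum_X s0 s0_cont (fun t ht => s0_zero (by linarith))
    · change zz Φ Z (fun a b => fZ a b 1) * Φ (rs s1 s1_cont) = Φ (rs s1 s1_cont)
      simp only [fZ_one]
      refine zz_one ?_
      rw [← hcf]
      exact sum_Z h s1 s1_cont (fun t ht => s1_zero (by linarith)) (fun t ht => s1_zero' (by linarith))
    · change zz Φ Y (fun a b => fY a b 1) * Φ (rs s2 s2_cont) = Φ (rs s2 s2_cont)
      simp only [fY_one]
      refine zz_one ?_
      rw [← hcf]
      exact h.sum_Y s2 s2_cont (fun t ht => s2_zero (by linarith))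
  · intro r q f
    fin_cases r <;> fin_cases q
    · rfl
    · exact hXZ f
    · change zl Φ X fX f * (Φ (rs s0 s0_cont) * Φ (rs s2 s2_cont)) =
        zl Φ Y fY f * (Φ (rs s0 s0_cont) * Φ (rs s2 s2_cont))
      rw [h02, mul_zero, mul_zero]
    · change zl Φ Z fZ f * (Φ (rs s1 s1_cont) * Φ (rs s0 s0_cont)) =
        zl Φ X fX f * (Φ (rs s1 s1_cont) * Φ (rs s0 s0_cont))
      rw [(hPP _ _).eq]
      exact (hXZ f).symm
    · rfl
    · change zl Φ Z fZ f * (Φ (rs s1 s1_cont) * Φ (rs s2 s2_cont)) =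
        zl Φ Y fY f * (Φ (rs s1 s1_cont) * Φ (rs s2 s2_cont))
      rw [(hPP _ _).eq]
      exact (hYZ f).symm
    · change zl Φ Y fY f * (Φ (rs s2 s2_cont) * Φ (rs s0 s0_cont)) =
        zl Φ X fX f * (Φ (rs s2 s2_cont) * Φ (rs s0 s0_cont))
      rw [(hPP _ _).eq, h02, mul_zero, mul_zero]
    · exact hYZ f
    · rfl
  · intro r f
    fin_cases r
    · change zz Φ X (fun a b => fX a b (star f)) = star (zz Φ X (fun a b => fX a b f))
      rw [zz_star hPX h.star_X]
      simp only [fX_star]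
    · change zz Φ Z (fun a b => fZ a b (star f)) = star (zz Φ Z (fun a b => fZ a b f))
      rw [zz_star hPZ h.star_Z]
      simp only [fZ_star]
    · change zz Φ Y (fun a b => fY a b (star f)) = star (zz Φ Y (fun a b => fY a b f))
      rw [zz_star hPY h.star_Y]
      simp only [fY_star]

end final

end DropHomAux

open DropHomAux

theorem exists_hom_of_dropSys {E : Type*} [CStarAlgebra E] {n : ℕ} {k : E}
    {X : Fin (n + 1) → Fin (n + 1) → E} {Y : Fin (n + 2) → Fin (n + 2) → E}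
    {Z : Fin (n + 1) × Fin (n + 2) → Fin (n + 1) × Fin (n + 2) → E} (h : DropSys n k X Y Z) :
    Nonempty (DimDrop (n + 1) (n + 2) →⋆ₐ[ℂ] E) :=
  main h

theorem exists_hom_of_rw {E : Type*} [CStarAlgebra E] {n : ℕ} (h : HasRW n E) :
    Nonempty (DimDrop (n + 1) (n + 2) →⋆ₐ[ℂ] E) := by
  obtain ⟨k, X, Y, Z, h⟩ := exists_dropSys h
  exact exists_hom_of_dropSys h

end Pool.Agent.Lib.EJS
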