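import Mathlib

/-!
# The flip property: definition

`Flip i κ ι b`: `i : A → C`, `κ : C → D`, `ι : A' → D`, `b g : D → D`.  There are unitaries in `D` which
approximately commute with the images of elements of `A`, are approximately fixed by the `b g` and
conjugate given elements of `C` approximately into the range of `ι`.
-/

open scoped ComplexOrder
open Filter Topology

namespace Pool.Agent.Lib.EJS

/-- the flip property, see the header -/
def Flip {A C D A' : Type*} [CStarAlgebra A] [CStarAlgebra C] [CStarAlgebra D] [CStarAlgebra A']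
    {G : Type*} (i : A →⋆ₐ[ℂ] C) (κ : C →⋆ₐ[ℂ] D) (ι : A' →⋆ₐ[ℂ] D)
    (b : G → (D →⋆ₐ[ℂ] D)) : Prop :=
  ∀ (F : Finset A) (S : Finset C) (K : Finset G) (ε : ℝ), 0 < ε → ∃ v ∈ unitary D,
    (∀ a ∈ F, ‖v * κ (i a) - κ (i a) * v‖ < ε) ∧ (∀ g ∈ K, ‖b g v - v‖ < ε) ∧
    ∀ c ∈ S, ∃ x : A', ‖star v * κ c * v - ι x‖ < ε

end Pool.Agent.Lib.EJS
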