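import Pool.Agent.Lib.EJS.Quot
import Pool.Agent.Lib.EqGamma.GLim

/-!
# The sequence algebra `ℓ^∞(ℕ, A) / c_0(ℕ, A)`
-/

open scoped ComplexOrder BoundedContinuousFunction
open Filter Topology Pool.Agent.Lib.EqGamma

namespace Pool.Agent.Lib.EJS

universe u v

variable {A : Type u} [CStarAlgebra A] {B : Type v} [CStarAlgebra B]

theorem shom_norm_le {C : Type*} [CStarAlgebra C] (φ : A →⋆ₐ[ℂ] C) (x : A) : ‖φ x‖ ≤ ‖x‖ :=
  NonUnitalStarAlgHom.norm_apply_le φ x

theorem shom_continuous {C : Type*} [CStarAlgebra C] (φ : A →⋆ₐ[ℂ] C) : Continuous φ :=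
  AddMonoidHomClass.continuous_of_bound φ 1 fun a => by rw [one_mul]; exact shom_norm_le φ a

theorem BF_norm_le {J : Type*} {x : BF J A} {c : ℝ} (hc : 0 ≤ c) (h : ∀ j, ‖BF.ev j x‖ ≤ c) :
    ‖x‖ ≤ c :=
  (BoundedContinuousFunction.norm_le (f := (show Disc J →ᵇ A from x)) hc).2 h

/-- apply a homomorphism in every coordinate -/
noncomputable def BFmap {J : Type*} (φ : A →⋆ₐ[ℂ] B) : BF J A →⋆ₐ[ℂ] BF J B where
  toFun x := BF.mk (fun j => φ (BF.ev j x)) ‖x‖
    (fun j => (shom_norm_le φ _).trans (BF.norm_ev_le x j))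
  map_one' := BF.ext fun j => by rw [BF.ev_mk, map_one, map_one, map_one]
  map_mul' x y := BF.ext fun j => by
    rw [BF.ev_mk, map_mul, map_mul, map_mul, BF.ev_mk, BF.ev_mk]
  map_zero' := BF.ext fun j => by rw [BF.ev_mk, map_zero, map_zero, map_zero]
  map_add' x y := BF.ext fun j => by
    rw [BF.ev_mk, map_add, map_add, map_add, BF.ev_mk, BF.ev_mk]
  commutes' r := BF.ext fun j => by
    rw [BF.ev_mk, AlgHomClass.commutes, AlgHomClass.commutes, AlgHomClass.commutes]
  map_star' x := BF.ext fun j => by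
    rw [BF.ev_mk, map_star, map_star, map_star, BF.ev_mk]

@[simp] theorem ev_BFmap {J : Type*} (φ : A →⋆ₐ[ℂ] B) (x : BF J A) (j : J) :
    BF.ev j (BFmap φ x) = φ (BF.ev j x) := rfl

/-- the ideal of sequences tending to zero -/
def c0 (A : Type u) [CStarAlgebra A] : CIdeal (BF ℕ A) where
  ideal :=
    { carrier := {x | Tendsto (fun n => BF.ev n x) atTop (𝓝 0)}
      add_mem' := by
        intro x y hx hy
        have := Tendsto.add hx hy
        simpa only [Set.mem_ofPred_eq, map_add, add_zero] using this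
      zero_mem' := by
        simp only [Set.mem_ofPred_eq, map_zero]
        exact tendsto_const_nhds
      smul_mem' := by
        intro c x hx
        simp only [Set.mem_ofPred_eq, smul_eq_mul, map_mul] at hx ⊢
        rw [tendsto_zero_iff_norm_tendsto_zero] at hx ⊢
        refine squeeze_zero (fun _ => norm_nonneg _) (fun n => ?_)
          (by simpa using hx.const_mul ‖c‖)
        exact (norm_mul_le _ _).trans
          (mul_le_mul_of_nonneg_right (BF.norm_ev_le c n) (norm_nonneg _)) }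
  mul_right' := by
    intro x c hx
    change Tendsto _ _ _ at hx
    change Tendsto _ _ _
    simp only [map_mul] at hx ⊢
    rw [tendsto_zero_iff_norm_tendsto_zero] at hx ⊢
    refine squeeze_zero (fun _ => norm_nonneg _) (fun n => ?_)
      (by simpa using hx.mul_const ‖c‖)
    exact (norm_mul_le _ _).trans
      (mul_le_mul_of_nonneg_left (BF.norm_ev_le c n) (norm_nonneg _))
  star_mem' := by
    intro x hx
    change Tendsto _ _ _ at hx
    change Tendsto _ _ _
    simp only [map_star]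
    simpa using hx.star
  closed' := by
    rw [← isSeqClosed_iff_isClosed]
    intro x y hx hxy
    change Tendsto _ _ _
    rw [Metric.tendsto_nhds]
    intro ε hε
    obtain ⟨k, hk⟩ := ((Metric.tendsto_nhds.1 hxy) (ε / 2) (half_pos hε)).exists
    have h1 := (Metric.tendsto_nhds.1 (show Tendsto (fun n => BF.ev n (x k)) atTop (𝓝 0) from hx k))
      (ε / 2) (half_pos hε)
    filter_upwards [h1] with n hn
    rw [dist_zero_right] at hn ⊢
    rw [dist_eq_norm] at hk
    have h2 : BF.ev n y = BF.ev n (x k) - BF.ev n (x k - y) := by rw [map_sub]; abel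
    rw [h2]
    have h3 := BF.norm_ev_le (x k - y) n
    have h4 := norm_sub_le (BF.ev n (x k)) (BF.ev n (x k - y))
    linarith

theorem mem_c0 {x : BF ℕ A} : x ∈ c0 A ↔ Tendsto (fun n => BF.ev n x) atTop (𝓝 0) := Iff.rfl

/-- bounded sequences modulo sequences tending to zero -/
abbrev Seq (A : Type u) [CStarAlgebra A] : Type u := CQ (c0 A)

namespace Seq

/-- the class of a bounded sequence -/
noncomputable def of : BF ℕ A →⋆ₐ[ℂ] Seq A := CQ.mk (c0 A)

theorem of_surjective : Function.Surjective (of : BF ℕ A → Seq A) := CQ.mk_surjective _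

theorem norm_of_le (x : BF ℕ A) : ‖of x‖ ≤ ‖x‖ := CQ.norm_mk_le _ x

theorem continuous_of : Continuous (of : BF ℕ A → Seq A) := CQ.continuous_mk _

theorem exists_lift (y : Seq A) : ∃ x : BF ℕ A, of x = y ∧ ‖x‖ ≤ ‖y‖ := CQ.exists_lift _ y

theorem of_eq_zero {x : BF ℕ A} : of x = 0 ↔ Tendsto (fun n => BF.ev n x) atTop (𝓝 0) :=
  CQ.mk_eq_zero _

theorem of_eq_of {x y : BF ℕ A} :
    of x = of y ↔ Tendsto (fun n => BF.ev n x - BF.ev n y) atTop (𝓝 0) := by
  rw [← sub_eq_zero, ← map_sub, of_eq_zero]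
  simp only [map_sub]

/-- eventually small coordinates -/
theorem eventually_lt {x : BF ℕ A} {c : ℝ} (h : ‖of x‖ < c) : ∀ᶠ n in atTop, ‖BF.ev n x‖ < c := by
  obtain ⟨y, hy, hxy⟩ := (CQ.norm_mk_lt_iff (c0 A)).1 h
  have h1 := (Metric.tendsto_nhds.1 (mem_c0.1 hy)) (c - ‖x + y‖) (sub_pos.2 hxy)
  filter_upwards [h1] with n hn
  rw [dist_zero_right] at hn
  have h2 : BF.ev n x = BF.ev n (x + y) - BF.ev n y := by rw [map_add]; abel
  rw [h2]
  have h3 := BF.norm_ev_le (x + y) n
  have h4 := norm_sub_le (BF.ev n (x + y)) (BF.ev n y)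
  linarith

theorem norm_le_of_eventually {x : BF ℕ A} {c : ℝ} (hc : 0 ≤ c)
    (h : ∀ᶠ n in atTop, ‖BF.ev n x‖ ≤ c) : ‖of x‖ ≤ c := by
  classical
  obtain ⟨N, hN⟩ := eventually_atTop.1 h
  have h1 : of x = of (BF.mk (fun n => if N ≤ n then BF.ev n x else 0) c fun n => by
      split_ifs with h
      · exact hN n h
      · rwa [norm_zero]) := by
    rw [of_eq_of]
    refine tendsto_const_nhds.congr' ?_
    filter_upwards [eventually_ge_atTop N] with n hn
    rw [BF.ev_mk, if_pos hn, sub_self]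
  rw [h1]
  refine (norm_of_le _).trans ?_
  refine BF_norm_le hc fun n => ?_
  rw [BF.ev_mk]
  split_ifs with h
  · exact hN n h
  · rwa [norm_zero]

/-- the norm is the limsup of the norms of the coordinates -/
theorem norm_le_iff {x : BF ℕ A} {c : ℝ} (hc : 0 ≤ c) :
    ‖of x‖ ≤ c ↔ ∀ ε : ℝ, 0 < ε → ∀ᶠ n in atTop, ‖BF.ev n x‖ ≤ c + ε := by
  constructor
  · intro h ε hε
    filter_upwards [eventually_lt (x := x) (c := c + ε) (by linarith)] with n hn
    exact hn.le
  · intro h
    refine le_of_forall_pos_le_add fun ε hε => ?_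
    exact norm_le_of_eventually (by positivity) (h ε hε)

/-- constant sequences -/
noncomputable def const : A →⋆ₐ[ℂ] Seq A := of.comp (BF.cstHom ℕ A)

theorem const_apply (a : A) : const a = of (BF.cst a) := rfl

theorem norm_const (a : A) : ‖const a‖ = ‖a‖ := by
  refine le_antisymm (shom_norm_le _ _) ?_
  refine le_of_forall_pos_le_add fun ε hε => ?_
  obtain ⟨n, hn⟩ := (eventually_lt (x := BF.cst a) (c := ‖const a‖ + ε)
    (by rw [← const_apply]; linarith)).exists
  rw [BF.ev_cst] at hn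
  exact hn.le

theorem const_injective : Function.Injective (const : A → Seq A) := by
  intro a b h
  have := norm_const (a - b)
  rw [map_sub, h, sub_self, norm_zero] at this
  exact sub_eq_zero.1 (norm_eq_zero.1 this.symm)

/-- apply a homomorphism in every coordinate -/
noncomputable def map (φ : A →⋆ₐ[ℂ] B) : Seq A →⋆ₐ[ℂ] Seq B :=
  CQ.lift (of.comp (BFmap φ)) (by
    intro x hx
    rw [StarAlgHom.comp_apply, of_eq_zero]
    have := ((shom_continuous φ).tendsto 0).comp (mem_c0.1 hx)
    rw [map_zero] at this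
    exact this)

@[simp] theorem map_of (φ : A →⋆ₐ[ℂ] B) (x : BF ℕ A) : map φ (of x) = of (BFmap φ x) := rfl

@[simp] theorem map_const (φ : A →⋆ₐ[ℂ] B) (a : A) : map φ (const a) = const (φ a) := rfl

theorem map_id (x : Seq A) : map (StarAlgHom.id ℂ A) x = x := by
  obtain ⟨x, rfl⟩ := of_surjective x
  rfl

theorem map_map {C : Type*} [CStarAlgebra C] (ψ : B →⋆ₐ[ℂ] C) (φ : A →⋆ₐ[ℂ] B) (x : Seq A) :
    map ψ (map φ x) = map (ψ.comp φ) x := by
  obtain ⟨x, rfl⟩ := of_surjective x
  rfl

/-- pass to a subsequence -/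
noncomputable def sub (m : ℕ → ℕ) (hm : Tendsto m atTop atTop) : Seq A →⋆ₐ[ℂ] Seq A :=
  CQ.lift (of.comp (BF.comp m)) (by
    intro x hx
    rw [StarAlgHom.comp_apply, of_eq_zero]
    exact (mem_c0.1 hx).comp hm)

@[simp] theorem sub_of (m : ℕ → ℕ) (hm : Tendsto m atTop atTop) (x : BF ℕ A) :
    sub m hm (of x) = of (BF.comp m x) := rfl

@[simp] theorem sub_const (m : ℕ → ℕ) (hm : Tendsto m atTop atTop) (a : A) :
    sub m hm (const a) = const a := rfl

theorem sub_map (m : ℕ → ℕ) (hm : Tendsto m atTop atTop) (φ : A →⋆ₐ[ℂ] B) (x : Seq A) :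
    sub m hm (map φ x) = map φ (sub m hm x) := by
  obtain ⟨x, rfl⟩ := of_surjective x
  rfl

/-- central sequences -/
def Central (x : Seq A) : Prop := ∀ a : A, Commute (const a) x

section action

variable {G : Type*} [Group G] (α : G →* (A ≃⋆ₐ[ℂ] A))

/-- the coordinatewise action on the sequence algebra -/
noncomputable def act (g : G) : Seq A →⋆ₐ[ℂ] Seq A := map (α g : A →⋆ₐ[ℂ] A)

theorem act_const (g : G) (a : A) : act α g (const a) = const (α g a) := rfl

theorem act_one (x : Seq A) : act α 1 x = x := by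
  obtain ⟨x, rfl⟩ := of_surjective x
  change of (BFmap _ x) = of x
  congr 1
  apply BF.ext
  intro n
  rw [ev_BFmap, map_one]
  rfl

theorem act_mul (g h : G) (x : Seq A) : act α (g * h) x = act α g (act α h x) := by
  obtain ⟨x, rfl⟩ := of_surjective x
  change of (BFmap _ x) = of (BFmap _ (BFmap _ x))
  congr 1
  apply BF.ext
  intro n
  rw [ev_BFmap, map_mul]
  rfl

theorem act_inv_act (g : G) (x : Seq A) : act α g⁻¹ (act α g x) = x := by
  rw [← act_mul, inv_mul_cancel, act_one]

theorem act_act_inv (g : G) (x : Seq A) : act α g (act α g⁻¹ x) = x := by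
  rw [← act_mul, mul_inv_cancel, act_one]

theorem norm_act (g : G) (x : Seq A) : ‖act α g x‖ = ‖x‖ := by
  refine le_antisymm (shom_norm_le _ _) ?_
  conv_lhs => rw [← act_inv_act α g x]
  exact shom_norm_le _ _

theorem Central.act {x : Seq A} (hx : Central x) (g : G) : Central (act α g x) := by
  intro a
  have h1 := (hx ((α g)⁻¹ a)).map (Seq.act α g)
  rw [act_const] at h1
  have h2 : α g ((α g)⁻¹ a) = a := by
    rw [← StarAlgEquiv.mul_apply, mul_inv_cancel, StarAlgEquiv.one_apply]
  rwa [h2] at h1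

end action

/-- invariant sequences -/
def Invariant {G : Type*} [Group G] (α : G →* (A ≃⋆ₐ[ℂ] A)) (x : Seq A) : Prop :=
  ∀ g, act α g x = x

end Seq

end Pool.Agent.Lib.EJS
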