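import Pool.Agent.Lib.EJS.FlipDefs
import Pool.Agent.Lib.EJS.Seq

/-!
# The flip property passes from `Seq D` to `D`

PROOF.  Given `F, S, K, ε` take a unitary `v ∈ Seq D` for `ε / 2` (and elements `x_c : Seq A'`).  Lift `v` to a
bounded sequence `y n`; `star (y n) * y n → 1` and `y n * star (y n) → 1`, so for large `n` both are invertible
and `v n := y n * (star (y n) * y n)^{-1/2}` is a unitary, `v n - y n → 0`.  (So unitaries of `Seq D` lift to
sequences of unitaries.)  All the norms in `Flip` are coordinatewise limsups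
(`Seq.eventually_lt`), so for a large coordinate `n` the unitary `v n` and the coordinates of lifts of
the `x_c` work.
-/

open scoped ComplexOrder
open Filter Topology Pool.Agent.Lib.EqGamma

namespace Pool.Agent.Lib.EJS

theorem exists_unitary_lift {D : Type*} [CStarAlgebra D] {v : Seq D} (hv : v ∈ unitary (Seq D)) :
    ∃ x : BF ℕ D, Seq.of x = v ∧ ∀ᶠ n in atTop, BF.ev n x ∈ unitary D := by
  obtain ⟨y, rfl⟩ := Seq.of_surjective v
  rcases subsingleton_or_nontrivial D with hD | hD
  · exact ⟨y, rfl, Eventually.of_forall fun n => by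
      rw [Unitary.mem_iff]
      exact ⟨Subsingleton.elim _ _, Subsingleton.elim _ _⟩⟩
  set f : ℝ → ℝ := fun t => (√(max t (1 / 2)))⁻¹ with hf
  have hfc : Continuous f := by
    refine Continuous.inv₀ (by fun_prop) fun t => ?_
    exact (Real.sqrt_pos.2 (lt_max_of_lt_right (by norm_num))).ne'
  have hf1 : f 1 = 1 := by
    change (√(max 1 (1 / 2)))⁻¹ = 1
    rw [max_eq_left (by norm_num), Real.sqrt_one, inv_one]
  have hfm : ∀ t : ℝ, 1 / 2 ≤ t → f t * (t * f t) = 1 := by
    intro t ht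
    change (√(max t (1 / 2)))⁻¹ * (t * (√(max t (1 / 2)))⁻¹) = 1
    rw [max_eq_left ht]
    have h0 : 0 < t := by linarith
    have h1 : √t ≠ 0 := (Real.sqrt_pos.2 h0).ne'
    have h2 : √t * √t = t := Real.mul_self_sqrt h0.le
    field_simp
    rw [sq, h2]
  obtain ⟨hv1, hv2⟩ := Unitary.mem_iff.1 hv
  set p := star y * y with hp
  have hps : IsSelfAdjoint p := IsSelfAdjoint.star_mul_self y
  have hop : Seq.of p = 1 := by rw [hp, map_mul, map_star, hv1]
  set u := y * cfc f p with hu
  have hou : Seq.of u = Seq.of y := by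
    have h1 : Seq.of (cfc f p) = cfc f (Seq.of p) :=
      StarAlgHomClass.map_cfc Seq.of f p hfc.continuousOn Seq.continuous_of hps (hps.map _)
    have h2 : cfc f (1 : Seq D) = 1 := by
      rw [cfc_apply_one, hf1, map_one]
    rw [hu, map_mul, h1, hop, h2, mul_one]
  refine ⟨u, hou, ?_⟩
  have hb1 : ∀ᶠ n in atTop, ‖BF.ev n (p - 1)‖ < 1 / 2 := by
    apply Seq.eventually_lt
    rw [map_sub, hop, map_one, sub_self, norm_zero]
    norm_num
  have hb2 : ∀ᶠ n in atTop, ‖BF.ev n (1 - u * star u)‖ < 1 := by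
    apply Seq.eventually_lt
    rw [map_sub, map_mul, map_star, hou, map_one, hv2, sub_self, norm_zero]
    norm_num
  filter_upwards [hb1, hb2] with n hn1 hn2
  have hcont : Continuous (BF.ev n : BF ℕ D → D) := shom_continuous _
  have hpn : IsSelfAdjoint (BF.ev n p) := hps.map _
  have h3 : BF.ev n u = BF.ev n y * cfc f (BF.ev n p) := by
    rw [hu, map_mul, StarAlgHomClass.map_cfc (BF.ev n) f p hfc.continuousOn hcont hps hpn]
  have h4 : star (cfc f (BF.ev n p)) = cfc f (BF.ev n p) :=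
    (cfc_predicate (R := ℝ) f (BF.ev n p)).star_eq
  have h5 : star (BF.ev n u) * BF.ev n u = 1 := by
    rw [h3, star_mul, h4, mul_assoc, ← mul_assoc (star (BF.ev n y)), ← map_star, ← map_mul, ← hp]
    have h6 : cfc f (BF.ev n p) * (BF.ev n p * cfc f (BF.ev n p)) =
        cfc (fun t : ℝ => f t * (t * f t)) (BF.ev n p) := by
      rw [cfc_mul f (fun t : ℝ => t * f t) _ hfc.continuousOn
          (continuousOn_id.mul hfc.continuousOn),
          cfc_mul (fun t : ℝ => t) f _ continuousOn_id hfc.continuousOn, cfc_id' ℝ (BF.ev n p)]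
    rw [h6, ← cfc_const_one ℝ (BF.ev n p)]
    apply cfc_congr
    intro t ht
    apply hfm
    have h7 : t - 1 ∈ spectrum ℝ (BF.ev n p - 1) := by
      have := spectrum.sub_singleton_eq (R := ℝ) (BF.ev n p) 1
      rw [map_one] at this
      rw [← this]
      exact Set.sub_mem_sub ht rfl
    have h8 := spectrum.norm_le_norm_of_mem h7
    rw [map_sub, map_one] at hn1
    have h9 := abs_le.1 (h8.trans hn1.le)
    linarith [h9.1]
  have h6 : IsUnit (BF.ev n u * star (BF.ev n u)) := by
    have := isUnit_one_sub_of_norm_lt_one hn2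
    rwa [map_sub, map_one, map_mul, map_star, sub_sub_cancel] at this
  have h7 : BF.ev n u * star (BF.ev n u) * (BF.ev n u * star (BF.ev n u)) =
      BF.ev n u * star (BF.ev n u) * 1 := by
    rw [mul_one, mul_assoc, ← mul_assoc (star (BF.ev n u)), h5, one_mul]
  exact Unitary.mem_iff.2 ⟨h5, h6.mul_left_cancel h7⟩

theorem Flip.down {A C D A' : Type*} [CStarAlgebra A] [CStarAlgebra C] [CStarAlgebra D]
    [CStarAlgebra A'] {G : Type*} {i : A →⋆ₐ[ℂ] C} {κ : C →⋆ₐ[ℂ] D} {ι : A' →⋆ₐ[ℂ] D}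
    {b : G → (D →⋆ₐ[ℂ] D)}
    (h : Flip i (Seq.const.comp κ) (Seq.map ι) (fun g => Seq.map (b g))) : Flip i κ ι b := by
  intro F S K ε hε
  obtain ⟨v, hv, h1, h2, h3⟩ := h F S K ε hε
  obtain ⟨x, rfl, hx⟩ := exists_unitary_lift hv
  have e1 : ∀ᶠ n in atTop, ∀ a ∈ F,
      ‖BF.ev n x * κ (i a) - κ (i a) * BF.ev n x‖ < ε := by
    rw [eventually_all_finset]
    intro a ha
    have := Seq.eventually_lt (x := x * BF.cst (κ (i a)) - BF.cst (κ (i a)) * x) (c := ε) (by
      rw [map_sub, map_mul, map_mul]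
      exact h1 a ha)
    filter_upwards [this] with n hn
    rwa [map_sub, map_mul, map_mul, BF.ev_cst] at hn
  have e2 : ∀ᶠ n in atTop, ∀ g ∈ K, ‖b g (BF.ev n x) - BF.ev n x‖ < ε := by
    rw [eventually_all_finset]
    intro g hg
    have := Seq.eventually_lt (x := BFmap (b g) x - x) (c := ε) (by
      rw [map_sub]
      exact h2 g hg)
    filter_upwards [this] with n hn
    rwa [map_sub, ev_BFmap] at hn
  have e3 : ∀ᶠ n in atTop, ∀ c ∈ S, ∃ z : A',
      ‖star (BF.ev n x) * κ c * BF.ev n x - ι z‖ < ε := by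
    rw [eventually_all_finset]
    intro c hc
    obtain ⟨z, hz⟩ := h3 c hc
    obtain ⟨z, rfl⟩ := Seq.of_surjective z
    have := Seq.eventually_lt (x := star x * BF.cst (κ c) * x - BFmap ι z) (c := ε) (by
      rw [map_sub, map_mul, map_mul, map_star]
      exact hz)
    filter_upwards [this] with n hn
    refine ⟨BF.ev n z, ?_⟩
    rwa [map_sub, map_mul, map_mul, map_star, ev_BFmap, BF.ev_cst] at hn
  obtain ⟨n, hn, hn1, hn2, hn3⟩ := (hx.and (e1.and (e2.and e3))).exists
  exact ⟨BF.ev n x, hn, hn1, hn2, hn3⟩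

end Pool.Agent.Lib.EJS
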