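import Pool.Agent.Lib.EJS.Defs
import Pool.Agent.Lib.EJS.Seq
import Pool.Agent.Lib.EJS.Simp

/-!
# The C-star algebra generated by commuting copies of two simple C-star algebras is a tensor product

PROOF.  `genAlg i j` is the closure of the star algebra generated by the two ranges.  The span of the
products `i a * j b` is a star subalgebra (the ranges commute) containing both ranges, so it is dense
in `genAlg i j`.  Injectivity: `simple_inj`.  The elements which commute with
`x` and `star x`, the elements fixed by a homomorphism, and the elements mapped into `genAlg i j` by a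
homomorphism are closed star subalgebras.  (For `genAlg_commute`: the ranges of `i` and `j` are closed
under `star`, so `x` and `star x` commute with the generators.)
-/

open scoped ComplexOrder
open Filter Topology

namespace Pool.Agent.Lib.EJS

variable {A B D : Type*} [CStarAlgebra A] [CStarAlgebra B] [CStarAlgebra D]

/-- the C-star algebra generated by the ranges of two homomorphisms -/
noncomputable def genAlg (i : A →⋆ₐ[ℂ] D) (j : B →⋆ₐ[ℂ] D) : StarSubalgebra ℂ D :=
  (StarAlgebra.adjoin ℂ (Set.range i ∪ Set.range j)).topologicalClosure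

instance (i : A →⋆ₐ[ℂ] D) (j : B →⋆ₐ[ℂ] D) : IsClosed (genAlg i j : Set D) :=
  StarSubalgebra.isClosed_topologicalClosure _

theorem left_mem_genAlg (i : A →⋆ₐ[ℂ] D) (j : B →⋆ₐ[ℂ] D) (a : A) : i a ∈ genAlg i j :=
  StarSubalgebra.le_topologicalClosure _ (StarAlgebra.subset_adjoin ℂ _ (Or.inl ⟨a, rfl⟩))

theorem right_mem_genAlg (i : A →⋆ₐ[ℂ] D) (j : B →⋆ₐ[ℂ] D) (b : B) : j b ∈ genAlg i j :=
  StarSubalgebra.le_topologicalClosure _ (StarAlgebra.subset_adjoin ℂ _ (Or.inr ⟨b, rfl⟩))

/-- the left map into the generated algebra -/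
noncomputable def genL (i : A →⋆ₐ[ℂ] D) (j : B →⋆ₐ[ℂ] D) : A →⋆ₐ[ℂ] genAlg i j :=
  i.codRestrict _ (left_mem_genAlg i j)

/-- the right map into the generated algebra -/
noncomputable def genR (i : A →⋆ₐ[ℂ] D) (j : B →⋆ₐ[ℂ] D) : B →⋆ₐ[ℂ] genAlg i j :=
  j.codRestrict _ (right_mem_genAlg i j)

/-- a closed star subalgebra containing the generators contains everything -/
theorem genAlg_le {i : A →⋆ₐ[ℂ] D} {j : B →⋆ₐ[ℂ] D} {S : StarSubalgebra ℂ D}
    (hS : IsClosed (S : Set D)) (h1 : ∀ a, i a ∈ S) (h2 : ∀ b, j b ∈ S) : genAlg i j ≤ S := by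
  refine StarSubalgebra.topologicalClosure_minimal ?_ hS
  refine StarAlgebra.adjoin_le ?_
  rintro _ (⟨a, rfl⟩ | ⟨b, rfl⟩)
  · exact h1 a
  · exact h2 b

theorem genAlg_commute {i : A →⋆ₐ[ℂ] D} {j : B →⋆ₐ[ℂ] D} {x : D} (h1 : ∀ a, Commute x (i a))
    (h2 : ∀ b, Commute x (j b)) {y : D} (hy : y ∈ genAlg i j) : Commute x y := by
  have hcl : IsClosed ((StarSubalgebra.centralizer ℂ ({x} : Set D) : StarSubalgebra ℂ D) :
      Set D) := by
    rw [StarSubalgebra.coe_centralizer]
    exact Set.isClosed_centralizer _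
  have hle : genAlg i j ≤ StarSubalgebra.centralizer ℂ ({x} : Set D) := by
    refine genAlg_le hcl (fun a => ?_) fun b => ?_
    · rw [StarSubalgebra.mem_centralizer_iff]
      intro g hg
      rw [Set.mem_singleton_iff] at hg
      subst hg
      refine ⟨(h1 a).eq, ?_⟩
      have h := congrArg star (h1 (star a)).eq
      rw [star_mul, star_mul, map_star, star_star] at h
      exact h.symm
    · rw [StarSubalgebra.mem_centralizer_iff]
      intro g hg
      rw [Set.mem_singleton_iff] at hg
      subst hg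
      refine ⟨(h2 b).eq, ?_⟩
      have h := congrArg star (h2 (star b)).eq
      rw [star_mul, star_mul, map_star, star_star] at h
      exact h.symm
  exact ((StarSubalgebra.mem_centralizer_iff ℂ).1 (hle hy) x rfl).1

theorem genAlg_fixed {i : A →⋆ₐ[ℂ] D} {j : B →⋆ₐ[ℂ] D} (φ : D →⋆ₐ[ℂ] D) (h1 : ∀ a, φ (i a) = i a)
    (h2 : ∀ b, φ (j b) = j b) {y : D} (hy : y ∈ genAlg i j) : φ y = y := by
  have hcont : Continuous φ := shom_continuous φ
  have hcl : IsClosed ((StarAlgHom.equalizer φ (StarAlgHom.id ℂ D) : StarSubalgebra ℂ D) :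
      Set D) := isClosed_eq hcont continuous_id
  have hle : genAlg i j ≤ StarAlgHom.equalizer φ (StarAlgHom.id ℂ D) :=
    genAlg_le hcl (fun a => h1 a) fun b => h2 b
  exact hle hy

theorem genAlg_map {i : A →⋆ₐ[ℂ] D} {j : B →⋆ₐ[ℂ] D} (φ : D →⋆ₐ[ℂ] D)
    (h1 : ∀ a, φ (i a) ∈ genAlg i j) (h2 : ∀ b, φ (j b) ∈ genAlg i j) {y : D}
    (hy : y ∈ genAlg i j) : φ y ∈ genAlg i j := by
  have hcont : Continuous φ := shom_continuous φ
  have hcl : IsClosed (((genAlg i j).comap φ : StarSubalgebra ℂ D) : Set D) :=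
    IsClosed.preimage hcont (inferInstance : IsClosed (genAlg i j : Set D))
  exact genAlg_le hcl (S := (genAlg i j).comap φ) (fun a => h1 a) (fun b => h2 b) hy

theorem star_mem_prodSpan (i : A →⋆ₐ[ℂ] D) (j : B →⋆ₐ[ℂ] D) (hc : ∀ x y, Commute (i x) (j y))
    {x : D} (hx : x ∈ Submodule.span ℂ {x : D | ∃ a b, x = i a * j b}) :
    star x ∈ Submodule.span ℂ {x : D | ∃ a b, x = i a * j b} := by
  induction hx using Submodule.span_induction with
  | mem x h =>
    obtain ⟨a, b, rfl⟩ := h
    refine Submodule.subset_span ⟨star a, star b, ?_⟩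
    rw [star_mul, ← map_star, ← map_star, (hc (star a) (star b)).eq]
  | zero => rw [star_zero]; exact Submodule.zero_mem _
  | add x y hx hy ihx ihy =>
    rw [star_add]
    exact Submodule.add_mem _ ihx ihy
  | smul c x hx ih =>
    rw [star_smul]
    exact Submodule.smul_mem _ _ ih

/-- the star subalgebra spanned by the products -/
noncomputable def prodSub (i : A →⋆ₐ[ℂ] D) (j : B →⋆ₐ[ℂ] D) (hc : ∀ x y, Commute (i x) (j y)) :
    StarSubalgebra ℂ D where
  carrier := (Submodule.span ℂ {x : D | ∃ a b, x = i a * j b} : Set D)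
  mul_mem' := by
    intro x y hx hy
    have h1 : x * y ∈ Submodule.span ℂ {x : D | ∃ a b, x = i a * j b} *
        Submodule.span ℂ {x : D | ∃ a b, x = i a * j b} := Submodule.mul_mem_mul hx hy
    rw [Submodule.span_mul_span] at h1
    refine Submodule.span_mono ?_ h1
    rintro _ ⟨_, ⟨a, b, rfl⟩, _, ⟨a', b', rfl⟩, rfl⟩
    refine ⟨a * a', b * b', ?_⟩
    show i a * j b * (i a' * j b') = i (a * a') * j (b * b')
    rw [map_mul, map_mul, mul_assoc, ← mul_assoc (j b), ← (hc a' b).eq]
    simp only [mul_assoc]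
  add_mem' := fun hx hy => Submodule.add_mem _ hx hy
  algebraMap_mem' := by
    intro r
    refine Submodule.subset_span ⟨algebraMap ℂ A r, 1, ?_⟩
    rw [map_one, mul_one]
    exact (AlgHomClass.commutes i r).symm
  star_mem' := fun hx => star_mem_prodSpan i j hc hx

theorem isTensor_gen [IsSimpleRing A] [IsSimpleRing B] [Nontrivial D] (i : A →⋆ₐ[ℂ] D)
    (j : B →⋆ₐ[ℂ] D) (hc : ∀ x y, Commute (i x) (j y)) : IsTensor (genL i j) (genR i j) := by
  refine ⟨fun a b => Subtype.ext (hc a b).eq, fun n a b ha h => ?_, ?_⟩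
  · refine simple_inj i j hc n a b ha ?_
    have h1 := congrArg (fun z : genAlg i j => (z : D)) h
    have h2 : ((∑ k, genL i j (a k) * genR i j (b k) : genAlg i j) : D) =
        ∑ k, i (a k) * j (b k) := by
      rw [← StarSubalgebra.subtype_apply, map_sum]
      refine Finset.sum_congr rfl fun k _ => ?_
      rw [map_mul]
      rfl
    rw [← h2]
    exact h1
  · intro y
    rw [closure_subtype]
    have hy : (y : D) ∈ closure ((StarAlgebra.adjoin ℂ (Set.range i ∪ Set.range j) :
        StarSubalgebra ℂ D) : Set D) := y.2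
    refine closure_mono ?_ hy
    have hle : StarAlgebra.adjoin ℂ (Set.range i ∪ Set.range j) ≤ prodSub i j hc := by
      refine StarAlgebra.adjoin_le ?_
      rintro _ (⟨a, rfl⟩ | ⟨b, rfl⟩)
      · exact Submodule.subset_span ⟨a, 1, by rw [map_one, mul_one]⟩
      · exact Submodule.subset_span ⟨1, b, by rw [map_one, one_mul]⟩
    intro p hp
    have hp' : p ∈ Submodule.span ℂ {x : D | ∃ a b, x = i a * j b} := hle hp
    clear hp hy
    induction hp' using Submodule.span_induction with
    | mem x h =>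
      obtain ⟨a, b, rfl⟩ := h
      exact ⟨genL i j a * genR i j b, Submodule.subset_span ⟨a, b, rfl⟩, rfl⟩
    | zero => exact ⟨0, Submodule.zero_mem _, rfl⟩
    | add x y hx hy ihx ihy =>
      obtain ⟨u, hu, rfl⟩ := ihx
      obtain ⟨v, hv, rfl⟩ := ihy
      exact ⟨u + v, Submodule.add_mem _ hu hv, rfl⟩
    | smul c x hx ih =>
      obtain ⟨u, hu, rfl⟩ := ih
      exact ⟨c • u, Submodule.smul_mem _ _ hu, rfl⟩

end Pool.Agent.Lib.EJS
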