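import Pool.Agent.Lib.EJS.FlipDefs
import Pool.Agent.Lib.EJS.TensGen

/-!
# The flip property at the second level

PROOF.  Let `D = Seq (Seq C)`, `κ = const ∘ const : C → D`, `ι = Seq.map (Seq.map i) : Seq (Seq A) → D`.
The homomorphisms `φ := ι ∘ θ : Z → D` and `ψ := κ ∘ j : Z → D` commute (`j z` commutes with all `i a`, so
`κ (j z)` commutes with the range of `ι`), so `genAlg φ ψ` is a tensor product of `Z` with `Z`
(`isTensor_gen`), and the half flip gives a unitary `v ∈ genAlg φ ψ` with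
`‖v φ(z) v* - ψ(z)‖ < δ` for finitely many `z`.  `v` commutes with `κ (i a)` (both `φ z`, by `h1`, and
`ψ z` do), and is fixed by `Seq.map (Seq.map (β g))` (`ψ z` by `β g (j z) = j z`; `φ z` because
`β g (i a) = i (α g a)` and `h2`).  For `c ∈ C` approximate `c` by a finite sum `∑ i(a_k) j(z_k)`
(`IsTensor.dense`); then `v* κ(c) v ≈ ∑ κ(i a_k) v* ψ(z_k) v ≈ ∑ κ(i a_k) φ(z_k)`, which is in the
range of `ι`.
-/

open scoped ComplexOrder
open Filter Topology Pool.Agent.Lib.EqGamma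

namespace Pool.Agent.Lib.EJS

universe u v

theorem commute_map_const {A B : Type*} [CStarAlgebra A] [CStarAlgebra B] {f : A →⋆ₐ[ℂ] B} {c : B}
    (h : ∀ a, Commute (f a) c) (x : Seq A) : Commute (Seq.map f x) (Seq.const c) := by
  obtain ⟨x, rfl⟩ := Seq.of_surjective x
  rw [Seq.map_of, Seq.const_apply]
  refine Commute.map (?_ : Commute (BFmap f x) (BF.cst c)) Seq.of
  apply BF.ext
  intro n
  rw [map_mul, map_mul, ev_BFmap, BF.ev_cst]
  exact h _

/-- approximation of `star w * κ c * w` by the range of `ι`, the abstract part -/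
theorem flip_approx {A Z C D A' : Type*} [CStarAlgebra A] [CStarAlgebra Z] [CStarAlgebra C]
    [CStarAlgebra D] [CStarAlgebra A'] (i : A →⋆ₐ[ℂ] C) (j : Z →⋆ₐ[ℂ] C) (hC : IsTensor i j)
    (κ : C →⋆ₐ[ℂ] D) (ι : A' →⋆ₐ[ℂ] D) (φ : Z →⋆ₐ[ℂ] D)
    (hφ : ∀ a z, ∃ x, κ (i a) * φ z = ι x) (W : Set D) (hW : W ⊆ unitary D)
    (hcomm : ∀ a, ∀ w ∈ W, Commute (κ (i a)) w) (c : C) :
    ∀ ε : ℝ, 0 < ε → ∃ (F : Finset Z) (δ : ℝ), 0 < δ ∧ ∀ w ∈ W,
      (∀ z ∈ F, ‖w * φ z * star w - κ (j z)‖ < δ) → ∃ x, ‖star w * κ c * w - ι x‖ < ε := by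
  classical
  have hspan : ∀ s ∈ Submodule.span ℂ {x : C | ∃ a b, x = i a * j b},
      ∀ ε : ℝ, 0 < ε → ∃ (F : Finset Z) (δ : ℝ), 0 < δ ∧ ∀ w ∈ W,
      (∀ z ∈ F, ‖w * φ z * star w - κ (j z)‖ < δ) → ∃ x, ‖star w * κ s * w - ι x‖ < ε := by
    intro s hs
    refine Submodule.span_induction (p := fun s _ => ∀ ε : ℝ, 0 < ε →
      ∃ (F : Finset Z) (δ : ℝ), 0 < δ ∧ ∀ w ∈ W,
      (∀ z ∈ F, ‖w * φ z * star w - κ (j z)‖ < δ) → ∃ x, ‖star w * κ s * w - ι x‖ < ε)
      ?_ ?_ ?_ ?_ hs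
    · rintro _ ⟨a, z, rfl⟩ ε hε
      obtain ⟨x, hx⟩ := hφ a z
      refine ⟨{z}, ε / (‖κ (i a)‖ + 1), by positivity, fun w hw h => ⟨x, ?_⟩⟩
      have hz := h z (Finset.mem_singleton_self z)
      obtain ⟨hw1, hw2⟩ := Unitary.mem_iff.1 (hW hw)
      have hws : Commute (κ (i a)) (star w) := by
        have h1 := (hcomm (star a) w hw).star_star
        rwa [map_star, map_star, star_star] at h1
      have e1 : star w * κ (i a * j z) * w - ι x =
          κ (i a) * (star w * (κ (j z) - w * φ z * star w) * w) := by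
        have e2 : star w * (κ (j z) - w * φ z * star w) * w = star w * κ (j z) * w - φ z := by
          rw [mul_sub, sub_mul]
          congr 1
          have : star w * (w * φ z * star w) * w = (star w * w) * φ z * (star w * w) := by
            noncomm_ring
          rw [this, hw1, one_mul, mul_one]
        rw [e2, mul_sub, hx, map_mul, ← mul_assoc, ← hws.eq]
        congr 1
        noncomm_ring
      rw [e1]
      have e3 : ‖star w * (κ (j z) - w * φ z * star w) * w‖ < ε / (‖κ (i a)‖ + 1) := by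
        rw [CStarRing.norm_mul_mem_unitary _ (hW hw),
          CStarRing.norm_mem_unitary_mul _ (Unitary.star_mem (hW hw)), norm_sub_rev]
        exact hz
      have h0 : 0 ≤ ‖κ (i a)‖ := norm_nonneg _
      calc ‖κ (i a) * (star w * (κ (j z) - w * φ z * star w) * w)‖
          ≤ ‖κ (i a)‖ * ‖star w * (κ (j z) - w * φ z * star w) * w‖ := norm_mul_le _ _
        _ ≤ ‖κ (i a)‖ * (ε / (‖κ (i a)‖ + 1)) := mul_le_mul_of_nonneg_left e3.le h0
        _ < ε := by
          rw [mul_div_assoc', div_lt_iff₀ (by positivity)]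
          nlinarith
    · intro ε hε
      refine ⟨∅, 1, one_pos, fun w _ _ => ⟨0, ?_⟩⟩
      rw [map_zero, map_zero, mul_zero, zero_mul, sub_zero, norm_zero]
      exact hε
    · rintro s t - - hs ht ε hε
      obtain ⟨F1, δ1, hδ1, h1⟩ := hs (ε / 2) (half_pos hε)
      obtain ⟨F2, δ2, hδ2, h2⟩ := ht (ε / 2) (half_pos hε)
      refine ⟨F1 ∪ F2, min δ1 δ2, lt_min hδ1 hδ2, fun w hw h => ?_⟩
      obtain ⟨x, hx⟩ := h1 w hw fun z hz =>
        (h z (Finset.mem_union_left _ hz)).trans_le (min_le_left _ _)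
      obtain ⟨y, hy⟩ := h2 w hw fun z hz =>
        (h z (Finset.mem_union_right _ hz)).trans_le (min_le_right _ _)
      refine ⟨x + y, ?_⟩
      have e : star w * κ (s + t) * w - ι (x + y) =
          (star w * κ s * w - ι x) + (star w * κ t * w - ι y) := by
        rw [map_add, map_add]
        noncomm_ring
      rw [e]
      have := norm_add_le (star w * κ s * w - ι x) (star w * κ t * w - ι y)
      linarith
    · rintro r s - hs ε hε
      obtain ⟨F, δ, hδ, h⟩ := hs (ε / (‖r‖ + 1)) (by positivity)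
      refine ⟨F, δ, hδ, fun w hw h' => ?_⟩
      obtain ⟨x, hx⟩ := h w hw h'
      refine ⟨r • x, ?_⟩
      have e : star w * κ (r • s) * w - ι (r • x) = r • (star w * κ s * w - ι x) := by
        rw [map_smul, map_smul, smul_sub, mul_smul_comm, smul_mul_assoc]
      rw [e, norm_smul]
      have h0 : 0 ≤ ‖r‖ := norm_nonneg _
      calc ‖r‖ * ‖star w * κ s * w - ι x‖ ≤ ‖r‖ * (ε / (‖r‖ + 1)) :=
            mul_le_mul_of_nonneg_left hx.le h0
        _ < ε := by
          rw [mul_div_assoc', div_lt_iff₀ (by positivity)]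
          nlinarith
  intro ε hε
  obtain ⟨s, hs, hcs⟩ := Metric.mem_closure_iff.1 (hC.dense c) (ε / 2) (half_pos hε)
  obtain ⟨F, δ, hδ, h⟩ := hspan s hs (ε / 2) (half_pos hε)
  refine ⟨F, δ, hδ, fun w hw h' => ?_⟩
  obtain ⟨x, hx⟩ := h w hw h'
  refine ⟨x, ?_⟩
  have e : star w * κ c * w - ι x = star w * κ (c - s) * w + (star w * κ s * w - ι x) := by
    rw [map_sub]
    noncomm_ring
  have e2 : ‖star w * κ (c - s) * w‖ < ε / 2 := by
    rw [CStarRing.norm_mul_mem_unitary _ (hW hw),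
      CStarRing.norm_mem_unitary_mul _ (Unitary.star_mem (hW hw))]
    rw [dist_eq_norm] at hcs
    exact (shom_norm_le κ _).trans_lt hcs
  rw [e]
  have := norm_add_le (star w * κ (c - s) * w) (star w * κ s * w - ι x)
  linarith

theorem flip_approx_finset {A Z C D A' : Type*} [CStarAlgebra A] [CStarAlgebra Z] [CStarAlgebra C]
    [CStarAlgebra D] [CStarAlgebra A'] (i : A →⋆ₐ[ℂ] C) (j : Z →⋆ₐ[ℂ] C) (hC : IsTensor i j)
    (κ : C →⋆ₐ[ℂ] D) (ι : A' →⋆ₐ[ℂ] D) (φ : Z →⋆ₐ[ℂ] D)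
    (hφ : ∀ a z, ∃ x, κ (i a) * φ z = ι x) (W : Set D) (hW : W ⊆ unitary D)
    (hcomm : ∀ a, ∀ w ∈ W, Commute (κ (i a)) w) (S : Finset C)
    (ε : ℝ) (hε : 0 < ε) : ∃ (F : Finset Z) (δ : ℝ), 0 < δ ∧ ∀ w ∈ W,
      (∀ z ∈ F, ‖w * φ z * star w - κ (j z)‖ < δ) →
      ∀ c ∈ S, ∃ x, ‖star w * κ c * w - ι x‖ < ε := by
  classical
  induction S using Finset.induction_on with
  | empty => exact ⟨∅, 1, one_pos, fun w _ _ c hc => absurd hc (Finset.notMem_empty _)⟩
  | insert c S _ ih =>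
    obtain ⟨F1, δ1, hδ1, h1⟩ := ih
    obtain ⟨F2, δ2, hδ2, h2⟩ := flip_approx i j hC κ ι φ hφ W hW hcomm c ε hε
    refine ⟨F1 ∪ F2, min δ1 δ2, lt_min hδ1 hδ2, fun w hw h c' hc' => ?_⟩
    rcases Finset.mem_insert.1 hc' with rfl | hc'
    · exact h2 w hw fun z hz =>
        (h z (Finset.mem_union_right _ hz)).trans_le (min_le_right _ _)
    · exact h1 w hw (fun z hz =>
        (h z (Finset.mem_union_left _ hz)).trans_le (min_le_left _ _)) c' hc'

theorem flip_up {A Z C : Type u} [CStarAlgebra A] [CStarAlgebra Z] [CStarAlgebra C]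
    [IsSimpleRing A] (hZ : IsJiangSu Z) {G : Type v} [Group G] (α : G →* (A ≃⋆ₐ[ℂ] A))
    (i : A →⋆ₐ[ℂ] C) (j : Z →⋆ₐ[ℂ] C) (β : G →* (C ≃⋆ₐ[ℂ] C)) (hC : IsTensorAction α i j β)
    (θ : Z →⋆ₐ[ℂ] Seq (Seq A)) (h1 : ∀ z a, Commute (Seq.const (Seq.const a)) (θ z))
    (h2 : ∀ g z, Seq.map (Seq.act α g) (θ z) = θ z) :
    Flip i (Seq.const.comp Seq.const) (Seq.map (Seq.map i))
      (fun g => Seq.map (Seq.map (β g : C →⋆ₐ[ℂ] C))) := by
  intro F S K ε hε
  have hZs : IsSimpleRing Z := hZ.simple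
  have hZn : Nontrivial Z := inferInstance
  have hAn : Nontrivial A := inferInstance
  have hCn : Nontrivial C := by
    by_contra hcon
    rw [not_nontrivial_iff_subsingleton] at hcon
    have h3 := hC.tensor.inj 1 (fun _ => (1 : A)) (fun _ => (1 : Z))
      (linearIndependent_unique_iff.2 one_ne_zero) (Subsingleton.elim _ _) 0
    exact one_ne_zero h3
  have hSn : Nontrivial (Seq C) := (Seq.const_injective (A := C)).nontrivial
  have hDn : Nontrivial (Seq (Seq C)) := (Seq.const_injective (A := Seq C)).nontrivial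
  set κ : C →⋆ₐ[ℂ] Seq (Seq C) := Seq.const.comp Seq.const with hκ
  set ι : Seq (Seq A) →⋆ₐ[ℂ] Seq (Seq C) := Seq.map (Seq.map i) with hι
  set φ : Z →⋆ₐ[ℂ] Seq (Seq C) := ι.comp θ with hφd
  set ψ : Z →⋆ₐ[ℂ] Seq (Seq C) := κ.comp j with hψd
  have hιj : ∀ (x : Seq (Seq A)) (z : Z), Commute (ι x) (κ (j z)) := fun x z =>
    commute_map_const (fun a => commute_map_const (fun a' => hC.tensor.comm a' z) a) x
  have hφψ : ∀ x y, Commute (φ x) (ψ y) := fun x y => hιj (θ x) y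
  have hκι : ∀ a, κ (i a) = ι (Seq.const (Seq.const a)) := fun a => rfl
  have hcφ : ∀ a z, Commute (κ (i a)) (φ z) := fun a z => by
    rw [hκι]
    exact (h1 z a).map ι
  have hcψ : ∀ a z, Commute (κ (i a)) (ψ z) := fun a z => (hC.tensor.comm a z).map κ
  set W : Set (Seq (Seq C)) := {w | w ∈ unitary (Seq (Seq C)) ∧ w ∈ genAlg φ ψ} with hWd
  have hW : W ⊆ unitary (Seq (Seq C)) := fun w hw => hw.1
  have hcomm : ∀ a, ∀ w ∈ W, Commute (κ (i a)) w := fun a w hw =>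
    genAlg_commute (hcφ a) (hcψ a) hw.2
  obtain ⟨F', δ, hδ, h3⟩ := flip_approx_finset i j hC.tensor κ ι φ
    (fun a z => ⟨Seq.const (Seq.const a) * θ z, by rw [map_mul, hκι]; rfl⟩) W hW hcomm S ε hε
  obtain ⟨w, hw, hw'⟩ := hZ.half_flip (genAlg φ ψ) (genL φ ψ) (genR φ ψ)
    (isTensor_gen φ ψ hφψ) F' δ hδ
  have hwW : (w : Seq (Seq C)) ∈ W := by
    refine ⟨?_, w.2⟩
    obtain ⟨hw1, hw2⟩ := Unitary.mem_iff.1 hw
    exact Unitary.mem_iff.2 ⟨congrArg Subtype.val hw1, congrArg Subtype.val hw2⟩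
  refine ⟨w, hW hwW, ?_, ?_, ?_⟩
  · intro a _
    change ‖(w : Seq (Seq C)) * κ (i a) - κ (i a) * w‖ < ε
    rw [(hcomm a w hwW).eq, sub_self, norm_zero]
    exact hε
  · intro g _
    have h4 : Seq.map (Seq.map (β g : C →⋆ₐ[ℂ] C)) (w : Seq (Seq C)) = w := by
      refine genAlg_fixed (i := φ) (j := ψ) _ ?_ ?_ w.2
      · intro z
        change Seq.map (Seq.map (β g : C →⋆ₐ[ℂ] C)) (Seq.map (Seq.map i) (θ z)) =
          Seq.map (Seq.map i) (θ z)
        conv_rhs => rw [← h2 g z]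
        rw [Seq.map_map, Seq.map_map]
        congr 1
        congr 1
        apply StarAlgHom.ext
        intro x
        rw [StarAlgHom.comp_apply, StarAlgHom.comp_apply, Seq.act, Seq.map_map, Seq.map_map]
        congr 1
        congr 1
        apply StarAlgHom.ext
        intro a
        exact hC.left g a
      · intro z
        change Seq.const (Seq.const (β g (j z))) = Seq.const (Seq.const (j z))
        rw [hC.right]
    change ‖Seq.map (Seq.map (β g : C →⋆ₐ[ℂ] C)) (w : Seq (Seq C)) - w‖ < ε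
    rw [h4, sub_self, norm_zero]
    exact hε
  · exact h3 w hwW fun z hz => hw' z hz

end Pool.Agent.Lib.EJS
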