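import Pool.Agent.Lib.EJS.Defs
import Pool.Agent.Lib.EJS.FlipDefs

/-!
# One-sided intertwining: the flip property gives cocycle conjugacy

PROOF.  Let `a_0, a_1, ...` be dense in `A`, `c_0, ...` dense in `C`, `g_0, ...` an enumeration of `G`
(if `G` is finite repeat elements).  Choose inductively unitaries `v_n ∈ C` and put
`u_n = v_0 v_1 ⋯ v_n` (`u_{-1} = 1`), and elements `x_{k,n} ∈ A` (`k ≤ n`) such that
* `‖[v_n, i(a)]‖ < 2^{-n}` for `a ∈ {a_0,...,a_n} ∪ {x_{k,m} : k ≤ m < n}`,
* `‖β g (v_n) - v_n‖ < 2^{-n}` for `g ∈ {g_0,...,g_n}`,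
* `‖v_n* (u_{n-1}* c_k u_{n-1}) v_n - i(x_{k,n})‖ < 2^{-n}` for `k ≤ n`.
Then `σ(a) := lim u_n i(a) u_n*` exists for all `a` (Cauchy on the dense set, and all maps are
isometric, `i` is injective hence isometric), is a unital isometric *-homomorphism `A → C`, and
`‖σ(x_{k,n}) - u_n i(x_{k,n}) u_n*‖ ≤ ∑_{m>n} 2^{-m}` and `‖u_n i(x_{k,n}) u_n* - c_k‖ < 2^{-n}`, so every `c_k` is
in the closed range of `σ`; `σ` is onto.  `w_g := lim u_n β_g(u_n)*` exists (
`u_{n+1} β_g(u_{n+1})* = u_n v_{n+1} β_g(v_{n+1})* β_g(u_n)*`), is unitary,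
`σ(α_g a) = lim u_n β_g(i(a)) u_n* = lim (u_n β_g(u_n)*) β_g(u_n i(a) u_n*) (u_n β_g(u_n)*)* = w_g β_g(σ a) w_g*`,
and `w_g β_g(w_h) = lim u_n β_g(u_n)* β_g(u_n) β_{gh}(u_n)* = w_{gh}`.
-/

open scoped ComplexOrder
open Filter Topology

namespace Pool.Agent.Lib.EJS

namespace IntertwineAux

theorem cauchy_geo {E : Type*} [SeminormedAddCommGroup E] {f : ℕ → E} {k : ℕ}
    (h : ∀ n, k ≤ n → ‖f (n + 1) - f n‖ ≤ (1 / 2 : ℝ) ^ n) : CauchySeq f := by
  rw [← cauchySeq_shift k]
  refine cauchySeq_of_le_geometric (1 / 2) ((1 / 2) ^ k) (by norm_num) (fun n => ?_)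
  have h1 := h (n + k) (by omega)
  rw [dist_comm, dist_eq_norm, add_right_comm n 1 k]
  refine h1.trans (le_of_eq ?_)
  rw [pow_add, mul_comm]

theorem dist_geo {E : Type*} [SeminormedAddCommGroup E] {f : ℕ → E} {k : ℕ}
    (h : ∀ n, k ≤ n → ‖f (n + 1) - f n‖ ≤ (1 / 2 : ℝ) ^ n) {a : E}
    (ha : Tendsto f atTop (𝓝 a)) : ‖f k - a‖ ≤ 2 * (1 / 2 : ℝ) ^ k := by
  have h2 : Tendsto (fun n => f (n + k)) atTop (𝓝 a) := (tendsto_add_atTop_iff_nat k).2 ha
  have h3 := dist_le_of_le_geometric_of_tendsto₀ (1 / 2 : ℝ) ((1 / 2 : ℝ) ^ k)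
    (by norm_num) (f := fun n => f (n + k)) (fun n => by
      have h1 := h (n + k) (by omega)
      rw [dist_comm, dist_eq_norm, add_right_comm n 1 k]
      refine h1.trans (le_of_eq ?_)
      rw [pow_add, mul_comm]) h2
  rw [dist_eq_norm, zero_add] at h3
  refine h3.trans (le_of_eq ?_)
  ring

variable {A C : Type*} [CStarAlgebra A] [CStarAlgebra C]

theorem norm_unitary_mul {u : C} (hu : u ∈ unitary C) (x : C) : ‖u * x‖ = ‖x‖ :=
  CStarRing.norm_mem_unitary_mul x hu

theorem norm_mul_unitary {u : C} (hu : u ∈ unitary C) (x : C) : ‖x * u‖ = ‖x‖ :=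
  CStarRing.norm_mul_mem_unitary x hu

end IntertwineAux

open IntertwineAux in
theorem cocycleConj_of_flip {A C : Type*} [CStarAlgebra A] [CStarAlgebra C]
    [TopologicalSpace.SeparableSpace A] [TopologicalSpace.SeparableSpace C] {G : Type*} [Group G]
    [Countable G] (α : G →* (A ≃⋆ₐ[ℂ] A)) (i : A →⋆ₐ[ℂ] C) (hi : Function.Injective i)
    (β : G →* (C ≃⋆ₐ[ℂ] C)) (hβ : ∀ g a, β g (i a) = i (α g a))
    (h : Flip i (StarAlgHom.id ℂ C) i (fun g => (β g : C →⋆ₐ[ℂ] C))) : CocycleConj α β := by
  classical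
  obtain ⟨ad, had⟩ := TopologicalSpace.exists_dense_seq A
  obtain ⟨cd, hcd⟩ := TopologicalSpace.exists_dense_seq C
  obtain ⟨gd, hgd⟩ := exists_surjective_nat G
  have step : ∀ (n : ℕ) (u : C) (X : Finset A), ∃ (v : C) (x : ℕ → A), v ∈ unitary C ∧
      (∀ a ∈ X, ‖v * i a - i a * v‖ < (1 / 2 : ℝ) ^ n) ∧
      (∀ k ≤ n, ‖v * i (ad k) - i (ad k) * v‖ < (1 / 2 : ℝ) ^ n) ∧
      (∀ k ≤ n, ‖β (gd k) v - v‖ < (1 / 2 : ℝ) ^ n) ∧
      ∀ k ≤ n, ‖star v * (star u * cd k * u) * v - i (x k)‖ < (1 / 2 : ℝ) ^ n := by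
    intro n u X
    obtain ⟨v, hv, h1, h2, h3⟩ := h (X ∪ (Finset.range (n + 1)).image ad)
      ((Finset.range (n + 1)).image (fun k => star u * cd k * u))
      ((Finset.range (n + 1)).image gd) ((1 / 2 : ℝ) ^ n) (by positivity)
    have h4 : ∀ k, ∃ x : A, k ≤ n → ‖star v * (star u * cd k * u) * v - i x‖ < (1 / 2 : ℝ) ^ n := by
      intro k
      by_cases hk : k ≤ n
      · obtain ⟨x, hx⟩ := h3 (star u * cd k * u)
          (Finset.mem_image.2 ⟨k, Finset.mem_range.2 (by omega), rfl⟩)
        exact ⟨x, fun _ => hx⟩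
      · exact ⟨0, fun hk' => absurd hk' hk⟩
    choose x hx using h4
    refine ⟨v, x, hv, fun a ha => h1 a (Finset.mem_union_left _ ha), fun k hk => ?_,
      fun k hk => ?_, fun k hk => hx k hk⟩
    · exact h1 (ad k) (Finset.mem_union_right _
        (Finset.mem_image.2 ⟨k, Finset.mem_range.2 (by omega), rfl⟩))
    · exact h2 (gd k) (Finset.mem_image.2 ⟨k, Finset.mem_range.2 (by omega), rfl⟩)
  choose V Xf hV1 hV2 hV3 hV4 hV5 using step
  let st : ℕ → C × Finset A := fun n => Nat.rec (1, ∅)
    (fun n p => (p.1 * V n p.1 p.2, p.2 ∪ (Finset.range (n + 1)).image (Xf n p.1 p.2))) n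
  set U : ℕ → C := fun n => (st n).1 with hU
  set X : ℕ → Finset A := fun n => (st n).2 with hX
  set v : ℕ → C := fun n => V n (U n) (X n) with hv
  set x : ℕ → ℕ → A := fun n => Xf n (U n) (X n) with hx
  have hU0 : U 0 = 1 := rfl
  have hUs : ∀ n, U (n + 1) = U n * v n := fun n => rfl
  have hXs : ∀ n, X (n + 1) = X n ∪ (Finset.range (n + 1)).image (x n) := fun n => rfl
  have hvu : ∀ n, v n ∈ unitary C := fun n => hV1 n (U n) (X n)
  have hUu : ∀ n, U n ∈ unitary C := by
    intro n
    induction n with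
    | zero => rw [hU0]; exact one_mem _
    | succ n ih => rw [hUs]; exact mul_mem ih (hvu n)
  have hXm : ∀ {m n : ℕ}, m ≤ n → X m ⊆ X n := by
    intro m n hmn
    induction hmn with
    | refl => exact Finset.Subset.refl _
    | step _ ih => exact ih.trans (by rw [hXs]; exact Finset.subset_union_left)
  have hxm : ∀ n k, k ≤ n → x n k ∈ X (n + 1) := by
    intro n k hk
    rw [hXs]
    exact Finset.mem_union_right _ (Finset.mem_image.2 ⟨k, Finset.mem_range.2 (by omega), rfl⟩)
  have hUs1 : ∀ n, star (U n) * U n = 1 := fun n => Unitary.star_mul_self_of_mem (hUu n)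
  have hUs2 : ∀ n, U n * star (U n) = 1 := fun n => Unitary.mul_star_self_of_mem (hUu n)
  have hvs1 : ∀ n, star (v n) * v n = 1 := fun n => Unitary.star_mul_self_of_mem (hvu n)
  have hvs2 : ∀ n, v n * star (v n) = 1 := fun n => Unitary.mul_star_self_of_mem (hvu n)
  have hUstar : ∀ n, star (U n) ∈ unitary C := fun n => Unitary.star_mem (hUu n)
  have hβu : ∀ g n, β g (U n) ∈ unitary C := by
    intro g n
    rw [Unitary.mem_iff]
    constructor
    · rw [← map_star, ← map_mul, hUs1, map_one]
    · rw [← map_star, ← map_mul, hUs2, map_one]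
  have hβv : ∀ g n, β g (v n) ∈ unitary C := by
    intro g n
    rw [Unitary.mem_iff]
    constructor
    · rw [← map_star, ← map_mul, hvs1, map_one]
    · rw [← map_star, ← map_mul, hvs2, map_one]
  -- the maps `T n`
  set T : ℕ → A → C := fun n a => U n * i a * star (U n) with hT
  have hTn : ∀ n a, ‖T n a‖ = ‖a‖ := by
    intro n a
    simp only [hT]
    rw [norm_mul_unitary (hUstar n), norm_unitary_mul (hUu n)]
    exact NonUnitalStarAlgHom.norm_map i hi a
  have hTsub : ∀ n a b, T n a - T n b = T n (a - b) := by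
    intro n a b
    simp only [hT]
    rw [map_sub, mul_sub, sub_mul]
  have hTstep : ∀ n a, ‖T (n + 1) a - T n a‖ = ‖v n * i a - i a * v n‖ := by
    intro n a
    have e1 : T (n + 1) a - T n a = U n * ((v n * i a - i a * v n) * star (v n)) * star (U n) := by
      simp only [hT, hUs, star_mul]
      have e2 : i a * v n * star (v n) = i a := by rw [mul_assoc, hvs2, mul_one]
      rw [sub_mul, e2, mul_sub, sub_mul]
      simp only [mul_assoc]
    rw [e1, norm_mul_unitary (hUstar n), norm_unitary_mul (hUu n),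
      norm_mul_unitary (Unitary.star_mem (hvu n))]
  have hTad : ∀ k, CauchySeq (fun n => T n (ad k)) := by
    intro k
    refine cauchy_geo (k := k) fun n hn => ?_
    rw [hTstep]
    exact (hV3 n (U n) (X n) k hn).le
  have hTc : ∀ a, CauchySeq (fun n => T n a) := by
    intro a
    rw [Metric.cauchySeq_iff']
    intro δ hδ
    obtain ⟨k, hk⟩ := had.exists_dist_lt a (by positivity : 0 < δ / 3)
    obtain ⟨N, hN⟩ := (Metric.cauchySeq_iff'.1 (hTad k)) (δ / 3) (by positivity)
    refine ⟨N, fun n hn => ?_⟩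
    have h1 := hN n hn
    rw [dist_eq_norm] at h1 hk ⊢
    have e1 : T n a - T N a = T n (a - ad k) + (T n (ad k) - T N (ad k)) - T N (a - ad k) := by
      rw [← hTsub, ← hTsub]
      abel
    rw [e1]
    refine lt_of_le_of_lt ((norm_sub_le _ _).trans (add_le_add (norm_add_le _ _) le_rfl)) ?_
    rw [hTn, hTn]
    linarith
  choose σf hσf using fun a => cauchySeq_tendsto_of_complete (hTc a)
  -- limits
  have hmul : ∀ a b, σf (a * b) = σf a * σf b := by
    intro a b
    refine tendsto_nhds_unique (hσf (a * b)) ?_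
    refine ((hσf a).mul (hσf b)).congr fun n => ?_
    simp only [hT]
    rw [map_mul]
    calc U n * i a * star (U n) * (U n * i b * star (U n))
        = U n * i a * (star (U n) * U n) * i b * star (U n) := by simp only [mul_assoc]
      _ = U n * (i a * i b) * star (U n) := by rw [hUs1, mul_one]; simp only [mul_assoc]
  have hadd : ∀ a b, σf (a + b) = σf a + σf b := by
    intro a b
    refine tendsto_nhds_unique (hσf (a + b)) ?_
    refine ((hσf a).add (hσf b)).congr fun n => ?_
    simp only [hT]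
    rw [map_add, mul_add, add_mul]
  have hsmul : ∀ (r : ℂ) a, σf (r • a) = r • σf a := by
    intro r a
    refine tendsto_nhds_unique (hσf (r • a)) ?_
    refine ((hσf a).const_smul r).congr fun n => ?_
    simp only [hT]
    rw [map_smul, mul_smul_comm, smul_mul_assoc]
  have hstar : ∀ a, σf (star a) = star (σf a) := by
    intro a
    refine tendsto_nhds_unique (hσf (star a)) ?_
    refine ((hσf a).star).congr fun n => ?_
    simp only [hT]
    rw [map_star, star_mul, star_mul, star_star, mul_assoc]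
  have hone : σf 1 = 1 := by
    refine tendsto_nhds_unique (hσf 1) ?_
    refine (tendsto_const_nhds (x := (1 : C))).congr fun n => ?_
    simp only [hT]
    rw [map_one, mul_one, hUs2]
  have hnorm : ∀ a, ‖σf a‖ = ‖a‖ := by
    intro a
    refine tendsto_nhds_unique (hσf a).norm ?_
    refine (tendsto_const_nhds (x := ‖a‖)).congr fun n => ?_
    rw [hTn]
  have hzero : σf 0 = 0 := by
    rw [← norm_eq_zero, hnorm, norm_zero]
  let σ : A →⋆ₐ[ℂ] C :=
    { toFun := σf
      map_one' := hone
      map_mul' := hmul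
      map_zero' := hzero
      map_add' := hadd
      commutes' := fun r => by
        change σf (algebraMap ℂ A r) = algebraMap ℂ C r
        rw [Algebra.algebraMap_eq_smul_one, hsmul, hone, ← Algebra.algebraMap_eq_smul_one]
      map_star' := hstar }
  have hσ : ∀ a, σ a = σf a := fun a => rfl
  have hσiso : Isometry σ := AddMonoidHomClass.isometry_of_norm σ hnorm
  -- surjectivity
  have hclosed : IsClosed (Set.range σ) := hσiso.isClosedEmbedding.isClosed_range
  have hmem : ∀ k, cd k ∈ closure (Set.range σ) := by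
    intro k
    rw [Metric.mem_closure_iff]
    intro δ hδ
    obtain ⟨N, hN⟩ := exists_pow_lt_of_lt_one (by positivity : 0 < δ / 3)
      (by norm_num : (1 / 2 : ℝ) < 1)
    set n := max N k with hn
    have hkn : k ≤ n := le_max_right _ _
    have hpn : (1 / 2 : ℝ) ^ n < δ / 3 :=
      lt_of_le_of_lt (pow_le_pow_of_le_one (by norm_num) (by norm_num) (le_max_left _ _)) hN
    refine ⟨σ (x n k), ⟨x n k, rfl⟩, ?_⟩
    have h1 : ‖T (n + 1) (x n k) - σf (x n k)‖ ≤ 2 * (1 / 2 : ℝ) ^ (n + 1) := by
      refine dist_geo (k := n + 1) (f := fun m => T m (x n k)) (fun m hm => ?_) (hσf _)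
      rw [hTstep]
      exact (hV2 m (U m) (X m) (x n k) (hXm hm (hxm n k hkn))).le
    have h2 : ‖cd k - T (n + 1) (x n k)‖ < (1 / 2 : ℝ) ^ n := by
      have h3 := hV5 n (U n) (X n) k hkn
      have e1 : cd k - T (n + 1) (x n k) =
          U (n + 1) * (star (v n) * (star (U n) * cd k * U n) * v n - i (x n k)) *
            star (U (n + 1)) := by
        have e2 : star (v n) * (star (U n) * cd k * U n) * v n =
            star (U (n + 1)) * cd k * U (n + 1) := by
          rw [hUs, star_mul]
          simp only [mul_assoc]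
        have e3 : U (n + 1) * (star (U (n + 1)) * cd k * U (n + 1)) * star (U (n + 1)) = cd k := by
          calc U (n + 1) * (star (U (n + 1)) * cd k * U (n + 1)) * star (U (n + 1))
              = (U (n + 1) * star (U (n + 1))) * cd k * (U (n + 1) * star (U (n + 1))) := by
                simp only [mul_assoc]
            _ = cd k := by rw [hUs2 (n + 1), one_mul, mul_one]
        rw [e2, mul_sub, sub_mul, e3]
      rw [e1, norm_mul_unitary (hUstar (n + 1)), norm_unitary_mul (hUu (n + 1))]
      exact h3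
    rw [dist_eq_norm]
    have e4 : cd k - σ (x n k) = (cd k - T (n + 1) (x n k)) + (T (n + 1) (x n k) - σf (x n k)) := by
      rw [hσ]
      abel
    rw [e4]
    have h4 : 2 * (1 / 2 : ℝ) ^ (n + 1) = (1 / 2 : ℝ) ^ n := by
      rw [pow_succ]
      ring
    refine lt_of_le_of_lt (norm_add_le _ _) ?_
    linarith
  have hsurj : Function.Surjective σ := by
    intro c
    have h1 : Set.range cd ⊆ Set.range σ := by
      rintro _ ⟨k, rfl⟩
      have := hmem k
      rwa [hclosed.closure_eq] at this
    have h2 : closure (Set.range cd) ⊆ Set.range σ := hclosed.closure_subset_iff.2 h1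
    exact h2 (hcd c)
  let σe : A ≃⋆ₐ[ℂ] C := StarAlgEquiv.ofBijective σ ⟨hσiso.injective, hsurj⟩
  have hσe : ∀ a, σe a = σf a := fun a => rfl
  -- the cocycle
  have hβc : ∀ g, Continuous (β g) := fun g => (StarAlgEquiv.isometry (β g)).continuous
  have hwc : ∀ g, CauchySeq (fun n => U n * star (β g (U n))) := by
    intro g
    obtain ⟨k, rfl⟩ := hgd g
    refine cauchy_geo (k := k) fun n hn => ?_
    have e1 : U (n + 1) * star (β (gd k) (U (n + 1))) - U n * star (β (gd k) (U n)) =
        U n * ((v n - β (gd k) (v n)) * star (β (gd k) (v n))) * star (β (gd k) (U n)) := by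
      have e2 : β (gd k) (v n) * star (β (gd k) (v n)) = 1 :=
        Unitary.mul_star_self_of_mem (hβv (gd k) n)
      rw [hUs, map_mul, star_mul, sub_mul, e2, mul_sub, sub_mul, mul_one]
      simp only [mul_assoc]
    rw [e1, norm_mul_unitary (Unitary.star_mem (hβu _ n)), norm_unitary_mul (hUu n),
      norm_mul_unitary (Unitary.star_mem (hβv _ n)), norm_sub_rev]
    exact (hV4 n (U n) (X n) k hn).le
  choose w hw using fun g => cauchySeq_tendsto_of_complete (hwc g)
  refine ⟨σe, w, ?_, ?_, ?_⟩
  · intro g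
    rw [Unitary.mem_iff]
    constructor
    · refine tendsto_nhds_unique (((hw g).star).mul (hw g)) ?_
      refine (tendsto_const_nhds (x := (1 : C))).congr fun n => ?_
      have e1 : β g (U n) * star (β g (U n)) = 1 := Unitary.mul_star_self_of_mem (hβu g n)
      rw [star_mul, star_star]
      calc (1 : C) = β g (U n) * 1 * star (β g (U n)) := by rw [mul_one, e1]
        _ = β g (U n) * (star (U n) * U n) * star (β g (U n)) := by rw [hUs1]
        _ = β g (U n) * star (U n) * (U n * star (β g (U n))) := by simp only [mul_assoc]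
    · refine tendsto_nhds_unique ((hw g).mul ((hw g).star)) ?_
      refine (tendsto_const_nhds (x := (1 : C))).congr fun n => ?_
      have e1 : star (β g (U n)) * β g (U n) = 1 := Unitary.star_mul_self_of_mem (hβu g n)
      rw [star_mul, star_star]
      calc (1 : C) = U n * 1 * star (U n) := by rw [mul_one, hUs2]
        _ = U n * (star (β g (U n)) * β g (U n)) * star (U n) := by rw [e1]
        _ = U n * star (β g (U n)) * (β g (U n) * star (U n)) := by simp only [mul_assoc]
  · intro g g'
    refine tendsto_nhds_unique (hw (g * g')) ?_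
    have h1 : Tendsto (fun n => β g (U n * star (β g' (U n)))) atTop (𝓝 (β g (w g'))) :=
      ((hβc g).tendsto _).comp (hw g')
    refine ((hw g).mul h1).congr fun n => ?_
    have e1 : star (β g (U n)) * β g (U n) = 1 := Unitary.star_mul_self_of_mem (hβu g n)
    have e2 : β (g * g') (U n) = β g (β g' (U n)) := by
      rw [map_mul]
      rfl
    rw [map_mul, map_star, e2]
    calc U n * star (β g (U n)) * (β g (U n) * star (β g (β g' (U n))))
        = U n * (star (β g (U n)) * β g (U n)) * star (β g (β g' (U n))) := by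
          simp only [mul_assoc]
      _ = U n * star (β g (β g' (U n))) := by rw [e1, mul_one]
  · intro g a
    rw [hσe, hσe]
    refine tendsto_nhds_unique (hσf (α g a)) ?_
    have h1 : Tendsto (fun n => β g (T n a)) atTop (𝓝 (β g (σf a))) :=
      ((hβc g).tendsto _).comp (hσf a)
    refine (((hw g).mul h1).mul ((hw g).star)).congr fun n => ?_
    have e1 : star (β g (U n)) * β g (U n) = 1 := Unitary.star_mul_self_of_mem (hβu g n)
    simp only [hT]
    rw [← hβ, map_mul, map_mul, map_star, star_mul, star_star]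
    calc U n * star (β g (U n)) * (β g (U n) * β g (i a) * star (β g (U n))) *
          (β g (U n) * star (U n))
        = U n * (star (β g (U n)) * β g (U n)) * β g (i a) *
          (star (β g (U n)) * β g (U n)) * star (U n) := by simp only [mul_assoc]
      _ = U n * β g (i a) * star (U n) := by rw [e1, mul_one, mul_one]

end Pool.Agent.Lib.EJS
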