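import Pool.Agent.Lib.EJS.TSFinal
import Pool.Agent.Lib.EJS.CuntzB

/-!
# Nuclear algebras have the property TraceSmall
-/

open scoped ComplexOrder

namespace Pool.Agent.Lib.EJS

open Pool.Agent.Lib.EqGamma

/-- in a nuclear C*-algebra uniformly small traces imply comparison with the unit (a quantitative form
of Haagerup's theorem that quasitraces are traces) -/
theorem traceSmall_of_nuclear {A : Type*} [CStarAlgebra A] [PartialOrder A] [StarOrderedRing A]
    (h : IsNuclear A) : TraceSmall A := fun N _ hε => TS.trace_small h N hε

end Pool.Agent.Lib.EJS
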