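import Pool.Agent.Lib.EJS.TensGen

/-!
# The tensor product action inside the sequence algebra

PROOF.  In `D = Seq (Seq A)` the homomorphisms `i = const ∘ const : A → D` and `θ : Z → D` commute;
`C = genAlg i θ` with `genL`, `genR` is a tensor product (`isTensor_gen`).  The automorphisms
`Seq.map (Seq.act α g)` of `D` map `C` to `C` (`i a ↦ i (α g a)`, `θ z ↦ θ z`), they form an action
(`Seq.act_mul`, `Seq.map_map`), and their restrictions are the automorphisms `β g` of `C`
(the inverse of `β g` is `β g⁻¹`).  `D` is non-trivial because `A` is and `const` is isometric.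
-/

open scoped ComplexOrder
open Filter Topology

namespace Pool.Agent.Lib.EJS

universe u v

namespace TensActAux

variable {A Z : Type u} [CStarAlgebra A] [CStarAlgebra Z] {G : Type v} [Group G]

/-- the double constant embedding -/
noncomputable def ii (A : Type u) [CStarAlgebra A] : A →⋆ₐ[ℂ] Seq (Seq A) := Seq.const.comp Seq.const

theorem ii_apply (a : A) : ii A a = Seq.const (Seq.const a) := rfl

/-- the action on the double sequence algebra -/
noncomputable def ph (α : G →* (A ≃⋆ₐ[ℂ] A)) (g : G) : Seq (Seq A) →⋆ₐ[ℂ] Seq (Seq A) :=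
  Seq.map (Seq.act α g)

theorem ph_ii (α : G →* (A ≃⋆ₐ[ℂ] A)) (g : G) (a : A) : ph α g (ii A a) = ii A (α g a) := rfl

theorem ph_mul (α : G →* (A ≃⋆ₐ[ℂ] A)) (g h : G) (x : Seq (Seq A)) : ph α (g * h) x = ph α g (ph α h x) := by
  unfold ph
  rw [Seq.map_map]
  congr 1
  congr 1
  ext y
  exact Seq.act_mul α g h y

theorem ph_one (α : G →* (A ≃⋆ₐ[ℂ] A)) (x : Seq (Seq A)) : ph α 1 x = x := by
  have h : Seq.act α (1 : G) = StarAlgHom.id ℂ (Seq A) := by
    ext y
    exact Seq.act_one α y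
  unfold ph
  rw [h, Seq.map_id]

variable (α : G →* (A ≃⋆ₐ[ℂ] A)) (θ : Z →⋆ₐ[ℂ] Seq (Seq A)) (h2 : ∀ g z, ph α g (θ z) = θ z)

include h2 in
theorem ph_mem (g : G) {y : Seq (Seq A)} (hy : y ∈ genAlg (ii A) θ) : ph α g y ∈ genAlg (ii A) θ := by
  refine genAlg_map (ph α g) (fun a => ?_) (fun z => ?_) hy
  · rw [ph_ii]
    exact left_mem_genAlg _ _ _
  · rw [h2]
    exact right_mem_genAlg _ _ _

/-- the restriction to the generated algebra -/
noncomputable def rs (g : G) : genAlg (ii A) θ →⋆ₐ[ℂ] genAlg (ii A) θ :=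
  ((ph α g).comp (genAlg (ii A) θ).subtype).codRestrict _ (fun x => ph_mem α θ h2 g x.2)

theorem rs_coe (g : G) (x : genAlg (ii A) θ) : ((rs α θ h2 g x : genAlg (ii A) θ) : Seq (Seq A)) = ph α g x := rfl

/-- the action -/
noncomputable def be : G →* (genAlg (ii A) θ ≃⋆ₐ[ℂ] genAlg (ii A) θ) where
  toFun g := StarAlgEquiv.ofStarAlgHom (rs α θ h2 g) (rs α θ h2 g⁻¹)
    (by
      ext x
      show ph α g⁻¹ (ph α g x) = x
      rw [← ph_mul, inv_mul_cancel, ph_one])
    (by
      ext x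
      show ph α g (ph α g⁻¹ x) = x
      rw [← ph_mul, mul_inv_cancel, ph_one])
  map_one' := by
    ext x
    show ph α 1 x = x
    exact ph_one α _
  map_mul' g h := by
    ext x
    show ph α (g * h) x = ph α g (ph α h x)
    exact ph_mul α g h _

end TensActAux

open TensActAux in
theorem exists_tensorAction {A Z : Type u} [CStarAlgebra A] [CStarAlgebra Z] [IsSimpleRing A]
    [IsSimpleRing Z] {G : Type v} [Group G] (α : G →* (A ≃⋆ₐ[ℂ] A))
    (θ : Z →⋆ₐ[ℂ] Seq (Seq A)) (h1 : ∀ z a, Commute (Seq.const (Seq.const a)) (θ z))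
    (h2 : ∀ g z, Seq.map (Seq.act α g) (θ z) = θ z) :
    ∃ (C : Type u) (_ : CStarAlgebra C) (i : A →⋆ₐ[ℂ] C) (j : Z →⋆ₐ[ℂ] C)
      (β : G →* (C ≃⋆ₐ[ℂ] C)), IsTensorAction α i j β := by
  have hinj : Function.Injective (ii A) := Seq.const_injective.comp Seq.const_injective
  have hnt : Nontrivial (Seq (Seq A)) := hinj.nontrivial
  refine ⟨genAlg (ii A) θ, inferInstance, genL (ii A) θ, genR (ii A) θ, be α θ h2, ?_, ?_, ?_⟩
  · exact isTensor_gen (ii A) θ (fun a z => h1 z a)
  · intro g a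
    apply Subtype.ext
    exact ph_ii α g a
  · intro g z
    apply Subtype.ext
    exact h2 g z

end Pool.Agent.Lib.EJS
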