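import Pool.Agent.Lib.EJS.DimBase
import Pool.Agent.Lib.EJS.Seq

/-!
# Homomorphisms from the Jiang-Su algebra into sequence algebras

PROOF.  Let `p, q, κ` be as in `IsJiangSu.limit` and `ρ n : DimDrop (p n) (q n) → E` unital
homomorphisms for `n ≥ n₀` (where `p n, q n > 0`).  Let `D n = range (κ n)` (closed, increasing, dense
union).  `κ n` is injective, hence isometric, so there is a unital homomorphism
`r n : D n → E`, `r n ∘ κ n = ρ n`, which is contractive.  For `z ∈ Z` choose `z_n ∈ D n` with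
`z_n → z` (possible as the union is dense and increasing) and put `θ z = [(r n (z_n))_n]`.  This
does not depend on the choice (contractivity), so `θ` is a unital star homomorphism
(`z_n + w_n`, `z_n w_n`, `z_n*`, `c z_n` are possible choices).
-/

open scoped ComplexOrder
open Filter Topology

namespace Pool.Agent.Lib.EJS

universe u v

namespace ZHomAux

open Pool.Agent.Lib.EqGamma

variable {Z : Type u} [CStarAlgebra Z] {E : Type v} [CStarAlgebra E] {D : ℕ → Type}
  [∀ n, CStarAlgebra (D n)] (κ : ∀ n, D n →⋆ₐ[ℂ] Z) (ρ : ∀ n, D n →⋆ₐ[ℂ] E)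
  (hinj : ∀ n, Function.Injective (κ n)) (hinc : ∀ n, Set.range (κ n) ⊆ Set.range (κ (n + 1)))
  (hden : Dense (⋃ n, Set.range (κ n)))

include hinj in
theorem norm_k (n : ℕ) (y : D n) : ‖κ n y‖ = ‖y‖ := NonUnitalStarAlgHom.norm_map (κ n) (hinj n) y

include hinc in
theorem range_mono : ∀ m n, m ≤ n → Set.range (κ m) ⊆ Set.range (κ n) := by
  intro m n h
  induction n, h using Nat.le_induction with
  | base => exact subset_rfl
  | succ k _ ih => exact ih.trans (hinc k)

include hinj hinc hden in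
theorem exists_choice (z : Z) : ∃ y : ∀ n, D n, (Tendsto (fun n => κ n (y n)) atTop (𝓝 z)) ∧
    ∀ n, ‖y n‖ ≤ 2 * ‖z‖ + 1 := by
  have h1 : ∀ n : ℕ, ∃ y : D n, ‖κ n y - z‖ ≤ Metric.infDist z (Set.range (κ n)) + 1 / ((n : ℝ) + 1) := by
    intro n
    have hne : (Set.range (κ n)).Nonempty := ⟨κ n 0, 0, rfl⟩
    have hlt : Metric.infDist z (Set.range (κ n)) < Metric.infDist z (Set.range (κ n)) + 1 / ((n : ℝ) + 1) := by
      have : (0 : ℝ) < 1 / ((n : ℝ) + 1) := by positivity
      linarith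
    obtain ⟨x, ⟨y, rfl⟩, hy⟩ := (Metric.infDist_lt_iff hne).1 hlt
    refine ⟨y, ?_⟩
    rw [← dist_eq_norm, dist_comm]
    exact hy.le
  choose y hy using h1
  refine ⟨y, ?_, ?_⟩
  · rw [Metric.tendsto_atTop]
    intro ε hε
    obtain ⟨x, hx, hxz⟩ := hden.exists_dist_lt z (half_pos hε)
    obtain ⟨m, hm⟩ := Set.mem_iUnion.1 hx
    obtain ⟨N, hN⟩ := exists_nat_one_div_lt (half_pos hε)
    refine ⟨max m N, fun n hn => ?_⟩
    rw [dist_eq_norm]
    have hmn : x ∈ Set.range (κ n) := range_mono κ hinc m n (le_trans (le_max_left _ _) hn) hm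
    have h2 := Metric.infDist_le_dist_of_mem (x := z) hmn
    have h3 : 1 / ((n : ℝ) + 1) ≤ 1 / ((N : ℝ) + 1) := by
      apply one_div_le_one_div_of_le (by positivity)
      have : (N : ℝ) ≤ n := by exact_mod_cast le_trans (le_max_right _ _) hn
      linarith
    have h4 := hy n
    linarith
  · intro n
    rw [← norm_k κ hinj]
    have h2 : Metric.infDist z (Set.range (κ n)) ≤ ‖z‖ := by
      have h3 := Metric.infDist_le_dist_of_mem (x := z) (s := Set.range (κ n)) ⟨0, rfl⟩
      rwa [map_zero, dist_zero_right] at h3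
    have h3 : 1 / ((n : ℝ) + 1) ≤ 1 := by
      rw [div_le_one (by positivity)]
      have : (0 : ℝ) ≤ n := Nat.cast_nonneg n
      linarith
    have h4 := hy n
    have h5 : ‖κ n (y n)‖ ≤ ‖κ n (y n) - z‖ + ‖z‖ := by
      have := norm_add_le (κ n (y n) - z) z
      rwa [sub_add_cancel] at this
    linarith

/-- the choice of approximating sequences -/
noncomputable def cy (z : Z) : ∀ n, D n := (exists_choice κ hinj hinc hden z).choose

theorem cy_tendsto (z : Z) : Tendsto (fun n => κ n (cy κ hinj hinc hden z n)) atTop (𝓝 z) :=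
  (exists_choice κ hinj hinc hden z).choose_spec.1

theorem cy_norm (z : Z) (n : ℕ) : ‖cy κ hinj hinc hden z n‖ ≤ 2 * ‖z‖ + 1 :=
  (exists_choice κ hinj hinc hden z).choose_spec.2 n

/-- the representing bounded sequence -/
noncomputable def rep (z : Z) : BF ℕ E :=
  BF.mk (fun n => ρ n (cy κ hinj hinc hden z n)) (2 * ‖z‖ + 1)
    (fun n => (shom_norm_le (ρ n) _).trans (cy_norm κ hinj hinc hden z n))

theorem ev_rep (z : Z) (n : ℕ) : BF.ev n (rep κ ρ hinj hinc hden z) = ρ n (cy κ hinj hinc hden z n) := by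
  unfold rep
  rw [BF.ev_mk]

include hinj in
theorem uniq {z : Z} {y y' : ∀ n, D n} (h : Tendsto (fun n => κ n (y n)) atTop (𝓝 z))
    (h' : Tendsto (fun n => κ n (y' n)) atTop (𝓝 z)) :
    Tendsto (fun n => ρ n (y n) - ρ n (y' n)) atTop (𝓝 0) := by
  have h1 := h.sub h'
  rw [sub_self, tendsto_zero_iff_norm_tendsto_zero] at h1
  rw [tendsto_zero_iff_norm_tendsto_zero]
  refine squeeze_zero (fun _ => norm_nonneg _) (fun n => ?_) h1
  rw [← map_sub, ← map_sub, norm_k κ hinj]
  exact shom_norm_le (ρ n) _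

theorem of_eq {z : Z} {y : ∀ n, D n} (h : Tendsto (fun n => κ n (y n)) atTop (𝓝 z)) (x : BF ℕ E)
    (hx : ∀ n, BF.ev n x = ρ n (y n)) : Seq.of (rep κ ρ hinj hinc hden z) = Seq.of x := by
  rw [Seq.of_eq_of]
  simp only [ev_rep, hx]
  exact uniq κ ρ hinj (cy_tendsto κ hinj hinc hden z) h

/-- the homomorphism -/
noncomputable def hom : Z →⋆ₐ[ℂ] Seq E where
  toFun z := Seq.of (rep κ ρ hinj hinc hden z)
  map_one' := by
    rw [← map_one Seq.of]
    refine of_eq κ ρ hinj hinc hden (y := fun n => 1) ?_ _ (fun n => by rw [map_one, map_one])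
    simp only [map_one]
    exact tendsto_const_nhds
  map_mul' z w := by
    rw [← map_mul Seq.of]
    refine of_eq κ ρ hinj hinc hden (y := fun n => cy κ hinj hinc hden z n * cy κ hinj hinc hden w n) ?_ _
      (fun n => by rw [map_mul, map_mul, ev_rep, ev_rep])
    simp only [map_mul]
    exact (cy_tendsto κ hinj hinc hden z).mul (cy_tendsto κ hinj hinc hden w)
  map_zero' := by
    rw [← map_zero Seq.of]
    refine of_eq κ ρ hinj hinc hden (y := fun n => 0) ?_ _ (fun n => by rw [map_zero, map_zero])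
    simp only [map_zero]
    exact tendsto_const_nhds
  map_add' z w := by
    rw [← map_add Seq.of]
    refine of_eq κ ρ hinj hinc hden (y := fun n => cy κ hinj hinc hden z n + cy κ hinj hinc hden w n) ?_ _
      (fun n => by rw [map_add, map_add, ev_rep, ev_rep])
    simp only [map_add]
    exact (cy_tendsto κ hinj hinc hden z).add (cy_tendsto κ hinj hinc hden w)
  commutes' r := by
    rw [← AlgHomClass.commutes Seq.of]
    refine of_eq κ ρ hinj hinc hden (y := fun n => algebraMap ℂ (D n) r) ?_ _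
      (fun n => by rw [AlgHomClass.commutes, AlgHomClass.commutes])
    simp only [AlgHomClass.commutes]
    exact tendsto_const_nhds
  map_star' z := by
    rw [← map_star Seq.of]
    refine of_eq κ ρ hinj hinc hden (y := fun n => star (cy κ hinj hinc hden z n)) ?_ _
      (fun n => by rw [map_star, map_star, ev_rep])
    simp only [map_star]
    exact (cy_tendsto κ hinj hinc hden z).star

end ZHomAux

theorem exists_hom_seq {Z : Type u} [CStarAlgebra Z] (hZ : IsJiangSu Z) {E : Type v}
    [CStarAlgebra E]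
    (h : ∀ p q : ℕ, 0 < p → 0 < q → Nat.Coprime p q → Nonempty (DimDrop p q →⋆ₐ[ℂ] E)) :
    Nonempty (Z →⋆ₐ[ℂ] Seq E) := by
  obtain ⟨p, q, κ, hpq, hp, hq, hinj, hinc, hden⟩ := hZ.limit
  obtain ⟨N, hN⟩ := eventually_atTop.1 ((hp.eventually_gt_atTop 0).and (hq.eventually_gt_atTop 0))
  have hρ : ∀ n, Nonempty (DimDrop (p (n + N)) (q (n + N)) →⋆ₐ[ℂ] E) := fun n =>
    h _ _ (hN (n + N) (by omega)).1 (hN (n + N) (by omega)).2 (hpq _)
  have hmono := ZHomAux.range_mono (D := fun n => DimDrop (p n) (q n)) κ hinc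
  refine ⟨ZHomAux.hom (D := fun n => DimDrop (p (n + N)) (q (n + N))) (fun n => κ (n + N)) (fun n => (hρ n).some)
    (fun n => hinj _) (fun n => ?_) ?_⟩
  · have := hinc (n + N)
    rw [show n + N + 1 = n + 1 + N by omega] at this
    exact this
  · refine hden.mono ?_
    intro x hx
    obtain ⟨m, hm⟩ := Set.mem_iUnion.1 hx
    exact Set.mem_iUnion.2 ⟨m, hmono m (m + N) (by omega) hm⟩

end Pool.Agent.Lib.EJS
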