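import Pool.Agent.Lib.EJS.SIMain
import Pool.Agent.Lib.EJS.Compare
import Pool.Agent.Lib.EJS.TSMain
import Pool.Agent.Lib.EJS.DropHom
import Pool.Agent.Lib.EJS.ZHom
import Pool.Agent.Lib.EJS.TensAct
import Pool.Agent.Lib.EJS.FlipUp
import Pool.Agent.Lib.EJS.FlipDown
import Pool.Agent.Lib.EJS.Intertwine
import Pool.Agent.Lib.EqL.RW
import Pool.Agent.Lib.EqL.Oz
import Pool.Agent.Lib.EqM.Final

/-!
# Equivariant Jiang-Su stability of amenable group actions: assembly
-/

open scoped ComplexOrder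
open Filter Topology Pool.Agent.Lib.EqGamma

namespace Pool.Agent.Lib.EJS

universe u v

/-- unital homomorphisms from the Jiang-Su algebra into invariant central sequences, second level -/
theorem exists_theta {Z A : Type u} [CStarAlgebra Z] [CStarAlgebra A] (hZ : IsJiangSu Z)
    {G : Type v} [Group G] (α : G →* (A ≃⋆ₐ[ℂ] A)) (h : ∀ n : ℕ, HasRW n (fix α)) :
    ∃ θ : Z →⋆ₐ[ℂ] Seq (Seq A), (∀ z a, Commute (Seq.const (Seq.const a)) (θ z)) ∧
      ∀ g z, Seq.map (Seq.act α g) (θ z) = θ z := by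
  obtain ⟨ρ⟩ := exists_hom_seq hZ (E := fix α) (by
    intro p q hp hq hpq
    obtain ⟨N, hN⟩ := exists_dimDrop_hom p q hp hq hpq
    obtain ⟨φ⟩ := hN (N + 1) (N + 2) (by omega) (by omega)
    obtain ⟨ψ⟩ := exists_hom_of_rw (h N)
    exact ⟨ψ.comp φ⟩)
  refine ⟨(Seq.map (fix α).subtype).comp ρ, fun z a => ?_, fun g z => ?_⟩
  · obtain ⟨x, hx⟩ := Seq.of_surjective (ρ z)
    rw [StarAlgHom.comp_apply, ← hx, Seq.map_of, Seq.const_apply]
    change Seq.of (BF.cst (Seq.const a)) * Seq.of (BFmap _ x) = Seq.of (BFmap _ x) * Seq.of (BF.cst (Seq.const a))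
    rw [← map_mul, ← map_mul]
    congr 1
    apply BF.ext
    intro n
    rw [map_mul, map_mul, BF.ev_cst, ev_BFmap]
    exact (BF.ev n x).2.1 a
  · obtain ⟨x, hx⟩ := Seq.of_surjective (ρ z)
    rw [StarAlgHom.comp_apply, ← hx, Seq.map_of, Seq.map_of]
    congr 1
    apply BF.ext
    intro n
    rw [ev_BFmap, ev_BFmap]
    exact (BF.ev n x).2.2 g

theorem equivZStable_of_theta {Z A : Type u} [CStarAlgebra Z] [CStarAlgebra A]
    (hZ : IsJiangSu Z) [TopologicalSpace.SeparableSpace A] [IsSimpleRing A] {G : Type v}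
    [Group G] [Countable G] (α : G →* (A ≃⋆ₐ[ℂ] A)) (θ : Z →⋆ₐ[ℂ] Seq (Seq A))
    (h1 : ∀ z a, Commute (Seq.const (Seq.const a)) (θ z))
    (h2 : ∀ g z, Seq.map (Seq.act α g) (θ z) = θ z) : EquivZStable Z α := by
  have := hZ.simple
  have := hZ.separable
  refine ⟨exists_tensorAction α θ h1 h2, ?_⟩
  intro C _ i j β hC
  have hsep : TopologicalSpace.SeparableSpace C := isTensor_separable hC.tensor
  have hnt : Nontrivial C := by
    by_contra hn
    rw [not_nontrivial_iff_subsingleton] at hn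
    have h3 := hC.tensor.inj 1 (fun _ => (1 : A)) (fun _ => (1 : Z))
      (LinearIndependent.of_subsingleton 0 one_ne_zero) (Subsingleton.elim _ _) 0
    exact one_ne_zero h3
  have h4 := flip_up hZ α i j β hC θ h1 h2
  have h5 : Flip i (Seq.const : C →⋆ₐ[ℂ] Seq C) (Seq.map i)
      (fun g => Seq.map (β g : C →⋆ₐ[ℂ] C)) := Flip.down h4
  have h6 : Flip i (StarAlgHom.id ℂ C) i (fun g => (β g : C →⋆ₐ[ℂ] C)) := Flip.down h5
  exact cocycleConj_of_flip α i (hom_injective i) β hC.left h6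

theorem compar {A : Type u} [CStarAlgebra A] [PartialOrder A] [StarOrderedRing A]
    [IsSimpleRing A] (hAU : AlmostUnperf A) (hT : TraceSmall A) : Compar A := by
  intro X e hX hX1 he he1 heJ m y hy h ε hε
  exact compare hAU hT (CStarAlgebra.nonneg_iff_eq_star_mul_self.1 hX)
    ((CStarAlgebra.norm_le_one_iff_of_nonneg X hX).2 hX1)
    (CStarAlgebra.nonneg_iff_eq_star_mul_self.1 he)
    ((CStarAlgebra.norm_le_one_iff_of_nonneg e he).2 he1) heJ y hy h hε

/-- **Every action of a countable amenable group on a simple separable nuclear unital `Z`-stable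
C-star algebra is equivariantly `Z`-stable.** -/
theorem equivZStable {Z A : Type u} [CStarAlgebra Z] [CStarAlgebra A]
    (hZ : IsJiangSu Z) [TopologicalSpace.SeparableSpace A] [IsSimpleRing A] (hN : IsNuclear A)
    (hA : ZStable Z A) {G : Type v} [Group G] [Countable G] (hG : AmenableGroup G)
    (α : G →* (A ≃⋆ₐ[ℂ] A)) : EquivZStable Z α := by
  let _ := CStarAlgebra.spectralOrder A
  have := CStarAlgebra.spectralOrderedRing A
  have hsep := hZ.separable
  have hc := centralHoms_of_zStable hZ hA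
  have hrw : EqL.CentralRW A := fun n F ε hε => by
    obtain ⟨e, s, h1, h2, -⟩ := centralRW_of_centralHoms hZ hc n F ε hε
    exact ⟨e, s, h1, h2⟩
  have hoz : ∀ k : ℕ, Oz α (k + 1) := fun k =>
    EqL.exists_oz (EqM.eqUMat hG (EqL.uniformGamma_of_centralRW hrw) (Nat.succ_pos k)
      (EqL.uMat_of_centralRW hrw (Nat.succ_pos k)) α)
  have hAU := almostUnperf_of_seqRW (seqRW_of_centralHoms hZ hc)
  obtain ⟨θ, h1, h2⟩ := exists_theta hZ α
    (hasRW_fix hN hZ (fun S hS => exists_central_seq hc S hS)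
      (compar hAU (traceSmall_of_nuclear hN)) hG α fun _ => hoz)
  exact equivZStable_of_theta hZ α θ h1 h2

end Pool.Agent.Lib.EJS
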