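import Mathlib

/-!
# Quotients of C-star algebras
-/

open scoped ComplexOrder
open Filter Topology

namespace Pool.Agent.Lib.EJS

universe u v

/-- closed two-sided star-closed ideals -/
structure CIdeal (B : Type u) [CStarAlgebra B] where
  ideal : Ideal B
  mul_right' : ∀ x y, x ∈ ideal → x * y ∈ ideal
  star_mem' : ∀ x, x ∈ ideal → star x ∈ ideal
  closed' : IsClosed (ideal : Set B)

variable {B : Type u} [CStarAlgebra B]

instance : Membership B (CIdeal B) := ⟨fun I x => x ∈ I.ideal⟩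

namespace CIdeal

variable (I : CIdeal B)

theorem mem_iff {x : B} : x ∈ I ↔ x ∈ I.ideal := Iff.rfl

theorem zero_mem : (0 : B) ∈ I := I.ideal.zero_mem
theorem add_mem {x y : B} (hx : x ∈ I) (hy : y ∈ I) : x + y ∈ I := I.ideal.add_mem hx hy
theorem sub_mem {x y : B} (hx : x ∈ I) (hy : y ∈ I) : x - y ∈ I := I.ideal.sub_mem hx hy
theorem neg_mem {x : B} (hx : x ∈ I) : -x ∈ I := I.ideal.neg_mem hx
theorem mul_left {x : B} (y : B) (hx : x ∈ I) : y * x ∈ I := I.ideal.mul_mem_left y hx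
theorem mul_right {x : B} (y : B) (hx : x ∈ I) : x * y ∈ I := I.mul_right' x y hx
theorem star_mem {x : B} (hx : x ∈ I) : star x ∈ I := I.star_mem' x hx
theorem sum_mem {ι : Type*} (s : Finset ι) {x : ι → B} (h : ∀ i ∈ s, x i ∈ I) :
    ∑ i ∈ s, x i ∈ I := I.ideal.sum_mem h
theorem closed : IsClosed {x | x ∈ I} := I.closed'
theorem smul_mem {x : B} (c : ℂ) (hx : x ∈ I) : c • x ∈ I := by
  have := I.mul_left (c • 1) hx
  rwa [smul_mul_assoc, one_mul] at this

instance : I.ideal.IsTwoSided := ⟨fun y hx => I.mul_right' _ y hx⟩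
instance : IsClosed (I.ideal : Set B) := I.closed'

end CIdeal

/-- the quotient C-star algebra -/
def CQ (I : CIdeal B) : Type u := B ⧸ I.ideal

namespace CQ

variable (I : CIdeal B)

noncomputable instance : Ring (CQ I) := inferInstanceAs (Ring (B ⧸ I.ideal))
noncomputable instance : NormedAddCommGroup (CQ I) :=
  inferInstanceAs (NormedAddCommGroup (B ⧸ I.ideal))
instance : CompleteSpace (CQ I) := inferInstanceAs (CompleteSpace (B ⧸ I.ideal))
noncomputable instance : Algebra ℂ (CQ I) := inferInstanceAs (Algebra ℂ (B ⧸ I.ideal))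
noncomputable instance : NormedSpace ℂ (CQ I) := inferInstanceAs (NormedSpace ℂ (B ⧸ I.ideal))

/-- the quotient map as algebra hom -/
noncomputable def mkA : B →ₐ[ℂ] CQ I := Ideal.Quotient.mkₐ ℂ I.ideal

theorem mkA_surjective : Function.Surjective (mkA I) := Ideal.Quotient.mkₐ_surjective ℂ I.ideal

theorem mkA_eq_zero {x : B} : mkA I x = 0 ↔ x ∈ I := Ideal.Quotient.eq_zero_iff_mem

theorem norm_mkA_le (x : B) : ‖mkA I x‖ ≤ ‖x‖ := Submodule.Quotient.norm_mk_le (S := I.ideal) x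

theorem exists_norm_lt (y : CQ I) {ε : ℝ} (hε : 0 < ε) : ∃ x, mkA I x = y ∧ ‖x‖ < ‖y‖ + ε :=
  Submodule.Quotient.norm_mk_lt (S := I.ideal) y hε

noncomputable instance : Star (CQ I) where
  star y := Quotient.liftOn' y (fun x => mkA I (star x)) (fun x x' h => by
    rw [← sub_eq_zero, ← map_sub, mkA_eq_zero, ← star_sub]
    apply I.star_mem
    exact (Submodule.quotientRel_def _).1 h)

theorem mkA_star (x : B) : mkA I (star x) = star (mkA I x) := rfl

noncomputable instance : StarRing (CQ I) where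
  star_involutive y := by
    obtain ⟨x, rfl⟩ := mkA_surjective I y
    rw [← mkA_star, ← mkA_star, star_star]
  star_mul y z := by
    obtain ⟨x, rfl⟩ := mkA_surjective I y
    obtain ⟨w, rfl⟩ := mkA_surjective I z
    rw [← map_mul, ← mkA_star, star_mul, map_mul, mkA_star, mkA_star]
  star_add y z := by
    obtain ⟨x, rfl⟩ := mkA_surjective I y
    obtain ⟨w, rfl⟩ := mkA_surjective I z
    rw [← map_add, ← mkA_star, star_add, map_add, mkA_star, mkA_star]

noncomputable instance : StarModule ℂ (CQ I) where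
  star_smul c y := by
    obtain ⟨x, rfl⟩ := mkA_surjective I y
    rw [← map_smul, ← mkA_star, star_smul, map_smul, mkA_star]

noncomputable instance : NormedRing (CQ I) where
  dist_eq := dist_eq_norm_neg_add
  norm_mul_le y z := by
    refine le_of_forall_pos_le_add fun ε hε => ?_
    have h1 : Continuous fun δ : ℝ => (‖y‖ + δ) * (‖z‖ + δ) := by fun_prop
    have h2 := (h1.tendsto 0).eventually
      (gt_mem_nhds (show (‖y‖ + 0) * (‖z‖ + 0) < ‖y‖ * ‖z‖ + ε by simpa using hε))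
    have h3 : ∀ᶠ δ in 𝓝[>] (0 : ℝ), (‖y‖ + δ) * (‖z‖ + δ) < ‖y‖ * ‖z‖ + ε :=
      nhdsWithin_le_nhds h2
    have h4 : ∀ᶠ δ in 𝓝[>] (0 : ℝ), 0 < δ := self_mem_nhdsWithin
    obtain ⟨δ, hδ1, hδ2⟩ := (h3.and h4).exists
    obtain ⟨x, rfl, hx⟩ := exists_norm_lt I y hδ2
    obtain ⟨w, rfl, hw⟩ := exists_norm_lt I z hδ2
    rw [← map_mul]
    refine (norm_mkA_le I _).trans ((norm_mul_le _ _).trans ?_)
    have := mul_le_mul hx.le hw.le (norm_nonneg _) (by positivity : 0 ≤ ‖mkA I x‖ + δ)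
    exact this.trans hδ1.le

/-- approximate units -/
theorem exists_unit (y : B) (hy : y ∈ I) {δ : ℝ} (hδ : 0 < δ) :
    ∃ e ∈ I, ‖1 - e‖ ≤ 1 ∧ ‖y * (1 - e)‖ ≤ δ := by
  let _ := CStarAlgebra.spectralOrder B
  have := CStarAlgebra.spectralOrderedRing B
  set p := star y * y with hp
  have hp0 : 0 ≤ p := star_mul_self_nonneg y
  have hsp : ∀ t ∈ spectrum ℝ p, 0 ≤ t := fun t ht => spectrum_nonneg_of_nonneg hp0 ht
  have hc : 0 < δ ^ 2 := by positivity
  have hc1 : ContinuousOn (fun t : ℝ => (δ ^ 2 + t)⁻¹) (spectrum ℝ p) := by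
    apply ContinuousOn.inv₀ (by fun_prop)
    intro t ht
    have := hsp t ht
    positivity
  have hc2 : ContinuousOn (fun t : ℝ => t * (δ ^ 2 + t)⁻¹) (spectrum ℝ p) :=
    continuousOn_id.mul hc1
  have hc3 : ContinuousOn (fun t : ℝ => δ ^ 2 * (δ ^ 2 + t)⁻¹) (spectrum ℝ p) :=
    continuousOn_const.mul hc1
  have he : cfc (fun t : ℝ => t * (δ ^ 2 + t)⁻¹) p = p * cfc (fun t : ℝ => (δ ^ 2 + t)⁻¹) p := by
    rw [cfc_mul (fun t : ℝ => t) (fun t : ℝ => (δ ^ 2 + t)⁻¹) p continuousOn_id hc1, cfc_id' ℝ p]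
  have h1 : 1 - cfc (fun t : ℝ => t * (δ ^ 2 + t)⁻¹) p =
      cfc (fun t : ℝ => δ ^ 2 * (δ ^ 2 + t)⁻¹) p := by
    rw [← cfc_const_one ℝ p, ← cfc_sub _ _ _ continuousOn_const hc2]
    apply cfc_congr
    intro t ht
    have := hsp t ht
    have h4 : δ ^ 2 + t ≠ 0 := by positivity
    field_simp
    ring
  refine ⟨cfc (fun t : ℝ => t * (δ ^ 2 + t)⁻¹) p, ?_, ?_, ?_⟩
  · rw [he]
    exact I.mul_right _ (I.mul_left _ hy)
  · rw [h1]
    refine norm_cfc_le zero_le_one fun t ht => ?_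
    have := hsp t ht
    rw [Real.norm_eq_abs, abs_of_nonneg (by positivity), ← div_eq_mul_inv,
      div_le_one (by positivity)]
    linarith
  · have h5 : ‖y * (1 - cfc (fun t : ℝ => t * (δ ^ 2 + t)⁻¹) p)‖ ^ 2 ≤ δ ^ 2 := by
      rw [sq, ← CStarRing.norm_star_mul_self, h1, star_mul]
      have hs : star (cfc (fun t : ℝ => δ ^ 2 * (δ ^ 2 + t)⁻¹) p) =
          cfc (fun t : ℝ => δ ^ 2 * (δ ^ 2 + t)⁻¹) p :=
        (cfc_predicate (R := ℝ) (fun t : ℝ => δ ^ 2 * (δ ^ 2 + t)⁻¹) p).star_eq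
      rw [hs, mul_assoc, ← mul_assoc (star y) y, ← hp]
      have h6 : cfc (fun t : ℝ => δ ^ 2 * (δ ^ 2 + t)⁻¹) p *
          (p * cfc (fun t : ℝ => δ ^ 2 * (δ ^ 2 + t)⁻¹) p) =
          cfc (fun t : ℝ => δ ^ 2 * (δ ^ 2 + t)⁻¹ * (t * (δ ^ 2 * (δ ^ 2 + t)⁻¹))) p := by
        rw [cfc_mul (fun t : ℝ => δ ^ 2 * (δ ^ 2 + t)⁻¹)
          (fun t : ℝ => t * (δ ^ 2 * (δ ^ 2 + t)⁻¹)) p hc3 (continuousOn_id.mul hc3),
          cfc_mul (fun t : ℝ => t) (fun t : ℝ => δ ^ 2 * (δ ^ 2 + t)⁻¹) p continuousOn_id hc3,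
          cfc_id' ℝ p]
      rw [h6]
      refine norm_cfc_le (by positivity) fun t ht => ?_
      have := hsp t ht
      rw [Real.norm_eq_abs, abs_of_nonneg (by positivity)]
      have h7 : δ ^ 2 * (δ ^ 2 + t)⁻¹ ≤ 1 := by
        rw [← div_eq_mul_inv, div_le_one (by positivity)]; linarith
      have h8 : t * (δ ^ 2 * (δ ^ 2 + t)⁻¹) ≤ δ ^ 2 := by
        have : t * (δ ^ 2 + t)⁻¹ ≤ 1 := by
          rw [← div_eq_mul_inv, div_le_one (by positivity)]; linarith
        nlinarith
      calc δ ^ 2 * (δ ^ 2 + t)⁻¹ * (t * (δ ^ 2 * (δ ^ 2 + t)⁻¹)) ≤ 1 * δ ^ 2 :=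
            mul_le_mul h7 h8 (by positivity) zero_le_one
        _ = δ ^ 2 := one_mul _
    exact abs_le_of_sq_le_sq' h5 hδ.le |>.2

noncomputable instance : CStarRing (CQ I) where
  norm_mul_self_le y := by
    refine le_of_forall_pos_le_add fun ε hε => ?_
    obtain ⟨x, rfl⟩ := mkA_surjective I y
    obtain ⟨z, hz1, hz2⟩ := exists_norm_lt I (star (mkA I x) * mkA I x) (half_pos hε)
    have hz3 : z - star x * x ∈ I := by
      rw [← mkA_eq_zero, map_sub, map_mul, mkA_star, hz1, sub_self]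
    obtain ⟨e, he, he1, he2⟩ := exists_unit I _ hz3 (half_pos hε)
    have h1 : ‖mkA I x‖ ≤ ‖x * (1 - e)‖ := by
      have : mkA I x = mkA I (x * (1 - e)) := by
        rw [← sub_eq_zero, ← map_sub, mkA_eq_zero]
        have : x - x * (1 - e) = x * e := by noncomm_ring
        rw [this]
        exact I.mul_left _ he
      rw [this]
      exact norm_mkA_le I _
    have h2 : ‖x * (1 - e)‖ * ‖x * (1 - e)‖ ≤ ‖star x * x * (1 - e)‖ := by
      rw [← CStarRing.norm_star_mul_self]
      have : star (x * (1 - e)) * (x * (1 - e)) = star (1 - e) * (star x * x * (1 - e)) := by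
        rw [star_mul]; noncomm_ring
      rw [this]
      refine (norm_mul_le _ _).trans ?_
      rw [norm_star]
      exact mul_le_of_le_one_left (norm_nonneg _) he1
    have h3 : ‖star x * x * (1 - e)‖ ≤ ‖z‖ + ε / 2 := by
      have : star x * x * (1 - e) = z * (1 - e) - (z - star x * x) * (1 - e) := by noncomm_ring
      rw [this]
      refine (norm_sub_le _ _).trans (add_le_add ?_ he2)
      exact (norm_mul_le _ _).trans (mul_le_of_le_one_right (norm_nonneg _) he1)
    have h4 : ‖mkA I x‖ * ‖mkA I x‖ ≤ ‖x * (1 - e)‖ * ‖x * (1 - e)‖ :=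
      mul_le_mul h1 h1 (norm_nonneg _) (norm_nonneg _)
    linarith

noncomputable instance : NormedAlgebra ℂ (CQ I) where
  norm_smul_le := norm_smul_le

noncomputable instance : CStarAlgebra (CQ I) where

noncomputable instance : PartialOrder (CQ I) := CStarAlgebra.spectralOrder _
instance : StarOrderedRing (CQ I) := CStarAlgebra.spectralOrderedRing _

/-- the quotient map -/
noncomputable def mk : B →⋆ₐ[ℂ] CQ I := { mkA I with map_star' := mkA_star I }

theorem mk_surjective : Function.Surjective (mk I) := mkA_surjective I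

theorem mk_eq_zero {x : B} : mk I x = 0 ↔ x ∈ I := mkA_eq_zero I

theorem mk_eq_mk {x y : B} : mk I x = mk I y ↔ x - y ∈ I := by
  rw [← mk_eq_zero, map_sub, sub_eq_zero]

theorem norm_mk_le (x : B) : ‖mk I x‖ ≤ ‖x‖ := norm_mkA_le I x

theorem continuous_mk : Continuous (mk I) :=
  AddMonoidHomClass.continuous_of_bound (mk I) 1 fun a => by rw [one_mul]; exact norm_mk_le I a

theorem exists_norm_mk_lt (y : CQ I) {ε : ℝ} (hε : 0 < ε) : ∃ x, mk I x = y ∧ ‖x‖ < ‖y‖ + ε :=
  exists_norm_lt I y hε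

/-- the norm of a quotient element is approximately attained on a given lift -/
theorem norm_mk_lt_iff {x : B} {c : ℝ} : ‖mk I x‖ < c ↔ ∃ y ∈ I, ‖x + y‖ < c := by
  constructor
  · intro h
    obtain ⟨z, hz, hz'⟩ := exists_norm_mk_lt I (mk I x) (sub_pos.2 h)
    refine ⟨z - x, (mk_eq_mk I).1 hz, ?_⟩
    rw [add_sub_cancel]
    linarith
  · rintro ⟨y, hy, h⟩
    have : mk I x = mk I (x + y) := by
      rw [map_add, (mk_eq_zero I).2 hy, add_zero]
    rw [this]
    exact (norm_mk_le I _).trans_lt h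

/-- lifts of the same norm -/
theorem exists_lift (y : CQ I) : ∃ x, mk I x = y ∧ ‖x‖ ≤ ‖y‖ := by
  obtain ⟨x, rfl⟩ := mk_surjective I y
  rcases eq_or_lt_of_le (norm_nonneg (mk I x)) with h0 | h0
  · refine ⟨0, ?_, ?_⟩
    · rw [map_zero]
      exact (norm_eq_zero.1 h0.symm).symm
    · rw [norm_zero]; exact norm_nonneg _
  let _ := CStarAlgebra.spectralOrder B
  have := CStarAlgebra.spectralOrderedRing B
  set c := ‖mk I x‖ with hc
  set f : ℝ → ℝ := fun t => min 1 (c / √t) with hf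
  set f' : ℝ → ℝ := fun t => c / max c (√t) with hf'
  have hf'c : Continuous f' := by
    apply Continuous.div₀ continuous_const (by fun_prop)
    intro t
    exact (lt_max_of_lt_left h0).ne'
  set p := star x * x with hp
  have hp0 : 0 ≤ p := star_mul_self_nonneg x
  refine ⟨x * cfc f' p, ?_, ?_⟩
  · have h1 : mk I (cfc f' p) = cfc f' (mk I p) :=
      StarAlgHomClass.map_cfc (mk I) f' p hf'c.continuousOn (continuous_mk I)
        hp0.isSelfAdjoint (hp0.isSelfAdjoint.map (mk I))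
    have h2 : cfc f' (mk I p) = 1 := by
      have hsa : IsSelfAdjoint (mk I p) := hp0.isSelfAdjoint.map (mk I)
      rw [← cfc_const_one ℝ (mk I p)]
      apply cfc_congr
      intro t ht
      have h3 : t ≤ c ^ 2 := by
        have : Nontrivial (CQ I) := ⟨⟨mk I x, 0, norm_pos_iff.1 h0⟩⟩
        have h4 := spectrum.norm_le_norm_of_mem ht
        have h5 : ‖mk I p‖ = c ^ 2 := by
          rw [hp, map_mul, map_star, CStarRing.norm_star_mul_self, sq]
        rw [h5] at h4
        exact (Real.le_norm_self t).trans h4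
      have h4 : √t ≤ c := by
        rw [← Real.sqrt_sq h0.le]
        exact Real.sqrt_le_sqrt h3
      change c / max c (√t) = 1
      rw [max_eq_left h4, div_self h0.ne']
    rw [map_mul, h1, h2, mul_one]
  · have h5 : ‖x * cfc f' p‖ ^ 2 ≤ c ^ 2 := by
      rw [sq, ← CStarRing.norm_star_mul_self, star_mul]
      have hs : star (cfc f' p) = cfc f' p := (cfc_predicate (R := ℝ) f' p).star_eq
      rw [hs, mul_assoc, ← mul_assoc (star x) x, ← hp]
      have h6 : cfc f' p * (p * cfc f' p) = cfc (fun t : ℝ => f' t * (t * f' t)) p := by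
        rw [cfc_mul f' (fun t : ℝ => t * f' t) p hf'c.continuousOn
          (continuousOn_id.mul hf'c.continuousOn),
          cfc_mul (fun t : ℝ => t) f' p continuousOn_id hf'c.continuousOn, cfc_id' ℝ p]
      rw [h6]
      refine norm_cfc_le (by positivity) fun t ht => ?_
      have ht0 : 0 ≤ t := spectrum_nonneg_of_nonneg hp0 ht
      have hm : 0 < max c (√t) := lt_max_of_lt_left h0
      rw [Real.norm_eq_abs, abs_of_nonneg (by positivity)]
      change c / max c (√t) * (t * (c / max c (√t))) ≤ c ^ 2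
      have h7 : t ≤ max c (√t) ^ 2 := by
        calc t = √t ^ 2 := (Real.sq_sqrt ht0).symm
          _ ≤ _ := pow_le_pow_left₀ (Real.sqrt_nonneg _) (le_max_right _ _) 2
      calc c / max c (√t) * (t * (c / max c (√t))) = c ^ 2 * (t / max c (√t) ^ 2) := by
            field_simp
        _ ≤ c ^ 2 * 1 := by
            apply mul_le_mul_of_nonneg_left _ (by positivity)
            rw [div_le_one (by positivity)]
            exact h7
        _ = c ^ 2 := mul_one _
    exact abs_le_of_sq_le_sq' h5 h0.le |>.2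

variable {I}

/-- homomorphisms out of the quotient -/
noncomputable def lift {D : Type v} [CStarAlgebra D] (f : B →⋆ₐ[ℂ] D) (h : ∀ x ∈ I, f x = 0) :
    CQ I →⋆ₐ[ℂ] D :=
  { Ideal.Quotient.liftₐ I.ideal (f : B →ₐ[ℂ] D) h with
    map_star' := by
      intro y
      obtain ⟨x, rfl⟩ := mk_surjective I y
      exact map_star f x }

@[simp] theorem lift_mk {D : Type v} [CStarAlgebra D] (f : B →⋆ₐ[ℂ] D) (h : ∀ x ∈ I, f x = 0)
    (x : B) : lift f h (mk I x) = f x := rfl

theorem hom_ext {D : Type v} [CStarAlgebra D] {f g : CQ I →⋆ₐ[ℂ] D}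
    (h : ∀ x, f (mk I x) = g (mk I x)) : f = g := by
  apply StarAlgHom.ext
  intro y
  obtain ⟨x, rfl⟩ := mk_surjective I y
  exact h x

end CQ

end Pool.Agent.Lib.EJS
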