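import Pool.Agent.Lib.EJS.SIDefs

/-!
# Part SI: the successive forms of the conclusion
-/

open scoped ComplexOrder
open Filter Topology Pool.Agent.Lib.EqGamma

namespace Pool.Agent.Lib.EJS

universe u v

variable {A : Type u} [CStarAlgebra A] {G : Type v} [Group G] (α : G →* (A ≃⋆ₐ[ℂ] A))

/-- the approximate form (conclusion of SI7) -/
def ApproxS (e f' : Seq A) : Prop :=
  ∀ (I : ℕ) (F : Finset A) (K : Finset G), (∀ g ∈ K, g ∉ Triv α) → ∀ ε : ℝ, 0 < ε →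
    ∃ (p : A) (s : Fin I → Seq A), star p = p ∧ ‖p‖ ≤ 1 ∧ (∀ a ∈ F, ‖p * a - a * p‖ ≤ ε) ∧
      (∀ g ∈ K, ‖p * α g p‖ ≤ ε) ∧
      (∀ i, ‖Seq.const p * s i - s i‖ ≤ ε ∧ ‖s i‖ ≤ 2 ∧ f' * s i = s i) ∧
      ∀ a ∈ F, ∀ i j,
        ‖star (s i) * Seq.const a * s j - (if i = j then Seq.const a * e else 0)‖ ≤ ε

/-- the exact form (conclusion of SI8) -/
def ExactS (e f' : Seq A) : Prop :=
  ∀ I : ℕ, ∃ (P : Seq A) (s : Fin I → Seq A), Seq.Central P ∧ star P = P ∧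
    (∀ g, g ∉ Triv α → P * Seq.act α g P = 0) ∧
    (∀ i, P * s i = s i ∧ f' * s i = s i ∧ Seq.Central (s i)) ∧
    ∀ i j a, star (s i) * Seq.const a * s j = if i = j then Seq.const a * e else 0

/-- central and approximately invariant solutions (conclusion of SI9, first part) -/
def AvgS (e f' : Seq A) : Prop :=
  ∀ (I : ℕ) (K : Finset G) (ε : ℝ), 0 < ε → ∃ w : Fin I → Seq A,
    (∀ i, Seq.Central (w i) ∧ f' * w i = w i ∧ ‖w i‖ ≤ 1) ∧
    (∀ i j, star (w i) * w j = if i = j then e else 0) ∧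
    ∀ h ∈ K, ∀ i, ‖Seq.act α h (w i) - w i‖ ≤ ε

/-- property SI for `e`, `f'`: central invariant solutions -/
def PropSI (e f' : Seq A) : Prop :=
  ∀ I : ℕ, ∃ w : Fin I → Seq A, (∀ i, w i ∈ fix α ∧ f' * w i = w i) ∧
    ∀ i j, star (w i) * w j = if i = j then e else 0

end Pool.Agent.Lib.EJS
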