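import Pool.Agent.Lib.EJS.SIReiter
import Pool.Agent.Lib.EJS.SIDefsB

/-!
# Part SI: averaging over `G / Triv` (SI9)

PROOF.  `N := Triv α`, `P, s` from `h I`, `S, κ` from `exists_reiter` for `N`, `K`, `ε^2`.  For `c : G ⧸ N` let `ĉ = Quotient.out c` and `σ_c(x) := act ĉ x`.
(1) `act n (s i) = s i` for `n ∈ N` (`s i` is central), so `act g (s i) = σ_[g](s i)` for every `g ∈ G` (`g = ĉ n`, `c = [g]`, `Seq.act_mul`).
(2) For `g, h` with `[g] ≠ [h]`: `star (act g (s i)) * act h (s j) = 0`: `s i = P s i`, so it is `star (act g (s i)) * act g P * act h P * act h (s j)` (`star P = P`) and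
`act g P * act h P = act g (P * act (g⁻¹h) P) = 0` since `g⁻¹ h ∉ N` (`QuotientGroup.eq`).
(3) `w i := ∑_{c ∈ S} (κ c : ℂ) • σ_c(s i)`.  `star (w i) * w j = ∑_c κ(c)^2 σ_c(star (s i) * s j) = (if i = j then e else 0)` (`a = 1` in the last relation of `ExactS`, `σ_c(e) = e`).
`w i` is central (`Seq.Central.act`, sums), `f' σ_c(s i) = σ_c(f' s i) = σ_c(s i)`, so `f' * w i = w i`.  `‖w i‖^2 = ‖e‖ ≤ 1`.
(4) `act h (w i) = ∑_{c ∈ S} κ(c) act (h ĉ) (s i) = ∑_{c ∈ S} κ(c) σ_(h•c)(s i) = ∑_{c ∈ h•S} κ(h⁻¹•c) σ_c(s i)` (by (1), `[h ĉ] = h • c`).  With `T = S ∪ h•S`: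
`act h (w i) - w i = ∑_{c ∈ T} (κ(h⁻¹•c) - κ(c)) σ_c(s i)`, and by (2) `‖·‖^2 = ‖∑_{c ∈ T} (κ(h⁻¹•c) - κ(c))^2 • σ_c(star (s i) * s i)‖ = (∑ ..) ‖e‖ ≤ ε^2`.
-/

open scoped ComplexOrder
open Filter Topology Pool.Agent.Lib.EqGamma

namespace Pool.Agent.Lib.EJS

universe u v

theorem avgS {A : Type u} [CStarAlgebra A] {G : Type v} [Group G] (hG : AmenableGroup G)
    {α : G →* (A ≃⋆ₐ[ℂ] A)} {e f' : Seq A} (he : e ∈ fix α) (he1 : ‖e‖ ≤ 1) (hf' : f' ∈ fix α)
    (h : ExactS α e f') : AvgS α e f' := by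
  classical
  intro I K ε hε
  obtain ⟨P, s, hPc, hPs, hPz, hs, hss⟩ := h I
  obtain ⟨S, κ, hκ0, hκS, hκ1, hκK⟩ := exists_reiter hG (Triv α) K (ε := ε ^ 2) (by positivity)
  set o : G ⧸ Triv α → G := fun c => Quotient.out c with ho
  have hoc : ∀ c : G ⧸ Triv α, ((o c : G) : G ⧸ Triv α) = c := fun c => QuotientGroup.out_eq' c
  -- (1)
  have h1 : ∀ (g g' : G), ((g : G ⧸ Triv α) = (g' : G ⧸ Triv α)) → ∀ i,
      Seq.act α g (s i) = Seq.act α g' (s i) := by
    intro g g' hgg i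
    have hmem : g⁻¹ * g' ∈ Triv α := QuotientGroup.eq.1 hgg
    have h2 := hmem (s i) (hs i).2.2
    have h3 : Seq.act α g' (s i) = Seq.act α (g * (g⁻¹ * g')) (s i) := by
      rw [mul_inv_cancel_left]
    rw [h3, Seq.act_mul, h2]
  -- (2)
  have h2 : ∀ (g g' : G), ((g : G ⧸ Triv α) ≠ (g' : G ⧸ Triv α)) → ∀ i j,
      star (Seq.act α g (s i)) * Seq.act α g' (s j) = 0 := by
    intro g g' hgg i j
    have hnot : g⁻¹ * g' ∉ Triv α := fun hm => hgg (QuotientGroup.eq.2 hm)
    have e1 : Seq.act α g (s i) = Seq.act α g P * Seq.act α g (s i) := by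
      rw [← map_mul, (hs i).1]
    have e2 : Seq.act α g' (s j) = Seq.act α g' P * Seq.act α g' (s j) := by
      rw [← map_mul, (hs j).1]
    have e3 : star (Seq.act α g P) = Seq.act α g P := by rw [← map_star, hPs]
    have e4 : Seq.act α g P * Seq.act α g' P = 0 := by
      have e5 : Seq.act α g' P = Seq.act α g (Seq.act α (g⁻¹ * g') P) := by
        rw [← Seq.act_mul, mul_inv_cancel_left]
      rw [e5, ← map_mul, hPz _ hnot, map_zero]
    rw [e1, e2, star_mul, e3]
    calc star (Seq.act α g (s i)) * Seq.act α g P * (Seq.act α g' P * Seq.act α g' (s j)) =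
        star (Seq.act α g (s i)) * (Seq.act α g P * Seq.act α g' P) * Seq.act α g' (s j) := by
          simp only [mul_assoc]
      _ = 0 := by rw [e4, mul_zero, zero_mul]
  set X : Fin I → G ⧸ Triv α → Seq A := fun i c => Seq.act α (o c) (s i) with hX
  have hE : ∀ i j, star (s i) * s j = if i = j then e else 0 := by
    intro i j
    have := hss i j 1
    rw [map_one, mul_one, one_mul] at this
    exact this
  have hinv : ∀ g, Seq.act α g e = e := he.2
  have hXX : ∀ c i j, star (X i c) * X j c = if i = j then e else 0 := by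
    intro c i j
    rw [hX]
    simp only
    rw [← map_star, ← map_mul, hE]
    split_ifs
    · exact hinv _
    · exact map_zero _
  have hmul : ∀ (T : Finset (G ⧸ Triv α)) (δ : G ⧸ Triv α → ℝ) (i j : Fin I),
      star (∑ c ∈ T, (δ c : ℂ) • X i c) * (∑ c ∈ T, (δ c : ℂ) • X j c) =
        ((∑ c ∈ T, δ c ^ 2 : ℝ) : ℂ) • (if i = j then e else 0) := by
    intro T δ i j
    rw [star_sum, Finset.sum_mul_sum, Complex.ofReal_sum, Finset.sum_smul]
    refine Finset.sum_congr rfl fun c hc => ?_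
    rw [Finset.sum_eq_single c]
    · rw [star_smul, smul_mul_smul_comm, hXX]
      congr 1
      rw [Complex.star_def, Complex.conj_ofReal]
      push_cast
      ring
    · intro c' _ hcc
      rw [star_smul, smul_mul_smul_comm]
      have hne : ((o c : G) : G ⧸ Triv α) ≠ ((o c' : G) : G ⧸ Triv α) := by
        rw [hoc, hoc]; exact Ne.symm hcc
      rw [hX]
      simp only
      rw [h2 _ _ hne, smul_zero]
    · intro hn; exact absurd hc hn
  refine ⟨fun i => ∑ c ∈ S, (κ c : ℂ) • X i c, ?_, ?_, ?_⟩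
  · intro i
    refine ⟨?_, ?_, ?_⟩
    · intro a
      refine Commute.sum_right _ _ _ fun c _ => ?_
      exact (((hs i).2.2.act α (o c)) a).smul_right _
    · rw [Finset.mul_sum]
      refine Finset.sum_congr rfl fun c _ => ?_
      rw [mul_smul_comm]
      congr 1
      rw [hX]
      simp only
      have e1 : Seq.act α (o c) f' = f' := hf'.2 _
      calc f' * Seq.act α (o c) (s i) = Seq.act α (o c) f' * Seq.act α (o c) (s i) := by rw [e1]
        _ = Seq.act α (o c) (s i) := by rw [← map_mul, (hs i).2.1]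
    · have e1 := hmul S κ i i
      rw [if_pos rfl, hκ1, Complex.ofReal_one, one_smul] at e1
      have e2 := CStarRing.norm_star_mul_self (x := ∑ c ∈ S, (κ c : ℂ) • X i c)
      rw [e1] at e2
      nlinarith [norm_nonneg (∑ c ∈ S, (κ c : ℂ) • X i c)]
  · intro i j
    have e1 := hmul S κ i j
    rw [hκ1, Complex.ofReal_one, one_smul] at e1
    exact e1
  · intro g hg i
    set T := S ∪ S.image (fun c => g • c) with hT
    have hact : Seq.act α g (∑ c ∈ S, (κ c : ℂ) • X i c) =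
        ∑ c ∈ T, (κ (g⁻¹ • c) : ℂ) • X i c := by
      have a1 : ∑ c ∈ T, (κ (g⁻¹ • c) : ℂ) • X i c =
          ∑ c ∈ S.image (fun c => g • c), (κ (g⁻¹ • c) : ℂ) • X i c := by
        symm
        apply Finset.sum_subset Finset.subset_union_right
        intro c _ hc
        have : g⁻¹ • c ∉ S := by
          intro hm
          apply hc
          exact Finset.mem_image.2 ⟨g⁻¹ • c, hm, by rw [smul_inv_smul]⟩
        rw [hκS _ this, Complex.ofReal_zero, zero_smul]
      rw [a1, Finset.sum_image (fun c _ c' _ hcc => (MulAction.injective g) hcc), map_sum]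
      refine Finset.sum_congr rfl fun c _ => ?_
      rw [map_smul, inv_smul_smul]
      congr 1
      rw [hX]
      simp only
      rw [← Seq.act_mul]
      apply h1
      rw [hoc]
      conv_rhs => rw [← hoc c]
      rfl
    have hw : ∑ c ∈ S, (κ c : ℂ) • X i c = ∑ c ∈ T, (κ c : ℂ) • X i c := by
      apply Finset.sum_subset Finset.subset_union_left
      intro c _ hc
      rw [hκS _ hc, Complex.ofReal_zero, zero_smul]
    have hdiff : Seq.act α g (∑ c ∈ S, (κ c : ℂ) • X i c) - ∑ c ∈ S, (κ c : ℂ) • X i c =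
        ∑ c ∈ T, ((κ (g⁻¹ • c) - κ c : ℝ) : ℂ) • X i c := by
      rw [hact, hw, ← Finset.sum_sub_distrib]
      refine Finset.sum_congr rfl fun c _ => ?_
      rw [← sub_smul, Complex.ofReal_sub]
    rw [hdiff]
    have e1 := hmul T (fun c => κ (g⁻¹ • c) - κ c) i i
    rw [if_pos rfl] at e1
    have e2 := CStarRing.norm_star_mul_self (x := ∑ c ∈ T, ((κ (g⁻¹ • c) - κ c : ℝ) : ℂ) • X i c)
    rw [e1, norm_smul, Complex.norm_real, Real.norm_of_nonneg (Finset.sum_nonneg
      fun c _ => sq_nonneg _)] at e2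
    have e3 := hκK g hg T
    have e4 : (∑ c ∈ T, (κ (g⁻¹ • c) - κ c) ^ 2) * ‖e‖ ≤ ε ^ 2 * 1 :=
      mul_le_mul e3 he1 (norm_nonneg _) (by positivity)
    have e5 : ‖∑ c ∈ T, ((κ (g⁻¹ • c) - κ c : ℝ) : ℂ) • X i c‖ *
        ‖∑ c ∈ T, ((κ (g⁻¹ • c) - κ c : ℝ) : ℂ) • X i c‖ ≤ ε ^ 2 := by
      rw [← e2]; linarith
    exact abs_le_of_sq_le_sq' (by nlinarith) hε.le |>.2

end Pool.Agent.Lib.EJS
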