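import Pool.Agent.Lib.EJS.Common

/-!
# Part SI: orthogonal positive elements from Rordam-Winter pairs

PROOF.  `N = 0` is trivial; let `N = n + 1` and `e, s` a pair of size `n + 1`, `h = ∑ e m m`.  `z x := star (e x x) * e x x = e x x * e x x` divided by its norm (if it
exceeds `1`, or always).  For `x ≠ y` `e x x * e y y = 0`, so `z x * z y = 0`.  `z x ≠ 0`: suppose `e x x = 0` for some `x`.  For every `j`:
`e j x * star (e j x) = e j x * e x j`..., precisely `star (e j x) * e j x = e x j * e j x = h * e x x = 0`, so `e j x = 0`, `e x j = star (e j x) = 0`, and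
`h * e j j = e j x * e x j = 0`; `star (e j j) * e j j = e j j * e j j = h * e j j = 0`, so `e j j = 0` for all `j`, `h = 0`, `s = e 0 0 * s = 0`,
`0 = star s * s = 1 - h = 1`, contradiction.
-/

open scoped ComplexOrder

namespace Pool.Agent.Lib.EJS

theorem exists_orth_elems {Z : Type*} [CStarAlgebra Z] [Nontrivial Z] (h : ∀ n, HasRW n Z)
    (N : ℕ) :
    ∃ z : Fin N → Z, (∀ x, (∃ c, z x = star c * c) ∧ ‖z x‖ ≤ 1 ∧ z x ≠ 0) ∧
      ∀ x y, x ≠ y → z x * z y = 0 := by
  rcases Nat.eq_zero_or_pos N with rfl | hN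
  · exact ⟨Fin.elim0, fun x => x.elim0, fun x => x.elim0⟩
  obtain ⟨n, rfl⟩ : ∃ n, N = n + 1 := ⟨N - 1, by omega⟩
  obtain ⟨e, s, hRW⟩ := h n
  have hne : ∀ x, e x x ≠ 0 := by
    intro x hx
    have h1 : ∀ j, e j x = 0 := by
      intro j
      rw [← CStarRing.star_mul_self_eq_zero_iff, hRW.star_e, hRW.mul_e, if_pos rfl, hx, mul_zero]
    have h2 : ∀ j, e j j = 0 := by
      intro j
      have h3 : (∑ m, e m m) * e j j = 0 := by
        have h4 : e j x * e x j = (∑ m, e m m) * e j j := by rw [hRW.mul_e, if_pos rfl]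
        rw [← h4, h1, zero_mul]
      rw [← CStarRing.star_mul_self_eq_zero_iff, hRW.star_e, hRW.mul_e, if_pos rfl, h3]
    have h5 : s = 0 := by rw [← hRW.e_s, h2, zero_mul]
    have h6 := hRW.star_s
    rw [h5, mul_zero, Finset.sum_eq_zero fun m _ => h2 m, sub_zero] at h6
    exact zero_ne_one h6
  have hw : ∀ x, star (e x x) * e x x ≠ 0 := fun x hx =>
    hne x ((CStarRing.star_mul_self_eq_zero_iff _).1 hx)
  refine ⟨fun x => (‖star (e x x) * e x x‖⁻¹ : ℝ) • (star (e x x) * e x x), fun x => ⟨?_, ?_, ?_⟩,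
    fun x y hxy => ?_⟩
  · refine ⟨(√(‖star (e x x) * e x x‖⁻¹) : ℝ) • e x x, ?_⟩
    rw [star_smul, star_trivial, smul_mul_smul_comm, Real.mul_self_sqrt (by positivity)]
  · rw [norm_smul, norm_inv, norm_norm, inv_mul_cancel₀ (norm_ne_zero_iff.2 (hw x))]
  · exact smul_ne_zero (inv_ne_zero (norm_ne_zero_iff.2 (hw x))) (hw x)
  · have h1 : e x x * e y y = 0 := by rw [hRW.mul_e, if_neg hxy]
    have h2 : star (e x x) * e x x * (star (e y y) * e y y) = 0 := by
      rw [hRW.star_e, hRW.star_e]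
      calc e x x * e x x * (e y y * e y y) = e x x * (e x x * e y y) * e y y := by noncomm_ring
        _ = 0 := by rw [h1, mul_zero, zero_mul]
    rw [smul_mul_smul_comm, h2, smul_zero]

end Pool.Agent.Lib.EJS
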