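import Mathlib

/-!
# Part SI: square roots

PROOFS.
`mul_sqrt_of`: `(y - 1) X (y - 1)* = 0`, i.e. `((y-1) √X) ((y-1) √X)* = 0`, so `(y-1) √X = 0`
(`CStarRing.mul_star_self_eq_zero_iff`, `√X √X = X`: `CFC.sqrt_mul_sqrt_self`).
`sqrt_mul_sqrt_eq_zero`: `(X y √X') (X y √X')* = X y X' y* X = 0`, so `X y √X' = 0`; then
`(√X y √X')* (√X y √X') = √X' y* X y √X' = 0`.
`sqrt_norm`: `‖√X R‖` etc.: `star (√X * R) * (√X * R) = star R * X * R`.
-/

open scoped ComplexOrder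

namespace Pool.Agent.Lib.EJS

variable {E : Type*} [CStarAlgebra E] [PartialOrder E] [StarOrderedRing E]

theorem mul_sqrt_of {X y : E} (hX : 0 ≤ X) (h : y * X = X) : y * CFC.sqrt X = CFC.sqrt X := by
  have hs : CFC.sqrt X * CFC.sqrt X = X := CFC.sqrt_mul_sqrt_self X hX
  have hsa : star (CFC.sqrt X) = CFC.sqrt X := (CFC.sqrt_nonneg X).isSelfAdjoint.star_eq
  have h1 : (y * CFC.sqrt X - CFC.sqrt X) * star (y * CFC.sqrt X - CFC.sqrt X) = 0 := by
    rw [star_sub, star_mul, hsa]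
    have h2 : (y * CFC.sqrt X - CFC.sqrt X) * (CFC.sqrt X * star y - CFC.sqrt X) =
        y * (CFC.sqrt X * CFC.sqrt X) * star y - y * (CFC.sqrt X * CFC.sqrt X) -
        (CFC.sqrt X * CFC.sqrt X) * star y + CFC.sqrt X * CFC.sqrt X := by noncomm_ring
    rw [h2, hs, h]
    noncomm_ring
  have h3 := CStarRing.mul_star_self_eq_zero_iff _ |>.1 h1
  exact sub_eq_zero.1 h3

theorem sqrt_mul_sqrt_eq_zero {X X' y : E} (hX : 0 ≤ X) (hX' : 0 ≤ X') (h : X * y * X' = 0) :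
    CFC.sqrt X * y * CFC.sqrt X' = 0 := by
  have hs : CFC.sqrt X * CFC.sqrt X = X := CFC.sqrt_mul_sqrt_self X hX
  have ht : CFC.sqrt X' * CFC.sqrt X' = X' := CFC.sqrt_mul_sqrt_self X' hX'
  have hsa : star (CFC.sqrt X) = CFC.sqrt X := (CFC.sqrt_nonneg X).isSelfAdjoint.star_eq
  have hta : star (CFC.sqrt X') = CFC.sqrt X' := (CFC.sqrt_nonneg X').isSelfAdjoint.star_eq
  have h1 : (X * y * CFC.sqrt X') * star (X * y * CFC.sqrt X') = 0 := by
    rw [star_mul, hta]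
    have h2 : X * y * CFC.sqrt X' * (CFC.sqrt X' * star (X * y)) =
        X * y * (CFC.sqrt X' * CFC.sqrt X') * star (X * y) := by
      simp only [mul_assoc]
    rw [h2, ht, h, zero_mul]
  have h3 : X * y * CFC.sqrt X' = 0 := CStarRing.mul_star_self_eq_zero_iff _ |>.1 h1
  have h4 : star (CFC.sqrt X * y * CFC.sqrt X') * (CFC.sqrt X * y * CFC.sqrt X') = 0 := by
    have h5 : star (CFC.sqrt X * y * CFC.sqrt X') * (CFC.sqrt X * y * CFC.sqrt X') =
        CFC.sqrt X' * star y * ((CFC.sqrt X * CFC.sqrt X) * y * CFC.sqrt X') := by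
      rw [star_mul, star_mul, hsa, hta]
      simp only [mul_assoc]
    rw [h5, hs, h3, mul_zero]
  exact CStarRing.star_mul_self_eq_zero_iff _ |>.1 h4

theorem star_sqrt_mul {X R : E} (hX : 0 ≤ X) :
    star (CFC.sqrt X * R) * (CFC.sqrt X * R) = star R * X * R := by
  have hs : CFC.sqrt X * CFC.sqrt X = X := CFC.sqrt_mul_sqrt_self X hX
  have hsa : star (CFC.sqrt X) = CFC.sqrt X := (CFC.sqrt_nonneg X).isSelfAdjoint.star_eq
  have h5 : star (CFC.sqrt X * R) * (CFC.sqrt X * R) =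
      star R * (CFC.sqrt X * CFC.sqrt X) * R := by
    rw [star_mul, hsa]
    simp only [mul_assoc]
  rw [h5, hs]

end Pool.Agent.Lib.EJS
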