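import Pool.Agent.Lib.EJS.DimRW
import Pool.Agent.Lib.EJS.DimHom

/-!
# The Jiang-Su algebra contains Rordam-Winter pairs of every size
-/

open scoped ComplexOrder
open Filter Topology

namespace Pool.Agent.Lib.EJS

universe u

theorem IsJiangSu.hasRW {Z : Type u} [CStarAlgebra Z] (hZ : IsJiangSu Z) (n : ℕ) : HasRW n Z := by
  obtain ⟨p, q, κ, -, hp, hq, -, -, -⟩ := hZ.limit
  obtain ⟨N, hN⟩ := exists_dimDrop_hom (n + 1) (n + 2) (Nat.succ_pos _) (Nat.succ_pos _)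
    ((Nat.coprime_self_add_right (m := n + 1) (n := 1)).2 (Nat.coprime_one_right _))
  obtain ⟨m, hm1, hm2⟩ := ((hp.eventually_ge_atTop N).and (hq.eventually_ge_atTop N)).exists
  obtain ⟨φ⟩ := hN _ _ hm1 hm2
  exact (hasRW_dimDrop n).map ((κ m).comp φ)

end Pool.Agent.Lib.EJS
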