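import Pool.Agent.Lib.EJS.SIFun
import Pool.Agent.Lib.EJS.SIOrthZ
import Pool.Agent.Lib.EJS.SISqrt
import Pool.Agent.Lib.EJS.Simp
import Pool.Agent.Lib.EJS.ZFacts

/-!
# Part SI: the elements `r_x` (second part of SI7)

PROOF.  (All imports are black boxes.)  `Z` is simple, so nontrivial.  `exists_orth_elems` (`IsJiangSu.hasRW`) with `N = card X` gives `z : X → Z` (reindex), `z x z y = 0` for `x ≠ y`,
`0 ≤ z x ≤ 1`, `z x ≠ 0`.  `hH` for the finite set `S = {e, f, f', v j and their stars}` gives `θ : Z →⋆ₐ Seq A` commuting with the constants and `S`.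
`X_x := const (g(q x)) * f * θ (z x)` where `g = gf`: three commuting positive contractions (`f` is central, `θ` commutes with `f` and constants), so
`0 ≤ X_x ≤ 1` (products of commuting positive contractions; for `≤ 1`: `X_x ≤ f θ(z) ≤ θ(z) ≤ 1` or by the norm and `CStarAlgebra.norm_le_one_iff_of_nonneg`).
Fullness: `g(q x) ≠ 0` (`gf_ne_zero`), so `∑_a star (y a) * g(q x) * y a = 1` in `A` and `∑_b star (b') * z x * b' = 1` in `Z` (`exists_sum_eq_one'`).  For the family
`Y_(a,j,b) := const (y a) * v j * θ (b')`: `∑ star Y * X_x * Y = ∑_{a,j,b} θ(b')* v_j* const(y_a* g y_a) f θ(z) v_j θ(b')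
= ∑_j v_j* f v_j * θ(∑_b b'* z b') = ∑_j v_j* f v_j` (constants commute with `f`, `v_j`, `θ`; `θ` commutes with `f`, `v_j`).  So `h.full`, `h.full'` give the
hypotheses of `hC` for `X_x`, `e` (reindex the family by `Fin m`), and there is `R_x` with `‖R_x* X_x R_x - e‖ ≤ δ`.  `r x := √(X_x) * R_x`; `star (r x) * r x = R_x* X_x R_x`
(`star_sqrt_mul`).  `x ≠ y`: `X_x const(a) X_y = 0` (it contains `θ(z x) θ(z y) = 0`, everything else commutes with `θ`), so `√X_x const(a) √X_y = 0`
(`sqrt_mul_sqrt_eq_zero`).  `f' X_x = X_x` (`f' f = f`, `f'` commutes with constants), so `f' √X_x = √X_x` (`mul_sqrt_of`).  `const(u(q x)) X_x = X_x` (`uf_mul_gf`), so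
`const(u(q x)) √X_x = √X_x`.
-/

open scoped ComplexOrder
open Filter Topology Pool.Agent.Lib.EqGamma

namespace Pool.Agent.Lib.EJS

universe u v

namespace SIBuildAux

theorem term {R : Type*} [Ring R] [StarRing R] {p g f v t z : R} (h1 : Commute z p)
    (h2 : Commute f p) (h3 : Commute z v) (h4 : Commute (star v) (star p * g * p))
    (h5 : Commute (star t) (star p * g * p)) (h6 : Commute (star t) (star v))
    (h7 : Commute (star t) f) (h8 : Commute (star t) v) :
    star (p * v * t) * (g * f * z) * (p * v * t) =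
      (star p * g * p) * (star v * f * v) * (star t * z * t) := by
  have e1 : star (p * v * t) * (g * f * z) * (p * v * t) =
      star t * (star v * (star p * (g * (f * (z * (p * (v * t))))))) := by
    simp only [star_mul, mul_assoc]
  rw [e1, h1.left_comm, h2.left_comm, h3.left_comm]
  have e2 : ∀ r : R, star p * (g * (p * r)) = (star p * g * p) * r := fun r => by
    simp only [mul_assoc]
  rw [e2, h4.left_comm, h5.left_comm, h6.left_comm, h7.left_comm, h8.left_comm]
  simp only [mul_assoc]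

theorem sum_term {R T1 T2 T3 : Type*} [Ring R] [Fintype T1] [Fintype T2] [Fintype T3]
    (C : T1 → R) (V : T2 → R) (W : T3 → R) (hC : ∑ a, C a = 1) (hW : ∑ b, W b = 1) :
    ∑ t : T1 × T2 × T3, C t.1 * V t.2.1 * W t.2.2 = ∑ j, V j := by
  simp only [Fintype.sum_prod_type, ← Finset.mul_sum, ← Finset.sum_mul, hC, hW, mul_one, one_mul]

variable {A : Type u} [CStarAlgebra A]

theorem central_const {x : Seq A} (hx : Seq.Central x) (a : A) : Commute x (Seq.const a) :=
  (hx a).symm

theorem const_nonneg [PartialOrder A] [StarOrderedRing A] {a : A} (ha : 0 ≤ a) :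
    0 ≤ Seq.const a := by
  obtain ⟨c, rfl⟩ := CStarAlgebra.nonneg_iff_eq_star_mul_self.1 ha
  rw [map_mul, map_star]
  exact star_mul_self_nonneg _

end SIBuildAux

open SIBuildAux in
theorem build {A Z : Type u} [CStarAlgebra A] [PartialOrder A] [StarOrderedRing A]
    [IsSimpleRing A] [CStarAlgebra Z] (hZ : IsJiangSu Z) (hH : SeqHoms Z A) (hC : Compar A)
    {G : Type v} [Group G] {α : G →* (A ≃⋆ₐ[ℂ] A)} {e f f' : Seq A} {w : ℕ} {v : Fin w → Seq A}
    (h : SIData α e f f' v) {X : Type} [Fintype X] [DecidableEq X] (q : X → A)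
    (hq : ∀ x, 0 ≤ q x ∧ ‖q x‖ ≤ 1 ∧ 1 / 2 < ‖q x‖) {δ : ℝ} (hδ : 0 < δ) :
    ∃ r : X → Seq A, (∀ x, ‖star (r x) * r x - e‖ ≤ δ) ∧
      (∀ x y, x ≠ y → ∀ a, star (r x) * Seq.const a * r y = 0) ∧ (∀ x, f' * r x = r x) ∧
      ∀ x, Seq.const (cfc uf (q x)) * r x = r x := by
  classical
  have hZs : IsSimpleRing Z := hZ.simple
  let _ := CStarAlgebra.spectralOrder Z
  have _ := CStarAlgebra.spectralOrderedRing Z
  obtain ⟨z0, hz0, hz0'⟩ := exists_orth_elems (Z := Z) hZ.hasRW (Fintype.card X)
  set z : X → Z := fun x => z0 (Fintype.equivFin X x) with hz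
  have hz1 : ∀ x, 0 ≤ z x := fun x => by
    obtain ⟨c, hc⟩ := (hz0 (Fintype.equivFin X x)).1
    rw [hz]
    simp only
    rw [hc]
    exact star_mul_self_nonneg _
  have hz2 : ∀ x, ‖z x‖ ≤ 1 := fun x => (hz0 _).2.1
  have hz3 : ∀ x, z x ≠ 0 := fun x => (hz0 _).2.2
  have hz4 : ∀ x y, x ≠ y → z x * z y = 0 := fun x y hxy =>
    hz0' _ _ (fun h => hxy ((Fintype.equivFin X).injective h))
  obtain ⟨θ, hθc, hθS⟩ := hH ({f, f'} ∪ Set.range v)
    (((Set.toFinite {f, f'}).countable).union (Set.countable_range v))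
  have hθf : ∀ b, Commute f (θ b) := fun b => hθS b f (Or.inl (Or.inl rfl))
  have hθv : ∀ j b, Commute (v j) (θ b) := fun j b => hθS b (v j) (Or.inr ⟨j, rfl⟩)
  have hfc : Seq.Central f := h.f_mem.1
  have hf'c : Seq.Central f' := h.f'_mem.1
  have hvc : ∀ j, Seq.Central (v j) := fun j => (h.v_mem j).1
  have hvc' : ∀ j, Seq.Central (star (v j)) := fun j => (star_mem (h.v_mem j)).1
  have hθv' : ∀ j b, Commute (star (v j)) (θ b) := fun j b => by
    have h1 := (hθv j (star b)).star_star
    rwa [← map_star, star_star] at h1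
  set g : X → A := fun x => cfc gf (q x) with hg
  have hg0 : ∀ x, 0 ≤ g x := fun x => gf_nonneg _
  have hg1 : ∀ x, ‖g x‖ ≤ 1 := fun x => (gf_le_one (hq x).1 (hq x).2.1).2
  have hgne : ∀ x, g x ≠ 0 := fun x => gf_ne_zero (hq x).1 (hq x).2.2
  set Y : X → Seq A := fun x => Seq.const (g x) * f * θ (z x) with hY
  have hθ0 : ∀ x, 0 ≤ θ (z x) := fun x => by
    obtain ⟨c, hc⟩ := CStarAlgebra.nonneg_iff_eq_star_mul_self.1 (hz1 x)
    rw [hc, map_mul, map_star]
    exact star_mul_self_nonneg _
  have hY0 : ∀ x, 0 ≤ Y x := fun x => by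
    refine Commute.mul_nonneg (Commute.mul_nonneg (const_nonneg (hg0 x)) h.f_nonneg (hfc _))
      (hθ0 x) ?_
    exact (hθc _ _).mul_left (hθf _)
  have hfn : ‖f‖ ≤ 1 := (CStarAlgebra.norm_le_one_iff_of_nonneg f h.f_nonneg).2 h.f_le
  have hY1 : ∀ x, Y x ≤ 1 := fun x => by
    refine (CStarAlgebra.norm_le_one_iff_of_nonneg _ (hY0 x)).1 ?_
    have n1 : ‖Seq.const (g x)‖ ≤ 1 := by rw [Seq.norm_const]; exact hg1 x
    have n2 : ‖θ (z x)‖ ≤ 1 := (shom_norm_le θ (z x)).trans (hz2 x)
    calc ‖Y x‖ ≤ ‖Seq.const (g x) * f‖ * ‖θ (z x)‖ := norm_mul_le _ _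
      _ ≤ (‖Seq.const (g x)‖ * ‖f‖) * ‖θ (z x)‖ := by
          gcongr
          exact norm_mul_le _ _
      _ ≤ (1 * 1) * 1 := by gcongr
      _ = 1 := by norm_num
  have hR : ∀ x, ∃ R : Seq A, ‖star R * Y x * R - e‖ ≤ δ := by
    intro x
    obtain ⟨m1, y, hy⟩ := exists_sum_eq_one' (g x) (hg0 x) (hgne x)
    obtain ⟨m2, b, hb⟩ := exists_sum_eq_one' (z x) (hz1 x) (hz3 x)
    set yy : Fin m1 × Fin w × Fin m2 → Seq A := fun t =>
      Seq.const (y t.1) * v t.2.1 * θ (b t.2.2) with hyy
    have hterm : ∀ t, star (yy t) * Y x * yy t =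
        Seq.const (star (y t.1) * g x * y t.1) * (star (v t.2.1) * f * v t.2.1) *
          θ (star (b t.2.2) * z x * b t.2.2) := by
      intro t
      have hst : star (θ (b t.2.2)) = θ (star (b t.2.2)) := (map_star θ _).symm
      have hpg : star (Seq.const (y t.1)) * Seq.const (g x) * Seq.const (y t.1) =
          Seq.const (star (y t.1) * g x * y t.1) := by
        rw [map_mul, map_mul, map_star]
      have h0 := term (p := Seq.const (y t.1)) (g := Seq.const (g x)) (f := f) (v := v t.2.1)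
        (t := θ (b t.2.2)) (z := θ (z x)) (hθc _ _).symm (central_const hfc _)
        (hθv _ _).symm (by rw [hpg]; exact central_const (hvc' _) _)
        (by rw [hpg, hst]; exact (hθc _ _).symm) (by rw [hst]; exact (hθv' _ _).symm)
        (by rw [hst]; exact (hθf _).symm) (by rw [hst]; exact (hθv _ _).symm)
      rw [hpg, hst] at h0
      rw [hyy, hY]
      simp only
      rw [h0, map_mul θ, map_mul θ]
    have hsum : ∑ t, star (yy t) * Y x * yy t = ∑ j, star (v j) * f * v j := by
      simp_rw [hterm]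
      refine sum_term (fun a => Seq.const (star (y a) * g x * y a))
        (fun j => star (v j) * f * v j) (fun c => θ (star (b c) * z x * b c)) ?_ ?_
      · rw [← map_sum, hy, map_one]
      · rw [← map_sum, hb, map_one]
    set E := Fintype.equivFin (Fin m1 × Fin w × Fin m2) with hE
    have hsum2 : ∑ i, star (yy (E.symm i)) * Y x * yy (E.symm i) = ∑ j, star (v j) * f * v j := by
      rw [← hsum]
      exact Equiv.sum_comp E.symm (fun t => star (yy t) * Y x * yy t)
    exact hC (Y x) e (hY0 x) (hY1 x) h.e_nonneg h.e_le h.e_J _ (fun i => yy (E.symm i))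
      (by rw [hsum2]; exact h.full) (by rw [hsum2]; exact h.full') δ hδ
  choose R hR using hR
  refine ⟨fun x => CFC.sqrt (Y x) * R x, fun x => ?_, fun x y hxy a => ?_, fun x => ?_, fun x => ?_⟩
  · rw [star_sqrt_mul (hY0 x)]
    exact hR x
  · have h1 : Y x * Seq.const a * Y y = 0 := by
      have hc : Commute (θ (z x)) (Seq.const a * (Seq.const (g y) * f)) :=
        ((hθc (z x) a).symm).mul_right (((hθc (z x) (g y)).symm).mul_right (hθf (z x)).symm)
      have h2 : θ (z x) * θ (z y) = 0 := by rw [← map_mul, hz4 x y hxy, map_zero]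
      calc Y x * Seq.const a * Y y
          = Seq.const (g x) * f * (θ (z x) * (Seq.const a * (Seq.const (g y) * f))) * θ (z y) := by
            rw [hY]
            simp only [mul_assoc]
        _ = Seq.const (g x) * f * ((Seq.const a * (Seq.const (g y) * f)) * θ (z x)) * θ (z y) := by
            rw [hc.eq]
        _ = Seq.const (g x) * f * (Seq.const a * (Seq.const (g y) * f)) * (θ (z x) * θ (z y)) := by
            simp only [mul_assoc]
        _ = 0 := by rw [h2, mul_zero]
    have h3 := sqrt_mul_sqrt_eq_zero (hY0 x) (hY0 y) h1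
    have hsa : star (CFC.sqrt (Y x)) = CFC.sqrt (Y x) := (CFC.sqrt_nonneg _).isSelfAdjoint.star_eq
    calc star (CFC.sqrt (Y x) * R x) * Seq.const a * (CFC.sqrt (Y y) * R y)
        = star (R x) * (CFC.sqrt (Y x) * Seq.const a * CFC.sqrt (Y y)) * R y := by
          rw [star_mul, hsa]
          simp only [mul_assoc]
      _ = 0 := by rw [h3, mul_zero, zero_mul]
  · have h1 : f' * Y x = Y x := by
      calc f' * Y x = (f' * Seq.const (g x)) * f * θ (z x) := by
            rw [hY]
            simp only [mul_assoc]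
        _ = (Seq.const (g x) * f') * f * θ (z x) := by rw [(hf'c (g x)).eq]
        _ = Seq.const (g x) * (f' * f) * θ (z x) := by simp only [mul_assoc]
        _ = Y x := by rw [h.f'_f]
    have h2 := mul_sqrt_of (hY0 x) h1
    simp only
    rw [← mul_assoc, h2]
  · have h1 : Seq.const (cfc uf (q x)) * Y x = Y x := by
      calc Seq.const (cfc uf (q x)) * Y x =
          (Seq.const (cfc uf (q x)) * Seq.const (g x)) * f * θ (z x) := by
            rw [hY]
            simp only [mul_assoc]
        _ = Seq.const (g x) * f * θ (z x) := by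
            rw [← map_mul, uf_mul_gf (hq x).1]
    have h2 := mul_sqrt_of (hY0 x) h1
    simp only
    rw [← mul_assoc, h2]

end Pool.Agent.Lib.EJS
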