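import Pool.Agent.Lib.EJS.SIOut

/-!
# Part SI: central sequences moved by a non-trivial element (SI4, first part)

PROOF.  The central sequences form a closed star subalgebra `S` of `Seq A` (cf. `fix` in Common.lean), invariant under
`Seq.act α g` (`Seq.Central.act`).  Let `β : S →⋆ₐ[ℂ] S` be the restriction of `Seq.act α g`.  As `g ∉ Triv α` there is `x ∈ S` with
`β x ≠ x`.  Apply `exists_mul_lt` (the norm of `S` is the restriction of the norm of `Seq A`).
-/

open scoped ComplexOrder

namespace Pool.Agent.Lib.EJS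

universe u v

/-- the algebra of central sequences -/
noncomputable def cenAlg (A : Type u) [CStarAlgebra A] : StarSubalgebra ℂ (Seq A) where
  carrier := {x | Seq.Central x}
  mul_mem' := fun {x y} hx hy a => (hx a).mul_right (hy a)
  add_mem' := fun {x y} hx hy a => (hx a).add_right (hy a)
  algebraMap_mem' r := fun a => (Algebra.commutes r (Seq.const a)).symm
  star_mem' := by
    intro x hx a
    have h1 := (hx (star a)).star_star
    rw [map_star, star_star] at h1
    exact h1

theorem mem_cenAlg {A : Type u} [CStarAlgebra A] {x : Seq A} :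
    x ∈ cenAlg A ↔ Seq.Central x := Iff.rfl

instance {A : Type u} [CStarAlgebra A] : IsClosed (cenAlg A : Set (Seq A)) := by
  have : (cenAlg A : Set (Seq A)) = ⋂ a : A, {x | Seq.const a * x = x * Seq.const a} := by
    ext x
    simp only [Set.mem_iInter]
    rfl
  rw [this]
  exact isClosed_iInter fun a => isClosed_eq (by fun_prop) (by fun_prop)

theorem exists_central_lt {A : Type u} [CStarAlgebra A] {G : Type v} [Group G]
    (α : G →* (A ≃⋆ₐ[ℂ] A)) {g : G} (hg : g ∉ Triv α) :
    ∃ q c : Seq A, Seq.Central c ∧ q = star c * c ∧ ‖q‖ = 1 ∧ ‖q * Seq.act α g q‖ < 1 := by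
  rw [mem_Triv] at hg
  push Not at hg
  obtain ⟨x, hx, hxg⟩ := hg
  let β : cenAlg A →⋆ₐ[ℂ] cenAlg A :=
    ((Seq.act α g).comp (cenAlg A).subtype).codRestrict (cenAlg A)
      (fun y => Seq.Central.act α y.2 g)
  have hβ : ∀ y : cenAlg A, ((β y : cenAlg A) : Seq A) = Seq.act α g (y : Seq A) := fun _ => rfl
  obtain ⟨q, c, hq, hq1, hq2⟩ := exists_mul_lt β (⟨x, hx⟩ : cenAlg A) (by
    intro h
    exact hxg (congrArg Subtype.val h))
  refine ⟨q, c, c.2, ?_, hq1, ?_⟩
  · rw [hq]
    rfl
  · exact hq2

end Pool.Agent.Lib.EJS
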