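import Mathlib

/-!
# Positive matrices over a C-star algebra

PROOF.  `b := CStarMatrix.ofMatrix m` is a self-adjoint element of the C-star algebra
`CStarMatrix ι ι A`.  `b = b⁺ - b⁻`, `b⁺ * b⁻ = 0` (`CStarAlgebra`/`CFC` positive and negative parts), so
`b⁻ * b * b⁻ = - b⁻ ^ 3`.  For `j : ι` and `f i = b⁻ i j` (`star (b⁻ i j) = b⁻ j i`):
`(b⁻ b b⁻) j j = ∑_ik star (f i) * m i k * f k ≥ 0`.  On the other hand `b⁻ ^ 3 ≥ 0` is `star s * s`, so
`(b⁻ ^ 3) j j = ∑_k star (s k j) * s k j ≥ 0`.  Hence `∑_k star (s k j) * s k j = 0`, so `s k j = 0` for all `k, j`, `s = 0`,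
`b⁻ ^ 3 = 0`, `b⁻ = 0` (self-adjoint), `b = b⁺ ≥ 0`, `b = star y * y`.
(`let _ := CStarAlgebra.spectralOrder (CStarMatrix ι ι A)` for the order.)
-/

open scoped ComplexOrder

namespace Pool.Agent.Lib.EJS.TS

variable {A : Type*} [CStarAlgebra A] [PartialOrder A] [StarOrderedRing A]

/-- the decomposition into positive and negative part -/
theorem posMat_dec {M : Type*} [CStarAlgebra M] [PartialOrder M] [StarOrderedRing M] (b : M)
    (hb : IsSelfAdjoint b) : ∃ p c : M, 0 ≤ p ∧ 0 ≤ c ∧ p * c = 0 ∧ p - c = b :=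
  ⟨b⁺, b⁻, CFC.posPart_nonneg b, CFC.negPart_nonneg b, CFC.posPart_mul_negPart b,
    CFC.posPart_sub_negPart b hb⟩

/-- squares in a C-star algebra -/
theorem posMat_sq {M : Type*} [CStarAlgebra M] [PartialOrder M] [StarOrderedRing M] {c : M}
    (hc : 0 ≤ c) : ∃ s : M, c * c * c = star s * s := by
  refine CStarAlgebra.nonneg_iff_eq_star_mul_self.1 ?_
  have := star_left_conjugate_nonneg hc c
  rwa [(IsSelfAdjoint.of_nonneg hc).star_eq] at this

/-- nonnegative elements are of the form `star y * y` -/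
theorem posMat_pos {M : Type*} [CStarAlgebra M] [PartialOrder M] [StarOrderedRing M] {c : M}
    (hc : 0 ≤ c) : ∃ s : M, c = star s * s := CStarAlgebra.nonneg_iff_eq_star_mul_self.1 hc

theorem posMat {ι : Type*} [Fintype ι] [DecidableEq ι] (m : ι → ι → A)
    (hs : ∀ i j, star (m i j) = m j i)
    (h : ∀ f : ι → A, 0 ≤ ∑ i, ∑ j, star (f i) * m i j * f j) :
    ∃ y : ι → ι → A, ∀ i j, m i j = ∑ r, star (y r i) * y r j := by
  let b : CStarMatrix ι ι A := CStarMatrix.ofMatrix m
  have hb : IsSelfAdjoint b := by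
    refine CStarMatrix.ext fun i j => ?_
    rw [CStarMatrix.star_apply]
    exact hs j i
  have hbm : ∀ i j, b i j = m i j := fun i j => rfl
  obtain ⟨p, c, hp0, hc0, hpc, hbd⟩ := posMat_dec b hb
  have hcs : star c = c := (IsSelfAdjoint.of_nonneg hc0).star_eq
  have hcbc : c * b * c = -(c * c * c) := by
    calc c * b * c = c * (b * c) := mul_assoc _ _ _
      _ = c * ((p - c) * c) := by rw [hbd]
      _ = -(c * c * c) := by rw [sub_mul, hpc, zero_sub, mul_neg, mul_assoc]
  obtain ⟨s, hss⟩ := posMat_sq hc0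
  have hdiag : ∀ j, ∑ k, star (s k j) * s k j = (c * c * c) j j := by
    intro j
    rw [hss, CStarMatrix.mul_apply]
    rfl
  have hneg : ∀ j, 0 ≤ -((c * c * c) j j) := by
    intro j
    have h1 : -((c * c * c) j j) = (c * b * c) j j := by rw [hcbc]; rfl
    rw [h1, mul_assoc, CStarMatrix.mul_apply]
    have h2 : ∑ i, c j i * (b * c) i j = ∑ i, ∑ k, star (c i j) * m i k * c k j := by
      refine Finset.sum_congr rfl fun i _ => ?_
      rw [CStarMatrix.mul_apply, Finset.mul_sum]
      refine Finset.sum_congr rfl fun k _ => ?_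
      have h3 : c j i = star (c i j) := by
        conv_lhs => rw [← hcs]
        rw [CStarMatrix.star_apply]
      rw [h3, hbm, mul_assoc]
    rw [h2]
    exact h fun i => c i j
  have hs0 : s = 0 := by
    refine CStarMatrix.ext fun k j => ?_
    have h1 : ∀ k ∈ Finset.univ, 0 ≤ star (s k j) * s k j := fun k _ => star_mul_self_nonneg _
    have h2 : ∑ k, star (s k j) * s k j = 0 := by
      refine le_antisymm ?_ (Finset.sum_nonneg h1)
      rw [hdiag]
      exact neg_nonneg.1 (hneg j)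
    have h3 := (Finset.sum_eq_zero_iff_of_nonneg h1).1 h2 k (Finset.mem_univ k)
    exact (CStarRing.star_mul_self_eq_zero_iff _).1 h3
  have hc30 : c * c * c = 0 := by rw [hss, hs0, mul_zero]
  have hc2 : c * c = 0 := by
    refine (CStarRing.star_mul_self_eq_zero_iff _).1 ?_
    rw [star_mul, hcs, ← mul_assoc, hc30, zero_mul]
  have hcz : c = 0 := by
    refine (CStarRing.star_mul_self_eq_zero_iff _).1 ?_
    rw [hcs, hc2]
  have hbp : 0 ≤ b := by
    rw [← hbd, hcz, sub_zero]
    exact hp0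
  obtain ⟨y, hy⟩ := posMat_pos hbp
  refine ⟨fun r i => y r i, fun i j => ?_⟩
  rw [← hbm, hy, CStarMatrix.mul_apply]
  rfl

end Pool.Agent.Lib.EJS.TS
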