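import Pool.Agent.Lib.EJS.TSKer
import Pool.Agent.Lib.EJS.TSPos

/-!
# Part SI: completely positive maps on matrices (Choi)

PROOF.  (`TS.posMat` is a black box; use `let _ := CStarAlgebra.spectralOrder A`.)  Let `E i j : Mat k` be the matrix
units (`CStarMatrix.ofMatrix (Matrix.single i j 1)`), `E i j = star (E z i) * E z j` for a fixed index `z : Fin k` (if `k = 0`,
`Mat 0` is a subsingleton and everything is `0`).  Complete positivity with `a i = E z i`, `b i = f i` gives
`∑_ij star (f i) * ψ (E i j) * f j = star c * c ≥ 0` for all `f`.  `star (ψ (E i j)) = ψ (E j i)`: `ψ` is star preserving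
(`TS.cp_star`).
`TS.posMat` gives `y` with `ψ (E i j) = ∑_l star (y l i) * y l j`; take `c = y`.  `star (c l j) * c l j ≤ ∑_l star (c l j) * c l j = ψ (E j j)`,
`‖E j j‖ ≤ 1`, so `‖c l j‖ ≤ 1`.  Finally `m = ∑_ij m i j • E i j` and linearity.
-/

open scoped ComplexOrder

namespace Pool.Agent.Lib.EJS

namespace ChoiAux

variable {k : ℕ}

/-- matrix units -/
def mu (i j : Fin k) : Mat k := CStarMatrix.ofMatrix (Matrix.single i j (1 : ℂ))

theorem mu_apply (i j a b : Fin k) : mu i j a b = if i = a ∧ j = b then 1 else 0 := by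
  show Matrix.single i j (1 : ℂ) a b = _
  rw [Matrix.single_apply]

theorem mu_star (i j : Fin k) : star (mu i j) = mu j i := by
  refine CStarMatrix.ext fun a b => ?_
  rw [CStarMatrix.star_apply, mu_apply, mu_apply]
  by_cases h : i = b ∧ j = a
  · rw [if_pos h, if_pos ⟨h.2, h.1⟩, star_one]
  · rw [if_neg h, if_neg fun h' => h ⟨h'.2, h'.1⟩, star_zero]

theorem mu_mul (i j l : Fin k) : mu i j * mu j l = mu i l := by
  refine CStarMatrix.ext fun a b => ?_
  rw [CStarMatrix.mul_apply]
  simp only [mu_apply]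
  rw [Finset.sum_eq_single j]
  · by_cases h1 : i = a <;> by_cases h2 : l = b <;> simp [h1, h2]
  · intro c _ hc
    rw [if_neg fun h => hc h.2.symm, zero_mul]
  · intro h
    exact absurd (Finset.mem_univ j) h

theorem mu_sum (m : Mat k) : m = ∑ i, ∑ j, m i j • mu i j := by
  refine CStarMatrix.ext fun a b => ?_
  have h1 : ∀ (s : Finset (Fin k)) (f : Fin k → Mat k), (∑ i ∈ s, f i) a b = ∑ i ∈ s, f i a b := by
    intro s f
    induction s using Finset.induction_on with
    | empty => rfl
    | insert i s hi ih => rw [Finset.sum_insert hi, Finset.sum_insert hi, CStarMatrix.add_apply, ih]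
  rw [h1]
  simp only [h1, CStarMatrix.smul_apply, mu_apply, smul_eq_mul]
  rw [Finset.sum_eq_single a]
  · rw [Finset.sum_eq_single b]
    · simp
    · intro c _ hc
      rw [if_neg fun h => hc h.2, mul_zero]
    · intro h
      exact absurd (Finset.mem_univ b) h
  · intro c _ hc
    refine Finset.sum_eq_zero fun e _ => ?_
    rw [if_neg fun h => hc h.1, mul_zero]
  · intro h
    exact absurd (Finset.mem_univ a) h

theorem norm_mu (i : Fin k) : ‖mu i i‖ ≤ 1 := by
  have h1 : ‖star (mu i i) * mu i i‖ = ‖mu i i‖ * ‖mu i i‖ := CStarRing.norm_star_mul_self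
  rw [mu_star, mu_mul] at h1
  by_contra h
  rw [not_le] at h
  nlinarith

end ChoiAux

open ChoiAux

theorem choi {A : Type*} [CStarAlgebra A] {k : ℕ} {ψ : Mat k →ₗ[ℂ] A} (hψ : CP ψ)
    (h1 : ∀ m, ‖ψ m‖ ≤ ‖m‖) :
    ∃ c : Fin k → Fin k → A, (∀ l j, ‖c l j‖ ≤ 1) ∧
      ∀ m : Mat k, ψ m = ∑ i, ∑ j, ∑ l, m i j • (star (c l i) * c l j) := by
  letI := CStarAlgebra.spectralOrder A
  haveI := CStarAlgebra.spectralOrderedRing A
  rcases Nat.eq_zero_or_pos k with hk | hk
  · subst hk
    refine ⟨fun l => l.elim0, fun l => l.elim0, fun m => ?_⟩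
    have h2 : m = 0 := CStarMatrix.ext fun i => i.elim0
    rw [h2, map_zero]
    exact (Finset.sum_eq_zero fun i _ => i.elim0).symm
  let z : Fin k := ⟨0, hk⟩
  obtain ⟨y, hy⟩ := TS.posMat (fun i j : Fin k => ψ (mu i j))
    (fun i j => by
      show star (ψ (mu i j)) = ψ (mu j i)
      rw [← TS.cp_star hψ, mu_star])
    (fun f => by
      obtain ⟨c, hc⟩ := hψ k (fun i => mu z i) f
      have h2 : ∑ i, ∑ j, star (f i) * ψ (mu i j) * f j = star c * c := by
        rw [← hc]
        refine Finset.sum_congr rfl fun i _ => Finset.sum_congr rfl fun j _ => ?_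
        rw [mu_star, mu_mul]
      show 0 ≤ ∑ i, ∑ j, star (f i) * ψ (mu i j) * f j
      rw [h2]
      exact star_mul_self_nonneg c)
  refine ⟨y, fun l j => ?_, fun m => ?_⟩
  · have h2 : star (y l j) * y l j ≤ ψ (mu j j) := by
      have h3 : ψ (mu j j) = ∑ r, star (y r j) * y r j := hy j j
      rw [h3]
      exact Finset.single_le_sum (f := fun r => star (y r j) * y r j)
        (fun r _ => star_mul_self_nonneg _) (Finset.mem_univ l)
    have h4 : ‖star (y l j) * y l j‖ ≤ ‖ψ (mu j j)‖ :=
      CStarAlgebra.norm_le_norm_of_nonneg_of_le (star_mul_self_nonneg _) h2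
    rw [CStarRing.norm_star_mul_self] at h4
    have h5 : ‖ψ (mu j j)‖ ≤ 1 := (h1 _).trans (norm_mu j)
    by_contra h
    rw [not_le] at h
    nlinarith
  · conv_lhs => rw [mu_sum m]
    rw [map_sum]
    refine Finset.sum_congr rfl fun i _ => ?_
    rw [map_sum]
    refine Finset.sum_congr rfl fun j _ => ?_
    rw [map_smul]
    have h3 : ψ (mu i j) = ∑ r, star (y r i) * y r j := hy i j
    rw [h3, Finset.smul_sum]

end Pool.Agent.Lib.EJS
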