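import Pool.Agent.Lib.EJS.Common

/-!
# Definitions of part SI (equivariant property SI)
-/

open scoped ComplexOrder
open Filter Topology Pool.Agent.Lib.EqGamma

namespace Pool.Agent.Lib.EJS

universe u v

/-! ### The functions -/

/-- `u(t) = min 1 (2t)` -/
noncomputable def uf (t : ℝ) : ℝ := min 1 (2 * t)

/-- `g(t) = max 0 (2t - 1)` -/
noncomputable def gf (t : ℝ) : ℝ := max 0 (2 * t - 1)

/-- `v(t) = 1 / max t (1/2)` -/
noncomputable def vf (t : ℝ) : ℝ := (max t (1 / 2))⁻¹

/-- the bump function `max 0 (t - (c - η)) / η` -/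
noncomputable def bumpf (c η t : ℝ) : ℝ := max 0 (t - (c - η)) / η

theorem continuous_uf : Continuous uf := by unfold uf; fun_prop

theorem continuous_gf : Continuous gf := by unfold gf; fun_prop

theorem continuous_vf : Continuous vf := by
  unfold vf
  refine Continuous.inv₀ (by fun_prop) fun t => ?_
  exact (lt_max_of_lt_right (by norm_num : (0 : ℝ) < 1 / 2)).ne'

theorem continuous_bumpf (c η : ℝ) : Continuous (bumpf c η) := by
  unfold bumpf
  exact (continuous_const.max (continuous_id.sub continuous_const)).div_const _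

/-! ### The normal subgroup of elements acting trivially on central sequences -/

section triv

variable {A : Type u} [CStarAlgebra A] {G : Type v} [Group G] (α : G →* (A ≃⋆ₐ[ℂ] A))

/-- the elements of the group which act trivially on all central sequences -/
def Triv : Subgroup G where
  carrier := {g | ∀ x : Seq A, Seq.Central x → Seq.act α g x = x}
  mul_mem' := by
    intro g h hg hh x hx
    rw [Seq.act_mul, hh x hx, hg x hx]
  one_mem' := fun x _ => Seq.act_one α x
  inv_mem' := by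
    intro g hg x hx
    conv_lhs => rw [← hg x hx]
    rw [Seq.act_inv_act]

theorem mem_Triv {g : G} : g ∈ Triv α ↔ ∀ x : Seq A, Seq.Central x → Seq.act α g x = x := Iff.rfl

instance : (Triv α).Normal where
  conj_mem := by
    intro n hn g x hx
    rw [Seq.act_mul, Seq.act_mul, hn _ (hx.act α g⁻¹), Seq.act_act_inv]

end triv

/-! ### The inputs from the other parts -/

/-- homomorphisms of `Z` into the sequence algebra commuting with a given countable set and the
constants -/
def SeqHoms (Z A : Type u) [CStarAlgebra Z] [CStarAlgebra A] : Prop :=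
  ∀ S : Set (Seq A), S.Countable → ∃ θ : Z →⋆ₐ[ℂ] Seq A,
    (∀ z a, Commute (Seq.const a) (θ z)) ∧ ∀ z, ∀ x ∈ S, Commute x (θ z)

/-- comparison in the sequence algebra -/
def Compar (A : Type u) [CStarAlgebra A] : Prop :=
  ∀ X e : Seq A, 0 ≤ X → X ≤ 1 → 0 ≤ e → e ≤ 1 → e ∈ J A →
    ∀ (m : ℕ) (y : Fin m → Seq A), 1 - ∑ j, star (y j) * X * y j ∈ J A →
      ((∃ τ : A →ₗ[ℂ] ℂ, TracialState τ) ∨ ∑ j, star (y j) * X * y j = 1) →
      ∀ ε : ℝ, 0 < ε → ∃ R : Seq A, ‖star R * X * R - e‖ ≤ ε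

/-- invariant central order zero matrix units which are one modulo the trace kernel ideal -/
def Oz {A : Type u} [CStarAlgebra A] {G : Type v} [Group G] (α : G →* (A ≃⋆ₐ[ℂ] A)) (k : ℕ) :
    Prop :=
  ∃ (e : Fin k → Fin k → Seq A) (h : Seq A), (∀ i j, e i j ∈ fix α) ∧ h ∈ fix α ∧
    (∃ c : Seq A, h = star c * c) ∧ (∃ c : Seq A, 1 - h = star c * c) ∧ 1 - h ∈ J A ∧
    (∀ i j, star (e i j) = e j i) ∧ ∑ i, e i i = h ∧
    ∀ i j l m, e i j * e l m = if j = l then h * e i m else 0

/-- the data for property SI -/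
structure SIData {A : Type u} [CStarAlgebra A] {G : Type v} [Group G]
    (α : G →* (A ≃⋆ₐ[ℂ] A)) (e f f' : Seq A) {w : ℕ} (v : Fin w → Seq A) : Prop where
  e_mem : e ∈ fix α
  f_mem : f ∈ fix α
  f'_mem : f' ∈ fix α
  v_mem : ∀ j, v j ∈ fix α
  e_nonneg : 0 ≤ e
  e_le : e ≤ 1
  f_nonneg : 0 ≤ f
  f_le : f ≤ 1
  f'_f : f' * f = f
  e_J : e ∈ J A
  full : 1 - ∑ j, star (v j) * f * v j ∈ J A
  full' : (∃ τ : A →ₗ[ℂ] ℂ, TracialState τ) ∨ ∑ j, star (v j) * f * v j = 1

/-- `q` is a positive element of norm one under `P` which multiplies `ι (d_i^* a d_j)` by the scalars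
`σ a i j`, up to `ε`, for `a ∈ F` -/
structure IsTab {A D : Type*} [CStarAlgebra A] [CStarAlgebra D] (ι : A →⋆ₐ[ℂ] D) (P : D)
    (F : Finset A) {k : ℕ} (ε : ℝ) (q : D) (d : Fin k → A) (σ : A → Fin k → Fin k → ℂ) : Prop where
  pos : ∃ c, q = star c * c
  norm : ‖q‖ = 1
  under : cfc uf P * q = q
  tab : ∀ a ∈ F, ∀ i j, ‖q * ι (star (d i) * a * d j) * q - σ a i j • (q * q)‖ ≤ ε

end Pool.Agent.Lib.EJS
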