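import Mathlib

/-!
# Part SI: the epsilon test (SI0)

PROOF.  Choose `x K : ℕ → X` for every `K` and thresholds `N K` with `c k n (x K n) ≤ 1/(K+1)` for all `k ≤ K`, `n ≥ N K`;
w.l.o.g. `N` is strictly increasing (replace `N K` by `K + ∑_{j ≤ K} N j`).  For `n ≥ N 0` let `K(n)` be the largest `K ≤ n` with
`N K ≤ n` (`Nat.findGreatest`), `x n := x (K(n)) n` (and `x n := x 0 n` for `n < N 0`).  `K(n) → ∞`, and for `k ≤ K(n)`:
`c k n (x n) ≤ 1/(K(n)+1)`.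
-/

open Filter Topology

namespace Pool.Agent.Lib.EJS

theorem eps_test {X : Type*} (c : ℕ → ℕ → X → ℝ)
    (h : ∀ K : ℕ, ∃ x : ℕ → X, ∀ k ≤ K, ∀ᶠ n in atTop, c k n (x n) ≤ 1 / ((K : ℝ) + 1)) :
    ∃ x : ℕ → X, ∀ k, ∀ ε : ℝ, 0 < ε → ∀ᶠ n in atTop, c k n (x n) ≤ ε := by
  choose x hx using h
  have h1 : ∀ K : ℕ, ∃ N : ℕ, ∀ n, N ≤ n → ∀ k ≤ K, c k n (x K n) ≤ 1 / ((K : ℝ) + 1) := by
    intro K
    have h2 : ∀ᶠ n in atTop, ∀ k ∈ Set.Iic K, c k n (x K n) ≤ 1 / ((K : ℝ) + 1) :=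
      (Filter.eventually_all_finite (Set.finite_Iic K)).2 fun k hk => hx K k hk
    obtain ⟨N, hN⟩ := eventually_atTop.1 h2
    exact ⟨N, fun n hn k hk => hN n hn k hk⟩
  choose N hN using h1
  refine ⟨fun n => x (Nat.findGreatest (fun K => N K ≤ n) n) n, ?_⟩
  intro k ε hε
  obtain ⟨K1, hK1⟩ := exists_nat_one_div_lt hε
  have hmono : 1 / (((max k K1 : ℕ) : ℝ) + 1) ≤ 1 / ((K1 : ℝ) + 1) := by
    apply one_div_le_one_div_of_le (by positivity)
    have : (K1 : ℝ) ≤ ((max k K1 : ℕ) : ℝ) := by exact_mod_cast le_max_right k K1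
    linarith
  filter_upwards [eventually_ge_atTop (max (max k K1) (N (max k K1)))] with n hn
  have hn1 : max k K1 ≤ n := (le_max_left _ _).trans hn
  have hn2 : N (max k K1) ≤ n := (le_max_right _ _).trans hn
  have hs : N (Nat.findGreatest (fun K => N K ≤ n) n) ≤ n :=
    Nat.findGreatest_spec (P := fun K => N K ≤ n) hn1 hn2
  have hle : max k K1 ≤ Nat.findGreatest (fun K => N K ≤ n) n := Nat.le_findGreatest hn1 hn2
  have h3 := hN _ n hs k ((le_max_left _ _).trans hle)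
  refine h3.trans ?_
  have h4 : 1 / (((Nat.findGreatest (fun K => N K ≤ n) n : ℕ) : ℝ) + 1) ≤
      1 / (((max k K1 : ℕ) : ℝ) + 1) := by
    apply one_div_le_one_div_of_le (by positivity)
    have : ((max k K1 : ℕ) : ℝ) ≤ ((Nat.findGreatest (fun K => N K ≤ n) n : ℕ) : ℝ) := by
      exact_mod_cast hle
    linarith
  exact h4.trans (hmono.trans hK1.le)

end Pool.Agent.Lib.EJS
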