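import Pool.Agent.Lib.EJS.SIFun
import Pool.Agent.Lib.EJS.Simp

/-!
# Part SI: norms of products with commuting elements (SI3)

PROOF.  If `X = 0` or `y = 0` both sides are `0`; normalise so that `‖X‖ = ‖y‖ = 1` (divide by the norms).
`≤` is `norm_mul_le` and contractivity of `ι`.  For `0 < η < 1` let `X' = cfc (bumpf 1 η) X`, `y' = cfc (bumpf 1 η) y`, positive of norm one
(`norm_bump`, `norm_mem_spec`).  `exists_sum_eq_one'`: `∑ a_j* X' a_j = 1`, so
`∑ ι(a_j)* (ι X' y') ι(a_j) = y' ≠ 0` (`y'` commutes with `ι(A)`: `Commute.cfc_real`-type lemma), so `ι X' y' ≠ 0`.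
By `bump_ge` `X X' - (1-η) X' ≥ 0` and `y y' - (1-η) y' ≥ 0`, everything commutes, so
`(ι X y)(ι X' y') = (ι(X X'))(y y') ≥ (1-η)^2 ι X' y' ≥ 0` (products of commuting positive elements are positive,
`Commute.mul_nonneg`), hence `‖ι X y‖ ‖ι X' y'‖ ≥ (1-η)^2 ‖ι X' y'‖`, `‖ι X y‖ ≥ (1-η)^2`.
-/

open scoped ComplexOrder

namespace Pool.Agent.Lib.EJS

theorem norm_map_mul {A D : Type*} [CStarAlgebra A] [PartialOrder A] [StarOrderedRing A]
    [IsSimpleRing A] [CStarAlgebra D] [PartialOrder D] [StarOrderedRing D] [Nontrivial D]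
    (ι : A →⋆ₐ[ℂ] D) {y : D} (hy : 0 ≤ y) (hc : ∀ a, Commute (ι a) y) {X : A} (hX : 0 ≤ X) :
    ‖ι X * y‖ = ‖X‖ * ‖y‖ := by
  have hAn : Nontrivial A := inferInstance
  refine le_antisymm ((norm_mul_le _ _).trans
    (mul_le_mul_of_nonneg_right (shom_norm_le ι X) (norm_nonneg _))) ?_
  by_cases hX0 : X = 0
  · rw [hX0, norm_zero, zero_mul]; exact norm_nonneg _
  by_cases hy0 : y = 0
  · rw [hy0, norm_zero, mul_zero]; exact norm_nonneg _
  have hnX : 0 < ‖X‖ := norm_pos_iff.2 hX0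
  have hny : 0 < ‖y‖ := norm_pos_iff.2 hy0
  have main : ∀ η : ℝ, 0 < η → η < ‖X‖ → η < ‖y‖ → (‖X‖ - η) * (‖y‖ - η) ≤ ‖ι X * y‖ := by
    intro η hη h1 h2
    set X' := cfc (bumpf ‖X‖ η) X with hX'
    set y' := cfc (bumpf ‖y‖ η) y with hy'
    have hXs := norm_mem_spec hX
    have hys := norm_mem_spec hy
    have hX'0 : 0 ≤ X' := bump_nonneg _ hη _
    have hy'0 : 0 ≤ y' := bump_nonneg _ hη _
    have hX'n : ‖X'‖ = 1 := norm_bump hX.isSelfAdjoint hη hXs.1 fun t ht => (hXs.2 t ht).2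
    have hy'n : ‖y'‖ = 1 := norm_bump hy.isSelfAdjoint hη hys.1 fun t ht => (hys.2 t ht).2
    have hX'ne : X' ≠ 0 := by
      intro h; rw [h, norm_zero] at hX'n; exact zero_ne_one hX'n
    have hy'ne : y' ≠ 0 := by
      intro h; rw [h, norm_zero] at hy'n; exact zero_ne_one hy'n
    have hcy' : ∀ a, Commute (ι a) y' := fun a => ((hc a).symm.cfc_real _).symm
    have hb1 : (‖X‖ - η) • X' ≤ X * X' := bump_ge hX.isSelfAdjoint _ hη
    have hb2 : (‖y‖ - η) • y' ≤ y * y' := bump_ge hy.isSelfAdjoint _ hη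
    have hιX'0 : 0 ≤ ι X' := by
      obtain ⟨c, hc'⟩ := CStarAlgebra.nonneg_iff_eq_star_mul_self.1 hX'0
      rw [hc', map_mul, map_star]
      exact star_mul_self_nonneg _
    have hd1 : 0 ≤ ι (X * X' - (‖X‖ - η) • X') := by
      obtain ⟨c, hc'⟩ := CStarAlgebra.nonneg_iff_eq_star_mul_self.1 (sub_nonneg.2 hb1)
      rw [hc', map_mul, map_star]
      exact star_mul_self_nonneg _
    have hyy'0 : 0 ≤ y * y' := le_trans (smul_nonneg (sub_pos.2 h2).le hy'0) hb2
    have hcyy' : ∀ a, Commute (ι a) (y * y') := fun a => (hc a).mul_right (hcy' a)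
    -- the product is not zero
    have hne : ι X' * y' ≠ 0 := by
      intro h0
      obtain ⟨m, a, ha⟩ := exists_sum_eq_one' X' hX'0 hX'ne
      have h3 : ∑ j, star (ι (a j)) * (ι X' * y') * ι (a j) = y' := by
        have h4 : ∀ j, star (ι (a j)) * (ι X' * y') * ι (a j) =
            ι (star (a j) * X' * a j) * y' := by
          intro j
          rw [map_mul, map_mul, map_star]
          calc star (ι (a j)) * (ι X' * y') * ι (a j)
              = star (ι (a j)) * ι X' * (y' * ι (a j)) := by noncomm_ring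
            _ = star (ι (a j)) * ι X' * (ι (a j) * y') := by rw [(hcy' (a j)).eq]
            _ = _ := by noncomm_ring
        simp only [h4]
        rw [← Finset.sum_mul, ← map_sum, ha, map_one, one_mul]
      rw [h0] at h3
      simp only [mul_zero, zero_mul, Finset.sum_const_zero] at h3
      exact hy'ne h3.symm
    have hpos : 0 < ‖ι X' * y'‖ := norm_pos_iff.2 hne
    have hprod : (ι X * y) * (ι X' * y') = ι (X * X') * (y * y') := by
      rw [map_mul]
      calc ι X * y * (ι X' * y') = ι X * (y * ι X') * y' := by noncomm_ring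
        _ = ι X * (ι X' * y) * y' := by rw [(hc X').eq]
        _ = _ := by noncomm_ring
    have hle : ((‖X‖ - η) * (‖y‖ - η)) • (ι X' * y') ≤ ι (X * X') * (y * y') := by
      have h5 : 0 ≤ ι (X * X' - (‖X‖ - η) • X') * (y * y') :=
        Commute.mul_nonneg hd1 hyy'0 (hcyy' _)
      have h6 : 0 ≤ ι X' * (y * y' - (‖y‖ - η) • y') := by
        refine Commute.mul_nonneg hιX'0 (sub_nonneg.2 hb2) ?_
        exact (hcyy' X').sub_right ((hcy' X').smul_right _)
      have h7 : 0 ≤ (‖X‖ - η) • (ι X' * (y * y' - (‖y‖ - η) • y')) :=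
        smul_nonneg (sub_pos.2 h1).le h6
      have h8 : ι (X * X') * (y * y') - ((‖X‖ - η) * (‖y‖ - η)) • (ι X' * y') =
          ι (X * X' - (‖X‖ - η) • X') * (y * y') +
          (‖X‖ - η) • (ι X' * (y * y' - (‖y‖ - η) • y')) := by
        have h9 : ι (X * X' - (‖X‖ - η) • X') = ι (X * X') - (‖X‖ - η) • ι X' := by
          rw [map_sub]
          congr 1
          have : (‖X‖ - η) • X' = ((‖X‖ - η : ℝ) : ℂ) • X' := (Complex.coe_smul _ _).symm
          rw [this, map_smul]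
          exact Complex.coe_smul _ _
        rw [h9, sub_mul (ι (X * X')), mul_sub (ι X'), smul_sub, mul_smul_comm, smul_smul,
          smul_mul_assoc]
        abel
      rw [← sub_nonneg, h8]
      exact add_nonneg h5 h7
    have hs0 : 0 ≤ (‖X‖ - η) * (‖y‖ - η) := (mul_pos (sub_pos.2 h1) (sub_pos.2 h2)).le
    have hn : ‖((‖X‖ - η) * (‖y‖ - η)) • (ι X' * y')‖ ≤ ‖ι (X * X') * (y * y')‖ :=
      CStarAlgebra.norm_le_norm_of_nonneg_of_le
        (smul_nonneg hs0 (Commute.mul_nonneg hιX'0 hy'0 (hcy' X'))) hle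
    rw [norm_smul, Real.norm_eq_abs, abs_of_nonneg hs0, ← hprod] at hn
    exact le_of_mul_le_mul_right (hn.trans (norm_mul_le _ _)) hpos
  refine le_of_forall_pos_le_add fun ε hε => ?_
  have hsum : 0 < ‖X‖ + ‖y‖ := by positivity
  set η := min (min (‖X‖ / 2) (‖y‖ / 2)) (ε / (‖X‖ + ‖y‖)) with hη
  have hη0 : 0 < η := by
    rw [hη]
    exact lt_min (lt_min (by positivity) (by positivity)) (by positivity)
  have hη1 : η ≤ ‖X‖ / 2 := (min_le_left _ _).trans (min_le_left _ _)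
  have hη2 : η ≤ ‖y‖ / 2 := (min_le_left _ _).trans (min_le_right _ _)
  have hη3 : η * (‖X‖ + ‖y‖) ≤ ε := by
    calc η * (‖X‖ + ‖y‖) ≤ ε / (‖X‖ + ‖y‖) * (‖X‖ + ‖y‖) :=
          mul_le_mul_of_nonneg_right (min_le_right _ _) hsum.le
      _ = ε := div_mul_cancel₀ _ hsum.ne'
  have := main η hη0 (by linarith) (by linarith)
  nlinarith [mul_pos hη0 hη0]

end Pool.Agent.Lib.EJS
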