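import Pool.Agent.Lib.EJS.SIExc
import Pool.Agent.Lib.EJS.SINorm

/-!
# Part SI: excision of a vector (second half of SI6)

PROOF.  `X := ∑_j star (d j) * d j ≥ 0`, `‖X‖ = 1`.  Let `0 < η ≤ 1` with `r η ≤ ε/2`, `X' := cfc (bumpf 1 η) X` (`0 ≤ X' ≤ 1`, norm one: `norm_bump`,
`norm_mem_spec`), `p := ι X' * P` (commuting positive factors, so `0 ≤ p`, `p ≤ P`, `p ≤ ι X'`), `‖p‖ = 1` (`norm_map_mul`).
Let `S := ∑_{a ∈ F} ∑_ij ‖Λ a i j‖` and `δ > 0` with `2 δ ≤ ε`, `2 δ S ≤ ε/2`.  `excision` under `p` for the real and imaginary parts of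
all `ι (star (d i) * a * d j)`, `a ∈ F` (finitely many: index set `F × Fin k × Fin k × Fin 2 ≃ Fin n`) gives `q ≥ 0`, `‖q‖ = 1`, `u(p) q = q` and reals; put
`σ a i j = lam_re + i lam_im` (and `0` for `a ∉ F`).  `0 ≤ q b q - lam q^2 ≤ δ q^2` gives norm at most `δ`, so `‖q ι(..) q - σ q^2‖ ≤ 2 δ ≤ ε`.
`under_of_le`: `u(P) q = q` and `u(ι X') q = q`.  `ι X' = cfc (bumpf 1 η) (ι X)` (`StarAlgHomClass.map_cfc`), so `under_bump` (with `ι X`, `‖ι X‖ ≤ 1`):
`q ι(X) q ≥ (1-η) q^2`.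
Apply `ι` and `q · q` to the hypothesis: `2r (1-η) q^2 ≤ 2r q ι(X) q ≤ q ι(∑..) q`, and the right side is within `2·2δ S`
of `2 Re(∑ Λ σ) q^2` (`star (d i) (∑_a Λ a i j • a) d j = ∑_a Λ a i j • (star (d i) a d j)`; the star of each term is within the same
distance of `star (Λ σ) q^2`).  So `(2 r (1-η) - 2 Re(∑Λσ)) q^2 ≤ 4 δ S`, and if the left coefficient is positive take norms
(`‖q^2‖ = 1`): `2 r (1-η) - 2 Re(∑Λσ) ≤ 4 δ S ≤ ε`.  Hence `Re(∑Λσ) ≥ r - rη - ε/2 ≥ r - ε`.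
-/

open scoped ComplexOrder

namespace Pool.Agent.Lib.EJS

namespace SIExTabAux

variable {E : Type*} [CStarAlgebra E] [PartialOrder E] [StarOrderedRing E]

theorem norm_sq_one {q : E} (hq : 0 ≤ q) (h1 : ‖q‖ = 1) : ‖q * q‖ = 1 := by
  have h2 : star q = q := (IsSelfAdjoint.of_nonneg hq).star_eq
  have h3 := CStarRing.norm_star_mul_self (x := q)
  rw [h2, h1] at h3
  rw [h3, one_mul]

/-- excision for a finite family of arbitrary elements -/
theorem excision' {p : E} (hp : 0 ≤ p) (hp1 : ‖p‖ = 1) {T : Type*} [Finite T] (x : T → E)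
    {δ : ℝ} (hδ : 0 < δ) :
    ∃ (q : E) (σ : T → ℂ), 0 ≤ q ∧ ‖q‖ = 1 ∧ cfc uf p * q = q ∧
      ∀ i, ‖q * x i * q - σ i • (q * q)‖ ≤ 2 * δ := by
  classical
  have := Fintype.ofFinite T
  let e : (T × Fin 2) ≃ Fin (Fintype.card (T × Fin 2)) := Fintype.equivFin _
  let b : T × Fin 2 → E := fun z => if z.2 = 0 then (realPart (x z.1) : E)
    else (imaginaryPart (x z.1) : E)
  have hb : ∀ z, IsSelfAdjoint (b z) := by
    intro z
    simp only [b]
    split_ifs
    · exact (realPart (x z.1)).2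
    · exact (imaginaryPart (x z.1)).2
  obtain ⟨q, lam, hq, hq1, hpq, hlam⟩ := excision hp hp1 (fun i => b (e.symm i))
    (fun i => hb _) hδ
  have hnorm : ∀ z, ‖q * b z * q - lam (e z) • (q * q)‖ ≤ δ := by
    intro z
    obtain ⟨h1, h2⟩ := hlam (e z)
    simp only [Equiv.symm_apply_apply] at h1 h2
    have h3 : 0 ≤ q * b z * q - lam (e z) • (q * q) := sub_nonneg.2 h1
    have h4 : q * b z * q - lam (e z) • (q * q) ≤ δ • (q * q) := by
      rw [sub_le_iff_le_add, ← add_smul, add_comm δ]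
      exact h2
    refine (CStarAlgebra.norm_le_norm_of_nonneg_of_le h3 h4).trans ?_
    rw [norm_smul, norm_sq_one hq hq1, mul_one, Real.norm_eq_abs, abs_of_pos hδ]
  refine ⟨q, fun i => ((lam (e (i, 0)) : ℝ) : ℂ) + Complex.I * ((lam (e (i, 1)) : ℝ) : ℂ), hq, hq1,
    hpq, ?_⟩
  intro i
  have h1 := hnorm (i, 0)
  have h2 := hnorm (i, 1)
  have hb0 : b (i, 0) = (realPart (x i) : E) := by simp [b]
  have hb1 : b (i, 1) = (imaginaryPart (x i) : E) := by simp [b]
  rw [hb0] at h1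
  rw [hb1] at h2
  have h3 : q * x i * q - (((lam (e (i, 0)) : ℝ) : ℂ) + Complex.I * ((lam (e (i, 1)) : ℝ) : ℂ)) •
      (q * q) = (q * (realPart (x i) : E) * q - lam (e (i, 0)) • (q * q)) +
        Complex.I • (q * (imaginaryPart (x i) : E) * q - lam (e (i, 1)) • (q * q)) := by
    conv_lhs => rw [← realPart_add_I_smul_imaginaryPart (x i)]
    rw [mul_add, add_mul, add_smul, mul_smul_comm, smul_mul_assoc, smul_sub, mul_smul,
      Complex.coe_smul, Complex.coe_smul]
    abel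
  rw [h3]
  refine (norm_add_le _ _).trans ?_
  rw [norm_smul, Complex.norm_I, one_mul]
  linarith

/-- the final estimate -/
theorem final {q Y : E} {w : ℂ} {c κ : ℝ} (hq : 0 ≤ q) (hq1 : ‖q‖ = 1)
    (hw : ‖q * Y * q - w • (q * q)‖ ≤ κ) (h : c • (q * q) ≤ q * (Y + star Y) * q) :
    c - 2 * w.re ≤ 2 * κ := by
  have hqs : star q = q := (IsSelfAdjoint.of_nonneg hq).star_eq
  have h1 : q * (Y + star Y) * q - (2 * w.re) • (q * q) =
      (q * Y * q - w • (q * q)) + star (q * Y * q - w • (q * q)) := by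
    have h2 : (2 * w.re) • (q * q) = w • (q * q) + star w • (q * q) := by
      rw [← add_smul, ← Complex.coe_smul]
      congr 1
      apply Complex.ext
      · simp
        ring
      · simp
    rw [h2, star_sub, star_smul, star_mul, star_mul, star_mul, hqs]
    noncomm_ring
  have h2 : ‖q * (Y + star Y) * q - (2 * w.re) • (q * q)‖ ≤ 2 * κ := by
    rw [h1]
    refine (norm_add_le _ _).trans ?_
    rw [norm_star]
    linarith
  rcases le_or_gt (c - 2 * w.re) 0 with h3 | h3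
  · exact h3.trans ((norm_nonneg _).trans h2)
  · have h4 : (c - 2 * w.re) • (q * q) ≤ q * (Y + star Y) * q - (2 * w.re) • (q * q) := by
      rw [sub_smul]
      exact sub_le_sub_right h _
    have h5 : 0 ≤ (c - 2 * w.re) • (q * q) := by
      refine smul_nonneg h3.le ?_
      have := star_mul_self_nonneg q
      rwa [hqs] at this
    have h6 := (CStarAlgebra.norm_le_norm_of_nonneg_of_le h5 h4).trans h2
    rwa [norm_smul, norm_sq_one hq hq1, mul_one, Real.norm_eq_abs, abs_of_pos h3] at h6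

end SIExTabAux

open SIExTabAux

theorem exists_tab {A D : Type*} [CStarAlgebra A] [PartialOrder A] [StarOrderedRing A]
    [IsSimpleRing A] [CStarAlgebra D] [PartialOrder D] [StarOrderedRing D] [Nontrivial D]
    (ι : A →⋆ₐ[ℂ] D) {P : D} (hP : 0 ≤ P) (hP1 : ‖P‖ = 1) (hc : ∀ a, Commute (ι a) P)
    (F : Finset A) {k : ℕ} (Λ : A → Fin k → Fin k → ℂ) {d : Fin k → A}
    (hd : ‖∑ j, star (d j) * d j‖ = 1) {r : ℝ} (hr : 0 ≤ r)
    (h : (2 * r) • ∑ j, star (d j) * d j ≤
      ∑ i, ∑ j, (star (d i) * (∑ a ∈ F, Λ a i j • a) * d j +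
        star (star (d i) * (∑ a ∈ F, Λ a i j • a) * d j)))
    {ε : ℝ} (hε : 0 < ε) :
    ∃ (q : D) (σ : A → Fin k → Fin k → ℂ), IsTab ι P F ε q d σ ∧
      r - ε ≤ (∑ a ∈ F, ∑ i, ∑ j, Λ a i j * σ a i j).re := by
  classical
  have hAn : Nontrivial A := inferInstance
  set X : A := ∑ j, star (d j) * d j with hX
  have hX0 : 0 ≤ X := Finset.sum_nonneg fun j _ => star_mul_self_nonneg _
  have hXsa : IsSelfAdjoint X := IsSelfAdjoint.of_nonneg hX0
  obtain ⟨η, hη, hη1, hrη⟩ : ∃ η : ℝ, 0 < η ∧ η ≤ 1 ∧ r * η ≤ ε / 2 := by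
    refine ⟨min 1 (ε / (2 * (r + 1))), lt_min one_pos (by positivity), min_le_left _ _, ?_⟩
    have h1 : min 1 (ε / (2 * (r + 1))) ≤ ε / (2 * (r + 1)) := min_le_right _ _
    calc r * min 1 (ε / (2 * (r + 1))) ≤ (r + 1) * (ε / (2 * (r + 1))) := by
          apply mul_le_mul (by linarith) h1 (le_min zero_le_one (by positivity)) (by positivity)
      _ = ε / 2 := by field_simp
  have hspec := norm_mem_spec hX0
  rw [hd] at hspec
  set X' : A := cfc (bumpf 1 η) X with hX'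
  have hX'0 : 0 ≤ X' := bump_nonneg 1 hη X
  have hX'1 : ‖X'‖ = 1 := norm_bump hXsa hη hspec.1 fun t ht => (hspec.2 t ht).2
  have hιpos : ∀ x : A, 0 ≤ x → 0 ≤ ι x := fun x hx => map_nonneg ι hx
  have hιle : ∀ x y : A, x ≤ y → ι x ≤ ι y := fun x y hxy => OrderHomClass.mono ι hxy
  have hιX'1 : ι X' ≤ 1 := by
    have h1 : X' ≤ 1 := (CStarAlgebra.norm_le_one_iff_of_nonneg X' hX'0).1 hX'1.le
    have h2 := hιle _ _ h1
    rwa [map_one] at h2
  have hP1' : P ≤ 1 := (CStarAlgebra.norm_le_one_iff_of_nonneg P hP).1 hP1.le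
  set p : D := ι X' * P with hp
  have hp0 : 0 ≤ p := Commute.mul_nonneg (hιpos _ hX'0) hP (hc X')
  have hpP : p ≤ P := by
    rw [← sub_nonneg]
    have h1 : P - p = (1 - ι X') * P := by rw [hp]; noncomm_ring
    rw [h1]
    exact Commute.mul_nonneg (sub_nonneg.2 hιX'1) hP
      ((Commute.one_left P).sub_left (hc X'))
  have hpX : p ≤ ι X' := by
    rw [← sub_nonneg]
    have h1 : ι X' - p = ι X' * (1 - P) := by rw [hp]; noncomm_ring
    rw [h1]
    exact Commute.mul_nonneg (hιpos _ hX'0) (sub_nonneg.2 hP1')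
      ((Commute.one_right _).sub_right (hc X'))
  have hp1 : ‖p‖ = 1 := by
    rw [hp, norm_map_mul ι hP hc hX'0, hX'1, hP1, one_mul]
  set S : ℝ := ∑ a ∈ F, ∑ i, ∑ j, ‖Λ a i j‖ with hS
  have hS0 : 0 ≤ S := Finset.sum_nonneg fun a _ => Finset.sum_nonneg fun i _ =>
    Finset.sum_nonneg fun j _ => norm_nonneg _
  obtain ⟨δ, hδ, hδ1, hδ2⟩ : ∃ δ : ℝ, 0 < δ ∧ 2 * δ ≤ ε ∧ 2 * δ * S ≤ ε / 2 := by
    refine ⟨ε / (4 * (S + 1)), by positivity, ?_, ?_⟩
    · rw [mul_div_assoc', div_le_iff₀ (by positivity)]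
      nlinarith
    · have h1 : 2 * (ε / (4 * (S + 1))) * S = (ε / 2) * (S / (S + 1)) := by
        field_simp
        ring
      rw [h1]
      have h2 : S / (S + 1) ≤ 1 := by
        rw [div_le_one (by positivity)]
        linarith
      nlinarith
  obtain ⟨q, σ', hq0, hq1, hpq, hσ⟩ := excision' hp0 hp1
    (T := {a // a ∈ F} × Fin k × Fin k)
    (fun z => ι (star (d z.2.1) * z.1.1 * d z.2.2)) hδ
  set σ : A → Fin k → Fin k → ℂ := fun a i j => if ha : a ∈ F then σ' (⟨a, ha⟩, i, j) else 0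
    with hσdef
  have hσ1 : ∀ a ∈ F, ∀ i j,
      ‖q * ι (star (d i) * a * d j) * q - σ a i j • (q * q)‖ ≤ 2 * δ := by
    intro a ha i j
    have h1 := hσ (⟨a, ha⟩, i, j)
    simp only [hσdef, dif_pos ha]
    exact h1
  have hcommpP : Commute p P := by
    rw [hp]
    exact (hc X').mul_left (Commute.refl P)
  have hcommpX : Commute p (ι X') := by
    rw [hp]
    exact (Commute.refl _).mul_left (hc X').symm
  have hPq : cfc uf P * q = q := under_of_le hcommpP hp0 hpP hpq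
  have hXq : cfc uf (ι X') * q = q := under_of_le hcommpX hp0 hpX hpq
  have hqsa : IsSelfAdjoint q := IsSelfAdjoint.of_nonneg hq0
  have hqs : star q = q := hqsa.star_eq
  have hιX : ι X' = cfc (bumpf 1 η) (ι X) := by
    rw [hX']
    exact StarAlgHomClass.map_cfc ι (bumpf 1 η) X (continuous_bumpf 1 η).continuousOn
      (shom_continuous ι) hXsa (hXsa.map ι)
  have hιXn : ‖ι X‖ ≤ 1 := (shom_norm_le ι X).trans hd.le
  rw [hιX] at hXq
  have hlow : (1 - η) • (q * q) ≤ q * ι X * q :=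
    under_bump (hιpos _ hX0) hιXn hη hqsa hXq
  -- the hypothesis
  set Y : D := ∑ i, ∑ j, ι (star (d i) * (∑ a ∈ F, Λ a i j • a) * d j) with hY
  have hmain : (2 * r) • ι X ≤ Y + star Y := by
    have h1 := hιle _ _ h
    have h2 : ι ((2 * r) • X) = (2 * r) • ι X := by
      rw [← Complex.coe_smul, map_smul, Complex.coe_smul]
    rw [h2] at h1
    refine h1.trans (le_of_eq ?_)
    rw [hY]
    simp only [map_sum, map_add, Finset.sum_add_distrib, star_sum, map_star]
  have hconj : (2 * r * (1 - η)) • (q * q) ≤ q * (Y + star Y) * q := by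
    have h1 : q * ((2 * r) • ι X) * q ≤ q * (Y + star Y) * q := by
      have h2 := star_left_conjugate_le_conjugate hmain q
      rwa [hqs] at h2
    refine le_trans ?_ h1
    rw [mul_smul_comm, smul_mul_assoc, mul_smul]
    exact smul_le_smul_of_nonneg_left hlow (by positivity)
  set w : ℂ := ∑ a ∈ F, ∑ i, ∑ j, Λ a i j * σ a i j with hw
  have hYw : ‖q * Y * q - w • (q * q)‖ ≤ 2 * δ * S := by
    have h1 : q * Y * q - w • (q * q) = ∑ a ∈ F, ∑ i, ∑ j, Λ a i j •
        (q * ι (star (d i) * a * d j) * q - σ a i j • (q * q)) := by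
      have h2 : Y = ∑ a ∈ F, ∑ i, ∑ j, Λ a i j • ι (star (d i) * a * d j) := by
        calc Y = ∑ i, ∑ j, ∑ a ∈ F, Λ a i j • ι (star (d i) * a * d j) := by
              rw [hY]
              refine Finset.sum_congr rfl fun i _ => Finset.sum_congr rfl fun j _ => ?_
              rw [Finset.mul_sum, Finset.sum_mul, map_sum]
              refine Finset.sum_congr rfl fun a _ => ?_
              rw [mul_smul_comm, smul_mul_assoc, map_smul]
          _ = ∑ i, ∑ a ∈ F, ∑ j, Λ a i j • ι (star (d i) * a * d j) :=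
              Finset.sum_congr rfl fun i _ => Finset.sum_comm
          _ = _ := Finset.sum_comm
      rw [h2, hw]
      simp only [Finset.mul_sum, Finset.sum_mul, Finset.sum_smul, mul_smul_comm, smul_mul_assoc,
        smul_sub, smul_smul, Finset.sum_sub_distrib]
    rw [h1]
    have h3 : 2 * δ * S = ∑ a ∈ F, ∑ i, ∑ j, ‖Λ a i j‖ * (2 * δ) := by
      rw [hS, mul_comm]
      simp only [Finset.sum_mul]
    rw [h3]
    refine norm_sum_le_of_le _ fun a ha => norm_sum_le_of_le _ fun i _ =>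
      norm_sum_le_of_le _ fun j _ => ?_
    rw [norm_smul]
    exact mul_le_mul_of_nonneg_left (hσ1 a ha i j) (norm_nonneg _)
  refine ⟨q, σ, ⟨?_, hq1, hPq, ?_⟩, ?_⟩
  · exact CStarAlgebra.nonneg_iff_eq_star_mul_self.1 hq0
  · intro a ha i j
    exact (hσ1 a ha i j).trans hδ1
  · have h1 := final hq0 hq1 hYw hconj
    nlinarith

end Pool.Agent.Lib.EJS
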