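import Pool.Agent.Lib.EJS.SIEps
import Pool.Agent.Lib.EJS.SIDefsB

/-!
# Part SI: from approximate to exact (SI8)

PROOF.  Let `a_k` be a dense sequence of `A` (`TopologicalSpace.denseSeq`), `g_k` an enumeration of `G` (`exists_surjective_nat`), `(e_n)`, `(f_n)` lifts of `e`, `f'`
to `BF ℕ A` (`Seq.exists_lift`).  `X := {(p, s) : A × (Fin I → A) // ‖p‖ ≤ 1 ∧ ∀ i, ‖s i‖ ≤ 2}`.  For `x = (p, s)` let `c k n x` be the sum of
`‖star p - p‖`, `‖p a_k - a_k p‖`, `‖p α_{g_k}(p)‖` (if `g_k ∉ Triv α`, else `0`), `∑_i (‖p s_i - s_i‖ + ‖f_n s_i - s_i‖)` and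
`∑_ij ‖star (s_i) a_k s_j - (if i = j then a_k e_n else 0)‖`.
Hypothesis of `eps_test` for `K`: `h` with `F = {a_0..a_K}`, the `g_0..g_K` not in `Triv α` and a small `ε'` (`ε'·(3 + 2 I + I^2) < 1/(K+1)`) gives `p`, `s_i ∈ Seq A`; lift `s_i` to bounded sequences of norm `≤ 2`
and let `x n = (p, (s_{i,n})_i)`; all (finitely many) summands are eventually smaller than `2 ε'`, say (`Seq.eventually_lt`; `f' s_i = s_i` means norm zero).
The conclusion gives `x n = (p_n, s_{i,n})` with `c k n (x n) → 0` for all `k`.  `P := of (p_n)`, `s_i := of (s_{i,n})` (`BF.mk` with bounds `1`, `2`).  Each relation holds in `Seq A`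
(`Seq.of_eq_of`/`Seq.of_eq_zero`), those with `a_k` first for the dense sequence, then for all `a` by continuity (closed sets, `DenseRange.induction_on`).
Finally `s_i` is central: with `b = Seq.const a`, `s = s_i`: `star (b s - s b) * (b s - s b) = s* b* b s - s* b* s b - b* s* b s + b* s* s b
= b* b e - b* e b - b* b e + b* e b = 0` where `star s * const x * s = const x * e` (`x = a* a, a*, a, 1`; `e` is central).
-/

open scoped ComplexOrder
open Filter Topology Pool.Agent.Lib.EqGamma

namespace Pool.Agent.Lib.EJS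

universe u v

theorem of_eq_zero_of_eventually {A : Type u} [CStarAlgebra A] {z : BF ℕ A}
    (h : ∀ ε : ℝ, 0 < ε → ∀ᶠ n in atTop, ‖BF.ev n z‖ ≤ ε) : Seq.of z = 0 := by
  rw [← norm_le_zero_iff]
  refine le_of_forall_pos_le_add fun ε hε => ?_
  rw [zero_add]
  exact Seq.norm_le_of_eventually hε.le (h ε hε)

/-- the error function of the exact version -/
noncomputable def cE {A : Type u} [CStarAlgebra A] {G : Type v} [Group G] (α : G →* (A ≃⋆ₐ[ℂ] A))
    [DecidablePred fun g => g ∈ Triv α]
    (a : ℕ → A) (g : ℕ → G) (f e : BF ℕ A) (I : ℕ) (k n : ℕ) (x : A × (Fin I → A)) : ℝ :=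
  ‖star x.1 - x.1‖ + ‖x.1 * a k - a k * x.1‖ +
    (if g k ∈ Triv α then 0 else ‖x.1 * α (g k) x.1‖) +
    ∑ i, (‖x.1 * x.2 i - x.2 i‖ + ‖BF.ev n f * x.2 i - x.2 i‖) +
    ∑ i, ∑ j, ‖star (x.2 i) * a k * x.2 j - (if i = j then a k * BF.ev n e else 0)‖

section
variable {A : Type u} [CStarAlgebra A] {G : Type v} [Group G] {α : G →* (A ≃⋆ₐ[ℂ] A)}
    [DecidablePred fun g => g ∈ Triv α]
    {a : ℕ → A} {g : ℕ → G} {f e : BF ℕ A} {I : ℕ} {k n : ℕ} {x : A × (Fin I → A)}

theorem cE_parts : 0 ≤ ‖star x.1 - x.1‖ ∧ 0 ≤ ‖x.1 * a k - a k * x.1‖ ∧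
    0 ≤ (if g k ∈ Triv α then 0 else ‖x.1 * α (g k) x.1‖) ∧
    0 ≤ ∑ i, (‖x.1 * x.2 i - x.2 i‖ + ‖BF.ev n f * x.2 i - x.2 i‖) ∧
    0 ≤ ∑ i, ∑ j, ‖star (x.2 i) * a k * x.2 j - (if i = j then a k * BF.ev n e else 0)‖ := by
  refine ⟨norm_nonneg _, norm_nonneg _, ?_, ?_, ?_⟩
  · split_ifs
    · exact le_refl _
    · exact norm_nonneg _
  · exact Finset.sum_nonneg fun i _ => add_nonneg (norm_nonneg _) (norm_nonneg _)
  · exact Finset.sum_nonneg fun i _ => Finset.sum_nonneg fun j _ => norm_nonneg _

theorem cE_1 : ‖star x.1 - x.1‖ ≤ cE α a g f e I k n x := by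
  obtain ⟨h1, h2, h3, h4, h5⟩ := cE_parts (α := α) (a := a) (g := g) (f := f) (e := e) (k := k)
    (n := n) (x := x)
  unfold cE
  linarith

theorem cE_2 : ‖x.1 * a k - a k * x.1‖ ≤ cE α a g f e I k n x := by
  obtain ⟨h1, h2, h3, h4, h5⟩ := cE_parts (α := α) (a := a) (g := g) (f := f) (e := e) (k := k)
    (n := n) (x := x)
  unfold cE
  linarith

theorem cE_3 (hg : g k ∉ Triv α) : ‖x.1 * α (g k) x.1‖ ≤ cE α a g f e I k n x := by
  obtain ⟨h1, h2, h3, h4, h5⟩ := cE_parts (α := α) (a := a) (g := g) (f := f) (e := e) (k := k)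
    (n := n) (x := x)
  unfold cE
  rw [if_neg hg] at h3 ⊢
  linarith

theorem cE_4 (i : Fin I) : ‖x.1 * x.2 i - x.2 i‖ ≤ cE α a g f e I k n x ∧
    ‖BF.ev n f * x.2 i - x.2 i‖ ≤ cE α a g f e I k n x := by
  obtain ⟨h1, h2, h3, h4, h5⟩ := cE_parts (α := α) (a := a) (g := g) (f := f) (e := e) (k := k)
    (n := n) (x := x)
  have h6 := Finset.single_le_sum (f := fun i => ‖x.1 * x.2 i - x.2 i‖ + ‖BF.ev n f * x.2 i - x.2 i‖)
    (fun i _ => add_nonneg (norm_nonneg _) (norm_nonneg _)) (Finset.mem_univ i)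
  have h7 := norm_nonneg (x.1 * x.2 i - x.2 i)
  have h8 := norm_nonneg (BF.ev n f * x.2 i - x.2 i)
  unfold cE
  constructor <;> linarith

theorem cE_5 (i j : Fin I) :
    ‖star (x.2 i) * a k * x.2 j - (if i = j then a k * BF.ev n e else 0)‖ ≤
      cE α a g f e I k n x := by
  obtain ⟨h1, h2, h3, h4, h5⟩ := cE_parts (α := α) (a := a) (g := g) (f := f) (e := e) (k := k)
    (n := n) (x := x)
  have h6 := Finset.single_le_sum (f := fun i => ∑ j,
    ‖star (x.2 i) * a k * x.2 j - (if i = j then a k * BF.ev n e else 0)‖)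
    (fun i _ => Finset.sum_nonneg fun j _ => norm_nonneg _) (Finset.mem_univ i)
  have h7 := Finset.single_le_sum (f := fun j =>
    ‖star (x.2 i) * a k * x.2 j - (if i = j then a k * BF.ev n e else 0)‖)
    (fun j _ => norm_nonneg _) (Finset.mem_univ j)
  unfold cE
  linarith

theorem cE_le {δ : ℝ} (h1 : ‖star x.1 - x.1‖ ≤ δ) (h2 : ‖x.1 * a k - a k * x.1‖ ≤ δ)
    (h3 : g k ∉ Triv α → ‖x.1 * α (g k) x.1‖ ≤ δ)
    (h4 : ∀ i, ‖x.1 * x.2 i - x.2 i‖ ≤ δ) (h5 : ∀ i, ‖BF.ev n f * x.2 i - x.2 i‖ ≤ δ)
    (h6 : ∀ i j, ‖star (x.2 i) * a k * x.2 j - (if i = j then a k * BF.ev n e else 0)‖ ≤ δ)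
    (hδ : 0 ≤ δ) :
    cE α a g f e I k n x ≤ (3 + 2 * I + I * I) * δ := by
  have h7 : (if g k ∈ Triv α then 0 else ‖x.1 * α (g k) x.1‖) ≤ δ := by
    split_ifs with h
    · exact hδ
    · exact h3 h
  have h8 : ∑ i, (‖x.1 * x.2 i - x.2 i‖ + ‖BF.ev n f * x.2 i - x.2 i‖) ≤ I * (2 * δ) := by
    refine (Finset.sum_le_sum (g := fun _ => 2 * δ) fun i _ => ?_).trans (le_of_eq ?_)
    · have := h4 i
      have := h5 i
      linarith
    · rw [Finset.sum_const, Finset.card_univ, Fintype.card_fin, nsmul_eq_mul]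
  have h9 : ∑ i, ∑ j, ‖star (x.2 i) * a k * x.2 j - (if i = j then a k * BF.ev n e else 0)‖ ≤
      I * (I * δ) := by
    refine (Finset.sum_le_sum (g := fun _ => (I : ℝ) * δ) fun i _ => ?_).trans (le_of_eq ?_)
    · refine (Finset.sum_le_sum (g := fun _ => δ) fun j _ => h6 i j).trans (le_of_eq ?_)
      rw [Finset.sum_const, Finset.card_univ, Fintype.card_fin, nsmul_eq_mul]
    · rw [Finset.sum_const, Finset.card_univ, Fintype.card_fin, nsmul_eq_mul]
  unfold cE
  nlinarith

end

theorem exactS {A : Type u} [CStarAlgebra A] [TopologicalSpace.SeparableSpace A] {G : Type v}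
    [Group G] [Countable G] {α : G →* (A ≃⋆ₐ[ℂ] A)} {e f' : Seq A} (he : Seq.Central e)
    (h : ApproxS α e f') : ExactS α e f' := by
  classical
  intro I
  obtain ⟨g, hg⟩ := exists_surjective_nat G
  obtain ⟨e', he', -⟩ := Seq.exists_lift e
  obtain ⟨f, hf, -⟩ := Seq.exists_lift f'
  set a := TopologicalSpace.denseSeq A with ha
  have hdense : DenseRange a := TopologicalSpace.denseRange_denseSeq A
  obtain ⟨x, hx⟩ := eps_test
    (X := {x : A × (Fin I → A) // ‖x.1‖ ≤ 1 ∧ ∀ i, ‖x.2 i‖ ≤ 2})
    (fun k n x => cE α a g f e' I k n x.1) (by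
      intro K
      set T : ℝ := 3 + 2 * I + I * I with hT
      have hT0 : 0 < T := by positivity
      set δ : ℝ := 1 / ((K : ℝ) + 1) / T with hδ
      have hδ0 : 0 < δ := by positivity
      obtain ⟨p, s, hp, hp1, hpa, hpg, hps, hss⟩ := h I ((Finset.range (K + 1)).image a)
        (((Finset.range (K + 1)).image g).filter fun h => h ∉ Triv α)
        (fun h hh => (Finset.mem_filter.1 hh).2) (δ / 2) (by positivity)
      choose s' hs' hs'' using fun i => Seq.exists_lift (s i)
      refine ⟨fun n => ⟨(p, fun i => BF.ev n (s' i)), hp1, fun i =>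
        (BF.norm_ev_le _ n).trans ((hs'' i).trans (hps i).2.1)⟩, ?_⟩
      intro k hk
      have hka : a k ∈ (Finset.range (K + 1)).image a :=
        Finset.mem_image_of_mem _ (Finset.mem_range.2 (by omega))
      have e1 : ∀ i, ∀ᶠ n in atTop, ‖p * BF.ev n (s' i) - BF.ev n (s' i)‖ ≤ δ := by
        intro i
        have h1 := (hps i).1
        rw [← hs' i, Seq.const_apply, ← map_mul, ← map_sub] at h1
        have h2 := Seq.eventually_lt (lt_of_le_of_lt h1 (half_lt_self hδ0))
        filter_upwards [h2] with n hn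
        rw [map_sub, map_mul, BF.ev_cst] at hn
        exact hn.le
      have e2 : ∀ i, ∀ᶠ n in atTop, ‖BF.ev n f * BF.ev n (s' i) - BF.ev n (s' i)‖ ≤ δ := by
        intro i
        have h1 := (hps i).2.2
        rw [← hs' i, ← hf, ← map_mul, ← sub_eq_zero, ← map_sub] at h1
        have h2 := Seq.eventually_lt (x := f * s' i - s' i) (c := δ) (by rw [h1, norm_zero]; exact hδ0)
        filter_upwards [h2] with n hn
        rw [map_sub, map_mul] at hn
        exact hn.le
      have e3 : ∀ i j, ∀ᶠ n in atTop, ‖star (BF.ev n (s' i)) * a k * BF.ev n (s' j) -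
          (if i = j then a k * BF.ev n e' else 0)‖ ≤ δ := by
        intro i j
        have h1 := hss (a k) hka i j
        have h0 : (if i = j then Seq.const (a k) * e else 0) =
            Seq.of (if i = j then BF.cst (a k) * e' else 0) := by
          split_ifs
          · rw [map_mul, he', Seq.const_apply]
          · rw [map_zero]
        rw [h0, ← hs' i, ← hs' j, Seq.const_apply, ← map_star, ← map_mul, ← map_mul,
          ← map_sub] at h1
        have h2 := Seq.eventually_lt (lt_of_le_of_lt h1 (half_lt_self hδ0))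
        filter_upwards [h2] with n hn
        have h3 : BF.ev n (if i = j then BF.cst (a k) * e' else 0) =
            if i = j then a k * BF.ev n e' else 0 := by
          split_ifs
          · rw [map_mul, BF.ev_cst]
          · rw [map_zero]
        rw [map_sub, map_mul, map_mul, map_star, BF.ev_cst, h3] at hn
        exact hn.le
      filter_upwards [Filter.eventually_all.2 e1, Filter.eventually_all.2 e2,
        Filter.eventually_all.2 fun i => Filter.eventually_all.2 (e3 i)] with n k1 k2 k3
      have h5 := cE_le (α := α) (a := a) (g := g) (f := f) (e := e') (k := k) (n := n)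
        (x := (p, fun i => BF.ev n (s' i))) (δ := δ) (by
          simp only [hp, sub_self, norm_zero]; exact hδ0.le)
        ((hpa _ hka).trans (by linarith)) (fun hgk => (hpg (g k) (Finset.mem_filter.2
          ⟨Finset.mem_image_of_mem _ (Finset.mem_range.2 (by omega)), hgk⟩)).trans (by linarith))
        k1 k2 k3 hδ0.le
      refine h5.trans (le_of_eq ?_)
      rw [← hT, hδ]
      field_simp)
  set P : BF ℕ A := BF.mk (fun n => (x n).1.1) 1 (fun n => (x n).2.1) with hP
  set s : Fin I → BF ℕ A := fun i => BF.mk (fun n => (x n).1.2 i) 2 (fun n => (x n).2.2 i) with hs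
  have evP : ∀ n, BF.ev n P = (x n).1.1 := fun n => rfl
  have evs : ∀ n i, BF.ev n (s i) = (x n).1.2 i := fun n i => rfl
  have r1 : star (Seq.of P) = Seq.of P := by
    rw [← sub_eq_zero, ← map_star, ← map_sub]
    refine of_eq_zero_of_eventually fun ε hε => ?_
    filter_upwards [hx 0 ε hε] with n hn
    rw [map_sub, map_star, evP]
    exact cE_1.trans hn
  have r2 : ∀ k, Commute (Seq.const (a k)) (Seq.of P) := by
    intro k
    refine Eq.symm ?_
    rw [← sub_eq_zero, Seq.const_apply, ← map_mul, ← map_mul, ← map_sub]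
    refine of_eq_zero_of_eventually fun ε hε => ?_
    filter_upwards [hx k ε hε] with n hn
    rw [map_sub, map_mul, map_mul, BF.ev_cst, evP]
    exact cE_2.trans hn
  have r2' : Seq.Central (Seq.of P) := by
    intro b
    exact hdense.induction_on (p := fun b => Commute (Seq.const b) (Seq.of P)) b
      (isClosed_eq ((shom_continuous Seq.const).mul continuous_const)
        (continuous_const.mul (shom_continuous Seq.const))) r2
  have r3 : ∀ h, h ∉ Triv α → Seq.of P * Seq.act α h (Seq.of P) = 0 := by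
    intro h' hh
    obtain ⟨k, rfl⟩ := hg h'
    change Seq.of P * Seq.of (BFmap _ P) = 0
    rw [← map_mul]
    refine of_eq_zero_of_eventually fun ε hε => ?_
    filter_upwards [hx k ε hε] with n hn
    rw [map_mul, ev_BFmap, evP]
    exact (cE_3 hh).trans hn
  have r4 : ∀ i, Seq.of P * Seq.of (s i) = Seq.of (s i) := by
    intro i
    rw [← sub_eq_zero, ← map_mul, ← map_sub]
    refine of_eq_zero_of_eventually fun ε hε => ?_
    filter_upwards [hx 0 ε hε] with n hn
    rw [map_sub, map_mul, evP, evs]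
    exact (cE_4 i).1.trans hn
  have r5 : ∀ i, f' * Seq.of (s i) = Seq.of (s i) := by
    intro i
    rw [← sub_eq_zero, ← hf, ← map_mul, ← map_sub]
    refine of_eq_zero_of_eventually fun ε hε => ?_
    filter_upwards [hx 0 ε hε] with n hn
    rw [map_sub, map_mul, evs]
    exact (cE_4 i).2.trans hn
  have r6 : ∀ i j k, star (Seq.of (s i)) * Seq.const (a k) * Seq.of (s j) =
      if i = j then Seq.const (a k) * e else 0 := by
    intro i j k
    have h0 : (if i = j then Seq.const (a k) * e else 0) =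
        Seq.of (if i = j then BF.cst (a k) * e' else 0) := by
      split_ifs
      · rw [map_mul, he', Seq.const_apply]
      · rw [map_zero]
    rw [h0, ← sub_eq_zero, Seq.const_apply, ← map_star, ← map_mul, ← map_mul, ← map_sub]
    refine of_eq_zero_of_eventually fun ε hε => ?_
    filter_upwards [hx k ε hε] with n hn
    have h3 : BF.ev n (if i = j then BF.cst (a k) * e' else 0) =
        if i = j then a k * BF.ev n e' else 0 := by
      split_ifs
      · rw [map_mul, BF.ev_cst]
      · rw [map_zero]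
    rw [map_sub, map_mul, map_mul, map_star, BF.ev_cst, h3, evs, evs]
    exact (cE_5 i j).trans hn
  have r6' : ∀ i j b, star (Seq.of (s i)) * Seq.const b * Seq.of (s j) =
      if i = j then Seq.const b * e else 0 := by
    intro i j b
    refine hdense.induction_on (p := fun b => star (Seq.of (s i)) * Seq.const b * Seq.of (s j) =
      if i = j then Seq.const b * e else 0) b (isClosed_eq
        ((continuous_const.mul (shom_continuous Seq.const)).mul continuous_const) ?_) (r6 i j)
    split_ifs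
    · exact (shom_continuous Seq.const).mul continuous_const
    · exact continuous_const
  refine ⟨Seq.of P, fun i => Seq.of (s i), r2', r1, r3, fun i => ⟨r4 i, r5 i, ?_⟩, r6'⟩
  intro b
  set t := Seq.of (s i) with ht
  set B := Seq.const b with hB
  have q : ∀ y, star t * Seq.const y * t = Seq.const y * e := fun y => by
    have := r6' i i y
    rwa [if_pos rfl] at this
  have q1 : star t * t = e := by
    have := q 1
    rwa [map_one, mul_one, one_mul] at this
  have hBs : star B = Seq.const (star b) := (map_star _ _).symm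
  have z : star (B * t - t * B) * (B * t - t * B) = 0 := by
    have e1 : star (B * t - t * B) * (B * t - t * B) =
        star t * (star B * B) * t - (star t * star B * t) * B - star B * (star t * B * t) +
          star B * (star t * t) * B := by
      rw [star_sub, star_mul, star_mul]
      noncomm_ring
    rw [e1, q1, q b, hBs, q (star b), hB, ← map_mul, q (star b * b), map_mul]
    have e2 : e * Seq.const b = Seq.const b * e := (he b).eq.symm
    rw [mul_assoc (Seq.const (star b)) e (Seq.const b), e2]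
    noncomm_ring
  have z' : B * t - t * B = 0 := CStarRing.star_mul_self_eq_zero_iff _ |>.1 z
  exact sub_eq_zero.1 z'

end Pool.Agent.Lib.EJS
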