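import Pool.Agent.Lib.EJS.SIUnder

/-!
# Part SI: excision (SI1)

PROOF.  (`u = uf`, `g = gf`, `v = vf`; all imports are black boxes.)
(b) ONE element `b`, `δ > 0`: there are `q` and `lam` with `lam q^2 ≤ q b q ≤ (lam + δ) q^2`, `‖q‖ = 1`, `u(p) q = q`.
Let `Λ = {lam | ∃ q ≥ 0, ‖q‖ = 1, u(p) q = q, lam q^2 ≤ q b q}`.  It contains `-‖b‖` (`q = g(p)`, `norm_gf`, `uf_mul_gf`;
`-‖b‖ ≤ b`) and is bounded above by `‖b‖` (`lam q^2 ≤ q b q ≤ ‖b‖ q^2`, `q^2 ≠ 0`).  Let `δ' = δ / 4`, `lam₀ = sup Λ`,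
`lam ∈ Λ`, `lam > lam₀ - δ'`, with witness `q`.
CLAIM: `‖q' (b - lam) q'‖ ≤ δ'` for all `q' ≥ 0`, `‖q'‖ ≤ 1`, `u(q) q' = q'`.  By `hered_ge` `x := q' (b - lam) q' ≥ 0`.  Let
`c = ‖x‖ > δ'`, `0 < η < c - δ'`, `q'' = cfc (bumpf c η) x` (`norm_bump`, `norm_mem_spec`): `q'' x q'' ≥ (c-η) q''^2`.  `y := q' q''`:
`y* (b - lam) y = q'' x q'' ≥ (c-η) q''^2 ≥ (c-η) y* y` since `q'^2 ≤ 1`; `y ≠ 0` (else `(c-η) q''^2 ≤ 0`).  `z := y y* ≥ 0`,
`z (b - lam) z = y (y* (b-lam) y) y* ≥ (c-η) y y* y y* = (c-η) z^2`, `z ≠ 0`, `u(p) z = z` (`under_trans` gives `u(p) q' = q'`).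
So `z / ‖z‖` shows `lam + c - η ∈ Λ`, `lam + c - η ≤ lam₀ < lam + δ'`, contradiction.
Now `q₁ = g(q)`, `q₂ = g(q₁)`: norm one, `u(q) q₁ = q₁`, `u(q₁) q₂ = q₂`; `u(q) q₂ = q₂` by `under_trans`, `lam q₂^2 ≤ q₂ b q₂`
by `hered_ge`, and `q₂ (b-lam) q₂ = q₂ u(q₁) (b-lam) u(q₁) q₂`, `‖u(q₁) (b-lam) u(q₁)‖ = ‖v(q₁) q₁ (b-lam) q₁ v(q₁)‖ ≤ 4 δ'`, so
`q₂ (b-lam) q₂ ≤ 4 δ' q₂^2`.
(c) Several elements: induction on `n`: if `q` works for `b_1..b_n` under `p`, apply (b) to `b_{n+1}` under `q`; the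
inequalities for `b_1..b_n` persist by `hered_ge`, `hered_le`, and `u(p) q' = q'` by `under_trans`.
-/

open scoped ComplexOrder

namespace Pool.Agent.Lib.EJS

variable {E : Type*} [CStarAlgebra E] [PartialOrder E] [StarOrderedRing E]

namespace SIExcAux

theorem conj_le {q a b : E} (hq : star q = q) (h : a ≤ b) : q * a * q ≤ q * b * q := by
  have := star_left_conjugate_le_conjugate h q
  rwa [hq] at this

theorem sq_nonneg' {q : E} (hq : star q = q) : 0 ≤ q * q := by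
  have := star_mul_self_nonneg q
  rwa [hq] at this

omit [PartialOrder E] [StarOrderedRing E] in
theorem norm_sq' {q : E} (hq : star q = q) : ‖q * q‖ = ‖q‖ * ‖q‖ := by
  have := CStarRing.norm_star_mul_self (x := q)
  rwa [hq] at this

theorem zero_of_le {q : E} (hq : star q = q) {c : ℝ} (hc : 0 < c) (h : c • (q * q) ≤ 0) :
    q = 0 := by
  have h1 : 0 ≤ c • (q * q) := smul_nonneg hc.le (sq_nonneg' hq)
  have h2 : c • (q * q) = 0 := le_antisymm h h1
  have h3 : q * q = 0 := (smul_eq_zero.1 h2).resolve_left hc.ne'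
  have h4 := norm_sq' hq
  rw [h3, norm_zero] at h4
  exact norm_eq_zero.1 (mul_self_eq_zero.1 h4.symm)

theorem sq_le_one {q : E} (hq : star q = q) (h : ‖q‖ ≤ 1) : q * q ≤ 1 := by
  refine (CStarAlgebra.norm_le_one_iff_of_nonneg _ (sq_nonneg' hq)).1 ?_
  rw [norm_sq' hq]
  exact mul_le_one₀ h (norm_nonneg _) h

/-- the set of constants -/
def Lam (p b : E) : Set ℝ :=
  {lam | ∃ q : E, 0 ≤ q ∧ ‖q‖ = 1 ∧ cfc uf p * q = q ∧ lam • (q * q) ≤ q * b * q}

theorem star_of {q : E} (hq : 0 ≤ q) : star q = q := (IsSelfAdjoint.of_nonneg hq).star_eq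

theorem le_norm_conj {q b : E} (hq : star q = q) (hb : IsSelfAdjoint b) :
    q * b * q ≤ ‖b‖ • (q * q) := by
  have h1 := conj_le hq (IsSelfAdjoint.le_algebraMap_norm_self hb)
  rwa [Algebra.algebraMap_eq_smul_one, mul_smul_comm, mul_one, smul_mul_assoc] at h1

theorem neg_norm_conj {q b : E} (hq : star q = q) (hb : IsSelfAdjoint b) :
    (-‖b‖) • (q * q) ≤ q * b * q := by
  have h1 := conj_le hq (IsSelfAdjoint.neg_algebraMap_norm_le_self hb)
  rwa [Algebra.algebraMap_eq_smul_one, mul_neg, mul_smul_comm, mul_one, neg_mul, smul_mul_assoc,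
    ← neg_smul] at h1

theorem claim {p b q q' : E} (hb : IsSelfAdjoint b) {lam δ : ℝ} (hδ : 0 < δ)
    (hbdd : BddAbove (Lam p b)) (hlam : sSup (Lam p b) < lam + δ)
    (hq : 0 ≤ q) (hpq : cfc uf p * q = q) (hl : lam • (q * q) ≤ q * b * q)
    (hq' : 0 ≤ q') (hq'1 : ‖q'‖ ≤ 1) (hqq' : cfc uf q * q' = q') :
    ‖q' * b * q' - lam • (q' * q')‖ ≤ δ := by
  have hs' := star_of hq'
  by_contra hcon
  push Not at hcon
  set x := q' * b * q' - lam • (q' * q') with hx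
  have hx0 : 0 ≤ x := sub_nonneg.2 (hered_ge hq hqq' hs' hl)
  have hxs : IsSelfAdjoint x := IsSelfAdjoint.of_nonneg hx0
  set c := ‖x‖ with hc
  have : Nontrivial E := nontrivial_of_norm (p := x) (by linarith)
  set η := (c - δ) / 2 with hη
  have hη0 : 0 < η := by
    rw [hη]
    linarith
  have hcη : 0 < c - η := by
    rw [hη]
    linarith
  have hspec := norm_mem_spec hx0
  set k := cfc (bumpf c η) x with hk
  have hk0 : 0 ≤ k := bump_nonneg c hη0 x
  have hks := star_of hk0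
  have hk1 : ‖k‖ = 1 := norm_bump hxs hη0 hspec.1 (fun t ht => (hspec.2 t ht).2)
  have hkx : (c - η) • (k * k) ≤ k * x * k := bump_mul_ge hxs c hη0
  -- `y = q' k`
  have e1 : k * x * k = (k * q') * b * (q' * k) - lam • ((k * q') * (q' * k)) := by
    rw [hx, mul_sub, sub_mul, mul_smul_comm, smul_mul_assoc]
    noncomm_ring
  have hy1 : (c - η) • ((k * q') * (q' * k)) ≤ (c - η) • (k * k) := by
    refine smul_le_smul_of_nonneg_left ?_ hcη.le
    have h1 := conj_le hks (sq_le_one hs' hq'1)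
    rw [mul_one] at h1
    have h2 : k * (q' * q') * k = (k * q') * (q' * k) := by noncomm_ring
    rwa [h2] at h1
  have hy2 : (lam + (c - η)) • ((k * q') * (q' * k)) ≤ (k * q') * b * (q' * k) := by
    have h1 := hy1.trans hkx
    rw [e1, le_sub_iff_add_le, ← add_smul] at h1
    rwa [add_comm lam]
  set y := q' * k with hy
  have hys : star y = k * q' := by rw [hy, star_mul, hks, hs']
  rw [← hys] at hy2 e1
  have hy0 : y ≠ 0 := by
    intro h0
    rw [e1, h0, star_zero, zero_mul, zero_mul, smul_zero, sub_zero] at hkx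
    have h1 := zero_of_le hks hcη hkx
    rw [h1, norm_zero] at hk1
    exact zero_ne_one hk1
  set z := y * star y with hz
  have hz0 : 0 ≤ z := mul_star_self_nonneg y
  have hzs := star_of hz0
  have hzn : ‖z‖ ≠ 0 := by
    rw [hz, CStarRing.norm_self_mul_star]
    exact mul_self_ne_zero.2 (norm_ne_zero_iff.2 hy0)
  have hzpos : 0 < ‖z‖ := lt_of_le_of_ne (norm_nonneg _) hzn.symm
  have hzb : (lam + (c - η)) • (z * z) ≤ z * b * z := by
    have h1 := star_right_conjugate_le_conjugate hy2 y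
    have h2 : y * ((lam + (c - η)) • (star y * y)) * star y = (lam + (c - η)) • (z * z) := by
      rw [mul_smul_comm, smul_mul_assoc, hz]
      congr 1
      noncomm_ring
    have h3 : y * (star y * b * y) * star y = z * b * z := by
      rw [hz]
      noncomm_ring
    rwa [h2, h3] at h1
  have hpz : cfc uf p * z = z := by
    have h1 := under_trans hq hpq hqq'
    have h2 : z = q' * (k * star y) := by
      rw [hz, hy]
      noncomm_ring
    rw [h2, ← mul_assoc, h1]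
  set w := ‖z‖⁻¹ • z with hw
  have hmem : lam + (c - η) ∈ Lam p b := by
    refine ⟨w, smul_nonneg (inv_nonneg.2 (norm_nonneg _)) hz0, ?_, ?_, ?_⟩
    · rw [hw, norm_smul, norm_inv, norm_norm]
      exact inv_mul_cancel₀ hzn
    · rw [hw, mul_smul_comm, hpz]
    · have h1 := smul_le_smul_of_nonneg_left hzb (show 0 ≤ ‖z‖⁻¹ * ‖z‖⁻¹ by positivity)
      have h2 : (‖z‖⁻¹ * ‖z‖⁻¹) • (lam + (c - η)) • (z * z) = (lam + (c - η)) • (w * w) := by
        rw [hw, smul_mul_smul_comm, smul_comm]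
      have h3 : (‖z‖⁻¹ * ‖z‖⁻¹) • (z * b * z) = w * b * w := by
        rw [hw, smul_mul_assoc, smul_mul_smul_comm]
      rwa [h2, h3] at h1
  have h1 := le_csSup hbdd hmem
  rw [hη] at h1
  linarith

theorem one_elt {p : E} (hp : 0 ≤ p) (hp1 : ‖p‖ = 1) {b : E} (hb : IsSelfAdjoint b) {δ : ℝ}
    (hδ : 0 < δ) : ∃ (q : E) (lam : ℝ), 0 ≤ q ∧ ‖q‖ = 1 ∧ cfc uf p * q = q ∧
      lam • (q * q) ≤ q * b * q ∧ q * b * q ≤ (lam + δ) • (q * q) := by
  have hne : (Lam p b).Nonempty :=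
    ⟨-‖b‖, cfc gf p, gf_nonneg p, norm_gf hp hp1, uf_mul_gf hp,
      neg_norm_conj (star_of (gf_nonneg p)) hb⟩
  have hbdd : BddAbove (Lam p b) := by
    refine ⟨‖b‖, ?_⟩
    rintro lam ⟨q, hq, hq1, _, hl⟩
    by_contra hcon
    push Not at hcon
    have hs := star_of hq
    have h1 := hl.trans (le_norm_conj hs hb)
    have h2 : (lam - ‖b‖) • (q * q) ≤ 0 := by
      rw [sub_smul, sub_nonpos]
      exact h1
    have h3 := zero_of_le hs (sub_pos.2 hcon) h2
    rw [h3, norm_zero] at hq1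
    exact zero_ne_one hq1
  obtain ⟨lam, ⟨q, hq, hq1, hpq, hl⟩, hlt⟩ :=
    exists_lt_of_lt_csSup hne (show sSup (Lam p b) - δ / 4 < sSup (Lam p b) by linarith)
  have hlam : sSup (Lam p b) < lam + δ / 4 := by linarith
  set q1 := cfc gf q with hq1'
  have h10 : 0 ≤ q1 := gf_nonneg q
  have h11 : ‖q1‖ = 1 := norm_gf hq hq1
  have h12 : cfc uf q * q1 = q1 := uf_mul_gf hq
  set q2 := cfc gf q1 with hq2'
  have h20 : 0 ≤ q2 := gf_nonneg q1
  have h21 : ‖q2‖ = 1 := norm_gf h10 h11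
  have h22 : cfc uf q1 * q2 = q2 := uf_mul_gf h10
  have h23 : cfc uf q * q2 = q2 := under_trans h10 h12 h22
  have hs2 := star_of h20
  refine ⟨q2, lam, h20, h21, under_trans hq hpq h23, hered_ge hq h23 hs2 hl, ?_⟩
  have hcl := claim hb (by positivity : 0 < δ / 4) hbdd hlam hq hpq hl h10 h11.le h12
  set x := q1 * b * q1 - lam • (q1 * q1) with hx
  obtain ⟨hu1, hu2⟩ := uf_eq h10
  set v := cfc vf q1 with hv
  have hvn : ‖v‖ ≤ 2 := norm_vf_le h10
  have hvs : star v = v := (cfc_predicate vf q1 : IsSelfAdjoint _)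
  have hus : star (cfc uf q1) = cfc uf q1 := (cfc_predicate uf q1 : IsSelfAdjoint _)
  have h24 : q2 * cfc uf q1 = q2 := by
    have := congrArg star h22
    rwa [star_mul, hs2, hus] at this
  have hxs : star x = x := by
    rw [hx, star_sub, star_mul, star_mul, star_smul, star_mul, star_of h10, hb.star_eq]
    simp only [star_trivial]
    noncomm_ring
  have hm : star (v * x * v) = v * x * v := by
    rw [star_mul, star_mul, hvs, hxs, mul_assoc]
  have hmn : ‖v * x * v‖ ≤ δ := by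
    calc ‖v * x * v‖ ≤ ‖v‖ * ‖x‖ * ‖v‖ := norm_mul₃_le
      _ ≤ 2 * (δ / 4) * 2 := by gcongr
      _ = δ := by ring
  have h3 := le_norm_conj hs2 hm
  have h4 : ‖v * x * v‖ • (q2 * q2) ≤ δ • (q2 * q2) :=
    smul_le_smul_of_nonneg_right hmn (sq_nonneg' hs2)
  have h5 : q2 * (v * x * v) * q2 = q2 * b * q2 - lam • (q2 * q2) := by
    have e1 : q2 * (v * x * v) * q2 = (q2 * (v * q1)) * b * ((q1 * v) * q2) -
        lam • ((q2 * (v * q1)) * ((q1 * v) * q2)) := by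
      rw [hx, mul_sub, sub_mul, mul_sub, sub_mul, mul_smul_comm, smul_mul_assoc, mul_smul_comm,
        smul_mul_assoc]
      noncomm_ring
    rw [e1, ← hu1, ← hu2, h24, h22]
  rw [h5] at h3
  have h6 := h3.trans h4
  rw [sub_le_iff_le_add, ← add_smul, add_comm δ] at h6
  exact h6

end SIExcAux

open SIExcAux

theorem excision {p : E} (hp : 0 ≤ p) (hp1 : ‖p‖ = 1) {n : ℕ} (b : Fin n → E)
    (hb : ∀ i, IsSelfAdjoint (b i)) {δ : ℝ} (hδ : 0 < δ) :
    ∃ (q : E) (lam : Fin n → ℝ), 0 ≤ q ∧ ‖q‖ = 1 ∧ cfc uf p * q = q ∧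
      ∀ i, lam i • (q * q) ≤ q * b i * q ∧ q * b i * q ≤ (lam i + δ) • (q * q) := by
  induction n with
  | zero =>
    exact ⟨cfc gf p, fun i => i.elim0, gf_nonneg p, norm_gf hp hp1, uf_mul_gf hp,
      fun i => i.elim0⟩
  | succ n ih =>
    obtain ⟨q, lam, hq, hq1, hpq, h⟩ := ih (fun i => b i.castSucc) (fun i => hb _)
    obtain ⟨q', mu, hq', hq'1, hqq', h1, h2⟩ := one_elt hq hq1 (hb (Fin.last n)) hδ
    have hs' := IsSelfAdjoint.of_nonneg hq'
    refine ⟨q', Fin.snoc (α := fun _ => ℝ) lam mu, hq', hq'1, under_trans hq hpq hqq', fun i => ?_⟩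
    induction i using Fin.lastCases with
    | last =>
      rw [Fin.snoc_last]
      exact ⟨h1, h2⟩
    | cast i =>
      rw [Fin.snoc_castSucc]
      exact ⟨hered_ge hq hqq' hs' (h i).1, hered_le hq hqq' hs' (h i).2⟩

end Pool.Agent.Lib.EJS
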