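import Pool.Agent.Lib.EJS.SIDefs

/-!
# Part SI: functional calculus with `uf`, `gf`, `vf` and the bump functions

PROOFS.  All statements are pointwise (in)equalities of the functions `uf`, `gf`, `vf`, `bumpf` on
the spectrum (contained in `[0, ‖p‖]` for `0 ≤ p`, `spectrum_nonneg_of_nonneg`), transported by
`cfc_mul`, `cfc_congr`, `cfc_mono`, `norm_cfc_le`, `cfc_map_spectrum`, `IsGreatest` facts:
`uf t * gf t = gf t`, `uf t = t * vf t`, `0 ≤ uf t ≤ 1`, `0 ≤ vf t ≤ 2` for `t ≥ 0`.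
`norm_gf`: `1 = ‖p‖` is in the spectrum of `p` (`norm_mem_spectrum`: for a positive element the norm is in
the spectrum, e.g. `CStarAlgebra.norm_mem_spectrum_of_nonneg`), `gf 1 = 1`, so the norm of `cfc gf p` is at
least `|gf 1| = 1` (`apply_le_nnnorm_cfc`/`norm_apply_le_norm_cfc`) and at most `1`.
`gf_ne_zero`: `gf ‖p‖ > 0` and again `norm_apply_le_norm_cfc`.
`bump`: on the spectrum `0 ≤ bumpf c η t ≤ 1`, `bumpf c η c = 1`; `t * f(t)^2 ≥ (c-η) f(t)^2` and
`t * f(t) ≥ (c-η) f(t)` since `f(t) ≠ 0` only for `t > c-η`.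
-/

open scoped ComplexOrder

namespace Pool.Agent.Lib.EJS

variable {E : Type*} [CStarAlgebra E] [PartialOrder E] [StarOrderedRing E]

theorem spec_bds {p : E} (hp : 0 ≤ p) : ∀ t ∈ spectrum ℝ p, 0 ≤ t ∧ t ≤ ‖p‖ := by
  intro t ht
  rcases subsingleton_or_nontrivial E with h | h
  · rw [spectrum.of_subsingleton] at ht
    exact absurd ht (Set.notMem_empty t)
  · refine ⟨spectrum_nonneg_of_nonneg hp ht, ?_⟩
    have := spectrum.norm_le_norm_of_mem ht
    exact (Real.le_norm_self t).trans this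

theorem norm_mem_spec [Nontrivial E] {p : E} (hp : 0 ≤ p) :
    ‖p‖ ∈ spectrum ℝ p ∧ ∀ t ∈ spectrum ℝ p, 0 ≤ t ∧ t ≤ ‖p‖ :=
  ⟨CStarAlgebra.norm_mem_spectrum_of_nonneg hp, spec_bds hp⟩

theorem uf_nonneg {p : E} (hp : 0 ≤ p) : 0 ≤ cfc uf p := by
  refine cfc_nonneg fun t ht => ?_
  have := (spec_bds hp t ht).1
  exact le_min zero_le_one (by linarith)

theorem uf_le_one {p : E} (hp : 0 ≤ p) : cfc uf p ≤ 1 ∧ ‖cfc uf p‖ ≤ 1 := by
  refine ⟨cfc_le_one _ _ fun t _ => min_le_left _ _, norm_cfc_le zero_le_one fun t ht => ?_⟩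
  have := (spec_bds hp t ht).1
  rw [Real.norm_eq_abs, abs_of_nonneg (le_min zero_le_one (by linarith))]
  exact min_le_left _ _

theorem gf_nonneg (p : E) : 0 ≤ cfc gf p :=
  cfc_nonneg fun _ _ => le_max_left _ _

theorem gf_le_one {p : E} (hp : 0 ≤ p) (hp1 : ‖p‖ ≤ 1) : cfc gf p ≤ 1 ∧ ‖cfc gf p‖ ≤ 1 := by
  have h1 : ∀ t ∈ spectrum ℝ p, gf t ≤ 1 := fun t ht => by
    have := (spec_bds hp t ht).2
    exact max_le zero_le_one (by linarith)
  refine ⟨cfc_le_one _ _ h1, norm_cfc_le zero_le_one fun t ht => ?_⟩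
  rw [Real.norm_eq_abs, abs_of_nonneg (le_max_left _ _)]
  exact h1 t ht

theorem norm_vf_le {p : E} (hp : 0 ≤ p) : ‖cfc vf p‖ ≤ 2 := by
  refine norm_cfc_le zero_le_two fun t _ => ?_
  unfold vf
  have h1 : (0 : ℝ) < max t (1 / 2) := lt_max_of_lt_right (by norm_num)
  rw [Real.norm_eq_abs, abs_of_pos (inv_pos.2 h1)]
  have h2 : (1 / 2 : ℝ) ≤ max t (1 / 2) := le_max_right _ _
  calc (max t (1 / 2))⁻¹ ≤ (1 / 2 : ℝ)⁻¹ := inv_anti₀ (by norm_num) h2
    _ = 2 := by norm_num

theorem uf_mul_gf {p : E} (hp : 0 ≤ p) : cfc uf p * cfc gf p = cfc gf p := by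
  rw [← cfc_mul uf gf p continuous_uf.continuousOn continuous_gf.continuousOn]
  refine cfc_congr fun t _ => ?_
  show uf t * gf t = gf t
  rcases le_total t (1 / 2) with h | h
  · have : gf t = 0 := max_eq_left (by linarith)
    rw [this, mul_zero]
  · have : uf t = 1 := min_eq_left (by linarith)
    rw [this, one_mul]

theorem uf_eq_mul (t : ℝ) : uf t = t * vf t := by
  unfold uf vf
  rcases le_total t (1 / 2) with h | h
  · rw [min_eq_right (by linarith), max_eq_right h]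
    norm_num
    ring
  · rw [min_eq_left (by linarith), max_eq_left h, mul_inv_cancel₀ (by linarith)]

theorem uf_eq {p : E} (hp : 0 ≤ p) : cfc uf p = p * cfc vf p ∧ cfc uf p = cfc vf p * p := by
  have hsa : IsSelfAdjoint p := IsSelfAdjoint.of_nonneg hp
  have h1 : cfc uf p = p * cfc vf p := by
    have h2 : cfc uf p = cfc (fun t : ℝ => t * vf t) p :=
      cfc_congr fun t ht => uf_eq_mul t
    rw [h2, cfc_mul (fun t : ℝ => t) vf p continuousOn_id continuous_vf.continuousOn, cfc_id' ℝ p]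
  refine ⟨h1, ?_⟩
  have h3 : Commute p (cfc vf p) := by
    have h := cfc_commute_cfc (id : ℝ → ℝ) vf p
    rwa [cfc_id ℝ p hsa] at h
  rw [h1]
  exact h3

theorem nontrivial_of_norm {p : E} (h : 0 < ‖p‖) : Nontrivial E :=
  ⟨p, 0, fun h0 => by rw [h0, norm_zero] at h; exact lt_irrefl _ h⟩

theorem norm_gf {p : E} (hp : 0 ≤ p) (hp1 : ‖p‖ = 1) : ‖cfc gf p‖ = 1 := by
  have : Nontrivial E := nontrivial_of_norm (p := p) (by rw [hp1]; exact one_pos)
  refine le_antisymm (gf_le_one hp hp1.le).2 ?_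
  have h1 := norm_apply_le_norm_cfc gf p (norm_mem_spec hp).1 continuous_gf.continuousOn
    (IsSelfAdjoint.of_nonneg hp)
  rw [hp1] at h1
  refine le_trans ?_ h1
  unfold gf
  norm_num

theorem gf_ne_zero {p : E} (hp : 0 ≤ p) (h : 1 / 2 < ‖p‖) : cfc gf p ≠ 0 := by
  have : Nontrivial E := nontrivial_of_norm (p := p) (by linarith)
  intro h0
  have h1 := norm_apply_le_norm_cfc gf p (norm_mem_spec hp).1 continuous_gf.continuousOn
    (IsSelfAdjoint.of_nonneg hp)
  rw [h0, norm_zero] at h1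
  have h2 : 0 < gf ‖p‖ := lt_max_of_lt_right (by linarith)
  rw [Real.norm_eq_abs, abs_of_pos h2] at h1
  linarith

theorem bump_nonneg (c : ℝ) {η : ℝ} (hη : 0 < η) (b : E) : 0 ≤ cfc (bumpf c η) b :=
  cfc_nonneg fun _ _ => div_nonneg (le_max_left _ _) hη.le

theorem bump_comm (c η : ℝ) (b : E) : Commute (cfc (bumpf c η) b) b := by
  by_cases hb : IsSelfAdjoint b
  · have h := cfc_commute_cfc (bumpf c η) (id : ℝ → ℝ) b
    rwa [cfc_id ℝ b hb] at h
  · rw [cfc_apply_of_not_predicate b hb]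
    exact Commute.zero_left b

theorem norm_bump {b : E} (hb : IsSelfAdjoint b) {c η : ℝ} (hη : 0 < η) (hc : c ∈ spectrum ℝ b)
    (hm : ∀ t ∈ spectrum ℝ b, t ≤ c) : ‖cfc (bumpf c η) b‖ = 1 := by
  refine le_antisymm ?_ ?_
  · refine norm_cfc_le zero_le_one fun t ht => ?_
    have h0 : 0 ≤ bumpf c η t := div_nonneg (le_max_left _ _) hη.le
    rw [Real.norm_eq_abs, abs_of_nonneg h0]
    unfold bumpf
    rw [div_le_one hη]
    have := hm t ht
    exact max_le hη.le (by linarith)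
  · have h1 := norm_apply_le_norm_cfc (bumpf c η) b hc (continuous_bumpf c η).continuousOn hb
    refine le_trans ?_ h1
    unfold bumpf
    rw [sub_sub_cancel, max_eq_right hη.le, div_self hη.ne', norm_one]

theorem bumpf_ge (c : ℝ) {η : ℝ} (hη : 0 < η) (t : ℝ) :
    (c - η) * bumpf c η t ≤ t * bumpf c η t := by
  rcases le_total t (c - η) with h | h
  · have : bumpf c η t = 0 := by
      unfold bumpf
      rw [max_eq_left (by linarith), zero_div]
    rw [this, mul_zero, mul_zero]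
  · exact mul_le_mul_of_nonneg_right h (div_nonneg (le_max_left _ _) hη.le)

theorem bump_mul_ge {b : E} (hb : IsSelfAdjoint b) (c : ℝ) {η : ℝ} (hη : 0 < η) :
    (c - η) • (cfc (bumpf c η) b * cfc (bumpf c η) b) ≤
      cfc (bumpf c η) b * b * cfc (bumpf c η) b := by
  have hf := (continuous_bumpf c η).continuousOn (s := spectrum ℝ b)
  have h1 : (c - η) • (cfc (bumpf c η) b * cfc (bumpf c η) b) =
      cfc (fun t => (c - η) • (bumpf c η t * bumpf c η t)) b := by
    rw [cfc_smul (c - η) (fun t => bumpf c η t * bumpf c η t) b (hf.mul hf),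
      cfc_mul (bumpf c η) (bumpf c η) b hf hf]
  have h2 : cfc (bumpf c η) b * b * cfc (bumpf c η) b =
      cfc (fun t => bumpf c η t * t * bumpf c η t) b := by
    rw [cfc_mul (fun t => bumpf c η t * t) (bumpf c η) b (hf.mul continuousOn_id) hf,
      cfc_mul (bumpf c η) (fun t => t) b hf continuousOn_id, cfc_id' ℝ b]
  rw [h1, h2]
  have hc1 : ContinuousOn (fun t => (c - η) • (bumpf c η t * bumpf c η t)) (spectrum ℝ b) :=
    (hf.mul hf).const_smul (c - η)
  refine cfc_mono (fun t _ => ?_) hc1 ((hf.mul continuousOn_id).mul hf)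
  have h3 := bumpf_ge c hη t
  have h4 : 0 ≤ bumpf c η t := div_nonneg (le_max_left _ _) hη.le
  have h5 := mul_le_mul_of_nonneg_right h3 h4
  rw [smul_eq_mul]
  calc (c - η) * (bumpf c η t * bumpf c η t) = (c - η) * bumpf c η t * bumpf c η t := by ring
    _ ≤ t * bumpf c η t * bumpf c η t := h5
    _ = bumpf c η t * t * bumpf c η t := by ring

theorem bump_ge {b : E} (hb : IsSelfAdjoint b) (c : ℝ) {η : ℝ} (hη : 0 < η) :
    (c - η) • cfc (bumpf c η) b ≤ b * cfc (bumpf c η) b := by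
  have hf := (continuous_bumpf c η).continuousOn (s := spectrum ℝ b)
  have h1 : (c - η) • cfc (bumpf c η) b = cfc (fun t => (c - η) • bumpf c η t) b := by
    rw [cfc_smul (c - η) (bumpf c η) b hf]
  have h2 : b * cfc (bumpf c η) b = cfc (fun t => t * bumpf c η t) b := by
    rw [cfc_mul (fun t => t) (bumpf c η) b continuousOn_id hf, cfc_id' ℝ b]
  rw [h1, h2]
  have hc1 : ContinuousOn (fun t => (c - η) • bumpf c η t) (spectrum ℝ b) :=
    hf.const_smul (c - η)
  exact cfc_mono (fun t _ => bumpf_ge c hη t) hc1 (continuousOn_id.mul hf)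

end Pool.Agent.Lib.EJS
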