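import Mathlib

/-!
# Part SI: separation in a finite dimensional space

PROOF.  Let `C := closure (convexHull ℝ ({0} ∪ {k • σ | σ ∈ S}))` in the finite dimensional real normed space `J → ℂ`.
CLAIM `T ∈ C`.  Otherwise `geometric_hahn_banach_closed_point` gives a continuous real linear `f` and `u` with `f x < u` for
`x ∈ C` and `u < f T =: v`; `u > f 0 = 0`.  There is `Λ : J → ℂ` with `f x = Re (∑ j, Λ j * x j)` (`Λ j = f (single j 1) - i f (single j i)`).
With `r := (u + v) / (2k)`: `0 ≤ r` and `k r = (u+v)/2 < v`, so for `ε := (v-u)/(4k)` the hypothesis gives `σ ∈ S` with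
`Re (∑ Λ σ) ≥ r - ε`, so `f (k • σ) ≥ k (r - ε) = (3u + v)/4 > u`, contradiction.
Now approximate `T` by an element of the convex hull: `∑ w_i y_i` (`w_i ≥ 0`, `∑ w_i = 1`, `y_i = 0` or `y_i = k • σ_i`, `mem_convexHull_iff_exists_fintype` or
`convexHull_eq`); keep the indices with `y_i = k • σ_i` and put `t = k w_i`.  The sup norm on `J → ℂ` gives the bound for every `j`.
-/

open Filter Topology

namespace Pool.Agent.Lib.EJS

theorem hull_form {J : Type*} [Fintype J] (f : (J → ℂ) →L[ℝ] ℝ) :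
    ∃ Λ : J → ℂ, ∀ x : J → ℂ, f x = (∑ j, Λ j * x j).re := by
  classical
  refine ⟨fun j => (f (Pi.single j 1) : ℂ) - (f (Pi.single j Complex.I) : ℂ) * Complex.I,
    fun x => ?_⟩
  have h1 : ∀ j : J, (Pi.single j (x j) : J → ℂ) =
      (x j).re • (Pi.single j (1 : ℂ) : J → ℂ) + (x j).im • (Pi.single j Complex.I : J → ℂ) := by
    intro j
    funext i
    by_cases hij : i = j
    · subst hij
      simp only [Pi.single_eq_same, Pi.add_apply, Pi.smul_apply, Complex.real_smul, mul_one]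
      exact (Complex.re_add_im (x i)).symm
    · simp [Pi.single_eq_of_ne hij]
  have h2 : f x = ∑ j, f (Pi.single j (x j)) := by
    conv_lhs => rw [← Finset.univ_sum_single x]
    rw [map_sum]
  rw [h2, Complex.re_sum]
  refine Finset.sum_congr rfl fun j _ => ?_
  rw [h1 j, map_add, map_smul, map_smul]
  simp only [smul_eq_mul, Complex.mul_re, Complex.sub_re, Complex.sub_im, Complex.ofReal_re,
    Complex.ofReal_im, Complex.I_re, Complex.I_im, Complex.mul_im]
  ring

theorem hull {J : Type*} [Fintype J] (S : Set (J → ℂ)) (T : J → ℂ) {k : ℝ} (hk : 0 < k)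
    (h : ∀ (Λ : J → ℂ) (r : ℝ), 0 ≤ r → k * r < (∑ j, Λ j * T j).re → ∀ ε : ℝ, 0 < ε →
      ∃ σ ∈ S, r - ε ≤ (∑ j, Λ j * σ j).re) {ε : ℝ} (hε : 0 < ε) :
    ∃ (m : ℕ) (t : Fin m → ℝ) (σ : Fin m → J → ℂ), (∀ μ, 0 ≤ t μ) ∧ ∑ μ, t μ ≤ k ∧
      (∀ μ, σ μ ∈ S) ∧ ∀ j, ‖∑ μ, (t μ : ℂ) * σ μ j - T j‖ ≤ ε := by
  classical
  set B : Set (J → ℂ) := insert 0 ((fun σ : J → ℂ => k • σ) '' S) with hB
  have hT : T ∈ closure (convexHull ℝ B) := by
    by_contra hcon
    obtain ⟨f, u, hf, hu⟩ := geometric_hahn_banach_closed_point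
      (convex_convexHull ℝ B).closure isClosed_closure hcon
    have hmem : ∀ x ∈ B, f x < u := fun x hx =>
      hf x (subset_closure (subset_convexHull ℝ B hx))
    obtain ⟨Λ, hΛ⟩ := hull_form f
    have h0 : 0 < u := by
      have := hmem 0 (Set.mem_insert _ _)
      rwa [map_zero] at this
    have h1 : k * ((u + f T) / (2 * k)) = (u + f T) / 2 := by field_simp
    have h2 : k * ((f T - u) / (4 * k)) = (f T - u) / 4 := by field_simp
    obtain ⟨σ, hσ, hσ'⟩ := h Λ ((u + f T) / (2 * k)) (by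
      apply div_nonneg <;> linarith) (by
      rw [h1, ← hΛ]; linarith) ((f T - u) / (4 * k)) (div_pos (by linarith) (by linarith))
    have h3 := hmem (k • σ) (Set.mem_insert_of_mem _ ⟨σ, hσ, rfl⟩)
    rw [map_smul, smul_eq_mul] at h3
    rw [← hΛ] at hσ'
    have h4 := mul_le_mul_of_nonneg_left hσ' hk.le
    rw [mul_sub, h1, h2] at h4
    linarith
  obtain ⟨y, hy, hTy⟩ := Metric.mem_closure_iff.1 hT ε hε
  obtain ⟨ι, _, w, z, hw, hw1, hz, hsum⟩ := mem_convexHull_iff_exists_fintype.1 hy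
  let p : ι → Prop := fun i => ∃ σ ∈ S, z i = k • σ
  have hp : ∀ i, ¬ p i → z i = 0 := by
    intro i hi
    rcases hz i with h0 | ⟨σ, hσ, h1⟩
    · exact h0
    · exact absurd ⟨σ, hσ, h1.symm⟩ hi
  let σ' : {i // p i} → J → ℂ := fun i => i.2.choose
  have hσS : ∀ i, σ' i ∈ S := fun i => i.2.choose_spec.1
  have hσz : ∀ i : {i // p i}, z i = k • σ' i := fun i => i.2.choose_spec.2
  let e := Fintype.equivFin {i // p i}
  refine ⟨Fintype.card {i // p i}, fun μ => k * w (e.symm μ), fun μ => σ' (e.symm μ),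
    fun μ => mul_nonneg hk.le (hw _), ?_, fun μ => hσS _, fun j => ?_⟩
  · rw [Equiv.sum_comp e.symm (fun i : {i // p i} => k * w i), ← Finset.mul_sum]
    have h1 : ∑ i : {i // p i}, w i ≤ ∑ i, w i := by
      rw [← Finset.sum_subtype (Finset.univ.filter p) (by simp) w]
      exact Finset.sum_le_sum_of_subset_of_nonneg (Finset.filter_subset _ _) fun i _ _ => hw i
    nlinarith
  · have h1 : ∑ μ, ((k * w (e.symm μ) : ℝ) : ℂ) * σ' (e.symm μ) j =
        ∑ i : {i // p i}, ((k * w i : ℝ) : ℂ) * σ' i j :=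
      Equiv.sum_comp e.symm (fun i : {i // p i} => ((k * w i : ℝ) : ℂ) * σ' i j)
    have h2 : ∑ i : {i // p i}, ((k * w i : ℝ) : ℂ) * σ' i j =
        ∑ i : {i // p i}, ((w i : ℝ) : ℂ) * z i j := by
      refine Finset.sum_congr rfl fun i _ => ?_
      rw [hσz i, Pi.smul_apply, Complex.real_smul]
      push_cast
      ring
    have h3 : ∑ i : {i // p i}, ((w i : ℝ) : ℂ) * z i j = ∑ i, ((w i : ℝ) : ℂ) * z i j := by
      rw [← Finset.sum_subtype (Finset.univ.filter p) (by simp)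
        (fun i => ((w i : ℝ) : ℂ) * z i j), Finset.sum_filter]
      refine Finset.sum_congr rfl fun i _ => ?_
      split_ifs with hi
      · rfl
      · rw [hp i hi]; simp
    have h4 : ∑ i, ((w i : ℝ) : ℂ) * z i j = y j := by
      rw [← hsum, Finset.sum_apply]
      refine Finset.sum_congr rfl fun i _ => ?_
      rw [Pi.smul_apply, Complex.real_smul]
    rw [h1, h2, h3, h4]
    have h5 : ‖(y - T) j‖ ≤ ‖y - T‖ := norm_le_pi_norm (y - T) j
    rw [Pi.sub_apply] at h5
    rw [dist_comm, dist_eq_norm] at hTy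
    linarith

end Pool.Agent.Lib.EJS
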