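import Pool.Agent.Lib.EJS.TSDefs

/-!
# TS4: the kernel of a completely positive contraction

PROOFS.  `cp_scalar`: in the definition of `CP` for `φ : A → Mat d` (if `d = 0` everything is `0`) take for
`b_i` the matrix with first column `ξ_i` (all other columns zero); the `(0,0)` entry of
`∑ b_i* φ(a_i* a_j) b_j` is the sum, and that of `star c * c` is `∑_k |c_k0|²`.

`cp_star`: `φ (star y * y)` is self-adjoint (it is `star c * c`; `CP` with `n = 1`, `b = 1`), hence `φ (star x * y)` and
`star (φ (star y * x))` agree by polarisation: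
`4 star x * y = ∑_{k<4} i^k star (x + i^k y)... ` (choose the version with `star (a) * a` terms); then `star 1 * x`.

`cp_one_le`: `φ 1` is self-adjoint with norm `≤ ‖1‖ ≤ 1`, so `⟨φ(1) ξ, ξ⟩ ≤ |ξ|²` (`φ 1 ≤ 1` in the C-star
algebra `Mat d`: `1 - φ 1 = star c * c`, then the first column trick again).

`ker_facts`: `0 ≤ K` is `cp_scalar`.  `K ≤ 1`: put `T = ∑ c_i c_i*` (`0 ≤ T ≤ 1`),
`h = cfc (fun t => 1 / (1 + √(1 - t))) T`, `y r i = (if r = i then 1 else 0) - star (c r) * h * c i`.  Then
`∑_r star (y r i) * y r j = (if i = j then 1 else 0) - star (c i) * c j`, because `2 h - h T h = 1`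
(`2 f - t f² = 1` for `f = 1 / (1 + √(1 - t))`, `t ≤ 1`).  So
`∑_ij ⟨φ(δ_ij - c_i* c_j) ξ_j, ξ_i⟩ = ∑_r ∑_ij ⟨φ(y_ri* y_rj) ξ_j, ξ_i⟩ ≥ 0` by `cp_scalar`, and `cp_one_le`.
Hermitian: `cp_star`.
-/

open scoped ComplexOrder

namespace Pool.Agent.Lib.EJS.TS

variable {A : Type*} [CStarAlgebra A] {d : ℕ}

namespace KerAux

/-- the sesquilinear form of a matrix -/
def Bf (x y : Fin d → ℂ) : Mat d →+ ℂ where
  toFun M := ∑ k, ∑ l, star (x k) * M k l * y l
  map_zero' := by
    refine Finset.sum_eq_zero fun k _ => Finset.sum_eq_zero fun l _ => ?_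
    rw [CStarMatrix.zero_apply, mul_zero, zero_mul]
  map_add' M N := by
    rw [← Finset.sum_add_distrib]
    refine Finset.sum_congr rfl fun k _ => ?_
    rw [← Finset.sum_add_distrib]
    refine Finset.sum_congr rfl fun l _ => ?_
    rw [CStarMatrix.add_apply]
    ring

/-- an entry -/
def ent (k l : Fin d) : Mat d →+ ℂ where
  toFun M := M k l
  map_zero' := rfl
  map_add' _ _ := rfl

theorem Bf_apply (x y : Fin d → ℂ) (M : Mat d) :
    Bf x y M = ∑ k, ∑ l, star (x k) * M k l * y l := rfl

theorem Bf_star_mul (x : Fin d → ℂ) (c : Mat d) : 0 ≤ (Bf x x (star c * c)).re := by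
  have h1 : Bf x x (star c * c) =
      ∑ m, star (∑ k, c m k * x k) * (∑ l, c m l * x l) := by
    rw [Bf_apply]
    have h2 : ∀ k l, star (x k) * (star c * c) k l * x l =
        ∑ m, star (c m k * x k) * (c m l * x l) := by
      intro k l
      rw [CStarMatrix.mul_apply, Finset.mul_sum, Finset.sum_mul]
      refine Finset.sum_congr rfl fun m _ => ?_
      rw [CStarMatrix.star_apply, star_mul']
      ring
    simp only [h2]
    have h3 : ∀ k, ∑ l, ∑ m, star (c m k * x k) * (c m l * x l) =
        ∑ m, star (c m k * x k) * ∑ l, c m l * x l := by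
      intro k
      rw [Finset.sum_comm]
      exact Finset.sum_congr rfl fun m _ => (Finset.mul_sum _ _ _).symm
    simp only [h3]
    rw [Finset.sum_comm]
    refine Finset.sum_congr rfl fun m _ => ?_
    rw [star_sum, Finset.sum_mul]
  rw [h1, Complex.re_sum]
  refine Finset.sum_nonneg fun m _ => ?_
  rw [Complex.star_def, mul_comm, Complex.mul_conj, Complex.ofReal_re]
  exact Complex.normSq_nonneg _

end KerAux

open KerAux in
theorem cp_scalar {φ : A →ₗ[ℂ] Mat d} (hφ : CP φ) {n : ℕ} (a : Fin n → A) (ξ : Fin n → Fin d → ℂ) :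
    0 ≤ (∑ i, ∑ j, ∑ k, ∑ l, star (ξ i k) * φ (star (a i) * a j) k l * ξ j l).re := by
  rcases d with _ | d
  · simp
  · obtain ⟨c, hc⟩ := hφ n a (fun i => CStarMatrix.ofMatrix fun k l => if l = 0 then ξ i k else 0)
    have e := congrArg (ent (0 : Fin (d + 1)) 0) hc
    rw [map_sum] at e
    simp only [map_sum] at e
    have e1 : ∀ i j, ent (0 : Fin (d + 1)) 0
        (star (CStarMatrix.ofMatrix fun k l => if l = 0 then ξ i k else 0 : Mat (d + 1)) *
          φ (star (a i) * a j) *
          (CStarMatrix.ofMatrix fun k l => if l = 0 then ξ j k else 0 : Mat (d + 1))) =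
        ∑ k, ∑ l, star (ξ i k) * φ (star (a i) * a j) k l * ξ j l := by
      intro i j
      change (star (CStarMatrix.ofMatrix fun k l => if l = 0 then ξ i k else 0 : Mat (d + 1)) *
          φ (star (a i) * a j) *
          (CStarMatrix.ofMatrix fun k l => if l = 0 then ξ j k else 0 : Mat (d + 1))) 0 0 = _
      rw [CStarMatrix.mul_apply, Finset.sum_comm]
      refine Finset.sum_congr rfl fun l _ => ?_
      rw [CStarMatrix.mul_apply, Finset.sum_mul]
      refine Finset.sum_congr rfl fun k _ => ?_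
      rw [CStarMatrix.star_apply]
      simp only [CStarMatrix.ofMatrix_apply, if_true]
    simp only [e1] at e
    rw [e]
    have e2 : ent (0 : Fin (d + 1)) 0 (star c * c) = ∑ m, star (c m 0) * c m 0 := by
      change (star c * c) 0 0 = _
      rw [CStarMatrix.mul_apply]
      exact Finset.sum_congr rfl fun m _ => by rw [CStarMatrix.star_apply]
    rw [e2, Complex.re_sum]
    refine Finset.sum_nonneg fun m _ => ?_
    rw [Complex.star_def, mul_comm, Complex.mul_conj, Complex.ofReal_re]
    exact Complex.normSq_nonneg _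

namespace KerAux

theorem cp_sa {B : Type*} [CStarAlgebra B] {φ : A →ₗ[ℂ] B} (hφ : CP φ) (y : A) :
    ∃ c : B, φ (star y * y) = star c * c := by
  obtain ⟨c, hc⟩ := hφ 1 (fun _ => y) (fun _ => 1)
  refine ⟨c, ?_⟩
  rw [← hc]
  simp

theorem cp_sa' {B : Type*} [CStarAlgebra B] {φ : A →ₗ[ℂ] B} (hφ : CP φ) (y : A) :
    star (φ (star y * y)) = φ (star y * y) := by
  obtain ⟨c, hc⟩ := cp_sa hφ y
  rw [hc, star_mul, star_star]

end KerAux

open KerAux in
theorem cp_star {B : Type*} [CStarAlgebra B] {φ : A →ₗ[ℂ] B} (hφ : CP φ) (x : A) :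
    φ (star x) = star (φ x) := by
  have a0 := cp_sa' hφ x
  have a1 := cp_sa' hφ (1 : A)
  have a2 := cp_sa' hφ (x + 1)
  have a3 := cp_sa' hφ (x + Complex.I • 1)
  have e2 : star (x + 1) * (x + 1) = star x * x + star x + x + star (1 : A) * 1 := by
    rw [star_add, star_one]
    noncomm_ring
  have e3 : star (x + Complex.I • 1) * (x + Complex.I • 1) =
      star x * x + Complex.I • (star x - x) + star (1 : A) * 1 := by
    rw [star_add, star_smul, star_one, add_mul, mul_add, mul_add, smul_mul_smul_comm, mul_one,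
      smul_mul_assoc, one_mul, mul_smul_comm, mul_one, Complex.star_def, Complex.conj_I,
      smul_sub, neg_mul, Complex.I_mul_I, neg_neg, one_smul, neg_smul]
    abel
  rw [e2, map_add, map_add, map_add, star_add, star_add, star_add, a0, a1] at a2
  rw [e3, map_add, map_add, star_add, star_add, a0, a1, map_smul, star_smul, map_sub, star_sub,
    Complex.star_def, Complex.conj_I, neg_smul, ← smul_neg] at a3
  have b2 : star (φ (star x)) + star (φ x) = φ (star x) + φ x := by
    have := a2
    have h := congrArg (fun z => z - φ (star x * x) - φ (star 1 * 1)) this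
    calc star (φ (star x)) + star (φ x) = φ (star x * x) + star (φ (star x)) + star (φ x) +
          φ (star 1 * 1) - φ (star x * x) - φ (star 1 * 1) := by abel
      _ = _ := h
      _ = _ := by abel
  have b3 : Complex.I • -(star (φ (star x)) - star (φ x)) = Complex.I • (φ (star x) - φ x) := by
    have h := congrArg (fun z => z - φ (star x * x) - φ (star 1 * 1)) a3
    calc Complex.I • -(star (φ (star x)) - star (φ x)) = φ (star x * x) +
          Complex.I • -(star (φ (star x)) - star (φ x)) +
          φ (star 1 * 1) - φ (star x * x) - φ (star 1 * 1) := by abel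
      _ = _ := h
      _ = _ := by abel
  have b4 : -(star (φ (star x)) - star (φ x)) = φ (star x) - φ x :=
    smul_right_injective B Complex.I_ne_zero b3
  have b5 : (2 : ℂ) • star (φ x) = (2 : ℂ) • φ (star x) := by
    rw [two_smul, two_smul]
    calc star (φ x) + star (φ x) = (star (φ (star x)) + star (φ x)) +
          -(star (φ (star x)) - star (φ x)) := by abel
      _ = _ := by rw [b2, b4]; abel
  exact (smul_right_injective B (two_ne_zero : (2 : ℂ) ≠ 0) b5).symm

namespace KerAux

theorem one_sub_gen {B : Type*} [CStarAlgebra B] {x c : B} (hc : x = star c * c) (hn : ‖x‖ ≤ 1) :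
    ∃ c : B, 1 - x = star c * c := by
  letI := CStarAlgebra.spectralOrder B
  haveI := CStarAlgebra.spectralOrderedRing B
  have h2 : 0 ≤ x := by
    rw [hc]
    exact star_mul_self_nonneg c
  have h4 : x ≤ 1 := (CStarAlgebra.norm_le_one_iff_of_nonneg _ h2).1 hn
  exact CStarAlgebra.nonneg_iff_eq_star_mul_self.1 (sub_nonneg.2 h4)

theorem one_sub_cp {φ : A →ₗ[ℂ] Mat d} (hφ : CP φ) (h1 : ∀ a, ‖φ a‖ ≤ ‖a‖) :
    ∃ c : Mat d, 1 - φ 1 = star c * c := by
  obtain ⟨c, hc⟩ := cp_sa hφ (1 : A)
  rw [star_one, one_mul] at hc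
  have h3 : ‖(1 : A)‖ ≤ 1 := by
    rcases subsingleton_or_nontrivial A with h | h
    · rw [Subsingleton.elim (1 : A) 0, norm_zero]
      exact zero_le_one
    · exact le_of_eq CStarRing.norm_one
  exact one_sub_gen hc ((h1 1).trans h3)

end KerAux

open KerAux in
theorem cp_one_le {φ : A →ₗ[ℂ] Mat d} (hφ : CP φ) (h1 : ∀ a, ‖φ a‖ ≤ ‖a‖) (ξ : Fin d → ℂ) :
    (∑ k, ∑ l, star (ξ k) * φ 1 k l * ξ l).re ≤ ∑ k, ‖ξ k‖ ^ 2 := by
  obtain ⟨c, hc⟩ := one_sub_cp hφ h1
  have h2 := Bf_star_mul ξ c
  rw [← hc, map_sub, Complex.sub_re] at h2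
  have h3 : (Bf ξ ξ (1 : Mat d)).re = ∑ k, ‖ξ k‖ ^ 2 := by
    rw [Bf_apply, Complex.re_sum]
    refine Finset.sum_congr rfl fun k _ => ?_
    rw [Finset.sum_eq_single k]
    · rw [CStarMatrix.one_apply, if_pos rfl, mul_one, Complex.star_def, mul_comm,
        Complex.mul_conj, Complex.ofReal_re, Complex.normSq_eq_norm_sq]
    · intro l _ hl
      rw [CStarMatrix.one_apply, if_neg (Ne.symm hl), mul_zero, zero_mul]
    · intro h
      exact absurd (Finset.mem_univ _) h
  rw [h3, Bf_apply] at h2
  linarith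

namespace KerAux

/-- the square root trick: `2 h - h T h = 1` -/
theorem exists_h [PartialOrder A] [StarOrderedRing A] {T : A} (h0 : 0 ≤ T) (h1 : T ≤ 1) :
    ∃ h : A, star h = h ∧ h + h - h * T * h = 1 := by
  have sT : IsSelfAdjoint T := IsSelfAdjoint.of_nonneg h0
  have hc : Continuous (fun t : ℝ => 1 / (1 + √(1 - t))) := by
    refine continuous_const.div (continuous_const.add
      (Real.continuous_sqrt.comp (continuous_const.sub continuous_id))) fun t => ?_
    have := Real.sqrt_nonneg (1 - t)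
    positivity
  have hsp : ∀ t ∈ spectrum ℝ T, t ≤ 1 := by
    have := (le_algebraMap_iff_spectrum_le (r := (1 : ℝ)) (a := T) sT).1
      (by rw [map_one]; exact h1)
    exact this
  have hsa : IsSelfAdjoint (cfc (fun t : ℝ => 1 / (1 + √(1 - t))) T) := cfc_predicate _ T
  refine ⟨cfc (fun t : ℝ => 1 / (1 + √(1 - t))) T, hsa.star_eq, ?_⟩
  set f : ℝ → ℝ := fun t : ℝ => 1 / (1 + √(1 - t)) with hf
  have hT : cfc (fun t : ℝ => t) T = T := cfc_id' ℝ T sT
  have e1 : cfc f T * T * cfc f T = cfc (fun t => f t * t * f t) T := by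
    rw [cfc_mul (fun t => f t * t) f T (hc.mul continuous_id).continuousOn hc.continuousOn,
      cfc_mul f (fun t => t) T hc.continuousOn continuous_id.continuousOn, hT]
  have e2 : cfc f T + cfc f T = cfc (fun t => f t + f t) T :=
    (cfc_add T f f hc.continuousOn hc.continuousOn).symm
  rw [e1, e2, ← cfc_sub (fun t => f t + f t) (fun t => f t * t * f t) T
    (hc.add hc).continuousOn ((hc.mul continuous_id).mul hc).continuousOn]
  have e3 : cfc (fun t => f t + f t - f t * t * f t) T = cfc (fun _ : ℝ => (1 : ℝ)) T := by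
    refine cfc_congr fun t ht => ?_
    have h2 := hsp t ht
    have h3 : √(1 - t) * √(1 - t) = 1 - t := Real.mul_self_sqrt (by linarith)
    have h4 := Real.sqrt_nonneg (1 - t)
    have h5 : 1 + √(1 - t) ≠ 0 := by positivity
    have h6 : t = 1 - √(1 - t) * √(1 - t) := by linarith
    simp only [hf]
    set r := √(1 - t) with hr
    rw [h6]
    field_simp
    ring
  rw [e3]
  exact cfc_const_one ℝ T sT

theorem exists_y [PartialOrder A] [StarOrderedRing A] {n : ℕ} {c : Fin n → A}
    (hc : ∑ i, c i * star (c i) ≤ 1) : ∃ y : Fin n → Fin n → A, ∀ i j,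
      ∑ r, star (y r i) * y r j = (if i = j then 1 else 0) - star (c i) * c j := by
  have h0 : 0 ≤ ∑ i, c i * star (c i) := Finset.sum_nonneg fun i _ => mul_star_self_nonneg (c i)
  obtain ⟨h, hs, hh⟩ := exists_h h0 hc
  refine ⟨fun r i => (if r = i then 1 else 0) - star (c r) * h * c i, fun i j => ?_⟩
  have e1 : ∀ r, star ((if r = i then (1 : A) else 0) - star (c r) * h * c i) *
      ((if r = j then (1 : A) else 0) - star (c r) * h * c j) =
      (if r = i then (if r = j then (1 : A) else 0) else 0) -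
        (if r = i then star (c r) * h * c j else 0) -
        (if r = j then star (c i) * h * c r else 0) +
        star (c i) * h * (c r * star (c r)) * (h * c j) := by
    intro r
    have e2 : star ((if r = i then (1 : A) else 0) - star (c r) * h * c i) =
        (if r = i then (1 : A) else 0) - star (c i) * h * c r := by
      rw [star_sub, star_mul, star_mul, star_star, hs]
      congr 1
      · split_ifs <;> simp
      · rw [mul_assoc]
    rw [e2]
    by_cases h1 : r = i
    · by_cases h2 : r = j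
      · simp only [if_pos h1, if_pos h2]
        noncomm_ring
      · simp only [if_pos h1, if_neg h2]
        noncomm_ring
    · by_cases h2 : r = j
      · simp only [if_neg h1, if_pos h2]
        noncomm_ring
      · simp only [if_neg h1, if_neg h2]
        noncomm_ring
  rw [Finset.sum_congr rfl fun r _ => e1 r, Finset.sum_add_distrib, Finset.sum_sub_distrib,
    Finset.sum_sub_distrib, Finset.sum_ite_eq', Finset.sum_ite_eq', Finset.sum_ite_eq',
    if_pos (Finset.mem_univ _), if_pos (Finset.mem_univ _), if_pos (Finset.mem_univ _),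
    ← Finset.sum_mul, ← Finset.mul_sum]
  have e3 : star (c i) * h * (∑ r, c r * star (c r)) * (h * c j) =
      star (c i) * (h * (∑ r, c r * star (c r)) * h) * c j := by noncomm_ring
  have e4 : h * (∑ r, c r * star (c r)) * h = h + h - 1 := by
    rw [← hh]
    abel
  rw [e3, e4]
  noncomm_ring

end KerAux

open KerAux in
theorem ker_facts [PartialOrder A] [StarOrderedRing A] {n : ℕ} {φ : A →ₗ[ℂ] Mat d} (hφ : CP φ)
    (h1 : ∀ a, ‖φ a‖ ≤ ‖a‖) {c : Fin n → A} (hc : ∑ i, c i * star (c i) ≤ 1) :
    (∀ v, 0 ≤ qf (kerK φ c) v) ∧ (∀ v, qf (kerK φ c) v ≤ ∑ i, ‖v i‖ ^ 2) ∧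
      (kerK φ c).IsHermitian := by
  have hq : ∀ v : Fin n × Fin d → ℂ, qf (kerK φ c) v =
      (∑ i, ∑ j, Bf (fun k => v (i, k)) (fun k => v (j, k)) (φ (star (c i) * c j))).re := by
    intro v
    unfold qf
    congr 1
    rw [Fintype.sum_prod_type]
    refine Finset.sum_congr rfl fun i _ => ?_
    simp only [Fintype.sum_prod_type]
    rw [Finset.sum_comm]
    rfl
  refine ⟨fun v => ?_, fun v => ?_, ?_⟩
  · rw [hq]
    exact cp_scalar hφ c fun i k => v (i, k)
  · obtain ⟨y, hy⟩ := exists_y hc
    have e1 : ∀ r, 0 ≤ (∑ i, ∑ j, Bf (fun k => v (i, k)) (fun k => v (j, k))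
        (φ (star (y r i) * y r j))).re := fun r => cp_scalar hφ (y r) fun i k => v (i, k)
    have e2 : 0 ≤ ∑ r, (∑ i, ∑ j, Bf (fun k => v (i, k)) (fun k => v (j, k))
        (φ (star (y r i) * y r j))).re := Finset.sum_nonneg fun r _ => e1 r
    have e3 : ∑ r, (∑ i, ∑ j, Bf (fun k => v (i, k)) (fun k => v (j, k))
        (φ (star (y r i) * y r j))).re =
        (∑ i, ∑ j, Bf (fun k => v (i, k)) (fun k => v (j, k))
          (φ (∑ r, star (y r i) * y r j))).re := by
      rw [← Complex.re_sum, Finset.sum_comm]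
      congr 1
      refine Finset.sum_congr rfl fun i _ => ?_
      rw [Finset.sum_comm]
      refine Finset.sum_congr rfl fun j _ => ?_
      rw [map_sum, map_sum]
    have e4 : (∑ i, ∑ j, Bf (fun k => v (i, k)) (fun k => v (j, k))
          (φ (∑ r, star (y r i) * y r j))).re =
        ∑ i, (Bf (fun k => v (i, k)) (fun k => v (i, k)) (φ 1)).re - qf (kerK φ c) v := by
      rw [hq, ← Complex.re_sum, ← Complex.sub_re, ← Finset.sum_sub_distrib]
      congr 1
      refine Finset.sum_congr rfl fun i _ => ?_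
      have e5 : ∀ j, Bf (fun k => v (i, k)) (fun k => v (j, k)) (φ (∑ r, star (y r i) * y r j)) =
          (if i = j then Bf (fun k => v (i, k)) (fun k => v (j, k)) (φ 1) else 0) -
            Bf (fun k => v (i, k)) (fun k => v (j, k)) (φ (star (c i) * c j)) := by
        intro j
        rw [hy, map_sub, map_sub]
        congr 1
        by_cases h : i = j
        · rw [if_pos h, if_pos h]
        · rw [if_neg h, if_neg h, map_zero, map_zero]
      rw [Finset.sum_congr rfl fun j _ => e5 j, Finset.sum_sub_distrib, Finset.sum_ite_eq,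
        if_pos (Finset.mem_univ _)]
    have e6 : ∑ i, (Bf (fun k => v (i, k)) (fun k => v (i, k)) (φ 1)).re ≤ ∑ i, ‖v i‖ ^ 2 := by
      rw [Fintype.sum_prod_type]
      exact Finset.sum_le_sum fun i _ => cp_one_le hφ h1 fun k => v (i, k)
    rw [e3, e4] at e2
    linarith
  · ext p q
    rw [Matrix.conjTranspose_apply]
    unfold kerK
    have e1 : φ (star (c p.1) * c q.1) = star (φ (star (c q.1) * c p.1)) := by
      rw [← cp_star hφ, star_mul, star_star]
    rw [e1, CStarMatrix.star_apply]

end Pool.Agent.Lib.EJS.TS
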