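import Pool.Agent.Lib.EJS.SIFun
import Pool.Agent.Lib.EJS.TSKer

/-!
# Part SI: a vector on which a matrix is large (first half of SI6)

PROOF.  Work in the C-star algebra `CStarMatrix (Fin k) (Fin k) A` with `let _ := CStarAlgebra.spectralOrder _`.  `k > 0` by `h`, `hr`.
Let `MM = CStarMatrix.ofMatrix M`, `b := MM + star MM` (self-adjoint, `b i j = M i j + star (M j i)`).  For a matrix `N` put
`Φ N := ∑_ij (φ (N i j)) i j ∈ ℂ`, linear in `N`.
(1) `Φ (star Y * Y) ≥ 0` (real part, and imaginary part `0`): `(star Y * Y) i j = ∑_r star (Y r i) * Y r j`, and complete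
positivity of `φ` with `a i = Y r i` and `b j =` the matrix with the single entry `1` at `(j, z)` (`z : Fin k` fixed) says that
the matrix `∑_ij star (b i) * φ (star (a i) * a j) * b j = (∑_ij φ (..) i j) E z z` is of the form `star c * c`; its entry at
`(z, z)` is `∑_r ‖c r z‖^2 ≥ 0`.
(2) `Re Φ b = 2 Re Φ MM` since `φ (star x) = star (φ x)` (`φ` is star preserving: use positivity of `Φ`-like
expressions or CP with `n = 2`, `a = (1, x)`).
(3) Let `B := ` the maximum of the spectrum of `b` (`b` is not `≤ 2r`, see below).  Suppose `b ≤ 2 r' • 1` with `r' ≥ 0`.  Then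
`Φ b ≤ 2 r' Φ 1 ≤ 2 r' k` (`‖φ 1‖ ≤ ‖1‖ ≤ 1`, entries are bounded by the norm: `CStarMatrix.norm_entry_le_norm`), so `Re Φ MM ≤ k r'`.
By the hypothesis `h` this fails for `r' = r`, and then also for some `r' > r` (`k r' < Re Φ MM`).  So the maximum `B` of the spectrum of `b`
satisfies `B > 2 r' > 2 r ≥ 0`.
(4) `f := cfc (bumpf B (B - 2r)) b` is positive of norm one (`norm_bump`) and `f b f ≥ 2r • f f` (`bump_mul_ge`).  `f ≠ 0` so some column
`ζ j = f j z` is non-zero.  The `(z,z)` entries of this inequality: `∑_ij star (ζ i) * b i j * ζ j ≥ 2r • ∑_j star (ζ j) * ζ j`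
(`f` is self-adjoint; the diagonal entries of a positive matrix `star Y * Y` are positive).  With
`b i j = M i j + star (M j i)` the left side is `∑_ij (star (ζ i) M i j ζ j + star (star (ζ i) M i j ζ j))` (exchange `i, j` in the second
half).  Let `N = ‖∑_j star (ζ j) * ζ j‖ > 0` and `d j = (√N)⁻¹ • ζ j`.
-/

open scoped ComplexOrder

namespace Pool.Agent.Lib.EJS

namespace VecAux

variable {A : Type*} [CStarAlgebra A] [PartialOrder A] [StarOrderedRing A] {k : ℕ}

/-- `∑_ij (φ (N i j)) i j` -/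
noncomputable def Ph (φ : A →ₗ[ℂ] Mat k) : CStarMatrix (Fin k) (Fin k) A →+ ℂ where
  toFun N := ∑ i, ∑ j, φ (N i j) i j
  map_zero' := by
    refine Finset.sum_eq_zero fun i _ => Finset.sum_eq_zero fun j _ => ?_
    rw [CStarMatrix.zero_apply, map_zero, CStarMatrix.zero_apply]
  map_add' M N := by
    rw [← Finset.sum_add_distrib]
    refine Finset.sum_congr rfl fun i _ => ?_
    rw [← Finset.sum_add_distrib]
    refine Finset.sum_congr rfl fun j _ => ?_
    rw [CStarMatrix.add_apply, map_add, CStarMatrix.add_apply]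

theorem Ph_apply (φ : A →ₗ[ℂ] Mat k) (N : CStarMatrix (Fin k) (Fin k) A) :
    Ph φ N = ∑ i, ∑ j, φ (N i j) i j := rfl

theorem sum_apply' {ι : Type*} (s : Finset ι) (f : ι → Mat k) (i j : Fin k) :
    (∑ r ∈ s, f r) i j = ∑ r ∈ s, f r i j :=
  map_sum (TS.KerAux.ent i j) f s

theorem Ph_pos {φ : A →ₗ[ℂ] Mat k} (hφ : CP φ) (Y : CStarMatrix (Fin k) (Fin k) A) :
    0 ≤ (Ph φ (star Y * Y)).re := by
  have h1 : Ph φ (star Y * Y) = ∑ r, ∑ i, ∑ j, φ (star (Y r i) * Y r j) i j := by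
    rw [Ph_apply, Finset.sum_comm (s := (Finset.univ : Finset (Fin k)))]
    rw [Finset.sum_comm]
    have h2 : ∀ i, ∑ j, φ ((star Y * Y) i j) i j = ∑ r, ∑ j, φ (star (Y r i) * Y r j) i j := by
      intro i
      rw [Finset.sum_comm]
      refine Finset.sum_congr rfl fun j _ => ?_
      rw [CStarMatrix.mul_apply, map_sum, sum_apply']
      refine Finset.sum_congr rfl fun r _ => ?_
      rw [CStarMatrix.star_apply]
    rw [Finset.sum_congr rfl fun i _ => h2 i, Finset.sum_comm]
  rw [h1, Complex.re_sum]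
  refine Finset.sum_nonneg fun r _ => ?_
  have h2 := TS.cp_scalar hφ (fun i => Y r i) (fun i : Fin k => Pi.single i (1 : ℂ))
  refine le_of_le_of_eq h2 ?_
  congr 1
  refine Finset.sum_congr rfl fun i _ => Finset.sum_congr rfl fun j _ => ?_
  rw [Finset.sum_eq_single i, Finset.sum_eq_single j]
  · rw [Pi.single_eq_same, Pi.single_eq_same, star_one, one_mul, mul_one]
  · intro l _ hl
    rw [Pi.single_eq_of_ne hl, mul_zero]
  · intro h
    exact absurd (Finset.mem_univ _) h
  · intro l _ hl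
    refine Finset.sum_eq_zero fun l' _ => ?_
    rw [Pi.single_eq_of_ne hl, star_zero, zero_mul, zero_mul]
  · intro h
    exact absurd (Finset.mem_univ _) h

theorem Ph_star {φ : A →ₗ[ℂ] Mat k} (hφ : CP φ) (N : CStarMatrix (Fin k) (Fin k) A) :
    (Ph φ (star N)).re = (Ph φ N).re := by
  have h1 : Ph φ (star N) = star (Ph φ N) := by
    rw [Ph_apply, Ph_apply, star_sum, Finset.sum_comm]
    refine Finset.sum_congr rfl fun i _ => ?_
    rw [star_sum]
    refine Finset.sum_congr rfl fun j _ => ?_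
    rw [CStarMatrix.star_apply, TS.cp_star hφ, CStarMatrix.star_apply]
  rw [h1, Complex.star_def, Complex.conj_re]

theorem Ph_one_le {φ : A →ₗ[ℂ] Mat k} (hφ : CP φ) (h1 : ∀ a, ‖φ a‖ ≤ ‖a‖) :
    (Ph φ 1).re ≤ k := by
  have h2 : Ph φ 1 = ∑ i, φ 1 i i := by
    rw [Ph_apply]
    refine Finset.sum_congr rfl fun i _ => ?_
    rw [Finset.sum_eq_single i]
    · rw [CStarMatrix.one_apply, if_pos rfl]
    · intro j _ hj
      rw [CStarMatrix.one_apply, if_neg (Ne.symm hj), map_zero, CStarMatrix.zero_apply]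
    · intro h
      exact absurd (Finset.mem_univ _) h
  rw [h2, Complex.re_sum]
  have h3 : ∀ i : Fin k, (φ 1 i i).re ≤ 1 := by
    intro i
    have h4 := TS.cp_one_le hφ h1 (Pi.single i (1 : ℂ))
    rw [Finset.sum_eq_single i, Finset.sum_eq_single i, Finset.sum_eq_single i] at h4
    · rw [Pi.single_eq_same, star_one, one_mul, mul_one, norm_one, one_pow] at h4
      exact h4
    · intro l _ hl
      rw [Pi.single_eq_of_ne hl, norm_zero]
      norm_num
    · intro h
      exact absurd (Finset.mem_univ _) h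
    · intro l _ hl
      rw [Pi.single_eq_of_ne hl, mul_zero]
    · intro h
      exact absurd (Finset.mem_univ _) h
    · intro l _ hl
      refine Finset.sum_eq_zero fun l' _ => ?_
      rw [Pi.single_eq_of_ne hl, star_zero, zero_mul, zero_mul]
    · intro h
      exact absurd (Finset.mem_univ _) h
  calc ∑ i : Fin k, (φ 1 i i).re ≤ ∑ _i : Fin k, (1 : ℝ) := Finset.sum_le_sum fun i _ => h3 i
    _ = k := by simp

theorem exists_sq {E : Type*} [CStarAlgebra E] [PartialOrder E] [StarOrderedRing E] {x : E}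
    (h : 0 ≤ x) : ∃ y : E, x = star y * y := CStarAlgebra.nonneg_iff_eq_star_mul_self.1 h

theorem diag_nonneg {x : CStarMatrix (Fin k) (Fin k) A} (h : 0 ≤ x) (z : Fin k) : 0 ≤ x z z := by
  obtain ⟨y, hy⟩ := exists_sq h
  rw [hy, CStarMatrix.mul_apply]
  refine Finset.sum_nonneg fun r _ => ?_
  rw [CStarMatrix.star_apply]
  exact star_mul_self_nonneg _

theorem exists_top {E : Type*} [CStarAlgebra E] [PartialOrder E] [StarOrderedRing E] {b : E}
    (hb : IsSelfAdjoint b) {s : ℝ} (h : ¬ b ≤ algebraMap ℝ E s) :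
    ∃ B ∈ spectrum ℝ b, s < B ∧ ∀ t ∈ spectrum ℝ b, t ≤ B := by
  rw [le_algebraMap_iff_spectrum_le hb] at h
  push Not at h
  obtain ⟨t, ht, hst⟩ := h
  have hc : IsCompact (spectrum ℝ b) := spectrum.isCompact b
  obtain ⟨B, hB⟩ := hc.exists_isGreatest ⟨t, ht⟩
  exact ⟨B, hB.1, hst.trans_le (hB.2 ht), fun u hu => hB.2 hu⟩

theorem exists_f {E : Type*} [CStarAlgebra E] [PartialOrder E] [StarOrderedRing E] {b : E}
    (hb : IsSelfAdjoint b) {s : ℝ} (h : ¬ b ≤ algebraMap ℝ E s) :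
    ∃ f : E, star f = f ∧ f ≠ 0 ∧ s • (f * f) ≤ f * b * f := by
  obtain ⟨B, hB1, hB2, hB3⟩ := exists_top hb h
  have hη : 0 < B - s := by linarith
  have n1 := norm_bump hb hη hB1 hB3
  have n2 := bump_mul_ge hb B hη
  have n3 := bump_nonneg (E := E) B hη b
  rw [sub_sub_cancel] at n2
  refine ⟨_, (IsSelfAdjoint.of_nonneg n3).star_eq, ?_, n2⟩
  intro h0
  rw [h0, norm_zero] at n1
  exact zero_ne_one n1

/-- the statement without normalisation -/
theorem exists_zeta {φ : A →ₗ[ℂ] Mat k} (hφ : CP φ) (h1 : ∀ a, ‖φ a‖ ≤ ‖a‖)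
    (M : Fin k → Fin k → A) {r : ℝ} (hr : 0 ≤ r)
    (h : (k : ℝ) * r < (∑ i, ∑ j, φ (M i j) i j).re) :
    ∃ ζ : Fin k → A, (∃ j, ζ j ≠ 0) ∧ (2 * r) • ∑ j, star (ζ j) * ζ j ≤
        ∑ i, ∑ j, (star (ζ i) * M i j * ζ j + star (star (ζ i) * M i j * ζ j)) := by
  set MM : CStarMatrix (Fin k) (Fin k) A := CStarMatrix.ofMatrix M with hMM
  set b : CStarMatrix (Fin k) (Fin k) A := MM + star MM with hb
  have hsa : IsSelfAdjoint b := by
    rw [IsSelfAdjoint, hb, star_add, star_star, add_comm]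
  have hnot : ¬ b ≤ algebraMap ℝ (CStarMatrix (Fin k) (Fin k) A) (2 * r) := by
    intro hle
    obtain ⟨Y, hY⟩ := exists_sq (sub_nonneg.2 hle)
    have h2 := Ph_pos hφ Y
    rw [← hY, map_sub, Complex.sub_re, hb, map_add, Complex.add_re, Ph_star hφ] at h2
    have h3 : (Ph φ (algebraMap ℝ (CStarMatrix (Fin k) (Fin k) A) (2 * r))).re =
        2 * r * (Ph φ 1).re := by
      rw [Algebra.algebraMap_eq_smul_one]
      have h4 : Ph φ ((2 * r) • (1 : CStarMatrix (Fin k) (Fin k) A)) =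
          ((2 * r : ℝ) : ℂ) * Ph φ 1 := by
        rw [Ph_apply, Ph_apply, Finset.mul_sum]
        refine Finset.sum_congr rfl fun i _ => ?_
        rw [Finset.mul_sum]
        refine Finset.sum_congr rfl fun j _ => ?_
        have h5 : ((2 * r) • (1 : CStarMatrix (Fin k) (Fin k) A)) i j =
            ((2 * r : ℝ) : ℂ) • (1 : CStarMatrix (Fin k) (Fin k) A) i j := rfl
        rw [h5, map_smul, CStarMatrix.smul_apply, smul_eq_mul]
      rw [h4, Complex.re_ofReal_mul]
    rw [h3] at h2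
    have h4 := Ph_one_le hφ h1
    have h5 : 2 * r * (Ph φ 1).re ≤ 2 * r * k := mul_le_mul_of_nonneg_left h4 (by linarith)
    have h6 : (Ph φ MM).re = (∑ i, ∑ j, φ (M i j) i j).re := rfl
    rw [h6] at h2
    linarith
  obtain ⟨f, fsa, f0, n2⟩ := exists_f hsa hnot
  have hne : ∃ j z, f j z ≠ 0 := by
    by_contra hcon
    push Not at hcon
    exact f0 (CStarMatrix.ext hcon)
  obtain ⟨j0, z, hz⟩ := hne
  refine ⟨fun j => f j z, ⟨j0, hz⟩, ?_⟩
  have fs : ∀ i, f z i = star (f i z) := by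
    intro i
    rw [← CStarMatrix.star_apply, fsa]
  have d1 := diag_nonneg (sub_nonneg.2 n2) z
  rw [CStarMatrix.sub_apply, sub_nonneg] at d1
  have d2 : ((2 * r) • (f * f)) z z = (2 * r) • ∑ j, star (f j z) * f j z := by
    have : ((2 * r) • (f * f)) z z = (2 * r) • (f * f) z z := rfl
    rw [this, CStarMatrix.mul_apply]
    congr 1
    exact Finset.sum_congr rfl fun j _ => by rw [fs]
  have d3 : (f * b * f) z z = ∑ i, ∑ j, (star (f i z) * M i j * f j z +
      star (star (f i z) * M i j * f j z)) := by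
    have e1 : (f * b * f) z z = ∑ i, ∑ j, (star (f i z) * M i j * f j z +
        star (f i z) * star (M j i) * f j z) := by
      rw [CStarMatrix.mul_apply, Finset.sum_comm]
      refine Finset.sum_congr rfl fun j _ => ?_
      rw [CStarMatrix.mul_apply, Finset.sum_mul]
      refine Finset.sum_congr rfl fun i _ => ?_
      rw [hb, CStarMatrix.add_apply, CStarMatrix.star_apply, fs, mul_add, add_mul]
      rfl
    rw [e1]
    simp only [Finset.sum_add_distrib]
    congr 1
    rw [Finset.sum_comm]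
    refine Finset.sum_congr rfl fun i _ => Finset.sum_congr rfl fun j _ => ?_
    rw [star_mul, star_mul, star_star, mul_assoc]
  exact le_of_eq_of_le d2.symm (le_of_le_of_eq d1 d3)

end VecAux

open VecAux in
theorem exists_vec {A : Type*} [CStarAlgebra A] [PartialOrder A] [StarOrderedRing A] {k : ℕ}
    {φ : A →ₗ[ℂ] Mat k} (hφ : CP φ) (h1 : ∀ a, ‖φ a‖ ≤ ‖a‖) (M : Fin k → Fin k → A) {r : ℝ}
    (hr : 0 ≤ r) (h : (k : ℝ) * r < (∑ i, ∑ j, φ (M i j) i j).re) :
    ∃ d : Fin k → A, ‖∑ j, star (d j) * d j‖ = 1 ∧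
      (2 * r) • ∑ j, star (d j) * d j ≤
        ∑ i, ∑ j, (star (d i) * M i j * d j + star (star (d i) * M i j * d j)) := by
  obtain ⟨ζ, ⟨j0, hj0⟩, hζ⟩ := exists_zeta hφ h1 M hr h
  have hN : ∑ j, star (ζ j) * ζ j ≠ 0 := by
    intro h0
    have h2 : star (ζ j0) * ζ j0 ≤ ∑ j, star (ζ j) * ζ j :=
      Finset.single_le_sum (f := fun j => star (ζ j) * ζ j) (fun j _ => star_mul_self_nonneg _)
        (Finset.mem_univ j0)
    rw [h0] at h2
    have h3 : star (ζ j0) * ζ j0 = 0 := le_antisymm h2 (star_mul_self_nonneg _)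
    exact hj0 ((CStarRing.star_mul_self_eq_zero_iff _).1 h3)
  set N : ℝ := ‖∑ j, star (ζ j) * ζ j‖ with hNd
  have hNp : 0 < N := norm_pos_iff.2 hN
  set c : ℝ := (√N)⁻¹ with hc
  have hcc : c * c = N⁻¹ := by
    rw [hc, ← mul_inv, Real.mul_self_sqrt hNp.le]
  have e1 : ∑ j, star (c • ζ j) * (c • ζ j) = (c * c) • ∑ j, star (ζ j) * ζ j := by
    rw [Finset.smul_sum]
    refine Finset.sum_congr rfl fun j _ => ?_
    rw [star_smul, star_trivial, smul_mul_smul_comm]
  have e2 : ∑ i, ∑ j, (star (c • ζ i) * M i j * (c • ζ j) +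
      star (star (c • ζ i) * M i j * (c • ζ j))) = (c * c) •
      ∑ i, ∑ j, (star (ζ i) * M i j * ζ j + star (star (ζ i) * M i j * ζ j)) := by
    have e3 : ∀ i j, star (c • ζ i) * M i j * (c • ζ j) = (c * c) • (star (ζ i) * M i j * ζ j) := by
      intro i j
      rw [star_smul, star_trivial, smul_mul_assoc, smul_mul_smul_comm]
    rw [Finset.smul_sum]
    refine Finset.sum_congr rfl fun i _ => ?_
    rw [Finset.smul_sum]
    refine Finset.sum_congr rfl fun j _ => ?_
    rw [e3, star_smul, star_trivial (c * c), smul_add]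
  refine ⟨fun j => c • ζ j, ?_, ?_⟩
  · rw [e1, norm_smul, hcc, Real.norm_of_nonneg (inv_nonneg.2 hNp.le), ← hNd,
      inv_mul_cancel₀ hNp.ne']
  · rw [e1, e2, smul_comm]
    exact smul_le_smul_of_nonneg_left hζ (mul_self_nonneg c)

end Pool.Agent.Lib.EJS
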