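import Pool.Agent.Lib.EJS.SIChoi
import Pool.Agent.Lib.EJS.SIVec
import Pool.Agent.Lib.EJS.SIExTab
import Pool.Agent.Lib.EJS.SIHull

/-!
# Part SI: Lemma N (SI6)

PROOF.  (All imports are black boxes.)  Nuclearity: `k`, `φ : A → Mat k`, `ψ : Mat k → A`, `‖ψ (φ a) - a‖ ≤ ε/2` on `F`.  `choi`: `c` with
`ψ m = ∑_ij m i j • ∑_l star (c l i) * c l j`.  These `k, c` are the answer.  If `k = 0`, then `ψ = 0` (`Mat 0` is a subsingleton) so
`‖a‖ ≤ ε/2` on `F`; take `m = 0`.  Let `k > 0`, `D, ι, P, ε'` as given, `J := F × Fin k × Fin k` (`F` as a subtype), `T (a, i, j) := φ a i j`,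
`S := {τ | ∃ q d σ, IsTab ι P F ε' q d σ ∧ τ = fun (a,i,j) => σ a i j}`.  `hull` applies: given `Λ`, `r ≥ 0` with `k r < Re ∑ Λ T` and `ε'' > 0` put
`M i j := ∑_{a ∈ F} Λ (a,i,j) • a`, so that `∑_ij φ (M i j) i j = ∑ Λ T`; `exists_vec` gives `d`, and `exists_tab` with `min ε' ε''` gives `q, σ` (a table with
error `min ε' ε''` is a table with error `ε'`).
`hull` with `ε/(2 (k^3 + 1))` gives `m, t, σ` with `|∑_μ t μ σ μ (a,i,j) - φ a i j| ≤ ε/(2(k^3+1))`; choose `q μ, d μ, σ μ` from membership in `S`.  Then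
`‖∑_μ ∑_ij ∑_l (t μ * σ μ a i j) • (star (c l i) * c l j) - ψ (φ a)‖ ≤ ∑_ij ∑_l ε/(2(k^3+1)) ≤ ε/2`.
-/

open scoped ComplexOrder

namespace Pool.Agent.Lib.EJS

universe u

theorem IsTab.mono {A D : Type*} [CStarAlgebra A] [CStarAlgebra D] {ι : A →⋆ₐ[ℂ] D} {P : D}
    {F : Finset A} {k : ℕ} {ε ε' : ℝ} {q : D} {d : Fin k → A} {σ : A → Fin k → Fin k → ℂ}
    (h : IsTab ι P F ε q d σ) (hε : ε ≤ ε') : IsTab ι P F ε' q d σ :=
  ⟨h.pos, h.norm, h.under, fun a ha i j => (h.tab a ha i j).trans hε⟩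

theorem entry_sum {k : ℕ} {X : Type*} (s : Finset X) (f : X → Mat k) (i j : Fin k) :
    (∑ x ∈ s, f x) i j = ∑ x ∈ s, f x i j := by
  let E : Mat k →+ ℂ :=
    { toFun := fun N => N i j
      map_zero' := rfl
      map_add' := fun _ _ => rfl }
  exact map_sum E f s

theorem lemmaN {A : Type u} [CStarAlgebra A] [PartialOrder A] [StarOrderedRing A]
    [IsSimpleRing A] (hA : IsNuclear A) (F : Finset A) {ε : ℝ} (hε : 0 < ε) :
    ∃ (k : ℕ) (c : Fin k → Fin k → A), (∀ l j, ‖c l j‖ ≤ 1) ∧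
      ∀ (D : Type u) [CStarAlgebra D] [PartialOrder D] [StarOrderedRing D] [Nontrivial D]
        (ι : A →⋆ₐ[ℂ] D) (P : D), 0 ≤ P → ‖P‖ = 1 → (∀ a, Commute (ι a) P) →
        ∀ ε' : ℝ, 0 < ε' → ∃ (m : ℕ) (q : Fin m → D) (t : Fin m → ℝ) (d : Fin m → Fin k → A)
          (σ : Fin m → A → Fin k → Fin k → ℂ), (∀ μ, IsTab ι P F ε' (q μ) (d μ) (σ μ)) ∧
          (∀ μ, 0 ≤ t μ) ∧ ∑ μ, t μ ≤ k ∧
          ∀ a ∈ F, ‖(∑ μ, ∑ i, ∑ j, ∑ l, ((t μ : ℂ) * σ μ a i j) • (star (c l i) * c l j)) - a‖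
            ≤ ε := by
  classical
  obtain ⟨k, φ, ψ, hφ, hψ, hφ1, hψ1, happ⟩ := hA F (ε / 2) (half_pos hε)
  obtain ⟨c, hc1, hc⟩ := choi hψ hψ1
  refine ⟨k, c, hc1, ?_⟩
  intro D _ _ _ _ ι P hP hP1 hcomm ε' hε'
  rcases Nat.eq_zero_or_pos k with hk | hk
  · subst hk
    refine ⟨0, fun μ => μ.elim0, fun μ => μ.elim0, fun μ => μ.elim0, fun μ => μ.elim0,
      fun μ => μ.elim0, fun μ => μ.elim0, by simp, ?_⟩
    intro a ha
    have h1 := happ a ha
    rw [hc] at h1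
    simp only [Finset.univ_eq_empty, Finset.sum_empty] at h1 ⊢
    linarith
  · set S : Set ({a // a ∈ F} × Fin k × Fin k → ℂ) :=
      {τ | ∃ (q : D) (d : Fin k → A) (σ : A → Fin k → Fin k → ℂ), IsTab ι P F ε' q d σ ∧
        τ = fun x => σ x.1 x.2.1 x.2.2} with hS
    set T : {a // a ∈ F} × Fin k × Fin k → ℂ := fun x => φ x.1 x.2.1 x.2.2 with hT
    have hkR : (0 : ℝ) < k := by exact_mod_cast hk
    have hmain : ∀ (Λ : {a // a ∈ F} × Fin k × Fin k → ℂ) (r : ℝ), 0 ≤ r →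
        (k : ℝ) * r < (∑ j, Λ j * T j).re → ∀ ε'' : ℝ, 0 < ε'' →
        ∃ σ ∈ S, r - ε'' ≤ (∑ j, Λ j * σ j).re := by
      intro Λ r hr hlt ε'' hε''
      set Λ' : A → Fin k → Fin k → ℂ := fun a i j => if h : a ∈ F then Λ (⟨a, h⟩, i, j) else 0
        with hΛ'
      have key : ∀ g : A → Fin k → Fin k → ℂ,
          ∑ x : {a // a ∈ F} × Fin k × Fin k, Λ x * g x.1 x.2.1 x.2.2 =
            ∑ a ∈ F, ∑ i, ∑ j, Λ' a i j * g a i j := by
        intro g
        rw [Fintype.sum_prod_type, ← Finset.sum_coe_sort F]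
        refine Finset.sum_congr rfl fun x _ => ?_
        rw [Fintype.sum_prod_type]
        refine Finset.sum_congr rfl fun i _ => Finset.sum_congr rfl fun j _ => ?_
        rw [hΛ']
        simp only [x.2, dif_pos]
      set M : Fin k → Fin k → A := fun i j => ∑ a ∈ F, Λ' a i j • a with hM
      have hMT : ∑ i, ∑ j, φ (M i j) i j = ∑ x, Λ x * T x := by
        rw [hT, key (fun a i j => φ a i j)]
        have : ∀ i j, φ (M i j) i j = ∑ a ∈ F, Λ' a i j * φ a i j := by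
          intro i j
          rw [hM, map_sum, entry_sum]
          refine Finset.sum_congr rfl fun a _ => ?_
          rw [map_smul]
          rfl
        simp only [this]
        rw [Finset.sum_comm]
        conv_rhs => rw [Finset.sum_comm]
        rw [Finset.sum_comm]
        refine Finset.sum_congr rfl fun i _ => ?_
        rw [Finset.sum_comm]
      obtain ⟨d, hd1, hd2⟩ := exists_vec hφ hφ1 M hr (by rw [hMT]; exact hlt)
      obtain ⟨q, σ, htab, hσ⟩ := exists_tab ι hP hP1 hcomm F Λ' hd1 hr hd2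
        (lt_min hε' hε'')
      refine ⟨fun x => σ x.1 x.2.1 x.2.2, ⟨q, d, σ, htab.mono (min_le_left _ _), rfl⟩, ?_⟩
      rw [key σ]
      have := min_le_right ε' ε''
      linarith
    have hk3 : (0 : ℝ) < 2 * ((k : ℝ) ^ 3 + 1) := by positivity
    obtain ⟨m, t, τ, ht0, htk, hτS, happr⟩ := hull S T hkR hmain
      (ε := ε / (2 * ((k : ℝ) ^ 3 + 1))) (div_pos hε hk3)
    choose q d σ htab hτ using hτS
    refine ⟨m, q, t, d, σ, htab, ht0, htk, ?_⟩
    intro a ha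
    have h1 := happ a ha
    set η := ε / (2 * ((k : ℝ) ^ 3 + 1)) with hη
    have hη0 : 0 ≤ η := (div_pos hε hk3).le
    have e1 : (∑ μ, ∑ i, ∑ j, ∑ l, ((t μ : ℂ) * σ μ a i j) • (star (c l i) * c l j)) =
        ∑ i, ∑ j, ∑ l, (∑ μ, (t μ : ℂ) * σ μ a i j) • (star (c l i) * c l j) := by
      rw [Finset.sum_comm]
      refine Finset.sum_congr rfl fun i _ => ?_
      rw [Finset.sum_comm]
      refine Finset.sum_congr rfl fun j _ => ?_
      rw [Finset.sum_comm]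
      refine Finset.sum_congr rfl fun l _ => ?_
      rw [Finset.sum_smul]
    have e2 : (∑ i, ∑ j, ∑ l, (∑ μ, (t μ : ℂ) * σ μ a i j) • (star (c l i) * c l j)) -
        ψ (φ a) = ∑ i, ∑ j, ∑ l, ((∑ μ, (t μ : ℂ) * σ μ a i j) - φ a i j) •
          (star (c l i) * c l j) := by
      rw [hc (φ a)]
      simp only [← Finset.sum_sub_distrib, ← sub_smul]
    have e3 : ‖∑ i, ∑ j, ∑ l, ((∑ μ, (t μ : ℂ) * σ μ a i j) - φ a i j) •
          (star (c l i) * c l j)‖ ≤ ε / 2 := by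
      have hb : ∀ i j l, ‖((∑ μ, (t μ : ℂ) * σ μ a i j) - φ a i j) • (star (c l i) * c l j)‖
          ≤ η := by
        intro i j l
        rw [norm_smul]
        have h2 : ‖(∑ μ, (t μ : ℂ) * σ μ a i j) - φ a i j‖ ≤ η := by
          have := happr (⟨a, ha⟩, i, j)
          simp only [hτ, hT] at this
          exact this
        have h3 : ‖star (c l i) * c l j‖ ≤ 1 := by
          refine (norm_mul_le _ _).trans ?_
          rw [norm_star]
          exact mul_le_one₀ (hc1 l i) (norm_nonneg _) (hc1 l j)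
        calc _ ≤ η * 1 := mul_le_mul h2 h3 (norm_nonneg _) hη0
          _ = η := mul_one _
      have hsum : ‖∑ i, ∑ j, ∑ l, ((∑ μ, (t μ : ℂ) * σ μ a i j) - φ a i j) •
          (star (c l i) * c l j)‖ ≤ ∑ _i : Fin k, ∑ _j : Fin k, ∑ _l : Fin k, η := by
        refine norm_sum_le_of_le _ fun i _ => norm_sum_le_of_le _ fun j _ =>
          norm_sum_le_of_le _ fun l _ => hb i j l
      refine hsum.trans ?_
      simp only [Finset.sum_const, Finset.card_univ, Fintype.card_fin, nsmul_eq_mul]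
      have h4 : (k : ℝ) * ((k : ℝ) * ((k : ℝ) * η)) = (k : ℝ) ^ 3 * η := by ring
      rw [h4, hη]
      rw [mul_div_assoc', div_le_div_iff₀ hk3 (by norm_num)]
      nlinarith [pow_nonneg hkR.le 3]
    rw [e1]
    calc _ = ‖((∑ i, ∑ j, ∑ l, (∑ μ, (t μ : ℂ) * σ μ a i j) • (star (c l i) * c l j)) -
          ψ (φ a)) + (ψ (φ a) - a)‖ := by congr 1; abel
      _ ≤ ‖(∑ i, ∑ j, ∑ l, (∑ μ, (t μ : ℂ) * σ μ a i j) • (star (c l i) * c l j)) -
          ψ (φ a)‖ + ‖ψ (φ a) - a‖ := norm_add_le _ _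
      _ ≤ ε / 2 + ε / 2 := by
          rw [e2]
          exact add_le_add e3 h1.le
      _ = ε := by ring

end Pool.Agent.Lib.EJS
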