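import Pool.Agent.Lib.EJS.SIFun

/-!
# Part SI: the estimate for the elements `s_i` (third part of SI7)

PROOF.  Notation `ι = Seq.const`, `x = (i, μ, l)`, `u = uf`, `v = vf`.  Let `δ ≤ 1`.
(1) `‖r x‖^2 ≤ ‖e‖ + δ ≤ 2`.  `r x = ι(u(q μ)) r x = ι(q μ) (ι(v(q μ)) r x)` (`uf_eq`); put `r' = ι(v(q μ)) r x`, `‖r'‖ ≤ 2 ‖r x‖` (`norm_vf_le`).
(2) `r_x* ι(star d_i' a d_j') r_x = r'* ι(q (star d_i' a d_j') q) r'`, which is within `4 ‖r x‖^2 ε₁ ≤ 8 ε₁` of `σ r'* ι(q q) r' = σ r_x* r_x`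
(`ι(q) r' = r x`, `q` self-adjoint), which is within `|σ| δ` of `σ e`.
(3) `star (s i) * ι a * s j = ∑ √t_μ √t_μ' ι(c_{l i'})* r_(i,μ,l)* ι(star d_{μ i'} a d_{μ' j'}) r_(j,μ',l') ι(c_{l' j'})`: the terms with
`(i,μ,l) ≠ (j,μ',l')` vanish; so it is `0` for `i ≠ j` and for `i = j` it is
`∑_{μ,l} t_μ ∑_{i',j'} ι(c_{l i'})* (r_x* ι(star d_{μ i'} a d_{μ j'}) r_x) ι(c_{l j'})`, within
`∑_{μ,l} t_μ ∑_{i'j'} (8 ε₁ + |σ μ a i' j'| δ) ≤ 8 k^4 ε₁ + δ C` of `∑ t_μ σ ι(c)* e ι(c) = ι(∑ (t σ) • c* c) e` (`e` commutes with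
constants), which is within `ε₀ ‖e‖ ≤ ε₀` of `ι(a) e`.  (If `ε₀ < 0` the hypothesis `happ` forces `F = ∅`.)
(4) `ι(p) s_i - s_i = ∑ √t_μ (ι(p d - d p) r ι(c) + ι(d) ι(p q - q) r' ι(c))`, norm at most `∑_{μ,l,j} √t_μ (2 δ + 4 ‖d μ j‖ δ)`.
`δ` is chosen so that `δ C ≤ ε` and the bound in (4) is at most `ε`; it depends only on `m, k, t, d, σ, F, ε`.
-/

open scoped ComplexOrder
open Filter Topology Pool.Agent.Lib.EqGamma

namespace Pool.Agent.Lib.EJS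

universe u

namespace SISumAux

variable {A : Type*} [CStarAlgebra A] {B : Type*} [CStarAlgebra B]

theorem hom_norm_le (ι : A →⋆ₐ[ℂ] B) (x : A) : ‖ι x‖ ≤ ‖x‖ :=
  NonUnitalStarAlgHom.norm_apply_le ι x

/-- the norm of `r` -/
theorem sq_norm_le {r e : B} {δ : ℝ} (hδ : δ ≤ 1) (he : ‖e‖ ≤ 1) (h : ‖star r * r - e‖ ≤ δ) :
    ‖r‖ * ‖r‖ ≤ 2 := by
  rw [← CStarRing.norm_star_mul_self]
  have h1 : star r * r = (star r * r - e) + e := by abel
  rw [h1]
  exact (norm_add_le _ _).trans (by linarith)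

theorem norm_le_two {r e : B} {δ : ℝ} (hδ : δ ≤ 1) (he : ‖e‖ ≤ 1) (h : ‖star r * r - e‖ ≤ δ) :
    ‖r‖ ≤ 2 := by
  have h1 := sq_norm_le hδ he h
  nlinarith [norm_nonneg r]

/-- factorization of `r` -/
theorem factor [PartialOrder A] [StarOrderedRing A] (ι : A →⋆ₐ[ℂ] B) {q : A} (hq : 0 ≤ q) {r : B}
    (hr : ι (cfc uf q) * r = r) :
    ∃ r' : B, r = ι q * r' ∧ ‖r'‖ ≤ 2 * ‖r‖ := by
  refine ⟨ι (cfc vf q) * r, ?_, ?_⟩
  · rw [← mul_assoc, ← map_mul, ← (uf_eq hq).1, hr]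
  · refine (norm_mul_le _ _).trans (mul_le_mul_of_nonneg_right ?_ (norm_nonneg _))
    exact (hom_norm_le ι _).trans (norm_vf_le hq)

/-- the compression estimate -/
theorem compress [PartialOrder A] [StarOrderedRing A] (ι : A →⋆ₐ[ℂ] B) {q : A} (hq : 0 ≤ q)
    {r e : B} (hr : ι (cfc uf q) * r = r) {δ : ℝ} (hδ : δ ≤ 1) (he : ‖e‖ ≤ 1)
    (h : ‖star r * r - e‖ ≤ δ) {b : A} {σ : ℂ} {ε₁ : ℝ} (hε₁ : 0 ≤ ε₁)
    (hb : ‖q * b * q - σ • (q * q)‖ ≤ ε₁) :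
    ‖star r * ι b * r - σ • e‖ ≤ 8 * ε₁ + ‖σ‖ * δ := by
  obtain ⟨r', hr', hn⟩ := factor ι hq hr
  have hqs : star q = q := (IsSelfAdjoint.of_nonneg hq).star_eq
  have hsq := sq_norm_le hδ he h
  have h1 : star r * ι b * r = star r' * ι (q * b * q) * r' := by
    conv_lhs => rw [hr']
    rw [star_mul, ← map_star, hqs, map_mul, map_mul]
    simp only [mul_assoc]
  have h2 : star r * r = star r' * ι (q * q) * r' := by
    conv_lhs => rw [hr']
    rw [star_mul, ← map_star, hqs, map_mul]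
    simp only [mul_assoc]
  have h3 : star r * ι b * r - σ • e
      = star r' * ι (q * b * q - σ • (q * q)) * r' + σ • (star r * r - e) := by
    rw [h1, smul_sub, h2, map_sub, map_smul, mul_sub, sub_mul, mul_smul_comm, smul_mul_assoc]
    abel
  rw [h3]
  refine (norm_add_le _ _).trans (add_le_add ?_ ?_)
  · have h4 : ‖r'‖ * ‖r'‖ ≤ 8 := by
      have : ‖r'‖ * ‖r'‖ ≤ (2 * ‖r‖) * (2 * ‖r‖) :=
        mul_le_mul hn hn (norm_nonneg _) (by positivity)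
      nlinarith
    calc ‖star r' * ι (q * b * q - σ • (q * q)) * r'‖
        ≤ ‖star r'‖ * ‖ι (q * b * q - σ • (q * q))‖ * ‖r'‖ := norm_mul₃_le
      _ ≤ ‖r'‖ * ε₁ * ‖r'‖ := by
          rw [norm_star]
          gcongr
          exact (hom_norm_le ι _).trans hb
      _ = (‖r'‖ * ‖r'‖) * ε₁ := by ring
      _ ≤ 8 * ε₁ := by gcongr
  · rw [norm_smul]
    gcongr

/-- the commutator estimate -/
theorem comm_est [PartialOrder A] [StarOrderedRing A] (ι : A →⋆ₐ[ℂ] B) {p q d c : A} (hq : 0 ≤ q)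
    {r e : B} (hr : ι (cfc uf q) * r = r) {δ : ℝ} (hδ0 : 0 ≤ δ) (hδ : δ ≤ 1) (he : ‖e‖ ≤ 1)
    (h : ‖star r * r - e‖ ≤ δ) (hc : ‖c‖ ≤ 1) (hpq : ‖p * q - q‖ ≤ δ)
    (hpd : ‖p * d - d * p‖ ≤ δ) :
    ‖ι p * (ι d * r * ι c) - ι d * r * ι c‖ ≤ (2 + 4 * ‖d‖) * δ := by
  obtain ⟨r', hr', hn⟩ := factor ι hq hr
  have hr2 := norm_le_two hδ he h
  have h1 : ι p * (ι d * r * ι c) - ι d * r * ι c
      = ι (p * d - d * p) * r * ι c + ι d * (ι (p * q - q) * r') * ι c := by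
    have h2 : ι (p * q - q) * r' = ι p * r - r := by
      rw [map_sub, map_mul, sub_mul, mul_assoc, ← hr']
    rw [h2, map_sub, map_mul, map_mul]
    noncomm_ring
  rw [h1]
  have hc' : ‖ι c‖ ≤ 1 := (hom_norm_le ι _).trans hc
  have ha : ‖ι (p * d - d * p) * r * ι c‖ ≤ 2 * δ := by
    calc _ ≤ ‖ι (p * d - d * p)‖ * ‖r‖ * ‖ι c‖ := norm_mul₃_le
      _ ≤ δ * 2 * 1 := by
        gcongr
        exact (hom_norm_le ι _).trans hpd
      _ = 2 * δ := by ring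
  have hb : ‖ι d * (ι (p * q - q) * r') * ι c‖ ≤ 4 * ‖d‖ * δ := by
    calc _ ≤ ‖ι d‖ * ‖ι (p * q - q) * r'‖ * ‖ι c‖ := norm_mul₃_le
      _ ≤ ‖d‖ * (δ * 4) * 1 := by
        gcongr
        · exact hom_norm_le ι _
        · refine (norm_mul_le _ _).trans ?_
          gcongr
          · exact (hom_norm_le ι _).trans hpq
          · linarith
      _ = 4 * ‖d‖ * δ := by ring
  refine (norm_add_le _ _).trans ?_
  linarith

theorem gen [PartialOrder A] [StarOrderedRing A] (ι : A →⋆ₐ[ℂ] B) {I k m : ℕ}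
    (F : Finset A) {c : Fin k → Fin k → A} (hc : ∀ l j, ‖c l j‖ ≤ 1) {t : Fin m → ℝ}
    (ht : ∀ μ, 0 ≤ t μ) (hts : ∑ μ, t μ ≤ k) (d : Fin m → Fin k → A)
    (σ : Fin m → A → Fin k → Fin k → ℂ) {ε₀ : ℝ}
    (happ : ∀ a ∈ F,
      ‖(∑ μ, ∑ i, ∑ j, ∑ l, ((t μ : ℂ) * σ μ a i j) • (star (c l i) * c l j)) - a‖ ≤ ε₀)
    {ε₁ : ℝ} (hε₁ : 0 ≤ ε₁) {ε : ℝ} (hε : 0 < ε) :
    ∃ δ : ℝ, 0 < δ ∧ ∀ (p : A) (q : Fin m → A), ‖p‖ ≤ 1 →
      (∀ μ, 0 ≤ q μ ∧ ‖q μ‖ ≤ 1 ∧ ‖p * q μ - q μ‖ ≤ δ ∧ (∀ j, ‖p * d μ j - d μ j * p‖ ≤ δ) ∧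
        ∀ a ∈ F, ∀ i j,
          ‖q μ * (star (d μ i) * a * d μ j) * q μ - σ μ a i j • (q μ * q μ)‖ ≤ ε₁) →
      ∀ e : B, (∀ a, Commute (ι a) e) → ‖e‖ ≤ 1 →
      ∀ r : Fin I × Fin m × Fin k → B, (∀ x, ‖star (r x) * r x - e‖ ≤ δ) →
      (∀ x y, x ≠ y → ∀ a, star (r x) * ι a * r y = 0) →
      (∀ x, ι (cfc uf (q x.2.1)) * r x = r x) →
      ∀ s : Fin I → B, (∀ i, s i = ∑ μ, ∑ l, ∑ j, ((√(t μ) : ℝ) : ℂ) •
        (ι (d μ j) * r (i, μ, l) * ι (c l j))) →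
      (∀ i, ‖ι p * s i - s i‖ ≤ ε) ∧ ∀ a ∈ F, ∀ i j,
        ‖star (s i) * ι a * s j - (if i = j then ι a * e else 0)‖ ≤
          8 * (k : ℝ) ^ 4 * ε₁ + ε₀ + ε := by
  classical
  obtain ⟨C1, hC1⟩ : ∃ C1 : ℝ, C1 = ∑ a ∈ F, ∑ μ, ∑ i, ∑ j, ∑ _l : Fin k, t μ * ‖σ μ a i j‖ :=
    ⟨_, rfl⟩
  obtain ⟨C2, hC2⟩ : ∃ C2 : ℝ, C2 = ∑ μ, ∑ _l : Fin k, ∑ j, √(t μ) * (2 + 4 * ‖d μ j‖) :=
    ⟨_, rfl⟩
  have hC1a : ∀ a : A, 0 ≤ ∑ μ, ∑ i, ∑ j, ∑ _l : Fin k, t μ * ‖σ μ a i j‖ := fun a =>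
    Finset.sum_nonneg fun μ _ => Finset.sum_nonneg fun i _ => Finset.sum_nonneg fun j _ =>
      Finset.sum_nonneg fun l _ => mul_nonneg (ht μ) (norm_nonneg _)
  have hC1n : 0 ≤ C1 := by
    rw [hC1]
    exact Finset.sum_nonneg fun a _ => hC1a a
  have hC2n : 0 ≤ C2 := by
    rw [hC2]
    exact Finset.sum_nonneg fun μ _ => Finset.sum_nonneg fun l _ => Finset.sum_nonneg fun j _ =>
      mul_nonneg (Real.sqrt_nonneg _)
        (add_nonneg zero_le_two (mul_nonneg (by norm_num) (norm_nonneg _)))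
  have hpos : 0 < 1 + C1 + C2 := by linarith
  obtain ⟨δ, hδdef⟩ : ∃ δ : ℝ, δ = min 1 (ε / (1 + C1 + C2)) := ⟨_, rfl⟩
  have hδ : 0 < δ := by
    rw [hδdef]
    exact lt_min one_pos (div_pos hε hpos)
  have hδ1 : δ ≤ 1 := by
    rw [hδdef]
    exact min_le_left _ _
  have hδ2 : δ * (1 + C1 + C2) ≤ ε := by
    have h1 : δ ≤ ε / (1 + C1 + C2) := by
      rw [hδdef]
      exact min_le_right _ _
    rwa [le_div_iff₀ hpos] at h1
  have hδC1 : δ * C1 ≤ ε := by nlinarith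
  have hδC2 : δ * C2 ≤ ε := by nlinarith
  refine ⟨δ, hδ, ?_⟩
  intro p q hp hq e he he1 r hr hr0 hru s hs
  refine ⟨?_, ?_⟩
  · intro i
    have h1 : ι p * s i - s i = ∑ μ, ∑ l, ∑ j, ((√(t μ) : ℝ) : ℂ) •
        (ι p * (ι (d μ j) * r (i, μ, l) * ι (c l j)) - ι (d μ j) * r (i, μ, l) * ι (c l j)) := by
      rw [hs i]
      simp only [Finset.mul_sum, mul_smul_comm, smul_sub, Finset.sum_sub_distrib]
    rw [h1]
    refine le_trans ?_ hδC2
    rw [hC2, Finset.mul_sum]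
    refine norm_sum_le_of_le _ fun μ _ => ?_
    rw [Finset.mul_sum]
    refine norm_sum_le_of_le _ fun l _ => ?_
    rw [Finset.mul_sum]
    refine norm_sum_le_of_le _ fun j _ => ?_
    rw [norm_smul, Complex.norm_real, Real.norm_eq_abs, abs_of_nonneg (Real.sqrt_nonneg _)]
    have h2 := comm_est ι (p := p) (q := q μ) (d := d μ j) (c := c l j) (hq μ).1
      (hru (i, μ, l)) hδ.le hδ1 he1 (hr (i, μ, l)) (hc l j) (hq μ).2.2.1 ((hq μ).2.2.2.1 j)
    calc _ ≤ √(t μ) * ((2 + 4 * ‖d μ j‖) * δ) := by gcongr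
      _ = _ := by ring
  · intro a ha i j
    have hε₀ : 0 ≤ ε₀ := (norm_nonneg _).trans (happ a ha)
    -- expansion
    set T : Fin I → Fin m → Fin k → B := fun i μ l => ∑ j, ι (d μ j) * r (i, μ, l) * ι (c l j)
      with hT
    have hsT : ∀ i, s i = ∑ μ, ∑ l, ((√(t μ) : ℝ) : ℂ) • T i μ l := by
      intro i
      rw [hs i]
      simp only [hT, Finset.smul_sum]
    have hTT : ∀ i μ l j μ' l', star (T i μ l) * ι a * T j μ' l' = ∑ i', ∑ j',
        ι (star (c l i')) * (star (r (i, μ, l)) * ι (star (d μ i') * a * d μ' j') *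
          r (j, μ', l')) * ι (c l' j') := by
      intro i μ l j μ' l'
      simp only [hT]
      rw [star_sum, Finset.sum_mul, Finset.sum_mul]
      refine Finset.sum_congr rfl fun i' _ => ?_
      rw [Finset.mul_sum]
      refine Finset.sum_congr rfl fun j' _ => ?_
      rw [star_mul, star_mul, ← map_star, ← map_star, map_mul, map_mul]
      simp only [mul_assoc]
    have hT0 : ∀ i μ l j μ' l', (i, μ, l) ≠ (j, μ', l') → star (T i μ l) * ι a * T j μ' l' = 0 := by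
      intro i μ l j μ' l' hne
      rw [hTT]
      refine Finset.sum_eq_zero fun i' _ => Finset.sum_eq_zero fun j' _ => ?_
      rw [hr0 _ _ hne, mul_zero, zero_mul]
    have hstar : ∀ i, star (s i) = ∑ μ, ∑ l, ((√(t μ) : ℝ) : ℂ) • star (T i μ l) := by
      intro i
      rw [hsT i]
      simp only [star_sum, star_smul, Complex.star_def, Complex.conj_ofReal]
    have hexp : star (s i) * ι a * s j = ∑ μ, ∑ l, ∑ μ', ∑ l',
        (((√(t μ) : ℝ) : ℂ) * ((√(t μ') : ℝ) : ℂ)) • (star (T i μ l) * ι a * T j μ' l') := by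
      rw [hstar i, hsT j, Finset.sum_mul, Finset.sum_mul]
      refine Finset.sum_congr rfl fun μ _ => ?_
      rw [Finset.sum_mul, Finset.sum_mul]
      refine Finset.sum_congr rfl fun l _ => ?_
      rw [Finset.mul_sum]
      refine Finset.sum_congr rfl fun μ' _ => ?_
      rw [Finset.mul_sum]
      refine Finset.sum_congr rfl fun l' _ => ?_
      rw [smul_mul_assoc, smul_mul_assoc, mul_smul_comm, smul_smul]
    by_cases hij : i = j
    · subst hij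
      rw [if_pos rfl]
      have hdiag : star (s i) * ι a * s i = ∑ μ, ∑ l, ((t μ : ℝ) : ℂ) •
          (star (T i μ l) * ι a * T i μ l) := by
        rw [hexp]
        refine Finset.sum_congr rfl fun μ _ => Finset.sum_congr rfl fun l _ => ?_
        rw [Finset.sum_eq_single μ, Finset.sum_eq_single l]
        · rw [← Complex.ofReal_mul, Real.mul_self_sqrt (ht μ)]
        · intro l' _ hl'
          rw [hT0 i μ l i μ l' (by
            intro h
            simp only [Prod.mk.injEq, true_and] at h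
            exact hl' h.symm), smul_zero]
        · intro h
          exact absurd (Finset.mem_univ l) h
        · intro μ' _ hμ'
          refine Finset.sum_eq_zero fun l' _ => ?_
          rw [hT0 i μ l i μ' l' (by
            intro h
            simp only [Prod.mk.injEq, true_and] at h
            exact hμ' h.1.symm), smul_zero]
        · intro h
          exact absurd (Finset.mem_univ μ) h
      have hdiag2 : star (s i) * ι a * s i = ∑ μ, ∑ i', ∑ j', ∑ l, ((t μ : ℝ) : ℂ) •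
          (ι (star (c l i')) * (star (r (i, μ, l)) * ι (star (d μ i') * a * d μ j') *
            r (i, μ, l)) * ι (c l j')) := by
        rw [hdiag]
        refine Finset.sum_congr rfl fun μ _ => ?_
        have h1 : ∀ l ∈ (Finset.univ : Finset (Fin k)),
            ((t μ : ℝ) : ℂ) • (star (T i μ l) * ι a * T i μ l) = ∑ i', ∑ j', ((t μ : ℝ) : ℂ) •
          (ι (star (c l i')) * (star (r (i, μ, l)) * ι (star (d μ i') * a * d μ j') *
            r (i, μ, l)) * ι (c l j')) := by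
          intro l _
          rw [hTT, Finset.smul_sum]
          refine Finset.sum_congr rfl fun i' _ => ?_
          rw [Finset.smul_sum]
        rw [Finset.sum_congr rfl h1, Finset.sum_comm]
        refine Finset.sum_congr rfl fun i' _ => ?_
        rw [Finset.sum_comm]
      set M : A := ∑ μ, ∑ i', ∑ j', ∑ l, ((t μ : ℂ) * σ μ a i' j') • (star (c l i') * c l j')
        with hM
      have hMe : ι M * e = ∑ μ, ∑ i', ∑ j', ∑ l, ((t μ : ℝ) : ℂ) •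
          (ι (star (c l i')) * (σ μ a i' j' • e) * ι (c l j')) := by
        rw [hM]
        simp only [map_sum, Finset.sum_mul, map_smul, smul_mul_assoc, mul_smul_comm, smul_smul,
          map_mul]
        refine Finset.sum_congr rfl fun μ _ => Finset.sum_congr rfl fun i' _ =>
          Finset.sum_congr rfl fun j' _ => Finset.sum_congr rfl fun l _ => ?_
        congr 1
        rw [mul_assoc, mul_assoc, (he (c l j')).eq]
      have h1 : star (s i) * ι a * s i - ι a * e =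
          (∑ μ, ∑ i', ∑ j', ∑ l, ((t μ : ℝ) : ℂ) •
          (ι (star (c l i')) * (star (r (i, μ, l)) * ι (star (d μ i') * a * d μ j') *
            r (i, μ, l) - σ μ a i' j' • e) * ι (c l j'))) + ι (M - a) * e := by
        have h2 : (∑ μ, ∑ i', ∑ j', ∑ l, ((t μ : ℝ) : ℂ) •
          (ι (star (c l i')) * (star (r (i, μ, l)) * ι (star (d μ i') * a * d μ j') *
            r (i, μ, l) - σ μ a i' j' • e) * ι (c l j'))) = star (s i) * ι a * s i - ι M * e := by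
          rw [hdiag2, hMe]
          simp only [mul_sub, sub_mul, smul_sub, Finset.sum_sub_distrib]
        rw [h2, map_sub, sub_mul]
        abel
      rw [h1]
      refine (norm_add_le _ _).trans ?_
      have h3 : ‖ι (M - a) * e‖ ≤ ε₀ := by
        refine (norm_mul_le _ _).trans ?_
        calc ‖ι (M - a)‖ * ‖e‖ ≤ ε₀ * 1 := by
              gcongr
              exact (hom_norm_le ι _).trans (happ a ha)
          _ = ε₀ := mul_one _
      have h4 : ‖∑ μ, ∑ i', ∑ j', ∑ l, ((t μ : ℝ) : ℂ) •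
          (ι (star (c l i')) * (star (r (i, μ, l)) * ι (star (d μ i') * a * d μ j') *
            r (i, μ, l) - σ μ a i' j' • e) * ι (c l j'))‖ ≤
          ∑ μ, ∑ i' : Fin k, ∑ j' : Fin k, ∑ _l : Fin k,
            t μ * (8 * ε₁ + ‖σ μ a i' j'‖ * δ) := by
        refine norm_sum_le_of_le _ fun μ _ => ?_
        refine norm_sum_le_of_le _ fun i' _ => ?_
        refine norm_sum_le_of_le _ fun j' _ => ?_
        refine norm_sum_le_of_le _ fun l _ => ?_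
        rw [norm_smul, Complex.norm_real, Real.norm_eq_abs, abs_of_nonneg (ht μ)]
        refine mul_le_mul_of_nonneg_left ?_ (ht μ)
        have h5 := compress ι (q := q μ) (hq μ).1 (hru (i, μ, l)) hδ1 he1 (hr (i, μ, l)) hε₁
          ((hq μ).2.2.2.2 a ha i' j')
        have h6 : ‖ι (star (c l i'))‖ ≤ 1 :=
          (hom_norm_le ι _).trans (by rw [norm_star]; exact hc l i')
        have h7 : ‖ι (c l j')‖ ≤ 1 := (hom_norm_le ι _).trans (hc l j')
        calc _ ≤ ‖ι (star (c l i'))‖ * ‖star (r (i, μ, l)) * ι (star (d μ i') * a * d μ j') *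
              r (i, μ, l) - σ μ a i' j' • e‖ * ‖ι (c l j')‖ := norm_mul₃_le
          _ ≤ 1 * (8 * ε₁ + ‖σ μ a i' j'‖ * δ) * 1 := by gcongr
          _ = _ := by ring
      have h5 : ∑ μ, ∑ i' : Fin k, ∑ j' : Fin k, ∑ _l : Fin k,
            t μ * (8 * ε₁ + ‖σ μ a i' j'‖ * δ) =
          8 * (k : ℝ) ^ 3 * ε₁ * ∑ μ, t μ +
            δ * ∑ μ, ∑ i, ∑ j, ∑ _l : Fin k, t μ * ‖σ μ a i j‖ := by
        have e1 : ∀ μ, ∑ i' : Fin k, ∑ j' : Fin k, ∑ _l : Fin k,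
            t μ * (8 * ε₁ + ‖σ μ a i' j'‖ * δ) = 8 * (k : ℝ) ^ 3 * ε₁ * t μ +
            δ * ∑ i, ∑ j, ∑ _l : Fin k, t μ * ‖σ μ a i j‖ := by
          intro μ
          simp only [mul_add, Finset.sum_add_distrib, Finset.sum_const, Finset.card_univ,
            Fintype.card_fin, nsmul_eq_mul, Finset.mul_sum]
          congr 1
          · ring
          · refine Finset.sum_congr rfl fun i' _ => Finset.sum_congr rfl fun j' _ => ?_
            ring
        rw [Finset.sum_congr rfl fun μ _ => e1 μ, Finset.sum_add_distrib, ← Finset.mul_sum,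
          ← Finset.mul_sum]
      have h6 : ∑ μ, ∑ i, ∑ j, ∑ _l : Fin k, t μ * ‖σ μ a i j‖ ≤ C1 := by
        rw [hC1]
        exact Finset.single_le_sum (f := fun a => ∑ μ, ∑ i, ∑ j, ∑ _l : Fin k, t μ * ‖σ μ a i j‖)
          (fun a _ => hC1a a) ha
      have h7 : δ * ∑ μ, ∑ i, ∑ j, ∑ _l : Fin k, t μ * ‖σ μ a i j‖ ≤ ε :=
        (mul_le_mul_of_nonneg_left h6 hδ.le).trans hδC1
      have h8 : 8 * (k : ℝ) ^ 3 * ε₁ * ∑ μ, t μ ≤ 8 * (k : ℝ) ^ 4 * ε₁ := by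
        calc 8 * (k : ℝ) ^ 3 * ε₁ * ∑ μ, t μ ≤ 8 * (k : ℝ) ^ 3 * ε₁ * k :=
              mul_le_mul_of_nonneg_left hts (by positivity)
          _ = _ := by ring
      rw [h5] at h4
      linarith
    · rw [if_neg hij, sub_zero]
      have h0 : star (s i) * ι a * s j = 0 := by
        rw [hexp]
        refine Finset.sum_eq_zero fun μ _ => Finset.sum_eq_zero fun l _ =>
          Finset.sum_eq_zero fun μ' _ => Finset.sum_eq_zero fun l' _ => ?_
        rw [hT0 i μ l j μ' l' (by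
          intro h
          simp only [Prod.mk.injEq] at h
          exact hij h.1), smul_zero]
      rw [h0, norm_zero]
      positivity

end SISumAux

theorem sum_est {A : Type u} [CStarAlgebra A] [PartialOrder A] [StarOrderedRing A] {I k m : ℕ}
    (F : Finset A) {c : Fin k → Fin k → A} (hc : ∀ l j, ‖c l j‖ ≤ 1) {t : Fin m → ℝ}
    (ht : ∀ μ, 0 ≤ t μ) (hts : ∑ μ, t μ ≤ k) (d : Fin m → Fin k → A)
    (σ : Fin m → A → Fin k → Fin k → ℂ) {ε₀ : ℝ}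
    (happ : ∀ a ∈ F,
      ‖(∑ μ, ∑ i, ∑ j, ∑ l, ((t μ : ℂ) * σ μ a i j) • (star (c l i) * c l j)) - a‖ ≤ ε₀)
    {ε₁ : ℝ} (hε₁ : 0 ≤ ε₁) {ε : ℝ} (hε : 0 < ε) :
    ∃ δ : ℝ, 0 < δ ∧ ∀ (p : A) (q : Fin m → A), ‖p‖ ≤ 1 →
      (∀ μ, 0 ≤ q μ ∧ ‖q μ‖ ≤ 1 ∧ ‖p * q μ - q μ‖ ≤ δ ∧ (∀ j, ‖p * d μ j - d μ j * p‖ ≤ δ) ∧
        ∀ a ∈ F, ∀ i j,
          ‖q μ * (star (d μ i) * a * d μ j) * q μ - σ μ a i j • (q μ * q μ)‖ ≤ ε₁) →
      ∀ e : Seq A, (∀ a, Commute (Seq.const a) e) → ‖e‖ ≤ 1 →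
      ∀ r : Fin I × Fin m × Fin k → Seq A, (∀ x, ‖star (r x) * r x - e‖ ≤ δ) →
      (∀ x y, x ≠ y → ∀ a, star (r x) * Seq.const a * r y = 0) →
      (∀ x, Seq.const (cfc uf (q x.2.1)) * r x = r x) →
      ∀ s : Fin I → Seq A, (∀ i, s i = ∑ μ, ∑ l, ∑ j, ((√(t μ) : ℝ) : ℂ) •
        (Seq.const (d μ j) * r (i, μ, l) * Seq.const (c l j))) →
      (∀ i, ‖Seq.const p * s i - s i‖ ≤ ε) ∧ ∀ a ∈ F, ∀ i j,
        ‖star (s i) * Seq.const a * s j - (if i = j then Seq.const a * e else 0)‖ ≤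
          8 * (k : ℝ) ^ 4 * ε₁ + ε₀ + ε :=
  SISumAux.gen (I := I) (Seq.const : A →⋆ₐ[ℂ] Seq A) F hc ht hts d σ happ hε₁ hε

end Pool.Agent.Lib.EJS
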