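import Pool.Agent.Lib.EJS.SIPick
import Pool.Agent.Lib.EJS.SIBuild
import Pool.Agent.Lib.EJS.SISum
import Pool.Agent.Lib.EJS.SIDefsB

/-!
# Part SI: Lemma S (SI7), assembly

PROOF.  (All imports are black boxes.)  Given `I, F, K, ε` (w.l.o.g. `ε ≤ 1`), let `F' = insert 1 F`.  `pick` with `F'`, `K`, `ε₀ = ε/4` gives `k, c`; with `ε₁ = ε / (4 (8 k^4 + 1))` it gives
`m, t, d, σ`.  `sum_est` with `ε/4` gives `δ`; w.l.o.g. use `min δ ε` in `pick` (`p, q`) and `δ` in `build` with `X = Fin I × Fin m × Fin k` and `q x.2.1` (`r`).  Define `s i` by the formula in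
`sum_est`.  Then `8 k^4 ε₁ + ε/4 + ε/4 ≤ ε`.  `f' * s i = s i` since `f'` commutes with constants and `f' * r x = r x`.  `‖s i‖^2 = ‖star (s i) * s i‖ ≤ ‖e‖ + ε ≤ 2`
(`a = 1 ∈ F'`; `‖e‖ ≤ 1` from `0 ≤ e ≤ 1`), so `‖s i‖ ≤ 2`.
-/

open scoped ComplexOrder
open Filter Topology Pool.Agent.Lib.EqGamma

namespace Pool.Agent.Lib.EJS

universe u v

theorem approxS {A Z : Type u} [CStarAlgebra A] [PartialOrder A] [StarOrderedRing A]
    [TopologicalSpace.SeparableSpace A] [IsSimpleRing A] (hA : IsNuclear A) [CStarAlgebra Z]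
    (hZ : IsJiangSu Z) (hH : SeqHoms Z A) (hC : Compar A) {G : Type v} [Group G]
    {α : G →* (A ≃⋆ₐ[ℂ] A)} {e f f' : Seq A} {w : ℕ} {v : Fin w → Seq A}
    (h : SIData α e f f' v) : ApproxS α e f' := by
  classical
  intro I F K hK ε hε
  set ε' := min ε 1 with hε'
  have hε'0 : 0 < ε' := lt_min hε one_pos
  have hε'1 : ε' ≤ 1 := min_le_right _ _
  have hε'2 : ε' ≤ ε := min_le_left _ _
  obtain ⟨k, c, hc, hp⟩ := pick hA α (insert 1 F) K hK (ε₀ := ε' / 4) (by positivity)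
  have hk0 : (0 : ℝ) < 8 * (k : ℝ) ^ 4 + 1 := by positivity
  obtain ⟨m, t, d, σ, ht, hts, happ, hδ⟩ := hp (ε' / (4 * (8 * (k : ℝ) ^ 4 + 1)))
    (by positivity)
  obtain ⟨δ, hδ0, hsum⟩ := sum_est (I := I) (insert 1 F) hc ht hts d σ happ
    (ε₁ := ε' / (4 * (8 * (k : ℝ) ^ 4 + 1))) (by positivity) (ε := ε' / 4) (by positivity)
  obtain ⟨p, q, hps, hp1, hpa, hpg, hq⟩ := hδ (min δ ε') (lt_min hδ0 hε'0)
  obtain ⟨r, hr1, hr2, hr3, hr4⟩ := build hZ hH hC h (X := Fin I × Fin m × Fin k)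
    (fun x => q x.2.1) (fun x => ⟨(hq x.2.1).1, (hq x.2.1).2.1, (hq x.2.1).2.2.1⟩) hδ0
  have he : ∀ a, Commute (Seq.const a) e := h.e_mem.1
  have hen : ‖e‖ ≤ 1 := (CStarAlgebra.norm_le_one_iff_of_nonneg e h.e_nonneg).2 h.e_le
  obtain ⟨h1, h2⟩ := hsum p q hp1 (fun μ => ⟨(hq μ).1, (hq μ).2.1,
      (hq μ).2.2.2.1.trans (min_le_left _ _),
      fun j => ((hq μ).2.2.2.2.1 j).trans (min_le_left _ _), (hq μ).2.2.2.2.2⟩)
    e he hen r hr1 hr2 hr4
    (fun i => ∑ μ, ∑ l, ∑ j, ((√(t μ) : ℝ) : ℂ) •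
        (Seq.const (d μ j) * r (i, μ, l) * Seq.const (c l j))) (fun i => rfl)
  have htot : 8 * (k : ℝ) ^ 4 * (ε' / (4 * (8 * (k : ℝ) ^ 4 + 1))) + ε' / 4 + ε' / 4 ≤ ε' := by
    have h3 : 8 * (k : ℝ) ^ 4 * (ε' / (4 * (8 * (k : ℝ) ^ 4 + 1))) ≤ ε' / 4 := by
      rw [mul_div_assoc', div_le_div_iff₀ (by positivity) (by norm_num)]
      nlinarith
    linarith
  refine ⟨p, fun i => ∑ μ, ∑ l, ∑ j, ((√(t μ) : ℝ) : ℂ) •
        (Seq.const (d μ j) * r (i, μ, l) * Seq.const (c l j)), hps, hp1, ?_, ?_, ?_, ?_⟩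
  · intro a ha
    exact (hpa a (Finset.mem_insert_of_mem ha)).trans ((min_le_right _ _).trans hε'2)
  · intro g hg
    exact (hpg g hg).trans ((min_le_right _ _).trans hε'2)
  · intro i
    refine ⟨(h1 i).trans (by linarith), ?_, ?_⟩
    · have h3 := (h2 1 (Finset.mem_insert_self 1 F) i i).trans htot
      rw [if_pos rfl, map_one, one_mul, mul_one] at h3
      set s := ∑ μ, ∑ l, ∑ j, ((√(t μ) : ℝ) : ℂ) •
        (Seq.const (d μ j) * r (i, μ, l) * Seq.const (c l j)) with hs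
      have h4 : ‖star s * s‖ ≤ 2 := by
        have h5 : star s * s = (star s * s - e) + e := by abel
        rw [h5]
        exact (norm_add_le _ _).trans (by linarith)
      rw [CStarRing.norm_star_mul_self] at h4
      nlinarith [norm_nonneg s]
    · change f' * (∑ μ, ∑ l, ∑ j, ((√(t μ) : ℝ) : ℂ) •
        (Seq.const (d μ j) * r (i, μ, l) * Seq.const (c l j))) = _
      rw [Finset.mul_sum]
      refine Finset.sum_congr rfl fun μ _ => ?_
      rw [Finset.mul_sum]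
      refine Finset.sum_congr rfl fun l _ => ?_
      rw [Finset.mul_sum]
      refine Finset.sum_congr rfl fun j _ => ?_
      rw [mul_smul_comm]
      congr 1
      have h3 := (h.f'_mem.1 (d μ j)).eq
      calc f' * (Seq.const (d μ j) * r (i, μ, l) * Seq.const (c l j))
          = (f' * Seq.const (d μ j)) * r (i, μ, l) * Seq.const (c l j) := by noncomm_ring
        _ = (Seq.const (d μ j) * f') * r (i, μ, l) * Seq.const (c l j) := by rw [h3]
        _ = Seq.const (d μ j) * (f' * r (i, μ, l)) * Seq.const (c l j) := by noncomm_ring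
        _ = _ := by rw [hr3]
  · intro a ha i j
    exact (h2 a (Finset.mem_insert_of_mem ha) i j).trans (htot.trans hε'2)

end Pool.Agent.Lib.EJS
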