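import Pool.Agent.Lib.EJS.SIFun

/-!
# Part SI: Rordam-Winter pairs from order zero matrix units, tracial case (SI10, case 1)

PROOF.  Let `e_ij`, `h` be as in `Oz α (n+1)` (all in `fix α`).  `h e_ij = e_ij h` (`e_ij h = ∑_m e_ij e_mm = e_ij e_jj = h e_ij`).  `0 ≤ h ≤ 1`.  All functional calculus is in the closed star
subalgebra `fix α` (or: `cfc` of a central invariant self-adjoint element is central and invariant: `Commute.cfc_real`-type lemmas and `StarAlgHomClass.map_cfc` for `Seq.act α g`).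
`μ := vf`-like: `vf t = 1/max t (1/2)`, `t vf t = uf t` (`uf_eq`); `g₁(t) := gf t / t` (continuous on `[0,1]`, zero for `t ≤ 1/2`; e.g. `gf t * vf t`: they agree for all
`t ≥ 0`).  Put `V := cfc vf h`, `U := cfc uf h = h V`, `Gg := cfc gf h`, `G₁ := Gg V` (so `h G₁ = U Gg = Gg` by `uf_mul_gf`).
`e'_ij := e_ij V`, `f' := e'_00 = e_00 V`, `f := e_00 G₁`, `v j := e_0j`, `e := 1 - U`.
- `e'_ij e'_kl = δ_jk h V^2 e_il = δ_jk U e'_il`, `∑ e'_mm = h V = U`, `star e'_ij = e'_ji`.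
- `f' f = e_00 V e_00 G₁ = h e_00 V G₁ = e_00 U G₁ = e_00 G₁ = f` (`U Gg = Gg`).
- `f ≥ 0`: `f = e_00 Gg V` and `e_00^2 = h e_00`, so `star (e_00 c) * (e_00 c) = h e_00 c^2` with `c := cfc √(gf) h * V` (`h V^2 Gg = U V Gg = V Gg`): `f = star (e_00 c) * (e_00 c)`.
  `f ≤ 1`: `f^2 = e_00^2 G₁^2 = h e_00 G₁^2 = f (h G₁) = f Gg`, `‖f‖^2 = ‖f^2‖ ≤ ‖f‖ ‖Gg‖ ≤ ‖f‖`, so `‖f‖ ≤ 1`.
- `∑_j star (v j) * f * v j = ∑_j e_j0 e_00 G₁ e_0j = ∑_j h^2 e_jj G₁ = h^3 G₁ = h^2 Gg`; modulo `J A` `h = 1`, so it is `gf 1 = 1` (`1 - h ∈ J A`; `StarAlgHomClass.map_cfc` for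
  `TA.of`: `TA.of h = 1`, `cfc gf 1 = 1`).  Likewise `U ≡ 1`, i.e. `e = 1 - U ∈ J A`; `0 ≤ e ≤ 1`.
So `SIData α e f f' v` (with `full'` from `hτ`).  Given `w ∈ fix α`, `star w * w = e = 1 - U`, `e'_00 w = w`: the pair `(e'_ij, w)` in `fix α` (as a type) is a pair of size `n + 1`:
`pos`: `U = star c * c` with `c = √U` in `fix α`.
-/

open scoped ComplexOrder
open Filter Topology Pool.Agent.Lib.EqGamma

namespace Pool.Agent.Lib.EJS

universe u v

namespace SIRWaAux

variable {A : Type u} [CStarAlgebra A] {G : Type v} [Group G] {α : G →* (A ≃⋆ₐ[ℂ] A)}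

theorem cfc_mem_fix {f : ℝ → ℝ} (hf : Continuous f) {h : Seq A} (hsa : IsSelfAdjoint h)
    (hh : h ∈ fix α) : cfc f h ∈ fix α := by
  refine ⟨fun a => ?_, fun g => ?_⟩
  · exact ((hh.1 a).symm.cfc_real f).symm
  · have h1 : Seq.act α g (cfc f h) = cfc f (Seq.act α g h) :=
      StarAlgHomClass.map_cfc (Seq.act α g) f h hf.continuousOn (shom_continuous _) hsa
        (hsa.map _)
    rw [h1, hh.2 g]

theorem of_cfc {f : ℝ → ℝ} (hf : Continuous f) {h : Seq A} (hsa : IsSelfAdjoint h)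
    (h1 : TA.of h = 1) : TA.of (cfc f h) = algebraMap ℝ (TA A) (f 1) := by
  have h2 : TA.of (cfc f h) = cfc f (TA.of h) :=
    StarAlgHomClass.map_cfc (TA.of : Seq A →⋆ₐ[ℂ] TA A) f h hf.continuousOn (shom_continuous _) hsa
      (hsa.map _)
  rw [h2, h1, cfc_apply_one]

/-- the matrix units and the functions of `h` -/
structure D (α : G →* (A ≃⋆ₐ[ℂ] A)) (n : ℕ) where
  e : Fin (n + 1) → Fin (n + 1) → Seq A
  h : Seq A
  e_mem : ∀ i j, e i j ∈ fix α
  h_mem : h ∈ fix α
  h_nonneg : 0 ≤ h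
  h_le : h ≤ 1
  of_h : TA.of h = 1
  star_e : ∀ i j, star (e i j) = e j i
  sum_e : ∑ i, e i i = h
  mul_e : ∀ i j l m, e i j * e l m = if j = l then h * e i m else 0

namespace D

variable {n : ℕ} (d : D α n)

theorem sa : IsSelfAdjoint d.h := IsSelfAdjoint.of_nonneg d.h_nonneg

theorem comm (i j : Fin (n + 1)) : Commute d.h (d.e i j) := by
  have h1 : d.e i j * d.h = d.h * d.e i j := by
    conv_lhs => rw [← d.sum_e, Finset.mul_sum]
    rw [Finset.sum_eq_single j]
    · rw [d.mul_e, if_pos rfl]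
    · intro b _ hb
      rw [d.mul_e, if_neg (Ne.symm hb)]
    · intro h
      exact absurd (Finset.mem_univ _) h
  exact h1.symm

theorem commF (f : ℝ → ℝ) (i j : Fin (n + 1)) : Commute (cfc f d.h) (d.e i j) :=
  (d.comm i j).cfc_real f

theorem commh (f : ℝ → ℝ) : Commute (cfc f d.h) d.h := (Commute.refl d.h).cfc_real f

theorem commFF (f g : ℝ → ℝ) : Commute (cfc f d.h) (cfc g d.h) := (d.commh g).symm.cfc_real f

theorem saF (f : ℝ → ℝ) : star (cfc f d.h) = cfc f d.h :=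
  (cfc_predicate (R := ℝ) f d.h : IsSelfAdjoint _).star_eq

/-- `V` -/
noncomputable def V : Seq A := cfc vf d.h

/-- `U` -/
noncomputable def U : Seq A := cfc uf d.h

/-- `gf h` -/
noncomputable def Gg : Seq A := cfc gf d.h

theorem hV : d.h * d.V = d.U := (uf_eq d.h_nonneg).1.symm

theorem UG : d.U * d.Gg = d.Gg := uf_mul_gf d.h_nonneg

theorem Ve (i j : Fin (n + 1)) : d.e i j * d.V = d.V * d.e i j := (d.commF vf i j).eq.symm

theorem Ge (i j : Fin (n + 1)) : d.e i j * d.Gg = d.Gg * d.e i j := (d.commF gf i j).eq.symm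

theorem he (i j : Fin (n + 1)) : d.e i j * d.h = d.h * d.e i j := (d.comm i j).eq.symm

theorem Vh : d.V * d.h = d.h * d.V := (d.commh vf).eq

theorem Gh : d.Gg * d.h = d.h * d.Gg := (d.commh gf).eq

theorem GV : d.Gg * d.V = d.V * d.Gg := (d.commFF gf vf).eq

/-- the first element -/
noncomputable def ff : Seq A := d.e 0 0 * (d.Gg * d.V)

/-- the second element -/
noncomputable def ff' : Seq A := d.e 0 0 * d.V

theorem hGV : d.h * (d.Gg * d.V) = d.Gg := by
  rw [d.GV, ← mul_assoc, d.hV, d.UG]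

theorem ff_nonneg : 0 ≤ d.ff := by
  obtain ⟨r, hr⟩ : ∃ r : Seq A, r = cfc (fun t => √(gf t)) d.h := ⟨_, rfl⟩
  have hr2 : r * r = d.Gg := by
    rw [hr, ← cfc_mul (fun t => √(gf t)) (fun t => √(gf t)) d.h (Real.continuous_sqrt.comp continuous_gf).continuousOn
      (Real.continuous_sqrt.comp continuous_gf).continuousOn]
    refine cfc_congr fun t _ => ?_
    exact Real.mul_self_sqrt (le_max_left _ _)
  have hrs : star r = r := by rw [hr]; exact d.saF _
  have hre : r * d.e 0 0 = d.e 0 0 * r := by rw [hr]; exact (d.commF _ 0 0).eq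
  have hrh : r * d.h = d.h * r := by rw [hr]; exact (d.commh _).eq
  have hrV : r * d.V = d.V * r := by rw [hr]; exact (d.commFF _ vf).eq
  have hVs : star d.V = d.V := d.saF _
  have key : d.ff = star (d.e 0 0 * (r * d.V)) * (d.e 0 0 * (r * d.V)) := by
    rw [star_mul, star_mul, hrs, hVs, d.star_e]
    calc d.ff = d.e 0 0 * (d.Gg * d.V) := rfl
      _ = d.h * (d.Gg * d.V) * (d.e 0 0 * d.V) := by
          rw [d.hGV, ← mul_assoc, d.Ge, mul_assoc]
      _ = d.h * (r * r * d.V) * (d.e 0 0 * d.V) := by rw [hr2]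
      _ = d.V * r * (d.h * d.e 0 0) * (r * d.V) := by
          calc d.h * (r * r * d.V) * (d.e 0 0 * d.V)
              = d.h * (r * (r * d.V)) * (d.e 0 0 * d.V) := by simp only [mul_assoc]
            _ = d.h * (r * (d.V * r)) * (d.e 0 0 * d.V) := by rw [hrV]
            _ = d.h * (r * d.V) * (r * d.e 0 0) * d.V := by simp only [mul_assoc]
            _ = d.h * (d.V * r) * (d.e 0 0 * r) * d.V := by rw [hrV, hre]
            _ = (d.h * d.V) * (r * d.e 0 0) * (r * d.V) := by simp only [mul_assoc]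
            _ = (d.V * d.h) * (r * d.e 0 0) * (r * d.V) := by rw [d.Vh]
            _ = d.V * (d.h * r) * d.e 0 0 * (r * d.V) := by simp only [mul_assoc]
            _ = d.V * (r * d.h) * d.e 0 0 * (r * d.V) := by rw [hrh]
            _ = d.V * r * (d.h * d.e 0 0) * (r * d.V) := by simp only [mul_assoc]
      _ = d.V * r * (d.e 0 0 * d.e 0 0) * (r * d.V) := by rw [d.mul_e 0 0 0 0, if_pos rfl]
      _ = d.V * r * d.e 0 0 * (d.e 0 0 * (r * d.V)) := by simp only [mul_assoc]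
  rw [key]
  exact star_mul_self_nonneg _

theorem ff_sq : d.ff * d.ff = d.ff * d.Gg := by
  calc d.ff * d.ff = d.e 0 0 * ((d.Gg * d.V) * d.e 0 0) * (d.Gg * d.V) := by
        unfold ff
        simp only [mul_assoc]
    _ = d.e 0 0 * (d.e 0 0 * (d.Gg * d.V)) * (d.Gg * d.V) := by
        congr 2
        rw [mul_assoc, ← d.Ve, ← mul_assoc, ← d.Ge, mul_assoc]
    _ = (d.e 0 0 * d.e 0 0) * (d.Gg * d.V) * (d.Gg * d.V) := by simp only [mul_assoc]
    _ = (d.h * d.e 0 0) * (d.Gg * d.V) * (d.Gg * d.V) := by rw [d.mul_e 0 0 0 0, if_pos rfl]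
    _ = (d.e 0 0 * d.h) * (d.Gg * d.V) * (d.Gg * d.V) := by rw [d.he]
    _ = d.e 0 0 * (d.h * (d.Gg * d.V)) * (d.Gg * d.V) := by simp only [mul_assoc]
    _ = d.e 0 0 * d.Gg * (d.Gg * d.V) := by rw [d.hGV]
    _ = d.e 0 0 * d.Gg * (d.V * d.Gg) := by rw [d.GV]
    _ = d.ff * d.Gg := by
        unfold ff
        simp only [mul_assoc]

theorem ff_le : d.ff ≤ 1 := by
  rw [← CStarAlgebra.norm_le_one_iff_of_nonneg _ d.ff_nonneg]
  have hsa : star d.ff = d.ff := (IsSelfAdjoint.of_nonneg d.ff_nonneg).star_eq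
  have h1 : ‖d.ff‖ * ‖d.ff‖ ≤ ‖d.ff‖ * 1 := by
    rw [← CStarRing.norm_star_mul_self, hsa, d.ff_sq]
    refine (norm_mul_le _ _).trans (mul_le_mul_of_nonneg_left ?_ (norm_nonneg _))
    refine (gf_le_one d.h_nonneg ?_).2
    rw [CStarAlgebra.norm_le_one_iff_of_nonneg _ d.h_nonneg]
    exact d.h_le
  rcases (norm_nonneg d.ff).eq_or_lt with h2 | h2
  · rw [← h2]
    exact zero_le_one
  · exact le_of_mul_le_mul_left h1 h2

theorem ff'_ff : d.ff' * d.ff = d.ff := by
  calc d.ff' * d.ff = d.e 0 0 * (d.V * d.e 0 0) * (d.Gg * d.V) := by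
        unfold ff ff'
        simp only [mul_assoc]
    _ = d.e 0 0 * (d.e 0 0 * d.V) * (d.Gg * d.V) := by rw [d.Ve]
    _ = (d.e 0 0 * d.e 0 0) * d.V * (d.Gg * d.V) := by simp only [mul_assoc]
    _ = (d.h * d.e 0 0) * d.V * (d.Gg * d.V) := by rw [d.mul_e 0 0 0 0, if_pos rfl]
    _ = (d.e 0 0 * d.h) * d.V * (d.Gg * d.V) := by rw [d.he]
    _ = d.e 0 0 * (((d.h * d.V) * d.Gg) * d.V) := by simp only [mul_assoc]
    _ = d.ff := by rw [d.hV, d.UG]; rfl

theorem mul_mem' {x y : Seq A} (hx : x ∈ fix α) (hy : y ∈ fix α) : x * y ∈ fix α :=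
  (fix α).mul_mem hx hy

theorem V_mem : d.V ∈ fix α := cfc_mem_fix continuous_vf d.sa d.h_mem

theorem U_mem : d.U ∈ fix α := cfc_mem_fix continuous_uf d.sa d.h_mem

theorem G_mem : d.Gg ∈ fix α := cfc_mem_fix continuous_gf d.sa d.h_mem

theorem of_U : TA.of d.U = 1 := by
  have h1 := of_cfc continuous_uf d.sa d.of_h
  have h2 : uf 1 = 1 := by unfold uf; norm_num
  rw [h2, map_one] at h1
  exact h1

theorem of_G : TA.of d.Gg = 1 := by
  have h1 := of_cfc continuous_gf d.sa d.of_h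
  have h2 : gf 1 = 1 := by unfold gf; norm_num
  rw [h2, map_one] at h1
  exact h1

theorem sum_v : ∑ j, star (d.e 0 j) * d.ff * d.e 0 j = d.h * d.h * d.Gg := by
  have h1 : ∀ j, star (d.e 0 j) * d.ff * d.e 0 j = d.h * d.Gg * d.e j j := by
    intro j
    rw [d.star_e]
    calc d.e j 0 * d.ff * d.e 0 j = (d.e j 0 * d.e 0 0) * (d.Gg * (d.V * d.e 0 j)) := by
          unfold ff
          simp only [mul_assoc]
      _ = (d.h * d.e j 0) * (d.Gg * (d.e 0 j * d.V)) := by
          rw [d.mul_e j 0 0 0, if_pos rfl, d.Ve]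
      _ = d.h * ((d.e j 0 * d.Gg) * (d.e 0 j * d.V)) := by simp only [mul_assoc]
      _ = d.h * ((d.Gg * d.e j 0) * (d.e 0 j * d.V)) := by rw [d.Ge]
      _ = d.h * (d.Gg * ((d.e j 0 * d.e 0 j) * d.V)) := by simp only [mul_assoc]
      _ = d.h * (d.Gg * ((d.h * d.e j j) * d.V)) := by rw [d.mul_e j 0 0 j, if_pos rfl]
      _ = d.h * (d.Gg * (d.h * (d.e j j * d.V))) := by simp only [mul_assoc]
      _ = d.h * (d.Gg * (d.h * (d.V * d.e j j))) := by rw [d.Ve]
      _ = d.h * (d.Gg * ((d.h * d.V) * d.e j j)) := by simp only [mul_assoc]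
      _ = d.h * ((d.Gg * d.U) * d.e j j) := by rw [d.hV, mul_assoc]
      _ = d.h * (d.Gg * d.e j j) := by
          rw [show d.Gg * d.U = d.U * d.Gg from (d.commFF gf uf).eq, d.UG]
      _ = d.h * d.Gg * d.e j j := by rw [mul_assoc]
  rw [Finset.sum_congr rfl fun j _ => h1 j, ← Finset.mul_sum, d.sum_e, mul_assoc, d.Gh, mul_assoc]

theorem U_root : ∃ c ∈ fix α, d.U = star c * c := by
  refine ⟨cfc (fun t => √(uf t)) d.h, cfc_mem_fix ?_ d.sa d.h_mem, ?_⟩
  · exact Real.continuous_sqrt.comp continuous_uf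
  · rw [d.saF, ← cfc_mul (fun t => √(uf t)) (fun t => √(uf t)) d.h (Real.continuous_sqrt.comp continuous_uf).continuousOn
      (Real.continuous_sqrt.comp continuous_uf).continuousOn]
    refine cfc_congr fun t ht => ?_
    have h1 := (spec_bds d.h_nonneg t ht).1
    exact (Real.mul_self_sqrt (le_min zero_le_one (by linarith))).symm

end D

end SIRWaAux

theorem rw_of_oz {A : Type u} [CStarAlgebra A] {G : Type v} [Group G] {α : G →* (A ≃⋆ₐ[ℂ] A)}
    (hτ : ∃ τ : A →ₗ[ℂ] ℂ, TracialState τ) {n : ℕ} (h : Oz α (n + 1)) :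
    ∃ (e f f' : Seq A) (v : Fin (n + 1) → Seq A), SIData α e f f' v ∧
      ∀ w : Seq A, w ∈ fix α → star w * w = e → f' * w = w → HasRW n (fix α) := by
  obtain ⟨e, h0, he, hh, ⟨c, hc⟩, ⟨c', hc'⟩, hJ, hs, hsum, hmul⟩ := h
  let d : SIRWaAux.D α n :=
    { e := e
      h := h0
      e_mem := he
      h_mem := hh
      h_nonneg := by rw [hc]; exact star_mul_self_nonneg _
      h_le := by
        rw [← sub_nonneg, hc']
        exact star_mul_self_nonneg _
      of_h := by
        have h1 := TA.of_eq_zero.2 hJ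
        rw [map_sub, map_one, sub_eq_zero] at h1
        exact h1.symm
      star_e := hs
      sum_e := hsum
      mul_e := hmul }
  have hG1 : d.Gg * d.V ∈ fix α := (fix α).mul_mem d.G_mem d.V_mem
  refine ⟨1 - d.U, d.ff, d.ff', fun j => d.e 0 j, ?_, ?_⟩
  · exact
      { e_mem := (fix α).sub_mem (fix α).one_mem d.U_mem
        f_mem := (fix α).mul_mem (d.e_mem 0 0) hG1
        f'_mem := (fix α).mul_mem (d.e_mem 0 0) d.V_mem
        v_mem := fun j => d.e_mem 0 j
        e_nonneg := sub_nonneg.2 (uf_le_one d.h_nonneg).1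
        e_le := sub_le_self _ (uf_nonneg d.h_nonneg)
        f_nonneg := d.ff_nonneg
        f_le := d.ff_le
        f'_f := d.ff'_ff
        e_J := by
          rw [← TA.of_eq_zero, map_sub, map_one, d.of_U, sub_self]
        full := by
          rw [d.sum_v, ← TA.of_eq_zero, map_sub, map_one, map_mul, map_mul, d.of_h, d.of_G,
            mul_one, mul_one, sub_self]
        full' := Or.inl hτ }
  · intro w hw hww hfw
    obtain ⟨r, hr, hr2⟩ := d.U_root
    have hVs : star d.V = d.V := d.saF _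
    have hsumV : ∑ m, d.e m m * d.V = d.U := by
      rw [← Finset.sum_mul, d.sum_e, d.hV]
    refine ⟨fun i j => ⟨d.e i j * d.V, (fix α).mul_mem (d.e_mem i j) d.V_mem⟩, ⟨w, hw⟩, ?_, ?_, ?_,
      ?_, ?_⟩
    · intro i j
      apply Subtype.ext
      change star (d.e i j * d.V) = d.e j i * d.V
      rw [star_mul, hVs, d.star_e, d.Ve]
    · intro i j k l
      apply Subtype.ext
      have e1 : ((∑ m, (⟨d.e m m * d.V, (fix α).mul_mem (d.e_mem m m) d.V_mem⟩ : fix α) :
          fix α) : Seq A) = d.U := by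
        rw [AddSubmonoidClass.coe_finsetSum]
        exact hsumV
      change d.e i j * d.V * (d.e k l * d.V) = _
      have e2 : d.e i j * d.V * (d.e k l * d.V) = d.e i j * d.e k l * (d.V * d.V) := by
        calc d.e i j * d.V * (d.e k l * d.V) = d.e i j * (d.V * d.e k l) * d.V := by
              simp only [mul_assoc]
          _ = d.e i j * (d.e k l * d.V) * d.V := by rw [d.Ve]
          _ = d.e i j * d.e k l * (d.V * d.V) := by simp only [mul_assoc]
      rw [e2, d.mul_e]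
      split_ifs with hjk
      · change d.h * d.e i l * (d.V * d.V) = _
        rw [MulMemClass.coe_mul, e1]
        change _ = d.U * (d.e i l * d.V)
        calc d.h * d.e i l * (d.V * d.V) = d.h * (d.e i l * d.V) * d.V := by
              simp only [mul_assoc]
          _ = d.h * (d.V * d.e i l) * d.V := by rw [d.Ve]
          _ = (d.h * d.V) * (d.e i l * d.V) := by simp only [mul_assoc]
          _ = d.U * (d.e i l * d.V) := by rw [d.hV]
      · rw [zero_mul]
        rfl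
    · refine ⟨⟨r, hr⟩, ?_⟩
      apply Subtype.ext
      rw [AddSubmonoidClass.coe_finsetSum]
      change ∑ m, d.e m m * d.V = star r * r
      rw [hsumV, hr2]
    · apply Subtype.ext
      change star w * w = 1 - ((∑ m, (⟨d.e m m * d.V, _⟩ : fix α) : fix α) : Seq A)
      rw [AddSubmonoidClass.coe_finsetSum]
      change star w * w = 1 - ∑ m, d.e m m * d.V
      rw [hsumV, hww]
    · apply Subtype.ext
      exact hfw

end Pool.Agent.Lib.EJS
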