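import Pool.Agent.Lib.EJS.SIDefs

/-!
# Part SI: Rordam-Winter pairs from isometries, traceless case (SI10, case 2)

PROOF.  `traceless_data`: `J A` contains everything, since `Nul` is vacuous without tracial states; the other fields are trivial (`full` is `1 - 1 = 0`, `full'` the second
alternative).  `rw_of_isometries`: in the type `fix α` put `e i j := w i * star (w j)`, `p := ∑_m w m * star (w m)`, `s := w 0 * (1 - p)`.  `e i j * e k l = δ_jk e i l` and `p * w i = w i`, so
`p * e i l = e i l`; `∑ e m m = p = star p * p` (projection); `star s * s = (1-p) (star (w 0) * w 0) (1-p) = 1 - p`; `e 0 0 * s = w 0 (star (w 0) w 0) (1-p) = s`.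
-/

open scoped ComplexOrder
open Filter Topology Pool.Agent.Lib.EqGamma

namespace Pool.Agent.Lib.EJS

universe u v

theorem traceless_data {A : Type u} [CStarAlgebra A] {G : Type v} [Group G]
    (α : G →* (A ≃⋆ₐ[ℂ] A)) (hτ : ¬ ∃ τ : A →ₗ[ℂ] ℂ, TracialState τ) :
    SIData α 1 1 1 (fun _ : Fin 1 => (1 : Seq A)) := by
  have hJ : (1 : Seq A) ∈ J A := by
    refine ⟨1, map_one _, ?_⟩
    intro ε _
    exact Eventually.of_forall fun _ τ hτ' => absurd ⟨τ, hτ'⟩ hτ
  have hs : ∑ j : Fin 1, star ((fun _ : Fin 1 => (1 : Seq A)) j) * 1 *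
      (fun _ : Fin 1 => (1 : Seq A)) j = 1 := by simp
  refine
    { e_mem := one_mem _
      f_mem := one_mem _
      f'_mem := one_mem _
      v_mem := fun _ => one_mem _
      e_nonneg := by simp
      e_le := le_rfl
      f_nonneg := by simp
      f_le := le_rfl
      f'_f := one_mul _
      e_J := hJ
      full := ?_
      full' := Or.inr hs }
  rw [hs, sub_self]
  exact ⟨0, map_zero _, Nul.zero⟩

theorem rw_of_isometries {A : Type u} [CStarAlgebra A] {G : Type v} [Group G]
    {α : G →* (A ≃⋆ₐ[ℂ] A)} {n : ℕ} (w : Fin (n + 1) → Seq A) (hw : ∀ i, w i ∈ fix α)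
    (h : ∀ i j, star (w i) * w j = if i = j then 1 else 0) : HasRW n (fix α) := by
  have key : IsRW n (fun i j => w i * star (w j)) (w 0 * (1 - ∑ m, w m * star (w m))) := by
    have hp1 : ∀ i, (∑ m, w m * star (w m)) * w i = w i := by
      intro i
      rw [Finset.sum_mul, Finset.sum_eq_single i]
      · rw [mul_assoc, h, if_pos rfl, mul_one]
      · intro m _ hm
        rw [mul_assoc, h, if_neg hm, mul_zero]
      · intro h'
        exact absurd (Finset.mem_univ _) h'
    have hps : star (∑ m, w m * star (w m)) = ∑ m, w m * star (w m) := by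
      rw [star_sum]
      refine Finset.sum_congr rfl fun m _ => ?_
      rw [star_mul, star_star]
    have hpp : (∑ m, w m * star (w m)) * (∑ m, w m * star (w m)) = ∑ m, w m * star (w m) := by
      conv_lhs => rw [Finset.mul_sum]
      refine Finset.sum_congr rfl fun m _ => ?_
      rw [← mul_assoc, hp1]
    refine ⟨fun i j => ?_, fun i j k l => ?_, ⟨∑ m, w m * star (w m), ?_⟩, ?_, ?_⟩
    · rw [star_mul, star_star]
    · split_ifs with hjk
      · subst hjk
        rw [← mul_assoc (∑ m, w m * star (w m)), hp1]
        calc w i * star (w j) * (w j * star (w l)) = w i * (star (w j) * w j) * star (w l) := by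
              noncomm_ring
          _ = w i * star (w l) := by rw [h, if_pos rfl, mul_one]
      · calc w i * star (w j) * (w k * star (w l)) = w i * (star (w j) * w k) * star (w l) := by
              noncomm_ring
          _ = 0 := by rw [h, if_neg hjk, mul_zero, zero_mul]
    · rw [hps, hpp]
    · set p := ∑ m, w m * star (w m) with hp
      rw [star_mul, star_sub, star_one, hps]
      calc (1 - p) * star (w 0) * (w 0 * (1 - p)) = (1 - p) * (star (w 0) * w 0) * (1 - p) := by
            noncomm_ring
        _ = 1 - p - p + p * p := by rw [h, if_pos rfl]; noncomm_ring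
        _ = 1 - p := by rw [hpp]; abel
    · rw [← mul_assoc, mul_assoc (w 0), h, if_pos rfl, mul_one]
  have hmem : ∀ i j, w i * star (w j) ∈ fix α := fun i j => mul_mem (hw i) (star_mem (hw j))
  have hs : w 0 * (1 - ∑ m, w m * star (w m)) ∈ fix α :=
    mul_mem (hw 0) (sub_mem (one_mem _) (sum_mem fun m _ => hmem m m))
  refine ⟨fun i j => ⟨w i * star (w j), hmem i j⟩, ⟨_, hs⟩, ?_⟩
  refine ⟨fun i j => ?_, fun i j k l => ?_, ⟨⟨∑ m, w m * star (w m), sum_mem fun m _ => hmem m m⟩, ?_⟩,
    ?_, ?_⟩
  · exact Subtype.ext (key.star_e i j)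
  · apply Subtype.ext
    have := key.mul_e i j k l
    split_ifs with hjk
    · rw [if_pos hjk] at this
      simpa using this
    · rw [if_neg hjk] at this
      exact this
  · apply Subtype.ext
    have hps : star (∑ m, w m * star (w m)) = ∑ m, w m * star (w m) := by
      rw [star_sum]
      refine Finset.sum_congr rfl fun m _ => ?_
      rw [star_mul, star_star]
    have hp1 : ∀ i, (∑ m, w m * star (w m)) * w i = w i := by
      intro i
      rw [Finset.sum_mul, Finset.sum_eq_single i]
      · rw [mul_assoc, h, if_pos rfl, mul_one]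
      · intro m _ hm
        rw [mul_assoc, h, if_neg hm, mul_zero]
      · intro h'
        exact absurd (Finset.mem_univ _) h'
    have hpp : (∑ m, w m * star (w m)) * (∑ m, w m * star (w m)) = ∑ m, w m * star (w m) := by
      conv_lhs => rw [Finset.mul_sum]
      refine Finset.sum_congr rfl fun m _ => ?_
      rw [← mul_assoc, hp1]
    have : (∑ m, w m * star (w m)) = star (∑ m, w m * star (w m)) * (∑ m, w m * star (w m)) := by
      rw [hps, hpp]
    simpa using this
  · apply Subtype.ext
    have := key.star_s
    simpa using this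
  · exact Subtype.ext key.e_s

end Pool.Agent.Lib.EJS
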