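import Pool.Agent.Lib.EJS.SIEps
import Pool.Agent.Lib.EJS.SIDefsB

/-!
# Part SI: from approximately invariant to invariant (SI9, last part)

PROOF.  As in SIExact.  `a_k` dense in `A`, `g_k` an enumeration of `G`, `(e_n)`, `(f_n)` lifts of `e`, `f'`.  `X := {w : Fin I → A // ∀ i, ‖w i‖ ≤ 1}` and `c k n w` the sum over `i` of
`‖w_i a_k - a_k w_i‖ + ‖f_n w_i - w_i‖ + ‖α_{g_k}(w_i) - w_i‖` plus the sum over `i, j` of `‖star (w_i) w_j - (if i = j then e_n else 0)‖`.
The hypothesis of `eps_test` for `K` follows from `h I {g_0..g_K} ε'` with small `ε'` (lift the `w i` to bounded sequences of norm `≤ 1`, `Seq.exists_lift`).  The conclusion gives a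
sequence, whose class satisfies all relations exactly (the commutation with `a_k` extends to all `a` by density).
-/

open scoped ComplexOrder
open Filter Topology Pool.Agent.Lib.EqGamma

namespace Pool.Agent.Lib.EJS

universe u v

namespace SITest2Aux

variable {A : Type u} [CStarAlgebra A]

theorem ev_small {x : BF ℕ A} {c δ : ℝ} (h : ‖Seq.of x‖ ≤ c) (hδ : c < δ) :
    ∀ᶠ n in atTop, ‖BF.ev n x‖ ≤ δ := by
  filter_upwards [Seq.eventually_lt (h.trans_lt hδ)] with n hn
  exact hn.le

theorem of_eq_of_small {x y : BF ℕ A}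
    (h : ∀ ε : ℝ, 0 < ε → ∀ᶠ n in atTop, ‖BF.ev n x - BF.ev n y‖ ≤ ε) :
    Seq.of x = Seq.of y := by
  rw [Seq.of_eq_of, Metric.tendsto_nhds]
  intro ε hε
  filter_upwards [h (ε / 2) (half_pos hε)] with n hn
  rw [dist_zero_right]
  linarith

/-- the cost function -/
noncomputable def cost {G : Type v} [Group G] (α : G →* (A ≃⋆ₐ[ℂ] A)) {I : ℕ} (a : A) (g : G)
    (e f : A) (w : Fin I → A) : ℝ :=
  ∑ i, (‖a * w i - w i * a‖ + ‖f * w i - w i‖ + ‖α g (w i) - w i‖) +
    ∑ i, ∑ j, ‖star (w i) * w j - (if i = j then e else 0)‖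

theorem cost_le {G : Type v} [Group G] {α : G →* (A ≃⋆ₐ[ℂ] A)} {I : ℕ} {a : A} {g : G}
    {e f : A} {w : Fin I → A} {δ : ℝ} (h1 : ∀ i, ‖a * w i - w i * a‖ ≤ δ)
    (h2 : ∀ i, ‖f * w i - w i‖ ≤ δ) (h3 : ∀ i, ‖α g (w i) - w i‖ ≤ δ)
    (h4 : ∀ i j, ‖star (w i) * w j - (if i = j then e else 0)‖ ≤ δ) :
    cost α a g e f w ≤ (3 * I + I * I) * δ := by
  unfold cost
  have k1 : ∑ i, (‖a * w i - w i * a‖ + ‖f * w i - w i‖ + ‖α g (w i) - w i‖) ≤
      ∑ _i : Fin I, 3 * δ := by
    refine Finset.sum_le_sum fun i _ => ?_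
    have := h1 i
    have := h2 i
    have := h3 i
    linarith
  have k2 : ∑ i, ∑ j, ‖star (w i) * w j - (if i = j then e else 0)‖ ≤
      ∑ _i : Fin I, ∑ _j : Fin I, δ :=
    Finset.sum_le_sum fun i _ => Finset.sum_le_sum fun j _ => h4 i j
  simp only [Finset.sum_const, Finset.card_univ, Fintype.card_fin, nsmul_eq_mul] at k1 k2
  nlinarith

theorem le_cost1 {G : Type v} [Group G] (α : G →* (A ≃⋆ₐ[ℂ] A)) {I : ℕ} (a : A) (g : G)
    (e f : A) (w : Fin I → A) (i : Fin I) :
    ‖a * w i - w i * a‖ + ‖f * w i - w i‖ + ‖α g (w i) - w i‖ ≤ cost α a g e f w := by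
  unfold cost
  have k1 := Finset.single_le_sum (s := Finset.univ)
    (f := fun i => ‖a * w i - w i * a‖ + ‖f * w i - w i‖ + ‖α g (w i) - w i‖)
    (fun i _ => by positivity) (Finset.mem_univ i)
  have k2 : 0 ≤ ∑ i, ∑ j, ‖star (w i) * w j - (if i = j then e else 0)‖ := by positivity
  exact k1.trans (le_add_of_nonneg_right k2)

theorem le_cost2 {G : Type v} [Group G] (α : G →* (A ≃⋆ₐ[ℂ] A)) {I : ℕ} (a : A) (g : G)
    (e f : A) (w : Fin I → A) (i j : Fin I) :
    ‖star (w i) * w j - (if i = j then e else 0)‖ ≤ cost α a g e f w := by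
  unfold cost
  have k1 := Finset.single_le_sum (s := Finset.univ)
    (f := fun i => ∑ j, ‖star (w i) * w j - (if i = j then e else 0)‖)
    (fun i _ => by positivity) (Finset.mem_univ i)
  have k3 := Finset.single_le_sum (s := Finset.univ)
    (f := fun j => ‖star (w i) * w j - (if i = j then e else 0)‖)
    (fun i _ => by positivity) (Finset.mem_univ j)
  have k2 : 0 ≤ ∑ i, (‖a * w i - w i * a‖ + ‖f * w i - w i‖ + ‖α g (w i) - w i‖) := by
    positivity
  exact k3.trans (k1.trans (le_add_of_nonneg_left k2))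

end SITest2Aux

open SITest2Aux in
theorem propSI_of_avgS {A : Type u} [CStarAlgebra A] [TopologicalSpace.SeparableSpace A]
    {G : Type v} [Group G] [Countable G] {α : G →* (A ≃⋆ₐ[ℂ] A)} {e f' : Seq A}
    (h : AvgS α e f') : PropSI α e f' := by
  intro I
  obtain ⟨e0, rfl⟩ := Seq.of_surjective e
  obtain ⟨f0, rfl⟩ := Seq.of_surjective f'
  obtain ⟨g, hg⟩ := exists_surjective_nat G
  set a : ℕ → A := TopologicalSpace.denseSeq A with ha
  have key := eps_test (X := {w : Fin I → A // ∀ i, ‖w i‖ ≤ 1})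
    (fun k n w => cost α (a k) (g k) (BF.ev n e0) (BF.ev n f0) w.1) ?_
  · obtain ⟨x, hx⟩ := key
    set W : Fin I → BF ℕ A := fun i => BF.mk (fun n => (x n).1 i) 1 (fun n => (x n).2 i) with hW
    have hev : ∀ i n, BF.ev n (W i) = (x n).1 i := fun i n => BF.ev_mk _ _ _ _
    have t1 : ∀ i k, Seq.of (BF.cst (a k) * W i) = Seq.of (W i * BF.cst (a k)) := by
      intro i k
      refine of_eq_of_small fun ε hε => ?_
      filter_upwards [hx k ε hε] with n hn
      rw [map_mul, map_mul, BF.ev_cst, hev]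
      have h1 := le_cost1 α (a k) (g k) (BF.ev n e0) (BF.ev n f0) (x n).1 i
      have h2 := norm_nonneg (BF.ev n f0 * (x n).1 i - (x n).1 i)
      have h3 := norm_nonneg (α (g k) ((x n).1 i) - (x n).1 i)
      linarith
    have t2 : ∀ i, Seq.of (f0 * W i) = Seq.of (W i) := by
      intro i
      refine of_eq_of_small fun ε hε => ?_
      filter_upwards [hx 0 ε hε] with n hn
      rw [map_mul, hev]
      have h1 := le_cost1 α (a 0) (g 0) (BF.ev n e0) (BF.ev n f0) (x n).1 i
      have h2 := norm_nonneg (a 0 * (x n).1 i - (x n).1 i * a 0)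
      have h3 := norm_nonneg (α (g 0) ((x n).1 i) - (x n).1 i)
      linarith
    have t3 : ∀ i k, Seq.of (BFmap (α (g k) : A →⋆ₐ[ℂ] A) (W i)) = Seq.of (W i) := by
      intro i k
      refine of_eq_of_small fun ε hε => ?_
      filter_upwards [hx k ε hε] with n hn
      rw [ev_BFmap, hev]
      have h1 := le_cost1 α (a k) (g k) (BF.ev n e0) (BF.ev n f0) (x n).1 i
      have h2 := norm_nonneg (BF.ev n f0 * (x n).1 i - (x n).1 i)
      have h3 := norm_nonneg (a k * (x n).1 i - (x n).1 i * a k)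
      have h4 : ((α (g k) : A →⋆ₐ[ℂ] A)) ((x n).1 i) = α (g k) ((x n).1 i) := rfl
      rw [h4]
      linarith
    have t4 : ∀ i j, Seq.of (star (W i) * W j) = Seq.of (if i = j then e0 else 0) := by
      intro i j
      refine of_eq_of_small fun ε hε => ?_
      filter_upwards [hx 0 ε hε] with n hn
      rw [map_mul, map_star, hev, hev, apply_ite (BF.ev n), map_zero]
      exact (le_cost2 α (a 0) (g 0) (BF.ev n e0) (BF.ev n f0) (x n).1 i j).trans hn
    refine ⟨fun i => Seq.of (W i), fun i => ⟨⟨?_, ?_⟩, ?_⟩, ?_⟩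
    · intro b
      refine DenseRange.induction_on (p := fun b => Commute (Seq.const b) (Seq.of (W i)))
        (TopologicalSpace.denseRange_denseSeq A) b ?_ ?_
      · exact isClosed_eq ((shom_continuous Seq.const).mul continuous_const)
          (continuous_const.mul (shom_continuous Seq.const))
      · intro k
        have h1 := t1 i k
        rw [map_mul, map_mul, ← Seq.const_apply] at h1
        exact h1
    · intro γ
      obtain ⟨k, rfl⟩ := hg γ
      exact t3 i k
    · rw [← map_mul]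
      exact t2 i
    · intro i j
      rw [← map_star, ← map_mul, t4, apply_ite Seq.of, map_zero]
  · intro K
    classical
    set δ : ℝ := 1 / (((K : ℝ) + 1) * (3 * I + I * I + 1)) with hδ
    have hδ0 : 0 < δ := by positivity
    obtain ⟨w, hw1, hw2, hw3⟩ := h I ((Finset.range (K + 1)).image g) (δ / 2) (half_pos hδ0)
    choose W hW1 hW2 using fun i => Seq.exists_lift (w i)
    refine ⟨fun n => ⟨fun i => BF.ev n (W i), fun i => (BF.norm_ev_le _ _).trans
      ((hW2 i).trans (hw1 i).2.2)⟩, fun k hk => ?_⟩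
    have s1 : ∀ i, ∀ᶠ n in atTop, ‖a k * BF.ev n (W i) - BF.ev n (W i) * a k‖ ≤ δ := by
      intro i
      have h1 : ‖Seq.of (BF.cst (a k) * W i - W i * BF.cst (a k))‖ ≤ 0 := by
        rw [map_sub, map_mul, map_mul, hW1, ← Seq.const_apply, (hw1 i).1 (a k), sub_self,
          norm_zero]
      filter_upwards [ev_small h1 hδ0] with n hn
      rwa [map_sub, map_mul, map_mul, BF.ev_cst] at hn
    have s2 : ∀ i, ∀ᶠ n in atTop, ‖BF.ev n f0 * BF.ev n (W i) - BF.ev n (W i)‖ ≤ δ := by
      intro i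
      have h1 : ‖Seq.of (f0 * W i - W i)‖ ≤ 0 := by
        rw [map_sub, map_mul, hW1, (hw1 i).2.1, sub_self, norm_zero]
      filter_upwards [ev_small h1 hδ0] with n hn
      rwa [map_sub, map_mul] at hn
    have s3 : ∀ i, ∀ᶠ n in atTop, ‖α (g k) (BF.ev n (W i)) - BF.ev n (W i)‖ ≤ δ := by
      intro i
      have h1 : ‖Seq.of (BFmap (α (g k) : A →⋆ₐ[ℂ] A) (W i) - W i)‖ ≤ δ / 2 := by
        rw [map_sub, ← Seq.map_of, hW1]
        exact hw3 (g k) (Finset.mem_image_of_mem _ (Finset.mem_range.2 (by omega))) i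
      filter_upwards [ev_small h1 (half_lt_self hδ0)] with n hn
      rwa [map_sub, ev_BFmap] at hn
    have s4 : ∀ i j, ∀ᶠ n in atTop,
        ‖star (BF.ev n (W i)) * BF.ev n (W j) - (if i = j then BF.ev n e0 else 0)‖ ≤ δ := by
      intro i j
      have h1 : ‖Seq.of (star (W i) * W j - (if i = j then e0 else 0))‖ ≤ 0 := by
        rw [map_sub, map_mul, map_star, hW1, hW1, hw2, apply_ite Seq.of, map_zero, sub_self,
          norm_zero]
      filter_upwards [ev_small h1 hδ0] with n hn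
      rwa [map_sub, map_mul, map_star, apply_ite (BF.ev n), map_zero] at hn
    filter_upwards [eventually_all.2 s1, eventually_all.2 s2, eventually_all.2 s3,
      eventually_all.2 fun i => eventually_all.2 (s4 i)] with n h1 h2 h3 h4
    refine (cost_le h1 h2 h3 h4).trans ?_
    rw [hδ]
    have hI : (0 : ℝ) ≤ 3 * I + I * I := by positivity
    rw [mul_one_div, div_le_div_iff₀ (by positivity) (by positivity)]
    nlinarith [(Nat.cast_nonneg K : (0 : ℝ) ≤ K)]

end Pool.Agent.Lib.EJS
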