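import Pool.Agent.Lib.EJS.SILemS
import Pool.Agent.Lib.EJS.SIExact
import Pool.Agent.Lib.EJS.SIAvg
import Pool.Agent.Lib.EJS.SITest2
import Pool.Agent.Lib.EJS.SIRWa
import Pool.Agent.Lib.EJS.SIRWb

/-!
# Part SI: equivariant property SI and Rordam-Winter pairs of invariant central sequences
-/

open scoped ComplexOrder
open Filter Topology Pool.Agent.Lib.EqGamma

namespace Pool.Agent.Lib.EJS

universe u v

theorem propSI {A Z : Type u} [CStarAlgebra A] [TopologicalSpace.SeparableSpace A]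
    [IsSimpleRing A] (hA : IsNuclear A) [CStarAlgebra Z] (hZ : IsJiangSu Z) (hH : SeqHoms Z A)
    (hC : Compar A) {G : Type v} [Group G] [Countable G] (hG : AmenableGroup G)
    {α : G →* (A ≃⋆ₐ[ℂ] A)} {e f f' : Seq A} {w : ℕ} {v : Fin w → Seq A}
    (h : SIData α e f f' v) : PropSI α e f' := by
  let _ := CStarAlgebra.spectralOrder A
  have := CStarAlgebra.spectralOrderedRing A
  have hn : ‖e‖ ≤ 1 := (CStarAlgebra.norm_le_one_iff_of_nonneg e h.e_nonneg).2 h.e_le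
  exact propSI_of_avgS (avgS hG h.e_mem hn h.f'_mem (exactS h.e_mem.1 (approxS hA hZ hH hC h)))

theorem hasRW_fix {A Z : Type u} [CStarAlgebra A] [TopologicalSpace.SeparableSpace A]
    [IsSimpleRing A] (hA : IsNuclear A) [CStarAlgebra Z] (hZ : IsJiangSu Z) (hH : SeqHoms Z A)
    (hC : Compar A) {G : Type v} [Group G] [Countable G] (hG : AmenableGroup G)
    (α : G →* (A ≃⋆ₐ[ℂ] A))
    (hO : (∃ τ : A →ₗ[ℂ] ℂ, TracialState τ) → ∀ k, Oz α (k + 1)) (n : ℕ) :
    HasRW n (fix α) := by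
  by_cases hτ : ∃ τ : A →ₗ[ℂ] ℂ, TracialState τ
  · obtain ⟨e, f, f', v, h, hw⟩ := rw_of_oz hτ (hO hτ n)
    obtain ⟨w, hw1, hw2⟩ := propSI hA hZ hH hC hG h 1
    refine hw (w 0) (hw1 0).1 ?_ (hw1 0).2
    rw [hw2, if_pos rfl]
  · obtain ⟨w, hw1, hw2⟩ := propSI hA hZ hH hC hG (traceless_data α hτ) (n + 1)
    exact rw_of_isometries w (fun i => (hw1 i).1) hw2

end Pool.Agent.Lib.EJS
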