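import Pool.Agent.Lib.EJS.SINorm

/-!
# Part SI: one step of the construction of locally orthogonal elements (SI4, second part)

PROOF.  `q` is central (`c` and `star c` are).  `Y := const X * q = const(√X) q const(√X)` has norm `‖X‖ ‖q‖ = 1` (`norm_map_mul` with
`ι = Seq.const`, `D = Seq A`, `y = q`).  `‖Y * act g Y‖ = ‖const (X α_g(X)) * (q * act g q)‖ ≤ ‖X α_g(X)‖ ‖q * act g q‖` since `q` commutes with
constants, and `‖Y const a - const a Y‖ = ‖const (X a - a X) q‖ ≤ ‖X a - a X‖`.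
Lift `c` to a bounded sequence `(c_n)`: `Y = of (X_n)` with `X_n = √X c_n* c_n √X ≥ 0`.  By `Seq.eventually_lt` all the
(finitely many) upper bounds hold for large `n` up to `η' > 0`, and `‖X_n‖ < 1 + η'`, and `‖X_n‖ > 1 - η'` for infinitely many `n`
(otherwise `‖of X‖ ≤ 1 - η'` by `Seq.norm_le_of_eventually`).  Take such an `n` and `X' = X_n / ‖X_n‖`; for `η'` small enough (depending on `η`;
all the bounds are at most `2 ‖a‖ ‖X‖` resp. `1`) it works.  (`q * act g q` has norm at most `1`.)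
-/

open scoped ComplexOrder
open Filter Topology Pool.Agent.Lib.EqGamma

namespace Pool.Agent.Lib.EJS

universe u v

theorem orth_step {A : Type u} [CStarAlgebra A] [PartialOrder A] [StarOrderedRing A]
    [IsSimpleRing A] {G : Type v} [Group G] (α : G →* (A ≃⋆ₐ[ℂ] A)) {q c : Seq A}
    (hc : Seq.Central c) (hq : q = star c * c) (hq1 : ‖q‖ = 1) {X : A} (hX : 0 ≤ X)
    (hX1 : ‖X‖ = 1) (F : Finset A) (K : Finset G) {η : ℝ} (hη : 0 < η) :
    ∃ X' : A, 0 ≤ X' ∧ ‖X'‖ = 1 ∧ (∀ a ∈ F, ‖X' * a - a * X'‖ ≤ ‖X * a - a * X‖ + η) ∧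
      ∀ g ∈ K, ‖X' * α g X'‖ ≤ ‖X * α g X‖ * ‖q * Seq.act α g q‖ + η := by
  -- `q` commutes with constants
  have hcs : ∀ a : A, Commute (Seq.const a) (star c) := fun a => by
    have h1 := (hc (star a)).star_star
    rw [map_star, star_star] at h1
    exact h1
  have hqc : ∀ a : A, Commute (Seq.const a) q := fun a => by
    rw [hq]
    exact (hcs a).mul_right (hc a)
  have hq0 : 0 ≤ q := by rw [hq]; exact star_mul_self_nonneg c
  have : Nontrivial (Seq A) := Seq.const_injective.nontrivial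
  -- the sequence
  obtain ⟨C, hC, -⟩ := Seq.exists_lift c
  obtain ⟨s, hs⟩ : ∃ s : A, s = CFC.sqrt X := ⟨_, rfl⟩
  have hs0 : 0 ≤ s := by rw [hs]; exact CFC.sqrt_nonneg X
  have hss : s * s = X := by rw [hs]; exact CFC.sqrt_mul_sqrt_self X hX
  have hsa : star s = s := (IsSelfAdjoint.of_nonneg hs0).star_eq
  obtain ⟨Xb, hXb⟩ : ∃ Xb : BF ℕ A, Xb = BF.cst s * (star C * C) * BF.cst s := ⟨_, rfl⟩
  have hofX : Seq.of Xb = Seq.const X * q := by
    rw [hXb, map_mul, map_mul, map_mul, map_star, hC, ← Seq.const_apply, ← hq,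
      (hqc s).eq, mul_assoc, ← map_mul, hss, (hqc X).eq]
  have hev : ∀ n, BF.ev n Xb = star (BF.ev n C * s) * (BF.ev n C * s) := by
    intro n
    rw [hXb, map_mul, map_mul, map_mul, map_star, BF.ev_cst, star_mul, hsa]
    simp only [mul_assoc]
  have hev0 : ∀ n, 0 ≤ BF.ev n Xb := fun n => by rw [hev]; exact star_mul_self_nonneg _
  -- norms
  have hnorm : ‖Seq.of Xb‖ = 1 := by
    rw [hofX, norm_map_mul Seq.const hq0 hqc hX, hX1, hq1, one_mul]
  have hcomm : ∀ a : A, ‖Seq.of (Xb * BF.cst a - BF.cst a * Xb)‖ ≤ ‖X * a - a * X‖ := by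
    intro a
    have e1 : Seq.of (Xb * BF.cst a - BF.cst a * Xb) = Seq.const (X * a - a * X) * q := by
      rw [map_sub, map_mul, map_mul, hofX, ← Seq.const_apply, map_sub, map_mul, map_mul, sub_mul,
        mul_assoc, ← (hqc a).eq, mul_assoc, mul_assoc]
    rw [e1]
    refine (norm_mul_le _ _).trans ?_
    rw [hq1, mul_one, Seq.norm_const]
  have hact : ∀ g : G, ‖Seq.of (Xb * BFmap (α g : A →⋆ₐ[ℂ] A) Xb)‖ ≤
      ‖X * α g X‖ * ‖q * Seq.act α g q‖ := by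
    intro g
    have e2 : Seq.of (BFmap (α g : A →⋆ₐ[ℂ] A) Xb) = Seq.act α g (Seq.of Xb) := rfl
    have e1 : Seq.of (Xb * BFmap (α g : A →⋆ₐ[ℂ] A) Xb) =
        Seq.const (X * α g X) * (q * Seq.act α g q) := by
      rw [map_mul, e2, hofX, map_mul, Seq.act_const, map_mul]
      have e3 := (hqc (α g X)).eq
      calc Seq.const X * q * (Seq.const (α g X) * Seq.act α g q)
          = Seq.const X * (q * Seq.const (α g X)) * Seq.act α g q := by simp only [mul_assoc]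
        _ = Seq.const X * (Seq.const (α g X) * q) * Seq.act α g q := by rw [e3]
        _ = Seq.const X * Seq.const (α g X) * (q * Seq.act α g q) := by simp only [mul_assoc]
    rw [e1]
    refine (norm_mul_le _ _).trans ?_
    rw [Seq.norm_const]
  -- the choice of the small number
  obtain ⟨B, hB0, hB⟩ : ∃ B : ℝ, 0 ≤ B ∧ ∀ a ∈ F, ‖X * a - a * X‖ ≤ B :=
    ⟨∑ a ∈ F, ‖X * a - a * X‖, Finset.sum_nonneg fun _ _ => norm_nonneg _, fun a ha =>
      Finset.single_le_sum (f := fun a => ‖X * a - a * X‖) (fun _ _ => norm_nonneg _) ha⟩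
  have hact1 : ∀ g : G, ‖X * α g X‖ * ‖q * Seq.act α g q‖ ≤ 1 := by
    intro g
    have h1 : ‖X * α g X‖ ≤ 1 := by
      refine (norm_mul_le _ _).trans ?_
      rw [hX1, one_mul]
      exact (shom_norm_le (α g : A →⋆ₐ[ℂ] A) X).trans hX1.le
    have h2 : ‖q * Seq.act α g q‖ ≤ 1 := by
      refine (norm_mul_le _ _).trans ?_
      rw [Seq.norm_act, hq1, one_mul]
    exact mul_le_one₀ h1 (norm_nonneg _) h2
  obtain ⟨D, hD⟩ : ∃ D : ℝ, D = 3 + 2 * B + 2 * η := ⟨_, rfl⟩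
  have hD0 : 0 < D := by rw [hD]; positivity
  obtain ⟨η', hη'⟩ : ∃ η' : ℝ, η' = min (1 / 2) (η / D) := ⟨_, rfl⟩
  have hη'0 : 0 < η' := by rw [hη']; exact lt_min (by norm_num) (div_pos hη hD0)
  have hη'1 : η' ≤ 1 / 2 := by rw [hη']; exact min_le_left _ _
  have hη'2 : η' * D ≤ η := by
    have h1 : η' ≤ η / D := by rw [hη']; exact min_le_right _ _
    exact (le_div_iff₀ hD0).1 h1
  -- a good index
  have f1 : ∃ᶠ n in atTop, 1 - η' < ‖BF.ev n Xb‖ := by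
    intro hcon
    have h1 : ‖Seq.of Xb‖ ≤ 1 - η' := by
      refine Seq.norm_le_of_eventually (by linarith) ?_
      filter_upwards [hcon] with n hn
      exact not_lt.1 hn
    rw [hnorm] at h1
    linarith
  have f2 : ∀ᶠ n in atTop, ∀ a ∈ F,
      ‖BF.ev n (Xb * BF.cst a - BF.cst a * Xb)‖ < ‖X * a - a * X‖ + η' := by
    rw [eventually_all_finset]
    intro a _
    exact Seq.eventually_lt (lt_of_le_of_lt (hcomm a) (by linarith))
  have f3 : ∀ᶠ n in atTop, ∀ g ∈ K,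
      ‖BF.ev n (Xb * BFmap (α g : A →⋆ₐ[ℂ] A) Xb)‖ <
        ‖X * α g X‖ * ‖q * Seq.act α g q‖ + η' := by
    rw [eventually_all_finset]
    intro g _
    exact Seq.eventually_lt (lt_of_le_of_lt (hact g) (by linarith))
  obtain ⟨n, h1, h2, h3⟩ := (f1.and_eventually (f2.and f3)).exists
  obtain ⟨r, hr⟩ : ∃ r : ℝ, r = ‖BF.ev n Xb‖ := ⟨_, rfl⟩
  rw [← hr] at h1
  have hr0 : 0 < r := by linarith
  have hrinv : r⁻¹ ≤ (1 - η')⁻¹ := inv_anti₀ (by linarith) h1.le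
  have h1η : 0 < 1 - η' := by linarith
  refine ⟨r⁻¹ • BF.ev n Xb, smul_nonneg (inv_nonneg.2 hr0.le) (hev0 n), ?_, ?_, ?_⟩
  · rw [norm_smul, norm_inv, Real.norm_of_nonneg hr0.le, ← hr, inv_mul_cancel₀ hr0.ne']
  · intro a ha
    have e1 : r⁻¹ • BF.ev n Xb * a - a * r⁻¹ • BF.ev n Xb =
        r⁻¹ • BF.ev n (Xb * BF.cst a - BF.cst a * Xb) := by
      rw [map_sub, map_mul, map_mul, BF.ev_cst, smul_mul_assoc, mul_smul_comm, smul_sub]
    rw [e1, norm_smul, norm_inv, Real.norm_of_nonneg hr0.le]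
    have h4 := (h2 a ha).le
    have h5 : r⁻¹ * ‖BF.ev n (Xb * BF.cst a - BF.cst a * Xb)‖ ≤
        (1 - η')⁻¹ * (‖X * a - a * X‖ + η') :=
      mul_le_mul hrinv h4 (norm_nonneg _) (inv_nonneg.2 h1η.le)
    refine h5.trans ?_
    rw [inv_mul_le_iff₀ h1η]
    have h6 := hB a ha
    have h7 := norm_nonneg (X * a - a * X)
    rw [hD] at hη'2
    nlinarith
  · intro g hg
    have e2 : α g (r⁻¹ • BF.ev n Xb) = r⁻¹ • α g (BF.ev n Xb) := by
      have : r⁻¹ • BF.ev n Xb = ((r⁻¹ : ℝ) : ℂ) • BF.ev n Xb := by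
        rw [Complex.coe_smul]
      rw [this, map_smul, Complex.coe_smul]
    have e1 : r⁻¹ • BF.ev n Xb * α g (r⁻¹ • BF.ev n Xb) =
        (r⁻¹ * r⁻¹) • BF.ev n (Xb * BFmap (α g : A →⋆ₐ[ℂ] A) Xb) := by
      rw [e2, map_mul, ev_BFmap, smul_mul_assoc, mul_smul_comm, smul_smul]
      rfl
    rw [e1, norm_smul, norm_mul, norm_inv, Real.norm_of_nonneg hr0.le]
    have h4 := (h3 g hg).le
    have h5 : r⁻¹ * r⁻¹ * ‖BF.ev n (Xb * BFmap (α g : A →⋆ₐ[ℂ] A) Xb)‖ ≤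
        (1 - η')⁻¹ * (1 - η')⁻¹ * (‖X * α g X‖ * ‖q * Seq.act α g q‖ + η') :=
      mul_le_mul (mul_le_mul hrinv hrinv (inv_nonneg.2 hr0.le) (inv_nonneg.2 h1η.le)) h4
        (norm_nonneg _) (mul_nonneg (inv_nonneg.2 h1η.le) (inv_nonneg.2 h1η.le))
    refine h5.trans ?_
    rw [← mul_inv, inv_mul_le_iff₀ (mul_pos h1η h1η)]
    have h6 := hact1 g
    obtain ⟨b, hb⟩ : ∃ b, b = ‖X * α g X‖ * ‖q * Seq.act α g q‖ := ⟨_, rfl⟩
    rw [← hb] at h6 ⊢
    have h7 : 0 ≤ b := by rw [hb]; positivity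
    rw [hD] at hη'2
    have h8 : 1 - 2 * η' ≤ (1 - η') * (1 - η') := by nlinarith
    have h9 : (1 - 2 * η') * (b + η) ≤ (1 - η') * (1 - η') * (b + η) :=
      mul_le_mul_of_nonneg_right h8 (by linarith)
    refine le_trans ?_ h9
    nlinarith [mul_nonneg hη'0.le hB0, mul_nonneg hη'0.le (sub_nonneg.2 h6)]

end Pool.Agent.Lib.EJS
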