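import Pool.Agent.Lib.EJS.SICen
import Pool.Agent.Lib.EJS.SIStep

/-!
# Part SI: locally orthogonal elements (SI4)

PROOF.  For `g ∈ K` take `q_g`, `c_g` from `exists_central_lt`, `r_g := ‖q_g act_g(q_g)‖ < 1`, and `M` with `r_g^M ≤ ε/2` for all `g ∈ K`.  Let
`η := ε / (2 (M |K| + 1))`.  Start with `X = 1` (`‖1‖ = 1`, `‖X a - a X‖ = 0`, `‖X α_g(X)‖ = 1`) and apply `orth_step` `M` times for each `g ∈ K` (in any order,
e.g. induction over the list of steps): every step for `g` multiplies the `g`-quantity by `r_g` up to `η` and the others by a number `≤ 1` up to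
`η` (`‖q_g * act_h(q_g)‖ ≤ 1`), the commutators increase by at most `η`.  At the end: commutators `≤ M |K| η ≤ ε`,
`‖X α_g(X)‖ ≤ r_g^M + M |K| η ≤ ε`.
(Induction claim for a list `L` of elements of `K`: there is `X` with commutators `≤ |L| η` and
`‖X α_g(X)‖ ≤ r_g^(count g L) + |L| η` for all `g ∈ K`.)
-/

open scoped ComplexOrder

namespace Pool.Agent.Lib.EJS

universe u v

theorem exists_orth {A : Type u} [CStarAlgebra A] [PartialOrder A] [StarOrderedRing A]
    [IsSimpleRing A] {G : Type v} [Group G] (α : G →* (A ≃⋆ₐ[ℂ] A)) (F : Finset A)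
    (K : Finset G) (hK : ∀ g ∈ K, g ∉ Triv α) {ε : ℝ} (hε : 0 < ε) :
    ∃ p : A, 0 ≤ p ∧ ‖p‖ = 1 ∧ (∀ a ∈ F, ‖p * a - a * p‖ ≤ ε) ∧ ∀ g ∈ K, ‖p * α g p‖ ≤ ε := by
  classical
  choose! q c hc hq hq1 hlt using fun g (hg : g ∈ K) => exists_central_lt α (hK g hg)
  have hexM : ∀ g, ∃ M : ℕ, g ∈ K → ‖q g * Seq.act α g (q g)‖ ^ M ≤ ε / 2 := by
    intro g
    by_cases hg : g ∈ K
    · obtain ⟨M, hM⟩ := exists_pow_lt_of_lt_one (show (0 : ℝ) < ε / 2 by positivity) (hlt g hg)
      exact ⟨M, fun _ => hM.le⟩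
    · exact ⟨0, fun h => absurd h hg⟩
  choose N hN using hexM
  set M : ℕ := ∑ g ∈ K, N g with hM
  have hM2 : ∀ g ∈ K, ‖q g * Seq.act α g (q g)‖ ^ M ≤ ε / 2 := by
    intro g hg
    refine le_trans ?_ (hN g hg)
    exact pow_le_pow_of_le_one (norm_nonneg _) (hlt g hg).le
      (Finset.single_le_sum (f := N) (fun _ _ => Nat.zero_le _) hg)
  set η : ℝ := ε / (2 * ((M * K.card : ℕ) + 1)) with hη
  have hη0 : 0 < η := by positivity
  have hη1 : ((M * K.card : ℕ) : ℝ) * η ≤ ε / 2 := by
    have h1 : (((M * K.card : ℕ) : ℝ) + 1) * η = ε / 2 := by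
      rw [hη]
      field_simp
    nlinarith
  have key : ∀ L : List G, (∀ g ∈ L, g ∈ K) → ∃ X : A, 0 ≤ X ∧ ‖X‖ = 1 ∧
      (∀ a ∈ F, ‖X * a - a * X‖ ≤ L.length * η) ∧
      ∀ g ∈ K, ‖X * α g X‖ ≤ ‖q g * Seq.act α g (q g)‖ ^ (L.count g) + L.length * η := by
    intro L
    induction L with
    | nil =>
      intro _
      have h1 : ‖(1 : A)‖ = 1 := norm_one
      refine ⟨1, zero_le_one, h1, fun a _ => ?_, fun g _ => ?_⟩
      · rw [one_mul, mul_one, sub_self, norm_zero]
        simp
      · rw [map_one, one_mul, h1]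
        simp
    | cons h L ih =>
      intro hL
      obtain ⟨X, hX0, hX1, hX2, hX3⟩ := ih fun g hg => hL g (List.mem_cons_of_mem _ hg)
      have hh : h ∈ K := hL h List.mem_cons_self
      obtain ⟨X', h1, h2, h3, h4⟩ := orth_step α (hc h hh) (hq h hh) (hq1 h hh) hX0 hX1 F K hη0
      refine ⟨X', h1, h2, fun a ha => ?_, fun g hg => ?_⟩
      · refine (h3 a ha).trans ?_
        have := hX2 a ha
        rw [List.length_cons]
        push_cast
        linarith
      · refine (h4 g hg).trans ?_
        have h5 := hX3 g hg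
        rw [List.length_cons]
        push_cast
        have hLη : 0 ≤ (L.length : ℝ) * η := by positivity
        by_cases hgh : h = g
        · subst hgh
          rw [List.count_cons_self, pow_succ]
          have h6 := mul_le_mul_of_nonneg_right h5 (norm_nonneg (q h * Seq.act α h (q h)))
          have h7 := mul_le_mul_of_nonneg_left (hlt h hh).le hLη
          nlinarith
        · rw [List.count_cons_of_ne hgh]
          have h6 : ‖q h * Seq.act α g (q h)‖ ≤ 1 := by
            refine (norm_mul_le _ _).trans ?_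
            rw [Seq.norm_act, hq1 h hh, one_mul]
          have h7 := mul_le_of_le_one_right (norm_nonneg (X * α g X)) h6
          linarith
  have hcount : ∀ g ∈ K, ((List.replicate M K.toList).flatten).count g = M := by
    intro g hg
    have h1 : K.toList.count g = 1 :=
      List.count_eq_one_of_mem K.nodup_toList (Finset.mem_toList.2 hg)
    generalize M = m
    induction m with
    | zero => simp
    | succ m ih => rw [List.replicate_succ, List.flatten_cons, List.count_append, ih, h1, add_comm]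
  have hlen : ((List.replicate M K.toList).flatten).length = M * K.card := by
    simp
  obtain ⟨X, hX0, hX1, hX2, hX3⟩ := key ((List.replicate M K.toList).flatten) (by
    intro g hg
    rw [List.mem_flatten] at hg
    obtain ⟨l, hl, hgl⟩ := hg
    rw [List.eq_of_mem_replicate hl] at hgl
    exact Finset.mem_toList.1 hgl)
  refine ⟨X, hX0, hX1, fun a ha => ?_, fun g hg => ?_⟩
  · have := hX2 a ha
    rw [hlen] at this
    linarith
  · have := hX3 g hg
    rw [hlen, hcount g hg] at this
    have := hM2 g hg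
    linarith

end Pool.Agent.Lib.EJS
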