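import Pool.Agent.Lib.EJS.SIExc

/-!
# Part SI: non-trivial homomorphisms move some positive element (SI2)

PROOF.  (Use `let _ := CStarAlgebra.spectralOrder E`, `CStarAlgebra.spectralOrderedRing E`.)
W.l.o.g. `x` is self-adjoint (if `β` fixes all self-adjoint elements it fixes everything: `realPart`, `imaginaryPart`).
`z := x - β x ≠ 0`, w.l.o.g. (`x` replaced by `-x`) `ζ := ‖z‖ > 0` is in the spectrum of `z` (for self-adjoint `z`, `‖z‖` or
`-‖z‖` is in the spectrum), and all `t ∈ spectrum ℝ z` are `≤ ζ`.  Let `η = ζ/8`, `p := cfc (bumpf ζ η) z`: `0 ≤ p`, `‖p‖ = 1`,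
`p z p ≥ (ζ-η) p^2`.  `excision` under `p` for `x`, `β x` with `δ = ζ/8` gives `q` with `lam q^2 ≤ q x q ≤ (lam+δ) q^2`,
`lam' q^2 ≤ q β(x) q ≤ (lam'+δ) q^2`; by `hered_ge` `(ζ-η) q^2 ≤ q z q ≤ (lam + δ - lam') q^2`, so (`q^2 ≠ 0`)
`lam - lam' ≥ ζ - η - δ = 3ζ/4`.
CLAIM `‖q β(q)‖ < 1`.  It is `≤ 1`.  Suppose it is `= 1`.  Let `0 < t < 1`, `Y = β(q) q^2 β(q)`, `‖Y‖ = 1`,
`w := cfc (bumpf 1 t) Y`, `‖w‖ = 1`, `w Y w ≥ (1-t) w^2`.  As `q^2 ≤ 1`: `Y ≤ β(q)^2 ≤ 1`.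
`w (1 - β(q)^2) w ≤ w^2 - w Y w ≤ t w^2 ≤ t`, and `(1-β(q))^2 ≤ 1 - β(q)^2`, so `‖(1-β(q)) w‖^2 ≤ t`.
`w β(q) (1-q^2) β(q) w = w (β(q)^2 - Y) w ≤ w^2 - w Y w ≤ t w^2`, so `‖(1-q) β(q) w‖^2 ≤ t`.  Hence
`‖β(q) w - w‖ ≤ √t` and `‖q w - w‖ ≤ ‖q w - q β(q) w‖ + ‖q β(q) w - β(q) w‖ + ‖β(q) w - w‖ ≤ 3 √t`.
`β(q) β(x) β(q) ≥ lam β(q)^2` (apply `β` to `q x q ≥ lam q^2`), so `w β(q) β(x) β(q) w ≥ lam w β(q)^2 w`; replacing
`β(q) w` by `w` costs at most `C √t`: `w β(x) w ≥ lam w^2 - C √t`.  Likewise `w q β(x) q w ≤ (lam'+δ) w q^2 w` gives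
`w β(x) w ≤ (lam'+δ) w^2 + C √t`.  So `(lam - lam' - δ) w^2 ≤ 2 C √t`, and taking norms (`‖w^2‖ = 1`, `lam-lam'-δ ≥ 5ζ/8 > 0`)
`5ζ/8 ≤ 2 C √t` where `C` depends only on `‖x‖, lam, lam', δ`.  `t → 0`: contradiction.
-/

open scoped ComplexOrder

namespace Pool.Agent.Lib.EJS

section aux

variable {E : Type*} [CStarAlgebra E] [PartialOrder E] [StarOrderedRing E]

theorem si_smul_le {r s : ℝ} (h : r ≤ s) {a : E} (ha : 0 ≤ a) : r • a ≤ s • a := by
  have h1 : 0 ≤ (s - r) • a := smul_nonneg (by linarith) ha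
  rw [sub_smul] at h1
  exact sub_nonneg.1 h1

theorem si_neg_le {a : E} (ha : IsSelfAdjoint a) {r : ℝ} (h : ‖a‖ ≤ r) : -(r • (1 : E)) ≤ a := by
  have h1 := ha.neg_algebraMap_norm_le_self
  refine le_trans ?_ h1
  rw [neg_le_neg_iff, Algebra.algebraMap_eq_smul_one]
  exact si_smul_le h zero_le_one

theorem si_pert {w c S : E} (hw : IsSelfAdjoint w) (hw1 : ‖w‖ ≤ 1) (hc : IsSelfAdjoint c)
    (hc1 : ‖c‖ ≤ 1) {r : ℝ} (hr : ‖c * w - w‖ ≤ r) (hS : IsSelfAdjoint S)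
    (h0 : 0 ≤ c * S * c) : -((2 * ‖S‖ * r) • (1 : E)) ≤ w * S * w := by
  have hr0 : 0 ≤ r := (norm_nonneg _).trans hr
  have h1 : 0 ≤ w * (c * S * c) * w := hw.conjugate_nonneg h0
  have h3 : ‖w - w * c‖ ≤ r := by
    have e : w - w * c = star (w - c * w) := by
      rw [star_sub, star_mul, hc.star_eq, hw.star_eq]
    rw [e, norm_star, norm_sub_rev]
    exact hr
  have h4 : ‖w - c * w‖ ≤ r := by rw [norm_sub_rev]; exact hr
  have h2 : ‖w * S * w - w * (c * S * c) * w‖ ≤ 2 * ‖S‖ * r := by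
    have e : w * S * w - w * (c * S * c) * w
        = (w - w * c) * S * w + w * c * S * (w - c * w) := by noncomm_ring
    rw [e]
    have h5 : ‖(w - w * c) * S * w‖ ≤ r * ‖S‖ * 1 :=
      (norm_mul_le _ _).trans (mul_le_mul ((norm_mul_le _ _).trans
        (mul_le_mul_of_nonneg_right h3 (norm_nonneg _))) hw1 (norm_nonneg _)
        (mul_nonneg hr0 (norm_nonneg _)))
    have h6 : ‖w * c * S * (w - c * w)‖ ≤ 1 * 1 * ‖S‖ * r :=
      (norm_mul_le _ _).trans (mul_le_mul ((norm_mul_le _ _).trans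
        (mul_le_mul_of_nonneg_right ((norm_mul_le _ _).trans
          (mul_le_mul hw1 hc1 (norm_nonneg _) zero_le_one)) (norm_nonneg _))) h4 (norm_nonneg _)
        (by positivity))
    refine (norm_add_le _ _).trans ((add_le_add h5 h6).trans (le_of_eq ?_))
    ring
  have hsa : IsSelfAdjoint (w * S * w - w * (c * S * c) * w) := by
    have e1 : star (w * S * w) = w * S * w := by
      rw [star_mul, star_mul, hw.star_eq, hS.star_eq, mul_assoc]
    exact IsSelfAdjoint.sub e1 (IsSelfAdjoint.of_nonneg h1)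
  have h7 := si_neg_le hsa h2
  calc -((2 * ‖S‖ * r) • (1 : E)) ≤ w * S * w - w * (c * S * c) * w := h7
    _ ≤ w * S * w := sub_le_self _ h1

theorem si_norm_le {v : E} {r : ℝ} (hr : 0 ≤ r) (h : star v * v ≤ (r ^ 2) • (1 : E)) :
    ‖v‖ ≤ r := by
  have h1 : ‖star v * v‖ ≤ r ^ 2 := by
    rw [CStarAlgebra.norm_le_iff_le_algebraMap (star v * v) (by positivity)
      (star_mul_self_nonneg v), Algebra.algebraMap_eq_smul_one]
    exact h
  rw [CStarRing.norm_star_mul_self, ← sq] at h1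
  exact (sq_le_sq₀ (norm_nonneg _) hr).1 h1

theorem si_sub_sq {b : E} (hb : 0 ≤ b) (hb1 : ‖b‖ ≤ 1) :
    b * b ≤ 1 ∧ (1 - b) * (1 - b) ≤ 1 - b * b := by
  have hb2 : b ≤ 1 := (CStarAlgebra.norm_le_one_iff_of_nonneg b hb).1 hb1
  have h0 : 0 ≤ 1 - b := sub_nonneg.2 hb2
  have hc : Commute b (1 - b) := (Commute.one_right b).sub_right (Commute.refl b)
  have h1 : 0 ≤ b * (1 - b) := Commute.mul_nonneg hb h0 hc
  have e : 1 - b * b = (1 - b) * (1 - b) + (b * (1 - b) + b * (1 - b)) := by noncomm_ring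
  refine ⟨?_, ?_⟩
  · have h2 : b * b ≤ b := by
      have : b - b * b = b * (1 - b) := by noncomm_ring
      rw [← sub_nonneg, this]; exact h1
    exact h2.trans hb2
  · rw [e]
    exact le_add_of_nonneg_right (add_nonneg h1 h1)

/-- approximately fixed vectors -/
theorem si_fix {q b : E} (hq : 0 ≤ q) (hq1 : ‖q‖ ≤ 1) (hb : 0 ≤ b) (hb1 : ‖b‖ ≤ 1)
    (h : ‖q * b‖ = 1) {r : ℝ} (hr : 0 < r) :
    ∃ w : E, IsSelfAdjoint w ∧ ‖w‖ = 1 ∧ ‖b * w - w‖ ≤ r ∧ ‖q * w - w‖ ≤ 3 * r := by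
  have hnt : Nontrivial E := by
    refine ⟨⟨q * b, 0, fun h' => ?_⟩⟩
    rw [h', norm_zero] at h
    exact zero_ne_one h
  have hqs : IsSelfAdjoint q := IsSelfAdjoint.of_nonneg hq
  have hbs : IsSelfAdjoint b := IsSelfAdjoint.of_nonneg hb
  set Y : E := b * (q * q) * b with hY
  have hYe : Y = star (q * b) * (q * b) := by
    rw [star_mul, hqs.star_eq, hbs.star_eq, hY]; noncomm_ring
  have hY0 : 0 ≤ Y := by rw [hYe]; exact star_mul_self_nonneg _
  have hYn : ‖Y‖ = 1 := by rw [hYe, CStarRing.norm_star_mul_self, h, one_mul]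
  have ht : 0 < r ^ 2 := by positivity
  obtain ⟨hs1, hs2⟩ := norm_mem_spec hY0
  rw [hYn] at hs1 hs2
  set w : E := cfc (bumpf 1 (r ^ 2)) Y with hw
  have hw0 : 0 ≤ w := bump_nonneg 1 ht Y
  have hws : IsSelfAdjoint w := IsSelfAdjoint.of_nonneg hw0
  have hw1 : ‖w‖ = 1 := norm_bump (IsSelfAdjoint.of_nonneg hY0) ht hs1 fun t ht' => (hs2 t ht').2
  have hw2 := bump_mul_ge (IsSelfAdjoint.of_nonneg hY0) 1 ht
  rw [← hw] at hw2
  have hww : w * w ≤ 1 := (si_sub_sq hw0 hw1.le).1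
  have hA : w * (1 - Y) * w ≤ (r ^ 2) • (1 : E) := by
    have e : w * (1 - Y) * w = w * w - w * Y * w := by noncomm_ring
    have e2 : w * w - (1 - r ^ 2) • (w * w) = (r ^ 2) • (w * w) := by
      rw [sub_smul, one_smul]; abel
    calc w * (1 - Y) * w = w * w - w * Y * w := e
      _ ≤ w * w - (1 - r ^ 2) • (w * w) := sub_le_sub_left hw2 _
      _ = (r ^ 2) • (w * w) := e2
      _ ≤ (r ^ 2) • (1 : E) := smul_le_smul_of_nonneg_left hww ht.le
  obtain ⟨hq2, hq3⟩ := si_sub_sq hq hq1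
  obtain ⟨hb2, hb3⟩ := si_sub_sq hb hb1
  have hYb : Y ≤ b * b := by
    have h1 := hbs.conjugate_le_conjugate hq2
    rw [mul_one] at h1
    exact h1
  -- (i)
  have h1 : ‖b * w - w‖ ≤ r := by
    apply si_norm_le hr.le
    have e : star (b * w - w) * (b * w - w) = w * ((1 - b) * (1 - b)) * w := by
      rw [star_sub, star_mul, hbs.star_eq, hws.star_eq]; noncomm_ring
    rw [e]
    refine le_trans (hws.conjugate_le_conjugate ?_) hA
    exact hb3.trans (sub_le_sub_left hYb _)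
  -- (ii)
  have h2 : ‖q * (b * w) - b * w‖ ≤ r := by
    apply si_norm_le hr.le
    have e : star (q * (b * w) - b * w) * (q * (b * w) - b * w)
        = w * (b * ((1 - q) * (1 - q)) * b) * w := by
      rw [star_sub, star_mul, star_mul, hbs.star_eq, hws.star_eq, hqs.star_eq]; noncomm_ring
    rw [e]
    refine le_trans (hws.conjugate_le_conjugate ?_) hA
    have h3 := hbs.conjugate_le_conjugate hq3
    refine h3.trans ?_
    have e2 : b * (1 - q * q) * b = b * b - Y := by rw [hY]; noncomm_ring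
    rw [e2]
    exact sub_le_sub_right hb2 _
  refine ⟨w, hws, hw1, h1, ?_⟩
  have e : q * w - w = q * (w - b * w) + (q * (b * w) - b * w) + (b * w - w) := by noncomm_ring
  rw [e]
  have h3 : ‖q * (w - b * w)‖ ≤ r := by
    refine (norm_mul_le _ _).trans ?_
    rw [norm_sub_rev w]
    calc ‖q‖ * ‖b * w - w‖ ≤ 1 * r := mul_le_mul hq1 h1 (norm_nonneg _) zero_le_one
      _ = r := one_mul r
  refine (norm_add_le _ _).trans ?_
  refine (add_le_add (norm_add_le _ _) le_rfl).trans ?_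
  linarith

theorem si_map_nonneg (β : E →⋆ₐ[ℂ] E) {a : E} (ha : 0 ≤ a) : 0 ≤ β a := by
  rw [CStarAlgebra.nonneg_iff_eq_star_mul_self] at ha
  obtain ⟨c, rfl⟩ := ha
  rw [map_mul, map_star]
  exact star_mul_self_nonneg _

theorem si_main (β : E →⋆ₐ[ℂ] E) (x : E) (hxs : IsSelfAdjoint x) (hne : x - β x ≠ 0)
    (hsp : ‖x - β x‖ ∈ spectrum ℝ (x - β x)) :
    ∃ q : E, 0 ≤ q ∧ ‖q‖ = 1 ∧ ‖q * β q‖ < 1 := by
  have hnt : Nontrivial E := ⟨⟨_, _, hne⟩⟩
  have hβs : ∀ {y : E}, IsSelfAdjoint y → IsSelfAdjoint (β y) := fun {y} hy => by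
    rw [isSelfAdjoint_iff, ← map_star, hy.star_eq]
  set z : E := x - β x with hz
  have hzs : IsSelfAdjoint z := hxs.sub (hβs hxs)
  set ζ : ℝ := ‖z‖ with hζ
  have hζ0 : 0 < ζ := norm_pos_iff.2 hne
  have hη : 0 < ζ / 8 := by positivity
  set p : E := cfc (bumpf ζ (ζ / 8)) z with hp
  have hp0 : 0 ≤ p := bump_nonneg ζ hη z
  have hp1 : ‖p‖ = 1 := norm_bump hzs hη hsp fun t ht =>
    (Real.le_norm_self t).trans (spectrum.norm_le_norm_of_mem ht)
  have hp2 := bump_mul_ge hzs ζ hη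
  rw [← hp] at hp2
  obtain ⟨q, lam, hq0, hq1, hpq, hlam⟩ := excision hp0 hp1 (n := 2) ![x, β x] (by
    intro i
    fin_cases i
    · exact hxs
    · exact hβs hxs) hη
  have hqs : IsSelfAdjoint q := IsSelfAdjoint.of_nonneg hq0
  have hqq : 0 ≤ q * q := by
    have := star_mul_self_nonneg q
    rwa [hqs.star_eq] at this
  have hqqn : ‖q * q‖ = 1 := by
    have := CStarRing.norm_star_mul_self (x := q)
    rw [hqs.star_eq, hq1, one_mul] at this
    exact this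
  have l0 : lam 0 • (q * q) ≤ q * x * q ∧ q * x * q ≤ (lam 0 + ζ / 8) • (q * q) := hlam 0
  have l1 : lam 1 • (q * q) ≤ q * β x * q ∧ q * β x * q ≤ (lam 1 + ζ / 8) • (q * q) := hlam 1
  -- the two scalars differ
  have hpos : ∀ r : ℝ, 0 ≤ r • (q * q) → 0 ≤ r := by
    intro r hr
    by_contra hneg
    push Not at hneg
    have h1 : 0 ≤ (-r) • (q * q) := smul_nonneg (by linarith) hqq
    rw [neg_smul] at h1
    have h2 : r • (q * q) = 0 := le_antisymm (neg_nonneg.1 h1) hr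
    have h3 : ‖r • (q * q)‖ = 0 := by rw [h2, norm_zero]
    rw [norm_smul, hqqn, mul_one, norm_eq_zero] at h3
    exact hneg.ne h3
  have hdiff : ζ - ζ / 8 ≤ lam 0 + ζ / 8 - lam 1 := by
    have h1 := hered_ge hp0 hpq hqs hp2
    have e : q * z * q = q * x * q - q * β x * q := by rw [hz]; noncomm_ring
    rw [e] at h1
    have h2 : (ζ - ζ / 8) • (q * q) ≤ (lam 0 + ζ / 8) • (q * q) - lam 1 • (q * q) :=
      h1.trans (sub_le_sub l0.2 l1.1)
    rw [← sub_smul, ← sub_nonneg, ← sub_smul] at h2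
    have := hpos _ h2
    linarith
  refine ⟨q, hq0, hq1, ?_⟩
  by_contra hlt
  push Not at hlt
  have hβq0 : 0 ≤ β q := si_map_nonneg β hq0
  have hβq1 : ‖β q‖ ≤ 1 := (shom_norm_le β q).trans hq1.le
  have hβqs : IsSelfAdjoint (β q) := IsSelfAdjoint.of_nonneg hβq0
  have heq : ‖q * β q‖ = 1 := by
    refine le_antisymm ?_ hlt
    refine (norm_mul_le _ _).trans ?_
    rw [hq1, one_mul]
    exact hβq1
  set S1 : E := β x - lam 0 • (1 : E) with hS1
  set S2 : E := (lam 1 + ζ / 8) • (1 : E) - β x with hS2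
  have hone : ∀ r : ℝ, IsSelfAdjoint (r • (1 : E)) := fun r =>
    (IsSelfAdjoint.all r).smul (IsSelfAdjoint.one E)
  have hS1s : IsSelfAdjoint S1 := (hβs hxs).sub (hone _)
  have hS2s : IsSelfAdjoint S2 := (hone _).sub (hβs hxs)
  have hS1p : 0 ≤ β q * S1 * β q := by
    have h1 : 0 ≤ q * x * q - lam 0 • (q * q) := sub_nonneg.2 l0.1
    have h2 := si_map_nonneg β h1
    have e : β (q * x * q - lam 0 • (q * q)) = β q * S1 * β q := by
      have e1 : lam 0 • (q * q) = ((lam 0 : ℂ)) • (q * q) := by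
        rw [Complex.coe_smul]
      rw [map_sub, map_mul, map_mul, e1, map_smul, map_mul, hS1, Complex.coe_smul, mul_sub,
        sub_mul, mul_smul_comm, smul_mul_assoc, mul_one]
    rwa [e] at h2
  have hS2p : 0 ≤ q * S2 * q := by
    have h1 : 0 ≤ (lam 1 + ζ / 8) • (q * q) - q * β x * q := sub_nonneg.2 l1.2
    have e : (lam 1 + ζ / 8) • (q * q) - q * β x * q = q * S2 * q := by
      rw [hS2, mul_sub, sub_mul, mul_smul_comm, smul_mul_assoc, mul_one]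
    rwa [e] at h1
  set C : ℝ := 2 * ‖S1‖ + 6 * ‖S2‖ + 1 with hC
  have hC0 : 0 < C := by positivity
  obtain ⟨w, hws, hw1, hw2, hw3⟩ := si_fix hq0 hq1.le hβq0 hβq1 heq
    (r := ζ / (2 * C)) (by positivity)
  have k1 := si_pert hws hw1.le hβqs hβq1 hw2 hS1s hS1p
  have k2 := si_pert hws hw1.le hqs hq1.le hw3 hS2s hS2p
  have k3 := add_le_add k1 k2
  have e1 : w * S1 * w + w * S2 * w = (lam 1 + ζ / 8 - lam 0) • (w * w) := by
    rw [← add_mul, ← mul_add]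
    have : S1 + S2 = (lam 1 + ζ / 8 - lam 0) • (1 : E) := by
      rw [hS1, hS2, sub_smul]; abel
    rw [this, mul_smul_comm, mul_one, smul_mul_assoc]
  have e2 : -((2 * ‖S1‖ * (ζ / (2 * C))) • (1 : E)) + -((2 * ‖S2‖ * (3 * (ζ / (2 * C)))) • (1 : E))
      = -(((2 * ‖S1‖ + 6 * ‖S2‖) * (ζ / (2 * C))) • (1 : E)) := by
    rw [← neg_add, ← add_smul]
    congr 2
    ring
  rw [e1, e2] at k3
  have k4 : (lam 0 - lam 1 - ζ / 8) • (w * w)
      ≤ ((2 * ‖S1‖ + 6 * ‖S2‖) * (ζ / (2 * C))) • (1 : E) := by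
    have : (lam 0 - lam 1 - ζ / 8) • (w * w) = -((lam 1 + ζ / 8 - lam 0) • (w * w)) := by
      rw [← neg_smul]; congr 1; ring
    rw [this]
    exact neg_le.1 k3
  have hg : 0 < lam 0 - lam 1 - ζ / 8 := by linarith
  have hwwn : ‖w * w‖ = 1 := by
    have := CStarRing.norm_star_mul_self (x := w)
    rw [hws.star_eq, hw1, one_mul] at this
    exact this
  have hww : 0 ≤ w * w := by
    have := star_mul_self_nonneg w
    rwa [hws.star_eq] at this
  have k5 : ‖(lam 0 - lam 1 - ζ / 8) • (w * w)‖ ≤ (2 * ‖S1‖ + 6 * ‖S2‖) * (ζ / (2 * C)) := by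
    rw [CStarAlgebra.norm_le_iff_le_algebraMap _ (by positivity) (smul_nonneg hg.le hww),
      Algebra.algebraMap_eq_smul_one]
    exact k4
  rw [norm_smul, hwwn, mul_one, Real.norm_of_nonneg hg.le] at k5
  have k6 : (2 * ‖S1‖ + 6 * ‖S2‖) * (ζ / (2 * C)) ≤ ζ / 2 := by
    have : (2 * ‖S1‖ + 6 * ‖S2‖) ≤ C := by rw [hC]; linarith
    calc (2 * ‖S1‖ + 6 * ‖S2‖) * (ζ / (2 * C)) ≤ C * (ζ / (2 * C)) :=
          mul_le_mul_of_nonneg_right this (by positivity)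
      _ = ζ / 2 := by field_simp
  linarith

end aux

theorem exists_mul_lt {E : Type*} [CStarAlgebra E] (β : E →⋆ₐ[ℂ] E) (x : E) (hx : β x ≠ x) :
    ∃ q c : E, q = star c * c ∧ ‖q‖ = 1 ∧ ‖q * β q‖ < 1 := by
  let _ := CStarAlgebra.spectralOrder E
  have := CStarAlgebra.spectralOrderedRing E
  have key : ∃ y : E, IsSelfAdjoint y ∧ y - β y ≠ 0 := by
    by_contra hcon
    push Not at hcon
    apply hx
    have h1 := hcon _ (realPart x).2
    have h2 := hcon _ (imaginaryPart x).2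
    rw [sub_eq_zero] at h1 h2
    have h3 := realPart_add_I_smul_imaginaryPart x
    conv_lhs => rw [← h3]
    rw [map_add, map_smul, ← h1, ← h2, h3]
  obtain ⟨y, hys, hy⟩ := key
  have hnt : Nontrivial E := ⟨⟨_, _, hy⟩⟩
  have hβs : IsSelfAdjoint (β y) := by
    rw [isSelfAdjoint_iff, ← map_star, hys.star_eq]
  have main : ∃ q : E, 0 ≤ q ∧ ‖q‖ = 1 ∧ ‖q * β q‖ < 1 := by
    rcases CStarAlgebra.norm_or_neg_norm_mem_spectrum (hys.sub hβs) with h | h
    · exact si_main β y hys hy h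
    · have e : -y - β (-y) = -(y - β y) := by rw [map_neg]; abel
      apply si_main β (-y) hys.neg
      · rw [e]; exact neg_ne_zero.2 hy
      · rw [e, norm_neg]
        rw [← spectrum.neg_eq, Set.mem_neg]
        exact h
  obtain ⟨q, hq0, hq1, hq2⟩ := main
  rw [CStarAlgebra.nonneg_iff_eq_star_mul_self] at hq0
  obtain ⟨c, hc⟩ := hq0
  exact ⟨q, c, hc, hq1, hq2⟩

end Pool.Agent.Lib.EJS
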