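import Pool.Agent.Lib.EJS.Seq

/-!
# Part SI: the ultrapower of a C-star algebra (SI5)
-/

open scoped ComplexOrder
open Filter Topology Pool.Agent.Lib.EqGamma

namespace Pool.Agent.Lib.EJS

universe u v

/-- the ideal of bounded sequences tending to zero along an ultrafilter -/
def cU (U : Ultrafilter ℕ) (A : Type u) [CStarAlgebra A] : CIdeal (BF ℕ A) where
  ideal :=
    { carrier := {x | Tendsto (fun n => BF.ev n x) U (𝓝 0)}
      add_mem' := by
        intro x y hx hy
        have := Tendsto.add hx hy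
        simpa only [Set.mem_ofPred_eq, map_add, add_zero] using this
      zero_mem' := by
        simp only [Set.mem_ofPred_eq, map_zero]
        exact tendsto_const_nhds
      smul_mem' := by
        intro c x hx
        simp only [Set.mem_ofPred_eq, smul_eq_mul, map_mul] at hx ⊢
        rw [tendsto_zero_iff_norm_tendsto_zero] at hx ⊢
        refine squeeze_zero (fun _ => norm_nonneg _) (fun n => ?_)
          (by simpa using hx.const_mul ‖c‖)
        exact (norm_mul_le _ _).trans
          (mul_le_mul_of_nonneg_right (BF.norm_ev_le c n) (norm_nonneg _)) }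
  mul_right' := by
    intro x c hx
    change Tendsto _ _ _ at hx
    change Tendsto _ _ _
    simp only [map_mul] at hx ⊢
    rw [tendsto_zero_iff_norm_tendsto_zero] at hx ⊢
    refine squeeze_zero (fun _ => norm_nonneg _) (fun n => ?_)
      (by simpa using hx.mul_const ‖c‖)
    exact (norm_mul_le _ _).trans
      (mul_le_mul_of_nonneg_left (BF.norm_ev_le c n) (norm_nonneg _))
  star_mem' := by
    intro x hx
    change Tendsto _ _ _ at hx
    change Tendsto _ _ _
    simp only [map_star]
    simpa using hx.star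
  closed' := by
    rw [← isSeqClosed_iff_isClosed]
    intro x y hx hxy
    change Tendsto _ _ _
    rw [Metric.tendsto_nhds]
    intro ε hε
    obtain ⟨k, hk⟩ := ((Metric.tendsto_nhds.1 hxy) (ε / 2) (half_pos hε)).exists
    have h1 := (Metric.tendsto_nhds.1
      (show Tendsto (fun n => BF.ev n (x k)) (U : Filter ℕ) (𝓝 0) from hx k)) (ε / 2) (half_pos hε)
    filter_upwards [h1] with n hn
    rw [dist_zero_right] at hn ⊢
    rw [dist_eq_norm] at hk
    have h2 : BF.ev n y = BF.ev n (x k) - BF.ev n (x k - y) := by rw [map_sub]; abel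
    rw [h2]
    have h3 := BF.norm_ev_le (x k - y) n
    have h4 := norm_sub_le (BF.ev n (x k)) (BF.ev n (x k - y))
    linarith

/-- the ultrapower -/
abbrev AU (U : Ultrafilter ℕ) (A : Type u) [CStarAlgebra A] : Type u := CQ (cU U A)

namespace AU

variable {A : Type u} [CStarAlgebra A] {U : Ultrafilter ℕ}

/-- the class of a bounded sequence -/
noncomputable def of : BF ℕ A →⋆ₐ[ℂ] AU U A := CQ.mk (cU U A)

theorem of_surjective : Function.Surjective (of : BF ℕ A → AU U A) := CQ.mk_surjective _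

theorem norm_of_le (x : BF ℕ A) : ‖(of x : AU U A)‖ ≤ ‖x‖ := CQ.norm_mk_le _ x

theorem exists_lift (y : AU U A) : ∃ x : BF ℕ A, of x = y ∧ ‖x‖ ≤ ‖y‖ := CQ.exists_lift _ y

theorem of_eq_zero {x : BF ℕ A} :
    (of x : AU U A) = 0 ↔ Tendsto (fun n => BF.ev n x) (U : Filter ℕ) (𝓝 0) :=
  CQ.mk_eq_zero _

theorem of_eq_of {x y : BF ℕ A} : (of x : AU U A) = of y ↔
    Tendsto (fun n => BF.ev n x - BF.ev n y) (U : Filter ℕ) (𝓝 0) := by
  rw [← sub_eq_zero, ← map_sub, of_eq_zero]
  simp only [map_sub]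

/-- small coordinates -/
theorem eventually_lt {x : BF ℕ A} {c : ℝ} (h : ‖(of x : AU U A)‖ < c) :
    ∀ᶠ n in (U : Filter ℕ), ‖BF.ev n x‖ < c := by
  obtain ⟨y, hy, hxy⟩ := (CQ.norm_mk_lt_iff (cU U A)).1 h
  have h1 := (Metric.tendsto_nhds.1
    (show Tendsto (fun n => BF.ev n y) (U : Filter ℕ) (𝓝 0) from hy))
    (c - ‖x + y‖) (sub_pos.2 hxy)
  filter_upwards [h1] with n hn
  rw [dist_zero_right] at hn
  have h2 : BF.ev n x = BF.ev n (x + y) - BF.ev n y := by rw [map_add]; abel
  rw [h2]
  have h3 := BF.norm_ev_le (x + y) n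
  have h4 := norm_sub_le (BF.ev n (x + y)) (BF.ev n y)
  linarith

theorem norm_le_of_eventually {x : BF ℕ A} {c : ℝ} (hc : 0 ≤ c)
    (h : ∀ᶠ n in (U : Filter ℕ), ‖BF.ev n x‖ ≤ c) : ‖(of x : AU U A)‖ ≤ c := by
  classical
  have h1 : (of x : AU U A) =
      of (BF.mk (fun n => if ‖BF.ev n x‖ ≤ c then BF.ev n x else 0) c fun n => by
        split_ifs with h
        · exact h
        · rwa [norm_zero]) := by
    rw [of_eq_of]
    refine tendsto_const_nhds.congr' ?_
    filter_upwards [h] with n hn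
    rw [BF.ev_mk, if_pos hn, sub_self]
  rw [h1]
  refine (norm_of_le _).trans ?_
  refine BF_norm_le hc fun n => ?_
  rw [BF.ev_mk]
  split_ifs with h
  · exact h
  · rwa [norm_zero]

/-- large coordinates -/
theorem eventually_gt {x : BF ℕ A} {c : ℝ} (hc : 0 ≤ c) (h : c < ‖(of x : AU U A)‖) :
    ∀ᶠ n in (U : Filter ℕ), c < ‖BF.ev n x‖ := by
  have h1 : ¬ ∀ᶠ n in (U : Filter ℕ), ‖BF.ev n x‖ ≤ c := fun h2 =>
    absurd (norm_le_of_eventually hc h2) (not_le.2 h)
  rw [← Ultrafilter.eventually_not] at h1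
  filter_upwards [h1] with n hn
  exact not_le.1 hn

/-- constant sequences -/
noncomputable def const : A →⋆ₐ[ℂ] AU U A := of.comp (BF.cstHom ℕ A)

theorem const_apply (a : A) : (const a : AU U A) = of (BF.cst a) := rfl

theorem norm_const (a : A) : ‖(const a : AU U A)‖ = ‖a‖ := by
  refine le_antisymm (shom_norm_le _ _) ?_
  refine le_of_forall_pos_le_add fun ε hε => ?_
  obtain ⟨n, hn⟩ := (eventually_lt (U := U) (x := BF.cst a) (c := ‖(const a : AU U A)‖ + ε)
    (by rw [← const_apply]; linarith)).exists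
  rw [BF.ev_cst] at hn
  exact hn.le

instance [Nontrivial A] : Nontrivial (AU U A) := by
  refine ⟨⟨1, 0, fun h => ?_⟩⟩
  have h1 := norm_const (U := U) (1 : A)
  rw [map_one, h, norm_zero] at h1
  exact one_ne_zero (norm_eq_zero.1 h1.symm)

/-- a sequence converging to zero along `atTop` is zero in the ultrapower -/
theorem of_eq_zero_of_atTop (hU : (U : Filter ℕ) ≤ atTop) {x : BF ℕ A}
    (h : Tendsto (fun n => BF.ev n x) atTop (𝓝 0)) : (of x : AU U A) = 0 :=
  of_eq_zero.2 (h.mono_left hU)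

end AU

end Pool.Agent.Lib.EJS
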