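import Pool.Agent.Lib.EJS.SILemN
import Pool.Agent.Lib.EJS.SIOrth
import Pool.Agent.Lib.EJS.SIUlt

/-!
# Part SI: Lemma N realised in `A` (first part of SI7)

PROOF.  (All imports are black boxes.)  Let `a_n` be a dense sequence of `A` and choose (`exists_orth`, `F_n = {a_0, .., a_n}`, `ε = 1/(n+1)`) `P_n ∈ A`, `0 ≤ P_n`, `‖P_n‖ = 1`,
`‖P_n a_j - a_j P_n‖ ≤ 1/(n+1)` for `j ≤ n`, `‖P_n α_g(P_n)‖ ≤ 1/(n+1)` for `g ∈ K`.  Let `U` be an ultrafilter on `ℕ` with `U ≤ atTop` (`Filter.hyperfilter` on `ℕ`, or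
`Ultrafilter.of atTop`), `D = AU U A`, `ι = AU.const`, `P = AU.of (P_n)`: `0 ≤ P` (`P_n = star c_n * c_n` with `c_n = √P_n`), `‖P‖ = 1` (`AU.norm_le_of_eventually`,
`AU.eventually_gt`), `P` commutes with `ι a` (density).  `lemmaN` gives `k, c`; given `ε₁` apply its second part with `ε' = ε₁/2`:
`m, q_μ ∈ D, t, d, σ`.  Given `δ > 0`: write `q_μ = star c_μ * c_μ`, `‖c_μ‖ = 1`, lift `c_μ` to a bounded sequence of norm `≤ 1` (`AU.exists_lift`),
`q_{μ,n} = star c_{μ,n} * c_{μ,n}`, so `0 ≤ q_{μ,n}`, `‖q_{μ,n}‖ ≤ 1` for all `n`.  The following hold in `D`: `‖q_μ‖ = 1 > 1/2`, `u(P) q_μ = q_μ`, `u(P) = AU.of (u(P_n))`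
(`StarAlgHomClass.map_cfc` for `AU.of` and evaluation of `cfc` in `BF ℕ A` coordinatewise, again `map_cfc` for `BF.ev n`), `u(P)` commutes with `ι(A)`,
`‖q_μ ι(star d_i a d_j) q_μ - σ q_μ^2‖ ≤ ε₁/2 < ε₁`.  So for `n` in a set of `U` (`AU.eventually_lt`, `AU.eventually_gt`): `1/2 < ‖q_{μ,n}‖`,
`‖u(P_n) q_{μ,n} - q_{μ,n}‖ ≤ δ`, `‖u(P_n) d - d u(P_n)‖ ≤ δ` for the finitely many `d = d_μj`, `‖u(P_n) a - a u(P_n)‖ ≤ δ` for `a ∈ F`, tables with
error `ε₁`.  Moreover `u(P_n) = P_n v(P_n) = v(P_n) P_n`, `‖v(P_n)‖ ≤ 2` (`uf_eq`, `norm_vf_le`), so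
`‖u(P_n) α_g(u(P_n))‖ = ‖v(P_n) P_n α_g(P_n) α_g(v(P_n))‖ ≤ 4/(n+1) ≤ δ` for large `n` (`U ≤ atTop`).  Take one such `n`, `p := u(P_n)`, `q μ := q_{μ,n}`.
-/

open scoped ComplexOrder
open Filter Topology Pool.Agent.Lib.EqGamma

namespace Pool.Agent.Lib.EJS

universe u v

private theorem pick_seq {A : Type u} [CStarAlgebra A] [PartialOrder A] [StarOrderedRing A]
    [TopologicalSpace.SeparableSpace A] [IsSimpleRing A] {G : Type v} [Group G]
    (α : G →* (A ≃⋆ₐ[ℂ] A)) (K : Finset G) (hK : ∀ g ∈ K, g ∉ Triv α) :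
    ∃ pp : ℕ → A, (∀ n, 0 ≤ pp n) ∧ (∀ n, ‖pp n‖ = 1) ∧
      (∀ a, Tendsto (fun n => pp n * a - a * pp n) atTop (𝓝 0)) ∧
      ∀ g ∈ K, ∀ n : ℕ, ‖pp n * α g (pp n)‖ ≤ 1 / ((n : ℝ) + 1) := by
  classical
  have : Nonempty A := ⟨0⟩
  let a := TopologicalSpace.denseSeq A
  have ha : DenseRange a := TopologicalSpace.denseRange_denseSeq A
  have hex : ∀ n : ℕ, ∃ p : A, 0 ≤ p ∧ ‖p‖ = 1 ∧
      (∀ x ∈ (Finset.range (n + 1)).image a, ‖p * x - x * p‖ ≤ 1 / ((n : ℝ) + 1)) ∧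
      ∀ g ∈ K, ‖p * α g p‖ ≤ 1 / ((n : ℝ) + 1) := fun n =>
    exists_orth α _ K hK (by positivity)
  choose pp h1 h2 h3 h4 using hex
  refine ⟨pp, h1, h2, fun x => ?_, fun g hg n => h4 n g hg⟩
  rw [Metric.tendsto_atTop]
  intro ε hε
  obtain ⟨j, hj⟩ := ha.exists_dist_lt x (show 0 < ε / 4 by positivity)
  obtain ⟨N, hN⟩ := exists_nat_gt (2 / ε)
  refine ⟨max N j, fun n hn => ?_⟩
  have hnN : N ≤ n := (le_max_left _ _).trans hn
  have hnj : j ≤ n := (le_max_right _ _).trans hn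
  rw [dist_zero_right]
  have e1 : pp n * x - x * pp n = (pp n * a j - a j * pp n) + (pp n * (x - a j) -
      (x - a j) * pp n) := by noncomm_ring
  have h5 := h3 n (a j) (Finset.mem_image_of_mem a (Finset.mem_range.2 (by omega)))
  have h6 : ‖pp n * (x - a j)‖ ≤ ε / 4 := by
    refine (norm_mul_le _ _).trans ?_
    rw [h2, one_mul, ← dist_eq_norm]
    exact hj.le
  have h7 : ‖(x - a j) * pp n‖ ≤ ε / 4 := by
    refine (norm_mul_le _ _).trans ?_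
    rw [h2, mul_one, ← dist_eq_norm]
    exact hj.le
  have h8 : 1 / ((n : ℝ) + 1) < ε / 2 := by
    rw [div_lt_iff₀ (by positivity)]
    have h9 : 2 / ε < (n : ℝ) + 1 := by
      have : (N : ℝ) ≤ n := by exact_mod_cast hnN
      linarith
    rw [div_lt_iff₀ hε] at h9
    linarith
  rw [e1]
  have h9 := norm_add_le (pp n * a j - a j * pp n) (pp n * (x - a j) - (x - a j) * pp n)
  have h10 := norm_sub_le (pp n * (x - a j)) ((x - a j) * pp n)
  linarith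

private theorem pick_lift {A : Type u} [CStarAlgebra A] [PartialOrder A] [StarOrderedRing A]
    {U : Ultrafilter ℕ} (q : AU U A) (hq : ∃ c, q = star c * c) (hq1 : ‖q‖ = 1) :
    ∃ qb : BF ℕ A, AU.of qb = q ∧ ∀ n, 0 ≤ BF.ev n qb ∧ ‖BF.ev n qb‖ ≤ 1 := by
  obtain ⟨c, rfl⟩ := hq
  obtain ⟨cb, rfl, hcb⟩ := AU.exists_lift c
  rw [CStarRing.norm_star_mul_self] at hq1
  have h1 : ‖(AU.of cb : AU U A)‖ = 1 := by
    have := norm_nonneg (AU.of cb : AU U A)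
    nlinarith
  rw [h1] at hcb
  refine ⟨star cb * cb, by rw [map_mul, map_star], fun n => ⟨?_, ?_⟩⟩
  · rw [map_mul, map_star]
    exact star_mul_self_nonneg _
  · refine (BF.norm_ev_le _ n).trans ?_
    rw [CStarRing.norm_star_mul_self]
    exact mul_le_one₀ hcb (norm_nonneg _) hcb

private theorem pick_cfc {A : Type u} [CStarAlgebra A] {U : Ultrafilter ℕ} (f : ℝ → ℝ)
    (hf : Continuous f) (x : BF ℕ A) (hx : IsSelfAdjoint x) :
    (AU.of (cfc f x) : AU U A) = cfc f (AU.of x) ∧ ∀ n, BF.ev n (cfc f x) = cfc f (BF.ev n x) := by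
  refine ⟨?_, fun n => ?_⟩
  · exact StarAlgHomClass.map_cfc (AU.of : BF ℕ A →⋆ₐ[ℂ] AU U A) f x hf.continuousOn
      (shom_continuous _) hx (hx.map _)
  · exact StarAlgHomClass.map_cfc (BF.ev n : BF ℕ A →⋆ₐ[ℂ] A) f x hf.continuousOn
      (shom_continuous _) hx (hx.map _)

theorem pick {A : Type u} [CStarAlgebra A] [PartialOrder A] [StarOrderedRing A]
    [TopologicalSpace.SeparableSpace A] [IsSimpleRing A] (hA : IsNuclear A) {G : Type v} [Group G]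
    (α : G →* (A ≃⋆ₐ[ℂ] A)) (F : Finset A) (K : Finset G) (hK : ∀ g ∈ K, g ∉ Triv α)
    {ε₀ : ℝ} (hε₀ : 0 < ε₀) :
    ∃ (k : ℕ) (c : Fin k → Fin k → A), (∀ l j, ‖c l j‖ ≤ 1) ∧ ∀ ε₁ : ℝ, 0 < ε₁ →
      ∃ (m : ℕ) (t : Fin m → ℝ) (d : Fin m → Fin k → A) (σ : Fin m → A → Fin k → Fin k → ℂ),
        (∀ μ, 0 ≤ t μ) ∧ ∑ μ, t μ ≤ k ∧
        (∀ a ∈ F, ‖(∑ μ, ∑ i, ∑ j, ∑ l, ((t μ : ℂ) * σ μ a i j) • (star (c l i) * c l j)) - a‖
          ≤ ε₀) ∧
        ∀ δ : ℝ, 0 < δ → ∃ (p : A) (q : Fin m → A), star p = p ∧ ‖p‖ ≤ 1 ∧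
          (∀ a ∈ F, ‖p * a - a * p‖ ≤ δ) ∧ (∀ g ∈ K, ‖p * α g p‖ ≤ δ) ∧
          ∀ μ, 0 ≤ q μ ∧ ‖q μ‖ ≤ 1 ∧ 1 / 2 < ‖q μ‖ ∧ ‖p * q μ - q μ‖ ≤ δ ∧
            (∀ j, ‖p * d μ j - d μ j * p‖ ≤ δ) ∧
            ∀ a ∈ F, ∀ i j,
              ‖q μ * (star (d μ i) * a * d μ j) * q μ - σ μ a i j • (q μ * q μ)‖ ≤ ε₁ := by
  classical
  obtain ⟨k, c, hc, H⟩ := lemmaN hA F hε₀
  refine ⟨k, c, hc, fun ε₁ hε₁ => ?_⟩
  obtain ⟨pp, hpp0, hpp1, hppc, hppα⟩ := pick_seq α K hK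
  have hntA : Nontrivial A := inferInstance
  let U : Ultrafilter ℕ := Ultrafilter.of atTop
  have hU : (U : Filter ℕ) ≤ atTop := Ultrafilter.of_le (atTop : Filter ℕ)
  -- the element P
  let Pb : BF ℕ A := BF.mk pp 1 fun n => (hpp1 n).le
  have hPbev : ∀ n, BF.ev n Pb = pp n := fun n => rfl
  have hPbs : ∃ cb : BF ℕ A, Pb = star cb * cb := by
    have h1 : ∀ n, ∃ x : A, pp n = star x * x := fun n => by
      have := (hpp0 n)
      rw [CStarAlgebra.nonneg_iff_eq_star_mul_self] at this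
      exact this
    choose x hx using h1
    have hx1 : ∀ n, ‖x n‖ ≤ 1 := fun n => by
      have h2 := hpp1 n
      rw [hx n, CStarRing.norm_star_mul_self] at h2
      have := norm_nonneg (x n)
      nlinarith
    refine ⟨BF.mk x 1 hx1, BF.ext fun n => ?_⟩
    rw [map_mul, map_star]
    exact hx n
  have hPbsa : IsSelfAdjoint Pb := by
    obtain ⟨cb, hcb⟩ := hPbs
    rw [hcb]
    exact IsSelfAdjoint.star_mul_self cb
  let P : AU U A := AU.of Pb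
  have hP0 : 0 ≤ P := by
    obtain ⟨cb, hcb⟩ := hPbs
    show 0 ≤ (AU.of Pb : AU U A)
    rw [hcb, map_mul, map_star]
    exact star_mul_self_nonneg _
  have hP1 : ‖P‖ = 1 := by
    refine le_antisymm ?_ ?_
    · exact AU.norm_le_of_eventually zero_le_one (Eventually.of_forall fun n => (hpp1 n).le)
    · by_contra h
      rw [not_le] at h
      obtain ⟨n, hn⟩ := (AU.eventually_lt h).exists
      rw [hPbev, hpp1] at hn
      exact lt_irrefl _ hn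
  have hcomm : ∀ a, Commute (AU.const a : AU U A) P := by
    intro a
    show (AU.of (BF.cst a) : AU U A) * AU.of Pb = AU.of Pb * AU.of (BF.cst a)
    symm
    rw [← sub_eq_zero, ← map_mul, ← map_mul, ← map_sub]
    refine AU.of_eq_zero_of_atTop hU ?_
    simp only [map_sub, map_mul, hPbev, BF.ev_cst]
    exact hppc a
  obtain ⟨m, q, t, d, σ, htab, ht0, htk, happ⟩ :=
    H (AU U A) AU.const P hP0 hP1 hcomm (ε₁ / 2) (half_pos hε₁)
  refine ⟨m, t, d, σ, ht0, htk, happ, fun δ hδ => ?_⟩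
  have hlift : ∀ μ, ∃ qb : BF ℕ A, AU.of qb = q μ ∧ ∀ n, 0 ≤ BF.ev n qb ∧ ‖BF.ev n qb‖ ≤ 1 :=
    fun μ => pick_lift (q μ) (htab μ).pos (htab μ).norm
  choose qb hqb hqbn using hlift
  let ub : BF ℕ A := cfc uf Pb
  have hub : (AU.of ub : AU U A) = cfc uf P := (pick_cfc uf continuous_uf Pb hPbsa).1
  have hubn : ∀ n, BF.ev n ub = cfc uf (pp n) := (pick_cfc (U := U) uf continuous_uf Pb hPbsa).2
  have hucomm : ∀ a, (AU.of (ub * BF.cst a - BF.cst a * ub) : AU U A) = 0 := by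
    intro a
    rw [map_sub, map_mul, map_mul, hub, sub_eq_zero]
    exact ((hcomm a).symm.cfc_real uf)
  -- eventual properties
  have ev1 : ∀ μ, ∀ᶠ n in (U : Filter ℕ), 1 / 2 < ‖BF.ev n (qb μ)‖ := fun μ =>
    AU.eventually_gt (by norm_num) (by rw [hqb, (htab μ).norm]; norm_num)
  have ev2 : ∀ μ, ∀ᶠ n in (U : Filter ℕ), ‖BF.ev n (ub * qb μ - qb μ)‖ < δ := fun μ =>
    AU.eventually_lt (by
      rw [map_sub, map_mul, hub, hqb, (htab μ).under, sub_self, norm_zero]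
      exact hδ)
  have ev3 : ∀ μ j, ∀ᶠ n in (U : Filter ℕ),
      ‖BF.ev n (ub * BF.cst (d μ j) - BF.cst (d μ j) * ub)‖ < δ := fun μ j =>
    AU.eventually_lt (by rw [hucomm, norm_zero]; exact hδ)
  have ev4 : ∀ a ∈ F, ∀ᶠ n in (U : Filter ℕ),
      ‖BF.ev n (ub * BF.cst a - BF.cst a * ub)‖ < δ := fun a _ =>
    AU.eventually_lt (by rw [hucomm, norm_zero]; exact hδ)
  have ev5 : ∀ μ, ∀ a ∈ F, ∀ i j, ∀ᶠ n in (U : Filter ℕ),
      ‖BF.ev n (qb μ * BF.cst (star (d μ i) * a * d μ j) * qb μ -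
        σ μ a i j • (qb μ * qb μ))‖ < ε₁ := fun μ a ha i j =>
    AU.eventually_lt (by
      have h1 := (htab μ).tab a ha i j
      rw [map_sub, map_smul, map_mul, map_mul, map_mul, hqb]
      refine lt_of_le_of_lt h1 ?_
      linarith)
  have ev6 : ∀ᶠ n : ℕ in (U : Filter ℕ), 4 * (1 / ((n : ℝ) + 1)) < δ := by
    have h1 : Tendsto (fun n : ℕ => 4 * (1 / ((n : ℝ) + 1))) atTop (𝓝 (4 * 0)) :=
      tendsto_one_div_add_atTop_nhds_zero_nat.const_mul 4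
    rw [mul_zero] at h1
    exact hU (h1.eventually_lt_const hδ)
  have ev1' := eventually_all.2 ev1
  have ev2' := eventually_all.2 ev2
  have ev3' := eventually_all.2 fun μ => eventually_all.2 (ev3 μ)
  have ev4' := (eventually_all_finset F).2 ev4
  have ev5' := eventually_all.2 fun μ => (eventually_all_finset F).2 fun a ha =>
    eventually_all.2 fun i => eventually_all.2 fun j => ev5 μ a ha i j
  obtain ⟨n, h1, h2, h3, h4, h5, h6⟩ :=
    (ev1'.and (ev2'.and (ev3'.and (ev4'.and (ev5'.and ev6))))).exists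
  refine ⟨cfc uf (pp n), fun μ => BF.ev n (qb μ), ?_, (uf_le_one (hpp0 n)).2, ?_, ?_, ?_⟩
  · exact (uf_nonneg (hpp0 n)).isSelfAdjoint.star_eq
  · intro a ha
    have := (h4 a ha).le
    simpa only [map_sub, map_mul, hubn, BF.ev_cst] using this
  · intro g hg
    have e1 := (uf_eq (hpp0 n)).2
    have e2 : α g (cfc uf (pp n)) = α g (pp n) * α g (cfc vf (pp n)) := by
      rw [(uf_eq (hpp0 n)).1, map_mul]
    have e3 : cfc uf (pp n) * α g (cfc uf (pp n)) =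
        cfc vf (pp n) * (pp n * α g (pp n)) * α g (cfc vf (pp n)) := by
      rw [e2]
      conv_lhs => rw [e1]
      noncomm_ring
    rw [e3]
    have n1 : ‖cfc vf (pp n)‖ ≤ 2 := norm_vf_le (hpp0 n)
    have n2 : ‖α g (cfc vf (pp n))‖ ≤ 2 := (shom_norm_le (α g : A →⋆ₐ[ℂ] A) _).trans n1
    have n3 := hppα g hg n
    have n4 : ‖cfc vf (pp n) * (pp n * α g (pp n))‖ ≤ 2 * (1 / ((n : ℝ) + 1)) :=
      (norm_mul_le _ _).trans (mul_le_mul n1 n3 (norm_nonneg _) zero_le_two)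
    have n5 : ‖cfc vf (pp n) * (pp n * α g (pp n)) * α g (cfc vf (pp n))‖ ≤
        2 * (1 / ((n : ℝ) + 1)) * 2 :=
      (norm_mul_le _ _).trans (mul_le_mul n4 n2 (norm_nonneg _) (by positivity))
    linarith
  · intro μ
    refine ⟨(hqbn μ n).1, (hqbn μ n).2, h1 μ, ?_, ?_, ?_⟩
    · have := (h2 μ).le
      simpa only [map_sub, map_mul, hubn] using this
    · intro j
      have := (h3 μ j).le
      simpa only [map_sub, map_mul, hubn, BF.ev_cst] using this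
    · intro a ha i j
      have := (h5 μ a ha i j).le
      rw [map_sub, map_smul, map_mul, map_mul, map_mul, BF.ev_cst] at this
      exact this

end Pool.Agent.Lib.EJS
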