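import Pool.Agent.Lib.EqGamma.Defs

/-!
# Part SI: Reiter's condition for the left action on `G ⧸ N` (SI9)

PROOF.  Apply Folner's condition (`hG`) to the finite set `K` and `ε`: a nonempty finite `L` with `|hL Δ L| ≤ ε |L|` for `h ∈ K`.
`κ c := √(|{g ∈ L : (g : G ⧸ N) = c}| / |L|)`, `S :=` the image of `L` in `G ⧸ N`.  `κ ≥ 0`, `κ = 0` outside `S`, `∑_{c ∈ S} κ(c)^2 = 1` (`Finset.card_eq_sum_card_fiberwise`).  For
`h ∈ K`: `κ(h⁻¹ • c)^2 = |{g ∈ hL : (g : G ⧸ N) = c}| / |L|` (`g ↦ h g`).  `(√x - √y)^2 ≤ |x - y|`, so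
`∑_{c ∈ T} (κ(h⁻¹ c) - κ(c))^2 ≤ ∑_{c ∈ T} ||{g ∈ hL : [g] = c}| - |{g ∈ L : [g] = c}|| / |L| ≤ ∑_c |{g ∈ hL Δ L : [g] = c}| / |L| ≤ |hL Δ L| / |L| ≤ ε`.
-/

namespace Pool.Agent.Lib.EJS

private theorem reiter_sqrt {x y : ℝ} (hx : 0 ≤ x) (hy : 0 ≤ y) :
    (√x - √y) ^ 2 ≤ |x - y| := by
  have h1 : x - y = (√x - √y) * (√x + √y) := by
    have := Real.mul_self_sqrt hx
    have := Real.mul_self_sqrt hy
    nlinarith
  rw [h1, abs_mul, ← sq_abs, pow_two]
  apply mul_le_mul_of_nonneg_left _ (abs_nonneg _)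
  have h2 := Real.sqrt_nonneg x
  have h3 := Real.sqrt_nonneg y
  rw [abs_le, abs_of_nonneg (by linarith : 0 ≤ √x + √y)]
  constructor <;> linarith

theorem exists_reiter {G : Type*} [Group G] (hG : EqGamma.AmenableGroup G) (N : Subgroup G)
    (K : Finset G) {ε : ℝ} (hε : 0 < ε) :
    ∃ (S : Finset (G ⧸ N)) (κ : G ⧸ N → ℝ), (∀ c, 0 ≤ κ c) ∧ (∀ c, c ∉ S → κ c = 0) ∧
      ∑ c ∈ S, κ c ^ 2 = 1 ∧
      ∀ h ∈ K, ∀ T : Finset (G ⧸ N), ∑ c ∈ T, (κ (h⁻¹ • c) - κ c) ^ 2 ≤ ε := by
  classical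
  obtain ⟨L, hL, hK⟩ := hG K ε hε
  have hL0 : (0 : ℝ) < L.card := by exact_mod_cast Finset.card_pos.2 hL
  let cnt : Finset G → G ⧸ N → ℕ := fun A c => (A.filter fun g : G => (g : G ⧸ N) = c).card
  refine ⟨L.image fun g : G => (g : G ⧸ N), fun c => √((cnt L c : ℝ) / L.card),
    fun c => Real.sqrt_nonneg _, ?_, ?_, ?_⟩
  · intro c hc
    have : cnt L c = 0 := by
      simp only [cnt, Finset.card_eq_zero, Finset.filter_eq_empty_iff]
      intro g hg hgc
      exact hc (Finset.mem_image.2 ⟨g, hg, hgc⟩)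
    simp [this]
  · have h1 : ∀ c ∈ L.image fun g : G => (g : G ⧸ N), √((cnt L c : ℝ) / L.card) ^ 2 =
        (cnt L c : ℝ) / L.card := fun c _ => Real.sq_sqrt (by positivity)
    rw [Finset.sum_congr rfl h1, ← Finset.sum_div, div_eq_one_iff_eq hL0.ne', ← Nat.cast_sum]
    congr 1
    exact (Finset.card_eq_sum_card_fiberwise fun g hg => Finset.mem_image_of_mem _ hg).symm
  · intro h hh T
    set H := L.image fun g => h * g with hH
    set D := symmDiff H L with hD
    have hcnt : ∀ c, cnt L (h⁻¹ • c) = cnt H c := by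
      intro c
      simp only [cnt]
      apply Finset.card_bij (fun g _ => h * g)
      · intro g hg
        rw [Finset.mem_filter] at hg ⊢
        refine ⟨Finset.mem_image.2 ⟨g, hg.1, rfl⟩, ?_⟩
        have h2 : ((h * g : G) : G ⧸ N) = h • (g : G ⧸ N) := rfl
        rw [h2, hg.2, smul_inv_smul]
      · intro g _ g' _ h1
        exact mul_left_cancel h1
      · intro g hg
        rw [Finset.mem_filter] at hg
        obtain ⟨hg1, hg2⟩ := hg
        obtain ⟨g', hg', rfl⟩ := Finset.mem_image.1 hg1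
        refine ⟨g', ?_, rfl⟩
        rw [Finset.mem_filter]
        refine ⟨hg', ?_⟩
        have h2 : ((h * g' : G) : G ⧸ N) = h • (g' : G ⧸ N) := rfl
        rw [← hg2, h2, inv_smul_smul]
    have hdiff : ∀ c, |(cnt H c : ℝ) - cnt L c| ≤ cnt D c := by
      intro c
      have e1 : (H.filter fun g : G => (g : G ⧸ N) = c) ⊆
          (L.filter fun g : G => (g : G ⧸ N) = c) ∪ (D.filter fun g : G => (g : G ⧸ N) = c) := by
        intro g hg
        rw [Finset.mem_filter] at hg
        rw [Finset.mem_union, Finset.mem_filter, Finset.mem_filter]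
        by_cases hgL : g ∈ L
        · exact Or.inl ⟨hgL, hg.2⟩
        · exact Or.inr ⟨Finset.mem_symmDiff.2 (Or.inl ⟨hg.1, hgL⟩), hg.2⟩
      have e2 : (L.filter fun g : G => (g : G ⧸ N) = c) ⊆
          (H.filter fun g : G => (g : G ⧸ N) = c) ∪ (D.filter fun g : G => (g : G ⧸ N) = c) := by
        intro g hg
        rw [Finset.mem_filter] at hg
        rw [Finset.mem_union, Finset.mem_filter, Finset.mem_filter]
        by_cases hgH : g ∈ H
        · exact Or.inl ⟨hgH, hg.2⟩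
        · exact Or.inr ⟨Finset.mem_symmDiff.2 (Or.inr ⟨hg.1, hgH⟩), hg.2⟩
      have f1 := (Finset.card_le_card e1).trans (Finset.card_union_le _ _)
      have f2 := (Finset.card_le_card e2).trans (Finset.card_union_le _ _)
      have f1' : (cnt H c : ℝ) ≤ cnt L c + cnt D c := by exact_mod_cast f1
      have f2' : (cnt L c : ℝ) ≤ cnt H c + cnt D c := by exact_mod_cast f2
      rw [abs_le]
      constructor <;> linarith
    have hDc : ∑ c ∈ T, (cnt D c : ℝ) ≤ D.card := by
      rw [← Nat.cast_sum]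
      have e3 : ∑ c ∈ T, cnt D c = (T.biUnion fun c => D.filter fun g : G => (g : G ⧸ N) = c).card := by
        rw [Finset.card_biUnion]
        intro c _ c' _ hne
        rw [Function.onFun, Finset.disjoint_left]
        intro g hg hg'
        rw [Finset.mem_filter] at hg hg'
        exact hne (hg.2.symm.trans hg'.2)
      rw [e3]
      exact_mod_cast Finset.card_le_card (Finset.biUnion_subset.2 fun c _ => Finset.filter_subset _ _)
    have hfin : (D.card : ℝ) ≤ ε * L.card := by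
      have := hK h hh
      convert this
    calc ∑ c ∈ T, (√((cnt L (h⁻¹ • c) : ℝ) / L.card) - √((cnt L c : ℝ) / L.card)) ^ 2
        ≤ ∑ c ∈ T, (cnt D c : ℝ) / L.card := by
          apply Finset.sum_le_sum
          intro c _
          refine (reiter_sqrt (by positivity) (by positivity)).trans ?_
          rw [hcnt, ← sub_div, abs_div, abs_of_pos hL0]
          exact div_le_div_of_nonneg_right (hdiff c) hL0.le
      _ = (∑ c ∈ T, (cnt D c : ℝ)) / L.card := by rw [Finset.sum_div]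
      _ ≤ ε := by
          rw [div_le_iff₀ hL0]
          exact hDc.trans hfin

end Pool.Agent.Lib.EJS
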