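import Pool.Agent.Lib.EJS.SIFun
import Pool.Agent.Lib.EJS.Defs
import Pool.Agent.Lib.EJS.Simp

/-!
# Part SI: the estimate for the elements `s_i`, first half
-/

open scoped ComplexOrder
open Filter Topology Pool.Agent.Lib.EqGamma

namespace Pool.Agent.Lib.EJS

universe u

namespace SISumA

variable {A : Type u} [CStarAlgebra A] [PartialOrder A] [StarOrderedRing A]

omit [PartialOrder A] [StarOrderedRing A] in
theorem norm_r {e r : Seq A} {δ : ℝ} (hδ1 : δ ≤ 1) (he : ‖e‖ ≤ 1)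
    (hr : ‖star r * r - e‖ ≤ δ) : ‖r‖ * ‖r‖ ≤ 2 ∧ ‖r‖ ≤ 2 := by
  have h1 : ‖r‖ * ‖r‖ ≤ 2 := by
    rw [← CStarRing.norm_star_mul_self (x := r)]
    have h2 : star r * r = (star r * r - e) + e := by abel
    rw [h2]
    refine (norm_add_le _ _).trans ?_
    linarith
  refine ⟨h1, ?_⟩
  nlinarith [norm_nonneg r]

theorem under_r {q : A} (hq : 0 ≤ q) {r : Seq A} (hr : Seq.const (cfc uf q) * r = r) :
    Seq.const q * (Seq.const (cfc vf q) * r) = r ∧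
      ‖Seq.const (cfc vf q) * r‖ ≤ 2 * ‖r‖ := by
  constructor
  · rw [← mul_assoc, ← map_mul, ← (uf_eq hq).1, hr]
  · refine (norm_mul_le _ _).trans (mul_le_mul_of_nonneg_right ?_ (norm_nonneg _))
    rw [Seq.norm_const]
    exact norm_vf_le hq

theorem est_one {p d q c : A} {e r : Seq A} {δ : ℝ} (hδ0 : 0 ≤ δ) (hδ1 : δ ≤ 1) (hc : ‖c‖ ≤ 1)
    (hq : 0 ≤ q) (hpq : ‖p * q - q‖ ≤ δ) (hpd : ‖p * d - d * p‖ ≤ δ) (he : ‖e‖ ≤ 1)
    (hre : ‖star r * r - e‖ ≤ δ) (hr : Seq.const (cfc uf q) * r = r) :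
    ‖Seq.const p * (Seq.const d * r * Seq.const c) - Seq.const d * r * Seq.const c‖ ≤
      (2 + 4 * ‖d‖) * δ := by
  obtain ⟨h1, h2⟩ := norm_r hδ1 he hre
  obtain ⟨h3, h4⟩ := under_r hq hr
  set r' := Seq.const (cfc vf q) * r with hr'
  have h5 : Seq.const p * (Seq.const d * r * Seq.const c) - Seq.const d * r * Seq.const c =
      Seq.const (p * d - d * p) * r * Seq.const c +
        Seq.const d * (Seq.const (p * q - q) * r') * Seq.const c := by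
    have h6 : Seq.const (p * q - q) * r' = Seq.const p * r - r := by
      rw [map_sub, map_mul, sub_mul, mul_assoc, h3]
    rw [h6, map_sub, map_mul, map_mul]
    noncomm_ring
  rw [h5]
  have hc' : ‖Seq.const c‖ ≤ 1 := by rw [Seq.norm_const]; exact hc
  have h7 : ‖Seq.const (p * d - d * p) * r * Seq.const c‖ ≤ 2 * δ := by
    calc ‖Seq.const (p * d - d * p) * r * Seq.const c‖
        ≤ ‖Seq.const (p * d - d * p) * r‖ * ‖Seq.const c‖ := norm_mul_le _ _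
      _ ≤ (‖Seq.const (p * d - d * p)‖ * ‖r‖) * 1 :=
        mul_le_mul (norm_mul_le _ _) hc' (norm_nonneg _) (by positivity)
      _ ≤ (δ * 2) * 1 := by
        rw [Seq.norm_const]
        exact mul_le_mul_of_nonneg_right (mul_le_mul hpd h2 (norm_nonneg _) hδ0) zero_le_one
      _ = 2 * δ := by ring
  have h8 : ‖Seq.const d * (Seq.const (p * q - q) * r') * Seq.const c‖ ≤ 4 * ‖d‖ * δ := by
    calc ‖Seq.const d * (Seq.const (p * q - q) * r') * Seq.const c‖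
        ≤ ‖Seq.const d * (Seq.const (p * q - q) * r')‖ * ‖Seq.const c‖ := norm_mul_le _ _
      _ ≤ (‖Seq.const d‖ * (‖Seq.const (p * q - q)‖ * ‖r'‖)) * 1 := by
        refine mul_le_mul ?_ hc' (norm_nonneg _) (by positivity)
        exact (norm_mul_le _ _).trans (mul_le_mul_of_nonneg_left (norm_mul_le _ _)
          (norm_nonneg _))
      _ ≤ (‖d‖ * (δ * 4)) * 1 := by
        rw [Seq.norm_const, Seq.norm_const]
        refine mul_le_mul_of_nonneg_right (mul_le_mul_of_nonneg_left ?_ (norm_nonneg _))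
          zero_le_one
        exact mul_le_mul hpq (h4.trans (by linarith)) (norm_nonneg _) hδ0
      _ = 4 * ‖d‖ * δ := by ring
  refine (norm_add_le _ _).trans ?_
  linarith

omit [CStarAlgebra A] [PartialOrder A] [StarOrderedRing A] in
theorem gen_est {B : Type*} [NormedRing B] [NormedAlgebra ℂ B] {k m : ℕ} (P : B)
    (T : Fin m → Fin k → Fin k → B) (t : Fin m → ℝ) (C : Fin m → Fin k → ℝ)
    (h : ∀ μ l j, ‖P * T μ l j - T μ l j‖ ≤ C μ j) :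
    ‖P * (∑ μ, ∑ l, ∑ j, ((√(t μ) : ℝ) : ℂ) • T μ l j) -
        ∑ μ, ∑ l, ∑ j, ((√(t μ) : ℝ) : ℂ) • T μ l j‖ ≤
      ∑ μ, ∑ _l : Fin k, ∑ j, √(t μ) * C μ j := by
  have h1 : P * (∑ μ, ∑ l, ∑ j, ((√(t μ) : ℝ) : ℂ) • T μ l j) -
        ∑ μ, ∑ l, ∑ j, ((√(t μ) : ℝ) : ℂ) • T μ l j =
      ∑ μ, ∑ l, ∑ j, ((√(t μ) : ℝ) : ℂ) • (P * T μ l j - T μ l j) := by
    simp only [Finset.mul_sum, mul_smul_comm, smul_sub, Finset.sum_sub_distrib]
  rw [h1]
  refine (norm_sum_le _ _).trans (Finset.sum_le_sum fun μ _ => ?_)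
  refine (norm_sum_le _ _).trans (Finset.sum_le_sum fun l _ => ?_)
  refine (norm_sum_le _ _).trans (Finset.sum_le_sum fun j _ => ?_)
  rw [norm_smul, Complex.norm_real, Real.norm_of_nonneg (Real.sqrt_nonneg _)]
  exact mul_le_mul_of_nonneg_left (h μ l j) (Real.sqrt_nonneg _)

theorem est_p {I k m : ℕ} {c : Fin k → Fin k → A} (hc : ∀ l j, ‖c l j‖ ≤ 1) {t : Fin m → ℝ}
    (d : Fin m → Fin k → A) {δ : ℝ} (hδ0 : 0 ≤ δ) (hδ1 : δ ≤ 1) {p : A} {q : Fin m → A}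
    (hq : ∀ μ, 0 ≤ q μ) (hpq : ∀ μ, ‖p * q μ - q μ‖ ≤ δ)
    (hpd : ∀ μ j, ‖p * d μ j - d μ j * p‖ ≤ δ) {e : Seq A} (he : ‖e‖ ≤ 1)
    {r : Fin I × Fin m × Fin k → Seq A} (hre : ∀ x, ‖star (r x) * r x - e‖ ≤ δ)
    (hr : ∀ x, Seq.const (cfc uf (q x.2.1)) * r x = r x)
    {s : Fin I → Seq A} (hs : ∀ i, s i = ∑ μ, ∑ l, ∑ j, ((√(t μ) : ℝ) : ℂ) •
        (Seq.const (d μ j) * r (i, μ, l) * Seq.const (c l j))) (i : Fin I) :
    ‖Seq.const p * s i - s i‖ ≤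
      ∑ μ, ∑ _l : Fin k, ∑ j, √(t μ) * ((2 + 4 * ‖d μ j‖) * δ) := by
  rw [hs i]
  exact gen_est (Seq.const p) (fun μ l j => Seq.const (d μ j) * r (i, μ, l) * Seq.const (c l j)) t
    (fun μ j => (2 + 4 * ‖d μ j‖) * δ) (fun μ l j => est_one hδ0 hδ1 (hc l j) (hq μ) (hpq μ)
      (hpd μ j) he (hre _) (hr _))

end SISumA

end Pool.Agent.Lib.EJS
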