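import Pool.Agent.Lib.EJS.SISumA

/-!
# Part SI: the estimate for the elements `s_i`, second half
-/

open scoped ComplexOrder
open Filter Topology Pool.Agent.Lib.EqGamma

namespace Pool.Agent.Lib.EJS

universe u

namespace SISumB

variable {A : Type*} [CStarAlgebra A] [PartialOrder A] [StarOrderedRing A]
  {B : Type*} [CStarAlgebra B] (ι : A →⋆ₐ[ℂ] B)

theorem est_core {q X : A} {σ : ℂ} {e r : B} {ε₁ δ : ℝ} (hδ1 : δ ≤ 1)
    (hε₁ : 0 ≤ ε₁) (hq : 0 ≤ q) (hX : ‖q * X * q - σ • (q * q)‖ ≤ ε₁)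
    (he : ‖e‖ ≤ 1) (hre : ‖star r * r - e‖ ≤ δ) (hr : ι (cfc uf q) * r = r) :
    ‖star r * ι X * r - σ • e‖ ≤ 8 * ε₁ + ‖σ‖ * δ := by
  have hrr : ‖r‖ * ‖r‖ ≤ 2 := by
    rw [← CStarRing.norm_star_mul_self (x := r)]
    have h2 : star r * r = (star r * r - e) + e := by abel
    rw [h2]
    refine (norm_add_le _ _).trans ?_
    linarith
  set r' : B := ι (cfc vf q) * r with hr'
  have h3 : ι q * r' = r := by
    rw [hr', ← mul_assoc, ← map_mul, ← (uf_eq hq).1, hr]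
  have h4 : ‖r'‖ ≤ 2 * ‖r‖ := by
    refine (norm_mul_le _ _).trans (mul_le_mul_of_nonneg_right ?_ (norm_nonneg _))
    exact (shom_norm_le ι _).trans (norm_vf_le hq)
  have hqs : star q = q := (IsSelfAdjoint.of_nonneg hq).star_eq
  have h5 : star r = star r' * ι q := by
    conv_lhs => rw [← h3]
    rw [star_mul, ← map_star, hqs]
  have h6 : star r * ι X * r - σ • e = star r' * ι (q * X * q - σ • (q * q)) * r' +
      σ • (star r * r - e) := by
    have h7 : star r' * ι (q * X * q - σ • (q * q)) * r' =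
        star r * ι X * r - σ • (star r * r) := by
      conv_rhs => rw [h5]
      conv_rhs => rw [← h3]
      rw [map_sub, map_mul, map_mul, map_smul, map_mul]
      simp only [mul_sub, sub_mul, mul_smul_comm, smul_mul_assoc, mul_assoc]
    rw [h7, smul_sub]
    abel
  rw [h6]
  refine (norm_add_le _ _).trans (add_le_add ?_ ?_)
  · calc ‖star r' * ι (q * X * q - σ • (q * q)) * r'‖
        ≤ ‖star r'‖ * ‖ι (q * X * q - σ • (q * q))‖ * ‖r'‖ :=
          (norm_mul_le _ _).trans (mul_le_mul_of_nonneg_right (norm_mul_le _ _) (norm_nonneg _))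
      _ ≤ ‖r'‖ * ε₁ * ‖r'‖ := by
        rw [norm_star]
        exact mul_le_mul_of_nonneg_right (mul_le_mul_of_nonneg_left
          ((shom_norm_le ι _).trans hX) (norm_nonneg _)) (norm_nonneg _)
      _ = ε₁ * (‖r'‖ * ‖r'‖) := by ring
      _ ≤ ε₁ * ((2 * ‖r‖) * (2 * ‖r‖)) := mul_le_mul_of_nonneg_left
          (mul_le_mul h4 h4 (norm_nonneg _) (by positivity)) hε₁
      _ = 4 * ε₁ * (‖r‖ * ‖r‖) := by ring
      _ ≤ 4 * ε₁ * 2 := mul_le_mul_of_nonneg_left hrr (by positivity)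
      _ = 8 * ε₁ := by ring
  · rw [norm_smul]
    exact mul_le_mul_of_nonneg_left hre (norm_nonneg _)

/-- the building block -/
noncomputable def blk {k : ℕ} (d c : Fin k → A) (r : B) : B := ∑ j, ι (d j) * r * ι (c j)

omit [PartialOrder A] [StarOrderedRing A] in
theorem blk_eq {k : ℕ} (d c d' c' : Fin k → A) (r r' : B) (a : A) :
    star (blk ι d c r) * ι a * blk ι d' c' r' =
      ∑ i, ∑ j, ι (star (c i)) * (star r * ι (star (d i) * a * d' j) * r') * ι (c' j) := by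
  unfold blk
  rw [star_sum, Finset.sum_mul, Finset.sum_mul]
  refine Finset.sum_congr rfl fun i _ => ?_
  rw [Finset.mul_sum]
  refine Finset.sum_congr rfl fun j _ => ?_
  rw [star_mul, star_mul, ← map_star, ← map_star, map_mul, map_mul]
  simp only [mul_assoc]

omit [PartialOrder A] [StarOrderedRing A] in
theorem blk_zero {k : ℕ} (d c d' c' : Fin k → A) (r r' : B)
    (h : ∀ a, star r * ι a * r' = 0) (a : A) :
    star (blk ι d c r) * ι a * blk ι d' c' r' = 0 := by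
  rw [blk_eq]
  refine Finset.sum_eq_zero fun i _ => Finset.sum_eq_zero fun j _ => ?_
  rw [h, mul_zero, zero_mul]

theorem est_blk {k : ℕ} {d c : Fin k → A} (hc : ∀ j, ‖c j‖ ≤ 1) {q : A} {σ : Fin k → Fin k → ℂ}
    {e r : B} {ε₁ δ : ℝ} (hδ0 : 0 ≤ δ) (hδ1 : δ ≤ 1) (hε₁ : 0 ≤ ε₁) (hq : 0 ≤ q) {a : A}
    (hX : ∀ i j, ‖q * (star (d i) * a * d j) * q - σ i j • (q * q)‖ ≤ ε₁)
    (hce : ∀ a, Commute (ι a) e) (he : ‖e‖ ≤ 1) (hre : ‖star r * r - e‖ ≤ δ)
    (hr : ι (cfc uf q) * r = r) :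
    ‖star (blk ι d c r) * ι a * blk ι d c r -
      ι (∑ i, ∑ j, σ i j • (star (c i) * c j)) * e‖ ≤ ∑ i, ∑ j, (8 * ε₁ + ‖σ i j‖ * δ) := by
  have h1 : star (blk ι d c r) * ι a * blk ι d c r -
      ι (∑ i, ∑ j, σ i j • (star (c i) * c j)) * e = ∑ i, ∑ j, ι (star (c i)) *
        (star r * ι (star (d i) * a * d j) * r - σ i j • e) * ι (c j) := by
    rw [blk_eq, map_sum, Finset.sum_mul, ← Finset.sum_sub_distrib]
    refine Finset.sum_congr rfl fun i _ => ?_
    rw [map_sum, Finset.sum_mul, ← Finset.sum_sub_distrib]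
    refine Finset.sum_congr rfl fun j _ => ?_
    have h2 : ι (star (c i)) * e * ι (c j) = ι (star (c i) * c j) * e := by
      rw [mul_assoc, ← (hce (c j)).eq, ← mul_assoc, map_mul]
    rw [mul_sub, sub_mul, mul_smul_comm, smul_mul_assoc, h2, map_smul, smul_mul_assoc]
  rw [h1]
  refine (norm_sum_le _ _).trans (Finset.sum_le_sum fun i _ => ?_)
  refine (norm_sum_le _ _).trans (Finset.sum_le_sum fun j _ => ?_)
  have h3 := est_core ι hδ1 hε₁ hq (hX i j) he hre hr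
  have hci : ‖ι (star (c i))‖ ≤ 1 :=
    (shom_norm_le ι _).trans (by rw [norm_star]; exact hc i)
  have hcj : ‖ι (c j)‖ ≤ 1 := (shom_norm_le ι _).trans (hc j)
  set Y := star r * ι (star (d i) * a * d j) * r - σ i j • e
  calc ‖ι (star (c i)) * Y * ι (c j)‖ ≤ ‖ι (star (c i))‖ * ‖Y‖ * ‖ι (c j)‖ :=
        (norm_mul_le _ _).trans (mul_le_mul_of_nonneg_right (norm_mul_le _ _) (norm_nonneg _))
    _ ≤ (1 * ‖Y‖) * 1 := mul_le_mul (mul_le_mul_of_nonneg_right hci (norm_nonneg _)) hcj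
        (norm_nonneg _) (by positivity)
    _ = ‖Y‖ := by ring
    _ ≤ _ := h3

end SISumB

end Pool.Agent.Lib.EJS
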