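import Pool.Agent.Lib.EJS.SIFun

/-!
# Part SI: the relation `u(p) q = q`

PROOFS.
`eq_mul_vf`: `q' = u(q) q' = q v(q) q'` (`uf_eq`); adjoint: `q' = q' v(q) q`.
`hered_ge`: `q' b q' = q' v(q) (q b q) v(q) q' ≥ lam • q' v(q) q^2 v(q) q' = lam • q' q'`
(`conjugate_le_conjugate`/`star_left_conjugate_le_conjugate`). `hered_le`: the same (or `-b`, `-lam`).
`under_trans`: `u(p) q' = u(p) q v(q) q' = q v(q) q' = q'`.
`under_of_le`: `w(t) = 1 - u(t) = max 0 (1-2t)` for `t ≥ 0`.  Let `a = 1 - 2P`, `b = 1 - 2p`, commuting self-adjoint,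
`a ≤ b`, `b₊ = 1 - u(p)`, `a₊ = 1 - u(P)` (positive parts, functional calculus), `b₊ q = 0`.
`a₊ * a * a₊ = a₊^3` and `a₊ a a₊ ≤ a₊ b a₊ ≤ a₊ b₊ a₊ = a₊^2 b₊` (`a₊` commutes with `b₊`), so
`q* a₊^3 q ≤ q* a₊^2 b₊ q = 0`, hence `q* a₊^3 q = 0` (it is positive), i.e. `√(a₊^3) q = 0`, `a₊^3 q = 0`, `a₊^4 q = 0`,
`(a₊^2 q)* (a₊^2 q) = 0`, `a₊^2 q = 0`, `(a₊ q)* (a₊ q) = 0`, `a₊ q = 0`.
`under_bump`: with `f = bumpf 1 η`, `X' = cfc f X` and `U = cfc uf X' = cfc (uf ∘ f) X` (`cfc_comp'`) one has `U q = q = q U`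
and `U X U ≥ (1-η) U U` since `uf (f t) ≠ 0` only for `t > 1-η`; so
`q X q = q U X U q ≥ (1-η) q U U q = (1-η) q q`.
-/

open scoped ComplexOrder

namespace Pool.Agent.Lib.EJS

variable {E : Type*} [CStarAlgebra E] [PartialOrder E] [StarOrderedRing E]

theorem eq_mul_vf {q q' : E} (hq : 0 ≤ q) (h : cfc uf q * q' = q') :
    q * (cfc vf q * q') = q' := by
  rw [← mul_assoc, ← (uf_eq hq).1, h]

private theorem cfc_star_eq (f : ℝ → ℝ) (a : E) : star (cfc f a) = cfc f a :=
  (cfc_predicate (R := ℝ) f a).star_eq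

theorem hered_ge {q q' b : E} {lam : ℝ} (hq : 0 ≤ q) (h : cfc uf q * q' = q')
    (hs : IsSelfAdjoint q') (hb : lam • (q * q) ≤ q * b * q) :
    lam • (q' * q') ≤ q' * b * q' := by
  have h1 : q * (cfc vf q * q') = q' := eq_mul_vf hq h
  have h2 : star (cfc vf q * q') * q = q' := by
    have := congrArg star h1
    rwa [star_mul q, hq.isSelfAdjoint.star_eq, hs.star_eq] at this
  have h3 := star_left_conjugate_le_conjugate hb (cfc vf q * q')
  have h4 : star (cfc vf q * q') * (lam • (q * q)) * (cfc vf q * q') = lam • (q' * q') := by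
    rw [mul_smul_comm, smul_mul_assoc]
    congr 1
    calc star (cfc vf q * q') * (q * q) * (cfc vf q * q')
        = (star (cfc vf q * q') * q) * (q * (cfc vf q * q')) := by noncomm_ring
      _ = q' * q' := by rw [h1, h2]
  have h5 : star (cfc vf q * q') * (q * b * q) * (cfc vf q * q') = q' * b * q' := by
    calc star (cfc vf q * q') * (q * b * q) * (cfc vf q * q')
        = (star (cfc vf q * q') * q) * b * (q * (cfc vf q * q')) := by noncomm_ring
      _ = q' * b * q' := by rw [h1, h2]
  rwa [h4, h5] at h3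

theorem hered_le {q q' b : E} {lam : ℝ} (hq : 0 ≤ q) (h : cfc uf q * q' = q')
    (hs : IsSelfAdjoint q') (hb : q * b * q ≤ lam • (q * q)) :
    q' * b * q' ≤ lam • (q' * q') := by
  have h1 : (-lam) • (q * q) ≤ q * (-b) * q := by
    rw [neg_smul, mul_neg, neg_mul]
    exact neg_le_neg hb
  have h2 := hered_ge hq h hs h1
  rw [neg_smul, mul_neg, neg_mul] at h2
  exact neg_le_neg_iff.1 h2

theorem under_trans {p q q' : E} (hq : 0 ≤ q) (h1 : cfc uf p * q = q) (h2 : cfc uf q * q' = q') :
    cfc uf p * q' = q' := by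
  have h3 : q * (cfc vf q * q') = q' := eq_mul_vf hq h2
  calc cfc uf p * q' = cfc uf p * (q * (cfc vf q * q')) := by rw [h3]
    _ = (cfc uf p * q) * (cfc vf q * q') := by noncomm_ring
    _ = q' := by rw [h1, h3]

theorem under_of_le {p P q : E} (hc : Commute p P) (hp : 0 ≤ p) (hpP : p ≤ P)
    (h : cfc uf p * q = q) : cfc uf P * q = q := by
  have hPsa : IsSelfAdjoint P := (hp.trans hpP).isSelfAdjoint
  have hpsa : IsSelfAdjoint p := hp.isSelfAdjoint
  have hucont := continuous_uf
  set k : ℝ → ℝ := fun t => 1 - uf t with hk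
  have hkc : Continuous k := continuous_const.sub hucont
  have hk0 : ∀ t, 0 ≤ k t := fun t => by
    change 0 ≤ 1 - min 1 (2 * t)
    linarith [min_le_left 1 (2 * t)]
  have hkt : ∀ t, t * (2 * k t) = k t - k t * k t := by
    intro t
    change t * (2 * (1 - min 1 (2 * t))) = (1 - min 1 (2 * t)) - (1 - min 1 (2 * t)) * (1 - min 1 (2 * t))
    rcases le_total 1 (2 * t) with h1 | h1
    · rw [min_eq_left h1]; ring
    · rw [min_eq_right h1]; ring
  set H := cfc k P with hH
  have hHsa : star H = H := cfc_star_eq k P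
  have hH0 : 0 ≤ H := cfc_nonneg fun t _ => hk0 t
  have hHu : H = 1 - cfc uf P := by
    rw [hH, hk, cfc_sub (fun _ => (1 : ℝ)) uf P continuousOn_const hucont.continuousOn,
      cfc_const_one ℝ P]
  have hPH : (2 : ℝ) • (P * H) = H - H * H := by
    have e1 : cfc (fun t => t * (2 * k t)) P = P * ((2 : ℝ) • H) := by
      rw [cfc_mul (fun t : ℝ => t) (fun t => 2 * k t) P continuousOn_id
        (continuousOn_const.mul hkc.continuousOn), cfc_id' ℝ P,
        cfc_const_mul (2 : ℝ) k P hkc.continuousOn]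
    have e2 : cfc (fun t => k t - k t * k t) P = H - H * H := by
      rw [cfc_sub k (fun t => k t * k t) P hkc.continuousOn
        (hkc.continuousOn.mul hkc.continuousOn), cfc_mul k k P hkc.continuousOn hkc.continuousOn]
    rw [← e2, ← cfc_congr (fun t _ => hkt t), e1, mul_smul_comm]
  have hHp : Commute H p := hc.symm.cfc_real k
  have hHup : Commute H (cfc uf p) := (hHp.symm.cfc_real uf).symm
  -- u(p) ≤ 2 p
  have hup : cfc uf p ≤ (2 : ℝ) • p := by
    have e1 : cfc (fun t : ℝ => 2 * t) p = (2 : ℝ) • p := by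
      rw [cfc_const_mul (2 : ℝ) (fun t : ℝ => t) p continuousOn_id, cfc_id' ℝ p]
    rw [← e1]
    refine cfc_mono (fun t _ => ?_) hucont.continuousOn (by fun_prop)
    exact min_le_right _ _
  set w := H * q with hw
  have hsw : star w = star q * H := by rw [hw, star_mul, hHsa]
  have g1 : star w * cfc uf p * w ≤ star w * ((2 : ℝ) • p) * w :=
    star_left_conjugate_le_conjugate hup w
  have g2 : star w * ((2 : ℝ) • p) * w ≤ star w * ((2 : ℝ) • P) * w :=
    star_left_conjugate_le_conjugate (smul_le_smul_of_nonneg_left hpP (by norm_num)) w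
  have g3 : star w * cfc uf p * w = star q * (H * H) * q := by
    rw [hsw, hw]
    calc star q * H * cfc uf p * (H * q) = star q * (H * (cfc uf p * H)) * q := by noncomm_ring
      _ = star q * (H * (H * cfc uf p)) * q := by rw [hHup.eq]
      _ = star q * (H * H) * (cfc uf p * q) := by noncomm_ring
      _ = _ := by rw [h]
  have g4 : star w * ((2 : ℝ) • P) * w = star q * (H * H) * q - star q * (H * H * H) * q := by
    rw [hsw, hw]
    calc star q * H * ((2 : ℝ) • P) * (H * q) = star q * H * ((2 : ℝ) • (P * H)) * q := by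
          simp only [mul_smul_comm, smul_mul_assoc]
          congr 1
          noncomm_ring
      _ = _ := by rw [hPH]; noncomm_ring
  have g5 : star q * (H * H * H) * q ≤ 0 := by
    have := g1.trans g2
    rw [g3, g4] at this
    exact sub_nonneg.1 (by
      have h9 := sub_nonneg.2 this
      have h10 : star q * (H * H) * q - star q * (H * H * H) * q - star q * (H * H) * q =
        0 - star q * (H * H * H) * q := by abel
      rwa [h10] at h9)
  obtain ⟨s, hs⟩ := CStarAlgebra.nonneg_iff_eq_star_mul_self.1 hH0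
  have g6 : star (s * w) * (s * w) = star q * (H * H * H) * q := by
    rw [star_mul, hsw]
    calc star q * H * star s * (s * (w)) = star q * H * (star s * s) * w := by noncomm_ring
      _ = star q * H * H * w := by rw [← hs]
      _ = _ := by rw [hw]; noncomm_ring
  have g7 : s * w = 0 := by
    have h8 : star (s * w) * (s * w) = 0 := by
      refine le_antisymm ?_ (star_mul_self_nonneg _)
      rw [g6]; exact g5
    exact CStarRing.star_mul_self_eq_zero_iff _ |>.1 h8
  have g8 : H * w = 0 := by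
    calc H * w = star s * s * w := by rw [← hs]
      _ = star s * (s * w) := by noncomm_ring
      _ = 0 := by rw [g7, mul_zero]
  have g9 : w = 0 := by
    have h8 : star w * w = 0 := by
      rw [hsw, mul_assoc, g8, mul_zero]
    exact CStarRing.star_mul_self_eq_zero_iff _ |>.1 h8
  rw [hw, hHu, sub_mul, one_mul, sub_eq_zero] at g9
  exact g9.symm

theorem under_bump {X q : E} (hX : 0 ≤ X) (hX1 : ‖X‖ ≤ 1) {η : ℝ} (hη : 0 < η)
    (hs : IsSelfAdjoint q) (h : cfc uf (cfc (bumpf 1 η) X) * q = q) :
    (1 - η) • (q * q) ≤ q * X * q := by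
  have hXsa : IsSelfAdjoint X := hX.isSelfAdjoint
  have hf := continuous_bumpf 1 η
  have hu := continuous_uf
  set g : ℝ → ℝ := fun t => uf (bumpf 1 η t) with hg
  have hgc : Continuous g := hu.comp hf
  have hU : cfc uf (cfc (bumpf 1 η) X) = cfc g X := by
    rw [hg, cfc_comp' uf (bumpf 1 η) X hu.continuousOn hf.continuousOn]
  rw [hU] at h
  set U := cfc g X with hUd
  have hUs : star U = U := cfc_star_eq g X
  have hqU : q * U = q := by
    have := congrArg star h
    rwa [star_mul, hUs, hs.star_eq] at this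
  have h1 : (1 - η) • (U * U) ≤ U * X * U := by
    have e1 : cfc (fun t => (1 - η) * (g t * g t)) X = (1 - η) • (U * U) := by
      rw [cfc_const_mul (1 - η) (fun t => g t * g t) X (hgc.continuousOn.mul hgc.continuousOn),
        cfc_mul g g X hgc.continuousOn hgc.continuousOn]
    have e2 : cfc (fun t => g t * t * g t) X = U * X * U := by
      rw [cfc_mul (fun t => g t * t) g X (hgc.continuousOn.mul continuousOn_id) hgc.continuousOn,
        cfc_mul g (fun t : ℝ => t) X hgc.continuousOn continuousOn_id, cfc_id' ℝ X]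
    rw [← e1, ← e2]
    refine cfc_mono (fun t _ => ?_) (by fun_prop) (by fun_prop)
    by_cases ht : t ≤ 1 - η
    · have h3 : g t = 0 := by
        change min 1 (2 * (max 0 (t - (1 - η)) / η)) = 0
        rw [max_eq_left (by linarith), zero_div, mul_zero, min_eq_right zero_le_one]
      rw [h3]; simp
    · have h4 : 0 ≤ g t * g t := mul_self_nonneg _
      push Not at ht
      nlinarith
  have h2 := star_left_conjugate_le_conjugate h1 q
  rw [hs.star_eq] at h2
  have e3 : q * ((1 - η) • (U * U)) * q = (1 - η) • (q * q) := by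
    rw [mul_smul_comm, smul_mul_assoc]
    congr 1
    calc q * (U * U) * q = (q * U) * (U * q) := by noncomm_ring
      _ = q * q := by rw [hqU, h]
  have e4 : q * (U * X * U) * q = q * X * q := by
    calc q * (U * X * U) * q = (q * U) * X * (U * q) := by noncomm_ring
      _ = q * X * q := by rw [hqU, h]
  rwa [e3, e4] at h2

end Pool.Agent.Lib.EJS
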