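import Pool.Agent.Lib.EJS.TSDefs

/-!
# TS6: completely positive maps on matrices

`E k l : Mat d` denotes the matrix unit.

PROOFS.  `cp_fintype`: reindex `X ≃ Fin (card X)` (`Fintype.equivFin`) in the definition of `CP`, `star c * c ≥ 0`.
`psi_pos`: `N = R^* R` (`Matrix.PosSemidef`, for instance `Matrix.posSemidef_iff_eq_conjTranspose_mul_self`), so
`N (x,k) (y,l) = ∑_r conj (R r (x,k)) * R r (y,l)` and `blk N x y = ∑_r star (a_rx) * a_ry`, where `a_rx : Mat d` has the
row `0` equal to `R r (x, ·)` and all other rows `0` (if `d = 0`, `Mat d` is a subsingleton, everything is `0`).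
Apply `cp_fintype` for every `r`.
`psi_one_le`: `ψ 1` is `≥ 0` and `‖ψ 1‖ ≤ ‖1‖ ≤ 1`.
`psi_rank_one`: with `F k = ∑_x conj (ζ x k) • f x` the left side is `∑_kl star (F k) * ψ (E k l) * F l`
(`star (f x) * ψ (∑_kl ζ x k conj (ζ y l) E k l) * f y`).  For `k ≠ l` complete positivity with `a = (E 0 k, E 0 l)`,
`b = (F k, -F l)` (`star (E 0 k) * E 0 l = E k l`) gives
`F_k* ψ(E_kl) F_l + F_l* ψ(E_lk) F_k ≤ F_k* ψ(E_kk) F_k + F_l* ψ(E_ll) F_l`; sum over all pairs `(k, l)` (for
`k = l` equality) and divide by `2`: `∑_kl F_k* ψ(E_kl) F_l ≤ d ∑_k F_k* ψ(E_kk) F_k`, and `0 ≤ ψ(E_kk) ≤ 1`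
(`E k k` is a projection, norm at most `1`).
-/

open scoped ComplexOrder

namespace Pool.Agent.Lib.EJS.TS

variable {A : Type*} [CStarAlgebra A] [PartialOrder A] [StarOrderedRing A] {d : ℕ}
  {ψ : Mat d →ₗ[ℂ] A}

theorem cp_fintype (hψ : CP ψ) {X : Type*} [Fintype X] (a : X → Mat d) (b : X → A) :
    0 ≤ ∑ x, ∑ y, star (b x) * ψ (star (a x) * a y) * b y := by
  let e := Fintype.equivFin X
  obtain ⟨c, hc⟩ := hψ (Fintype.card X) (fun i => a (e.symm i)) (fun i => b (e.symm i))
  have h1 : ∑ x, ∑ y, star (b x) * ψ (star (a x) * a y) * b y =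
      ∑ i, ∑ j, star (b (e.symm i)) * ψ (star (a (e.symm i)) * a (e.symm j)) * b (e.symm j) := by
    rw [← Equiv.sum_comp e.symm]
    refine Finset.sum_congr rfl fun i _ => ?_
    rw [← Equiv.sum_comp e.symm]
  rw [h1, hc]
  exact star_mul_self_nonneg c

omit [CStarAlgebra A] [PartialOrder A] [StarOrderedRing A] in
/-- a matrix with nonnegative quadratic form is of the form `R^* R` -/
theorem psiAux_fact {n : Type*} [Fintype n] [DecidableEq n] {N : Matrix n n ℂ}
    (hN : N.IsHermitian) (hN' : ∀ v, 0 ≤ qf N v) :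
    ∃ R : Matrix n n ℂ, ∀ i j, N i j = ∑ r, star (R r i) * R r j := by
  have h1 : N.PosSemidef := by
    refine Matrix.PosSemidef.of_dotProduct_mulVec_nonneg hN fun x => ?_
    have h2 : (star x ⬝ᵥ N.mulVec x) = ∑ i, ∑ j, star (x i) * N i j * x j := by
      simp only [dotProduct, Matrix.mulVec, Finset.mul_sum, Pi.star_apply, mul_assoc]
    have h3 := hN.im_star_dotProduct_mulVec_self x
    have h4 := hN' x
    unfold qf at h4
    rw [← h2] at h4
    rw [Complex.nonneg_iff]
    exact ⟨h4, h3.symm⟩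
  open scoped MatrixOrder in
  obtain ⟨R, hR⟩ := CStarAlgebra.nonneg_iff_eq_star_mul_self.mp h1.nonneg
  refine ⟨R, fun i j => ?_⟩
  rw [hR, Matrix.mul_apply]
  rfl

omit [CStarAlgebra A] [PartialOrder A] [StarOrderedRing A] in
theorem psiAux_entry {ι : Type*} (s : Finset ι) (g : ι → Mat d) (p q : Fin d) :
    (∑ i ∈ s, g i) p q = ∑ i ∈ s, g i p q := by
  classical
  induction s using Finset.induction_on with
  | empty => rfl
  | insert a s ha ih =>
    rw [Finset.sum_insert ha, Finset.sum_insert ha, CStarMatrix.add_apply, ih]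

theorem psi_pos (hψ : CP ψ) {X : Type*} [Fintype X] {N : Matrix (X × Fin d) (X × Fin d) ℂ}
    (hN : N.IsHermitian) (hN' : ∀ v, 0 ≤ qf N v) (f : X → A) :
    0 ≤ ∑ x, ∑ y, star (f x) * ψ (blk N x y) * f y := by
  classical
  rcases isEmpty_or_nonempty (Fin d) with hd | ⟨⟨p0⟩⟩
  · have h0 : ∀ m : Mat d, m = 0 := fun m => CStarMatrix.ext fun i => hd.elim i
    have h1 : ∑ x, ∑ y, star (f x) * ψ (blk N x y) * f y = 0 := by
      refine Finset.sum_eq_zero fun x _ => Finset.sum_eq_zero fun y _ => ?_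
      rw [h0 (blk N x y), map_zero, mul_zero, zero_mul]
    rw [h1]
  obtain ⟨R, hR⟩ := psiAux_fact hN hN'
  let a : (X × Fin d) → X → Mat d := fun r x =>
    CStarMatrix.ofMatrix fun p q => if p = p0 then R r (x, q) else 0
  have hblk : ∀ x y, blk N x y = ∑ r, star (a r x) * a r y := by
    intro x y
    refine CStarMatrix.ext fun k l => ?_
    rw [psiAux_entry]
    change N (x, k) (y, l) = _
    rw [hR]
    refine Finset.sum_congr rfl fun r _ => ?_
    rw [CStarMatrix.mul_apply, Finset.sum_eq_single p0]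
    · rw [CStarMatrix.star_apply]
      change _ = star (if p0 = p0 then R r (x, k) else 0) * (if p0 = p0 then R r (y, l) else 0)
      rw [if_pos rfl, if_pos rfl]
    · intro p _ hp
      change _ * (if p = p0 then R r (y, l) else 0) = 0
      rw [if_neg hp, mul_zero]
    · intro h
      exact absurd (Finset.mem_univ _) h
  have h2 : ∑ x, ∑ y, star (f x) * ψ (blk N x y) * f y =
      ∑ r, ∑ x, ∑ y, star (f x) * ψ (star (a r x) * a r y) * f y := by
    calc ∑ x, ∑ y, star (f x) * ψ (blk N x y) * f y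
        = ∑ x, ∑ r, ∑ y, star (f x) * ψ (star (a r x) * a r y) * f y := by
          refine Finset.sum_congr rfl fun x _ => ?_
          rw [Finset.sum_comm]
          refine Finset.sum_congr rfl fun y _ => ?_
          rw [hblk, map_sum, Finset.mul_sum, Finset.sum_mul]
      _ = _ := Finset.sum_comm
  rw [h2]
  exact Finset.sum_nonneg fun r _ => cp_fintype hψ (a r) f

theorem psiAux_le (hψ : CP ψ) (h1 : ∀ m, ‖ψ m‖ ≤ ‖m‖) {m : Mat d} (hm : star m * m = m)
    (hn : ‖m‖ ≤ 1) : ψ m ≤ 1 := by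
  have h2 := cp_fintype hψ (X := Unit) (fun _ => m) (fun _ => (1 : A))
  simp only [Finset.univ_unique, Finset.sum_singleton, star_one, one_mul, mul_one, hm] at h2
  exact (CStarAlgebra.norm_le_one_iff_of_nonneg _ h2).1 ((h1 m).trans hn)

omit [CStarAlgebra A] [PartialOrder A] [StarOrderedRing A] in
theorem psiAux_norm {m : Mat d} (hm : star m * m = m) : ‖m‖ ≤ 1 := by
  have h1 : ‖m‖ = ‖m‖ * ‖m‖ := by
    conv_lhs => rw [← hm]
    exact CStarRing.norm_star_mul_self
  by_contra h
  push Not at h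
  nlinarith

theorem psi_one_le (hψ : CP ψ) (h1 : ∀ m, ‖ψ m‖ ≤ ‖m‖) : ψ 1 ≤ 1 := by
  have h2 : star (1 : Mat d) * 1 = 1 := by rw [star_one, mul_one]
  exact psiAux_le hψ h1 h2 (psiAux_norm h2)

omit [CStarAlgebra A] [PartialOrder A] [StarOrderedRing A] in
/-- the matrix units -/
def psiAux_u (k l : Fin d) : Mat d := CStarMatrix.ofMatrix fun p q => if p = k ∧ q = l then 1 else 0

theorem psiAux_star (k l : Fin d) : star (psiAux_u k l) = psiAux_u l k := by
  refine CStarMatrix.ext fun p q => ?_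
  rw [CStarMatrix.star_apply]
  change star (if q = k ∧ p = l then (1:ℂ) else 0) = if p = l ∧ q = k then 1 else 0
  by_cases h : q = k ∧ p = l
  · rw [if_pos h, if_pos h.symm, star_one]
  · rw [if_neg h, if_neg (fun h' => h h'.symm), star_zero]

theorem psiAux_mul (j k l : Fin d) : psiAux_u j k * psiAux_u k l = psiAux_u j l := by
  refine CStarMatrix.ext fun p q => ?_
  rw [CStarMatrix.mul_apply, Finset.sum_eq_single k]
  · change (if p = j ∧ k = k then (1:ℂ) else 0) * (if k = k ∧ q = l then 1 else 0) =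
      if p = j ∧ q = l then 1 else 0
    by_cases h1 : p = j <;> by_cases h2 : q = l <;> simp [h1, h2]
  · intro r _ hr
    change (if p = j ∧ r = k then (1:ℂ) else 0) * _ = 0
    rw [if_neg (fun h => hr h.2), zero_mul]
  · intro h
    exact absurd (Finset.mem_univ _) h

theorem psi_rank_one (hψ : CP ψ) (h1 : ∀ m, ‖ψ m‖ ≤ ‖m‖) {X : Type*} [Fintype X]
    (ζ : X → Fin d → ℂ) (f : X → A) :
    ∑ x, ∑ y, star (f x) * ψ (CStarMatrix.ofMatrix fun k l => ζ x k * star (ζ y l)) * f y ≤
      (d : ℝ) • ∑ k, star (∑ x, star (ζ x k) • f x) * (∑ x, star (ζ x k) • f x) := by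
  set F : Fin d → A := fun k => ∑ x, star (ζ x k) • f x with hF
  set G : Fin d → Fin d → A := fun k l => star (F k) * ψ (psiAux_u k l) * F l with hG
  -- the left side
  have hdec : ∀ x y, (CStarMatrix.ofMatrix fun k l => ζ x k * star (ζ y l) : Mat d) =
      ∑ k, ∑ l, (ζ x k * star (ζ y l)) • psiAux_u k l := by
    intro x y
    refine CStarMatrix.ext fun p q => ?_
    have h2 : (∑ k, ∑ l, (ζ x k * star (ζ y l)) • psiAux_u k l : Mat d) p q =
        ∑ k, ∑ l, (ζ x k * star (ζ y l)) * (if p = k ∧ q = l then 1 else 0) := by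
      rw [psiAux_entry]
      refine Finset.sum_congr rfl fun k _ => ?_
      rw [psiAux_entry]
      rfl
    rw [h2, Finset.sum_eq_single p, Finset.sum_eq_single q]
    · rw [if_pos ⟨rfl, rfl⟩, mul_one]
      rfl
    · intro l _ hl
      rw [if_neg (fun h => hl h.2.symm), mul_zero]
    · intro h
      exact absurd (Finset.mem_univ _) h
    · intro k _ hk
      refine Finset.sum_eq_zero fun l _ => ?_
      rw [if_neg (fun h => hk h.1.symm), mul_zero]
    · intro h
      exact absurd (Finset.mem_univ _) h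
  have hL : ∑ x, ∑ y, star (f x) * ψ (CStarMatrix.ofMatrix fun k l => ζ x k * star (ζ y l)) * f y =
      ∑ k, ∑ l, G k l := by
    have e1 : ∀ x y, star (f x) * ψ (CStarMatrix.ofMatrix fun k l => ζ x k * star (ζ y l)) * f y =
        ∑ k, ∑ l, star (star (ζ x k) • f x) * ψ (psiAux_u k l) * (star (ζ y l) • f y) := by
      intro x y
      rw [hdec, map_sum, Finset.mul_sum, Finset.sum_mul]
      refine Finset.sum_congr rfl fun k _ => ?_
      rw [map_sum, Finset.mul_sum, Finset.sum_mul]
      refine Finset.sum_congr rfl fun l _ => ?_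
      rw [map_smul, star_smul, star_star, mul_smul_comm, smul_mul_assoc, smul_mul_assoc,
        smul_mul_assoc, mul_smul_comm, smul_smul]
    have e2 : ∀ k l, G k l = ∑ x, ∑ y,
        star (star (ζ x k) • f x) * ψ (psiAux_u k l) * (star (ζ y l) • f y) := by
      intro k l
      simp only [hG, hF]
      rw [star_sum, Finset.sum_mul, Finset.sum_mul]
      refine Finset.sum_congr rfl fun x _ => ?_
      rw [Finset.mul_sum]
    simp only [e1, e2]
    calc ∑ x, ∑ y, ∑ k, ∑ l, star (star (ζ x k) • f x) * ψ (psiAux_u k l) * (star (ζ y l) • f y)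
        = ∑ x, ∑ k, ∑ l, ∑ y,
          star (star (ζ x k) • f x) * ψ (psiAux_u k l) * (star (ζ y l) • f y) := by
          refine Finset.sum_congr rfl fun x _ => ?_
          rw [Finset.sum_comm]
          refine Finset.sum_congr rfl fun k _ => ?_
          rw [Finset.sum_comm]
      _ = _ := by
          rw [Finset.sum_comm]
          refine Finset.sum_congr rfl fun k _ => ?_
          rw [Finset.sum_comm]
  -- complete positivity
  have hcp : ∀ k l, G k l + G l k ≤ G k k + G l l := by
    intro k l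
    have h2 := cp_fintype hψ (X := Fin 2) ![psiAux_u k k, psiAux_u k l] ![F k, -F l]
    simp only [Fin.sum_univ_two, Matrix.cons_val_zero, Matrix.cons_val_one, psiAux_star,
      psiAux_mul, star_neg, neg_mul, mul_neg, neg_neg] at h2
    have h3 : G k k + G l l - (G k l + G l k) = G k k + -G k l + (-G l k + G l l) := by abel
    rw [← sub_nonneg, h3]
    exact h2
  have hdiag : ∀ k, G k k ≤ star (F k) * F k := by
    intro k
    have h2 : star (psiAux_u k k) * psiAux_u k k = psiAux_u k k := by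
      rw [psiAux_star, psiAux_mul]
    have h3 := psiAux_le hψ h1 h2 (psiAux_norm h2)
    have h4 := star_left_conjugate_le_conjugate h3 (F k)
    rwa [mul_one] at h4
  have hsum : ∑ k, ∑ l, (G k l + G l k) ≤ ∑ k, ∑ l, (G k k + G l l) :=
    Finset.sum_le_sum fun k _ => Finset.sum_le_sum fun l _ => hcp k l
  have hs1 : ∑ k, ∑ l, (G k l + G l k) = (2 : ℝ) • ∑ k, ∑ l, G k l := by
    simp only [Finset.sum_add_distrib]
    rw [two_smul, Finset.sum_comm (f := fun k l => G l k)]
  have hs2 : ∑ k, ∑ l, (G k k + G l l) = (2 : ℝ) • ((d : ℝ) • ∑ k, G k k) := by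
    simp only [Finset.sum_add_distrib, Finset.sum_const, Finset.card_univ, Fintype.card_fin]
    rw [two_smul, ← Finset.smul_sum, Nat.cast_smul_eq_nsmul]
  rw [hs1, hs2] at hsum
  have h5 : ∑ k, ∑ l, G k l ≤ (d : ℝ) • ∑ k, G k k := by
    have h6 := smul_le_smul_of_nonneg_left hsum (by norm_num : (0:ℝ) ≤ 1 / 2)
    rw [smul_smul, smul_smul] at h6
    norm_num at h6
    exact h6
  rw [hL]
  refine h5.trans ?_
  exact smul_le_smul_of_nonneg_left (Finset.sum_le_sum fun k _ => hdiag k) (Nat.cast_nonneg d)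

end Pool.Agent.Lib.EJS.TS
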