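import Pool.Agent.Lib.EJS.TSDefs

/-!
# TS5: few very negative eigenvalues

PROOF.  Spectral theorem for the hermitian matrix `B` (`Matrix.IsHermitian.spectral_theorem`, eigenvalues
`λ_i`, orthonormal eigenvectors `u_i`).  `trace ((L - B)^(2m)) = ∑ (L - λ_i)^(2m)`, all terms are `≥ 0`, and those
with `λ_i < -κ` are `≥ (L + κ)^(2m)`; so the number `r` of these `i` satisfies `r (L + κ)^(2m) ≤ trace`.  Take
`ζ` = the vectors `√|λ_i| u_i` for these `i` (enumerated by `Fin r`).  For a vector `v` with coordinates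
`v_i = ⟨u_i, v⟩`: `qf B v = ∑ λ_i |v_i|²`, `∑ |v|² = ∑ |v_i|²`, `∑_l |⟨ζ_l, v⟩|² = ∑_{λ_i < -κ} |λ_i| |v_i|²`, so the sum
is `≥ 0` term by term.
-/

open scoped ComplexOrder

namespace Pool.Agent.Lib.EJS.TS

namespace Spec

open Matrix

theorem qf_eq {N : Type*} [Fintype N] (B : Matrix N N ℂ) (v : N → ℂ) :
    qf B v = (star v ⬝ᵥ (B *ᵥ v)).re := by
  unfold qf
  simp only [dotProduct, mulVec, Pi.star_apply, Finset.mul_sum, mul_assoc]

theorem sum_norm_eq {N : Type*} [Fintype N] (v : N → ℂ) :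
    ∑ i, ‖v i‖ ^ 2 = (star v ⬝ᵥ v).re := by
  simp only [dotProduct, Pi.star_apply, Complex.re_sum]
  refine Finset.sum_congr rfl fun i _ => ?_
  rw [Complex.star_def, ← Complex.normSq_eq_conj_mul_self, Complex.ofReal_re,
    Complex.normSq_eq_norm_sq]

theorem qf_unitary {N : Type*} [Fintype N] [DecidableEq N] {B U : Matrix N N ℂ} {lam : N → ℝ}
    (hB : B = U * diagonal (fun i => (lam i : ℂ)) * star U) (v : N → ℂ) :
    qf B v = ∑ i, lam i * ‖(star U *ᵥ v) i‖ ^ 2 := by
  rw [qf_eq, hB]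
  have h1 : star v ⬝ᵥ ((U * diagonal (fun i => (lam i : ℂ)) * star U) *ᵥ v) =
      star (star U *ᵥ v) ⬝ᵥ (diagonal (fun i => (lam i : ℂ)) *ᵥ (star U *ᵥ v)) := by
    rw [← mulVec_mulVec, ← mulVec_mulVec, star_mulVec, dotProduct_mulVec]
    simp [star_eq_conjTranspose]
  rw [h1]
  simp only [dotProduct, mulVec_diagonal, Pi.star_apply, Complex.re_sum]
  refine Finset.sum_congr rfl fun i _ => ?_
  have h2 : star ((star U *ᵥ v) i) * ((lam i : ℂ) * (star U *ᵥ v) i) =
      ((lam i * Complex.normSq ((star U *ᵥ v) i) : ℝ) : ℂ) := by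
    rw [Complex.ofReal_mul, Complex.normSq_eq_conj_mul_self, Complex.star_def]
    ring
  rw [h2, Complex.ofReal_re, Complex.normSq_eq_norm_sq]

theorem norm_unitary {N : Type*} [Fintype N] [DecidableEq N] {U : Matrix N N ℂ}
    (hU : U * star U = 1) (v : N → ℂ) :
    ∑ i, ‖v i‖ ^ 2 = ∑ i, ‖(star U *ᵥ v) i‖ ^ 2 := by
  rw [sum_norm_eq, sum_norm_eq]
  have h1 : star (star U *ᵥ v) ⬝ᵥ (star U *ᵥ v) = star v ⬝ᵥ ((U * star U) *ᵥ v) := by
    rw [← mulVec_mulVec, star_mulVec, dotProduct_mulVec]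
    simp [star_eq_conjTranspose, dotProduct_mulVec]
  rw [h1, hU, one_mulVec]

end Spec

open Matrix Spec in
theorem spec_few {N : Type*} [Fintype N] [DecidableEq N] {B : Matrix N N ℂ} (hB : B.IsHermitian)
    {L κ : ℝ} (hL : 0 ≤ L) (hκ : 0 < κ) (m : ℕ) :
    ∃ (r : ℕ) (ζ : Fin r → N → ℂ),
      r * (L + κ) ^ (2 * m) ≤ (((L : ℂ) • (1 : Matrix N N ℂ) - B) ^ (2 * m)).trace.re ∧
      ∀ v : N → ℂ, 0 ≤ qf B v + κ * ∑ i, ‖v i‖ ^ 2 + ∑ l, ‖∑ i, star (ζ l i) * v i‖ ^ 2 := by
  classical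
  obtain ⟨U, lam, hU1, hU2, hBU⟩ : ∃ (U : Matrix N N ℂ) (lam : N → ℝ), U * star U = 1 ∧
      star U * U = 1 ∧ B = U * diagonal (fun i => (lam i : ℂ)) * star U := by
    refine ⟨hB.eigenvectorUnitary, hB.eigenvalues, Unitary.coe_mul_star_self _,
      Unitary.coe_star_mul_self _, ?_⟩
    have h := hB.spectral_theorem
    rw [Unitary.conjStarAlgAut_apply] at h
    exact h
  have hpow : ∀ k : ℕ, ((L : ℂ) • (1 : Matrix N N ℂ) - B) ^ k =
      U * diagonal (fun i => ((L - lam i : ℝ) : ℂ) ^ k) * star U := by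
    intro k
    induction k with
    | zero => simp [hU1]
    | succ k ih =>
      have hone : (L : ℂ) • (1 : Matrix N N ℂ) - B =
          U * diagonal (fun i => ((L - lam i : ℝ) : ℂ)) * star U := by
        have h3 : diagonal (fun i => ((L - lam i : ℝ) : ℂ)) =
            (L : ℂ) • (1 : Matrix N N ℂ) - diagonal (fun i => (lam i : ℂ)) := by
          ext i j
          by_cases hij : i = j
          · subst hij; simp
          · simp [hij]
        rw [h3, mul_sub, sub_mul, ← hBU]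
        simp [hU1]
      rw [pow_succ, ih, hone]
      calc U * diagonal (fun i => ((L - lam i : ℝ) : ℂ) ^ k) * star U *
            (U * diagonal (fun i => ((L - lam i : ℝ) : ℂ)) * star U)
          = U * diagonal (fun i => ((L - lam i : ℝ) : ℂ) ^ k) * (star U * U) *
            diagonal (fun i => ((L - lam i : ℝ) : ℂ)) * star U := by
            simp only [mul_assoc]
        _ = U * (diagonal (fun i => ((L - lam i : ℝ) : ℂ) ^ k) *
            diagonal (fun i => ((L - lam i : ℝ) : ℂ))) * star U := by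
            rw [hU2]; simp only [mul_assoc, one_mul]
        _ = _ := by
            rw [diagonal_mul_diagonal]
            simp only [pow_succ]
  have htr : (((L : ℂ) • (1 : Matrix N N ℂ) - B) ^ (2 * m)).trace.re =
      ∑ i, (L - lam i) ^ (2 * m) := by
    rw [hpow, trace_mul_comm, ← mul_assoc, hU2, one_mul, trace_diagonal, Complex.re_sum]
    refine Finset.sum_congr rfl fun i _ => ?_
    rw [← Complex.ofReal_pow, Complex.ofReal_re]
  set S : Finset N := Finset.univ.filter (fun i => lam i < -κ) with hS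
  let e : Fin S.card ≃ S := S.equivFin.symm
  refine ⟨S.card, fun l i => ((Real.sqrt |lam (e l)| : ℝ) : ℂ) * U i (e l), ?_, ?_⟩
  · rw [htr]
    have h1 : (S.card : ℝ) * (L + κ) ^ (2 * m) ≤ ∑ i ∈ S, (L - lam i) ^ (2 * m) := by
      rw [← nsmul_eq_mul]
      refine Finset.card_nsmul_le_sum _ _ _ fun i hi => ?_
      have hi' : lam i < -κ := (Finset.mem_filter.1 hi).2
      exact pow_le_pow_left₀ (by linarith) (by linarith) _
    refine h1.trans (Finset.sum_le_sum_of_subset_of_nonneg (Finset.filter_subset _ _) ?_)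
    intro i _ _
    rw [pow_mul]
    positivity
  · intro v
    rw [qf_unitary hBU, norm_unitary hU1]
    have h2 : ∀ l : Fin S.card,
        ‖∑ i, star (((Real.sqrt |lam (e l)| : ℝ) : ℂ) * U i (e l)) * v i‖ ^ 2 =
          |lam (e l)| * ‖(star U *ᵥ v) (e l)‖ ^ 2 := by
      intro l
      have h3 : ∑ i, star (((Real.sqrt |lam (e l)| : ℝ) : ℂ) * U i (e l)) * v i =
          ((Real.sqrt |lam (e l)| : ℝ) : ℂ) * (star U *ᵥ v) (e l) := by
        rw [mulVec, dotProduct, Finset.mul_sum]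
        refine Finset.sum_congr rfl fun i _ => ?_
        rw [star_mul', star_apply]
        simp [mul_assoc]
      rw [h3, norm_mul, mul_pow, Complex.norm_real, Real.norm_eq_abs, sq_abs,
        Real.sq_sqrt (abs_nonneg _)]
    rw [Finset.sum_congr rfl fun l _ => h2 l]
    have h4 : ∑ l : Fin S.card, |lam (e l)| * ‖(star U *ᵥ v) (e l)‖ ^ 2 =
        ∑ i, if lam i < -κ then |lam i| * ‖(star U *ᵥ v) i‖ ^ 2 else 0 := by
      rw [← Finset.sum_filter, ← hS]
      rw [← Finset.sum_coe_sort S (fun i => |lam i| * ‖(star U *ᵥ v) i‖ ^ 2)]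
      exact Equiv.sum_comp e (fun i : S => |lam i| * ‖(star U *ᵥ v) i‖ ^ 2)
    rw [h4, Finset.mul_sum, ← Finset.sum_add_distrib, ← Finset.sum_add_distrib]
    refine Finset.sum_nonneg fun i _ => ?_
    have h5 : 0 ≤ ‖(star U *ᵥ v) i‖ ^ 2 := by positivity
    split_ifs with h
    · have h6 : |lam i| = -lam i := abs_of_neg (by linarith)
      rw [h6]
      nlinarith
    · push Not at h
      nlinarith

end Pool.Agent.Lib.EJS.TS
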