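import Pool.Agent.Lib.EJS.TSOpB

/-!
# TS5: the trace on a finite group

PROOF.  `opM_mulVec`: `opM z M` applied to the vector `f` (uncurried) is `op z M f`; so
`((L • 1 - opM z M) ^ m)` applied to the basis vector at `(y, q)` is `hop^[m]` of that basis vector
(induction on `m`).  The basis vector at `(y, q)` is `x ↦ del q (x * y⁻¹)`, and `hop` commutes with right
translations (`op_right`), so the diagonal entry at `(y, q)` is
`hop^[m] (del q) (y * y⁻¹) q = hop^[m] (del q) 1 q`.  Sum over `(y, q)`.
-/

open scoped ComplexOrder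

namespace Pool.Agent.Lib.EJS.TS

variable {H : Type*} [Group H] [Fintype H] [DecidableEq H] {T P : Type*} [Fintype T] [Fintype P]
  [DecidableEq P]

theorem opM_mulVec (z : T → H) (M : T → Matrix P P ℂ) (f : H → P → ℂ) (a : H × P) :
    (opM z M).mulVec (fun b => f b.1 b.2) a = op z M f a.1 a.2 := by
  unfold opM op Matrix.mulVec dotProduct
  simp only [Finset.sum_mul]
  rw [Finset.sum_comm]
  refine Finset.sum_congr rfl fun t _ => ?_
  rw [Fintype.sum_prod_type]
  simp only [ite_mul, zero_mul]
  rw [Finset.sum_eq_single ((z t)⁻¹ * a.1)]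
  · simp
  · intro b _ hb
    simp [Ne.symm hb]
  · intro h; exact absurd (Finset.mem_univ _) h

theorem opM_hermitian {z : T → H} {M : T → Matrix P P ℂ} {σ : Equiv.Perm T}
    (hz : ∀ t, z (σ t) = (z t)⁻¹) (hM : ∀ t, M (σ t) = (M t).conjTranspose) :
    (opM z M).IsHermitian := by
  ext a b
  rw [Matrix.conjTranspose_apply]
  unfold opM
  rw [star_sum]
  rw [← Equiv.sum_comp σ (fun t => if (z t)⁻¹ * a.1 = b.1 then M t a.2 b.2 else 0)]
  refine Finset.sum_congr rfl fun t _ => ?_
  rw [hz, hM, inv_inv, Matrix.conjTranspose_apply]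
  by_cases h : z t * a.1 = b.1
  · rw [if_pos h, if_pos (by rw [← h]; group)]
  · rw [if_neg h, if_neg, star_zero]
    intro h'
    apply h
    rw [← h']; group

omit [Fintype H] [DecidableEq H] [DecidableEq P] in
theorem hop_iter_right (L : ℝ) (z : T → H) (M : T → Matrix P P ℂ) (f : H → P → ℂ) (a : H)
    (m : ℕ) (x : H) :
    (hop L z M)^[m] (fun y => f (y * a)) x = (hop L z M)^[m] f (x * a) := by
  induction m generalizing x with
  | zero => rfl
  | succ m ih =>
    rw [Function.iterate_succ_apply', Function.iterate_succ_apply']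
    have h : (hop L z M)^[m] (fun y => f (y * a)) =
        fun y => (hop L z M)^[m] f (y * a) := funext ih
    rw [h]
    funext p
    unfold hop
    rw [op_right]

theorem trace_opM (L : ℝ) (z : T → H) (M : T → Matrix P P ℂ) (m : ℕ) :
    (((L : ℂ) • (1 : Matrix (H × P) (H × P) ℂ) - opM z M) ^ m).trace =
      (Fintype.card H : ℂ) * ∑ p, (hop L z M)^[m] (del p) 1 p := by
  set X : Matrix (H × P) (H × P) ℂ := (L : ℂ) • 1 - opM z M with hX
  have h1 : ∀ f : H → P → ℂ, X.mulVec (fun b => f b.1 b.2) =
      fun a => hop L z M f a.1 a.2 := by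
    intro f
    funext a
    rw [hX, Matrix.sub_mulVec, Pi.sub_apply, opM_mulVec, Matrix.smul_mulVec, Matrix.one_mulVec]
    rfl
  have h2 : ∀ (m : ℕ) (f : H → P → ℂ), (X ^ m).mulVec (fun b => f b.1 b.2) =
      fun a => (hop L z M)^[m] f a.1 a.2 := by
    intro m
    induction m with
    | zero => intro f; rw [pow_zero, Matrix.one_mulVec]; rfl
    | succ m ih =>
      intro f
      rw [pow_succ, ← Matrix.mulVec_mulVec, h1, ih (hop L z M f)]
      rfl
  have h3 : ∀ a : H × P, (X ^ m) a a = (hop L z M)^[m] (del a.2) 1 a.2 := by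
    intro a
    have h4 : (Pi.single a 1 : H × P → ℂ) = fun b => (fun y => del a.2 (y * a.1⁻¹)) b.1 b.2 := by
      funext b
      unfold del
      rw [Pi.single_apply]
      by_cases hb : b = a
      · subst hb; simp
      · rw [if_neg hb]
        refine (if_neg ?_).symm
        rintro ⟨e1, e2⟩
        apply hb
        refine Prod.ext ?_ e2
        rwa [mul_inv_eq_one] at e1
    have h5 : (X ^ m) a a = (X ^ m).mulVec (Pi.single a 1) a := by
      rw [Matrix.mulVec_single_one]; rfl
    rw [h5, h4]
    rw [h2 m (fun y => del a.2 (y * a.1⁻¹))]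
    simp only
    rw [hop_iter_right L z M (del a.2) a.1⁻¹ m a.1, mul_inv_cancel]
  unfold Matrix.trace
  simp only [Matrix.diag_apply, h3]
  rw [Fintype.sum_prod_type]
  simp only [Finset.sum_const, Finset.card_univ, nsmul_eq_mul]

end Pool.Agent.Lib.EJS.TS
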