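import Pool.Agent.Lib.EJS.TSMom
import Pool.Agent.Lib.EJS.TSTr
import Pool.Agent.Lib.EJS.TSSpec
import Pool.Agent.Lib.Pfc0641.Hopf

/-!
# TS5: positive forms on a free group are almost positive on finite quotients

PROOF.  `resid`: `Pool.Agent.Pfc0641.hopf_rf` for every element of `B` different from `1`; product of the
finite groups.

`rf_main`: `L := nrm M`.  Choose `m` with `(L / (L + κ))^(2m) * |P| ≤ ρ` (`L / (L + κ) < 1`).
`B` := the finite set of `hop_iter_local L z M (2m)`.  `Q`, `π` from `resid` for `B`.  For `p : P` the function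
`y ↦ del p (π y)` on the free group agrees with `del p` on `B`, so by `hop_iter_comp` and `hop_iter_local`
`hop_Q^[2m] (del p) 1 p = hop_F^[2m] (del p) 1 p`, real part `≤ L^(2m)` (`moment_del`).  By `trace_opM` the trace
of `(L - opM)^(2m)` has real part `≤ |Q| |P| L^(2m)`; `spec_few` with `N = Q × P` gives
`r (L + κ)^(2m) ≤ |Q| |P| L^(2m)`, so `r ≤ ρ |Q|`.
-/

open scoped ComplexOrder

namespace Pool.Agent.Lib.EJS.TS

theorem resid {Γ : Type} [DecidableEq Γ] (B : Finset (FreeGroup Γ)) :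
    ∃ (Q : Type) (_ : Group Q) (_ : Fintype Q) (π : FreeGroup Γ →* Q),
      ∀ x ∈ B, π x = 1 → x = 1 := by
  classical
  have h : ∀ x : FreeGroup Γ, ∃ (k : ℕ) (ψ : FreeGroup Γ →* Equiv.Perm (Fin (k + 1))),
      x ≠ 1 → ψ x ≠ 1 := by
    intro x
    by_cases hx : x = 1
    · exact ⟨0, 1, fun h => absurd hx h⟩
    · obtain ⟨k, ψ, hψ⟩ := Pool.Agent.Pfc0641.hopf_rf x hx
      exact ⟨k, ψ, fun _ => hψ⟩
  choose k ψ hψ using h
  refine ⟨(x : B) → Equiv.Perm (Fin (k x + 1)), inferInstance, inferInstance,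
    MonoidHom.pi fun x => ψ x, ?_⟩
  intro x hx h1
  by_contra hne
  apply hψ x hne
  have := congrFun h1 ⟨x, hx⟩
  exact this

theorem rf_main {Γ : Type} [DecidableEq Γ] {T P : Type} [Fintype T] [Fintype P] [DecidableEq P]
    {z : T → FreeGroup Γ} {M : T → Matrix P P ℂ} {σ : Equiv.Perm T}
    (hz : ∀ t, z (σ t) = (z t)⁻¹) (hM : ∀ t, M (σ t) = (M t).conjTranspose)
    (hpos : ∀ f : FreeGroup Γ → P → ℂ, (Function.support f).Finite → 0 ≤ (ip f (op z M f)).re)
    {κ ρ : ℝ} (hκ : 0 < κ) (hρ : 0 < ρ) :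
    ∃ (Q : Type) (_ : Group Q) (_ : Fintype Q) (_ : DecidableEq Q) (π : FreeGroup Γ →* Q) (r : ℕ)
      (ζ : Fin r → Q × P → ℂ), (r : ℝ) ≤ ρ * Fintype.card Q ∧
      (opM (fun t => π (z t)) M).IsHermitian ∧
      ∀ v : Q × P → ℂ, 0 ≤ qf (opM (fun t => π (z t)) M) v + κ * ∑ i, ‖v i‖ ^ 2 +
        ∑ l, ‖∑ i, star (ζ l i) * v i‖ ^ 2 := by
  classical
  have hL : 0 ≤ nrm M := by
    unfold nrm
    positivity
  set L := nrm M with hLdef
  have hLκ : 0 < L + κ := by linarith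
  set q : ℝ := L / (L + κ) with hq
  have hq0 : 0 ≤ q := div_nonneg hL hLκ.le
  have hq1 : q < 1 := (div_lt_one hLκ).2 (by linarith)
  obtain ⟨m, hm⟩ : ∃ m : ℕ, q ^ (2 * m) * Fintype.card P ≤ ρ := by
    have hP : (0 : ℝ) < Fintype.card P + 1 := by positivity
    obtain ⟨n, hn⟩ := exists_pow_lt_of_lt_one (div_pos hρ hP) hq1
    refine ⟨n, ?_⟩
    have h1 : q ^ (2 * n) ≤ q ^ n := pow_le_pow_of_le_one hq0 hq1.le (by omega)
    have h2 : q ^ (2 * n) * Fintype.card P ≤ q ^ n * (Fintype.card P + 1) :=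
      mul_le_mul h1 (by linarith) (by positivity) (by positivity)
    refine h2.trans ?_
    rw [lt_div_iff₀ hP] at hn
    exact hn.le
  obtain ⟨B, hB⟩ := hop_iter_local L z M (2 * m)
  obtain ⟨Q, iQ, iF, π, hπ⟩ := resid B
  have hval : ∀ p : P, (hop L (fun t => π (z t)) M)^[2 * m] (del p) 1 p =
      (hop L z M)^[2 * m] (del p) 1 p := by
    intro p
    have h1 := hop_iter_comp π L z M (del p) (2 * m) 1
    rw [map_one] at h1
    rw [← h1]
    have h2 := hB (fun y => del p (π y)) (del p) ?_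
    · rw [h2]
    · intro b hb
      funext s
      have h3 : π b = 1 ↔ b = 1 := ⟨hπ b hb, fun h => by rw [h, map_one]⟩
      simp only [del, h3]
  have hher := opM_hermitian (H := Q) (z := fun t => π (z t)) (M := M) (σ := σ)
    (fun t => by rw [hz, map_inv]) hM
  obtain ⟨r, ζ, h1, h2⟩ := spec_few hher hL hκ m
  refine ⟨Q, iQ, iF, Classical.decEq Q, π, r, ζ, ?_, hher, h2⟩
  rw [trace_opM] at h1
  have h3 : ((Fintype.card Q : ℂ) *
      ∑ p, (hop L (fun t => π (z t)) M)^[2 * m] (del p) 1 p).re ≤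
      Fintype.card Q * (Fintype.card P * L ^ (2 * m)) := by
    have h4 : ((Fintype.card Q : ℂ) *
      ∑ p, (hop L (fun t => π (z t)) M)^[2 * m] (del p) 1 p).re =
      (Fintype.card Q : ℝ) * ∑ p, ((hop L (fun t => π (z t)) M)^[2 * m] (del p) 1 p).re := by
      rw [← Complex.re_sum, ← Complex.ofReal_natCast, Complex.re_ofReal_mul]
    rw [h4]
    refine mul_le_mul_of_nonneg_left ?_ (by positivity)
    have h5 : ∑ p, ((hop L (fun t => π (z t)) M)^[2 * m] (del p) 1 p).re ≤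
        ∑ _p : P, L ^ (2 * m) := by
      refine Finset.sum_le_sum fun p _ => ?_
      rw [hval p]
      exact moment_del hz hM hpos m p
    refine h5.trans (le_of_eq ?_)
    simp
  have h6 : (r : ℝ) * (L + κ) ^ (2 * m) ≤ Fintype.card Q * (Fintype.card P * L ^ (2 * m)) :=
    h1.trans h3
  have h7 : L ^ (2 * m) = q ^ (2 * m) * (L + κ) ^ (2 * m) := by
    rw [← mul_pow, hq, div_mul_cancel₀ _ hLκ.ne']
  rw [h7] at h6
  have h8 : (0 : ℝ) < (L + κ) ^ (2 * m) := by positivity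
  have h9 : (r : ℝ) * (L + κ) ^ (2 * m) ≤ (ρ * Fintype.card Q) * (L + κ) ^ (2 * m) := by
    refine h6.trans ?_
    have h10 : (Fintype.card Q : ℝ) * (Fintype.card P * (q ^ (2 * m) * (L + κ) ^ (2 * m))) =
        (q ^ (2 * m) * Fintype.card P) * (Fintype.card Q * (L + κ) ^ (2 * m)) := by ring
    rw [h10, mul_assoc ρ]
    exact mul_le_mul_of_nonneg_right hm (by positivity)
  exact le_of_mul_le_mul_right h9 h8

end Pool.Agent.Lib.EJS.TS
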