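import Mathlib

/-!
# Free groups: first letters

`Beg g w`: the reduced word of `w` begins with the letter `g`.  If the word of `x` does not begin with
`g⁻¹` then the word of `g x` is `g` followed by the word of `x`; otherwise it is the tail of the word of
`x`, which does not begin with `g` as the word is reduced (`FreeGroup.toWord`, `FreeGroup.reduce`,
`FreeGroup.isReduced_toWord`, `FreeGroup.toWord_mul_sublist` and the like).
-/

namespace Pool.Agent.Lib.EJS.TS

variable {Γ : Type*} [DecidableEq Γ]

/-- the reduced word of `w` begins with `g` -/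
def Beg (g : Γ) (w : FreeGroup Γ) : Prop := w.toWord.head? = some (g, true)

theorem Beg.unique {g g' : Γ} {w : FreeGroup Γ} (h : Beg g w) (h' : Beg g' w) : g = g' := by
  unfold Beg at h h'
  rw [h] at h'
  simpa using h'

theorem not_beg_mul_iff {g : Γ} {x : FreeGroup Γ} :
    ¬ Beg g (FreeGroup.of g * x) ↔ x.toWord.head? = some (g, false) := by
  have hred : FreeGroup.IsReduced x.toWord := FreeGroup.isReduced_toWord
  unfold Beg
  rw [FreeGroup.toWord_mul, FreeGroup.toWord_of, List.singleton_append, FreeGroup.reduce.cons,
    FreeGroup.reduce_toWord]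
  rcases hx : x.toWord with _ | ⟨⟨a, b⟩, t⟩
  · simp
  · rw [hx] at hred
    simp only [Bool.true_eq, Bool.not_eq_eq_eq_not, Bool.not_true]
    by_cases hc : g = a ∧ b = false
    · obtain ⟨rfl, rfl⟩ := hc
      simp only [and_self, ↓reduceIte, List.head?_cons, iff_true]
      intro h
      rcases t with _ | ⟨⟨a', b'⟩, t'⟩
      · simp at h
      · rw [List.head?_cons, Option.some.injEq, Prod.mk.injEq] at h
        obtain ⟨rfl, rfl⟩ := h
        have h2 := (FreeGroup.isReduced_cons_cons.1 hred).1 rfl
        simp at h2
    · rw [if_neg hc]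
      simp only [List.head?_cons, not_true_eq_false, Option.some.injEq, Prod.mk.injEq, false_iff]
      rintro ⟨rfl, rfl⟩
      exact hc ⟨rfl, rfl⟩

/-- for every `x` there is at most one generator `g` such that `g x` does not begin with `g` -/
theorem not_beg_unique {g g' : Γ} {x : FreeGroup Γ} (h : ¬ Beg g (FreeGroup.of g * x))
    (h' : ¬ Beg g' (FreeGroup.of g' * x)) : g = g' := by
  rw [not_beg_mul_iff] at h h'
  rw [h] at h'
  simpa using h'

end Pool.Agent.Lib.EJS.TS
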