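import Pool.Agent.Lib.EJS.TSDefs
import Pool.Agent.Lib.EJS.TSWord

/-!
# TS3: the free group inequality

Notation: generators `g = (i, s, u) : Gn n D`, `f : F → Fin D × Fin d → ℂ` finitely supported on the free
group `F`.  For `w ∈ F` let `X w : Fin n × Fin d → ℂ`, `X w (i, k) = ∑_{s,u} f (g_{isu}⁻¹ w) (s, k)`.

(1) `re (ip f (op f)) = ½ ∑'_w qf K (X w) - ¼ ∑'_x ∑_s ∑_i qf_i (f x (s, ·)) + D ∑'_x ∑ |f x p|²`, where
    `qf_i v = (∑_kl conj (v k) K (i,k) (i,l) v l).re = qf K (v placed in the block i)`.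
    For the first term substitute `x = g⁻¹ w` in every summand `(g, g')`
    (`(Equiv.mulLeft _).tsum_eq`, all functions have finite support:
    `summable_of_finite_support`, `Summable.tsum_finsetSum`).

(2) Split `X w = X' w + X'' w`, `X'`: the summands with `Beg g w`, `X''`: the others.
    `qf K (p + q) ≥ ½ qf K p - qf K q` (from `0 ≤ qf K (p + 2 q)`; `qf K` is a positive hermitian form),
    `qf K q ≤ ∑ |q|²`.

(3) `∑'_w qf K (X' w) = ∑'_x ∑_{g = (i,s,u)} [Beg g (g x)] qf_i (f x (s, ·)) ≥ ∑'_x ∑_{i,s} qf_i (f x (s, ·))`: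
    for given `w` at most one summand of `X' w` is non-zero (`Beg.unique`), so `qf K (X' w)` is the sum over the
    `g` with `Beg g w` of `qf_i (f (g⁻¹ w) (s, ·))`; substitute `x = g⁻¹ w`; for given `x, i, s` at least one of
    the two `u` has `Beg g (g x)` (`not_beg_unique`), and all terms are `≥ 0`.

(4) `∑'_w ∑ |X'' w|² ≤ 2 D ∑'_w ∑_g [¬ Beg g w] ∑_k |f (g⁻¹ w) (s, k)|²
    = 2 D ∑'_x ∑_g [¬ Beg g (g x)] ∑_k |f x (s, k)|² ≤ 2 D ∑'_x ∑ |f x p|²` (Cauchy-Schwarz
    for the sum over the `2 D` pairs `(s, u)`; `not_beg_unique`).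

Together: `½ ∑' qf K (X w) ≥ ¼ ∑' qf K (X' w) - ½ ∑' qf K (X'' w) ≥ ¼ ∑ qf_i - D ∑ |f|²`.
-/

open scoped ComplexOrder

namespace Pool.Agent.Lib.EJS.TS

namespace TreeAux

variable {n D d : ℕ}

/-- the sesquilinear form of `K` -/
noncomputable def S (K : Matrix (Fin n × Fin d) (Fin n × Fin d) ℂ) (v v' : Fin n × Fin d → ℂ) : ℂ :=
  ∑ i, ∑ j, star (v i) * K i j * v' j

/-- the vector `h (s, ·)` placed in the block `i` -/
noncomputable def E (g : Gn n D) (h : Fin D × Fin d → ℂ) : Fin n × Fin d → ℂ :=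
  fun j => if j.1 = g.1 then h (g.2.1, j.2) else 0

theorem qf_eq (K : Matrix (Fin n × Fin d) (Fin n × Fin d) ℂ) (v : Fin n × Fin d → ℂ) :
    qf K v = (S K v v).re := rfl

theorem S_add_left (K : Matrix (Fin n × Fin d) (Fin n × Fin d) ℂ) (u v w : Fin n × Fin d → ℂ) :
    S K (u + v) w = S K u w + S K v w := by
  unfold S
  rw [← Finset.sum_add_distrib]
  refine Finset.sum_congr rfl fun i _ => ?_
  rw [← Finset.sum_add_distrib]
  refine Finset.sum_congr rfl fun j _ => ?_
  rw [Pi.add_apply, star_add]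
  ring

theorem S_add_right (K : Matrix (Fin n × Fin d) (Fin n × Fin d) ℂ) (u v w : Fin n × Fin d → ℂ) :
    S K w (u + v) = S K w u + S K w v := by
  unfold S
  rw [← Finset.sum_add_distrib]
  refine Finset.sum_congr rfl fun i _ => ?_
  rw [← Finset.sum_add_distrib]
  refine Finset.sum_congr rfl fun j _ => ?_
  rw [Pi.add_apply]
  ring

theorem S_zero_left (K : Matrix (Fin n × Fin d) (Fin n × Fin d) ℂ) (w : Fin n × Fin d → ℂ) :
    S K 0 w = 0 := by
  simp [S]

theorem S_zero_right (K : Matrix (Fin n × Fin d) (Fin n × Fin d) ℂ) (w : Fin n × Fin d → ℂ) :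
    S K w 0 = 0 := by
  simp [S]

theorem S_sum_left {ι : Type*} (t : Finset ι) (K : Matrix (Fin n × Fin d) (Fin n × Fin d) ℂ)
    (u : ι → Fin n × Fin d → ℂ) (w : Fin n × Fin d → ℂ) :
    S K (∑ a ∈ t, u a) w = ∑ a ∈ t, S K (u a) w := by
  classical
  induction t using Finset.induction_on with
  | empty => rw [Finset.sum_empty, Finset.sum_empty, S_zero_left]
  | insert a t ha ih => rw [Finset.sum_insert ha, Finset.sum_insert ha, S_add_left, ih]

theorem S_sum_right {ι : Type*} (t : Finset ι) (K : Matrix (Fin n × Fin d) (Fin n × Fin d) ℂ)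
    (u : ι → Fin n × Fin d → ℂ) (w : Fin n × Fin d → ℂ) :
    S K w (∑ a ∈ t, u a) = ∑ a ∈ t, S K w (u a) := by
  classical
  induction t using Finset.induction_on with
  | empty => rw [Finset.sum_empty, Finset.sum_empty, S_zero_right]
  | insert a t ha ih => rw [Finset.sum_insert ha, Finset.sum_insert ha, S_add_right, ih]

theorem qf_zero (K : Matrix (Fin n × Fin d) (Fin n × Fin d) ℂ) : qf K 0 = 0 := by
  rw [qf_eq, S_zero_left, Complex.zero_re]

theorem E_zero (g : Gn n D) : E g (0 : Fin D × Fin d → ℂ) = 0 := by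
  funext j
  simp [E]

theorem SE (K : Matrix (Fin n × Fin d) (Fin n × Fin d) ℂ) (g g' : Gn n D)
    (h h' : Fin D × Fin d → ℂ) : S K (E g h) (E g' h') =
      ∑ k, ∑ l, star (h (g.2.1, k)) * K (g.1, k) (g'.1, l) * h' (g'.2.1, l) := by
  unfold S E
  rw [Fintype.sum_prod_type, Finset.sum_eq_single g.1]
  · refine Finset.sum_congr rfl fun k _ => ?_
    rw [Fintype.sum_prod_type, Finset.sum_eq_single g'.1]
    · refine Finset.sum_congr rfl fun l _ => ?_
      rw [if_pos rfl, if_pos rfl]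
    · intro i _ hi
      refine Finset.sum_eq_zero fun l _ => ?_
      rw [if_neg hi, mul_zero]
    · intro hi
      exact absurd (Finset.mem_univ _) hi
  · intro i _ hi
    refine Finset.sum_eq_zero fun k _ => Finset.sum_eq_zero fun j _ => ?_
    rw [if_neg hi, star_zero, zero_mul, zero_mul]
  · intro hi
    exact absurd (Finset.mem_univ _) hi

theorem some_term (K : Matrix (Fin n × Fin d) (Fin n × Fin d) ℂ) (g g' : Gn n D)
    (h h' : Fin D × Fin d → ℂ) :
    ∑ p, ∑ q, star (h p) * (gM K (some (g, g')) p q * h' q) = (1 / 2) * S K (E g h) (E g' h') := by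
  rw [SE, Fintype.sum_prod_type, Finset.sum_eq_single g.2.1, Finset.mul_sum]
  · refine Finset.sum_congr rfl fun k _ => ?_
    rw [Fintype.sum_prod_type, Finset.sum_eq_single g'.2.1, Finset.mul_sum]
    · refine Finset.sum_congr rfl fun l _ => ?_
      simp only [gM, and_self, if_true]
      ring
    · intro s _ hs
      refine Finset.sum_eq_zero fun l _ => ?_
      simp only [gM]
      rw [if_neg (fun hh => hs hh.2)]
      ring
    · intro hi
      exact absurd (Finset.mem_univ _) hi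
  · intro s _ hs
    refine Finset.sum_eq_zero fun k _ => Finset.sum_eq_zero fun j _ => ?_
    simp only [gM]
    rw [if_neg (fun hh => hs hh.1)]
    ring
  · intro hi
    exact absurd (Finset.mem_univ _) hi

theorem none_term (K : Matrix (Fin n × Fin d) (Fin n × Fin d) ℂ) (h : Fin D × Fin d → ℂ) :
    ∑ p, ∑ q, star (h p) * (gM K none p q * h q) =
      (D : ℂ) * ∑ p, star (h p) * h p -
        (1 / 4) * ∑ i : Fin n, ∑ s : Fin D, S K (E (i, s, 0) h) (E (i, s, 0) h) := by
  have h1 : ∀ p : Fin D × Fin d, ∑ q, star (h p) * (gM K none p q * h q) =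
      (D : ℂ) * (star (h p) * h p) -
        (1 / 4) * ∑ i : Fin n, ∑ l, star (h (p.1, p.2)) * K (i, p.2) (i, l) * h (p.1, l) := by
    intro p
    rw [Fintype.sum_prod_type, Finset.sum_eq_single p.1]
    · have h2 : ∀ l : Fin d, star (h p) * (gM K none p (p.1, l) * h (p.1, l)) =
          (if p.2 = l then (D : ℂ) * (star (h p) * h (p.1, l)) else 0) -
            (1 / 4) * ∑ i : Fin n, star (h (p.1, p.2)) * K (i, p.2) (i, l) * h (p.1, l) := by
        intro l
        simp only [gM, if_true]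
        rw [← Finset.sum_mul, ← Finset.mul_sum]
        by_cases hl : p.2 = l
        · rw [if_pos hl, if_pos hl]
          ring
        · rw [if_neg hl, if_neg hl]
          ring
      rw [Finset.sum_congr rfl fun l _ => h2 l, Finset.sum_sub_distrib, Finset.sum_ite_eq,
        if_pos (Finset.mem_univ _), ← Finset.mul_sum, Finset.sum_comm]
    · intro s _ hs
      refine Finset.sum_eq_zero fun l _ => ?_
      simp only [gM]
      rw [if_neg (fun hh => hs hh.symm)]
      ring
    · intro hi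
      exact absurd (Finset.mem_univ _) hi
  rw [Finset.sum_congr rfl fun p _ => h1 p, Finset.sum_sub_distrib, ← Finset.mul_sum,
    ← Finset.mul_sum]
  congr 2
  simp only [SE]
  rw [Fintype.sum_prod_type, Finset.sum_comm (s := (Finset.univ : Finset (Fin n)))]
  refine Finset.sum_congr rfl fun s _ => ?_
  rw [Finset.sum_comm]

theorem theta (K : Matrix (Fin n × Fin d) (Fin n × Fin d) ℂ)
    (f : FreeGroup (Gn n D) → Fin D × Fin d → ℂ) (x : FreeGroup (Gn n D)) :
    (∑ p, star (f x p) * op (gz FreeGroup.of) (gM K) f x p).re =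
      (D : ℝ) * ∑ p, ‖f x p‖ ^ 2 - 1 / 4 * ∑ i : Fin n, ∑ s : Fin D, qf K (E (i, s, 0) (f x)) +
        1 / 2 * ∑ g : Gn n D, ∑ g' : Gn n D,
          (S K (E g (f x)) (E g' (f ((FreeGroup.of g')⁻¹ * (FreeGroup.of g * x))))).re := by
  have h1 : ∑ p, star (f x p) * op (gz FreeGroup.of) (gM K) f x p =
      ∑ t, ∑ p, ∑ q, star (f x p) * (gM K t p q * f ((gz FreeGroup.of t)⁻¹ * x) q) := by
    unfold op
    simp only [Finset.mul_sum]
    rw [Finset.sum_comm]
  rw [h1, Fintype.sum_option]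
  have h2 : ∀ g g' : Gn n D, ∑ p, ∑ q, star (f x p) * (gM K (some (g, g')) p q *
      f ((gz FreeGroup.of (some (g, g')))⁻¹ * x) q) =
      (1 / 2) * S K (E g (f x)) (E g' (f ((FreeGroup.of g')⁻¹ * (FreeGroup.of g * x)))) := by
    intro g g'
    have h3 : (gz FreeGroup.of (some (g, g')))⁻¹ * x =
        (FreeGroup.of g')⁻¹ * (FreeGroup.of g * x) := by
      simp only [gz]
      group
    rw [h3]
    exact some_term K g g' _ _
  have h7 : ∀ G : Gn n D × Gn n D → ℂ, ∑ t, G t = ∑ g, ∑ g', G (g, g') :=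
    fun G => Fintype.sum_prod_type G
  rw [h7]
  simp only [h2]
  have h4 : (gz FreeGroup.of (none : Option (Gn n D × Gn n D)))⁻¹ * x = x := by
    simp [gz]
  rw [h4, none_term, Complex.add_re, Complex.sub_re]
  congr 1
  · congr 1
    · have h5 : ∑ p, star (f x p) * f x p = ((∑ p, ‖f x p‖ ^ 2 : ℝ) : ℂ) := by
        push_cast
        refine Finset.sum_congr rfl fun p _ => ?_
        rw [Complex.star_def, mul_comm, Complex.mul_conj, Complex.normSq_eq_norm_sq]
        push_cast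
        rfl
      rw [h5, ← Complex.ofReal_natCast, ← Complex.ofReal_mul, Complex.ofReal_re]
    · have h6 : (1 / 4 : ℂ) = ((1 / 4 : ℝ) : ℂ) := by push_cast; rfl
      rw [h6, Complex.re_ofReal_mul, Complex.re_sum]
      congr 1
      refine Finset.sum_congr rfl fun i _ => ?_
      rw [Complex.re_sum]
      rfl
  · rw [Complex.re_sum, Finset.mul_sum]
    refine Finset.sum_congr rfl fun g _ => ?_
    rw [Complex.re_sum, Finset.mul_sum]
    refine Finset.sum_congr rfl fun g' _ => ?_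
    have h6 : (1 / 2 : ℂ) = ((1 / 2 : ℝ) : ℂ) := by push_cast; rfl
    rw [h6, Complex.re_ofReal_mul]

/-- `qf K (p + q) ≥ ½ qf K p - qf K q` -/
theorem qf_split {K : Matrix (Fin n × Fin d) (Fin n × Fin d) ℂ} (h0 : ∀ v, 0 ≤ qf K v)
    (p q : Fin n × Fin d → ℂ) : 1 / 2 * qf K p - qf K q ≤ qf K (p + q) := by
  have h1 := h0 (p + (q + q))
  simp only [qf_eq, S_add_left, S_add_right, Complex.add_re] at h1 ⊢
  linarith

theorem swap (φ : Gn n D → FreeGroup (Gn n D) → ℝ) (hφ : ∀ g, (Function.support (φ g)).Finite) :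
    Summable (fun w => ∑ g, φ g ((FreeGroup.of g)⁻¹ * w)) ∧ Summable (fun x => ∑ g, φ g x) ∧
      ∑' w, ∑ g, φ g ((FreeGroup.of g)⁻¹ * w) = ∑' x, ∑ g, φ g x := by
  have h1 : ∀ g, Summable (φ g) := fun g => summable_of_finite_support (hφ g)
  have h2 : ∀ g : Gn n D, Summable (fun w => φ g ((FreeGroup.of g)⁻¹ * w)) := fun g =>
    ((Equiv.mulLeft (FreeGroup.of g)⁻¹).summable_iff (f := φ g)).2 (h1 g)
  refine ⟨summable_sum fun g _ => h2 g, summable_sum fun g _ => h1 g, ?_⟩
  rw [Summable.tsum_finsetSum fun g _ => h2 g, Summable.tsum_finsetSum fun g _ => h1 g]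
  refine Finset.sum_congr rfl fun g _ => ?_
  exact (Equiv.mulLeft (FreeGroup.of g)⁻¹).tsum_eq (φ g)

open Classical in
/-- the part with `Beg` -/
noncomputable def X1 (f : FreeGroup (Gn n D) → Fin D × Fin d → ℂ) (w : FreeGroup (Gn n D)) :
    Fin n × Fin d → ℂ := ∑ g, if Beg g w then E g (f ((FreeGroup.of g)⁻¹ * w)) else 0

open Classical in
/-- the other part -/
noncomputable def X2 (f : FreeGroup (Gn n D) → Fin D × Fin d → ℂ) (w : FreeGroup (Gn n D)) :
    Fin n × Fin d → ℂ := ∑ g, if Beg g w then 0 else E g (f ((FreeGroup.of g)⁻¹ * w))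

theorem X_add (f : FreeGroup (Gn n D) → Fin D × Fin d → ℂ) (w : FreeGroup (Gn n D)) :
    X1 f w + X2 f w = ∑ g, E g (f ((FreeGroup.of g)⁻¹ * w)) := by
  classical
  unfold X1 X2
  rw [← Finset.sum_add_distrib]
  refine Finset.sum_congr rfl fun g _ => ?_
  by_cases h : Beg g w
  · rw [if_pos h, if_pos h, add_zero]
  · rw [if_neg h, if_neg h, zero_add]

open Classical in
theorem qf_X1 (K : Matrix (Fin n × Fin d) (Fin n × Fin d) ℂ)
    (f : FreeGroup (Gn n D) → Fin D × Fin d → ℂ) (w : FreeGroup (Gn n D)) :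
    qf K (X1 f w) = ∑ g, if Beg g w then qf K (E g (f ((FreeGroup.of g)⁻¹ * w))) else 0 := by
  unfold X1
  by_cases h : ∃ g, Beg g w
  · obtain ⟨g, hg⟩ := h
    rw [Finset.sum_eq_single g, Finset.sum_eq_single g, if_pos hg, if_pos hg]
    · intro g' _ hne
      exact if_neg fun h' => hne (Beg.unique h' hg)
    · intro h'
      exact absurd (Finset.mem_univ _) h'
    · intro g' _ hne
      exact if_neg fun h' => hne (Beg.unique h' hg)
    · intro h'
      exact absurd (Finset.mem_univ _) h'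
  · push Not at h
    rw [Finset.sum_eq_zero fun g _ => if_neg (h g), Finset.sum_eq_zero fun g _ => if_neg (h g),
      qf_zero]

open Classical in
theorem sum_beg {K : Matrix (Fin n × Fin d) (Fin n × Fin d) ℂ} (h0 : ∀ v, 0 ≤ qf K v)
    (h : Fin D × Fin d → ℂ) (x : FreeGroup (Gn n D)) :
    ∑ i : Fin n, ∑ s : Fin D, qf K (E (i, s, 0) h) ≤
      ∑ g : Gn n D, if Beg g (FreeGroup.of g * x) then qf K (E g h) else 0 := by
  rw [Fintype.sum_prod_type]
  refine Finset.sum_le_sum fun i _ => ?_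
  rw [Fintype.sum_prod_type]
  refine Finset.sum_le_sum fun s _ => ?_
  rw [Fin.sum_univ_two]
  have h1 : qf K (E (i, s, (1 : Fin 2)) h) = qf K (E (i, s, (0 : Fin 2)) h) := rfl
  have h2 : 0 ≤ qf K (E (i, s, (0 : Fin 2)) h) := h0 _
  rw [h1]
  by_cases c0 : Beg (i, s, (0 : Fin 2)) (FreeGroup.of (i, s, (0 : Fin 2)) * x)
  · rw [if_pos c0]
    split_ifs <;> linarith
  · by_cases c1 : Beg (i, s, (1 : Fin 2)) (FreeGroup.of (i, s, (1 : Fin 2)) * x)
    · rw [if_neg c0, if_pos c1, zero_add]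
    · have h3 := not_beg_unique c0 c1
      simp at h3

open Classical in
theorem X2_le (f : FreeGroup (Gn n D) → Fin D × Fin d → ℂ) (w : FreeGroup (Gn n D)) :
    ∑ j, ‖X2 f w j‖ ^ 2 ≤ 2 * (D : ℝ) * ∑ g : Gn n D, if Beg g w then 0 else
      ∑ k, ‖f ((FreeGroup.of g)⁻¹ * w) (g.2.1, k)‖ ^ 2 := by
  have h1 : ∀ (i : Fin n) (k : Fin d), X2 f w (i, k) = ∑ su : Fin D × Fin 2,
      if Beg (i, su) w then 0 else f ((FreeGroup.of (i, su))⁻¹ * w) (su.1, k) := by
    intro i k
    unfold X2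
    rw [Finset.sum_apply, Fintype.sum_prod_type, Finset.sum_eq_single i]
    · refine Finset.sum_congr rfl fun su _ => ?_
      by_cases c : Beg (i, su) w
      · rw [if_pos c, if_pos c, Pi.zero_apply]
      · rw [if_neg c, if_neg c]
        simp [E]
    · intro i' _ hi
      refine Finset.sum_eq_zero fun su _ => ?_
      by_cases c : Beg (i', su) w
      · rw [if_pos c, Pi.zero_apply]
      · rw [if_neg c]
        simp only [E]
        rw [if_neg (Ne.symm hi)]
    · intro h'
      exact absurd (Finset.mem_univ _) h'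
  have h2 : ∀ (i : Fin n) (k : Fin d), ‖X2 f w (i, k)‖ ^ 2 ≤ 2 * (D : ℝ) * ∑ su : Fin D × Fin 2,
      if Beg (i, su) w then 0 else ‖f ((FreeGroup.of (i, su))⁻¹ * w) (su.1, k)‖ ^ 2 := by
    intro i k
    rw [h1]
    have h3 := norm_sum_le (Finset.univ : Finset (Fin D × Fin 2)) fun su =>
      if Beg (i, su) w then (0 : ℂ) else f ((FreeGroup.of (i, su))⁻¹ * w) (su.1, k)
    have h4 := sq_sum_le_card_mul_sum_sq (s := (Finset.univ : Finset (Fin D × Fin 2)))
      (f := fun su => ‖if Beg (i, su) w then (0 : ℂ) else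
        f ((FreeGroup.of (i, su))⁻¹ * w) (su.1, k)‖)
    have h5 := pow_le_pow_left₀ (norm_nonneg _) h3 2
    refine h5.trans (h4.trans (le_of_eq ?_))
    have h6 : (((Finset.univ : Finset (Fin D × Fin 2)).card : ℕ) : ℝ) = 2 * (D : ℝ) := by
      rw [Finset.card_univ, Fintype.card_prod, Fintype.card_fin, Fintype.card_fin]
      push_cast
      ring
    rw [h6]
    congr 1
    refine Finset.sum_congr rfl fun su _ => ?_
    by_cases c : Beg (i, su) w
    · rw [if_pos c, if_pos c, norm_zero]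
      norm_num
    · rw [if_neg c, if_neg c]
  rw [Fintype.sum_prod_type]
  refine (Finset.sum_le_sum fun i _ => Finset.sum_le_sum fun k _ => h2 i k).trans (le_of_eq ?_)
  simp only [← Finset.mul_sum]
  congr 1
  rw [Fintype.sum_prod_type]
  refine Finset.sum_congr rfl fun i _ => ?_
  rw [Finset.sum_comm]
  refine Finset.sum_congr rfl fun su _ => ?_
  by_cases c : Beg (i, su) w
  · simp only [if_pos c]
    simp
  · simp only [if_neg c]

open Classical in
theorem sum_nbeg (h : Fin D × Fin d → ℂ) (x : FreeGroup (Gn n D)) :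
    (∑ g : Gn n D, if Beg g (FreeGroup.of g * x) then (0 : ℝ) else ∑ k, ‖h (g.2.1, k)‖ ^ 2) ≤
      ∑ p, ‖h p‖ ^ 2 := by
  by_cases c : ∃ g : Gn n D, ¬ Beg g (FreeGroup.of g * x)
  · obtain ⟨g, hg⟩ := c
    rw [Finset.sum_eq_single g, if_neg hg, Fintype.sum_prod_type]
    · exact Finset.single_le_sum (f := fun s => ∑ k, ‖h (s, k)‖ ^ 2)
        (fun s _ => Finset.sum_nonneg fun k _ => sq_nonneg _) (Finset.mem_univ g.2.1)
    · intro g' _ hne
      by_cases c' : Beg g' (FreeGroup.of g' * x)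
      · exact if_pos c'
      · exact absurd (not_beg_unique c' hg) hne
    · intro h'
      exact absurd (Finset.mem_univ _) h'
  · push Not at c
    rw [Finset.sum_eq_zero fun g _ => if_pos (c g)]
    exact Finset.sum_nonneg fun p _ => sq_nonneg _

end TreeAux

open TreeAux in
theorem tree_pos {n D d : ℕ} {K : Matrix (Fin n × Fin d) (Fin n × Fin d) ℂ} (hK : K.IsHermitian)
    (h0 : ∀ v, 0 ≤ qf K v) (h1 : ∀ v, qf K v ≤ ∑ i, ‖v i‖ ^ 2)
    (f : FreeGroup (Gn n D) → Fin D × Fin d → ℂ) (hf : (Function.support f).Finite) :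
    0 ≤ (ip f (op (gz FreeGroup.of) (gM K) f)).re := by
  classical
  have fin : ∀ ψ : FreeGroup (Gn n D) → ℝ, (∀ x, f x = 0 → ψ x = 0) →
      (Function.support ψ).Finite := by
    intro ψ hψ
    refine hf.subset fun x hx => ?_
    intro h'
    exact hx (hψ x h')
  have sm : ∀ ψ : FreeGroup (Gn n D) → ℝ, (∀ x, f x = 0 → ψ x = 0) → Summable ψ :=
    fun ψ hψ => summable_of_finite_support (fin ψ hψ)
  -- the real part
  have e1 : (ip f (op (gz FreeGroup.of) (gM K) f)).re =
      ∑' x, (∑ p, star (f x p) * op (gz FreeGroup.of) (gM K) f x p).re := by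
    unfold ip
    refine Complex.re_tsum (summable_of_finite_support (hf.subset fun x hx => ?_))
    intro h'
    refine hx (Finset.sum_eq_zero fun p _ => ?_)
    rw [h', Pi.zero_apply, star_zero, zero_mul]
  rw [e1]
  simp only [theta]
  -- the three sums
  set N : FreeGroup (Gn n D) → ℝ := fun x => ∑ p, ‖f x p‖ ^ 2 with hN
  set A : FreeGroup (Gn n D) → ℝ := fun x => ∑ i : Fin n, ∑ s : Fin D, qf K (E (i, s, 0) (f x))
    with hA
  set T : Gn n D → FreeGroup (Gn n D) → ℝ := fun g x => ∑ g' : Gn n D,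
    (S K (E g (f x)) (E g' (f ((FreeGroup.of g')⁻¹ * (FreeGroup.of g * x))))).re with hT
  have sN : Summable N := by
    refine sm N fun x hx => ?_
    simp [hN, hx]
  have sA : Summable A := by
    refine sm A fun x hx => ?_
    simp only [hA, hx, E_zero, qf_zero]
    simp
  have fT : ∀ g, (Function.support (T g)).Finite := by
    intro g
    refine fin _ fun x hx => ?_
    simp only [hT, hx, E_zero, S_zero_left, Complex.zero_re]
    simp
  obtain ⟨t1, t2, t3⟩ := swap T fT
  have e2 : ∑' x, ((D : ℝ) * N x - 1 / 4 * A x + 1 / 2 * ∑ g, T g x) =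
      (D : ℝ) * ∑' x, N x - 1 / 4 * ∑' x, A x + 1 / 2 * ∑' x, ∑ g, T g x := by
    rw [((sN.mul_left (D : ℝ)).sub (sA.mul_left (1 / 4))).tsum_add (t2.mul_left (1 / 2)),
      (sN.mul_left (D : ℝ)).tsum_sub (sA.mul_left (1 / 4)), tsum_mul_left, tsum_mul_left,
      tsum_mul_left]
  have e3 : ∀ w, ∑ g, T g ((FreeGroup.of g)⁻¹ * w) = qf K (X1 f w + X2 f w) := by
    intro w
    rw [X_add, qf_eq, S_sum_left, Complex.re_sum]
    refine Finset.sum_congr rfl fun g _ => ?_
    rw [S_sum_right, Complex.re_sum]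
    simp only [hT, mul_inv_cancel_left]
  set P : Gn n D → FreeGroup (Gn n D) → ℝ := fun g x =>
    if Beg g (FreeGroup.of g * x) then qf K (E g (f x)) else 0 with hP
  set Q : Gn n D → FreeGroup (Gn n D) → ℝ := fun g x =>
    if Beg g (FreeGroup.of g * x) then 0 else ∑ k, ‖f x (g.2.1, k)‖ ^ 2 with hQ
  have fP : ∀ g, (Function.support (P g)).Finite := by
    intro g
    refine fin _ fun x hx => ?_
    simp only [hP, hx, E_zero, qf_zero]
    simp
  have fQ : ∀ g, (Function.support (Q g)).Finite := by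
    intro g
    refine fin _ fun x hx => ?_
    simp only [hQ, hx]
    simp
  obtain ⟨p1, p2, p3⟩ := swap P fP
  obtain ⟨q1, q2, q3⟩ := swap Q fQ
  have e4 : ∀ w, 1 / 2 * ∑ g, P g ((FreeGroup.of g)⁻¹ * w) -
      2 * (D : ℝ) * ∑ g, Q g ((FreeGroup.of g)⁻¹ * w) ≤ ∑ g, T g ((FreeGroup.of g)⁻¹ * w) := by
    intro w
    rw [e3]
    have i1 := qf_split h0 (X1 f w) (X2 f w)
    have i2 := (h1 (X2 f w)).trans (X2_le f w)
    rw [qf_X1] at i1
    simp only [hP, hQ, mul_inv_cancel_left]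
    linarith
  have e5 : 1 / 2 * ∑' x, ∑ g, P g x - 2 * (D : ℝ) * ∑' x, ∑ g, Q g x ≤ ∑' x, ∑ g, T g x := by
    rw [← p3, ← q3, ← t3, ← tsum_mul_left, ← tsum_mul_left,
      ← (p1.mul_left (1 / 2)).tsum_sub (q1.mul_left (2 * (D : ℝ)))]
    exact Summable.tsum_le_tsum e4 ((p1.mul_left (1 / 2)).sub (q1.mul_left (2 * (D : ℝ)))) t1
  have e6 : ∑' x, A x ≤ ∑' x, ∑ g, P g x :=
    Summable.tsum_le_tsum (fun x => sum_beg h0 (f x) x) sA p2
  have e7 : ∑' x, ∑ g, Q g x ≤ ∑' x, N x :=
    Summable.tsum_le_tsum (fun x => sum_nbeg (f x) x) q2 sN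
  have e8 : (D : ℝ) * ∑' x, ∑ g, Q g x ≤ (D : ℝ) * ∑' x, N x :=
    mul_le_mul_of_nonneg_left e7 (Nat.cast_nonneg D)
  refine le_of_le_of_eq ?_ e2.symm
  linarith

end Pool.Agent.Lib.EJS.TS
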