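import Pool.Agent.Lib.EJS.TSKer
import Pool.Agent.Lib.EJS.TSTree
import Pool.Agent.Lib.EJS.TSRF
import Pool.Agent.Lib.EJS.TSPsi

/-!
# TS6: back to the algebra
-/

open scoped ComplexOrder

namespace Pool.Agent.Lib.EJS.TS

variable {A : Type*} [CStarAlgebra A]

/-! ### inequalities in the algebra -/

section ineq

variable [PartialOrder A] [StarOrderedRing A]

theorem tsb_pair {a b e : A} {κ : ℝ} (hκ : 0 < κ) (he : ‖e‖ ≤ κ) :
    star a * e * b + star b * star e * a ≤ κ • (star a * a + star b * b) := by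
  have h1 : star e * e ≤ algebraMap ℝ A (κ ^ 2) :=
    (CStarAlgebra.star_mul_le_algebraMap_norm_sq (a := e)).trans
      (algebraMap_mono A (pow_le_pow_left₀ (norm_nonneg e) he 2))
  have h2 := star_left_conjugate_le_conjugate h1 b
  have h3 : star b * algebraMap ℝ A (κ ^ 2) * b = κ ^ 2 • (star b * b) := by
    rw [Algebra.algebraMap_eq_smul_one, mul_smul_comm, mul_one, smul_mul_assoc]
  rw [h3] at h2
  have h4 : 0 ≤ star (κ • a - e * b) * (κ • a - e * b) := star_mul_self_nonneg _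
  have h5 : star (κ • a - e * b) * (κ • a - e * b) =
      κ ^ 2 • (star a * a) - κ • (star a * e * b + star b * star e * a) +
        star b * (star e * e) * b := by
    rw [star_sub, star_smul, star_mul, star_trivial]
    simp only [sub_mul, mul_sub, smul_mul_assoc, mul_smul_comm, mul_assoc]
    module
  rw [h5] at h4
  have h6 : κ • (star a * e * b + star b * star e * a) ≤ κ • (κ • (star a * a + star b * b)) := by
    have h7 : κ • (κ • (star a * a + star b * b)) = κ ^ 2 • (star a * a) + κ ^ 2 • (star b * b) := by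
      rw [smul_smul, smul_add, pow_two]
    rw [h7]
    have h8 : 0 ≤ κ ^ 2 • (star a * a) - κ • (star a * e * b + star b * star e * a) +
        κ ^ 2 • (star b * b) := h4.trans (add_le_add_right h2 _)
    have h9 := sub_nonneg.1 (le_of_le_of_eq h8 (by abel :
      κ ^ 2 • (star a * a) - κ • (star a * e * b + star b * star e * a) + κ ^ 2 • (star b * b) =
      (κ ^ 2 • (star a * a) + κ ^ 2 • (star b * b)) -
        κ • (star a * e * b + star b * star e * a)))
    exact h9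
  exact le_of_smul_le_smul_left h6 hκ

theorem tsb_err {Γ : Type*} [Fintype Γ] (h : Γ → A) (e : Γ → Γ → A)
    (he : ∀ g g', star (e g g') = e g' g) {κ : ℝ} (hκ : 0 < κ) (hn : ∀ g g', ‖e g g'‖ ≤ κ) :
    ∑ g, ∑ g', star (h g) * e g g' * h g' ≤
      (κ * Fintype.card Γ) • ∑ g, star (h g) * h g := by
  have h1 : ∀ g g', star (h g) * e g g' * h g' + star (h g') * e g' g * h g ≤
      κ • (star (h g) * h g + star (h g') * h g') := by
    intro g g'
    have := tsb_pair (a := h g) (b := h g') hκ (hn g g')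
    rwa [he] at this
  have h2 : ∑ g, ∑ g', (star (h g) * e g g' * h g' + star (h g') * e g' g * h g) ≤
      ∑ g, ∑ g', κ • (star (h g) * h g + star (h g') * h g') :=
    Finset.sum_le_sum fun g _ => Finset.sum_le_sum fun g' _ => h1 g g'
  have h3 : ∑ g, ∑ g', (star (h g) * e g g' * h g' + star (h g') * e g' g * h g) =
      (2 : ℝ) • ∑ g, ∑ g', star (h g) * e g g' * h g' := by
    simp only [Finset.sum_add_distrib]
    rw [Finset.sum_comm (f := fun g g' => star (h g') * e g' g * h g), two_smul]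
  have h4 : ∑ g, ∑ g', κ • (star (h g) * h g + star (h g') * h g') =
      (2 : ℝ) • ((κ * Fintype.card Γ) • ∑ g, star (h g) * h g) := by
    have h5 : ∑ _g : Γ, ∑ g', star (h g') * h g' =
        (Fintype.card Γ : ℝ) • ∑ g, star (h g) * h g := by
      rw [Finset.sum_const, Finset.card_univ, Nat.cast_smul_eq_nsmul]
    have h6 : ∑ g, ∑ _g' : Γ, star (h g) * h g =
        (Fintype.card Γ : ℝ) • ∑ g, star (h g) * h g := by
      rw [Finset.sum_comm]
      exact h5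
    have h7 : ∑ g, ∑ g', κ • (star (h g) * h g + star (h g') * h g') =
        κ • (∑ g, ∑ _g' : Γ, star (h g) * h g + ∑ _g : Γ, ∑ g', star (h g') * h g') := by
      rw [← Finset.sum_add_distrib, Finset.smul_sum]
      refine Finset.sum_congr rfl fun g _ => ?_
      rw [← Finset.sum_add_distrib, Finset.smul_sum]
    rw [h7, h5, h6]
    module
  rw [h3, h4] at h2
  exact le_of_smul_le_smul_left h2 two_pos

theorem tsb_conj_le {m : A} {κ : ℝ} (hm : m ≤ algebraMap ℝ A κ) (f : A) :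
    star f * m * f ≤ κ • (star f * f) := by
  have h1 := star_left_conjugate_le_conjugate hm f
  rwa [Algebra.algebraMap_eq_smul_one, mul_smul_comm, mul_one, smul_mul_assoc] at h1

end ineq

/-! ### expansions -/

section expand

variable {Q : Type} [Group Q] [Fintype Q] [DecidableEq Q] {n D d : ℕ}

theorem tsb_collapse (f : Q × Fin D → A) (m : A) (a b : Q) (s s' : Fin D) :
    ∑ X, ∑ Y, star (f X) * (if b⁻¹ * (a * X.1) = Y.1 ∧ X.2 = s ∧ Y.2 = s' then m else 0) * f Y =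
      ∑ w, star (f (a⁻¹ * w, s)) * m * f (b⁻¹ * w, s') := by
  rw [Fintype.sum_prod_type]
  have h1 : ∀ x : Q, ∑ t : Fin D, ∑ Y : Q × Fin D, star (f (x, t)) *
      (if b⁻¹ * (a * x) = Y.1 ∧ t = s ∧ Y.2 = s' then m else 0) * f Y =
      star (f (x, s)) * m * f (b⁻¹ * (a * x), s') := by
    intro x
    rw [Finset.sum_eq_single s, Finset.sum_eq_single (b⁻¹ * (a * x), s')]
    · simp
    · intro Y _ hY
      rw [if_neg, mul_zero, zero_mul]
      rintro ⟨h1, -, h2⟩
      exact hY (Prod.ext h1.symm h2)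
    · intro h
      exact absurd (Finset.mem_univ _) h
    · intro t _ ht
      refine Finset.sum_eq_zero fun Y _ => ?_
      rw [if_neg fun h => ht h.2.1, mul_zero, zero_mul]
    · intro h
      exact absurd (Finset.mem_univ _) h
  rw [Finset.sum_congr rfl fun x _ => h1 x]
  rw [← Equiv.sum_comp (Equiv.mulLeft a⁻¹)]
  refine Finset.sum_congr rfl fun w _ => ?_
  simp

omit [Group Q] in
theorem tsb_diag (f : Q × Fin D → A) (m : A) :
    ∑ X, ∑ Y, star (f X) * (if X = Y then m else 0) * f Y = ∑ X, star (f X) * m * f X := by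
  refine Finset.sum_congr rfl fun X _ => ?_
  rw [Finset.sum_eq_single X]
  · rw [if_pos rfl]
  · intro Y _ hY
    rw [if_neg (Ne.symm hY), mul_zero, zero_mul]
  · intro h
    exact absurd (Finset.mem_univ _) h

/-- the entries of a matrix -/
def tsbEnt (k l : Fin d) : Mat d →ₗ[ℂ] ℂ where
  toFun m := m k l
  map_add' _ _ := rfl
  map_smul' _ _ := rfl

omit [Fintype Q] in
theorem tsb_blk (φ : A →ₗ[ℂ] Mat d) (c : Fin n → A) (γ : Gn n D → Q) (X Y : Q × Fin D) :
    blk (fun a b => opM (gz γ) (gM (kerK φ c)) (a.1.1, (a.1.2, a.2)) (b.1.1, (b.1.2, b.2))) X Y =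
      (∑ g : Gn n D, ∑ g' : Gn n D,
        if (γ g')⁻¹ * (γ g * X.1) = Y.1 ∧ X.2 = g.2.1 ∧ Y.2 = g'.2.1 then
          (1 / 2 : ℂ) • φ (star (c g.1) * c g'.1) else 0) +
      if X = Y then (D : ℂ) • 1 - (1 / 4 : ℂ) • φ (∑ i, star (c i) * c i) else 0 := by
  refine CStarMatrix.ext fun k l => ?_
  have h1 : ((∑ g : Gn n D, ∑ g' : Gn n D,
        if (γ g')⁻¹ * (γ g * X.1) = Y.1 ∧ X.2 = g.2.1 ∧ Y.2 = g'.2.1 then
          (1 / 2 : ℂ) • φ (star (c g.1) * c g'.1) else 0) +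
      if X = Y then (D : ℂ) • 1 - (1 / 4 : ℂ) • φ (∑ i, star (c i) * c i) else 0 : Mat d) k l =
      tsbEnt k l (∑ g : Gn n D, ∑ g' : Gn n D,
        if (γ g')⁻¹ * (γ g * X.1) = Y.1 ∧ X.2 = g.2.1 ∧ Y.2 = g'.2.1 then
          (1 / 2 : ℂ) • φ (star (c g.1) * c g'.1) else 0) +
      tsbEnt k l (if X = Y then (D : ℂ) • 1 - (1 / 4 : ℂ) • φ (∑ i, star (c i) * c i) else 0) := rfl
  rw [h1]
  have h2 : blk (fun a b => opM (gz γ) (gM (kerK φ c)) (a.1.1, (a.1.2, a.2))
      (b.1.1, (b.1.2, b.2))) X Y k l =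
      ∑ t, if (gz γ t)⁻¹ * X.1 = Y.1 then gM (kerK φ c) t (X.2, k) (Y.2, l) else 0 := rfl
  rw [h2, Fintype.sum_option, Fintype.sum_prod_type, add_comm]
  congr 1
  · rw [map_sum]
    refine Finset.sum_congr rfl fun g _ => ?_
    rw [map_sum]
    refine Finset.sum_congr rfl fun g' _ => ?_
    have h3 : (gz γ (some (g, g')))⁻¹ * X.1 = (γ g')⁻¹ * (γ g * X.1) := by
      simp only [gz]
      group
    rw [h3]
    by_cases h4 : (γ g')⁻¹ * (γ g * X.1) = Y.1
    · by_cases h5 : X.2 = g.2.1 ∧ Y.2 = g'.2.1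
      · rw [if_pos h4, if_pos ⟨h4, h5⟩]
        simp only [gM]
        rw [if_pos h5]
        rfl
      · rw [if_pos h4, if_neg fun h => h5 h.2, map_zero]
        simp only [gM]
        rw [if_neg h5]
    · rw [if_neg h4, if_neg fun h => h4 h.1, map_zero]
  · have h3 : (gz γ (none : Option (Gn n D × Gn n D)))⁻¹ * X.1 = X.1 := by
      simp [gz]
    rw [h3]
    by_cases h4 : X.1 = Y.1
    · by_cases h5 : X.2 = Y.2
      · rw [if_pos h4, if_pos (Prod.ext h4 h5)]
        simp only [gM]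
        rw [if_pos h5, map_sub, map_smul, map_smul, map_sum, map_sum]
        have h6 : tsbEnt k l (1 : Mat d) = if k = l then 1 else 0 := CStarMatrix.one_apply
        rw [h6]
        congr 1
        by_cases h7 : k = l
        · rw [if_pos h7, if_pos h7, smul_eq_mul, mul_one]
        · rw [if_neg h7, if_neg h7, smul_zero]
      · rw [if_pos h4, if_neg fun h => h5 (congrArg Prod.snd h), map_zero]
        simp only [gM]
        rw [if_neg h5]
    · rw [if_neg h4, if_neg fun h => h4 (congrArg Prod.fst h), map_zero]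

omit [Group Q] [DecidableEq Q] in
theorem tsb_push {I : Type*} [Fintype I] (f : Q × Fin D → A) (m : I → Q × Fin D → Q × Fin D → A) :
    ∑ X, ∑ Y, star (f X) * (∑ i, m i X Y) * f Y = ∑ i, ∑ X, ∑ Y, star (f X) * m i X Y * f Y := by
  calc ∑ X, ∑ Y, star (f X) * (∑ i, m i X Y) * f Y
      = ∑ X, ∑ Y, ∑ i, star (f X) * m i X Y * f Y := by
        refine Finset.sum_congr rfl fun X _ => Finset.sum_congr rfl fun Y _ => ?_
        rw [Finset.mul_sum, Finset.sum_mul]
    _ = ∑ X, ∑ i, ∑ Y, star (f X) * m i X Y * f Y :=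
        Finset.sum_congr rfl fun X _ => Finset.sum_comm
    _ = ∑ i, ∑ X, ∑ Y, star (f X) * m i X Y * f Y := Finset.sum_comm

theorem tsb_expand (ψ : Mat d →ₗ[ℂ] A) (φ : A →ₗ[ℂ] Mat d) (c : Fin n → A) (γ : Gn n D → Q)
    (f : Q × Fin D → A) :
    ∑ X, ∑ Y, star (f X) * ψ (blk (fun a b => opM (gz γ) (gM (kerK φ c)) (a.1.1, (a.1.2, a.2))
      (b.1.1, (b.1.2, b.2))) X Y) * f Y =
      (1 / 2 : ℝ) • (∑ w, ∑ g : Gn n D, ∑ g' : Gn n D, star (f ((γ g)⁻¹ * w, g.2.1)) *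
        ψ (φ (star (c g.1) * c g'.1)) * f ((γ g')⁻¹ * w, g'.2.1)) +
      ∑ X, star (f X) * ((D : ℝ) • ψ 1 - (1 / 4 : ℝ) • ψ (φ (∑ i, star (c i) * c i))) * f X := by
  have h1 : ∀ X Y : Q × Fin D, ψ (blk (fun a b => opM (gz γ) (gM (kerK φ c)) (a.1.1, (a.1.2, a.2))
      (b.1.1, (b.1.2, b.2))) X Y) =
      (∑ g : Gn n D, ∑ g' : Gn n D,
        if (γ g')⁻¹ * (γ g * X.1) = Y.1 ∧ X.2 = g.2.1 ∧ Y.2 = g'.2.1 then
          (1 / 2 : ℝ) • ψ (φ (star (c g.1) * c g'.1)) else 0) +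
      if X = Y then (D : ℝ) • ψ 1 - (1 / 4 : ℝ) • ψ (φ (∑ i, star (c i) * c i)) else 0 := by
    intro X Y
    rw [tsb_blk, map_add, map_sum]
    congr 1
    · refine Finset.sum_congr rfl fun g _ => ?_
      rw [map_sum]
      refine Finset.sum_congr rfl fun g' _ => ?_
      split_ifs
      · rw [map_smul, ← Complex.coe_smul]
        norm_num
      · rw [map_zero]
    · split_ifs
      · rw [map_sub, map_smul, map_smul, ← Complex.coe_smul, ← Complex.coe_smul]
        norm_num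
      · rw [map_zero]
  have h2 : ∀ X Y : Q × Fin D, star (f X) * ψ (blk (fun a b => opM (gz γ) (gM (kerK φ c)) (a.1.1, (a.1.2, a.2))
      (b.1.1, (b.1.2, b.2))) X Y) * f Y =
      star (f X) * (∑ g : Gn n D, ∑ g' : Gn n D,
        if (γ g')⁻¹ * (γ g * X.1) = Y.1 ∧ X.2 = g.2.1 ∧ Y.2 = g'.2.1 then
          (1 / 2 : ℝ) • ψ (φ (star (c g.1) * c g'.1)) else 0) * f Y +
      star (f X) * (if X = Y then (D : ℝ) • ψ 1 - (1 / 4 : ℝ) •
        ψ (φ (∑ i, star (c i) * c i)) else 0) * f Y := by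
    intro X Y
    rw [h1, mul_add, add_mul]
  rw [Finset.sum_congr rfl fun X _ => Finset.sum_congr rfl fun Y _ => h2 X Y]
  simp only [Finset.sum_add_distrib]
  rw [tsb_diag, tsb_push]
  congr 1
  have h3 : ∀ g : Gn n D, ∑ X, ∑ Y, star (f X) * (∑ g' : Gn n D,
        if (γ g')⁻¹ * (γ g * X.1) = Y.1 ∧ X.2 = g.2.1 ∧ Y.2 = g'.2.1 then
          (1 / 2 : ℝ) • ψ (φ (star (c g.1) * c g'.1)) else 0) * f Y =
      ∑ g' : Gn n D, ∑ w, star (f ((γ g)⁻¹ * w, g.2.1)) *
        ((1 / 2 : ℝ) • ψ (φ (star (c g.1) * c g'.1))) * f ((γ g')⁻¹ * w, g'.2.1) := by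
    intro g
    rw [tsb_push f (fun g' X Y => if (γ g')⁻¹ * (γ g * X.1) = Y.1 ∧ X.2 = g.2.1 ∧ Y.2 = g'.2.1 then
          (1 / 2 : ℝ) • ψ (φ (star (c g.1) * c g'.1)) else 0)]
    exact Finset.sum_congr rfl fun g' _ => tsb_collapse f _ (γ g) (γ g') g.2.1 g'.2.1
  rw [Finset.sum_congr rfl fun g _ => h3 g, Finset.smul_sum]
  have h4 : ∀ w : Q, (1 / 2 : ℝ) • ∑ g : Gn n D, ∑ g' : Gn n D, star (f ((γ g)⁻¹ * w, g.2.1)) *
        ψ (φ (star (c g.1) * c g'.1)) * f ((γ g')⁻¹ * w, g'.2.1) =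
      ∑ g : Gn n D, ∑ g' : Gn n D, star (f ((γ g)⁻¹ * w, g.2.1)) *
        ((1 / 2 : ℝ) • ψ (φ (star (c g.1) * c g'.1))) * f ((γ g')⁻¹ * w, g'.2.1) := by
    intro w
    rw [Finset.smul_sum]
    refine Finset.sum_congr rfl fun g _ => ?_
    rw [Finset.smul_sum]
    refine Finset.sum_congr rfl fun g' _ => ?_
    rw [mul_smul_comm, smul_mul_assoc]
  rw [Finset.sum_congr rfl fun w _ => h4 w]
  exact (Finset.sum_congr rfl fun g _ => Finset.sum_comm).trans Finset.sum_comm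

omit [DecidableEq Q] in
theorem tsb_count (γ : Gn n D → Q) (f : Q × Fin D → A) :
    ∑ w, ∑ g : Gn n D, star (f ((γ g)⁻¹ * w, g.2.1)) * f ((γ g)⁻¹ * w, g.2.1) =
      (2 * n : ℝ) • ∑ X, star (f X) * f X := by
  rw [Finset.sum_comm]
  have h1 : ∀ g : Gn n D, ∑ w, star (f ((γ g)⁻¹ * w, g.2.1)) * f ((γ g)⁻¹ * w, g.2.1) =
      ∑ x, star (f (x, g.2.1)) * f (x, g.2.1) := by
    intro g
    exact Equiv.sum_comp (Equiv.mulLeft (γ g)⁻¹) (fun x => star (f (x, g.2.1)) * f (x, g.2.1))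
  rw [Finset.sum_congr rfl fun g _ => h1 g, Fintype.sum_prod_type]
  have h2 : ∀ i : Fin n, ∑ y : Fin D × Fin 2, ∑ x, star (f (x, ((i, y) : Gn n D).2.1)) *
      f (x, ((i, y) : Gn n D).2.1) = (2 : ℝ) • ∑ X, star (f X) * f X := by
    intro i
    rw [Fintype.sum_prod_type, Fintype.sum_prod_type_right, Finset.smul_sum]
    refine Finset.sum_congr rfl fun s _ => ?_
    rw [Fin.sum_univ_two, two_smul]
  rw [Finset.sum_congr rfl fun i _ => h2 i, Finset.sum_const, Finset.card_univ, Fintype.card_fin,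
    ← Nat.cast_smul_eq_nsmul ℝ, smul_smul]
  congr 1
  ring

end expand

/-! ### the matrix with the rank one terms -/

section full

variable {Q : Type} [Fintype Q] [DecidableEq Q] {D d r : ℕ}

/-- the matrix `O + κ + ∑ ζ ζ*` -/
noncomputable def tsbN (O : Matrix (Q × Fin D × Fin d) (Q × Fin D × Fin d) ℂ) (κ : ℝ)
    (ζ : Fin r → Q × Fin D × Fin d → ℂ) : Matrix (Q × Fin D × Fin d) (Q × Fin D × Fin d) ℂ :=
  fun a b => O a b + (if a = b then (κ : ℂ) else 0) + ∑ l, ζ l a * star (ζ l b)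

theorem tsbN_qf (O : Matrix (Q × Fin D × Fin d) (Q × Fin D × Fin d) ℂ) (κ : ℝ)
    (ζ : Fin r → Q × Fin D × Fin d → ℂ) (v : Q × Fin D × Fin d → ℂ) :
    qf (tsbN O κ ζ) v = qf O v + κ * ∑ i, ‖v i‖ ^ 2 + ∑ l, ‖∑ i, star (ζ l i) * v i‖ ^ 2 := by
  unfold qf tsbN
  have h1 : ∀ a b, star (v a) * (O a b + (if a = b then (κ : ℂ) else 0) +
      ∑ l, ζ l a * star (ζ l b)) * v b = star (v a) * O a b * v b +
      star (v a) * (if a = b then (κ : ℂ) else 0) * v b +
      ∑ l, (star (v a) * ζ l a) * (star (ζ l b) * v b) := by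
    intro a b
    rw [mul_add, mul_add, add_mul, add_mul, Finset.mul_sum, Finset.sum_mul]
    congr 1
    refine Finset.sum_congr rfl fun l _ => ?_
    ring
  rw [Finset.sum_congr rfl fun a _ => Finset.sum_congr rfl fun b _ => h1 a b]
  simp only [Finset.sum_add_distrib, Complex.add_re]
  congr 1
  · congr 1
    have h2 : ∀ a, ∑ b, star (v a) * (if a = b then (κ : ℂ) else 0) * v b =
        ((κ * ‖v a‖ ^ 2 : ℝ) : ℂ) := by
      intro a
      rw [Finset.sum_eq_single a]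
      · rw [if_pos rfl]
        have h3 : star (v a) * v a = ((‖v a‖ ^ 2 : ℝ) : ℂ) := by
          rw [Complex.star_def, mul_comm, Complex.mul_conj, Complex.normSq_eq_norm_sq]
        rw [mul_comm (star (v a)) (κ : ℂ), mul_assoc, h3]
        push_cast
        ring
      · intro b _ hb
        rw [if_neg (Ne.symm hb), mul_zero, zero_mul]
      · intro h
        exact absurd (Finset.mem_univ _) h
    rw [Finset.sum_congr rfl fun a _ => h2 a, ← Complex.ofReal_sum, Complex.ofReal_re,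
      Finset.mul_sum]
  · have h2 : ∑ a, ∑ b, ∑ l, (star (v a) * ζ l a) * (star (ζ l b) * v b) =
        ∑ l, ((‖∑ i, star (ζ l i) * v i‖ ^ 2 : ℝ) : ℂ) := by
      calc ∑ a, ∑ b, ∑ l, (star (v a) * ζ l a) * (star (ζ l b) * v b)
          = ∑ a, ∑ l, ∑ b, (star (v a) * ζ l a) * (star (ζ l b) * v b) :=
            Finset.sum_congr rfl fun a _ => Finset.sum_comm
        _ = ∑ l, ∑ a, ∑ b, (star (v a) * ζ l a) * (star (ζ l b) * v b) := Finset.sum_comm
        _ = ∑ l, ((‖∑ i, star (ζ l i) * v i‖ ^ 2 : ℝ) : ℂ) := by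
            refine Finset.sum_congr rfl fun l _ => ?_
            have h3 : ∑ a, ∑ b, (star (v a) * ζ l a) * (star (ζ l b) * v b) =
                star (∑ i, star (ζ l i) * v i) * (∑ i, star (ζ l i) * v i) := by
              rw [star_sum, Finset.sum_mul]
              refine Finset.sum_congr rfl fun a _ => ?_
              rw [Finset.mul_sum]
              refine Finset.sum_congr rfl fun b _ => ?_
              rw [star_mul', star_star, mul_comm (ζ l a)]
            rw [h3, Complex.star_def, mul_comm, Complex.mul_conj, Complex.normSq_eq_norm_sq]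
    rw [h2, ← Complex.ofReal_sum, Complex.ofReal_re]

theorem tsbN_herm {O : Matrix (Q × Fin D × Fin d) (Q × Fin D × Fin d) ℂ} (hO : O.IsHermitian)
    (κ : ℝ) (ζ : Fin r → Q × Fin D × Fin d → ℂ) : (tsbN O κ ζ).IsHermitian := by
  refine Matrix.IsHermitian.ext fun a b => ?_
  unfold tsbN
  rw [star_add, star_add, hO.apply a b, star_sum]
  congr 1
  · congr 1
    by_cases h : a = b
    · rw [if_pos h, if_pos h.symm, Complex.star_def, Complex.conj_ofReal]
    · rw [if_neg h, if_neg (Ne.symm h), star_zero]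
  · refine Finset.sum_congr rfl fun l _ => ?_
    rw [star_mul', star_star, mul_comm]

/-- the reindexed matrix -/
noncomputable def tsbR (O : Matrix (Q × Fin D × Fin d) (Q × Fin D × Fin d) ℂ) :
    Matrix ((Q × Fin D) × Fin d) ((Q × Fin D) × Fin d) ℂ :=
  fun a b => O (a.1.1, (a.1.2, a.2)) (b.1.1, (b.1.2, b.2))

theorem tsbR_qf (O : Matrix (Q × Fin D × Fin d) (Q × Fin D × Fin d) ℂ)
    (v : (Q × Fin D) × Fin d → ℂ) : qf (tsbR O) v = qf O (fun a => v ((a.1, a.2.1), a.2.2)) := by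
  unfold qf tsbR
  congr 1
  rw [← Equiv.sum_comp (Equiv.prodAssoc Q (Fin D) (Fin d))]
  refine Finset.sum_congr rfl fun a _ => ?_
  rw [← Equiv.sum_comp (Equiv.prodAssoc Q (Fin D) (Fin d))]
  rfl

theorem tsbR_herm {O : Matrix (Q × Fin D × Fin d) (Q × Fin D × Fin d) ℂ} (hO : O.IsHermitian) :
    (tsbR O).IsHermitian := by
  refine Matrix.IsHermitian.ext fun a b => ?_
  exact hO.apply _ _

theorem tsb_blkN (O : Matrix (Q × Fin D × Fin d) (Q × Fin D × Fin d) ℂ) (κ : ℝ)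
    (ζ : Fin r → Q × Fin D × Fin d → ℂ) (X Y : Q × Fin D) :
    blk (tsbR (tsbN O κ ζ)) X Y = blk (tsbR O) X Y + (if X = Y then (κ : ℂ) • (1 : Mat d) else 0) +
      ∑ l, CStarMatrix.ofMatrix (fun k l' => ζ l (X.1, (X.2, k)) * star (ζ l (Y.1, (Y.2, l')))) := by
  refine CStarMatrix.ext fun k l' => ?_
  have h1 : (blk (tsbR O) X Y + (if X = Y then (κ : ℂ) • (1 : Mat d) else 0) +
      ∑ l, CStarMatrix.ofMatrix (fun k l' => ζ l (X.1, (X.2, k)) *
        star (ζ l (Y.1, (Y.2, l')))) : Mat d) k l' =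
      blk (tsbR O) X Y k l' + tsbEnt k l' (if X = Y then (κ : ℂ) • (1 : Mat d) else 0) +
      tsbEnt k l' (∑ l, CStarMatrix.ofMatrix (fun k l' => ζ l (X.1, (X.2, k)) *
        star (ζ l (Y.1, (Y.2, l'))))) := rfl
  rw [h1, map_sum]
  have h2 : blk (tsbR (tsbN O κ ζ)) X Y k l' = O (X.1, (X.2, k)) (Y.1, (Y.2, l')) +
      (if ((X.1, (X.2, k)) : Q × Fin D × Fin d) = (Y.1, (Y.2, l')) then (κ : ℂ) else 0) +
      ∑ l, ζ l (X.1, (X.2, k)) * star (ζ l (Y.1, (Y.2, l'))) := rfl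
  rw [h2]
  have h3 : (if ((X.1, (X.2, k)) : Q × Fin D × Fin d) = (Y.1, (Y.2, l')) then (κ : ℂ) else 0) =
      tsbEnt k l' (if X = Y then (κ : ℂ) • (1 : Mat d) else 0) := by
    by_cases h : X = Y
    · subst h
      rw [if_pos rfl, map_smul]
      have h6 : tsbEnt k l' (1 : Mat d) = if k = l' then 1 else 0 := CStarMatrix.one_apply
      rw [h6]
      by_cases h7 : k = l'
      · rw [if_pos h7, h7, if_pos rfl, smul_eq_mul, mul_one]
      · rw [if_neg h7, if_neg, smul_zero]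
        intro h8
        exact h7 (congrArg (fun z : Q × Fin D × Fin d => z.2.2) h8)
    · rw [if_neg h, if_neg, map_zero]
      intro h8
      exact h (Prod.ext (congrArg (fun z : Q × Fin D × Fin d => z.1) h8)
        (congrArg (fun z : Q × Fin D × Fin d => z.2.1) h8))
  rw [h3]
  rfl

end full

/-! ### the rows -/

section rows

variable {Q : Type} [Group Q] [Fintype Q] [DecidableEq Q] {n D d r : ℕ}

/-- the rows of the result -/
noncomputable def tsbG (c : Fin n → A) (γ : Gn n D → Q) (ζ : Fin r → Q × Fin D × Fin d → ℂ) :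
    Q ⊕ (Fin r × Fin d) → Fin D × Q → A :=
  Sum.elim (fun w k => ∑ g : Gn n D, if (γ g)⁻¹ * w = k.2 ∧ g.2.1 = k.1 then
      ((√2)⁻¹ : ℝ) • c g.1 else 0)
    (fun p k => (√d : ℝ) • algebraMap ℂ A (star (ζ p.1 (k.2, (k.1, p.2)))))

theorem tsbG_inl (c : Fin n → A) (γ : Gn n D → Q) (ζ : Fin r → Q × Fin D × Fin d → ℂ)
    (f : Fin D × Q → A) (w : Q) :
    ∑ k, tsbG c γ ζ (Sum.inl w) k * f k =
      ((√2)⁻¹ : ℝ) • ∑ g : Gn n D, c g.1 * f (g.2.1, (γ g)⁻¹ * w) := by
  have h1 : ∀ k, tsbG c γ ζ (Sum.inl w) k * f k =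
      ∑ g : Gn n D, (if (γ g)⁻¹ * w = k.2 ∧ g.2.1 = k.1 then ((√2)⁻¹ : ℝ) • c g.1 else 0) * f k := by
    intro k
    show (∑ g : Gn n D, if (γ g)⁻¹ * w = k.2 ∧ g.2.1 = k.1 then
      ((√2)⁻¹ : ℝ) • c g.1 else 0) * f k = _
    rw [Finset.sum_mul]
  rw [Finset.sum_congr rfl fun k _ => h1 k, Finset.sum_comm, Finset.smul_sum]
  refine Finset.sum_congr rfl fun g _ => ?_
  rw [Finset.sum_eq_single (g.2.1, (γ g)⁻¹ * w)]
  · rw [if_pos ⟨rfl, rfl⟩, smul_mul_assoc]
  · intro k _ hk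
    rw [if_neg, zero_mul]
    rintro ⟨h2, h3⟩
    exact hk (Prod.ext h3.symm h2.symm)
  · intro h
    exact absurd (Finset.mem_univ _) h

omit [Group Q] [DecidableEq Q] in
theorem tsb_swap {B : Type*} [AddCommMonoid B] (F : Fin D × Q → B) :
    ∑ k, F k = ∑ X : Q × Fin D, F (X.2, X.1) :=
  (Equiv.sum_comp (Equiv.prodComm Q (Fin D)) F).symm

theorem tsbG_inr (c : Fin n → A) (γ : Gn n D → Q) (ζ : Fin r → Q × Fin D × Fin d → ℂ)
    (f : Fin D × Q → A) (p : Fin r × Fin d) :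
    ∑ k, tsbG c γ ζ (Sum.inr p) k * f k =
      (√d : ℝ) • ∑ X : Q × Fin D, star (ζ p.1 (X.1, (X.2, p.2))) • f (X.2, X.1) := by
  rw [tsb_swap, Finset.smul_sum]
  refine Finset.sum_congr rfl fun X _ => ?_
  show ((√d : ℝ) • algebraMap ℂ A (star (ζ p.1 (X.1, (X.2, p.2))))) * f (X.2, X.1) = _
  rw [smul_mul_assoc, Algebra.algebraMap_eq_smul_one, smul_mul_assoc, one_mul]

end rows

theorem tsb_smul_sq (t : ℝ) (u : A) : star (t • u) * (t • u) = (t * t) • (star u * u) := by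
  rw [star_smul, star_trivial, smul_mul_smul_comm]

theorem ts6 [PartialOrder A] [StarOrderedRing A] (hA : IsNuclear A) {n : ℕ} (c : Fin n → A)
    (hc : ∑ i, c i * star (c i) ≤ 1) (D : ℕ) {κ : ℝ} (hκ : 0 < κ) :
    ∃ (Q R : Type) (_ : Fintype Q) (_ : Fintype R) (_ : DecidableEq Q) (G : R → Fin D × Q → A),
      0 < Fintype.card Q ∧ Fintype.card R ≤ 2 * Fintype.card Q ∧ ∀ f : Fin D × Q → A,
        ∑ k, star (f k) * ((1 / 4 : ℝ) • (∑ i, star (c i) * c i) - algebraMap ℝ A (D + κ)) * f k ≤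
          ∑ r, star (∑ k, G r k * f k) * (∑ k, G r k * f k) := by
  classical
  set S : A := ∑ i, star (c i) * c i with hS
  set g0 : ℝ := (Fintype.card (Gn n D) : ℝ) with hg0
  have hg0' : 0 ≤ g0 := Nat.cast_nonneg _
  set κ' : ℝ := κ / (2 * (g0 * n + 1)) with hκ'
  have hκ'pos : 0 < κ' := by positivity
  let F : Finset A := (Finset.univ.image fun p : Fin n × Fin n => star (c p.1) * c p.2) ∪ {S}
  obtain ⟨d, φ, ψ, hφ, hψ, hφ1, hψ1, happ⟩ := hA F κ' hκ'pos
  obtain ⟨h0, h1, hK⟩ := ker_facts hφ hφ1 hc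
  obtain ⟨Q, iG, iF, iD, π, r, ζ, hr, hherm, hq⟩ := rf_main (z := gz FreeGroup.of)
    (M := gM (D := D) (kerK φ c)) (σ := gσ) (gz_σ _) (gM_σ hK) (tree_pos hK h0 h1) (κ := κ / 2)
    (ρ := 1 / (d + 1)) (by positivity) (by positivity)
  set γ : Gn n D → Q := fun g => π (FreeGroup.of g) with hγ
  have hz : (fun t => π (gz FreeGroup.of t)) = gz γ := by
    funext t
    rcases t with _ | ⟨g, g'⟩
    · simp [gz]
    · simp [gz, hγ]
  rw [hz] at hherm hq
  refine ⟨Q, Q ⊕ (Fin r × Fin d), iF, inferInstance, iD, tsbG c γ ζ, Fintype.card_pos_iff.2 ⟨1⟩,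
    ?_, ?_⟩
  · rw [Fintype.card_sum, Fintype.card_prod, Fintype.card_fin, Fintype.card_fin]
    have h2 : (r : ℝ) * (d + 1) ≤ Fintype.card Q := by
      have h3 : (0 : ℝ) < d + 1 := by positivity
      calc (r : ℝ) * (d + 1) ≤ 1 / (d + 1) * Fintype.card Q * (d + 1) :=
            mul_le_mul_of_nonneg_right hr h3.le
        _ = Fintype.card Q := by field_simp
    have h4 : r * (d + 1) ≤ Fintype.card Q := by exact_mod_cast h2
    have h5 : r * (d + 1) = r * d + r := by ring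
    omega
  intro f0
  set f : Q × Fin D → A := fun X => f0 (X.2, X.1) with hf
  set W : A := ∑ X, star (f X) * f X with hW
  have hW0 : 0 ≤ W := Finset.sum_nonneg fun X _ => star_mul_self_nonneg _
  set V : A := ∑ X, star (f X) * S * f X with hV
  set U : Q → A := fun w => ∑ g : Gn n D, c g.1 * f ((γ g)⁻¹ * w, g.2.1) with hU
  set Pl : Fin r → A := fun l => ∑ k : Fin d,
    star (∑ X : Q × Fin D, star (ζ l (X.1, (X.2, k))) • f X) *
      (∑ X : Q × Fin D, star (ζ l (X.1, (X.2, k))) • f X) with hPl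
  -- positivity
  have hΛ := psi_pos hψ (tsbR_herm (tsbN_herm hherm (κ / 2) ζ))
    (fun v => by rw [tsbR_qf, tsbN_qf]; exact hq _) f
  have hexp : ∑ X, ∑ Y, star (f X) * ψ (blk (tsbR (tsbN (opM (gz γ) (gM (kerK φ c))) (κ / 2) ζ))
      X Y) * f Y =
      (∑ X, ∑ Y, star (f X) * ψ (blk (tsbR (opM (gz γ) (gM (kerK φ c)))) X Y) * f Y) +
      (∑ X, star (f X) * ((κ / 2) • ψ 1) * f X) +
      ∑ l, ∑ X, ∑ Y, star (f X) * ψ (CStarMatrix.ofMatrix fun k l' =>
        ζ l (X.1, (X.2, k)) * star (ζ l (Y.1, (Y.2, l')))) * f Y := by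
    rw [← tsb_diag f ((κ / 2) • ψ 1), ← tsb_push f (fun l X Y => ψ (CStarMatrix.ofMatrix fun k l' =>
        ζ l (X.1, (X.2, k)) * star (ζ l (Y.1, (Y.2, l'))))), ← Finset.sum_add_distrib,
      ← Finset.sum_add_distrib]
    refine Finset.sum_congr rfl fun X _ => ?_
    rw [← Finset.sum_add_distrib, ← Finset.sum_add_distrib]
    refine Finset.sum_congr rfl fun Y _ => ?_
    rw [tsb_blkN, map_add, map_add, map_sum, mul_add, mul_add, add_mul, add_mul]
    congr 3
    by_cases hXY : X = Y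
    · rw [if_pos hXY, if_pos hXY, map_smul, ← Complex.coe_smul]
    · rw [if_neg hXY, if_neg hXY, map_zero]
  rw [hexp] at hΛ
  have hexp2 : ∑ X, ∑ Y, star (f X) * ψ (blk (tsbR (opM (gz γ) (gM (kerK φ c)))) X Y) * f Y =
      (1 / 2 : ℝ) • (∑ w, ∑ g : Gn n D, ∑ g' : Gn n D, star (f ((γ g)⁻¹ * w, g.2.1)) *
        ψ (φ (star (c g.1) * c g'.1)) * f ((γ g')⁻¹ * w, g'.2.1)) +
      ∑ X, star (f X) * ((D : ℝ) • ψ 1 - (1 / 4 : ℝ) • ψ (φ (∑ i, star (c i) * c i))) * f X :=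
    tsb_expand ψ φ c γ f
  rw [hexp2] at hΛ
  -- the first term
  have hmem : ∀ g g' : Gn n D, ‖ψ (φ (star (c g.1) * c g'.1)) - star (c g.1) * c g'.1‖ ≤ κ' := by
    intro g g'
    refine (happ _ ?_).le
    exact Finset.mem_union_left _ (Finset.mem_image.2 ⟨(g.1, g'.1), Finset.mem_univ _, rfl⟩)
  have hU1 : ∀ w, ∑ g : Gn n D, ∑ g' : Gn n D, star (f ((γ g)⁻¹ * w, g.2.1)) *
        ψ (φ (star (c g.1) * c g'.1)) * f ((γ g')⁻¹ * w, g'.2.1) ≤
      star (U w) * U w + (κ' * g0) • ∑ g : Gn n D,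
        star (f ((γ g)⁻¹ * w, g.2.1)) * f ((γ g)⁻¹ * w, g.2.1) := by
    intro w
    have h2 := tsb_err (fun g : Gn n D => f ((γ g)⁻¹ * w, g.2.1))
      (fun g g' => ψ (φ (star (c g.1) * c g'.1)) - star (c g.1) * c g'.1) (fun g g' => by
        rw [star_sub, ← cp_star hψ, ← cp_star hφ, star_mul, star_star]) hκ'pos hmem
    have h3 : ∑ g : Gn n D, ∑ g' : Gn n D, star (f ((γ g)⁻¹ * w, g.2.1)) *
        ψ (φ (star (c g.1) * c g'.1)) * f ((γ g')⁻¹ * w, g'.2.1) =
        star (U w) * U w + ∑ g : Gn n D, ∑ g' : Gn n D, star (f ((γ g)⁻¹ * w, g.2.1)) *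
        (ψ (φ (star (c g.1) * c g'.1)) - star (c g.1) * c g'.1) * f ((γ g')⁻¹ * w, g'.2.1) := by
      have h4 : star (U w) * U w = ∑ g : Gn n D, ∑ g' : Gn n D,
          star (f ((γ g)⁻¹ * w, g.2.1)) * (star (c g.1) * c g'.1) *
            f ((γ g')⁻¹ * w, g'.2.1) := by
        simp only [hU]
        rw [star_sum, Finset.sum_mul]
        refine Finset.sum_congr rfl fun g _ => ?_
        rw [Finset.mul_sum]
        refine Finset.sum_congr rfl fun g' _ => ?_
        rw [star_mul]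
        noncomm_ring
      rw [h4, ← Finset.sum_add_distrib]
      refine Finset.sum_congr rfl fun g _ => ?_
      rw [← Finset.sum_add_distrib]
      refine Finset.sum_congr rfl fun g' _ => ?_
      rw [mul_sub, sub_mul]
      abel
    rw [h3]
    exact add_le_add_right h2 _
  have hU1' : ∑ w, ∑ g : Gn n D, ∑ g' : Gn n D, star (f ((γ g)⁻¹ * w, g.2.1)) *
        ψ (φ (star (c g.1) * c g'.1)) * f ((γ g')⁻¹ * w, g'.2.1) ≤
      ∑ w, star (U w) * U w + (κ' * g0 * (2 * n)) • W := by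
    refine (Finset.sum_le_sum fun w _ => hU1 w).trans (le_of_eq ?_)
    rw [Finset.sum_add_distrib, ← Finset.smul_sum, tsb_count, smul_smul]
  -- the second term
  have hψone := psi_one_le hψ hψ1
  have hSsa : IsSelfAdjoint S := by
    rw [hS, IsSelfAdjoint, star_sum]
    refine Finset.sum_congr rfl fun i _ => ?_
    rw [star_mul, star_star]
  have hU2 : ∑ X, star (f X) * ((D : ℝ) • ψ 1 - (1 / 4 : ℝ) • ψ (φ S)) * f X ≤
      ((D : ℝ) + κ' / 4) • W - (1 / 4 : ℝ) • V := by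
    have h2 : -(ψ (φ S) - S) ≤ algebraMap ℝ A κ' := by
      have h3 : ‖ψ (φ S) - S‖ ≤ κ' := (happ S (Finset.mem_union_right _ (by simp))).le
      have h4 : IsSelfAdjoint (-(ψ (φ S) - S)) := by
        refine IsSelfAdjoint.neg (IsSelfAdjoint.sub ?_ hSsa)
        rw [IsSelfAdjoint, ← cp_star hψ, ← cp_star hφ, hSsa.star_eq]
      have h5 := h4.le_algebraMap_norm_self
      rw [norm_neg] at h5
      exact h5.trans (algebraMap_mono A h3)
    have h3 : (D : ℝ) • ψ 1 - (1 / 4 : ℝ) • ψ (φ S) + (1 / 4 : ℝ) • S ≤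
        algebraMap ℝ A ((D : ℝ) + κ' / 4) := by
      have h4 : (D : ℝ) • ψ 1 ≤ algebraMap ℝ A (D : ℝ) := by
        have := smul_le_smul_of_nonneg_left hψone (Nat.cast_nonneg D : (0 : ℝ) ≤ D)
        rwa [Algebra.algebraMap_eq_smul_one]
      have h5 : (1 / 4 : ℝ) • (-(ψ (φ S) - S)) ≤ algebraMap ℝ A (κ' / 4) := by
        have := smul_le_smul_of_nonneg_left h2 (by norm_num : (0 : ℝ) ≤ 1 / 4)
        refine this.trans (le_of_eq ?_)
        rw [Algebra.algebraMap_eq_smul_one, Algebra.algebraMap_eq_smul_one, smul_smul]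
        congr 1
        ring
      have h6 := add_le_add h4 h5
      rw [← map_add] at h6
      refine le_of_eq_of_le ?_ h6
      module
    have h4 : ∀ X, star (f X) * ((D : ℝ) • ψ 1 - (1 / 4 : ℝ) • ψ (φ S)) * f X ≤
        ((D : ℝ) + κ' / 4) • (star (f X) * f X) - (1 / 4 : ℝ) • (star (f X) * S * f X) := by
      intro X
      have h5 := tsb_conj_le h3 (f X)
      rw [mul_add, add_mul, mul_smul_comm (1 / 4 : ℝ), smul_mul_assoc] at h5
      exact le_sub_iff_add_le.2 h5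
    refine (Finset.sum_le_sum fun X _ => h4 X).trans (le_of_eq ?_)
    rw [Finset.sum_sub_distrib, ← Finset.smul_sum, ← Finset.smul_sum]
  have hU3 : ∑ X, star (f X) * ((κ / 2) • ψ 1) * f X ≤ (κ / 2) • W := by
    have h2 : (κ / 2) • ψ 1 ≤ algebraMap ℝ A (κ / 2) := by
      have := smul_le_smul_of_nonneg_left hψone (by positivity : (0 : ℝ) ≤ κ / 2)
      rwa [Algebra.algebraMap_eq_smul_one]
    rw [hW, Finset.smul_sum]
    exact Finset.sum_le_sum fun X _ => tsb_conj_le h2 (f X)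
  have hU4 : ∑ l, ∑ X, ∑ Y, star (f X) * ψ (CStarMatrix.ofMatrix fun k l' =>
        ζ l (X.1, (X.2, k)) * star (ζ l (Y.1, (Y.2, l')))) * f Y ≤ ∑ l, (d : ℝ) • Pl l :=
    Finset.sum_le_sum fun l _ => psi_rank_one hψ hψ1
      (fun (X : Q × Fin D) k => ζ l (X.1, (X.2, k))) f
  -- the rows
  have hR : ∑ r, star (∑ k, tsbG c γ ζ r k * f0 k) * (∑ k, tsbG c γ ζ r k * f0 k) =
      (1 / 2 : ℝ) • ∑ w, star (U w) * U w + ∑ l, (d : ℝ) • Pl l := by
    rw [Fintype.sum_sum_type]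
    congr 1
    · rw [Finset.smul_sum]
      refine Finset.sum_congr rfl fun w _ => ?_
      rw [tsbG_inl, tsb_smul_sq, ← mul_inv, Real.mul_self_sqrt (by norm_num), one_div]
    · rw [Fintype.sum_prod_type]
      refine Finset.sum_congr rfl fun l _ => ?_
      rw [hPl, Finset.smul_sum]
      refine Finset.sum_congr rfl fun k _ => ?_
      rw [tsbG_inr, tsb_smul_sq, Real.mul_self_sqrt (Nat.cast_nonneg d)]
  have hL : ∑ k, star (f0 k) * ((1 / 4 : ℝ) • S - algebraMap ℝ A (D + κ)) * f0 k =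
      (1 / 4 : ℝ) • V - ((D : ℝ) + κ) • W := by
    have hLX : ∀ X : Q × Fin D, star (f0 (X.2, X.1)) *
        ((1 / 4 : ℝ) • S - algebraMap ℝ A (D + κ)) * f0 (X.2, X.1) =
        (1 / 4 : ℝ) • (star (f X) * S * f X) - ((D : ℝ) + κ) • (star (f X) * f X) := by
      intro X
      rw [Algebra.algebraMap_eq_smul_one, mul_sub, sub_mul, mul_smul_comm, mul_smul_comm, mul_one,
        smul_mul_assoc, smul_mul_assoc]
    rw [tsb_swap, Finset.sum_congr rfl fun X _ => hLX X, Finset.sum_sub_distrib,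
      ← Finset.smul_sum, ← Finset.smul_sum]
  rw [hR, hL]
  have hκle : κ' * (g0 * n + 1) = κ / 2 := by
    rw [hκ']
    field_simp
  have hcoef : 0 ≤ κ - (κ' * g0 * n + κ' / 4 + κ / 2) := by nlinarith
  have hfin : 0 ≤ (1 / 2 : ℝ) • (∑ w, star (U w) * U w + (κ' * g0 * (2 * n)) • W) +
      (((D : ℝ) + κ' / 4) • W - (1 / 4 : ℝ) • V) + (κ / 2) • W + ∑ l, (d : ℝ) • Pl l := by
    refine hΛ.trans ?_
    exact add_le_add (add_le_add (add_le_add
      (smul_le_smul_of_nonneg_left hU1' (by norm_num)) hU2) hU3) hU4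
  have hpos2 := smul_nonneg hcoef hW0
  rw [← sub_nonneg]
  refine (add_nonneg hfin hpos2).trans (le_of_eq ?_)
  module

end Pool.Agent.Lib.EJS.TS
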