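import Pool.Agent.Lib.EJS.Cuntz
import Pool.Agent.Lib.EJS.TSPos

/-!
# TS7: from an operator inequality to Cuntz comparison

PROOF of `cle_of_le`.  Let `M = CStarMatrix ι ι A` with its spectral order, `b : M`, `b i j = ∑_r star (G r i) * G r j`,
and for `x : A` let `x ⊗ 1 : M` be the diagonal matrix.  By `posMat` (applied to `b i j - [i = j] y`, which is
self-adjoint) `b - y ⊗ 1 = star Y * Y ≥ 0`, so `y ⊗ 1 ≤ b`; and `b ≥ 0` (`posMat` again, or
`b = ∑_r star Ĝ_r * Ĝ_r`).  Given `ε' > 0` let `g t = min 1 (max t 0 / ε')`, `e = cfc g y`, `p = cfc (max · 0) y`,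
`z = CFC.sqrt p * e = cfc (fun t => √(max t 0) * g t) y`.  `z z = e y e` (`t g(t)² = max t 0 * g(t)²`), and
`(z ⊗ 1)(z ⊗ 1) = (e ⊗ 1)(y ⊗ 1)(e ⊗ 1) ≤ c := (e ⊗ 1) b (e ⊗ 1)`.  With `T = rsq η c * (z ⊗ 1)`
(`norm_rsq_sub_le` in the C-star algebra `M`): `‖star T * c * T - (z z) ⊗ 1‖ ≤ η`.  Put
`R r j = ∑_i G r i * (e * T i j)`: `∑_r star (R r i) * R r j = (star T * c * T) i j`.  The norm of an entry is at most
the norm of the matrix (`CStarMatrix.norm_entry_le_norm` or similar).  Finally
`‖z z - p‖ ≤ ε'`: `|max t 0 * g(t)² - max t 0| ≤ ε'` for all `t`.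
-/

open scoped ComplexOrder

namespace Pool.Agent.Lib.EJS.TS

variable {A : Type*} [CStarAlgebra A] [PartialOrder A] [StarOrderedRing A]

section diag

variable {ι : Type*} [Fintype ι] [DecidableEq ι]

/-- the diagonal matrix with constant entry -/
def cleD (ι : Type*) [DecidableEq ι] {A : Type*} [CStarAlgebra A] (x : A) : CStarMatrix ι ι A :=
  CStarMatrix.ofMatrix fun i j => if i = j then x else 0

omit [PartialOrder A] [StarOrderedRing A] [Fintype ι] in
theorem cleD_apply (x : A) (i j : ι) : cleD ι x i j = if i = j then x else 0 := rfl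

omit [PartialOrder A] [StarOrderedRing A] in
theorem cleD_mul (x : A) (m : CStarMatrix ι ι A) (i j : ι) : (cleD ι x * m) i j = x * m i j := by
  rw [CStarMatrix.mul_apply, Finset.sum_eq_single i]
  · rw [cleD_apply, if_pos rfl]
  · intro k _ hk
    rw [cleD_apply, if_neg (Ne.symm hk), zero_mul]
  · intro h
    exact absurd (Finset.mem_univ _) h

omit [PartialOrder A] [StarOrderedRing A] in
theorem mul_cleD (x : A) (m : CStarMatrix ι ι A) (i j : ι) : (m * cleD ι x) i j = m i j * x := by
  rw [CStarMatrix.mul_apply, Finset.sum_eq_single j]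
  · rw [cleD_apply, if_pos rfl]
  · intro k _ hk
    rw [cleD_apply, if_neg hk, mul_zero]
  · intro h
    exact absurd (Finset.mem_univ _) h

omit [PartialOrder A] [StarOrderedRing A] [Fintype ι] in
theorem cleD_star (x : A) : star (cleD ι x) = cleD ι (star x) := by
  refine CStarMatrix.ext fun i j => ?_
  rw [CStarMatrix.star_apply, cleD_apply, cleD_apply]
  by_cases h : i = j
  · rw [if_pos h, if_pos h.symm]
  · rw [if_neg h, if_neg (Ne.symm h), star_zero]

omit [PartialOrder A] [StarOrderedRing A] in
theorem cleD_mul_cleD (x y : A) : cleD ι x * cleD ι y = cleD ι (x * y) := by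
  refine CStarMatrix.ext fun i j => ?_
  rw [cleD_mul, cleD_apply, cleD_apply]
  by_cases h : i = j
  · rw [if_pos h, if_pos h]
  · rw [if_neg h, if_neg h, mul_zero]

/-- a matrix with nonnegative form is nonnegative -/
theorem cle_nonneg (b : CStarMatrix ι ι A) (hs : ∀ i j, star (b i j) = b j i)
    (h : ∀ f : ι → A, 0 ≤ ∑ i, ∑ j, star (f i) * b i j * f j) : 0 ≤ b := by
  obtain ⟨Y, hY⟩ := posMat (fun i j => b i j) hs h
  have h1 : b = star (CStarMatrix.ofMatrix Y : CStarMatrix ι ι A) * CStarMatrix.ofMatrix Y := by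
    refine CStarMatrix.ext fun i j => ?_
    rw [hY, CStarMatrix.mul_apply]
    rfl
  rw [h1]
  exact star_mul_self_nonneg _

end diag

theorem cle_of_le {ι κ : Type*} [Fintype ι] [DecidableEq ι] [Fintype κ] {y : A}
    (hy : IsSelfAdjoint y) (G : κ → ι → A)
    (h : ∀ f : ι → A, ∑ k, star (f k) * y * f k ≤
      ∑ r, star (∑ k, G r k * f k) * (∑ k, G r k * f k)) :
    Cle (fun _ : ι => cfc (fun t : ℝ => max t 0) y) (fun _ : κ => (1 : A)) := by
  -- the matrix `b`
  let b : CStarMatrix ι ι A := CStarMatrix.ofMatrix fun i j => ∑ r, star (G r i) * G r j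
  have hbij : ∀ i j, b i j = ∑ r, star (G r i) * G r j := fun i j => rfl
  have hbs : ∀ i j, star (b i j) = b j i := by
    intro i j
    rw [hbij, hbij, star_sum]
    refine Finset.sum_congr rfl fun r _ => ?_
    rw [star_mul, star_star]
  have hbf : ∀ f : ι → A, ∑ i, ∑ j, star (f i) * b i j * f j =
      ∑ r, star (∑ k, G r k * f k) * (∑ k, G r k * f k) := by
    intro f
    have h1 : ∀ r, star (∑ k, G r k * f k) * (∑ k, G r k * f k) =
        ∑ i, ∑ j, star (f i) * (star (G r i) * G r j) * f j := by
      intro r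
      rw [star_sum, Finset.sum_mul]
      refine Finset.sum_congr rfl fun i _ => ?_
      rw [Finset.mul_sum]
      refine Finset.sum_congr rfl fun j _ => ?_
      rw [star_mul]
      noncomm_ring
    simp only [h1]
    symm
    rw [Finset.sum_comm]
    refine Finset.sum_congr rfl fun i _ => ?_
    rw [Finset.sum_comm]
    refine Finset.sum_congr rfl fun j _ => ?_
    rw [hbij, Finset.mul_sum, Finset.sum_mul]
  have hb0 : 0 ≤ b := by
    refine cle_nonneg b hbs fun f => ?_
    rw [hbf]
    exact Finset.sum_nonneg fun r _ => star_mul_self_nonneg _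
  have hby : cleD ι y ≤ b := by
    rw [← sub_nonneg]
    have hij : ∀ i j, (b - cleD ι y) i j = b i j - if i = j then y else 0 := fun i j => rfl
    refine cle_nonneg _ (fun i j => ?_) fun f => ?_
    · rw [hij, hij, star_sub, hbs]
      by_cases h' : i = j
      · rw [if_pos h', if_pos h'.symm, hy.star_eq]
      · rw [if_neg h', if_neg (Ne.symm h'), star_zero]
    · have h1 : ∑ i, ∑ j, star (f i) * (b - cleD ι y) i j * f j =
          ∑ i, ∑ j, star (f i) * b i j * f j - ∑ k, star (f k) * y * f k := by
        rw [← Finset.sum_sub_distrib]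
        refine Finset.sum_congr rfl fun i _ => ?_
        have h2 : star (f i) * y * f i = ∑ j, star (f i) * (if i = j then y else 0) * f j := by
          rw [Finset.sum_eq_single i]
          · rw [if_pos rfl]
          · intro k _ hk
            rw [if_neg (Ne.symm hk), mul_zero, zero_mul]
          · intro h'
            exact absurd (Finset.mem_univ _) h'
        rw [h2, ← Finset.sum_sub_distrib]
        refine Finset.sum_congr rfl fun j _ => ?_
        rw [hij, mul_sub, sub_mul]
      rw [h1, sub_nonneg, hbf]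
      exact h f
  intro ε hε
  set δ : ℝ := ε / 3 with hδ
  have hδ0 : 0 < δ := by positivity
  set g : ℝ → ℝ := fun t => min 1 (max t 0 / δ) with hg
  have hgc : Continuous g := by
    rw [hg]
    fun_prop
  have hg0 : ∀ t, 0 ≤ g t := fun t => le_min zero_le_one (div_nonneg (le_max_right _ _) hδ0.le)
  have hg1 : ∀ t, g t ≤ 1 := fun t => min_le_left _ _
  set e := cfc g y with he
  set z := cfc (fun t : ℝ => √(max t 0) * g t) y with hz
  have hes : star e = e := (cfc_predicate g y : IsSelfAdjoint _)
  have hzs : star z = z := (cfc_predicate (fun t : ℝ => √(max t 0) * g t) y : IsSelfAdjoint _)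
  have hsc : Continuous (fun t : ℝ => √(max t 0) * g t) := by fun_prop
  have hzz : z * z = cfc (fun t : ℝ => max t 0 * (g t * g t)) y := by
    rw [hz, ← cfc_mul (fun t : ℝ => √(max t 0) * g t) (fun t : ℝ => √(max t 0) * g t) y
      hsc.continuousOn hsc.continuousOn]
    congr 1
    ext t
    have h1 : √(max t 0) * √(max t 0) = max t 0 := Real.mul_self_sqrt (le_max_right _ _)
    calc √(max t 0) * g t * (√(max t 0) * g t) = (√(max t 0) * √(max t 0)) * (g t * g t) := by ring
      _ = _ := by rw [h1]
  have heye : e * y * e = z * z := by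
    rw [hzz]
    have h1 : e * y * e = cfc (fun t : ℝ => g t * t * g t) y := by
      conv_lhs => rw [← cfc_id' ℝ y]
      rw [he, cfc_id' ℝ y]
      nth_rewrite 2 [← cfc_id' ℝ y]
      rw [← cfc_mul g (fun t : ℝ => t) y hgc.continuousOn (by fun_prop),
        ← cfc_mul (fun t : ℝ => g t * t) g y (by fun_prop) hgc.continuousOn]
    rw [h1]
    congr 1
    ext t
    rcases le_total t 0 with ht | ht
    · have h2 : max t 0 = 0 := max_eq_right ht
      have h3 : g t = 0 := by
        rw [hg]
        simp only [h2, zero_div]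
        exact min_eq_right zero_le_one
      rw [h3, h2]
      ring
    · rw [max_eq_left ht]
      ring
  have hzp : ‖z * z - cfc (fun t : ℝ => max t 0) y‖ ≤ δ := by
    rw [hzz, ← cfc_sub (fun t : ℝ => max t 0 * (g t * g t)) (fun t : ℝ => max t 0) y
      (by fun_prop) (by fun_prop)]
    refine norm_cfc_le hδ0.le fun t _ => ?_
    rw [Real.norm_eq_abs]
    rcases le_total t 0 with ht | ht
    · rw [max_eq_right ht]
      simp [hδ0.le]
    · rw [max_eq_left ht]
      rcases le_total δ t with h2 | h2
      · have h3 : g t = 1 := by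
          rw [hg]
          simp only [max_eq_left ht]
          exact min_eq_left ((one_le_div hδ0).2 h2)
        rw [h3]
        simp [hδ0.le]
      · rw [abs_le]
        have h4 := hg0 t
        have h5 := hg1 t
        have h6 : g t * g t ≤ 1 := by nlinarith
        have h7 : 0 ≤ g t * g t := mul_nonneg h4 h4
        constructor <;> nlinarith
  -- the matrices
  set E := cleD ι e with hE
  set Z := cleD ι z with hZ
  have hEs : star E = E := by rw [hE, cleD_star, hes]
  have hZs : star Z = Z := by rw [hZ, cleD_star, hzs]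
  set c := E * b * E with hc
  have hc0 : 0 ≤ c := by
    have h1 := star_left_conjugate_nonneg hb0 E
    rwa [hEs] at h1
  have hZc : Z * star Z ≤ c := by
    have h1 := star_left_conjugate_le_conjugate hby E
    rw [hEs] at h1
    have h2 : E * cleD ι y * E = Z * star Z := by
      rw [hZs, hE, hZ, cleD_mul_cleD, cleD_mul_cleD, cleD_mul_cleD, heye]
    rwa [h2] at h1
  have hZc' : Z * star Z ≤ c + algebraMap ℝ (CStarMatrix ι ι A) δ := by
    refine hZc.trans ?_
    have h1 : (0 : CStarMatrix ι ι A) ≤ algebraMap ℝ (CStarMatrix ι ι A) δ :=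
      algebraMap_nonneg _ hδ0.le
    exact le_add_of_nonneg_right h1
  have hn := norm_rsq_sub_le hδ0 hc0 hZc'
  set T := rsq δ c * Z with hT
  refine ⟨fun r j => ∑ i, G r i * (e * T i j), fun i i' => ?_⟩
  have hkey : ∑ r, star (∑ k, G r k * (e * T k i)) * 1 * (∑ k, G r k * (e * T k i')) =
      (star T * c * T) i i' := by
    have hcij : ∀ k l, c k l = e * b k l * e := by
      intro k l
      rw [hc, mul_cleD, cleD_mul]
    have h1 : (star T * c * T) i i' = ∑ k, ∑ l, star (T k i) * (e * b k l * e) * T l i' := by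
      rw [mul_assoc, CStarMatrix.mul_apply]
      refine Finset.sum_congr rfl fun k _ => ?_
      rw [CStarMatrix.mul_apply, Finset.mul_sum]
      refine Finset.sum_congr rfl fun l _ => ?_
      rw [CStarMatrix.star_apply, hcij, mul_assoc (star (T k i))]
    have h2 := hbf (fun k => e * T k i)
    rw [h1]
    have h3 : ∀ r, star (∑ k, G r k * (e * T k i)) * 1 * (∑ k, G r k * (e * T k i')) =
        ∑ k, ∑ l, star (T k i) * (e * (star (G r k) * G r l) * e) * T l i' := by
      intro r
      rw [mul_one, star_sum, Finset.sum_mul]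
      refine Finset.sum_congr rfl fun k _ => ?_
      rw [Finset.mul_sum]
      refine Finset.sum_congr rfl fun l _ => ?_
      rw [star_mul, star_mul, hes]
      noncomm_ring
    simp only [h3]
    rw [Finset.sum_comm]
    refine Finset.sum_congr rfl fun k _ => ?_
    rw [Finset.sum_comm]
    refine Finset.sum_congr rfl fun l _ => ?_
    rw [hbij, Finset.mul_sum, Finset.sum_mul, Finset.mul_sum, Finset.sum_mul]
  rw [hkey]
  have h1 : ‖(star T * c * T - star Z * Z) i i'‖ ≤ δ :=
    (CStarMatrix.norm_entry_le_norm).trans hn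
  have h2 : (star T * c * T - star Z * Z) i i' =
      (star T * c * T) i i' - if i = i' then z * z else 0 := by
    rw [CStarMatrix.sub_apply, hZs, hZ, cleD_mul_cleD, cleD_apply]
  rw [h2] at h1
  have h3 : ‖(if i = i' then z * z else 0) -
      (if i = i' then cfc (fun t : ℝ => max t 0) y else 0)‖ ≤ δ := by
    by_cases h' : i = i'
    · rw [if_pos h', if_pos h']
      exact hzp
    · rw [if_neg h', if_neg h', sub_self, norm_zero]
      exact hδ0.le
  have h4 : (star T * c * T) i i' - (if i = i' then cfc (fun t : ℝ => max t 0) y else 0) =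
      ((star T * c * T) i i' - if i = i' then z * z else 0) +
      ((if i = i' then z * z else 0) - (if i = i' then cfc (fun t : ℝ => max t 0) y else 0)) := by
    abel
  rw [h4]
  calc _ ≤ δ + δ := (norm_add_le _ _).trans (add_le_add h1 h3)
    _ < ε := by rw [hδ]; linarith

end Pool.Agent.Lib.EJS.TS
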