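import Pool.Agent.Lib.EJS.Cuntz

/-!
# TS7: comparison of positive parts

PROOF of `cle_pos`.  `p = cfc (max · 0) y ≥ y ≥ t (a - ε/2)`.  Let
`g s = √(max (s - ε) 0 / (t * max (s - ε/2) (ε/2)))`, a continuous function with
`g(s)² t (s - ε/2) = max (s - ε) 0` for all real `s` (for `s ≤ ε` both sides are `0`, for `s ≥ ε` the maximum is `s - ε/2`), and
`x = cfc g a` (self-adjoint, commutes with `a`).  So
`0 ≤ cfc (max (· - ε) 0) a = x (t (a - ε/2)) x ≤ x p x = star x * p * x`.  `Cle.of_le`, then `star x * p * x` is Cuntz below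
`p` (one element, exact: `R = x`), `Cle.trans`.
-/

open scoped ComplexOrder

namespace Pool.Agent.Lib.EJS.TS

variable {A : Type*} [CStarAlgebra A] [PartialOrder A] [StarOrderedRing A]

theorem cle_pos {a y : A} (ha : 0 ≤ a) (hy : IsSelfAdjoint y) {t ε : ℝ} (ht : 0 < t) (hε : 0 < ε)
    (h : t • (a - algebraMap ℝ A (ε / 2)) ≤ y) :
    Cle (fun _ : Unit => cfc (fun s : ℝ => max (s - ε) 0) a)
      (fun _ : Unit => cfc (fun s : ℝ => max s 0) y) := by
  have hsa : IsSelfAdjoint a := IsSelfAdjoint.of_nonneg ha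
  set p := cfc (fun s : ℝ => max s 0) y with hp
  have hyp : y ≤ p := by
    calc y = cfc (fun s : ℝ => s) y := (cfc_id' ℝ y).symm
      _ ≤ p := cfc_mono fun s _ => le_max_left s 0
  set g : ℝ → ℝ := fun s => √(max (s - ε) 0 / (t * max (s - ε / 2) (ε / 2))) with hg
  have hmax : ∀ s : ℝ, 0 < max (s - ε / 2) (ε / 2) := fun s =>
    lt_max_of_lt_right (by positivity)
  have hgc : Continuous g := by
    refine Real.continuous_sqrt.comp (Continuous.div (by fun_prop) (by fun_prop) fun s => ?_)
    exact (mul_pos ht (hmax s)).ne'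
  have hgg : ∀ s, g s * (t * (s - ε / 2)) * g s = max (s - ε) 0 := by
    intro s
    have h1 : g s * g s = max (s - ε) 0 / (t * max (s - ε / 2) (ε / 2)) :=
      Real.mul_self_sqrt (div_nonneg (le_max_right _ _) (mul_pos ht (hmax s)).le)
    rcases le_or_gt s ε with hs | hs
    · have h2 : max (s - ε) 0 = 0 := max_eq_right (by linarith)
      have h3 : g s = 0 := mul_self_eq_zero.1 (by rw [h1, h2, zero_div])
      rw [h2, h3]
      ring
    · have h3 : max (s - ε / 2) (ε / 2) = s - ε / 2 := max_eq_left (by linarith)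
      have h4 : 0 < s - ε / 2 := by linarith
      calc g s * (t * (s - ε / 2)) * g s = (g s * g s) * (t * (s - ε / 2)) := by ring
        _ = max (s - ε) 0 := by
            rw [h1, h3]
            exact div_mul_cancel₀ _ (mul_pos ht h4).ne'
  set x := cfc g a with hx
  have hxs : star x = x := (cfc_predicate g a : IsSelfAdjoint _)
  have hkey : x * (t • (a - algebraMap ℝ A (ε / 2))) * x =
      cfc (fun s : ℝ => max (s - ε) 0) a := by
    have e1 : t • (a - algebraMap ℝ A (ε / 2)) = cfc (fun s : ℝ => t * (s - ε / 2)) a := by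
      rw [cfc_const_mul t (fun s : ℝ => s - ε / 2) a (by fun_prop),
        cfc_sub (fun s : ℝ => s) (fun _ => ε / 2) a (by fun_prop) (by fun_prop),
        cfc_id' ℝ a, cfc_const (ε / 2) a]
    rw [e1, hx, ← cfc_mul g (fun s : ℝ => t * (s - ε / 2)) a hgc.continuousOn (by fun_prop),
      ← cfc_mul (fun s : ℝ => g s * (t * (s - ε / 2))) g a
        (hgc.continuousOn.mul (by fun_prop)) hgc.continuousOn]
    congr 1
    ext s
    exact hgg s
  have h1 : cfc (fun s : ℝ => max (s - ε) 0) a ≤ star x * p * x := by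
    rw [hxs, ← hkey]
    have h2 := star_left_conjugate_le_conjugate (h.trans hyp) x
    rwa [hxs] at h2
  have h0 : 0 ≤ cfc (fun s : ℝ => max (s - ε) 0) a := cfc_nonneg fun s _ => le_max_right _ _
  refine Cle.trans (y := fun _ : Unit => star x * p * x)
    (Cle.of_le (fun _ => h0) fun _ => h1) ?_
  intro δ hδ
  refine ⟨fun _ _ => x, fun i i' => ?_⟩
  simp [hδ]

end Pool.Agent.Lib.EJS.TS
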