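import Pool.Agent.Lib.EJS.Defs

/-!
# Part TS (uniformly small traces imply comparison, nuclear algebras): definitions

`qf K v`: the quadratic form of a matrix.  `op z M`: the operator `∑ t, λ(z t) ⊗ M t` on functions
`H → P → ℂ` on a group `H`.  `ip`: the inner product of finitely supported functions.  `hop`: the
operator `L - op`.  `gz`, `gM`: the data of the form
`½ ∑_w ⟨K x^w, x^w⟩ - ¼ ∑ ⟨S ξ, ξ⟩ + D ∑ |ξ|²`, `x^w_i = ∑_{s,u} ξ(g_{isu}⁻¹ w, s)`.
-/

open scoped ComplexOrder

namespace Pool.Agent.Lib.EJS.TS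

/-- the quadratic form of a complex matrix (real part) -/
noncomputable def qf {ι : Type*} [Fintype ι] (K : Matrix ι ι ℂ) (v : ι → ℂ) : ℝ :=
  (∑ i, ∑ j, star (v i) * K i j * v j).re

section group

variable {H : Type*} [Group H] {T P : Type*} [Fintype T] [Fintype P]

/-- the operator `∑ t, λ(z t) ⊗ M t` -/
noncomputable def op (z : T → H) (M : T → Matrix P P ℂ) (f : H → P → ℂ) : H → P → ℂ :=
  fun x p => ∑ t, ∑ q, M t p q * f ((z t)⁻¹ * x) q

/-- `L - op z M` -/
noncomputable def hop (L : ℝ) (z : T → H) (M : T → Matrix P P ℂ) (f : H → P → ℂ) : H → P → ℂ :=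
  fun x p => (L : ℂ) * f x p - op z M f x p

/-- the inner product of finitely supported functions -/
noncomputable def ip (f g : H → P → ℂ) : ℂ := ∑' x, ∑ p, star (f x p) * g x p

/-- the basis vector at `1` -/
def del [DecidableEq H] [DecidableEq P] (p : P) : H → P → ℂ :=
  fun x q => if x = 1 ∧ q = p then 1 else 0

/-- the matrix of `op z M` on a finite group -/
noncomputable def opM [DecidableEq H] (z : T → H) (M : T → Matrix P P ℂ) :
    Matrix (H × P) (H × P) ℂ :=
  fun a b => ∑ t, if (z t)⁻¹ * a.1 = b.1 then M t a.2 b.2 else 0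

/-- a bound for the norm of `op z M` -/
noncomputable def nrm (M : T → Matrix P P ℂ) : ℝ := ∑ t, ∑ p, ∑ q, ‖M t p q‖

end group

/-- the generators -/
abbrev Gn (n D : ℕ) := Fin n × Fin D × Fin 2

/-- the group elements of the form -/
def gz {n D : ℕ} {H : Type*} [Group H] (γ : Gn n D → H) : Option (Gn n D × Gn n D) → H
  | none => 1
  | some (g, g') => (γ g)⁻¹ * γ g'

/-- the matrices of the form -/
noncomputable def gM {n D d : ℕ} (K : Matrix (Fin n × Fin d) (Fin n × Fin d) ℂ) :
    Option (Gn n D × Gn n D) → Matrix (Fin D × Fin d) (Fin D × Fin d) ℂ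
  | none => fun p q => if p.1 = q.1 then
      (if p.2 = q.2 then (D : ℂ) else 0) - (1 / 4) * ∑ i, K (i, p.2) (i, q.2) else 0
  | some (g, g') => fun p q => if p.1 = g.2.1 ∧ q.1 = g'.2.1 then
      (1 / 2) * K (g.1, p.2) (g'.1, q.2) else 0

/-- the symmetry of the index set -/
def gσ {n D : ℕ} : Equiv.Perm (Option (Gn n D × Gn n D)) := (Equiv.prodComm _ _).optionCongr

theorem gz_σ {n D : ℕ} {H : Type*} [Group H] (γ : Gn n D → H) (t : Option (Gn n D × Gn n D)) :
    gz γ (gσ t) = (gz γ t)⁻¹ := by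
  rcases t with _ | ⟨g, g'⟩
  · simp [gσ, gz]
  · simp [gσ, gz]

theorem gM_σ {n D d : ℕ} {K : Matrix (Fin n × Fin d) (Fin n × Fin d) ℂ} (hK : K.IsHermitian)
    (t : Option (Gn n D × Gn n D)) : gM K (gσ t) = (gM K t).conjTranspose := by
  have hK' : ∀ a b, star (K b a) = K a b := fun a b => hK.apply a b
  rcases t with _ | ⟨g, g'⟩
  · ext p q
    simp only [gσ, Equiv.optionCongr_apply, Option.map_none, gM, Matrix.conjTranspose_apply]
    by_cases h : p.1 = q.1
    · rw [if_pos h, if_pos h.symm, star_sub, star_mul', star_sum]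
      have h1 : star (if q.2 = p.2 then (D : ℂ) else 0) = if p.2 = q.2 then (D : ℂ) else 0 := by
        by_cases h2 : p.2 = q.2
        · rw [if_pos h2, if_pos h2.symm]
          simp
        · rw [if_neg h2, if_neg (Ne.symm h2), star_zero]
      rw [h1]
      have h3 : star (1 / 4 : ℂ) = 1 / 4 := by simp
      rw [h3]
      congr 2
      exact Finset.sum_congr rfl fun i _ => (hK' _ _).symm
    · rw [if_neg h, if_neg (Ne.symm h), star_zero]
  · ext p q
    simp only [gσ, Equiv.optionCongr_apply, Option.map_some, Equiv.prodComm_apply, Prod.swap_prod_mk,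
      gM, Matrix.conjTranspose_apply]
    by_cases h : p.1 = g'.2.1 ∧ q.1 = g.2.1
    · rw [if_pos h, if_pos h.symm, star_mul', hK']
      have h3 : star (1 / 2 : ℂ) = 1 / 2 := by simp
      rw [h3]
    · rw [if_neg h, if_neg (fun h' => h h'.symm), star_zero]

variable {A : Type*} [CStarAlgebra A]

/-- the kernel `φ(c_i* c_j)` -/
noncomputable def kerK {n d : ℕ} (φ : A →ₗ[ℂ] Mat d) (c : Fin n → A) :
    Matrix (Fin n × Fin d) (Fin n × Fin d) ℂ := fun p q => φ (star (c p.1) * c q.1) p.2 q.2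

/-- a block of a matrix -/
def blk {X : Type*} {d : ℕ} (N : Matrix (X × Fin d) (X × Fin d) ℂ) (x y : X) : Mat d :=
  CStarMatrix.ofMatrix fun k l => N (x, k) (y, l)

/-- the relation `R(a, b)`: for all `ε` there are `z_i` with `a ≤ ∑ z_i* z_i + ε`,
`∑ z_i z_i* ≤ b` -/
def Rel [PartialOrder A] [StarOrderedRing A] (a b : A) : Prop :=
  ∀ ε : ℝ, 0 < ε → ∃ (m : ℕ) (z : Fin m → A),
    a ≤ ∑ i, star (z i) * z i + algebraMap ℝ A ε ∧ ∑ i, z i * star (z i) ≤ b

end Pool.Agent.Lib.EJS.TS
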