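import Pool.Agent.Lib.EJS.Cuntz
import Pool.Agent.Lib.EJS.TSDefs

/-!
# TS2: the relation `Rel`

`Rel a b`: for all `ε > 0` there are `z_i` with `a ≤ ∑ z_i* z_i + ε`, `∑ z_i z_i* ≤ b`.

PROOFS.  `mono`: clear.  `refl`: `z = √a` (one element, `CFC.sqrt`).  `add`: `Fin.append` (or
`Fin.addCases`) of the two families for `ε / 2`.  `of_comm`: `z_i = star (x i)`.

`trans`: given `ε` take `z : Fin m → A` with `a ≤ ∑ z* z + ε / 2`, `∑ z z* ≤ b`; put
`ε' = ε / (4 (m + 1))` and take `w` with `b ≤ W + ε'`, `W = ∑ w* w`, `∑ w w* ≤ c`.  `r := rsq ε' W`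
(`EJS/Cuntz.lean`).  `u (j, i) := w j * (r * z i)`.  For every `i`:
`∑_j u_ji* u_ji = star (r * z i) * W * (r * z i)`, and by `norm_rsq_sub_le` (`z_i z_i* ≤ b ≤ W + ε'`, because
`z_i z_i* ≤ ∑ z z*`) this differs from `z_i* z_i` by at most `ε'` in norm, so `z_i* z_i ≤ ∑_j u_ji* u_ji + ε'`.
`∑_ji u_ji u_ji* = ∑_j w_j (r (∑_i z_i z_i*) r) w_j* ≤ ∑_j w_j w_j* ≤ c` by `rsq_conj_le`.  Reindex
`Fin p × Fin m` by `Fin (p * m)` (`finProdFinEquiv`).
-/

open scoped ComplexOrder

namespace Pool.Agent.Lib.EJS.TS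

variable {A : Type*} [CStarAlgebra A] [PartialOrder A] [StarOrderedRing A]

namespace Rel

theorem mono {a a' b b' : A} (h : Rel a' b) (ha : a ≤ a') (hb : b ≤ b') : Rel a b' := by
  intro ε hε
  obtain ⟨m, z, h1, h2⟩ := h ε hε
  exact ⟨m, z, ha.trans h1, h2.trans hb⟩

theorem refl {a : A} (ha : 0 ≤ a) : Rel a a := by
  intro ε hε
  have hs1 : CFC.sqrt a * CFC.sqrt a = a := CFC.sqrt_mul_sqrt_self a ha
  have hs2 : star (CFC.sqrt a) = CFC.sqrt a := IsSelfAdjoint.of_nonneg (CFC.sqrt_nonneg a)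
  refine ⟨1, fun _ => CFC.sqrt a, ?_, ?_⟩
  · rw [Finset.univ_unique, Finset.sum_singleton, hs2, hs1]
    exact le_add_of_nonneg_right (algebraMap_nonneg A hε.le)
  · rw [Finset.univ_unique, Finset.sum_singleton, hs2, hs1]

theorem add {a a' b b' : A} (h : Rel a b) (h' : Rel a' b') : Rel (a + a') (b + b') := by
  intro ε hε
  obtain ⟨m, z, h1, h2⟩ := h (ε / 2) (by positivity)
  obtain ⟨m', z', h1', h2'⟩ := h' (ε / 2) (by positivity)
  refine ⟨m + m', Fin.append z z', ?_, ?_⟩
  · rw [Fin.sum_univ_add]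
    simp only [Fin.append_left, Fin.append_right]
    refine (add_le_add h1 h1').trans (le_of_eq ?_)
    have : algebraMap ℝ A ε = algebraMap ℝ A (ε / 2) + algebraMap ℝ A (ε / 2) := by
      rw [← map_add, add_halves]
    rw [this]
    abel
  · rw [Fin.sum_univ_add]
    simp only [Fin.append_left, Fin.append_right]
    exact add_le_add h2 h2'

theorem of_comm {m : ℕ} (x : Fin m → A) :
    Rel (∑ i, x i * star (x i)) (∑ i, star (x i) * x i) := by
  intro ε hε
  refine ⟨m, fun i => star (x i), ?_, ?_⟩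
  · simp only [star_star]
    exact le_add_of_nonneg_right (algebraMap_nonneg A hε.le)
  · simp only [star_star]
    exact le_rfl

theorem trans {a b c : A} (h : Rel a b) (h' : Rel b c) : Rel a c := by
  intro ε hε
  obtain ⟨m, z, h1, h2⟩ := h (ε / 2) (by positivity)
  have hm : (0 : ℝ) < 2 * ((m : ℝ) + 1) := by positivity
  set ε' : ℝ := ε / (2 * ((m : ℝ) + 1)) with hε'
  have hε'0 : 0 < ε' := by positivity
  obtain ⟨p, w, h3, h4⟩ := h' ε' hε'0
  set W : A := ∑ j, star (w j) * w j with hW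
  have hW0 : 0 ≤ W := Finset.sum_nonneg fun j _ => star_mul_self_nonneg (w j)
  set r : A := rsq ε' W with hr
  have hrs : star r = r := star_rsq ε' W
  have hzz : ∀ i, z i * star (z i) ≤ W + algebraMap ℝ A ε' := by
    intro i
    refine le_trans ?_ (h2.trans h3)
    exact Finset.single_le_sum (f := fun i => z i * star (z i))
      (fun i _ => mul_star_self_nonneg (z i)) (Finset.mem_univ i)
  have hsum : ∑ i, z i * star (z i) ≤ W + algebraMap ℝ A ε' := h2.trans h3
  -- first inequality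
  have hone : ∀ i, star (z i) * z i ≤
      ∑ j, star (w j * (r * z i)) * (w j * (r * z i)) + algebraMap ℝ A ε' := by
    intro i
    have e1 : ∑ j, star (w j * (r * z i)) * (w j * (r * z i)) =
        star (r * z i) * W * (r * z i) := by
      rw [hW, Finset.mul_sum, Finset.sum_mul]
      refine Finset.sum_congr rfl fun j _ => ?_
      rw [star_mul (w j)]
      noncomm_ring
    rw [e1]
    have e2 := norm_rsq_sub_le hε'0 hW0 (hzz i)
    rw [← hr] at e2
    have e3 : IsSelfAdjoint (star (z i) * z i - star (r * z i) * W * (r * z i)) := by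
      refine IsSelfAdjoint.sub (IsSelfAdjoint.star_mul_self _) ?_
      exact IsSelfAdjoint.conjugate' (IsSelfAdjoint.of_nonneg hW0) (r * z i)
    have e4 : ‖star (z i) * z i - star (r * z i) * W * (r * z i)‖ ≤ ε' := by
      rw [norm_sub_rev]
      exact e2
    have e5 : star (z i) * z i - star (r * z i) * W * (r * z i) ≤ algebraMap ℝ A ε' :=
      (IsSelfAdjoint.le_algebraMap_norm_self e3).trans (algebraMap_mono A e4)
    rw [add_comm]
    exact sub_le_iff_le_add.1 e5
  refine ⟨p * m, fun k => w (finProdFinEquiv.symm k).1 * (r * z (finProdFinEquiv.symm k).2), ?_, ?_⟩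
  · rw [← Equiv.sum_comp finProdFinEquiv]
    simp only [Equiv.symm_apply_apply]
    rw [Fintype.sum_prod_type, Finset.sum_comm]
    refine h1.trans ?_
    have e1 : ∑ i, star (z i) * z i ≤
        ∑ i, (∑ j, star (w j * (r * z i)) * (w j * (r * z i)) + algebraMap ℝ A ε') :=
      Finset.sum_le_sum fun i _ => hone i
    have e2 : algebraMap ℝ A ε = m • algebraMap ℝ A ε' + algebraMap ℝ A (ε / 2) +
        algebraMap ℝ A (ε / 2 - m * ε') := by
      rw [← map_nsmul, ← map_add, ← map_add]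
      congr 1
      rw [nsmul_eq_mul]
      ring
    have e3 : 0 ≤ ε / 2 - m * ε' := by
      have e4 : (m : ℝ) * ε' ≤ ((m : ℝ) + 1) * ε' := by nlinarith
      have e5 : ((m : ℝ) + 1) * ε' = ε / 2 := by
        rw [hε']
        field_simp
      linarith
    have e6 : (0 : A) ≤ algebraMap ℝ A (ε / 2 - m * ε') := algebraMap_nonneg A e3
    rw [Finset.sum_add_distrib, Finset.sum_const, Finset.card_univ, Fintype.card_fin] at e1
    rw [e2]
    calc ∑ i, star (z i) * z i + algebraMap ℝ A (ε / 2)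
        ≤ (∑ i, ∑ j, star (w j * (r * z i)) * (w j * (r * z i)) + m • algebraMap ℝ A ε') +
          algebraMap ℝ A (ε / 2) := add_le_add_left e1 _
      _ ≤ (∑ i, ∑ j, star (w j * (r * z i)) * (w j * (r * z i)) + m • algebraMap ℝ A ε') +
          algebraMap ℝ A (ε / 2) + algebraMap ℝ A (ε / 2 - m * ε') := le_add_of_nonneg_right e6
      _ = _ := by abel
  · rw [← Equiv.sum_comp finProdFinEquiv]
    simp only [Equiv.symm_apply_apply]
    rw [Fintype.sum_prod_type]
    refine le_trans (Finset.sum_le_sum fun j _ => ?_) h4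
    have e1 : ∑ i, w j * (r * z i) * star (w j * (r * z i)) =
        w j * (r * (∑ i, z i * star (z i)) * r) * star (w j) := by
      rw [Finset.mul_sum, Finset.sum_mul, Finset.mul_sum, Finset.sum_mul]
      refine Finset.sum_congr rfl fun i _ => ?_
      rw [star_mul (w j), star_mul r, hrs]
      noncomm_ring
    rw [e1]
    have e2 := rsq_conj_le hε'0 hW0 hsum
    rw [← hr] at e2
    have e3 := star_right_conjugate_le_conjugate e2 (w j)
    rwa [mul_one] at e3

end Rel

end Pool.Agent.Lib.EJS.TS
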