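import Pool.Agent.Lib.EJS.TSHB
import Pool.Agent.Lib.EJS.TSRelA

/-!
# TS2: uniformly small traces

PROOF.  `cancel`: by induction `Rel (n a + x) (n b + x)`: `(n + 1) a + x = n a + (a + x)` is below
`n a + (b + x) = b + (n a + x)` (`Rel.add`, `Rel.refl`, the hypothesis), which is below
`b + (n b + x)`.  Then `n a ≤ n a + x` and `n b + x ≤ n b + ‖x‖`, and `Rel` can be divided by `n`
(replace `z` by `z / √n`; `ε n` for `ε`): `Rel a (b + ‖x‖ / n)`.

`ts_rel`: `ts_hb` with `η = δ / 2` gives `a + X ≤ 3/2 δ + X'`, `X = ∑ x* x`, `X' = ∑ x x*`.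
`Rel (a + X) (3/2 δ + X)`: `a + X ≤ 3/2 δ + X'` and `Rel X' X` (`of_comm`), `Rel` is additive and
transitive.  `cancel` with `n` so large that `‖X‖ / n ≤ δ / 2`.
-/

open scoped ComplexOrder

namespace Pool.Agent.Lib.EJS.TS

open Pool.Agent.Lib.EqGamma

variable {A : Type*} [CStarAlgebra A] [PartialOrder A] [StarOrderedRing A]

namespace TSRelBAux

theorem iter {a b x : A} (ha : 0 ≤ a) (hb : 0 ≤ b) (hx : 0 ≤ x) (h : Rel (a + x) (b + x)) (n : ℕ) :
    Rel (n • a + x) (n • b + x) := by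
  induction n with
  | zero =>
    rw [zero_smul, zero_smul, zero_add]
    exact Rel.refl hx
  | succ n ih =>
    have h1 : Rel (n • a + (a + x)) (n • a + (b + x)) := (Rel.refl (nsmul_nonneg ha n)).add h
    have h2 : Rel (b + (n • a + x)) (b + (n • b + x)) := (Rel.refl hb).add ih
    have e1 : (n + 1) • a + x = n • a + (a + x) := by rw [succ_nsmul]; abel
    have e2 : n • a + (b + x) = b + (n • a + x) := by abel
    have e3 : (n + 1) • b + x = b + (n • b + x) := by rw [succ_nsmul]; abel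
    rw [e1, e3]
    rw [e2] at h1
    exact h1.trans h2

theorem divide {a b : A} {n : ℕ} (hn : 0 < n) (h : Rel ((n : ℝ) • a) ((n : ℝ) • b)) : Rel a b := by
  intro ε hε
  have hn0 : (0 : ℝ) < n := by exact_mod_cast hn
  obtain ⟨m, z, h1, h2⟩ := h (n * ε) (by positivity)
  have hs : ((n : ℝ)⁻¹).sqrt * ((n : ℝ)⁻¹).sqrt = (n : ℝ)⁻¹ := Real.mul_self_sqrt (by positivity)
  have hi : (0 : ℝ) ≤ (n : ℝ)⁻¹ := by positivity
  have e1 : ∑ i, star (((n : ℝ)⁻¹).sqrt • z i) * (((n : ℝ)⁻¹).sqrt • z i) = (n : ℝ)⁻¹ • ∑ i, star (z i) * z i := by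
    rw [Finset.smul_sum]
    refine Finset.sum_congr rfl fun i _ => ?_
    rw [star_smul, star_trivial, smul_mul_smul_comm, hs]
  have e2 : ∑ i, (((n : ℝ)⁻¹).sqrt • z i) * star (((n : ℝ)⁻¹).sqrt • z i) = (n : ℝ)⁻¹ • ∑ i, z i * star (z i) := by
    rw [Finset.smul_sum]
    refine Finset.sum_congr rfl fun i _ => ?_
    rw [star_smul, star_trivial, smul_mul_smul_comm, hs]
  refine ⟨m, fun i => ((n : ℝ)⁻¹).sqrt • z i, ?_, ?_⟩
  · have h3 := smul_le_smul_of_nonneg_left h1 hi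
    rw [smul_smul, inv_mul_cancel₀ hn0.ne', one_smul, smul_add, ← e1, Algebra.algebraMap_eq_smul_one, smul_smul,
      inv_mul_cancel_left₀ hn0.ne', ← Algebra.algebraMap_eq_smul_one] at h3
    exact h3
  · have h3 := smul_le_smul_of_nonneg_left h2 hi
    rw [smul_smul, inv_mul_cancel₀ hn0.ne', one_smul, ← e2] at h3
    exact h3

end TSRelBAux

open TSRelBAux

theorem Rel.cancel {a b x : A} (ha : 0 ≤ a) (hb : 0 ≤ b) (hx : 0 ≤ x) (h : Rel (a + x) (b + x))
    {n : ℕ} (hn : 0 < n) : Rel a (b + algebraMap ℝ A (‖x‖ / n)) := by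
  have hn0 : (0 : ℝ) < n := by exact_mod_cast hn
  apply divide hn
  have h1 := iter ha hb hx h n
  have h2 : x ≤ algebraMap ℝ A ‖x‖ := IsSelfAdjoint.le_algebraMap_norm_self (IsSelfAdjoint.of_nonneg hx)
  refine h1.mono ?_ ?_
  · rw [Nat.cast_smul_eq_nsmul]
    exact le_add_of_nonneg_right hx
  · rw [smul_add, Nat.cast_smul_eq_nsmul]
    have e : (n : ℝ) • algebraMap ℝ A (‖x‖ / n) = algebraMap ℝ A ‖x‖ := by
      rw [Algebra.algebraMap_eq_smul_one, smul_smul, mul_div_cancel₀ _ hn0.ne', ← Algebra.algebraMap_eq_smul_one]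
    rw [e]
    exact add_le_add le_rfl h2

theorem ts_rel {a : A} (ha : 0 ≤ a) {δ : ℝ} (hδ : 0 < δ)
    (h : ∀ τ : A →ₗ[ℂ] ℂ, TracialState τ → reT τ a ≤ δ) : Rel a (algebraMap ℝ A (2 * δ)) := by
  obtain ⟨m, x, h1⟩ := ts_hb ha (half_pos hδ) h
  set X := ∑ i, star (x i) * x i with hX
  set X' := ∑ i, x i * star (x i) with hX'
  have hX0 : 0 ≤ X := Finset.sum_nonneg fun i _ => star_mul_self_nonneg (x i)
  have hX'0 : 0 ≤ X' := Finset.sum_nonneg fun i _ => mul_star_self_nonneg (x i)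
  have hc : 0 ≤ algebraMap ℝ A (δ + δ / 2) := by
    have := algebraMap_mono A (show (0 : ℝ) ≤ δ + δ / 2 by linarith)
    rwa [map_zero] at this
  have h2 : Rel (a + X) (algebraMap ℝ A (δ + δ / 2) + X') := (Rel.refl (add_nonneg hc hX'0)).mono h1 le_rfl
  have h3 : Rel (algebraMap ℝ A (δ + δ / 2) + X') (algebraMap ℝ A (δ + δ / 2) + X) :=
    (Rel.refl hc).add (Rel.of_comm x)
  obtain ⟨n, hn⟩ := exists_nat_gt (‖X‖ / (δ / 2))
  have hn0 : 0 < n := by
    have : (0 : ℝ) < n := lt_of_le_of_lt (by positivity) hn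
    exact_mod_cast this
  have h4 := (h2.trans h3).cancel ha hc hX0 hn0
  refine h4.mono le_rfl ?_
  rw [← map_add]
  apply algebraMap_mono
  have hn1 : (0 : ℝ) < n := by exact_mod_cast hn0
  have h5 : ‖X‖ / n ≤ δ / 2 := by
    rw [div_lt_iff₀ (by linarith)] at hn
    rw [div_le_iff₀ hn1]
    linarith
  linarith

end Pool.Agent.Lib.EJS.TS
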