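import Pool.Agent.Lib.EJS.TSBack
import Pool.Agent.Lib.EJS.TSCle
import Pool.Agent.Lib.EJS.TSCleB
import Pool.Agent.Lib.EJS.TSRelB

/-!
# The target of part TS: uniformly small traces imply comparison
-/

open scoped ComplexOrder

namespace Pool.Agent.Lib.EJS.TS

open Pool.Agent.Lib.EqGamma

variable {A : Type*} [CStarAlgebra A] [PartialOrder A] [StarOrderedRing A]

private theorem tsf_aux {a S : A} {δ ε : ℝ} {D : ℕ} (hδ : 0 < δ) (hδ' : 8 * δ * (D + 1) = ε / 4)
    (hS : (1 / (2 * δ)) • (a - algebraMap ℝ A (ε / 4)) ≤ S) :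
    (1 / (8 * δ)) • (a - algebraMap ℝ A (ε / 2)) ≤ (1 / 4 : ℝ) • S - algebraMap ℝ A (D + 1) := by
  have h1 := smul_le_smul_of_nonneg_left hS (by norm_num : (0 : ℝ) ≤ 1 / 4)
  have h2 : (1 / (8 * δ)) • (a - algebraMap ℝ A (ε / 2)) =
      (1 / 4 : ℝ) • ((1 / (2 * δ)) • (a - algebraMap ℝ A (ε / 4))) -
        algebraMap ℝ A ((D : ℝ) + 1) := by
    have h3 : (ε / 2 : ℝ) = ε / 4 + 8 * δ * (D + 1) := by linarith
    rw [h3, map_add, Algebra.algebraMap_eq_smul_one (8 * δ * ((D : ℝ) + 1)),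
      Algebra.algebraMap_eq_smul_one ((D : ℝ) + 1), smul_smul, ← sub_sub, smul_sub]
    have h4 : (1 / 4 : ℝ) * (1 / (2 * δ)) = 1 / (8 * δ) := by
      field_simp
      norm_num
    rw [h4, smul_smul]
    congr 2
    field_simp
  rw [h2]
  exact sub_le_sub_right h1 _

theorem trace_small (hA : IsNuclear A) (N : ℕ) {ε : ℝ} (hε : 0 < ε) : ∃ δ : ℝ, 0 < δ ∧
    ∀ a : A, 0 ≤ a → ‖a‖ ≤ 1 → (∀ τ : A →ₗ[ℂ] ℂ, TracialState τ → reT τ a ≤ δ) →
      ∃ M : ℕ, 0 < M ∧ Cle (fun _ : Fin (N * M) => cfc (fun t : ℝ => max (t - ε) 0) a)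
        (fun _ : Fin M => (1 : A)) := by
  classical
  set D : ℕ := 2 * N with hD
  set δ : ℝ := ε / (32 * (D + 1)) with hδdef
  have hδ : 0 < δ := by positivity
  have hδ' : 8 * δ * (D + 1) = ε / 4 := by
    rw [hδdef]
    field_simp
    norm_num
  refine ⟨δ, hδ, fun a ha _ hτ => ?_⟩
  obtain ⟨m, z, hz1, hz2⟩ := ts_rel ha hδ hτ (ε / 4) (by positivity)
  set s : ℝ := (√(2 * δ))⁻¹ with hs
  have hss : s * s = 1 / (2 * δ) := by
    rw [hs, ← mul_inv, Real.mul_self_sqrt (by positivity), one_div]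
  set c : Fin m → A := fun i => s • z i with hc
  have hstar : ∀ i, star (c i) = s • star (z i) := fun i => by
    rw [hc]
    simp
  have hc1 : ∑ i, c i * star (c i) = (1 / (2 * δ)) • ∑ i, z i * star (z i) := by
    rw [Finset.smul_sum]
    refine Finset.sum_congr rfl fun i _ => ?_
    rw [hstar, hc]
    simp only [smul_mul_smul_comm, hss]
  have hc2 : ∑ i, star (c i) * c i = (1 / (2 * δ)) • ∑ i, star (z i) * z i := by
    rw [Finset.smul_sum]
    refine Finset.sum_congr rfl fun i _ => ?_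
    rw [hstar, hc]
    simp only [smul_mul_smul_comm, hss]
  have hc3 : ∑ i, c i * star (c i) ≤ 1 := by
    rw [hc1]
    have h1 := smul_le_smul_of_nonneg_left hz2 (by positivity : (0 : ℝ) ≤ 1 / (2 * δ))
    refine h1.trans (le_of_eq ?_)
    rw [Algebra.algebraMap_eq_smul_one, smul_smul, one_div, inv_mul_cancel₀ (by positivity),
      one_smul]
  obtain ⟨Q, R, iQ, iR, iD, G, hQ, hR, hG⟩ := ts6 hA c hc3 D (κ := 1) one_pos
  set y : A := (1 / 4 : ℝ) • (∑ i, star (c i) * c i) - algebraMap ℝ A (D + 1) with hy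
  have hS : (1 / (2 * δ)) • (a - algebraMap ℝ A (ε / 4)) ≤ ∑ i, star (c i) * c i := by
    rw [hc2]
    refine smul_le_smul_of_nonneg_left ?_ (by positivity)
    rw [sub_le_iff_le_add]
    exact hz1
  have hya : (1 / (8 * δ)) • (a - algebraMap ℝ A (ε / 2)) ≤ y := tsf_aux hδ hδ' hS
  have hysa : IsSelfAdjoint y := by
    rw [hy]
    refine IsSelfAdjoint.sub (IsSelfAdjoint.smul (by rw [IsSelfAdjoint, star_trivial]) ?_) ?_
    · rw [IsSelfAdjoint, star_sum]
      refine Finset.sum_congr rfl fun i _ => ?_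
      rw [star_mul, star_star]
    · exact (IsSelfAdjoint.all _).algebraMap A
  have h1 : Cle (fun _ : Unit => cfc (fun s : ℝ => max (s - ε) 0) a)
      (fun _ : Unit => cfc (fun s : ℝ => max s 0) y) :=
    cle_pos ha hysa (by positivity) hε hya
  have h2 := h1.copies (σ := Fin D × Q)
  have h3 : Cle (fun _ : Fin D × Q => cfc (fun t : ℝ => max t 0) y) (fun _ : R => (1 : A)) :=
    cle_of_le hysa G hG
  refine ⟨2 * Fintype.card Q, by omega, ?_⟩
  have hcard : Fintype.card (Fin (N * (2 * Fintype.card Q))) =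
      Fintype.card ((Fin D × Q) × Unit) := by
    rw [Fintype.card_fin, Fintype.card_prod, Fintype.card_prod, Fintype.card_fin,
      Fintype.card_unit, hD]
    ring
  let e : Fin (N * (2 * Fintype.card Q)) ≃ (Fin D × Q) × Unit := Fintype.equivOfCardEq hcard
  have h4 : Cle (fun _ : Fin (N * (2 * Fintype.card Q)) =>
      cfc (fun t : ℝ => max (t - ε) 0) a)
      (fun _ : (Fin D × Q) × Unit => cfc (fun t : ℝ => max (t - ε) 0) a) :=
    Cle.comp_equiv e (fun _ => cfc (fun t : ℝ => max (t - ε) 0) a)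
  have h5 : Cle (fun _ : (Fin D × Q) × Unit => cfc (fun s : ℝ => max s 0) y)
      (fun _ : Fin D × Q => cfc (fun s : ℝ => max s 0) y) :=
    Cle.comp_equiv (Equiv.prodPUnit (Fin D × Q)) (fun _ => cfc (fun s : ℝ => max s 0) y)
  have hcard' : Fintype.card R ≤ Fintype.card (Fin (2 * Fintype.card Q)) := by
    rw [Fintype.card_fin]
    exact hR
  obtain ⟨j⟩ := Function.Embedding.nonempty_of_card_le hcard'
  have h6 : Cle (fun _ : R => (1 : A)) (fun _ : Fin (2 * Fintype.card Q) => (1 : A)) :=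
    Cle.of_injective j.injective (fun _ => (1 : A))
  exact (((h4.trans h2).trans h5).trans h3).trans h6

end Pool.Agent.Lib.EJS.TS
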