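import Pool.Agent.Lib.EqGamma.GLim

/-!
# TS1: Hahn-Banach

PROOF.  Work in the real Banach space `selfAdjoint A` (or in `A` with the real parts of functionals,
using `x ↦ (x + star x) / 2`).  `C := {b self-adjoint | ∃ m (x : Fin m → A), b + ∑ x* x ≤ ∑ x x*}` is
a convex cone, contains every `b ≤ 0` (in particular a neighbourhood of `-1`: `‖b + 1‖ < 1` and `b`
self-adjoint give `b ≤ 0`), and contains `∑ x x* - ∑ x* x` for all families.  If
`a - (δ + η) ∉ C`, then a real functional `f ≠ 0` on the self-adjoint part has
`f ≤ 0` on `C`, `f (a - δ - η) ≥ 0` (`geometric_hahn_banach_open_point` for the interior of `C`, or any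
form of the convex separation theorem; a convex set with nonempty interior and a point not in
it, or in its closure's complement; the closure can be avoided by using `η / 2`).  `f ≥ 0` on
positive elements; `f (x x*) = f (x* x)` (the elements `x x* - x* x` and `x* x - x x*` are in `C`).
`f 1 > 0`: otherwise `f = 0` since `-‖b‖ ≤ b ≤ ‖b‖`.  Normalise, extend complex linearly
(`τ x = f (re x) + i f (im x)`): a tracial state (`τ (x y) = τ (y x)` by polarisation of
`τ (x* x) = τ (x x*)`) with `τ a ≥ δ + η`, a contradiction.  If there is no tracial state the hypothesis is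
void and the same proof works.
-/

open scoped ComplexOrder

namespace Pool.Agent.Lib.EJS.TS

open Pool.Agent.Lib.EqGamma

variable {A : Type*} [CStarAlgebra A] [PartialOrder A] [StarOrderedRing A]

/-- the open cone -/
def OC (b : A) : Prop := ∃ r : ℝ, 0 < r ∧ ∃ (m : ℕ) (x : Fin m → A),
  b + star b + algebraMap ℝ A r + ∑ i, star (x i) * x i ≤ ∑ i, x i * star (x i)

theorem OC.add {b c : A} (hb : OC b) (hc : OC c) : OC (b + c) := by
  obtain ⟨r, hr, m, x, hx⟩ := hb
  obtain ⟨s, hs, n, y, hy⟩ := hc
  refine ⟨r + s, add_pos hr hs, m + n, Fin.append x y, ?_⟩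
  simp only [Fin.sum_univ_add, Fin.append_left, Fin.append_right, map_add, star_add]
  have := add_le_add hx hy
  refine le_trans (le_of_eq ?_) this
  abel

theorem OC.smul {b : A} (hb : OC b) {t : ℝ} (ht : 0 < t) : OC (t • b) := by
  obtain ⟨r, hr, m, x, hx⟩ := hb
  refine ⟨t * r, mul_pos ht hr, m, fun i => √t • x i, ?_⟩
  have h1 : √t * √t = t := Real.mul_self_sqrt ht.le
  have h2 : ∀ y : A, star (√t • y) * (√t • y) = t • (star y * y) := by
    intro y
    rw [star_smul, star_trivial, smul_mul_smul_comm, h1]
  have h3 : ∀ y : A, (√t • y) * star (√t • y) = t • (y * star y) := by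
    intro y
    rw [star_smul, star_trivial, smul_mul_smul_comm, h1]
  simp only [h2, h3, ← Finset.smul_sum]
  have h4 := smul_le_smul_of_nonneg_left hx ht.le
  refine le_trans (le_of_eq ?_) h4
  rw [star_smul, star_trivial, smul_add, smul_add, smul_add, Algebra.algebraMap_eq_smul_one,
    Algebra.algebraMap_eq_smul_one, smul_smul]

omit [StarOrderedRing A] in
theorem OC.of_le {b : A} {r : ℝ} (hr : 0 < r) (h : b + star b + algebraMap ℝ A r ≤ 0) : OC b :=
  ⟨r, hr, 0, Fin.elim0, by simpa using h⟩

theorem OC.isOpen : IsOpen {b : A | OC b} := by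
  rw [Metric.isOpen_iff]
  rintro b ⟨r, hr, m, x, hx⟩
  refine ⟨r / 4, by positivity, ?_⟩
  intro c hc
  rw [Metric.mem_ball, dist_eq_norm] at hc
  refine ⟨r / 2, by positivity, m, x, le_trans ?_ hx⟩
  have h1 : IsSelfAdjoint ((c - b) + star (c - b)) := IsSelfAdjoint.add_star_self _
  have h2 : (c - b) + star (c - b) ≤ algebraMap ℝ A (r / 2) := by
    refine h1.le_algebraMap_norm_self.trans (algebraMap_mono _ ?_)
    refine (norm_add_le _ _).trans ?_
    rw [norm_star]
    linarith
  have h3 : algebraMap ℝ A r = algebraMap ℝ A (r / 2) + algebraMap ℝ A (r / 2) := by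
    rw [← map_add, add_halves]
  have h4 : c + star c + algebraMap ℝ A (r / 2) ≤ b + star b + algebraMap ℝ A r := by
    rw [h3]
    have h5 : c + star c + algebraMap ℝ A (r / 2) =
        b + star b + algebraMap ℝ A (r / 2) + ((c - b) + star (c - b)) := by
      rw [star_sub]; abel
    rw [h5, ← add_assoc (b + star b)]
    exact add_le_add_right h2 _
  exact add_le_add_left h4 _

theorem OC.convex : Convex ℝ {b : A | OC b} := by
  intro b hb c hc s t hs ht hst
  rcases hs.lt_or_eq with hs | rfl
  · rcases ht.lt_or_eq with ht | rfl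
    · exact (OC.smul hb hs).add (OC.smul hc ht)
    · rw [add_zero] at hst
      subst hst
      simpa using hb
  · rw [zero_add] at hst
    subst hst
    simpa using hc

/-- the state given by a functional nonpositive on the cone -/
theorem exists_tracial {f : A →ₗ[ℝ] ℝ} (hf : ∀ b, OC b → f b ≤ 0) (h1 : f 1 = 1) :
    ∃ τ : A →ₗ[ℂ] ℂ, TracialState τ ∧ ∀ x, reT τ x = f x := by
  have key : ∀ b : A, (∀ ε : ℝ, 0 < ε → OC (b - algebraMap ℝ A ε)) → f b ≤ 0 := by
    intro b hb
    refine le_of_forall_pos_le_add fun ε hε => ?_
    have := hf _ (hb ε hε)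
    rw [map_sub, Algebra.algebraMap_eq_smul_one, map_smul, h1, smul_eq_mul, mul_one] at this
    linarith
  have sa : ∀ ε : ℝ, star (algebraMap ℝ A ε) = algebraMap ℝ A ε := by
    intro ε
    rw [Algebra.algebraMap_eq_smul_one, star_smul, star_trivial, star_one]
  -- skew elements
  have skew : ∀ b : A, star b = -b → f b = 0 := by
    have : ∀ b : A, star b = -b → f b ≤ 0 := by
      intro b hb
      refine key b fun ε hε => ?_
      refine OC.of_le hε ?_
      rw [star_sub, sa, hb]
      have : b - algebraMap ℝ A ε + (-b - algebraMap ℝ A ε) + algebraMap ℝ A ε =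
        - algebraMap ℝ A ε := by abel
      rw [this, neg_nonpos]
      exact algebraMap_nonneg _ hε.le
    intro b hb
    refine le_antisymm (this b hb) ?_
    have h := this (-b) (by rw [star_neg, hb])
    rw [map_neg] at h
    linarith
  have fstar : ∀ b : A, f (star b) = f b := by
    intro b
    have := skew (star b - b) (by rw [star_sub, star_star]; abel)
    rw [map_sub] at this
    linarith
  have pos : ∀ b : A, 0 ≤ b → 0 ≤ f b := by
    intro b hb
    have h := key (-b) fun ε hε => ?_
    · rw [map_neg] at h
      linarith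
    · refine OC.of_le hε ?_
      rw [star_sub, sa, star_neg, (IsSelfAdjoint.of_nonneg hb).star_eq]
      have : -b - algebraMap ℝ A ε + (-b - algebraMap ℝ A ε) + algebraMap ℝ A ε =
        - (b + b + algebraMap ℝ A ε) := by abel
      rw [this, neg_nonpos]
      exact add_nonneg (add_nonneg hb hb) (algebraMap_nonneg _ hε.le)
  have tr1 : ∀ x : A, f (star x * x) ≤ f (x * star x) := by
    intro x
    have h := key (star x * x - x * star x) fun ε hε => ?_
    · rw [map_sub] at h
      linarith
    · refine ⟨ε, hε, 1, fun _ => √2 • star x, ?_⟩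
      have h2 : (√2 : ℝ) * √2 = 2 := Real.mul_self_sqrt (by norm_num)
      have h3 : ∀ y : A, star (√2 • y) * (√2 • y) = star y * y + star y * y := by
        intro y
        rw [star_smul, star_trivial, smul_mul_smul_comm, h2, two_smul]
      have h4 : ∀ y : A, (√2 • y) * star (√2 • y) = y * star y + y * star y := by
        intro y
        rw [star_smul, star_trivial, smul_mul_smul_comm, h2, two_smul]
      rw [Fin.sum_univ_one, Fin.sum_univ_one, h3, h4, star_star]
      simp only [star_sub, star_mul, star_star, sa]
      have : star x * x - x * star x - algebraMap ℝ A ε +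
          (star x * x - x * star x - algebraMap ℝ A ε) + algebraMap ℝ A ε +
          (x * star x + x * star x) = star x * x + star x * x - algebraMap ℝ A ε := by abel
      rw [this, sub_le_self_iff]
      exact algebraMap_nonneg _ hε.le
  have tr2 : ∀ x : A, f (star x * x) = f (x * star x) := by
    intro x
    refine le_antisymm (tr1 x) ?_
    have := tr1 (star x)
    rwa [star_star] at this
  have tr3 : ∀ x y : A, f (x * y) = f (y * x) := by
    have : ∀ x y : A, f (star x * y) = f (y * star x) := by
      intro x y
      have h := tr2 (x + y)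
      simp only [star_add, add_mul, mul_add, map_add, tr2 x, tr2 y] at h
      have e1 : f (star y * x) = f (star x * y) := by
        rw [← fstar (star x * y), star_mul, star_star]
      have e2 : f (x * star y) = f (y * star x) := by
        rw [← fstar (y * star x), star_mul, star_star]
      rw [e1, e2] at h
      linarith
    intro x y
    have := this (star x) y
    rwa [star_star] at this
  -- the complex functional
  let τ : A →ₗ[ℂ] ℂ :=
    { toFun := fun x => ⟨f x, -f (Complex.I • x)⟩
      map_add' := by
        intro x y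
        apply Complex.ext
        · simp
        · simp only [smul_add, map_add, Complex.add_im]; ring
      map_smul' := by
        intro c x
        have hx : c • x = c.re • x + c.im • (Complex.I • x) := by
          rw [← Complex.coe_smul c.re x, ← Complex.coe_smul c.im (Complex.I • x), smul_smul,
            ← add_smul, Complex.re_add_im]
        have hx' : Complex.I • (c • x) = c.re • (Complex.I • x) - c.im • x := by
          rw [hx, smul_add, smul_comm Complex.I c.re, smul_comm Complex.I c.im,
            smul_smul Complex.I Complex.I x, Complex.I_mul_I, neg_smul, one_smul, smul_neg,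
            sub_eq_add_neg]
        apply Complex.ext
        · rw [hx]
          simp only [map_add, map_smul, smul_eq_mul, RingHom.id_apply, Complex.mul_re]
          ring
        · simp only [hx', map_sub, map_smul, smul_eq_mul, RingHom.id_apply, Complex.mul_im]
          ring }
  have τre : ∀ x, (τ x).re = f x := fun x => rfl
  have τim : ∀ x, (τ x).im = -f (Complex.I • x) := fun x => rfl
  refine ⟨τ, ⟨?_, ?_, ?_⟩, fun x => rfl⟩
  · apply Complex.ext
    · rw [τre, h1, Complex.one_re]
    · rw [τim, skew, neg_zero, Complex.one_im]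
      rw [star_smul, star_one, Complex.star_def, Complex.conj_I, neg_smul]
  · intro x
    rw [Complex.nonneg_iff, τre, τim]
    refine ⟨pos _ (star_mul_self_nonneg x), ?_⟩
    rw [skew, neg_zero]
    rw [star_smul, star_mul, star_star, Complex.star_def, Complex.conj_I, neg_smul]
  · intro x y
    apply Complex.ext
    · rw [τre, τre, tr3]
    · rw [τim, τim, ← smul_mul_assoc, tr3, mul_smul_comm]

theorem ts_hb {a : A} (ha : 0 ≤ a) {δ η : ℝ} (hη : 0 < η)
    (h : ∀ τ : A →ₗ[ℂ] ℂ, TracialState τ → reT τ a ≤ δ) :
    ∃ (m : ℕ) (x : Fin m → A), a + ∑ i, star (x i) * x i ≤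
      algebraMap ℝ A (δ + η) + ∑ i, x i * star (x i) := by
  have sa : ∀ ε : ℝ, star (algebraMap ℝ A ε) = algebraMap ℝ A ε := by
    intro ε
    rw [Algebra.algebraMap_eq_smul_one, star_smul, star_trivial, star_one]
  by_cases hp : OC (a - algebraMap ℝ A (δ + η))
  · obtain ⟨r, hr, m, x, hx⟩ := hp
    refine ⟨m, fun i => (√(1 / 2) : ℝ) • x i, ?_⟩
    have h1 : √(1 / 2 : ℝ) * √(1 / 2 : ℝ) = 1 / 2 := Real.mul_self_sqrt (by norm_num)
    have h2 : ∀ y : A, star (√(1 / 2 : ℝ) • y) * (√(1 / 2 : ℝ) • y) =
        (1 / 2 : ℝ) • (star y * y) := by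
      intro y
      rw [star_smul, star_trivial, smul_mul_smul_comm, h1]
    have h3 : ∀ y : A, (√(1 / 2 : ℝ) • y) * star (√(1 / 2 : ℝ) • y) =
        (1 / 2 : ℝ) • (y * star y) := by
      intro y
      rw [star_smul, star_trivial, smul_mul_smul_comm, h1]
    simp only [h2, h3, ← Finset.smul_sum]
    rw [star_sub, sa, (IsSelfAdjoint.of_nonneg ha).star_eq] at hx
    have h4 : a - algebraMap ℝ A (δ + η) + (a - algebraMap ℝ A (δ + η)) +
        ∑ i, star (x i) * x i ≤ ∑ i, x i * star (x i) := by
      refine le_trans (add_le_add_left ?_ _) hx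
      exact le_add_of_nonneg_right (algebraMap_nonneg _ hr.le)
    have h5 := smul_le_smul_of_nonneg_left h4 (show (0 : ℝ) ≤ 1 / 2 by norm_num)
    rw [smul_add, smul_add, ← add_smul, add_halves, one_smul] at h5
    have h6 := add_le_add_right h5 (algebraMap ℝ A (δ + η))
    refine le_trans (le_of_eq ?_) h6
    abel
  · exfalso
    obtain ⟨f, hf⟩ := geometric_hahn_banach_open_point OC.convex OC.isOpen hp
    have hf' : ∀ b, OC b → f b < f (a - algebraMap ℝ A (δ + η)) := hf
    have neg1 : OC (-1 : A) := by
      refine OC.of_le one_pos ?_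
      rw [star_neg, star_one, map_one]
      have : (-1 : A) + -1 + 1 = -1 := by abel
      rw [this, neg_nonpos]
      exact zero_le_one
    have hf0 : ∀ b, OC b → f b ≤ 0 := by
      intro b hb
      by_contra hc
      rw [not_le] at hc
      set P := f (a - algebraMap ℝ A (δ + η)) with hP
      have hPpos : 0 < P := hc.trans (hf' b hb)
      have := hf' _ (hb.smul (t := P / f b) (by positivity))
      rw [map_smul, smul_eq_mul, div_mul_cancel₀ _ hc.ne'] at this
      exact lt_irrefl _ this
    have hfP : 0 ≤ f (a - algebraMap ℝ A (δ + η)) := by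
      by_contra hc
      rw [not_le] at hc
      set P := f (a - algebraMap ℝ A (δ + η)) with hP
      have h1 := hf' _ neg1
      have h2 := h1.trans hc
      have := hf' _ (neg1.smul (t := P / f (-1)) (div_pos_of_neg_of_neg hc h2))
      rw [map_smul, smul_eq_mul, div_mul_cancel₀ _ h2.ne] at this
      exact lt_irrefl _ this
    have hf1 : 0 < f 1 := by
      have h0 := hf0 _ neg1
      rw [map_neg] at h0
      have h0' : 0 ≤ f 1 := by linarith
      rcases h0'.lt_or_eq with h0' | h0'
      · exact h0'
      · exfalso
        have hz : ∀ b : A, f b ≤ 0 := by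
          intro b
          have : OC (b - algebraMap ℝ A (‖b‖ + 1)) := by
            refine OC.of_le one_pos ?_
            rw [star_sub, sa]
            have h1 : IsSelfAdjoint (b + star b) := IsSelfAdjoint.add_star_self _
            have h2 : b + star b ≤ algebraMap ℝ A (‖b‖ + ‖b‖) := by
              refine h1.le_algebraMap_norm_self.trans (algebraMap_mono _ ?_)
              refine (norm_add_le _ _).trans ?_
              rw [norm_star]
            have h3 : b - algebraMap ℝ A (‖b‖ + 1) + (star b - algebraMap ℝ A (‖b‖ + 1)) +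
                algebraMap ℝ A 1 = (b + star b) - algebraMap ℝ A (‖b‖ + ‖b‖) - 1 := by
              simp only [map_add, map_one]; abel
            rw [h3]
            have h4 : b + star b - algebraMap ℝ A (‖b‖ + ‖b‖) ≤ 0 := sub_nonpos.2 h2
            have h5 : (0 : A) ≤ 1 := zero_le_one
            exact (sub_le_self _ h5).trans h4
          have h := hf0 _ this
          rw [map_sub, Algebra.algebraMap_eq_smul_one, map_smul, ← h0', smul_zero, sub_zero] at h
          exact h
        have h1 := hf' _ neg1
        rw [map_neg, ← h0', neg_zero] at h1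
        exact absurd (hz _) (not_le.2 h1)
    set g : A →ₗ[ℝ] ℝ := (f 1)⁻¹ • (f : A →ₗ[ℝ] ℝ) with hg
    have hg' : ∀ x, g x = (f 1)⁻¹ * f x := fun x => rfl
    obtain ⟨τ, hτ, hτg⟩ := exists_tracial (f := g)
      (fun b hb => by
        rw [hg']
        exact mul_nonpos_of_nonneg_of_nonpos (inv_nonneg.2 hf1.le) (hf0 b hb))
      (by rw [hg', inv_mul_cancel₀ hf1.ne'])
    have h1 := h τ hτ
    rw [hτg, hg'] at h1
    rw [map_sub, Algebra.algebraMap_eq_smul_one, map_smul, smul_eq_mul] at hfP
    have h2 : f a ≤ δ * f 1 := by
      rw [inv_mul_le_iff₀ hf1] at h1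
      linarith
    nlinarith

end Pool.Agent.Lib.EJS.TS
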