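import Mathlib

/-!
# TS5: the abstract moment bound

PROOF.  With `B x y` for the form and `L > 0`:
`0 ≤ B (L x - h x) (h (L x - h x)) + (L B (h x) (h x) - B (h x) (h (h x))) = L (L B x (h x) - B (h x) (h x))` (expand,
use the symmetry `B (h x) y = B x (h y)`), so `B (h x) (h x) ≤ L B x (h x) ≤ L² B x x`; iterate.  `L = 0`: then
`B x (h x) = 0` for all `x`, by polarisation `B y (h x) = 0` for all `x, y`, so `B (h x) (h x) = 0`.
-/

namespace Pool.Agent.Lib.EJS.TS

theorem moment_step {V : Type*} [AddCommGroup V] [Module ℝ V] (B : V → V → ℝ)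
    (hadd : ∀ x y w, B (x + y) w = B x w + B y w) (hsmul : ∀ (c : ℝ) x w, B (c • x) w = c * B x w)
    (hsymm : ∀ x y, B x y = B y x) (h : V →ₗ[ℝ] V) (hh : ∀ x y, B (h x) y = B x (h y)) {L : ℝ}
    (hL : 0 ≤ L) (h0 : ∀ x, 0 ≤ B x (h x)) (h1 : ∀ x, B x (h x) ≤ L * B x x) (x : V) :
    B (h x) (h x) ≤ L ^ 2 * B x x := by
  have radd : ∀ x y w, B w (x + y) = B w x + B w y := by
    intro x y w
    rw [hsymm, hadd, hsymm x, hsymm y]
  have rsmul : ∀ (c : ℝ) x w, B w (c • x) = c * B w x := by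
    intro c x w
    rw [hsymm, hsmul, hsymm x]
  rcases hL.eq_or_lt with rfl | hpos
  · have hz : ∀ y, B y (h y) = 0 := fun y => le_antisymm (by simpa using h1 y) (h0 y)
    have h2 := hz (x + h x)
    rw [map_add, hadd, radd, radd, hz x, hz (h x), ← hh x (h x)] at h2
    have : B (h x) (h x) = 0 := by linarith
    rw [this]
    simp
  · have h2 := h0 (L • x + (-1 : ℝ) • h x)
    have h3 := h1 (h x)
    rw [map_add, map_smul, map_smul, hadd, radd, radd, hsmul, hsmul, hsmul, hsmul, rsmul, rsmul,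
      rsmul, rsmul, ← hh x (h x)] at h2
    have h4 : 0 ≤ L * (L * B x (h x) - B (h x) (h x)) := by nlinarith
    have h5 : 0 ≤ L * B x (h x) - B (h x) (h x) := nonneg_of_mul_nonneg_right h4 hpos
    have h6 : L * B x (h x) ≤ L * (L * B x x) := mul_le_mul_of_nonneg_left (h1 x) hL
    nlinarith

/-- the abstract moment bound -/
theorem moment_abs {V : Type*} [AddCommGroup V] [Module ℝ V] (B : V → V → ℝ)
    (hadd : ∀ x y w, B (x + y) w = B x w + B y w) (hsmul : ∀ (c : ℝ) x w, B (c • x) w = c * B x w)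
    (hsymm : ∀ x y, B x y = B y x) (h : V →ₗ[ℝ] V) (hh : ∀ x y, B (h x) y = B x (h y)) {L : ℝ}
    (hL : 0 ≤ L) (h0 : ∀ x, 0 ≤ B x (h x)) (h1 : ∀ x, B x (h x) ≤ L * B x x) (m : ℕ) (x : V) :
    B ((h ^ m) x) ((h ^ m) x) ≤ L ^ (2 * m) * B x x := by
  induction m with
  | zero => simp
  | succ m ih =>
    have e : (h ^ (m + 1)) x = h ((h ^ m) x) := by
      rw [pow_succ']
      rfl
    rw [e]
    calc B (h ((h ^ m) x)) (h ((h ^ m) x)) ≤ L ^ 2 * B ((h ^ m) x) ((h ^ m) x) :=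
          moment_step B hadd hsmul hsymm h hh hL h0 h1 _
      _ ≤ L ^ 2 * (L ^ (2 * m) * B x x) := mul_le_mul_of_nonneg_left ih (by positivity)
      _ = L ^ (2 * (m + 1)) * B x x := by ring

end Pool.Agent.Lib.EJS.TS
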