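import Pool.Agent.Lib.EJS.TSOp
import Pool.Agent.Lib.EJS.TSMomA

/-!
# TS5: the moments at the identity

PROOF.  `V` := the submodule of the finitely supported functions `H → P → ℂ`, `B f g = re (ip f g)`,
`h = hop L z M` on `V` (`support_op`).  `hh` from `ip_op_symm`; `0 ≤ B f (h f)` from
`re (ip f (op f)) ≤ nrm M * re (ip f f) = L re (ip f f)` (`abs_re_ip_op_le`), `B f (h f) ≤ L B f f` from `hpos`.  `moment_abs`:
`re (ip (h^m δ) (h^m δ)) ≤ L^(2m) re (ip δ δ) = L^(2m)` for `δ = del p`.  By the symmetry of `h`
`ip (h^m δ) (h^m δ) = ip δ (h^(2m) δ) = (h^(2m) δ) 1 p`.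
-/

open scoped ComplexOrder

namespace Pool.Agent.Lib.EJS.TS

section

variable {H : Type*} [Group H] {P : Type*} [Fintype P]

/-- the finitely supported functions -/
def momV (H P : Type*) : Submodule ℝ (H → P → ℂ) where
  carrier := {f | (Function.support f).Finite}
  add_mem' {f g} hf hg := (Set.Finite.union hf hg).subset (Function.support_add f g)
  zero_mem' := by
    change (Function.support (0 : H → P → ℂ)).Finite
    rw [Function.support_zero]
    exact Set.finite_empty
  smul_mem' c f hf := Set.Finite.subset hf (Function.support_const_smul_subset c f)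

omit [Group H] in
theorem mom_summable {f g : H → P → ℂ} (hf : (Function.support f).Finite) :
    Summable fun x => ∑ p, star (f x p) * g x p := by
  refine summable_of_hasFiniteSupport (hf.subset ?_)
  intro x hx hf0
  apply hx
  have hf0' : f x = 0 := by simpa using hf0
  simp [hf0']

omit [Group H] in
theorem ip_add_left {f g : H → P → ℂ} (hf : (Function.support f).Finite)
    (hg : (Function.support g).Finite) (w : H → P → ℂ) : ip (f + g) w = ip f w + ip g w := by
  unfold ip
  rw [← (mom_summable hf).tsum_add (mom_summable hg)]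
  refine tsum_congr fun x => ?_
  rw [← Finset.sum_add_distrib]
  refine Finset.sum_congr rfl fun p _ => ?_
  simp only [Pi.add_apply, star_add, add_mul]

omit [Group H] in
theorem ip_smul_left (c : ℝ) (f w : H → P → ℂ) : ip (c • f) w = c * ip f w := by
  unfold ip
  rw [← tsum_mul_left]
  refine tsum_congr fun x => ?_
  rw [Finset.mul_sum]
  refine Finset.sum_congr rfl fun p _ => ?_
  simp only [Pi.smul_apply, Complex.real_smul, star_mul', Complex.star_def, Complex.conj_ofReal]
  ring

omit [Group H] in
theorem ip_conj (f g : H → P → ℂ) : ip g f = star (ip f g) := by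
  unfold ip
  rw [Complex.star_def, Complex.conj_tsum]
  refine tsum_congr fun x => ?_
  rw [map_sum]
  refine Finset.sum_congr rfl fun p _ => ?_
  simp only [map_mul, Complex.conj_conj]
  ring

end

theorem moment_del {H : Type*} [Group H] [DecidableEq H] {T P : Type*} [Fintype T] [Fintype P]
    [DecidableEq P] {z : T → H} {M : T → Matrix P P ℂ} {σ : Equiv.Perm T}
    (hz : ∀ t, z (σ t) = (z t)⁻¹) (hM : ∀ t, M (σ t) = (M t).conjTranspose)
    (hpos : ∀ f : H → P → ℂ, (Function.support f).Finite → 0 ≤ (ip f (op z M f)).re) (m : ℕ)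
    (p : P) : ((hop (nrm M) z M)^[2 * m] (del p) 1 p).re ≤ nrm M ^ (2 * m) := by
  classical
  have hL0 : 0 ≤ nrm M := Finset.sum_nonneg fun t _ => Finset.sum_nonneg fun p _ =>
    Finset.sum_nonneg fun q _ => norm_nonneg _
  generalize hLd : nrm M = L at hL0 ⊢
  have hopeq : ∀ f : H → P → ℂ, hop L z M f = L • f + (-1 : ℝ) • op z M f := by
    intro f
    funext x p
    simp [hop, sub_eq_add_neg]
  have hsup : ∀ f ∈ momV H P, hop L z M f ∈ momV H P := by
    intro f hf
    rw [hopeq]
    exact Submodule.add_mem _ (Submodule.smul_mem _ _ hf)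
      (Submodule.smul_mem _ _ (support_op z M hf))
  let h : momV H P →ₗ[ℝ] momV H P :=
    { toFun := fun f => ⟨hop L z M f, hsup f f.2⟩
      map_add' := by
        intro f g
        apply Subtype.ext
        change hop L z M ((f : H → P → ℂ) + (g : H → P → ℂ)) =
          hop L z M (f : H → P → ℂ) + hop L z M (g : H → P → ℂ)
        rw [hopeq, hopeq, hopeq, op_add, smul_add, smul_add]
        abel
      map_smul' := by
        intro c f
        apply Subtype.ext
        change hop L z M (c • (f : H → P → ℂ)) = c • hop L z M (f : H → P → ℂ)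
        have e : c • (f : H → P → ℂ) = (c : ℂ) • (f : H → P → ℂ) := by
          funext x p
          simp
        have e2 : ((c : ℂ) • op z M (f : H → P → ℂ)) = c • op z M (f : H → P → ℂ) := by
          funext x p
          simp
        have e3 : op z M (c • (f : H → P → ℂ)) = c • op z M (f : H → P → ℂ) := by
          rw [e, op_smul, e2]
        rw [hopeq, hopeq, e3, smul_add, smul_comm c L, smul_comm c (-1 : ℝ)] }
  let B : momV H P → momV H P → ℝ := fun f g => (ip (f : H → P → ℂ) (g : H → P → ℂ)).re
  have hadd : ∀ x y w, B (x + y) w = B x w + B y w := by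
    intro x y w
    change (ip ((x : H → P → ℂ) + (y : H → P → ℂ)) (w : H → P → ℂ)).re = _
    rw [ip_add_left x.2 y.2, Complex.add_re]
  have hsmul : ∀ (c : ℝ) x w, B (c • x) w = c * B x w := by
    intro c x w
    change (ip (c • (x : H → P → ℂ)) (w : H → P → ℂ)).re = _
    rw [ip_smul_left, Complex.re_ofReal_mul]
  have hsymm : ∀ x y, B x y = B y x := by
    intro x y
    change (ip (x : H → P → ℂ) (y : H → P → ℂ)).re = _
    rw [ip_conj]
    simp [B]
  have hBh : ∀ x y, B (h x) y = L * B x y - (ip (op z M (x : H → P → ℂ)) (y : H → P → ℂ)).re := by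
    intro x y
    change (ip (hop L z M (x : H → P → ℂ)) (y : H → P → ℂ)).re = _
    rw [hopeq, ip_add_left (Submodule.smul_mem (momV H P) L x.2)
      (Submodule.smul_mem (momV H P) (-1 : ℝ) (show op z M (x : H → P → ℂ) ∈ momV H P from
        support_op z M x.2)), ip_smul_left, ip_smul_left, Complex.add_re, Complex.re_ofReal_mul,
      Complex.re_ofReal_mul]
    ring
  have hh : ∀ x y, B (h x) y = B x (h y) := by
    intro x y
    rw [hsymm x (h y), hBh, hBh, hsymm y x]
    have e1 := ip_op_symm hz hM x.2 y.2
    have e2 : (ip (op z M (y : H → P → ℂ)) (x : H → P → ℂ)).re =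
        (ip (x : H → P → ℂ) (op z M (y : H → P → ℂ))).re := by
      rw [ip_conj]
      simp
    rw [e1, e2]
  have hxx : ∀ x, B x (h x) = L * B x x -
      (ip (x : H → P → ℂ) (op z M (x : H → P → ℂ))).re := by
    intro x
    rw [← hh, hBh, ip_op_symm hz hM x.2 x.2]
  have h0 : ∀ x, 0 ≤ B x (h x) := by
    intro x
    have h2 := abs_re_ip_op_le z M x.2
    rw [hLd] at h2
    rw [hxx]
    have h3 := (abs_le.1 h2).2
    change _ ≤ L * B x x at h3
    linarith
  have h1 : ∀ x, B x (h x) ≤ L * B x x := by
    intro x
    rw [hxx]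
    have := hpos x x.2
    linarith
  have hdel : Function.support (del p : H → P → ℂ) ⊆ {1} := by
    intro x hx
    by_contra hcon
    apply hx
    funext q
    have : x ≠ 1 := hcon
    simp [del, this]
  let δ : momV H P := ⟨del p, (Set.finite_singleton (1 : H)).subset hdel⟩
  have hipd : ∀ g : H → P → ℂ, ip (del p) g = g 1 p := by
    intro g
    unfold ip
    rw [tsum_eq_single 1]
    · rw [Finset.sum_eq_single p]
      · simp [del]
      · intro q _ hq
        simp [del, hq]
      · intro hp
        exact absurd (Finset.mem_univ _) hp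
    · intro x hx
      apply Finset.sum_eq_zero
      intro q _
      simp [del, hx]
  have hpow : ∀ (k : ℕ) (x : momV H P), (((h ^ k) x : momV H P) : H → P → ℂ) =
      (hop L z M)^[k] (x : H → P → ℂ) := by
    intro k x
    induction k with
    | zero => rfl
    | succ k ih =>
      rw [pow_succ', Function.iterate_succ_apply', ← ih]
      rfl
  have hmove : ∀ (k : ℕ) (x y : momV H P), B ((h ^ k) x) y = B x ((h ^ k) y) := by
    intro k
    induction k with
    | zero => intro x y; rfl
    | succ k ih =>
      intro x y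
      rw [pow_succ]
      change B ((h ^ k) (h x)) y = B x ((h ^ k) (h y))
      rw [ih, hh]
      change B x ((h * h ^ k) y) = B x ((h ^ k * h) y)
      rw [← pow_succ', ← pow_succ]
  have key := moment_abs B hadd hsmul hsymm h hh hL0 h0 h1 m δ
  have e1 : B δ δ = 1 := by
    change (ip (del p) (del p : H → P → ℂ)).re = 1
    rw [hipd]
    simp [del]
  have e2 : B ((h ^ m) δ) ((h ^ m) δ) = ((hop L z M)^[2 * m] (del p) 1 p).re := by
    rw [hmove]
    change (ip (del p) (((h ^ m) ((h ^ m) δ) : momV H P) : H → P → ℂ)).re = _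
    rw [hipd]
    have : (h ^ m) ((h ^ m) δ) = (h ^ (2 * m)) δ := by
      rw [two_mul, pow_add]
      rfl
    rw [this, hpow]
  rw [e1, e2, mul_one] at key
  exact key

end Pool.Agent.Lib.EJS.TS
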