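import Pool.Agent.Lib.EJS.TSDefs

/-!
# TS5: the operators `op z M`, inner products

PROOFS.  All functions have finite support, so all sums over `H` are finite: `tsum` is additive
(`Summable.tsum_add`, `summable_of_finite_support`), may be exchanged with finite sums, and is
invariant under `x ↦ z x` (`(Equiv.mulLeft z).tsum_eq`).

`support_op`: the support is contained in the union of the `z t * support f`.
`ip_op_symm`: `∑'_x conj (M_t p q f (z_t⁻¹ x) q) g x p = ∑'_y conj (f y q) conj (M_t p q) g (z_t y) p`,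
`star (M t p q) = M (σ t) q p`, `z t = (z (σ t))⁻¹`; sum over `t` (`Equiv.sum_comp σ`).
`abs_re_ip_op_le`: `|conj a * m * b| ≤ |m| (|a|² + |b|²) / 2`, and
`∑'_x |f (z x) p|² = ∑'_x |f x p|² ≤ re (ip f f)`.
-/

open scoped ComplexOrder

namespace Pool.Agent.Lib.EJS.TS

section

variable {H : Type*} [Group H] {T P : Type*} [Fintype T] [Fintype P]

theorem op_add (z : T → H) (M : T → Matrix P P ℂ) (f g : H → P → ℂ) :
    op z M (f + g) = op z M f + op z M g := by
  funext x p
  simp only [op, Pi.add_apply, mul_add, Finset.sum_add_distrib]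

theorem op_smul (z : T → H) (M : T → Matrix P P ℂ) (c : ℂ) (f : H → P → ℂ) :
    op z M (c • f) = c • op z M f := by
  funext x p
  simp only [op, Pi.smul_apply, smul_eq_mul, Finset.mul_sum]
  refine Finset.sum_congr rfl fun t _ => Finset.sum_congr rfl fun q _ => ?_
  ring

theorem support_op (z : T → H) (M : T → Matrix P P ℂ) {f : H → P → ℂ}
    (hf : (Function.support f).Finite) : (Function.support (op z M f)).Finite := by
  refine Set.Finite.subset (Set.finite_iUnion fun t => hf.image fun x => z t * x) ?_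
  intro x hx
  rw [Function.mem_support] at hx
  by_contra hcon
  apply hx
  funext p
  simp only [op, Pi.zero_apply]
  refine Finset.sum_eq_zero fun t _ => Finset.sum_eq_zero fun q _ => ?_
  have h1 : f ((z t)⁻¹ * x) = 0 := by
    by_contra h2
    apply hcon
    rw [Set.mem_iUnion]
    exact ⟨t, (z t)⁻¹ * x, h2, by group⟩
  rw [h1]
  simp

/-- finite support, hence summable -/
private lemma summ {f : H → P → ℂ} (hf : (Function.support f).Finite) {F : H → ℂ}
    (hF : ∀ x, f x = 0 → F x = 0) : Summable F :=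
  summable_of_hasFiniteSupport (hf.subset fun x hx h => hx (hF x h))

private lemma summR {f : H → P → ℂ} (hf : (Function.support f).Finite) {F : H → ℝ}
    (hF : ∀ x, f x = 0 → F x = 0) : Summable F :=
  summable_of_hasFiniteSupport (hf.subset fun x hx h => hx (hF x h))

/-- expansion of the inner product with the operator on the right -/
private lemma ip_op_right (z : T → H) (M : T → Matrix P P ℂ) {f : H → P → ℂ} (g : H → P → ℂ)
    (hf : (Function.support f).Finite) :
    ip f (op z M g) =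
      ∑ t, ∑ p, ∑ q, ∑' x, star (f x p) * (M t p q * g ((z t)⁻¹ * x) q) := by
  have hs : ∀ t p q, Summable fun x => star (f x p) * (M t p q * g ((z t)⁻¹ * x) q) :=
    fun t p q => summ hf fun x hx => by rw [hx]; simp
  unfold ip op
  have h1 : ∀ x, ∑ p, star (f x p) * ∑ t, ∑ q, M t p q * g ((z t)⁻¹ * x) q =
      ∑ t, ∑ p, ∑ q, star (f x p) * (M t p q * g ((z t)⁻¹ * x) q) := by
    intro x
    rw [Finset.sum_comm]
    refine Finset.sum_congr rfl fun p _ => ?_
    rw [Finset.mul_sum]
    exact Finset.sum_congr rfl fun t _ => Finset.mul_sum _ _ _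
  simp_rw [h1]
  rw [Summable.tsum_finsetSum fun t _ => summable_sum fun p _ => summable_sum fun q _ => hs t p q]
  refine Finset.sum_congr rfl fun t _ => ?_
  rw [Summable.tsum_finsetSum fun p _ => summable_sum fun q _ => hs t p q]
  refine Finset.sum_congr rfl fun p _ => ?_
  rw [Summable.tsum_finsetSum fun q _ => hs t p q]

/-- expansion of the inner product with the operator on the left -/
private lemma ip_op_left (z : T → H) (M : T → Matrix P P ℂ) (f : H → P → ℂ) {g : H → P → ℂ}
    (hg : (Function.support g).Finite) :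
    ip (op z M f) g =
      ∑ t, ∑ p, ∑ q, ∑' x, star (M t p q * f ((z t)⁻¹ * x) q) * g x p := by
  have hs : ∀ t p q, Summable fun x => star (M t p q * f ((z t)⁻¹ * x) q) * g x p :=
    fun t p q => summ hg fun x hx => by rw [hx]; simp
  unfold ip op
  have h1 : ∀ x, ∑ p, star (∑ t, ∑ q, M t p q * f ((z t)⁻¹ * x) q) * g x p =
      ∑ t, ∑ p, ∑ q, star (M t p q * f ((z t)⁻¹ * x) q) * g x p := by
    intro x
    rw [Finset.sum_comm]
    refine Finset.sum_congr rfl fun p _ => ?_
    rw [star_sum, Finset.sum_mul]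
    refine Finset.sum_congr rfl fun t _ => ?_
    rw [star_sum, Finset.sum_mul]
  simp_rw [h1]
  rw [Summable.tsum_finsetSum fun t _ => summable_sum fun p _ => summable_sum fun q _ => hs t p q]
  refine Finset.sum_congr rfl fun t _ => ?_
  rw [Summable.tsum_finsetSum fun p _ => summable_sum fun q _ => hs t p q]
  refine Finset.sum_congr rfl fun p _ => ?_
  rw [Summable.tsum_finsetSum fun q _ => hs t p q]

theorem ip_op_symm {z : T → H} {M : T → Matrix P P ℂ} {σ : Equiv.Perm T}
    (hz : ∀ t, z (σ t) = (z t)⁻¹) (hM : ∀ t, M (σ t) = (M t).conjTranspose) {f g : H → P → ℂ}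
    (hf : (Function.support f).Finite) (hg : (Function.support g).Finite) :
    ip (op z M f) g = ip f (op z M g) := by
  rw [ip_op_left z M f hg, ip_op_right z M g hf]
  rw [← Equiv.sum_comp σ fun t => ∑ p, ∑ q, ∑' x, star (f x p) * (M t p q * g ((z t)⁻¹ * x) q)]
  refine Finset.sum_congr rfl fun t _ => ?_
  rw [Finset.sum_comm]
  refine Finset.sum_congr rfl fun q _ => Finset.sum_congr rfl fun p _ => ?_
  rw [← (Equiv.mulLeft (z t)).tsum_eq]
  refine tsum_congr fun x => ?_
  rw [hz, hM, Matrix.conjTranspose_apply, inv_inv, Equiv.coe_mulLeft, inv_mul_cancel_left,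
    star_mul']
  ring

theorem re_ip_self {f : H → P → ℂ} (hf : (Function.support f).Finite) :
    (ip f f).re = ∑' x, ∑ p, ‖f x p‖ ^ 2 := by
  have h1 : ip f f = ((∑' x, ∑ p, ‖f x p‖ ^ 2 : ℝ) : ℂ) := by
    unfold ip
    rw [Complex.ofReal_tsum]
    refine tsum_congr fun x => ?_
    rw [Complex.ofReal_sum]
    refine Finset.sum_congr rfl fun p _ => ?_
    rw [Complex.ofReal_pow]
    exact Complex.conj_mul' _
  rw [h1, Complex.ofReal_re]

theorem abs_re_ip_op_le (z : T → H) (M : T → Matrix P P ℂ) {f : H → P → ℂ}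
    (hf : (Function.support f).Finite) : |(ip f (op z M f)).re| ≤ nrm M * (ip f f).re := by
  rw [ip_op_right z M f hf]
  refine (Complex.abs_re_le_norm _).trans ?_
  unfold nrm
  rw [Finset.sum_mul]
  refine (norm_sum_le _ _).trans (Finset.sum_le_sum fun t _ => ?_)
  rw [Finset.sum_mul]
  refine (norm_sum_le _ _).trans (Finset.sum_le_sum fun p _ => ?_)
  rw [Finset.sum_mul]
  refine (norm_sum_le _ _).trans (Finset.sum_le_sum fun q _ => ?_)
  set N := (ip f f).re with hN
  -- the sum of the squares of one component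
  have hsq : ∀ r, Summable fun x => ‖f x r‖ ^ 2 := fun r => summR hf fun x hx => by rw [hx]; simp
  have hcomp : ∀ r, ∑' x, ‖f x r‖ ^ 2 ≤ N := by
    intro r
    rw [hN, re_ip_self hf]
    refine (hsq r).tsum_le_tsum (fun x => ?_) (summable_sum fun p _ => hsq p)
    exact Finset.single_le_sum (f := fun p => ‖f x p‖ ^ 2) (fun p _ => sq_nonneg _)
      (Finset.mem_univ r)
  have hshift : ∀ r, Summable fun x => ‖f ((z t)⁻¹ * x) r‖ ^ 2 := fun r =>
    (Equiv.mulLeft (z t)⁻¹).summable_iff.2 (hsq r)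
  have hshift' : ∀ r, ∑' x, ‖f ((z t)⁻¹ * x) r‖ ^ 2 = ∑' x, ‖f x r‖ ^ 2 := fun r =>
    (Equiv.mulLeft (z t)⁻¹).tsum_eq fun x => ‖f x r‖ ^ 2
  have hsum : Summable fun x => ‖star (f x p) * (M t p q * f ((z t)⁻¹ * x) q)‖ :=
    summR hf fun x hx => by rw [hx]; simp
  refine (norm_tsum_le_tsum_norm hsum).trans ?_
  have hb : Summable fun x => ‖M t p q‖ * ((‖f x p‖ ^ 2 + ‖f ((z t)⁻¹ * x) q‖ ^ 2) / 2) :=
    (((hsq p).add (hshift q)).div_const 2).mul_left _
  refine (hsum.tsum_le_tsum (fun x => ?_) hb).trans ?_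
  · rw [norm_mul, norm_mul, norm_star]
    have h1 : ‖f x p‖ * ‖f ((z t)⁻¹ * x) q‖ ≤ (‖f x p‖ ^ 2 + ‖f ((z t)⁻¹ * x) q‖ ^ 2) / 2 := by
      nlinarith [sq_nonneg (‖f x p‖ - ‖f ((z t)⁻¹ * x) q‖)]
    calc ‖f x p‖ * (‖M t p q‖ * ‖f ((z t)⁻¹ * x) q‖)
        = ‖M t p q‖ * (‖f x p‖ * ‖f ((z t)⁻¹ * x) q‖) := by ring
      _ ≤ _ := mul_le_mul_of_nonneg_left h1 (norm_nonneg _)
  · rw [tsum_mul_left]
    refine mul_le_mul_of_nonneg_left ?_ (norm_nonneg _)
    rw [tsum_div_const, (hsq p).tsum_add (hshift q), hshift']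
    have h1 := hcomp p
    have h2 := hcomp q
    linarith

end

end Pool.Agent.Lib.EJS.TS
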