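import Pool.Agent.Lib.EJS.TSDefs

/-!
# TS5: the operators `op z M`, homomorphisms, translations, locality

PROOFS.  `op_comp`: `π (z⁻¹ x) = (π z)⁻¹ π x`.  `op_right`: `z⁻¹ (x a) = (z⁻¹ x) a`.  Iterates: induction on `m`
(`Function.iterate_succ_apply'`, for functions that depend on `f`).  `hop_iter_local`: prove more
generally for `B : ℕ → Finset H`, `B 0 = {1}`, `B (m + 1) = B m ∪ {b (z t)⁻¹ | b ∈ B m, t}` and every `x`: if
`f (b x) = g (b x)` for `b ∈ B m` then `hop^[m] f x = hop^[m] g x`.
-/

open scoped ComplexOrder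

namespace Pool.Agent.Lib.EJS.TS

section

variable {H : Type*} [Group H] {T P : Type*} [Fintype T] [Fintype P]

/-- pull back along a homomorphism -/
theorem op_comp {H' : Type*} [Group H'] (π : H' →* H) (z : T → H') (M : T → Matrix P P ℂ)
    (f : H → P → ℂ) (x : H') :
    op z M (fun y => f (π y)) x = op (fun t => π (z t)) M f (π x) := by
  funext p
  simp only [op, map_mul, map_inv]

/-- right translations -/
theorem op_right (z : T → H) (M : T → Matrix P P ℂ) (f : H → P → ℂ) (a x : H) :
    op z M (fun y => f (y * a)) x = op z M f (x * a) := by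
  funext p
  simp only [op, mul_assoc]

theorem hop_iter_comp {H' : Type*} [Group H'] (π : H' →* H) (L : ℝ) (z : T → H')
    (M : T → Matrix P P ℂ) (f : H → P → ℂ) (m : ℕ) (x : H') :
    (hop L z M)^[m] (fun y => f (π y)) x = (hop L (fun t => π (z t)) M)^[m] f (π x) := by
  induction m generalizing x with
  | zero => rfl
  | succ m ih =>
    rw [Function.iterate_succ_apply', Function.iterate_succ_apply']
    have h : (hop L z M)^[m] (fun y => f (π y)) =
        fun y => (hop L (fun t => π (z t)) M)^[m] f (π y) := funext ih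
    rw [h]
    funext p
    unfold hop
    rw [op_comp]

/-- locality: the value at `1` depends only on the values on a finite set -/
theorem hop_iter_local (L : ℝ) (z : T → H) (M : T → Matrix P P ℂ) (m : ℕ) :
    ∃ B : Finset H, ∀ f g : H → P → ℂ, (∀ b ∈ B, f b = g b) →
      (hop L z M)^[m] f 1 = (hop L z M)^[m] g 1 := by
  classical
  have key : ∀ m : ℕ, ∃ B : Finset H, ∀ (x : H) (f g : H → P → ℂ),
      (∀ b ∈ B, f (b * x) = g (b * x)) → (hop L z M)^[m] f x = (hop L z M)^[m] g x := by
    intro m
    induction m with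
    | zero =>
      refine ⟨{1}, fun x f g h => ?_⟩
      have := h 1 (Finset.mem_singleton_self 1)
      simpa using this
    | succ m ih =>
      obtain ⟨B, hB⟩ := ih
      refine ⟨B ∪ (Finset.univ ×ˢ B).image (fun tb : T × H => tb.2 * (z tb.1)⁻¹), ?_⟩
      intro x f g h
      rw [Function.iterate_succ_apply', Function.iterate_succ_apply']
      have h1 : (hop L z M)^[m] f x = (hop L z M)^[m] g x :=
        hB x f g fun b hb => h b (Finset.mem_union_left _ hb)
      have h2 : ∀ t, (hop L z M)^[m] f ((z t)⁻¹ * x) = (hop L z M)^[m] g ((z t)⁻¹ * x) := by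
        intro t
        apply hB
        intro b hb
        have := h (b * (z t)⁻¹) (Finset.mem_union_right _ (Finset.mem_image.2
          ⟨(t, b), Finset.mem_product.2 ⟨Finset.mem_univ _, hb⟩, rfl⟩))
        rwa [mul_assoc] at this
      funext p
      unfold hop op
      unfold hop op at h1 h2
      rw [h1]
      congr 1
      refine Finset.sum_congr rfl fun t _ => Finset.sum_congr rfl fun q _ => ?_
      rw [h2 t]
  obtain ⟨B, hB⟩ := key m
  refine ⟨B, fun f g h => hB 1 f g fun b hb => ?_⟩
  rw [mul_one]
  exact h b hb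

end

end Pool.Agent.Lib.EJS.TS
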